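import Pool.Agent.Q16.SQ.Stm

/-! Project SQ (MP_a03157_co), job ENUM. -/

set_option autoImplicit false

namespace Q76.SQE

open Q16.SQ

/-- code of a row -/
def cd (r : Fin 3 → ℕ) : ℕ := 16 * r 0 + 4 * r 1 + r 2

theorem cd_inj {r s : Fin 3 → ℕ} (hr : ∀ k, r k < 4) (hs : ∀ k, s k < 4) (h : cd r = cd s) :
    r = s := by
  unfold cd at h
  have h0 := hr 0
  have h1 := hr 1
  have h2 := hr 2
  have g0 := hs 0
  have g1 := hs 1
  have g2 := hs 2
  funext k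
  fin_cases k
  · show r 0 = s 0
    omega
  · show r 1 = s 1
    omega
  · show r 2 = s 2
    omega

/-- the codes are those of the rows of `T`, in some order -/
def pm (T : Fin 3 → Fin 3 → ℕ) (c0 c1 c2 : ℕ) : Bool :=
  (c0 == cd (T 0) && c1 == cd (T 1) && c2 == cd (T 2)) ||
  (c0 == cd (T 0) && c2 == cd (T 1) && c1 == cd (T 2)) ||
  (c1 == cd (T 0) && c0 == cd (T 1) && c2 == cd (T 2)) ||
  (c1 == cd (T 0) && c2 == cd (T 1) && c0 == cd (T 2)) ||
  (c2 == cd (T 0) && c0 == cd (T 1) && c1 == cd (T 2)) ||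
  (c2 == cd (T 0) && c1 == cd (T 1) && c0 == cd (T 2))

theorem perm_ex (κ T : Fin 3 → Fin 3 → ℕ) (a b c : Fin 3) (hab : a ≠ b) (hbc : b ≠ c) (hac : a ≠ c)
    (h0 : κ a = T 0) (h1 : κ b = T 1) (h2 : κ c = T 2) :
    ∃ π : Equiv.Perm (Fin 3), (fun j => κ (π j)) = T := by
  have hinj : Function.Injective (![a, b, c] : Fin 3 → Fin 3) := by
    intro i j hij
    fin_cases i <;> fin_cases j
    · rfl
    · exact absurd hij hab
    · exact absurd hij hac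
    · exact absurd hij.symm hab
    · rfl
    · exact absurd hij hbc
    · exact absurd hij.symm hac
    · exact absurd hij.symm hbc
    · rfl
  refine ⟨Equiv.ofBijective _ (Finite.injective_iff_bijective.1 hinj), ?_⟩
  funext j
  rw [Equiv.ofBijective_apply]
  fin_cases j
  · exact h0
  · exact h1
  · exact h2

theorem pm_spec {T κ : Fin 3 → Fin 3 → ℕ} (hT : ∀ i k, T i k < 4) (hκ : ∀ i k, κ i k < 4)
    (h : pm T (cd (κ 0)) (cd (κ 1)) (cd (κ 2)) = true) :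
    ∃ π : Equiv.Perm (Fin 3), (fun j => κ (π j)) = T := by
  unfold pm at h
  simp only [Bool.or_eq_true, Bool.and_eq_true, beq_iff_eq] at h
  have e : ∀ i j : Fin 3, cd (κ i) = cd (T j) → κ i = T j := fun i j h => cd_inj (hκ i) (hT j) h
  rcases h with (((((⟨⟨h0, h1⟩, h2⟩ | ⟨⟨h0, h1⟩, h2⟩) | ⟨⟨h0, h1⟩, h2⟩) | ⟨⟨h0, h1⟩, h2⟩) |
    ⟨⟨h0, h1⟩, h2⟩) | ⟨⟨h0, h1⟩, h2⟩)
  · exact perm_ex κ T 0 1 2 (by decide) (by decide) (by decide) (e _ _ h0) (e _ _ h1) (e _ _ h2)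
  · exact perm_ex κ T 0 2 1 (by decide) (by decide) (by decide) (e _ _ h0) (e _ _ h1) (e _ _ h2)
  · exact perm_ex κ T 1 0 2 (by decide) (by decide) (by decide) (e _ _ h0) (e _ _ h1) (e _ _ h2)
  · exact perm_ex κ T 1 2 0 (by decide) (by decide) (by decide) (e _ _ h0) (e _ _ h1) (e _ _ h2)
  · exact perm_ex κ T 2 0 1 (by decide) (by decide) (by decide) (e _ _ h0) (e _ _ h1) (e _ _ h2)
  · exact perm_ex κ T 2 1 0 (by decide) (by decide) (by decide) (e _ _ h0) (e _ _ h1) (e _ _ h2)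

/-- the check -/
def ok (b : Bool) (L : List (Fin 3 → Fin 3 → ℕ)) (c0 c1 c2 : ℕ) : Bool :=
  c0 == 0 || c1 == 0 || c2 == 0 || (b && (c0 == c1 || c0 == c2 || c1 == c2)) ||
    L.any (fun T => pm T c0 c1 c2)

theorem gen (s0 s1 s2 : ℕ) (hs0 : s0 < 4) (hs1 : s1 < 4) (hs2 : s2 < 4) (b : Bool)
    (L : List (Fin 3 → Fin 3 → ℕ)) (hL : ∀ T ∈ L, ∀ i k, T i k < 4)
    (hchk : ∀ x0 x1 : Fin (s0 + 1), ∀ y0 y1 : Fin (s1 + 1), ∀ z0 z1 : Fin (s2 + 1),
      (x0 : ℕ) + x1 ≤ s0 → (y0 : ℕ) + y1 ≤ s1 → (z0 : ℕ) + z1 ≤ s2 →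
      ok b L (16 * (x0 : ℕ) + 4 * (y0 : ℕ) + z0) (16 * (x1 : ℕ) + 4 * (y1 : ℕ) + z1)
        (16 * (s0 - x0 - x1) + 4 * (s1 - y0 - y1) + (s2 - z0 - z1)) = true)
    (κ : Fin 3 → Fin 3 → ℕ) (hrow : ∀ j, ∃ k, 0 < κ j k)
    (hsum : ∀ k, ∑ j, κ j k = (![s0, s1, s2] : Fin 3 → ℕ) k) :
    (b = true ∧ IsoK κ) ∨ ∃ T ∈ L, ∃ π : Equiv.Perm (Fin 3), (fun j => κ (π j)) = T := by
  have e0 : κ 0 0 + κ 1 0 + κ 2 0 = s0 := by
    have := hsum 0
    rw [Fin.sum_univ_three] at this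
    exact this
  have e1 : κ 0 1 + κ 1 1 + κ 2 1 = s1 := by
    have := hsum 1
    rw [Fin.sum_univ_three] at this
    exact this
  have e2 : κ 0 2 + κ 1 2 + κ 2 2 = s2 := by
    have := hsum 2
    rw [Fin.sum_univ_three] at this
    exact this
  have hκ : ∀ i k, κ i k < 4 := by
    intro i k
    fin_cases i <;> fin_cases k
    · show κ 0 0 < 4; omega
    · show κ 0 1 < 4; omega
    · show κ 0 2 < 4; omega
    · show κ 1 0 < 4; omega
    · show κ 1 1 < 4; omega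
    · show κ 1 2 < 4; omega
    · show κ 2 0 < 4; omega
    · show κ 2 1 < 4; omega
    · show κ 2 2 < 4; omega
  have hne : ∀ i, cd (κ i) ≠ 0 := by
    intro i h
    unfold cd at h
    obtain ⟨k, hk⟩ := hrow i
    have g0 : κ i 0 = 0 := by omega
    have g1 : κ i 1 = 0 := by omega
    have g2 : κ i 2 = 0 := by omega
    fin_cases k
    · have : 0 < κ i 0 := hk
      omega
    · have : 0 < κ i 1 := hk
      omega
    · have : 0 < κ i 2 := hk
      omega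
  have hc := hchk ⟨κ 0 0, by omega⟩ ⟨κ 1 0, by omega⟩ ⟨κ 0 1, by omega⟩ ⟨κ 1 1, by omega⟩
    ⟨κ 0 2, by omega⟩ ⟨κ 1 2, by omega⟩ (by show κ 0 0 + κ 1 0 ≤ s0; omega)
    (by show κ 0 1 + κ 1 1 ≤ s1; omega) (by show κ 0 2 + κ 1 2 ≤ s2; omega)
  have hc' : ok b L (cd (κ 0)) (cd (κ 1)) (cd (κ 2)) = true := by
    have f2 : cd (κ 2) = 16 * (s0 - κ 0 0 - κ 1 0) + 4 * (s1 - κ 0 1 - κ 1 1) +
        (s2 - κ 0 2 - κ 1 2) := by
      unfold cd
      omega
    rw [f2]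
    exact hc
  unfold ok at hc'
  simp only [Bool.or_eq_true, Bool.and_eq_true, beq_iff_eq, List.any_eq_true] at hc'
  rcases hc' with (((h | h) | h) | ⟨hb, (h | h) | h⟩) | ⟨T, hT, h⟩
  · exact absurd h (hne 0)
  · exact absurd h (hne 1)
  · exact absurd h (hne 2)
  · exact Or.inl ⟨hb, 0, 1, by decide, cd_inj (hκ 0) (hκ 1) h⟩
  · exact Or.inl ⟨hb, 0, 2, by decide, cd_inj (hκ 0) (hκ 2) h⟩
  · exact Or.inl ⟨hb, 1, 2, by decide, cd_inj (hκ 1) (hκ 2) h⟩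
  · exact Or.inr ⟨T, hT, pm_spec (hL T hT) hκ h⟩

theorem t_ENUM : S_ENUM := by
  intro κ hrow
  refine ⟨?_, ?_, ?_, ?_, ?_, ?_, ?_⟩
  · intro h
    rcases gen 1 1 1 (by decide) (by decide) (by decide) false
      [![![1, 0, 0], ![0, 1, 0], ![0, 0, 1]]] (by decide) (by decide) κ hrow h with
      ⟨hf, _⟩ | ⟨T, hT, π, hπ⟩
    · exact absurd hf (by decide)
    · rw [List.mem_singleton] at hT
      exact ⟨π, hπ.trans hT⟩
  · intro h
    rcases gen 2 0 1 (by decide) (by decide) (by decide) true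
      [] (by decide) (by decide) κ hrow h with ⟨_, hi⟩ | ⟨T, hT, _⟩
    · exact hi
    · exact absurd hT List.not_mem_nil
  · intro h
    rcases gen 0 0 3 (by decide) (by decide) (by decide) true
      [] (by decide) (by decide) κ hrow h with ⟨_, hi⟩ | ⟨T, hT, _⟩
    · exact hi
    · exact absurd hT List.not_mem_nil
  · intro h
    rcases gen 3 0 1 (by decide) (by decide) (by decide) true
      [![![1, 0, 0], ![2, 0, 0], ![0, 0, 1]]] (by decide) (by decide) κ hrow h with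
      ⟨_, hi⟩ | ⟨T, hT, π, hπ⟩
    · exact Or.inl hi
    · rw [List.mem_singleton] at hT
      exact Or.inr ⟨π, hπ.trans hT⟩
  · intro h
    rcases gen 2 2 0 (by decide) (by decide) (by decide) true
      [![![1, 0, 0], ![0, 1, 0], ![1, 1, 0]]] (by decide) (by decide) κ hrow h with
      ⟨_, hi⟩ | ⟨T, hT, π, hπ⟩
    · exact Or.inl hi
    · rw [List.mem_singleton] at hT
      exact Or.inr ⟨π, hπ.trans hT⟩
  · intro h
    rcases gen 3 2 0 (by decide) (by decide) (by decide) true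
      [![![1, 0, 0], ![0, 1, 0], ![2, 1, 0]], ![![2, 0, 0], ![1, 1, 0], ![0, 1, 0]],
        ![![2, 0, 0], ![0, 2, 0], ![1, 0, 0]]] (by decide) (by decide) κ hrow h with
      ⟨_, hi⟩ | ⟨T, hT, π, hπ⟩
    · exact Or.inl hi
    · simp only [List.mem_cons, List.not_mem_nil, or_false] at hT
      refine Or.inr ⟨π, ?_⟩
      rcases hT with hT | hT | hT
      · exact Or.inl (hπ.trans hT)
      · exact Or.inr (Or.inl (hπ.trans hT))
      · exact Or.inr (Or.inr (hπ.trans hT))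
  · intro h
    rcases gen 3 3 0 (by decide) (by decide) (by decide) true
      [![![1, 0, 0], ![0, 1, 0], ![2, 2, 0]], ![![3, 0, 0], ![0, 2, 0], ![0, 1, 0]],
        ![![0, 3, 0], ![2, 0, 0], ![1, 0, 0]], ![![2, 1, 0], ![1, 1, 0], ![0, 1, 0]],
        ![![1, 2, 0], ![1, 1, 0], ![1, 0, 0]], ![![2, 1, 0], ![0, 2, 0], ![1, 0, 0]],
        ![![1, 2, 0], ![2, 0, 0], ![0, 1, 0]], ![![2, 0, 0], ![1, 1, 0], ![0, 2, 0]]]
      (by decide) (by decide) κ hrow h with ⟨_, hi⟩ | ⟨T, hT, π, hπ⟩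
    · exact Or.inl hi
    · simp only [List.mem_cons, List.not_mem_nil, or_false] at hT
      refine Or.inr ⟨π, ?_⟩
      rcases hT with hT | hT | hT | hT | hT | hT | hT | hT
      · exact Or.inl (hπ.trans hT)
      · exact Or.inr (Or.inl (hπ.trans hT))
      · exact Or.inr (Or.inr (Or.inl (hπ.trans hT)))
      · exact Or.inr (Or.inr (Or.inr (Or.inl (hπ.trans hT))))
      · exact Or.inr (Or.inr (Or.inr (Or.inr (Or.inl (hπ.trans hT)))))
      · exact Or.inr (Or.inr (Or.inr (Or.inr (Or.inr (Or.inl (hπ.trans hT))))))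
      · exact Or.inr (Or.inr (Or.inr (Or.inr (Or.inr (Or.inr (Or.inl (hπ.trans hT)))))))
      · exact Or.inr (Or.inr (Or.inr (Or.inr (Or.inr (Or.inr (Or.inr (hπ.trans hT)))))))

end Q76.SQE
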