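import Pool.Agent.Q201.AR.Stm3

set_option autoImplicit false

/-!
# Project AR (MP_f714b8_lc), lemma NUM: the numerals in the standard model
-/

open FirstOrder FirstOrder.Language Pool.Agent.Helper227.EN

namespace Pool.Agent.Q76.AR_NUM

open Q201.AR

/-- the code of the numeral `n` is satisfied exactly by the assignments with `e 0 = n` -/
theorem sat_numc (n : ℕ) : ∀ e : ℕ → ℕ, @Sat ℕ stdStr (numc n) e ↔ e 0 = n := by
  letI : LA.Structure ℕ := stdStr
  induction n with
  | zero =>
    intro e
    rw [numc, Sat_cz]
    constructor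
    · intro h
      exact h.symm
    · intro h
      exact h.symm
  | succ n ih =>
    intro e
    rw [numc, Sat_cex]
    constructor
    · rintro ⟨x, h⟩
      rw [Sat_cex] at h
      obtain ⟨y, h⟩ := h
      rw [Sat_cand, Sat_cand, Sat_co, Sat_cad, Sat_cex] at h
      obtain ⟨h1, h2, z, h3⟩ := h
      rw [Sat_cand, Sat_ceq, ih] at h3
      obtain ⟨h4, h5⟩ := h3
      simp only [Function.update_self, ne_eq, OfNat.ofNat_ne_zero, OfNat.one_ne_ofNat,
        OfNat.zero_ne_ofNat, zero_ne_one, one_ne_zero, not_false_eq_true,
        Function.update_of_ne] at h1 h2 h4 h5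
      have h1' : (1 : ℕ) = y := h1
      have h2' : x + y = e 0 := h2
      omega
    · intro h
      refine ⟨n, ?_⟩
      rw [Sat_cex]
      refine ⟨1, ?_⟩
      rw [Sat_cand, Sat_cand, Sat_co, Sat_cad, Sat_cex]
      refine ⟨?_, ?_, n, ?_⟩
      · simp only [Function.update_self]
        rfl
      · simp only [Function.update_self, ne_eq, OfNat.ofNat_ne_zero, OfNat.one_ne_ofNat,
          OfNat.zero_ne_ofNat, zero_ne_one, one_ne_zero, not_false_eq_true,
          Function.update_of_ne]
        exact h.symm
      · rw [Sat_cand, Sat_ceq, ih]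
        simp only [Function.update_self, ne_eq, OfNat.ofNat_ne_zero, OfNat.one_ne_ofNat,
          OfNat.zero_ne_ofNat, zero_ne_one, one_ne_zero, not_false_eq_true,
          Function.update_of_ne, and_self]

/-- NUM -/
theorem t_NUM : S_NUM := fun n m => sat_numc n fun _ => m

end Pool.Agent.Q76.AR_NUM
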