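import Mathlib

/-!
# Assouad dimension of projections of self-similar sets: definitions
-/

namespace Q76.AP

open Set

/-- Euclidean space. -/
abbrev E (d : ℕ) := EuclideanSpace ℝ (Fin d)

/-- The orthogonal group of Euclidean space. -/
abbrev Isom (d : ℕ) := E d ≃ₗᵢ[ℝ] E d

variable {d : ℕ}

/-- The similarity `x ↦ c O x + t`. -/
noncomputable def simMap (c : ℝ) (O : Isom d) (t : E d) (x : E d) : E d := c • O x + t

/-- `F` is the attractor of the similarities `S_i x = c_i O_i x + t_i`. -/
structure IsAttractor {ι : Type} (c : ι → ℝ) (O : ι → Isom d) (t : ι → E d)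
    (F : Set (E d)) : Prop where
  nonempty : F.Nonempty
  compact : IsCompact F
  eq : F = ⋃ i, simMap (c i) (O i) (t i) '' F

/-- Operator norm closeness of two isometries: `‖A - B‖ ≤ ε`. -/
def Near (A B : Isom d) (ε : ℝ) : Prop := ∀ x, ‖A x - B x‖ ≤ ε * ‖x‖

/-- Determinant one. -/
def SO (U : Isom d) : Prop := LinearMap.det (U.toLinearEquiv : E d →ₗ[ℝ] E d) = 1

/-- The group generated by the orthogonal maps `O_i`. -/
noncomputable def genGroup {ι : Type} (O : ι → Isom d) : Subgroup (Isom d) := Subgroup.closure (range O)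

/-- The closure (in the operator norm) of the group generated by the orthogonal maps `O_i`
contains the rotation group. -/
def RotationsDense {ι : Type} (O : ι → Isom d) : Prop :=
  ∀ U : Isom d, SO U → ∀ ε : ℝ, 0 < ε → ∃ γ ∈ genGroup O, Near γ U ε

/-- `A` is covered by `m` open sets of diameter at most `r`, that is `N_r(A) ≤ m`. -/
def CoveredBy (A : Set (E d)) (r : ℝ) (m : ℕ) : Prop :=
  ∃ U : Fin m → Set (E d), (∀ j, IsOpen (U j) ∧ Metric.ediam (U j) ≤ ENNReal.ofReal r) ∧
    A ⊆ ⋃ j, U j

/-- The exponents `s` with `N_r(B(x, R) ∩ A) ≤ C (R / r)^s` for some constant `C`. -/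
def assouadExponents (A : Set (E d)) : Set ℝ :=
  {s | 0 ≤ s ∧ ∃ C : ℝ, 0 < C ∧ ∀ x ∈ A, ∀ r R : ℝ, 0 < r → r < R →
    ∃ m : ℕ, CoveredBy (Metric.ball x R ∩ A) r m ∧ (m : ℝ) ≤ C * (R / r) ^ s}

/-- The Assouad dimension. -/
noncomputable def assouadDim (A : Set (E d)) : ℝ := sInf (assouadExponents A)

/-- The orthogonal projection of `F` to the subspace `V`. -/
noncomputable def projSet (V : Submodule ℝ (E d)) (F : Set (E d)) : Set (E d) :=
  V.starProjection '' F

end Q76.AP
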