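import Mathlib
import Pool.Agent.Q76.ApDefs

/-!
# Rotations: recurrence and explicit rotations between two vectors
-/

namespace Q76.AP

open Set Topology Filter Submodule

variable {d : ℕ}

lemma Near.symm {A B : E d ≃ₗᵢ[ℝ] E d} {ε : ℝ} (h : Near A B ε) : Near B A ε := fun x => by
  rw [norm_sub_rev]; exact h x

lemma Near.trans {A B C : E d ≃ₗᵢ[ℝ] E d} {ε δ : ℝ} (h : Near A B ε) (h' : Near B C δ) :
    Near A C (ε + δ) := fun x => by
  calc ‖A x - C x‖ = ‖(A x - B x) + (B x - C x)‖ := by congr 1; abel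
    _ ≤ ‖A x - B x‖ + ‖B x - C x‖ := norm_add_le _ _
    _ ≤ ε * ‖x‖ + δ * ‖x‖ := add_le_add (h x) (h' x)
    _ = _ := by ring

lemma Near.mono {A B : E d ≃ₗᵢ[ℝ] E d} {ε δ : ℝ} (h : Near A B ε) (h' : ε ≤ δ) : Near A B δ :=
  fun x => (h x).trans (mul_le_mul_of_nonneg_right h' (norm_nonneg x))

lemma Near.mul_left {A B : E d ≃ₗᵢ[ℝ] E d} {ε : ℝ} (C : E d ≃ₗᵢ[ℝ] E d) (h : Near A B ε) :
    Near (C * A) (C * B) ε := fun x => by
  show ‖C (A x) - C (B x)‖ ≤ _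
  rw [← map_sub, LinearIsometryEquiv.norm_map]
  exact h x

lemma Near.mul_right {A B : E d ≃ₗᵢ[ℝ] E d} {ε : ℝ} (C : E d ≃ₗᵢ[ℝ] E d) (h : Near A B ε) :
    Near (A * C) (B * C) ε := fun x => by
  show ‖A (C x) - B (C x)‖ ≤ _
  have := h (C x)
  rwa [LinearIsometryEquiv.norm_map] at this

lemma near_refl (A : E d ≃ₗᵢ[ℝ] E d) : Near A A 0 := fun x => by simp

/-- Powers of an isometry return close to the identity. -/
lemma exists_pow_near (A : E d ≃ₗᵢ[ℝ] E d) {ε : ℝ} (hε : 0 < ε) :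
    ∃ n : ℕ, 1 ≤ n ∧ Near (A ^ n) 1 ε := by
  set a : ℕ → (E d →L[ℝ] E d) := fun n => (A ^ n).toLinearIsometry.toContinuousLinearMap with ha
  have hb : ∀ n, a n ∈ Metric.closedBall (0 : E d →L[ℝ] E d) 1 := by
    intro n
    rw [Metric.mem_closedBall, dist_zero_right]
    exact LinearIsometry.norm_toContinuousLinearMap_le _
  obtain ⟨L, _, φ, hφ, hL⟩ := tendsto_subseq_of_bounded Metric.isBounded_closedBall hb
  have hc := hL.cauchySeq
  rw [Metric.cauchySeq_iff] at hc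
  obtain ⟨N, hN⟩ := hc ε hε
  have h1 := hN (N + 1) (by omega) N le_rfl
  have h2 : φ N < φ (N + 1) := hφ (by omega)
  refine ⟨φ (N + 1) - φ N, by omega, fun x => ?_⟩
  have h3 : ‖(a (φ (N + 1)) - a (φ N)) x‖ ≤ ε * ‖x‖ := by
    refine (ContinuousLinearMap.le_opNorm _ _).trans ?_
    gcongr
    rw [← dist_eq_norm]
    exact h1.le
  have h4 : A ^ φ (N + 1) = A ^ φ N * A ^ (φ (N + 1) - φ N) := by
    rw [← pow_add]
    congr 1
    omega
  have h5 : (a (φ (N + 1)) - a (φ N)) x = (A ^ φ N) ((A ^ (φ (N + 1) - φ N)) x - x) := by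
    rw [map_sub]
    show (A ^ φ (N + 1)) x - (A ^ φ N) x = _
    rw [h4]
    rfl
  rw [h5, LinearIsometryEquiv.norm_map] at h3
  exact h3

lemma SO.mul {A B : E d ≃ₗᵢ[ℝ] E d} (hA : SO A) (hB : SO B) : SO (A * B) := by
  unfold SO at *
  have : ((A * B).toLinearEquiv : E d →ₗ[ℝ] E d) =
      (A.toLinearEquiv : E d →ₗ[ℝ] E d) ∘ₗ (B.toLinearEquiv : E d →ₗ[ℝ] E d) := rfl
  rw [this, LinearMap.det_comp, hA, hB, mul_one]

lemma SO_one : SO (1 : E d ≃ₗᵢ[ℝ] E d) := by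
  unfold SO
  have : ((1 : E d ≃ₗᵢ[ℝ] E d).toLinearEquiv : E d →ₗ[ℝ] E d) = LinearMap.id := rfl
  rw [this, LinearMap.det_id]

lemma SO.inv {A : E d ≃ₗᵢ[ℝ] E d} (hA : SO A) : SO A⁻¹ := by
  have h1 : A * A⁻¹ = 1 := mul_inv_cancel A
  unfold SO at *
  have h2 : ((A * A⁻¹).toLinearEquiv : E d →ₗ[ℝ] E d) =
      (A.toLinearEquiv : E d →ₗ[ℝ] E d) ∘ₗ ((A⁻¹).toLinearEquiv : E d →ₗ[ℝ] E d) := rfl
  have h3 := SO_one (d := d)
  unfold SO at h3
  rw [← h1, h2, LinearMap.det_comp, hA, one_mul] at h3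
  exact h3

/-- The reflection in the hyperplane orthogonal to `u`. -/
noncomputable def rf (u : E d) : E d ≃ₗᵢ[ℝ] E d := (ℝ ∙ u)ᗮ.reflection

lemma rf_apply (u z : E d) : rf u z = z - (2 * (inner ℝ u z / ‖u‖ ^ 2)) • u := by
  unfold rf
  rw [reflection_orthogonal_apply, reflection_apply, starProjection_singleton]
  simp only [RCLike.ofReal_real_eq_id, id_eq]
  rw [neg_sub]
  congr 1
  rw [two_smul, ← add_smul]
  congr 1
  ring

lemma rf_det {u : E d} (hu : u ≠ 0) :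
    LinearMap.det ((rf u).toLinearEquiv : E d →ₗ[ℝ] E d) = -1 := by
  have h := (ℝ ∙ u)ᗮ.det_reflection
  rw [orthogonal_orthogonal, finrank_span_singleton hu, pow_one] at h
  exact h

/-- A rotation taking `x` to `y`. -/
noncomputable def rot (x y : E d) : E d ≃ₗᵢ[ℝ] E d := rf (x + y) * rf x

lemma rot_SO {x y : E d} (hx : x ≠ 0) (hxy : x + y ≠ 0) : SO (rot x y) := by
  unfold SO rot
  have : ((rf (x + y) * rf x).toLinearEquiv : E d →ₗ[ℝ] E d) =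
      ((rf (x + y)).toLinearEquiv : E d →ₗ[ℝ] E d) ∘ₗ ((rf x).toLinearEquiv : E d →ₗ[ℝ] E d) := rfl
  rw [this, LinearMap.det_comp, rf_det hx, rf_det hxy]
  norm_num

lemma rot_apply {x y : E d} (hxy : x + y ≠ 0) (h : ‖x‖ = ‖y‖) : rot x y x = y := by
  show rf (x + y) (rf x x) = y
  have h1 : rf x x = -x := by
    unfold rf
    exact reflection_orthogonalComplement_singleton_eq_neg x
  have h2 : ‖x + y‖ ^ 2 ≠ 0 := by
    have := norm_ne_zero_iff.mpr hxy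
    positivity
  rw [h1, map_neg, rf_apply]
  have h3 : 2 * (inner ℝ (x + y) x / ‖x + y‖ ^ 2) = 1 := by
    have h4 : ‖x + y‖ ^ 2 = 2 * inner ℝ (x + y) x := by
      rw [← real_inner_self_eq_norm_sq, inner_add_add_self, inner_add_left]
      rw [real_inner_self_eq_norm_sq, real_inner_self_eq_norm_sq, ← h, real_inner_comm]
      ring
    rw [h4] at h2 ⊢
    have h5 : inner ℝ (x + y) x ≠ 0 := fun h0 => h2 (by rw [h0, mul_zero])
    rw [mul_div_assoc', div_self h2]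
  rw [h3, one_smul]
  abel

lemma rf_unit (u z : E d) (hu : u ≠ 0) :
    rf u z = z - (2 * inner ℝ (‖u‖⁻¹ • u) z) • (‖u‖⁻¹ • u) := by
  rw [rf_apply, inner_smul_left, smul_smul]
  congr 2
  have : ‖u‖ ≠ 0 := norm_ne_zero_iff.mpr hu
  simp only [conj_trivial]
  field_simp

lemma norm_unit_sub {x w : E d} (hx : x ≠ 0) (hw : w ≠ 0) :
    ‖‖x‖⁻¹ • x - ‖w‖⁻¹ • w‖ ≤ 2 * ‖x - w‖ / ‖x‖ := by
  have hx' : 0 < ‖x‖ := norm_pos_iff.mpr hx
  have hw' : 0 < ‖w‖ := norm_pos_iff.mpr hw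
  have e : ‖x‖⁻¹ • x - ‖w‖⁻¹ • w = ‖x‖⁻¹ • (x - w) + (‖x‖⁻¹ - ‖w‖⁻¹) • w := by
    rw [smul_sub, sub_smul]
    abel
  rw [e]
  have h1 : ‖‖x‖⁻¹ • (x - w)‖ = ‖x - w‖ / ‖x‖ := by
    rw [norm_smul, norm_inv, norm_norm, inv_mul_eq_div]
  have h2 : ‖(‖x‖⁻¹ - ‖w‖⁻¹) • w‖ ≤ ‖x - w‖ / ‖x‖ := by
    rw [norm_smul, Real.norm_eq_abs]
    have h3 : |‖x‖⁻¹ - ‖w‖⁻¹| * ‖w‖ = |‖w‖ - ‖x‖| / ‖x‖ := by
      have h4 : ‖x‖⁻¹ - ‖w‖⁻¹ = (‖w‖ - ‖x‖) / (‖x‖ * ‖w‖) := by field_simp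
      rw [h4, abs_div, abs_of_pos (mul_pos hx' hw')]
      field_simp
    rw [h3]
    gcongr
    rw [norm_sub_rev]
    exact abs_norm_sub_norm_le w x
  calc _ ≤ _ := norm_add_le _ _
    _ ≤ ‖x - w‖ / ‖x‖ + ‖x - w‖ / ‖x‖ := add_le_add h1.le h2
    _ = _ := by ring

lemma rf_near {x u : E d} (hx : x ≠ 0) (hu : u ≠ 0) (z : E d) :
    ‖rf u z - rf x z‖ ≤ 4 * ‖‖x‖⁻¹ • x - ‖u‖⁻¹ • u‖ * ‖z‖ := by
  rw [rf_unit u z hu, rf_unit x z hx]
  set a := ‖x‖⁻¹ • x with ha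
  set b := ‖u‖⁻¹ • u with hb
  have ha1 : ‖a‖ = 1 := by
    rw [ha, norm_smul, norm_inv, norm_norm, inv_mul_cancel₀ (norm_ne_zero_iff.mpr hx)]
  have hb1 : ‖b‖ = 1 := by
    rw [hb, norm_smul, norm_inv, norm_norm, inv_mul_cancel₀ (norm_ne_zero_iff.mpr hu)]
  have e : (z - (2 * inner ℝ b z) • b) - (z - (2 * inner ℝ a z) • a) =
      (2 : ℝ) • ((inner ℝ (a - b) z) • a + (inner ℝ b z) • (a - b)) := by
    have e' : ∀ (p q : ℝ) (a b z : E d), (z - (2 * q) • b) - (z - (2 * p) • a) =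
        (2 : ℝ) • ((p - q) • a + q • (a - b)) := by intro p q a b z; module
    rw [inner_sub_left]
    exact e' _ _ _ _ _
  rw [e, norm_smul]
  have h1 : ‖(inner ℝ (a - b) z) • a‖ ≤ ‖a - b‖ * ‖z‖ := by
    rw [norm_smul, ha1, mul_one]
    exact norm_inner_le_norm _ _
  have h2 : ‖(inner ℝ b z) • (a - b)‖ ≤ ‖a - b‖ * ‖z‖ := by
    rw [norm_smul]
    have := norm_inner_le_norm (𝕜 := ℝ) b z
    rw [hb1, one_mul] at this
    calc _ ≤ ‖z‖ * ‖a - b‖ := mul_le_mul_of_nonneg_right this (norm_nonneg _)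
      _ = _ := mul_comm _ _
  have h3 := norm_add_le ((inner ℝ (a - b) z) • a) ((inner ℝ b z) • (a - b))
  rw [Real.norm_ofNat]
  linarith

/-- The rotation is close to the identity when the vectors are close. -/
lemma rot_near {x y : E d} (hx : x ≠ 0) (hxy : x + y ≠ 0) :
    Near (rot x y) 1 (4 * (‖x - y‖ / ‖x‖)) := by
  intro z
  have hx' : 0 < ‖x‖ := norm_pos_iff.mpr hx
  have h1 : rf x (rf x z) = z := by
    unfold rf
    exact reflection_reflection _ z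
  have h2 : rot x y z - (1 : E d ≃ₗᵢ[ℝ] E d) z = rf (x + y) (rf x z) - rf x (rf x z) := by
    rw [h1]
    rfl
  rw [h2]
  refine (rf_near hx hxy (rf x z)).trans ?_
  rw [LinearIsometryEquiv.norm_map]
  gcongr
  -- compare with the half of `x + y`
  set w := (1 / 2 : ℝ) • (x + y) with hw
  have hw0 : w ≠ 0 := smul_ne_zero (by norm_num) hxy
  have e1 : ‖w‖⁻¹ • w = ‖x + y‖⁻¹ • (x + y) := by
    rw [hw, norm_smul, smul_smul, mul_inv]
    congr 1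
    rw [Real.norm_of_nonneg (by norm_num)]
    ring
  rw [← e1]
  refine (norm_unit_sub hx hw0).trans ?_
  have e2 : x - w = (1 / 2 : ℝ) • (x - y) := by
    rw [hw, smul_add, smul_sub]
    have : x = (1 / 2 : ℝ) • x + (1 / 2 : ℝ) • x := by rw [← add_smul]; norm_num
    nth_rewrite 1 [this]
    abel
  rw [e2, norm_smul, Real.norm_of_nonneg (by norm_num)]
  apply le_of_eq
  ring

end Q76.AP
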