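import Mathlib
import Pool.Agent.Q76.ApRot

/-!
# Words of a self-similar system and approximation of rotations
-/

namespace Q76.AP

open Set Topology Filter

variable {d : ℕ} {ι : Type}

/-- Contraction ratio of a word. -/
noncomputable def cW (c : ι → ℝ) (w : List ι) : ℝ := (w.map c).prod

/-- Linear part of a word. -/
noncomputable def OW (O : ι → (E d ≃ₗᵢ[ℝ] E d)) (w : List ι) : E d ≃ₗᵢ[ℝ] E d := (w.map O).prod

/-- The similarity of a word. -/
noncomputable def SW (c : ι → ℝ) (O : ι → (E d ≃ₗᵢ[ℝ] E d)) (t : ι → E d) (w : List ι) (x : E d) : E d :=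
  w.foldr (fun i y => c i • O i y + t i) x

variable {c : ι → ℝ} {O : ι → (E d ≃ₗᵢ[ℝ] E d)} {t : ι → E d}

lemma cW_append (v w : List ι) : cW c (v ++ w) = cW c v * cW c w := by simp [cW]

lemma OW_append (v w : List ι) : OW O (v ++ w) = OW O v * OW O w := by simp [OW]

lemma SW_append (v w : List ι) (x : E d) : SW c O t (v ++ w) x = SW c O t v (SW c O t w x) := by
  simp [SW]

lemma SW_cons (i : ι) (w : List ι) (x : E d) :
    SW c O t (i :: w) x = c i • O i (SW c O t w x) + t i := rfl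

lemma SW_sub (w : List ι) (x y : E d) :
    SW c O t w x - SW c O t w y = cW c w • OW O w (x - y) := by
  induction w with
  | nil => simp [SW, cW, OW]
  | cons i w ih =>
    rw [SW_cons, SW_cons, add_sub_add_right_eq_sub, ← smul_sub, ← map_sub, ih, map_smul, smul_smul]
    simp only [cW, OW, List.map_cons, List.prod_cons]
    rfl

lemma cW_pos (hc : ∀ i, 0 < c i ∧ c i < 1) (w : List ι) : 0 < cW c w := by
  induction w with
  | nil => simp [cW]
  | cons i w ih =>
    simp only [cW, List.map_cons, List.prod_cons] at ih ⊢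
    exact mul_pos (hc i).1 ih

lemma cW_le_one (hc : ∀ i, 0 < c i ∧ c i < 1) (w : List ι) : cW c w ≤ 1 := by
  induction w with
  | nil => simp [cW]
  | cons i w ih =>
    have h := cW_pos hc w
    simp only [cW, List.map_cons, List.prod_cons] at ih h ⊢
    exact mul_le_one₀ (hc i).2.le h.le ih

lemma cW_le_pow (hc : ∀ i, 0 < c i ∧ c i < 1) {M : ℝ} (hM : ∀ i, c i ≤ M) (hM0 : 0 ≤ M)
    (w : List ι) : cW c w ≤ M ^ w.length := by
  induction w with
  | nil => simp [cW]
  | cons i w ih =>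
    have h := cW_pos hc w
    simp only [cW, List.map_cons, List.prod_cons, List.length_cons] at ih h ⊢
    rw [pow_succ']
    exact mul_le_mul (hM i) ih h.le hM0

lemma SW_mem {F : Set (E d)} (hF : IsAttractor c O t F) (w : List ι) {x : E d} (hx : x ∈ F) :
    SW c O t w x ∈ F := by
  induction w with
  | nil => exact hx
  | cons i w ih =>
    rw [SW_cons]
    rw [hF.eq]
    exact mem_iUnion.mpr ⟨i, SW c O t w x, ih, rfl⟩

lemma exists_word_at {F : Set (E d)} (hF : IsAttractor c O t F) (n : ℕ) :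
    ∀ p ∈ F, ∃ w : List ι, w.length = n ∧ ∃ x ∈ F, SW c O t w x = p := by
  induction n with
  | zero => intro p hp; exact ⟨[], rfl, p, hp, rfl⟩
  | succ n ih =>
    intro p hp
    have hp' := hp
    rw [hF.eq] at hp'
    obtain ⟨i, y, hy, hyp⟩ := mem_iUnion.mp hp'
    obtain ⟨w, hw, x, hx, hxy⟩ := ih y hy
    refine ⟨i :: w, by simp [hw], x, hx, ?_⟩
    rw [SW_cons, hxy]
    exact hyp

/-- The semigroup approximates the group. -/
lemma approx_group {γ : E d ≃ₗᵢ[ℝ] E d} (hγ : γ ∈ Subgroup.closure (range O)) :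
    ∀ ε : ℝ, 0 < ε → ∃ w : List ι, Near (OW O w) γ ε := by
  induction hγ using Subgroup.closure_induction with
  | mem x hx =>
    intro ε hε
    obtain ⟨i, rfl⟩ := hx
    exact ⟨[i], by
      have : OW O [i] = O i := by simp [OW]
      rw [this]
      exact (near_refl _).mono hε.le⟩
  | one =>
    intro ε hε
    exact ⟨[], by
      have : OW O [] = (1 : E d ≃ₗᵢ[ℝ] E d) := by simp [OW]
      rw [this]
      exact (near_refl _).mono hε.le⟩
  | mul x y _ _ hx hy =>
    intro ε hε
    obtain ⟨v, hv⟩ := hx (ε / 2) (by positivity)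
    obtain ⟨w, hw⟩ := hy (ε / 2) (by positivity)
    refine ⟨v ++ w, ?_⟩
    rw [OW_append]
    have h1 := (hv.mul_right (OW O w)).trans (hw.mul_left x)
    rwa [add_halves] at h1
  | inv x _ hx =>
    intro ε hε
    obtain ⟨w, hw⟩ := hx (ε / 2) (by positivity)
    obtain ⟨n, hn1, hn⟩ := exists_pow_near (OW O w) (half_pos hε)
    refine ⟨(List.replicate (n - 1) w).flatten, ?_⟩
    have h1 : OW O (List.replicate (n - 1) w).flatten = OW O w ^ (n - 1) := by
      generalize n - 1 = k
      induction k with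
      | zero => simp [OW]
      | succ k ih => rw [List.replicate_succ, List.flatten_cons, OW_append, ih, pow_succ']
    rw [h1]
    -- `A^(n-1) = A⁻¹ A^n` is close to `A⁻¹`, which is close to `x⁻¹`
    set A := OW O w with hA
    have h2 : A ^ (n - 1) = A⁻¹ * A ^ n := by
      obtain ⟨k, rfl⟩ : ∃ k, n = k + 1 := ⟨n - 1, by omega⟩
      rw [Nat.add_sub_cancel, pow_succ', ← mul_assoc, inv_mul_cancel, one_mul]
    have h3 : Near (A ^ (n - 1)) A⁻¹ (ε / 2) := by
      rw [h2]
      have := hn.mul_left A⁻¹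
      rwa [mul_one] at this
    have h4 : Near A⁻¹ x⁻¹ (ε / 2) := by
      have h5 := ((hw.mul_right x⁻¹).mul_left A⁻¹).symm
      rwa [mul_inv_cancel, mul_one, ← mul_assoc, inv_mul_cancel, one_mul] at h5
    have := h3.trans h4
    rwa [add_halves] at this

lemma approx (hd : RotationsDense O) {U : E d ≃ₗᵢ[ℝ] E d} (hU : SO U) {ε : ℝ} (hε : 0 < ε) :
    ∃ w : List ι, Near (OW O w) U ε := by
  obtain ⟨γ, hγ, h⟩ := hd U hU (ε / 2) (half_pos hε)
  obtain ⟨w, hw⟩ := approx_group hγ (ε / 2) (half_pos hε)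
  refine ⟨w, ?_⟩
  have := hw.trans h
  rwa [add_halves] at this

/-- Words with prescribed rotation, small ratio, and image close to a prescribed point. -/
lemma approx_at [Finite ι] (hc : ∀ i, 0 < c i ∧ c i < 1) {F : Set (E d)}
    (hF : IsAttractor c O t F) (hd : RotationsDense O) {U : E d ≃ₗᵢ[ℝ] E d} (hU : SO U)
    {p : E d} (hp : p ∈ F) {ε : ℝ} (hε : 0 < ε) :
    ∃ w : List ι, Near (OW O w) U ε ∧ cW c w ≤ ε ∧ ∀ x ∈ F, ‖SW c O t w x - p‖ ≤ ε := by
  -- the maximal ratio
  have hne : Nonempty ι := by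
    obtain ⟨x, hx⟩ := hF.nonempty
    rw [hF.eq] at hx
    exact ⟨(mem_iUnion.mp hx).choose⟩
  obtain ⟨i0, hi0⟩ := Finite.exists_max c
  set M := c i0 with hM
  -- the diameter
  obtain ⟨D, hD⟩ := hF.compact.isBounded.subset_closedBall 0
  have hdiam : ∀ x ∈ F, ∀ y ∈ F, ‖x - y‖ ≤ 2 * |D| := by
    intro x hx y hy
    have h1 : ‖x‖ ≤ D := by simpa using hD hx
    have h2 : ‖y‖ ≤ D := by simpa using hD hy
    have := norm_sub_le x y
    have := le_abs_self D
    linarith
  obtain ⟨n, hn⟩ := exists_pow_lt_of_lt_one (show 0 < ε / (2 * |D| + 1) by positivity) (hc i0).2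
  rw [lt_div_iff₀ (by positivity)] at hn
  obtain ⟨w₁, hw₁, x₁, hx₁, hx₁p⟩ := exists_word_at hF n p hp
  obtain ⟨k, hk1, hk⟩ := exists_pow_near (OW O w₁) (half_pos hε)
  obtain ⟨w₂, hw₂⟩ := approx hd hU (half_pos hε)
  have hpow0 : 0 ≤ M ^ n := pow_nonneg (hc i0).1.le _
  have hM1 : M ^ n ≤ ε := by
    have := abs_nonneg D
    nlinarith
  refine ⟨(List.replicate k w₁).flatten ++ w₂, ?_, ?_, ?_⟩
  · rw [OW_append]
    have h1 : OW O (List.replicate k w₁).flatten = OW O w₁ ^ k := by
      clear hk hk1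
      induction k with
      | zero => simp [OW]
      | succ k ih => rw [List.replicate_succ, List.flatten_cons, OW_append, ih, pow_succ']
    rw [h1]
    have := (hk.mul_right (OW O w₂)).trans (by rw [one_mul]; exact hw₂)
    rwa [add_halves] at this
  · obtain ⟨j, rfl⟩ : ∃ j, k = j + 1 := ⟨k - 1, by omega⟩
    rw [List.replicate_succ, List.flatten_cons, List.append_assoc, cW_append]
    have h1 := cW_le_pow hc hi0 (hc i0).1.le w₁
    rw [hw₁] at h1
    have h2 := cW_le_one hc ((List.replicate j w₁).flatten ++ w₂)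
    have h3 := cW_pos hc ((List.replicate j w₁).flatten ++ w₂)
    calc _ ≤ M ^ n * 1 := mul_le_mul h1 h2 h3.le hpow0
      _ ≤ ε := by rw [mul_one]; exact hM1
  · intro x hx
    obtain ⟨j, rfl⟩ : ∃ j, k = j + 1 := ⟨k - 1, by omega⟩
    rw [List.replicate_succ, List.flatten_cons, List.append_assoc, SW_append, ← hx₁p, SW_sub,
      norm_smul, LinearIsometryEquiv.norm_map, Real.norm_of_nonneg (cW_pos hc _).le]
    have h1 := cW_le_pow hc hi0 (hc i0).1.le w₁
    rw [hw₁] at h1
    have h2 := hdiam _ (SW_mem hF ((List.replicate j w₁).flatten ++ w₂) hx) _ hx₁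
    calc _ ≤ M ^ n * (2 * |D|) := mul_le_mul h1 h2 (norm_nonneg _) hpow0
      _ ≤ ε := by nlinarith

end Q76.AP
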