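import Mathlib
import Pool.Agent.Q76.ApWords

/-!
# Approximate grids in the projections
-/

namespace Q76.AP

open Set Topology Filter

variable {d : ℕ} {ι : Type} {c : ι → ℝ} {O : ι → (E d ≃ₗᵢ[ℝ] E d)} {t : ι → E d}

lemma exists_target (V : Submodule ℝ (E d)) {e : E d} (he : e ∈ Vᗮ) (he1 : ‖e‖ = 1) {T : E d}
    (hT : T ∈ V) {N : ℝ} (hN : ‖T‖ ≤ N) :
    ∃ x : E d, ‖x‖ = N ∧ V.starProjection x = T ∧ ‖x - N • e‖ ≤ 2 * ‖T‖ := by
  have hT0 : 0 ≤ ‖T‖ := norm_nonneg T
  have hN0 : 0 ≤ N := hT0.trans hN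
  set h := √(N ^ 2 - ‖T‖ ^ 2) with hh
  have hsq : ‖T‖ ^ 2 ≤ N ^ 2 := pow_le_pow_left₀ hT0 hN 2
  have hh2 : h ^ 2 = N ^ 2 - ‖T‖ ^ 2 := Real.sq_sqrt (by linarith)
  have hh0 : 0 ≤ h := Real.sqrt_nonneg _
  have hhN : h ≤ N := by
    by_contra hlt
    push Not at hlt
    nlinarith
  have hhN2 : N - ‖T‖ ≤ h := by
    by_contra hlt
    push Not at hlt
    nlinarith
  have horth : inner ℝ T (h • e) = 0 := by
    rw [inner_smul_right, (Submodule.mem_orthogonal V e).mp he _ hT, mul_zero]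
  refine ⟨T + h • e, ?_, ?_, ?_⟩
  · have h1 := norm_add_sq_eq_norm_sq_add_norm_sq_real horth
    rw [norm_smul, he1, mul_one, Real.norm_of_nonneg hh0] at h1
    have h2 : ‖T + h • e‖ * ‖T + h • e‖ = N * N := by
      rw [h1]
      linarith [hh2, sq N, sq h, sq ‖T‖]
    exact (mul_self_inj_of_nonneg (norm_nonneg _) hN0).mp h2
  · rw [map_add, map_smul, Submodule.starProjection_eq_self_iff.mpr hT,
      (Submodule.starProjection_apply_eq_zero_iff V).mpr he, smul_zero, add_zero]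
  · have e1 : T + h • e - N • e = T - (N - h) • e := by
      rw [sub_smul]
      abel
    rw [e1]
    have h3 : ‖(N - h) • e‖ ≤ ‖T‖ := by
      rw [norm_smul, he1, mul_one, Real.norm_of_nonneg (by linarith)]
      linarith
    have h4 := norm_sub_le T ((N - h) • e)
    linarith

/-- A rotation close to `U0` with prescribed projection of the image of `v`. -/
lemma exists_rotation (V : Submodule ℝ (E d)) {e : E d} (he : e ∈ Vᗮ) (he1 : ‖e‖ = 1)
    {v0 v T : E d} {U0 : E d ≃ₗᵢ[ℝ] E d} (hU0SO : SO U0) {A τ : ℝ} (hA : 0 < A)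
    (hU0 : U0 v0 = A • e) (hT : T ∈ V) (hτ : ‖T‖ ≤ τ) (hvv0 : ‖v - v0‖ ≤ τ) (hτA : τ ≤ A / 8) :
    ∃ U : E d ≃ₗᵢ[ℝ] E d, SO U ∧ V.starProjection (U v) = T ∧ Near U U0 (32 * τ / A) := by
  have hv0n : ‖v0‖ = A := by
    rw [← LinearIsometryEquiv.norm_map U0 v0, hU0, norm_smul, he1, mul_one,
      Real.norm_of_nonneg hA.le]
  have hvA : |‖v‖ - A| ≤ τ := by
    rw [← hv0n]
    exact (abs_norm_sub_norm_le v v0).trans hvv0
  have hvA1 := (abs_le.mp hvA).1
  have hvA2 := (abs_le.mp hvA).2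
  have hv1 : A / 2 ≤ ‖v‖ := by linarith
  have hv0' : 0 < ‖v‖ := by linarith
  obtain ⟨x, hx1, hx2, hx3⟩ := exists_target V he he1 hT (N := ‖v‖) (by linarith)
  have hdist : ‖U0 v - x‖ ≤ 4 * τ := by
    have e1 : U0 v - x = U0 (v - v0) + ((A - ‖v‖) • e - (x - ‖v‖ • e)) := by
      rw [map_sub, hU0, sub_smul]
      abel
    rw [e1]
    have h1 : ‖U0 (v - v0)‖ ≤ τ := by rw [LinearIsometryEquiv.norm_map]; exact hvv0
    have h2 : ‖(A - ‖v‖) • e‖ ≤ τ := by
      rw [norm_smul, he1, mul_one, Real.norm_eq_abs, abs_sub_comm]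
      exact hvA
    have h4 := norm_add_le (U0 (v - v0)) ((A - ‖v‖) • e - (x - ‖v‖ • e))
    have h5 := norm_sub_le ((A - ‖v‖) • e) (x - ‖v‖ • e)
    linarith
  have hU0vn : ‖U0 v‖ = ‖v‖ := LinearIsometryEquiv.norm_map _ _
  have hU0v0 : U0 v ≠ 0 := norm_pos_iff.mp (by rw [hU0vn]; exact hv0')
  have hsum : U0 v + x ≠ 0 := by
    intro h0
    have h1 : x = -(U0 v) := (neg_eq_of_add_eq_zero_right h0).symm
    rw [h1, sub_neg_eq_add, ← two_smul ℝ, norm_smul, hU0vn, Real.norm_ofNat] at hdist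
    linarith
  refine ⟨rot (U0 v) x * U0, (rot_SO hU0v0 hsum).mul hU0SO, ?_, ?_⟩
  · show V.starProjection (rot (U0 v) x (U0 v)) = T
    rw [rot_apply hsum (by rw [hU0vn, hx1]), hx2]
  · have h1 := ((rot_near hU0v0 hsum).mul_right U0)
    rw [one_mul] at h1
    refine h1.mono ?_
    rw [hU0vn]
    have h2 : ‖U0 v - x‖ / ‖v‖ ≤ 4 * τ / (A / 2) :=
      div_le_div₀ (by have := norm_nonneg T; linarith) hdist (by positivity) hv1
    have h3 : 4 * (4 * τ / (A / 2)) = 32 * τ / A := by field_simp; ring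
    linarith

/-- The backwards construction: all displacements are adjusted, one after the other, to a common
small scale. -/
lemma exists_config [Finite ι] (hc : ∀ i, 0 < c i ∧ c i < 1) {F : Set (E d)}
    (hF : IsAttractor c O t F) (hd : RotationsDense O) {p q : E d} (hp : p ∈ F) (hq : q ∈ F)
    (hpq : p ≠ q) (V : Submodule ℝ (E d)) {e : E d} (he : e ∈ Vᗮ) (he1 : ‖e‖ = 1)
    (hpe : (q - p) + ‖q - p‖ • e ≠ 0) {δ : ℝ} (hδ : 0 < δ) {G : Type} [DecidableEq G]
    (T : G → E d) (hT : ∀ g, T g ∈ V) (s : Finset G) :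
    ∃ (U : E d ≃ₗᵢ[ℝ] E d) (η ρ : ℝ) (z : E d) (y : G → E d), SO U ∧ 0 < η ∧ 0 < ρ ∧ z ∈ F ∧
      (∀ g ∈ s, y g ∈ F) ∧ ∀ W : E d ≃ₗᵢ[ℝ] E d, Near W U η →
        ∀ g ∈ s, ‖V.starProjection (W (y g - z)) - ρ • T g‖ ≤ ρ * δ := by
  induction s using Finset.induction_on with
  | empty =>
    exact ⟨1, 1, 1, p, fun _ => p, SO_one, one_pos, one_pos, hp, by simp, by simp⟩
  | @insert a s ha ih =>
    obtain ⟨U, η, ρ, z, y, hU, hη, hρ, hz, hy, hW⟩ := ih
    -- the basic displacement and the basic rotation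
    have hv0ne : q - p ≠ 0 := sub_ne_zero.mpr (Ne.symm hpq)
    obtain ⟨A, hAdef⟩ : ∃ A, A = ‖q - p‖ := ⟨_, rfl⟩
    have hA : 0 < A := by rw [hAdef]; exact norm_pos_iff.mpr hv0ne
    rw [← hAdef] at hpe
    have hnAe : ‖A • e‖ = A := by rw [norm_smul, he1, mul_one, Real.norm_of_nonneg hA.le]
    obtain ⟨U0, hU0SO, hU0v⟩ : ∃ U0 : E d ≃ₗᵢ[ℝ] E d, SO U0 ∧ U0 (q - p) = A • e :=
      ⟨rot (q - p) (A • e), rot_SO hv0ne hpe, rot_apply hpe (by rw [hnAe, hAdef])⟩
    -- the small parameter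
    obtain ⟨K, hK⟩ : ∃ K, K = 1 + ρ * ‖T a‖ := ⟨_, rfl⟩
    have hK1 : 1 ≤ K := by
      have : 0 ≤ ρ * ‖T a‖ := by positivity
      linarith
    obtain ⟨ε, hε0, hε1, hε2, hε3⟩ : ∃ ε : ℝ, 0 < ε ∧ ε ≤ η / 4 ∧ ε * K ≤ A / 8 ∧
        32 * (ε * K) / A ≤ η / 4 := by
      refine ⟨min (η / 4) (min (A / (8 * K)) (η * A / (128 * K))), ?_, min_le_left _ _, ?_, ?_⟩
      · exact lt_min (by positivity) (lt_min (by positivity) (by positivity))
      · calc _ ≤ A / (8 * K) * K :=
            mul_le_mul_of_nonneg_right ((min_le_right _ _).trans (min_le_left _ _)) (by linarith)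
          _ = A / 8 := by field_simp
      · have h1 : min (η / 4) (min (A / (8 * K)) (η * A / (128 * K))) * K ≤ η * A / 128 := by
          calc _ ≤ η * A / (128 * K) * K :=
              mul_le_mul_of_nonneg_right ((min_le_right _ _).trans (min_le_right _ _)) (by linarith)
            _ = η * A / 128 := by field_simp
        rw [div_le_iff₀ hA]
        linarith
    obtain ⟨w, hw1, hw2, hw3⟩ := approx_at hc hF hd (hU0SO.inv.mul hU) hp hε0
    have hcw := cW_pos hc w
    have hz'F : SW c O t w z ∈ F := SW_mem hF w hz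
    have hvv0 : ‖(q - SW c O t w z) - (q - p)‖ ≤ ε * K := by
      have : (q - SW c O t w z) - (q - p) = -(SW c O t w z - p) := by abel
      rw [this, norm_neg]
      exact (hw3 z hz).trans (by nlinarith)
    have hT' : (cW c w * ρ) • T a ∈ V := V.smul_mem _ (hT a)
    have hρB : ‖(cW c w * ρ) • T a‖ ≤ ε * K := by
      rw [norm_smul, Real.norm_of_nonneg (by positivity), mul_assoc]
      apply mul_le_mul hw2 _ (by positivity) hε0.le
      rw [hK]; linarith
    obtain ⟨U', hU'SO, hU'v, hU'near⟩ := exists_rotation V he he1 hU0SO hA hU0v hT' hρB hvv0 hε2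
    have hU'near2 : Near U' U0 (η / 4) := hU'near.mono hε3
    -- the new accuracy
    have hη' : 0 < min (η / 4) (cW c w * ρ * δ / (‖q - SW c O t w z‖ + 1)) :=
      lt_min (by positivity) (by positivity)
    refine ⟨U', _, cW c w * ρ, SW c O t w z, fun g => if g = a then q else SW c O t w (y g),
      hU'SO, hη', by positivity, hz'F, ?_, ?_⟩
    · intro g hg
      by_cases hga : g = a
      · simp only [hga, if_true]
        exact hq
      · simp only [hga, if_false]
        exact SW_mem hF w (hy g ((Finset.mem_insert.mp hg).resolve_left hga))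
    · intro W hWn g hg
      by_cases hga : g = a
      · simp only [hga, if_true]
        rw [← hU'v, ← map_sub]
        refine (V.norm_starProjection_apply_le _).trans ?_
        refine (hWn _).trans ?_
        have h1 : min (η / 4) (cW c w * ρ * δ / (‖q - SW c O t w z‖ + 1)) ≤
            cW c w * ρ * δ / (‖q - SW c O t w z‖ + 1) := min_le_right _ _
        calc _ ≤ cW c w * ρ * δ / (‖q - SW c O t w z‖ + 1) * ‖q - SW c O t w z‖ := by gcongr
          _ ≤ cW c w * ρ * δ / (‖q - SW c O t w z‖ + 1) * (‖q - SW c O t w z‖ + 1) := by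
            gcongr
            linarith
          _ = cW c w * ρ * δ := by field_simp
      · simp only [hga, if_false]
        have hgs : g ∈ s := (Finset.mem_insert.mp hg).resolve_left hga
        have h1 : Near (W * OW O w) U η := by
          have a1 : Near (W * OW O w) (U' * OW O w) (η / 4) :=
            (hWn.mono (min_le_left _ _)).mul_right _
          have a2 : Near (U' * OW O w) (U0 * OW O w) (η / 4) := hU'near2.mul_right _
          have a3 : Near (U0 * OW O w) U (η / 4) := by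
            have := (hw1.mono hε1).mul_left U0
            rwa [← mul_assoc, mul_inv_cancel, one_mul] at this
          exact ((a1.trans a2).trans a3).mono (by linarith)
        have h2 := hW (W * OW O w) h1 g hgs
        rw [SW_sub, map_smul, map_smul]
        have h3 : V.starProjection (W (OW O w (y g - z))) =
            V.starProjection ((W * OW O w) (y g - z)) := rfl
        rw [h3, mul_smul, ← smul_sub, norm_smul, Real.norm_of_nonneg hcw.le, mul_assoc]
        exact mul_le_mul_of_nonneg_left h2 hcw.le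

end Q76.AP
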