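import Mathlib
import Pool.Agent.Q76.ApGrid

/-!
# The Assouad dimension of the projections
-/

namespace Q76.AP

open Set Topology Filter Module

variable {d : ℕ} {ι : Type} {c : ι → ℝ} {O : ι → (E d ≃ₗᵢ[ℝ] E d)} {t : ι → E d}

/-- Orthonormal coordinates on a subspace. -/
lemma exists_basis (V : Submodule ℝ (E d)) {k : ℕ} (hV : finrank ℝ V = k) :
    ∃ b : Fin k → E d, (∀ i, b i ∈ V) ∧ Orthonormal ℝ b ∧
      ∀ x ∈ V, x = ∑ i, inner ℝ (b i) x • b i := by
  subst hV
  set B := stdOrthonormalBasis ℝ V with hB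
  refine ⟨fun i => (B i : E d), fun i => (B i).2, ?_, ?_⟩
  · exact B.orthonormal.comp_linearIsometry V.subtypeₗᵢ
  · intro x hx
    have h1 := B.sum_repr' ⟨x, hx⟩
    have h2 := congrArg (V.subtype) h1
    rw [map_sum] at h2
    simp only [map_smul, Submodule.subtype_apply, Submodule.coe_inner] at h2
    exact h2.symm

/-- The points of the grid. -/
noncomputable def gridPt {k : ℕ} (b : Fin k → E d) {Q : ℕ} (g : Fin k → Fin Q) : E d :=
  ∑ i, ((g i : ℕ) : ℝ) • b i

lemma gridPt_sep {k : ℕ} {b : Fin k → E d} (hb : Orthonormal ℝ b) {Q : ℕ} {g g' : Fin k → Fin Q}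
    (h : g ≠ g') : 1 ≤ ‖gridPt b g - gridPt b g'‖ := by
  obtain ⟨i, hi⟩ := Function.ne_iff.mp h
  have h1 : inner ℝ (b i) (gridPt b g - gridPt b g') = ((g i : ℕ) : ℝ) - ((g' i : ℕ) : ℝ) := by
    unfold gridPt
    rw [← Finset.sum_sub_distrib]
    simp_rw [← sub_smul]
    rw [hb.inner_right_fintype]
  have h2 : |((g i : ℕ) : ℝ) - ((g' i : ℕ) : ℝ)| ≤ ‖gridPt b g - gridPt b g'‖ := by
    rw [← h1]
    have := norm_inner_le_norm (𝕜 := ℝ) (b i) (gridPt b g - gridPt b g')
    rwa [hb.1 i, one_mul, Real.norm_eq_abs] at this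
  refine le_trans ?_ h2
  have h3 : (g i : ℕ) ≠ (g' i : ℕ) := fun h0 => hi (Fin.ext h0)
  have h4 : (1 : ℤ) ≤ |((g i : ℕ) : ℤ) - ((g' i : ℕ) : ℤ)| := by
    apply Int.one_le_abs
    omega
  have h5 : ((1 : ℤ) : ℝ) ≤ ((|((g i : ℕ) : ℤ) - ((g' i : ℕ) : ℤ)| : ℤ) : ℝ) := by exact_mod_cast h4
  push_cast at h5
  exact h5

lemma gridPt_norm {k : ℕ} {b : Fin k → E d} (hb : Orthonormal ℝ b) {Q : ℕ} (g : Fin k → Fin Q) :
    ‖gridPt b g‖ ≤ k * Q := by
  unfold gridPt
  calc _ ≤ ∑ i, ‖((g i : ℕ) : ℝ) • b i‖ := norm_sum_le _ _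
    _ ≤ ∑ _i : Fin k, (Q : ℝ) := by
      apply Finset.sum_le_sum
      intro i _
      rw [norm_smul, hb.1 i, mul_one, Real.norm_of_nonneg (by positivity)]
      exact_mod_cast (g i).2.le
    _ = _ := by simp

/-- Every Assouad exponent of a projection is at least `k`. -/
lemma le_exponent [Finite ι] (hc : ∀ i, 0 < c i ∧ c i < 1) {F : Set (E d)}
    (hF : IsAttractor c O t F) (hF2 : F.Nontrivial) (hd : RotationsDense O)
    (V : Submodule ℝ (E d)) {k : ℕ} (hV : finrank ℝ V = k) (hkd : k < d) {s : ℝ}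
    (hs : s ∈ assouadExponents (V.starProjection '' F)) : (k : ℝ) ≤ s := by
  obtain ⟨hs0, C, hC0, hC⟩ := hs
  obtain ⟨b, hbV, hb, -⟩ := exists_basis V hV
  obtain ⟨p, hp, q, hq, hpq⟩ := hF2
  -- a unit vector orthogonal to `V`
  obtain ⟨e, he, he1, hpe⟩ : ∃ e ∈ Vᗮ, ‖e‖ = 1 ∧ (q - p) + ‖q - p‖ • e ≠ 0 := by
    have h1 : 0 < finrank ℝ Vᗮ := by
      have h2 := V.finrank_add_finrank_orthogonal
      rw [hV, finrank_euclideanSpace_fin] at h2
      omega
    obtain ⟨u, hu⟩ := (finrank_pos_iff_exists_ne_zero (R := ℝ)).mp h1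
    have hu' : (u : E d) ≠ 0 := fun h0 => hu (Subtype.ext h0)
    have hun : 0 < ‖(u : E d)‖ := norm_pos_iff.mpr hu'
    set e := ‖(u : E d)‖⁻¹ • (u : E d) with he
    have heV : e ∈ Vᗮ := Vᗮ.smul_mem _ u.2
    have he1 : ‖e‖ = 1 := by rw [he, norm_smul, norm_inv, norm_norm, inv_mul_cancel₀ hun.ne']
    by_cases h3 : (q - p) + ‖q - p‖ • e = 0
    · refine ⟨-e, Vᗮ.neg_mem heV, by rw [norm_neg, he1], ?_⟩
      intro h4
      rw [smul_neg] at h4
      have h5 : (2 : ℝ) • (q - p) = 0 := by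
        rw [two_smul]
        have := congrArg₂ (· + ·) h3 h4
        simp only [add_zero] at this
        rw [← this]
        abel
      have h6 := (smul_eq_zero.mp h5).resolve_left two_ne_zero
      exact hpq (sub_eq_zero.mp h6).symm
    · exact ⟨e, heV, he1, h3⟩
  -- the main estimate: `Q^k ≤ C (4 (k Q + 2))^s`
  have key : ∀ Q : ℕ, 1 ≤ Q → (Q : ℝ) ^ k ≤ C * (4 * (k * Q + 2)) ^ s := by
    intro Q hQ
    classical
    obtain ⟨U, η, ρ, z, y, hU, hη, hρ, hz, hy, hW⟩ := exists_config hc hF hd hp hq hpq V he he1 hpe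
      (show (0 : ℝ) < 1 / 4 by norm_num) (fun g : Fin k → Fin Q => gridPt b g)
      (fun g => V.sum_mem fun i _ => V.smul_mem _ (hbV i)) Finset.univ
    obtain ⟨w, hw⟩ := approx hd hU hη
    set κ := cW c w * ρ with hκ
    have hcw := cW_pos hc w
    have hκ0 : 0 < κ := by positivity
    set P : (Fin k → Fin Q) → E d := fun g => V.starProjection (SW c O t w (y g)) with hP
    set P0 := V.starProjection (SW c O t w z) with hP0
    have hPd : ∀ g, ‖P g - P0 - κ • gridPt b g‖ ≤ κ * (1 / 4) := by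
      intro g
      have h1 := hW (OW O w) hw g (Finset.mem_univ g)
      simp only [hP, hP0]
      rw [← map_sub, SW_sub, map_smul, hκ, mul_smul, ← smul_sub, norm_smul,
        Real.norm_of_nonneg hcw.le, mul_assoc]
      exact mul_le_mul_of_nonneg_left h1 hcw.le
    have hsep : ∀ g g', g ≠ g' → κ / 2 ≤ dist (P g) (P g') := by
      intro g g' hne
      have h1 := hPd g
      have h2 := hPd g'
      have h3 := gridPt_sep hb hne
      have h4 : κ • (gridPt b g - gridPt b g') = (P g - P g') - (P g - P0 - κ • gridPt b g) +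
          (P g' - P0 - κ • gridPt b g') := by
        rw [smul_sub]
        abel
      have h5 : κ * 1 ≤ ‖κ • (gridPt b g - gridPt b g')‖ := by
        rw [norm_smul, Real.norm_of_nonneg hκ0.le]
        exact mul_le_mul_of_nonneg_left h3 hκ0.le
      rw [h4] at h5
      have h6 := norm_add_le ((P g - P g') - (P g - P0 - κ • gridPt b g))
        (P g' - P0 - κ • gridPt b g')
      have h7 := norm_sub_le (P g - P g') (P g - P0 - κ • gridPt b g)
      rw [dist_eq_norm]
      linarith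
    have hP0F : P0 ∈ V.starProjection '' F := mem_image_of_mem _ (SW_mem hF w hz)
    have hkQ : (0 : ℝ) ≤ k * Q := by positivity
    obtain ⟨m, ⟨cov, hcov1, hcov2⟩, hm⟩ := hC P0 hP0F (κ / 4) (κ * (k * Q + 2)) (by positivity)
      (by nlinarith)
    have hmem : ∀ g, ∃ j, P g ∈ cov j := by
      intro g
      apply mem_iUnion.mp
      apply hcov2
      refine ⟨?_, mem_image_of_mem _ (SW_mem hF w (hy g (Finset.mem_univ g)))⟩
      rw [Metric.mem_ball, dist_eq_norm]
      have h1 := hPd g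
      have h2 : ‖κ • gridPt b g‖ ≤ κ * (k * Q) := by
        rw [norm_smul, Real.norm_of_nonneg hκ0.le]
        exact mul_le_mul_of_nonneg_left (gridPt_norm hb g) hκ0.le
      have h3 := norm_add_le (P g - P0 - κ • gridPt b g) (κ • gridPt b g)
      rw [sub_add_cancel] at h3
      nlinarith
    choose j hj using hmem
    have hinj : Function.Injective j := by
      intro g g' hgg
      by_contra hne
      have h1 := hsep g g' hne
      have h2 : edist (P g) (P g') ≤ ENNReal.ofReal (κ / 4) :=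
        (Metric.edist_le_ediam_of_mem (hj g) (hgg ▸ hj g')).trans (hcov1 (j g)).2
      rw [edist_dist, ENNReal.ofReal_le_ofReal_iff (by positivity)] at h2
      linarith
    have hcard := Fintype.card_le_of_injective j hinj
    rw [Fintype.card_fun, Fintype.card_fin, Fintype.card_fin, Fintype.card_fin] at hcard
    have h1 : (Q : ℝ) ^ k ≤ m := by exact_mod_cast hcard
    refine h1.trans (hm.trans (le_of_eq ?_))
    congr 2
    field_simp
  -- conclusion
  by_contra hlt
  push Not at hlt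
  have hC' : ∀ Q : ℕ, 1 ≤ Q → (Q : ℝ) ^ ((k : ℝ) - s) ≤ C * (4 * (k + 2)) ^ s := by
    intro Q hQ
    have hQ0 : (0 : ℝ) < Q := by exact_mod_cast hQ
    have hQ1 : (1 : ℝ) ≤ Q := by exact_mod_cast hQ
    have h1 := key Q hQ
    have h2 : (4 * ((k : ℝ) * Q + 2)) ^ s ≤ (4 * (k + 2) * Q) ^ s := by
      apply Real.rpow_le_rpow (by positivity) _ hs0
      nlinarith
    rw [Real.mul_rpow (by positivity) hQ0.le] at h2
    rw [Real.rpow_sub hQ0, Real.rpow_natCast, div_le_iff₀ (by positivity)]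
    calc (Q : ℝ) ^ k ≤ C * (4 * (k * Q + 2)) ^ s := h1
      _ ≤ C * ((4 * (k + 2)) ^ s * Q ^ s) := by gcongr
      _ = _ := by ring
  have hlim : Tendsto (fun Q : ℕ => (Q : ℝ) ^ ((k : ℝ) - s)) atTop atTop :=
    (tendsto_rpow_atTop (sub_pos.mpr hlt)).comp tendsto_natCast_atTop_atTop
  obtain ⟨Q, hQ1, hQ2⟩ := ((hlim.eventually_gt_atTop (C * (4 * (k + 2)) ^ s)).and
    (eventually_ge_atTop 1)).exists
  exact absurd (hC' Q hQ2) (not_le.mpr hQ1)

/-- The upper bound. -/
lemma mem_exponents {A : Set (E d)} (V : Submodule ℝ (E d)) (hA : A ⊆ V) {k : ℕ}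
    (hV : finrank ℝ V = k) (hk : 1 ≤ k) : (k : ℝ) ∈ assouadExponents A := by
  obtain ⟨b, hbV, hb, hbr⟩ := exists_basis V hV
  refine ⟨by positivity, ((8 * k + 3 : ℝ)) ^ k, by positivity, fun x hx r R hr hrR => ?_⟩
  have hk0 : (0 : ℝ) < k := by exact_mod_cast hk
  set h := r / (4 * k) with hh
  have hh0 : 0 < h := by positivity
  set L := ⌈R / h⌉₊ with hL
  have hR0 : 0 < R := hr.trans hrR
  set G := Fin k → Fin (2 * L + 1) with hG
  set cen : G → E d := fun g => x + ∑ i, ((((g i : ℕ) : ℝ) - L) * h) • b i with hcen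
  refine ⟨Fintype.card G, ⟨fun j => Metric.ball (cen ((Fintype.equivFin G).symm j)) (r / 2),
    fun j => ⟨Metric.isOpen_ball, ?_⟩, ?_⟩, ?_⟩
  · apply Metric.ediam_le_of_forall_dist_le
    intro a ha a' ha'
    rw [Metric.mem_ball] at ha ha'
    have := dist_triangle_right a a' (cen ((Fintype.equivFin G).symm j))
    linarith
  · rintro y ⟨hy1, hy2⟩
    rw [Metric.mem_ball, dist_eq_norm] at hy1
    have hyx : y - x ∈ V := V.sub_mem (hA hy2) (hA hx)
    have hrep := hbr _ hyx
    have hcoef : ∀ i, |inner ℝ (b i) (y - x)| ≤ R := by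
      intro i
      have := norm_inner_le_norm (𝕜 := ℝ) (b i) (y - x)
      rw [hb.1 i, one_mul, Real.norm_eq_abs] at this
      linarith
    have hLR : R / h ≤ L := Nat.le_ceil _
    -- the index
    have hidx : ∀ i, ∃ n : Fin (2 * L + 1),
        |inner ℝ (b i) (y - x) - (((n : ℕ) : ℝ) - L) * h| ≤ h := by
      intro i
      set a := inner ℝ (b i) (y - x) with ha
      have h1 := abs_le.mp (hcoef i)
      have h2 : 0 ≤ a / h + L := by
        have : -(R / h) ≤ a / h := by
          rw [← neg_div]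
          exact div_le_div_of_nonneg_right h1.1 hh0.le
        linarith
      have h3 : a / h + L ≤ 2 * L := by
        have : a / h ≤ R / h := div_le_div_of_nonneg_right h1.2 hh0.le
        linarith
      refine ⟨⟨⌊a / h + L⌋₊, ?_⟩, ?_⟩
      · have h4 : (⌊a / h + L⌋₊ : ℝ) ≤ ((2 * L : ℕ) : ℝ) := by
          push_cast
          exact (Nat.floor_le h2).trans h3
        have h5 : ⌊a / h + L⌋₊ ≤ 2 * L := by exact_mod_cast h4
        omega
      · have h4 := Nat.floor_le h2
        have h5 := Nat.lt_floor_add_one (a / h + L)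
        simp only
        have h6 : a - ((⌊a / h + L⌋₊ : ℝ) - L) * h = (a / h + L - ⌊a / h + L⌋₊) * h := by
          field_simp
          ring
        rw [h6, abs_mul, abs_of_pos hh0]
        have h7 : |a / h + L - ⌊a / h + L⌋₊| ≤ 1 := by
          rw [abs_le]
          constructor <;> linarith
        nlinarith
    choose n hn using hidx
    refine mem_iUnion.mpr ⟨Fintype.equivFin G n, ?_⟩
    rw [Equiv.symm_apply_apply, Metric.mem_ball, dist_eq_norm]
    have e1 : y - cen n = ∑ i, (inner ℝ (b i) (y - x) - (((n i : ℕ) : ℝ) - L) * h) • b i := by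
      simp only [hcen, sub_smul]
      rw [Finset.sum_sub_distrib, ← hrep]
      abel
    rw [e1]
    calc _ ≤ ∑ i, ‖(inner ℝ (b i) (y - x) - (((n i : ℕ) : ℝ) - L) * h) • b i‖ := norm_sum_le _ _
      _ ≤ ∑ _i : Fin k, h := by
        apply Finset.sum_le_sum
        intro i _
        rw [norm_smul, hb.1 i, mul_one, Real.norm_eq_abs]
        exact hn i
      _ = k * h := by simp
      _ = r / 4 := by rw [hh]; field_simp
      _ < r / 2 := by linarith
  · have hcardG : Fintype.card G = (2 * L + 1) ^ k := by simp [hG]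
    rw [hcardG, Real.rpow_natCast, ← mul_pow]
    push_cast
    apply pow_le_pow_left₀ (by positivity)
    have h1 : (L : ℝ) < R / h + 1 := Nat.ceil_lt_add_one (by positivity)
    have h2 : R / h = 4 * k * (R / r) := by rw [hh]; field_simp
    have h3 : 1 ≤ R / r := by rw [le_div_iff₀ hr]; linarith
    rw [h2] at h1
    nlinarith

/-- The Assouad dimension of the projection is `k`. -/
theorem assouadDim_eq [Finite ι] (hc : ∀ i, 0 < c i ∧ c i < 1) {F : Set (E d)}
    (hF : IsAttractor c O t F) (hF2 : F.Nontrivial) (hd : RotationsDense O)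
    (V : Submodule ℝ (E d)) {k : ℕ} (hV : finrank ℝ V = k) (hk : 1 ≤ k) (hkd : k < d) :
    assouadDim (projSet V F) = k := by
  apply IsLeast.csInf_eq
  refine ⟨mem_exponents V ?_ hV hk, fun s hs => le_exponent hc hF hF2 hd V hV hkd hs⟩
  rintro _ ⟨x, _, rfl⟩
  exact V.starProjection_apply_mem x

end Q76.AP
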