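import Mathlib

/-!
# The continuous bijections of a compact metric space form a Baire space
-/

namespace Q76.BaireBijections

open Filter Topology Set Metric

variable {X : Type*} [MetricSpace X] [CompactSpace X]

lemma isGδ_bijective : IsGδ {f : C(X, X) | Function.Bijective f} := by
  have h1 : ∀ n : ℕ, IsOpen {f : C(X, X) | ∀ q ∈ {q : X × X | 1 / ((n : ℝ) + 1) ≤ dist q.1 q.2},
      f q.1 ≠ f q.2} := by
    intro n
    have hK : IsCompact {q : X × X | 1 / ((n : ℝ) + 1) ≤ dist q.1 q.2} :=
      (isClosed_le continuous_const continuous_dist).isCompact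
    rw [isOpen_iff_mem_nhds]
    intro f hf
    apply hK.eventually_forall_of_forall_eventually
    intro q hq
    have hc1 : Continuous fun w : C(X, X) × X × X => w.1 w.2.1 :=
      continuous_fst.eval (continuous_fst.comp continuous_snd)
    have hc2 : Continuous fun w : C(X, X) × X × X => w.1 w.2.2 :=
      continuous_fst.eval (continuous_snd.comp continuous_snd)
    exact (isOpen_ne_fun hc1 hc2).mem_nhds (hf q hq)
  have h2 : ∀ y : X, IsClosed {f : C(X, X) | ∃ x, f x = y} := by
    intro y
    rw [← isOpen_compl_iff, isOpen_iff_mem_nhds]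
    intro f hf
    have hf' : ∀ x ∈ (univ : Set X), f x ≠ y := fun x _ h => hf ⟨x, h⟩
    have : ∀ᶠ g : C(X, X) in 𝓝 f, ∀ x ∈ (univ : Set X), g x ≠ y := by
      apply isCompact_univ.eventually_forall_of_forall_eventually
      intro x hx
      have hc1 : Continuous fun w : C(X, X) × X => w.1 w.2 :=
        continuous_fst.eval continuous_snd
      exact (isOpen_ne_fun hc1 continuous_const).mem_nhds (hf' x hx)
    filter_upwards [this] with g hg
    rintro ⟨x, hx⟩
    exact hg x (mem_univ _) hx
  have h3 : {f : C(X, X) | Function.Bijective f} =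
      (⋂ n : ℕ, {f : C(X, X) | ∀ q ∈ {q : X × X | 1 / ((n : ℝ) + 1) ≤ dist q.1 q.2},
        f q.1 ≠ f q.2}) ∩ ⋂ y : X, {f : C(X, X) | ∃ x, f x = y} := by
    ext f
    simp only [mem_ofPred_eq, mem_inter_iff, mem_iInter]
    constructor
    · rintro ⟨hi, hs⟩
      refine ⟨fun n q hq h => ?_, hs⟩
      rw [hi h, dist_self] at hq
      have : (0 : ℝ) < 1 / ((n : ℝ) + 1) := by positivity
      linarith
    · rintro ⟨hi, hs⟩
      refine ⟨fun x y hxy => ?_, hs⟩
      by_contra hne
      obtain ⟨n, hn⟩ := exists_nat_one_div_lt (dist_pos.mpr hne)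
      exact hi n (x, y) hn.le hxy
  rw [h3]
  exact (IsGδ.iInter_of_isOpen h1).inter (isClosed_iInter h2).isGδ

instance baireSpace_bijections : BaireSpace {f : C(X, X) // Function.Bijective f} := by
  set B : Set C(X, X) := {f | Function.Bijective f} with hB
  have hG : IsGδ B := isGδ_bijective
  have : CompleteSpace (closure B) := isClosed_closure.completeSpace_coe
  have hG' : IsGδ ((↑) ⁻¹' B : Set (closure B)) := hG.preimage continuous_subtype_val
  have hD : Dense ((↑) ⁻¹' B : Set (closure B)) := by
    rw [Subtype.dense_iff]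
    rw [Subtype.image_preimage_coe]
    rw [inter_eq_right.mpr subset_closure]
  have := hG'.baireSpace_of_dense hD
  let e : ((↑) ⁻¹' B : Set (closure B)) ≃ₜ {f : C(X, X) // Function.Bijective f} :=
    { toFun := fun y => ⟨y.1.1, y.2⟩
      invFun := fun x => ⟨⟨x.1, subset_closure x.2⟩, x.2⟩
      left_inv := fun y => rfl
      right_inv := fun x => rfl
      continuous_toFun := by
        apply Continuous.subtype_mk
        exact continuous_subtype_val.comp continuous_subtype_val
      continuous_invFun := by
        apply Continuous.subtype_mk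
        apply Continuous.subtype_mk
        exact continuous_subtype_val }
  exact e.isOpenQuotientMap.baireSpace

end Q76.BaireBijections
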