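import Mathlib

/-!
# Bedford-McMullen carpets: definitions
-/

namespace Q76.BM

open Set Topology Filter MeasureTheory

/-- The Euclidean plane. -/
abbrev Pl := EuclideanSpace ℝ (Fin 2)

/-- The affine map `f_{ij}(x, y) = ((x + i) / m, (y + j) / n)` for `d = (i, j)`. -/
noncomputable def aff {m n : ℕ} (d : Fin m × Fin n) (x : Pl) : Pl :=
  !₂[(x 0 + d.1) / m, (x 1 + d.2) / n]

/-- `Λ` is the Bedford-McMullen carpet of the digit set `D`: the nonempty compact set with
`Λ = ⋃_{d ∈ D} f_d(Λ)`. -/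
structure IsCarpet {m n : ℕ} (D : Finset (Fin m × Fin n)) (Λ : Set Pl) : Prop where
  nonempty : Λ.Nonempty
  compact : IsCompact Λ
  eq : Λ = ⋃ d ∈ D, aff d '' Λ

/-- The coding map `π(ω) = lim f_{ω₁} ∘ ⋯ ∘ f_{ω_k}(0)`, that is
`π(ω) = (∑ i_k m^{-k}, ∑ j_k n^{-k})` for `ω_k = (i_k, j_k)`. -/
noncomputable def coding {m n : ℕ} {D : Finset (Fin m × Fin n)} (ω : ℕ → D) : Pl :=
  !₂[∑' k, ((ω k).1.1 : ℝ) / (m : ℝ) ^ (k + 1), ∑' k, ((ω k).1.2 : ℝ) / (n : ℝ) ^ (k + 1)]

/-- The left shift on `D^ℕ`. -/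
def shift {m n : ℕ} {D : Finset (Fin m × Fin n)} (ω : ℕ → D) : ℕ → D := fun k => ω (k + 1)

/-- The support of a measure. -/
def supp (μ : Measure Pl) : Set Pl := {x | ∀ r, 0 < r → 0 < μ (Metric.ball x r)}

/-- The set of exponents in the definition of the Minkowski dimension of a measure. -/
def exponents (μ : Measure Pl) : Set ℝ :=
  {s | 0 ≤ s ∧ ∃ C : ℝ, 0 < C ∧ ∀ x ∈ supp μ, ∀ r : ℝ, 0 < r → r ≤ 1 →
    ENNReal.ofReal (C * r ^ s) ≤ μ (Metric.ball x r)}

/-- The Minkowski dimension of a measure. -/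
noncomputable def minkowskiDim (μ : Measure Pl) : ℝ := sInf (exponents μ)

/-- The least number of closed balls of radius `r` covering `E`. -/
noncomputable def coverNum (E : Set Pl) (r : ℝ) : ℕ :=
  sInf {c | ∃ t : Finset Pl, t.card = c ∧ E ⊆ ⋃ x ∈ t, Metric.closedBall x r}

/-- `E` has Minkowski (box-counting) dimension `s`. -/
def HasMinkowskiDim (E : Set Pl) (s : ℝ) : Prop :=
  Tendsto (fun r => Real.log (coverNum E r) / -Real.log r) (𝓝[>] 0) (𝓝 s)

/-- The number of nonempty columns. -/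
def numCols {m n : ℕ} (D : Finset (Fin m × Fin n)) : ℕ := (D.image Prod.fst).card

/-- McMullen's value `log M / log m + log (N / M) / log n`. -/
noncomputable def dimValue {m n : ℕ} (D : Finset (Fin m × Fin n)) : ℝ :=
  Real.log (numCols D) / Real.log m + Real.log ((D.card : ℝ) / numCols D) / Real.log n

end Q76.BM
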