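import Mathlib
import Pool.Agent.Q76.BmDefs

/-!
# Digit expansions and the coding map
-/

namespace Q76.BM

open Set Topology Filter MeasureTheory

/-- The real number with the digits `a` in base `b`. -/
noncomputable def val (b : ℕ) (a : ℕ → ℕ) : ℝ := ∑' k, (a k : ℝ) / (b : ℝ) ^ (k + 1)

/-- The integer formed by the first `K` digits. -/
def idx (b : ℕ) (a : ℕ → ℕ) : ℕ → ℕ
  | 0 => 0
  | K + 1 => b * idx b a K + a K

section

variable {b : ℕ} (hb : 2 ≤ b)
include hb

lemma summable_val {a : ℕ → ℕ} (ha : ∀ k, a k < b) :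
    Summable fun k => (a k : ℝ) / (b : ℝ) ^ (k + 1) := by
  have hb0 : (0 : ℝ) < b := by positivity
  have hb1 : (1 : ℝ) < b := by exact_mod_cast hb
  have h1 : Summable fun k : ℕ => ((1 : ℝ) / b) ^ k :=
    summable_geometric_of_lt_one (by positivity) ((div_lt_one hb0).mpr hb1)
  refine Summable.of_nonneg_of_le (fun k => by positivity) (fun k => ?_) h1
  rw [div_pow, one_pow, pow_succ, div_le_div_iff₀ (by positivity) (by positivity)]
  have h2 : (a k : ℝ) ≤ b := by exact_mod_cast (ha k).le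
  nlinarith [pow_pos hb0 k]

lemma val_succ {a : ℕ → ℕ} (ha : ∀ k, a k < b) :
    val b a = (a 0 + val b (fun k => a (k + 1))) / b := by
  have hb0 : (b : ℝ) ≠ 0 := by positivity
  unfold val
  rw [(summable_val hb ha).tsum_eq_zero_add, add_div, ← tsum_div_const]
  congr 1
  · simp
  · apply tsum_congr
    intro k
    rw [pow_succ (b : ℝ) (k + 1), div_div]

lemma val_nonneg (a : ℕ → ℕ) : 0 ≤ val b a := tsum_nonneg fun k => by positivity

lemma val_le_one {a : ℕ → ℕ} (ha : ∀ k, a k < b) : val b a ≤ 1 := by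
  have hb0 : (0 : ℝ) < b := by positivity
  have hb1 : (1 : ℝ) < b := by exact_mod_cast hb
  have h1 : HasSum (fun k : ℕ => ((b : ℝ) - 1) / b * (1 / b) ^ k)
      (((b : ℝ) - 1) / b * (1 - 1 / (b : ℝ))⁻¹) :=
    (hasSum_geometric_of_lt_one (by positivity) ((div_lt_one hb0).mpr hb1)).mul_left _
  have h2 : ((b : ℝ) - 1) / b * (1 - 1 / (b : ℝ))⁻¹ = 1 := by
    have : (b : ℝ) - 1 ≠ 0 := by linarith
    have h3 : 1 - 1 / (b : ℝ) = (b - 1) / b := by field_simp
    rw [h3]
    field_simp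
  rw [h2] at h1
  rw [← h1.tsum_eq]
  apply (summable_val hb ha).tsum_le_tsum _ h1.summable
  intro k
  have h3 : (a k : ℝ) ≤ b - 1 := by
    have : a k + 1 ≤ b := ha k
    have : ((a k : ℝ) + 1) ≤ b := by exact_mod_cast this
    linarith
  rw [div_pow, one_pow, div_mul_div_comm, mul_one, ← pow_succ']
  exact div_le_div_of_nonneg_right h3 (by positivity)

/-- The position of the point in the grid of mesh `b^{-K}`. -/
lemma val_idx (K : ℕ) : ∀ {a : ℕ → ℕ}, (∀ k, a k < b) →
    val b a = (idx b a K + val b (fun k => a (k + K))) / (b : ℝ) ^ K := by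
  have hb0 : (b : ℝ) ≠ 0 := by positivity
  induction K with
  | zero => intro a _; simp [idx]
  | succ K ih =>
    intro a ha
    rw [ih ha, val_succ hb (a := fun k => a (k + K)) fun k => ha _]
    simp only [idx, zero_add]
    push_cast
    have : (fun k => a (k + 1 + K)) = fun k => a (k + (K + 1)) := by
      funext k; congr 1; ring
    rw [this, pow_succ]
    field_simp
    ring

omit hb in
lemma idx_congr {a a' : ℕ → ℕ} {K : ℕ} (h : ∀ k < K, a k = a' k) : idx b a K = idx b a' K := by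
  induction K with
  | zero => rfl
  | succ K ih =>
    simp only [idx]
    rw [ih fun k hk => h k (by omega), h K (by omega)]

lemma idx_inj {a a' : ℕ → ℕ} (ha : ∀ k, a k < b) (ha' : ∀ k, a' k < b) {K : ℕ}
    (h : idx b a K = idx b a' K) : ∀ k < K, a k = a' k := by
  induction K with
  | zero => intro k hk; omega
  | succ K ih =>
    simp only [idx] at h
    have h1 : a K = a' K := by
      have := congrArg (· % b) h
      simp only [Nat.mul_add_mod] at this
      rwa [Nat.mod_eq_of_lt (ha K), Nat.mod_eq_of_lt (ha' K)] at this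
    rw [h1] at h
    have h2 : idx b a K = idx b a' K := by
      have h3 : b * idx b a K = b * idx b a' K := by omega
      exact Nat.eq_of_mul_eq_mul_left (by omega) h3
    intro k hk
    rcases Nat.lt_succ_iff_lt_or_eq.mp hk with h4 | h4
    · exact ih h2 k h4
    · rw [h4, h1]

lemma val_close {a a' : ℕ → ℕ} (ha : ∀ k, a k < b) (ha' : ∀ k, a' k < b) {K : ℕ}
    (h : ∀ k < K, a k = a' k) : |val b a - val b a'| ≤ 1 / (b : ℝ) ^ K := by
  have hb0 : (0 : ℝ) < (b : ℝ) ^ K := by positivity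
  rw [val_idx hb K ha, val_idx hb K ha', idx_congr h, ← sub_div, abs_div, abs_of_pos hb0]
  apply div_le_div_of_nonneg_right _ hb0.le
  have h1 := val_nonneg hb fun k => a (k + K)
  have h2 := val_nonneg hb fun k => a' (k + K)
  have h3 := val_le_one hb (a := fun k => a (k + K)) fun k => ha _
  have h4 := val_le_one hb (a := fun k => a' (k + K)) fun k => ha' _
  rw [abs_le]
  constructor <;> linarith

lemma idx_near {a : ℕ → ℕ} (ha : ∀ k, a k < b) {K : ℕ} {y r : ℝ} (hr : r ≤ 1 / (b : ℝ) ^ K)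
    (h : |val b a - y| ≤ r) : (idx b a K : ℝ) ≤ (b : ℝ) ^ K * y + 1 ∧
      (b : ℝ) ^ K * y - 2 ≤ idx b a K := by
  have hb0 : (0 : ℝ) < (b : ℝ) ^ K := by positivity
  have h1 := val_nonneg hb fun k => a (k + K)
  have h3 := val_le_one hb (a := fun k => a (k + K)) fun k => ha _
  have h5 := h.trans hr
  rw [val_idx hb K ha] at h5
  have h6 : |idx b a K + val b (fun k => a (k + K)) - (b : ℝ) ^ K * y| ≤ 1 := by
    have : idx b a K + val b (fun k => a (k + K)) - (b : ℝ) ^ K * y =
      (b : ℝ) ^ K * ((idx b a K + val b (fun k => a (k + K))) / (b : ℝ) ^ K - y) := by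
      field_simp
    rw [this, abs_mul, abs_of_pos hb0]
    calc _ ≤ (b : ℝ) ^ K * (1 / (b : ℝ) ^ K) := mul_le_mul_of_nonneg_left h5 hb0.le
      _ = 1 := by field_simp
  rw [abs_le] at h6
  constructor <;> linarith [h6.1, h6.2]

end

/-! ### The coding map -/

section

variable {m n : ℕ} {D : Finset (Fin m × Fin n)}

/-- The column digits. -/
def colD (ω : ℕ → D) (k : ℕ) : ℕ := ((ω k).1.1 : ℕ)

/-- The row digits. -/
def rowD (ω : ℕ → D) (k : ℕ) : ℕ := ((ω k).1.2 : ℕ)

lemma colD_lt (ω : ℕ → D) (k : ℕ) : colD ω k < m := (ω k).1.1.2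

lemma rowD_lt (ω : ℕ → D) (k : ℕ) : rowD ω k < n := (ω k).1.2.2

lemma coding_zero (ω : ℕ → D) : coding ω 0 = val m (colD ω) := rfl

lemma coding_one (ω : ℕ → D) : coding ω 1 = val n (rowD ω) := rfl

lemma coding_shift (hm : 2 ≤ m) (hn : 2 ≤ n) (ω : ℕ → D) :
    coding ω = aff (ω 0).1 (coding (shift ω)) := by
  ext i
  fin_cases i
  · show coding ω 0 = (coding (shift ω) 0 + ((ω 0).1.1 : ℕ)) / m
    rw [coding_zero, coding_zero, val_succ hm (colD_lt ω), add_comm]
    rfl
  · show coding ω 1 = (coding (shift ω) 1 + ((ω 0).1.2 : ℕ)) / n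
    rw [coding_one, coding_one, val_succ hn (rowD_lt ω), add_comm]
    rfl

lemma Pl_dist_le {x y : Pl} {c : ℝ} (hc : 0 ≤ c) (h0 : |x 0 - y 0| ≤ c) (h1 : |x 1 - y 1| ≤ c) :
    dist x y ≤ 3 / 2 * c := by
  rw [EuclideanSpace.dist_eq, Fin.sum_univ_two]
  apply Real.sqrt_le_iff.mpr
  refine ⟨by positivity, ?_⟩
  rw [Real.dist_eq, Real.dist_eq]
  have h2 : |x 0 - y 0| ^ 2 ≤ c ^ 2 := pow_le_pow_left₀ (abs_nonneg _) h0 2
  have h3 : |x 1 - y 1| ^ 2 ≤ c ^ 2 := pow_le_pow_left₀ (abs_nonneg _) h1 2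
  nlinarith

lemma Pl_le_dist (x y : Pl) (i : Fin 2) : |x i - y i| ≤ dist x y := by
  rw [EuclideanSpace.dist_eq]
  apply Real.abs_le_sqrt
  have : (x i - y i) ^ 2 = dist (x i) (y i) ^ 2 := by rw [Real.dist_eq, sq_abs]
  rw [this]
  exact Finset.single_le_sum (f := fun j => dist (x j) (y j) ^ 2) (fun j _ => by positivity)
    (Finset.mem_univ i)

lemma aff_dist (hm : 2 ≤ m) (hn : 2 ≤ n) (d : Fin m × Fin n) (x y : Pl) :
    dist (aff d x) (aff d y) ≤ 1 / 2 * dist x y := by
  rw [EuclideanSpace.dist_eq, EuclideanSpace.dist_eq, Fin.sum_univ_two, Fin.sum_univ_two]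
  have hm0 : (2 : ℝ) ≤ m := by exact_mod_cast hm
  have hn0 : (2 : ℝ) ≤ n := by exact_mod_cast hn
  have e : (1 / 2 : ℝ) * √(dist (x 0) (y 0) ^ 2 + dist (x 1) (y 1) ^ 2) =
      √((1 / 2) ^ 2 * (dist (x 0) (y 0) ^ 2 + dist (x 1) (y 1) ^ 2)) := by
    rw [Real.sqrt_mul (by positivity), Real.sqrt_sq (by positivity)]
  rw [e]
  apply Real.sqrt_le_sqrt
  have h0 : dist ((aff d x) 0) ((aff d y) 0) ≤ 1 / 2 * dist (x 0) (y 0) := by
    show dist ((x 0 + d.1) / m) ((y 0 + d.1) / m) ≤ _
    rw [Real.dist_eq, Real.dist_eq, ← sub_div, abs_div, abs_of_nonneg (by positivity : (0 : ℝ) ≤ m),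
      add_sub_add_right_eq_sub, div_le_iff₀ (by positivity)]
    nlinarith [abs_nonneg (x 0 - y 0)]
  have h1 : dist ((aff d x) 1) ((aff d y) 1) ≤ 1 / 2 * dist (x 1) (y 1) := by
    show dist ((x 1 + d.2) / n) ((y 1 + d.2) / n) ≤ _
    rw [Real.dist_eq, Real.dist_eq, ← sub_div, abs_div, abs_of_nonneg (by positivity : (0 : ℝ) ≤ n),
      add_sub_add_right_eq_sub, div_le_iff₀ (by positivity)]
    nlinarith [abs_nonneg (x 1 - y 1)]
  have h2 := pow_le_pow_left₀ dist_nonneg h0 2
  have h3 := pow_le_pow_left₀ dist_nonneg h1 2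
  nlinarith

lemma coding_norm (hm : 2 ≤ m) (hn : 2 ≤ n) (ω : ℕ → D) : dist (coding ω) 0 ≤ 2 := by
  have h0 := val_nonneg hm (colD ω)
  have h1 := val_le_one hm (colD_lt ω)
  have h2 := val_nonneg hn (rowD ω)
  have h3 := val_le_one hn (rowD_lt ω)
  have := Pl_dist_le (x := coding ω) (y := 0) (c := 1) (by norm_num)
    (by rw [coding_zero]; simp; rw [abs_of_nonneg h0]; exact h1)
    (by rw [coding_one]; simp; rw [abs_of_nonneg h2]; exact h3)
  linarith

/-- The carpet is the image of the coding map. -/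
theorem IsCarpet.range_coding (hm : 2 ≤ m) (hn : 2 ≤ n) {Λ : Set Pl} (h : IsCarpet D Λ) :
    range (coding (D := D)) = Λ := by
  obtain ⟨R, hR⟩ := h.compact.isBounded.subset_closedBall 0
  have hR2 : ∀ x ∈ Λ, ∀ ω : ℕ → D, dist x (coding ω) ≤ R + 2 := by
    intro x hx ω
    have h1 : dist x 0 ≤ R := hR hx
    have h2 := coding_norm hm hn ω
    have h3 := dist_triangle_right x (coding ω) 0
    linarith
  have hlim : Tendsto (fun K : ℕ => (1 / 2 : ℝ) ^ K * (R + 2)) atTop (𝓝 0) := by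
    have := (tendsto_pow_atTop_nhds_zero_of_lt_one (show (0 : ℝ) ≤ 1 / 2 by norm_num)
      (by norm_num)).mul_const (R + 2)
    rwa [zero_mul] at this
  apply Subset.antisymm
  · rintro _ ⟨ω, rfl⟩
    have key : ∀ K : ℕ, ∀ ω : ℕ → D, ∃ y ∈ Λ, dist y (coding ω) ≤ (1 / 2) ^ K * (R + 2) := by
      intro K
      induction K with
      | zero =>
        intro ω
        obtain ⟨x, hx⟩ := h.nonempty
        exact ⟨x, hx, by simpa using hR2 x hx ω⟩
      | succ K ih =>
        intro ω
        obtain ⟨y, hy, hyd⟩ := ih (shift ω)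
        refine ⟨aff (ω 0).1 y, ?_, ?_⟩
        · rw [h.eq]
          exact mem_iUnion₂.mpr ⟨(ω 0).1, (ω 0).2, mem_image_of_mem _ hy⟩
        · rw [coding_shift hm hn ω]
          calc _ ≤ 1 / 2 * dist y (coding (shift ω)) := aff_dist hm hn _ _ _
            _ ≤ 1 / 2 * ((1 / 2) ^ K * (R + 2)) := by gcongr
            _ = _ := by ring
    choose y hy hyd using fun K => key K ω
    have : Tendsto y atTop (𝓝 (coding ω)) := by
      rw [tendsto_iff_dist_tendsto_zero]
      exact squeeze_zero (fun K => dist_nonneg) hyd hlim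
    exact h.compact.isClosed.mem_of_tendsto this (Eventually.of_forall hy)
  · intro x hx
    have hstep : ∀ x : Λ, ∃ p : D × Λ, (x : Pl) = aff p.1.1 (p.2 : Pl) := by
      rintro ⟨x, hx⟩
      rw [h.eq] at hx
      obtain ⟨d, hd, y, hy, hyx⟩ := mem_iUnion₂.mp hx
      exact ⟨(⟨d, hd⟩, ⟨y, hy⟩), hyx.symm⟩
    choose f hf using hstep
    set xs : ℕ → Λ := fun k => (fun z => (f z).2)^[k] ⟨x, hx⟩ with hxs
    set ω : ℕ → D := fun k => (f (xs k)).1 with hω
    have hrec : ∀ k, (xs k : Pl) = aff (ω k).1 (xs (k + 1) : Pl) := by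
      intro k
      rw [hf (xs k)]
      simp only [hω, hxs]
      rw [Function.iterate_succ_apply']
    have key : ∀ K : ℕ, ∀ k : ℕ, dist (xs k : Pl) (coding (fun i => ω (i + k))) ≤
        (1 / 2) ^ K * (R + 2) := by
      intro K
      induction K with
      | zero => intro k; simpa using hR2 _ (xs k).2 _
      | succ K ih =>
        intro k
        rw [hrec k, coding_shift hm hn (fun i => ω (i + k))]
        simp only [zero_add]
        have h1 : shift (fun i => ω (i + k)) = fun i => ω (i + (k + 1)) := by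
          funext i
          simp only [shift]
          congr 1
          ring
        rw [h1]
        calc _ ≤ 1 / 2 * dist (xs (k + 1) : Pl) (coding (fun i => ω (i + (k + 1)))) :=
            aff_dist hm hn _ _ _
          _ ≤ 1 / 2 * ((1 / 2) ^ K * (R + 2)) := by gcongr; exact ih (k + 1)
          _ = _ := by ring
    refine ⟨ω, ?_⟩
    have h0 : dist (xs 0 : Pl) (coding ω) ≤ 0 := ge_of_tendsto' hlim fun K => by
      have := key K 0
      simpa using this
    exact (dist_le_zero.mp h0).symm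

end

end Q76.BM
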