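import Mathlib
import Pool.Agent.Q76.BmDigits

/-!
# Approximate squares and their number
-/

namespace Q76.BM

open Set Topology Filter MeasureTheory

/-- The number of columns digits of an approximate square of height `n^{-k}`. -/
def lk (m n k : ℕ) : ℕ := Nat.clog m (n ^ k)

section

variable {m n : ℕ} (hm : 2 ≤ m) (hmn : m < n)
include hm

lemma le_pow_lk (k : ℕ) : n ^ k ≤ m ^ lk m n k := Nat.le_pow_clog (by omega) _

include hmn

lemma lk_pow_le (k : ℕ) : m ^ lk m n k ≤ m * n ^ k := by
  unfold lk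
  rcases Nat.eq_zero_or_pos k with h | h
  · subst h
    simp
    omega
  · have h1 : 1 < n ^ k := Nat.one_lt_pow (by omega) (by omega)
    have h2 := Nat.pow_pred_clog_lt_self (b := m) (by omega) h1
    have h3 : 0 < Nat.clog m (n ^ k) := Nat.clog_pos (by omega) (by omega)
    obtain ⟨j, hj⟩ : ∃ j, Nat.clog m (n ^ k) = j + 1 := ⟨_, (Nat.succ_pred_eq_of_pos h3).symm⟩
    rw [hj] at h2 ⊢
    rw [Nat.pred_succ] at h2
    rw [pow_succ, mul_comm]
    exact Nat.mul_le_mul_left m h2.le

lemma k_le_lk (k : ℕ) : k ≤ lk m n k := by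
  have h1 : m ^ k ≤ m ^ lk m n k := (Nat.pow_le_pow_left hmn.le k).trans (le_pow_lk hm k)
  exact (Nat.pow_le_pow_iff_right (by omega)).mp h1

omit hmn in
lemma lk_le (k : ℕ) : lk m n k ≤ n * k := by
  apply Nat.clog_le_of_le_pow
  rw [pow_mul]
  apply Nat.pow_le_pow_left
  exact (Nat.lt_pow_self (by omega)).le

end

section

variable {m n : ℕ} {D : Finset (Fin m × Fin n)}

/-- The nonempty columns. -/
abbrev Cols (D : Finset (Fin m × Fin n)) := {x // x ∈ D.image Prod.fst}

lemma exists_rep (c : Cols D) : ∃ d : D, d.1.1 = c.1 := by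
  obtain ⟨d, hd, hdc⟩ := Finset.mem_image.mp c.2
  exact ⟨⟨d, hd⟩, hdc⟩

/-- A representative of each column. -/
noncomputable def rep (c : Cols D) : D := (exists_rep c).choose

lemma rep_spec (c : Cols D) : (rep c).1.1 = c.1 := (exists_rep c).choose_spec

lemma rep_inj : Function.Injective (rep (D := D)) := by
  intro c c' h
  apply Subtype.ext
  rw [← rep_spec c, ← rep_spec c', h]

/-- The column of a digit. -/
def colOf (d : D) : Cols D := ⟨d.1.1, Finset.mem_image_of_mem _ d.2⟩

/-- The index set of the approximate squares of level `k`. -/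
abbrev Sq (D : Finset (Fin m × Fin n)) (k : ℕ) := (Fin k → D) × (Fin (lk m n k - k) → Cols D)

lemma card_Sq (k : ℕ) : Fintype.card (Sq D k) = D.card ^ k * numCols D ^ (lk m n k - k) := by
  simp [Sq, numCols]

/-- A point of each approximate square. -/
noncomputable def code (d0 : D) {k : ℕ} (p : Sq D k) (i : ℕ) : D :=
  if h : i < k then p.1 ⟨i, h⟩ else if h' : i - k < lk m n k - k then rep (p.2 ⟨i - k, h'⟩) else d0

lemma code_lt (d0 : D) {k : ℕ} (p : Sq D k) {i : ℕ} (h : i < k) : code d0 p i = p.1 ⟨i, h⟩ := by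
  unfold code
  rw [dif_pos h]

lemma code_mid (d0 : D) {k : ℕ} (p : Sq D k) (i : Fin (lk m n k - k)) :
    code d0 p (i + k) = rep (p.2 i) := by
  unfold code
  rw [dif_neg (by omega), dif_pos (by have := i.2; omega)]
  have e : (⟨(i : ℕ) + k - k, by have := i.2; omega⟩ : Fin (lk m n k - k)) = i :=
    Fin.ext (Nat.add_sub_cancel _ _)
  rw [e]

lemma code_inj (hm : 2 ≤ m) (hmn : m < n) (d0 : D) {k : ℕ} {p p' : Sq D k}
    (h1 : idx m (colD (code d0 p)) (lk m n k) = idx m (colD (code d0 p')) (lk m n k))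
    (h2 : idx n (rowD (code d0 p)) k = idx n (rowD (code d0 p')) k) : p = p' := by
  have hk := k_le_lk hm hmn k
  have e1 := idx_inj hm (colD_lt _) (colD_lt _) h1
  have e2 := idx_inj (by omega : 2 ≤ n) (rowD_lt _) (rowD_lt _) h2
  apply Prod.ext
  · funext i
    have a1 := e1 i (by omega)
    have a2 := e2 i i.2
    simp only [colD, rowD, code_lt d0 _ i.2] at a1 a2
    apply Subtype.ext
    exact Prod.ext (Fin.ext a1) (Fin.ext a2)
  · funext i
    have a1 := e1 (i + k) (by have := i.2; omega)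
    simp only [colD, code_mid, rep_spec] at a1
    exact Subtype.ext (Fin.ext a1)

/-- At most `16` of the chosen points lie within `r ≤ m^{-l}` of a given point. -/
lemma card_fiber (hm : 2 ≤ m) (hmn : m < n) (d0 : D) (k : ℕ) (y : Pl) {r : ℝ}
    (hr : r ≤ 1 / (m : ℝ) ^ lk m n k) :
    (Finset.univ.filter fun p : Sq D k => dist (coding (code d0 p)) y ≤ r).card ≤ 16 := by
  classical
  set a := ⌈(m : ℝ) ^ lk m n k * y 0 - 2⌉₊ with ha
  set b := ⌈(n : ℝ) ^ k * y 1 - 2⌉₊ with hb
  set g : Sq D k → ℕ × ℕ := fun p => (idx m (colD (code d0 p)) (lk m n k),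
    idx n (rowD (code d0 p)) k) with hg
  have hr2 : r ≤ 1 / (n : ℝ) ^ k := by
    refine hr.trans ?_
    have h1 : ((n : ℝ)) ^ k ≤ (m : ℝ) ^ lk m n k := by exact_mod_cast le_pow_lk hm k
    have h2 : (0 : ℝ) < (n : ℝ) ^ k := by
      have : (0 : ℝ) < n := by exact_mod_cast (by omega : 0 < n)
      positivity
    exact one_div_le_one_div_of_le h2 h1
  have hmaps : ∀ p ∈ (Finset.univ.filter fun p : Sq D k => dist (coding (code d0 p)) y ≤ r),
      g p ∈ Finset.Icc a (a + 3) ×ˢ Finset.Icc b (b + 3) := by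
    intro p hp
    have hp2 := (Finset.mem_filter.mp hp).2
    have h0 := (Pl_le_dist (coding (code d0 p)) y 0).trans hp2
    have h1 := (Pl_le_dist (coding (code d0 p)) y 1).trans hp2
    rw [coding_zero] at h0
    rw [coding_one] at h1
    obtain ⟨a1, a2⟩ := idx_near hm (colD_lt _) hr h0
    obtain ⟨b1, b2⟩ := idx_near (by omega : 2 ≤ n) (rowD_lt _) hr2 h1
    rw [Finset.mem_product, Finset.mem_Icc, Finset.mem_Icc]
    refine ⟨⟨Nat.ceil_le.mpr a2, ?_⟩, ⟨Nat.ceil_le.mpr b2, ?_⟩⟩
    · have := Nat.le_ceil ((m : ℝ) ^ lk m n k * y 0 - 2)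
      have h3 : ((idx m (colD (code d0 p)) (lk m n k) : ℕ) : ℝ) ≤ ((a + 3 : ℕ) : ℝ) := by
        push_cast
        linarith
      exact_mod_cast h3
    · have := Nat.le_ceil ((n : ℝ) ^ k * y 1 - 2)
      have h3 : ((idx n (rowD (code d0 p)) k : ℕ) : ℝ) ≤ ((b + 3 : ℕ) : ℝ) := by
        push_cast
        linarith
      exact_mod_cast h3
  have hinj : InjOn g (Finset.univ.filter fun p : Sq D k => dist (coding (code d0 p)) y ≤ r) := by
    intro p _ p' _ h
    exact code_inj hm hmn d0 (congrArg Prod.fst h) (congrArg Prod.snd h)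
  calc _ ≤ (Finset.Icc a (a + 3) ×ˢ Finset.Icc b (b + 3)).card :=
        Finset.card_le_card_of_injOn g hmaps hinj
    _ = 16 := by
      rw [Finset.card_product, Nat.card_Icc, Nat.card_Icc]
      have e1 : a + 3 + 1 - a = 4 := by omega
      have e2 : b + 3 + 1 - b = 4 := by omega
      rw [e1, e2]

/-- Lower bound for coverings. -/
lemma card_le_of_cover (hm : 2 ≤ m) (hmn : m < n) (d0 : D) (k : ℕ) {r : ℝ}
    (hr : r ≤ 1 / (m : ℝ) ^ lk m n k) {t : Finset Pl}
    (ht : range (coding (D := D)) ⊆ ⋃ x ∈ t, Metric.closedBall x r) :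
    D.card ^ k * numCols D ^ (lk m n k - k) ≤ 16 * t.card := by
  classical
  have h1 : ∀ p : Sq D k, ∃ x ∈ t, dist (coding (code d0 p)) x ≤ r := by
    intro p
    obtain ⟨x, hx, hxp⟩ := mem_iUnion₂.mp (ht ⟨code d0 p, rfl⟩)
    exact ⟨x, hx, hxp⟩
  choose c hc hcd using h1
  rw [← card_Sq, ← Finset.card_univ]
  apply Finset.card_le_mul_card_image_of_maps_to (f := c) (fun p _ => hc p)
  intro x _
  refine le_trans (Finset.card_le_card ?_) (card_fiber hm hmn d0 k x hr)
  intro p hp
  rw [Finset.mem_filter] at hp ⊢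
  refine ⟨Finset.mem_univ _, ?_⟩
  rw [← hp.2]
  exact hcd p

/-- Measures of balls around the chosen points. -/
lemma sum_measure_le (hm : 2 ≤ m) (hmn : m < n) (d0 : D) (k : ℕ) {r : ℝ}
    (hr : r ≤ 1 / (m : ℝ) ^ lk m n k) (μ : Measure Pl) [IsProbabilityMeasure μ] :
    ∑ p : Sq D k, μ (Metric.ball (coding (code d0 p)) r) ≤ 16 := by
  classical
  have h1 : ∀ p : Sq D k, μ (Metric.ball (coding (code d0 p)) r) =
      ∫⁻ y, (Metric.ball (coding (code d0 p)) r).indicator 1 y ∂μ := by
    intro p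
    rw [lintegral_indicator_one Metric.isOpen_ball.measurableSet]
  simp_rw [h1]
  rw [← lintegral_finsetSum _ fun p _ =>
    (measurable_one.indicator Metric.isOpen_ball.measurableSet)]
  calc _ ≤ ∫⁻ _ : Pl, 16 ∂μ := by
        apply lintegral_mono
        intro y
        have h2 := card_fiber hm hmn d0 k y hr
        simp only [indicator_apply, Pi.one_apply]
        rw [Finset.sum_ite, Finset.sum_const_zero, add_zero, Finset.sum_const, nsmul_eq_mul,
          mul_one]
        have h3 : (Finset.univ.filter fun p : Sq D k => y ∈ Metric.ball (coding (code d0 p)) r).card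
            ≤ 16 := by
          refine le_trans (Finset.card_le_card ?_) h2
          intro p hp
          rw [Finset.mem_filter] at hp ⊢
          refine ⟨Finset.mem_univ _, ?_⟩
          have := hp.2
          rw [Metric.mem_ball, dist_comm] at this
          exact this.le
        exact_mod_cast h3
    _ = 16 := by simp

/-- Two codes in the same approximate square. -/
lemma coding_close (hm : 2 ≤ m) (hmn : m < n) {k : ℕ} {ω τ : ℕ → D}
    (h1 : ∀ i < k, τ i = ω i) (h2 : ∀ i < lk m n k, (τ i).1.1 = (ω i).1.1) :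
    dist (coding τ) (coding ω) ≤ 3 / 2 * (1 / (n : ℝ) ^ k) := by
  have hn0 : (0 : ℝ) < n := by exact_mod_cast (by omega : 0 < n)
  apply Pl_dist_le (by positivity)
  · rw [coding_zero, coding_zero]
    refine (val_close hm (colD_lt _) (colD_lt _) (K := lk m n k) ?_).trans ?_
    · intro i hi
      simp only [colD, h2 i hi]
    · apply one_div_le_one_div_of_le (by positivity)
      exact_mod_cast le_pow_lk hm k
  · rw [coding_one, coding_one]
    refine val_close (by omega) (rowD_lt _) (rowD_lt _) (K := k) ?_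
    intro i hi
    simp only [rowD, h1 i hi]

/-- Upper bound for the covering number. -/
lemma coverNum_le (hm : 2 ≤ m) (hmn : m < n) (d0 : D) (k : ℕ) {r : ℝ}
    (hr : 3 / 2 * (1 / (n : ℝ) ^ k) ≤ r) :
    coverNum (range (coding (D := D))) r ≤ D.card ^ k * numCols D ^ (lk m n k - k) := by
  classical
  set t : Finset Pl := Finset.univ.image fun p : Sq D k => coding (code d0 p) with ht
  have h1 : t.card ≤ D.card ^ k * numCols D ^ (lk m n k - k) := by
    rw [← card_Sq, ← Finset.card_univ]
    exact Finset.card_image_le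
  refine le_trans (Nat.sInf_le ⟨t, rfl, ?_⟩) h1
  rintro _ ⟨ω, rfl⟩
  set p : Sq D k := (fun i => ω i, fun i => colOf (ω (i + k))) with hp
  refine mem_iUnion₂.mpr ⟨coding (code d0 p), ?_, ?_⟩
  · exact Finset.mem_image_of_mem _ (Finset.mem_univ p)
  · rw [Metric.mem_closedBall]
    refine le_trans (coding_close hm hmn (k := k) ?_ ?_) hr
    · intro i hi
      rw [code_lt d0 p hi]
    · intro i hi
      rcases lt_or_ge i k with h2 | h2
      · rw [code_lt d0 p h2]
      · have h3 := code_mid d0 p ⟨i - k, by omega⟩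
        simp only [Nat.sub_add_cancel h2] at h3
        rw [h3, rep_spec]
        simp [hp, colOf, Nat.sub_add_cancel h2]

lemma coverNum_ge (hm : 2 ≤ m) (hmn : m < n) (d0 : D) (k : ℕ) {r : ℝ} (hr0 : 0 < r)
    (hr : r ≤ 1 / (m : ℝ) ^ lk m n k) :
    D.card ^ k * numCols D ^ (lk m n k - k) ≤ 16 * coverNum (range (coding (D := D))) r := by
  have hn0 : (0 : ℝ) < n := by exact_mod_cast (by omega : 0 < n)
  have hne : {c | ∃ t : Finset Pl, t.card = c ∧ range (coding (D := D)) ⊆
      ⋃ x ∈ t, Metric.closedBall x r}.Nonempty := by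
    -- a finite cover exists by the upper bound
    obtain ⟨k', hk'⟩ : ∃ k' : ℕ, 3 / 2 * (1 / (n : ℝ) ^ k') ≤ r := by
      have h1 : Tendsto (fun k' : ℕ => 3 / 2 * ((1 / (n : ℝ)) ^ k')) atTop (𝓝 (3 / 2 * 0)) :=
        (tendsto_pow_atTop_nhds_zero_of_lt_one (by positivity)
          ((div_lt_one hn0).mpr (by exact_mod_cast (by omega : 1 < n)))).const_mul _
      rw [mul_zero] at h1
      obtain ⟨k', hk'⟩ := ((tendsto_order.mp h1).2 r hr0).exists
      refine ⟨k', ?_⟩
      rw [← one_div_pow]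
      exact hk'.le
    classical
    refine ⟨_, Finset.univ.image fun p : Sq D k' => coding (code d0 p), rfl, ?_⟩
    rintro _ ⟨ω, rfl⟩
    set p : Sq D k' := (fun i => ω i, fun i => colOf (ω (i + k'))) with hp
    refine mem_iUnion₂.mpr ⟨coding (code d0 p), ?_, ?_⟩
    · exact Finset.mem_image_of_mem _ (Finset.mem_univ p)
    · rw [Metric.mem_closedBall]
      refine le_trans (coding_close hm hmn (k := k') ?_ ?_) hk'
      · intro i hi
        rw [code_lt d0 p hi]
      · intro i hi
        rcases lt_or_ge i k' with h2 | h2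
        · rw [code_lt d0 p h2]
        · have h3 := code_mid d0 p ⟨i - k', by omega⟩
          simp only [Nat.sub_add_cancel h2] at h3
          rw [h3, rep_spec]
          simp [hp, colOf, Nat.sub_add_cancel h2]
  obtain ⟨t, ht1, ht2⟩ := Nat.sInf_mem hne
  have := card_le_of_cover hm hmn d0 k hr ht2
  unfold coverNum
  rw [← ht1]
  exact this

end

end Q76.BM
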