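import Mathlib
import Pool.Agent.Q76.BmCount

/-!
# The invariant measure: a mixture of stationary regime switching processes
-/

namespace Q76.BM

open Set Topology Filter MeasureTheory ProbabilityTheory

section

variable {m n : ℕ} {D : Finset (Fin m × Fin n)}

instance : DiscreteMeasurableSpace D := ⟨fun s => s.toFinite.measurableSet⟩

/-- The uniform distribution on a finite set. -/
noncomputable def unif (S : Finset D) : Measure D :=
  (S.card : ENNReal)⁻¹ • ∑ x ∈ S, Measure.dirac x

lemma unif_prob {S : Finset D} (hS : S.Nonempty) : IsProbabilityMeasure (unif S) := by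
  constructor
  unfold unif
  rw [Measure.smul_apply, Measure.finsetSum_apply]
  simp only [measure_univ, Finset.sum_const, nsmul_eq_mul, mul_one, smul_eq_mul]
  apply ENNReal.inv_mul_cancel
  · simpa using hS.ne_empty
  · exact ENNReal.natCast_ne_top _

lemma le_unif {S : Finset D} {x : D} (hx : x ∈ S) {T : Set D} (hT : x ∈ T) :
    (S.card : ENNReal)⁻¹ ≤ unif S T := by
  unfold unif
  rw [Measure.smul_apply, Measure.finsetSum_apply, smul_eq_mul]
  calc (S.card : ENNReal)⁻¹ = (S.card : ENNReal)⁻¹ * 1 := (mul_one _).symm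
    _ ≤ _ := by
      gcongr
      calc (1 : ENNReal) = Measure.dirac x T := by
            rw [Measure.dirac_apply' _ (MeasurableSet.of_discrete), indicator_of_mem hT]; rfl
        _ ≤ _ := Finset.single_le_sum (f := fun y : D => (Measure.dirac y : Measure D) T)
            (fun y _ => zero_le) hx

/-- The marginals of the `k`-th process: the first `k` digits of each period are uniform on `D`,
the others are column uniform. -/
noncomputable def R (D : Finset (Fin m × Fin n)) (k i : ℕ) : Measure D :=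
  if i % lk m n k < k then unif Finset.univ else unif (Finset.univ.image rep)

variable (hne : D.Nonempty)
include hne

lemma R_prob (k i : ℕ) : IsProbabilityMeasure (R D k i) := by
  classical
  obtain ⟨d, hd⟩ := hne
  unfold R
  split_ifs
  · exact unif_prob ⟨⟨d, hd⟩, Finset.mem_univ _⟩
  · exact unif_prob ⟨rep (colOf ⟨d, hd⟩), Finset.mem_image_of_mem _ (Finset.mem_univ _)⟩

omit hne in
lemma R_period (k i : ℕ) : R D k (i + lk m n k) = R D k i := by
  unfold R
  rw [Nat.add_mod_right]

/-- The law of the `k`-th process with initial phase `s`. -/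
noncomputable def pr (D : Finset (Fin m × Fin n)) (k s : ℕ) : Measure (ℕ → D) :=
  Measure.infinitePi fun i => R D k (i + s)

lemma pr_prob (k s : ℕ) : IsProbabilityMeasure (pr D k s) := by
  have := fun i => R_prob hne k i
  unfold pr
  infer_instance

omit hne in
lemma measurable_shift : Measurable (shift (D := D)) :=
  measurable_pi_lambda _ fun i => measurable_pi_apply (i + 1)

lemma map_pr (k s : ℕ) : (pr D k s).map shift = pr D k (s + 1) := by
  classical
  have := fun i => R_prob hne k i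
  unfold pr
  apply Measure.eq_infinitePi
  intro I t ht
  rw [Measure.map_apply measurable_shift (MeasurableSet.pi I.countable_toSet fun i _ => ht i)]
  have h1 : shift ⁻¹' (Set.pi (I : Set ℕ) t) =
      Set.pi ((I.image fun i => i + 1 : Finset ℕ) : Set ℕ) (fun j => t (j - 1)) := by
    ext ω
    simp [shift, Set.mem_pi]
  rw [h1, Measure.infinitePi_pi _ fun i _ => ht _]
  rw [Finset.prod_image (by intro a _ b _ h; simpa using h)]
  apply Finset.prod_congr rfl
  intro i _
  rw [Nat.add_sub_cancel]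
  congr 2
  ring

omit hne in
lemma pr_period (k : ℕ) : pr D k (lk m n k) = pr D k 0 := by
  unfold pr
  congr 1
  funext i
  rw [R_period, add_zero]

/-- The weights. -/
noncomputable def wt (m n k : ℕ) : ENNReal :=
  ENNReal.ofReal (1 / (((k : ℝ) + 1) ^ 2 * (lk m n k + 1)))

/-- The unnormalised invariant measure. -/
noncomputable def nu0 (D : Finset (Fin m × Fin n)) : Measure (ℕ → D) :=
  Measure.sum fun k => wt m n k • ∑ s ∈ Finset.range (lk m n k), pr D k s

omit hne in
lemma nu0_apply {A : Set (ℕ → D)} (hA : MeasurableSet A) :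
    nu0 D A = ∑' k, wt m n k * ∑ s ∈ Finset.range (lk m n k), pr D k s A := by
  unfold nu0
  rw [Measure.sum_apply _ hA]
  simp only [Measure.smul_apply, Measure.finsetSum_apply, smul_eq_mul]

lemma nu0_shift : (nu0 D).map shift = nu0 D := by
  ext A hA
  rw [Measure.map_apply measurable_shift hA, nu0_apply (measurable_shift hA), nu0_apply hA]
  apply tsum_congr
  intro k
  congr 1
  have h1 : ∀ s, pr D k s (shift ⁻¹' A) = pr D k (s + 1) A := by
    intro s
    rw [← map_pr hne, Measure.map_apply measurable_shift hA]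
  simp_rw [h1]
  have h2 := Finset.sum_range_succ' (fun s => pr D k s A) (lk m n k)
  rw [Finset.sum_range_succ, pr_period] at h2
  have := pr_prob hne k 0
  exact ((ENNReal.add_left_inj (measure_ne_top _ _)).mp h2).symm

lemma nu0_univ_ne_top : nu0 D univ ≠ ⊤ := by
  rw [nu0_apply MeasurableSet.univ]
  have h1 : ∀ k, wt m n k * ∑ s ∈ Finset.range (lk m n k), pr D k s univ ≤
      ENNReal.ofReal (1 / ((k : ℝ) + 1) ^ 2) := by
    intro k
    have h2 : ∀ s, pr D k s univ = 1 := fun s => (pr_prob hne k s).measure_univ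
    simp_rw [h2]
    rw [Finset.sum_const, Finset.card_range, nsmul_eq_mul, mul_one]
    unfold wt
    rw [← ENNReal.ofReal_natCast, ← ENNReal.ofReal_mul (by positivity)]
    apply ENNReal.ofReal_le_ofReal
    rw [one_div, one_div, mul_inv, mul_assoc]
    have h3 : ((lk m n k : ℝ) + 1)⁻¹ * (lk m n k : ℝ) ≤ 1 := by
      rw [inv_mul_le_iff₀ (by positivity)]
      linarith
    calc _ ≤ (((k : ℝ) + 1) ^ 2)⁻¹ * 1 := mul_le_mul_of_nonneg_left h3 (by positivity)
      _ = _ := mul_one _
  refine ne_top_of_le_ne_top ?_ (ENNReal.tsum_le_tsum h1)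
  have h4 : Summable fun k : ℕ => 1 / ((k : ℝ) + 1) ^ 2 := by
    have := (summable_nat_add_iff 1).mpr (Real.summable_one_div_nat_pow.mpr (le_refl 2))
    simpa using this
  exact h4.tsum_ofReal_ne_top

/-- The cylinder of an approximate square. -/
def cyl (m n : ℕ) {D : Finset (Fin m × Fin n)} (k : ℕ) (ω : ℕ → D) : Set (ℕ → D) :=
  Set.pi ((Finset.range (lk m n k) : Finset ℕ) : Set ℕ)
    fun i => if i < k then {ω i} else {d | d.1.1 = (ω i).1.1}

omit hne in
lemma mem_cyl {k : ℕ} {ω τ : ℕ → D} (h : τ ∈ cyl m n k ω) (hk : k ≤ lk m n k) :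
    (∀ i < k, τ i = ω i) ∧ ∀ i < lk m n k, (τ i).1.1 = (ω i).1.1 := by
  have h1 : ∀ i < lk m n k, τ i ∈ if i < k then ({ω i} : Set D) else {d | d.1.1 = (ω i).1.1} := by
    intro i hi
    exact h i (by simpa using hi)
  have h2 : ∀ i < k, τ i = ω i := by
    intro i hi
    have := h1 i (by omega)
    rw [if_pos hi] at this
    exact this
  refine ⟨h2, fun i hi => ?_⟩
  rcases lt_or_ge i k with h3 | h3
  · rw [h2 i h3]
  · have := h1 i hi
    rw [if_neg (by omega)] at this
    exact this

omit hne in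
lemma measurable_cyl (k : ℕ) (ω : ℕ → D) : MeasurableSet (cyl m n k ω) :=
  MeasurableSet.pi (Finset.countable_toSet _) fun i _ => MeasurableSet.of_discrete

lemma le_pr_cyl {k : ℕ} (hk : k ≤ lk m n k) (ω : ℕ → D) :
    (D.card : ENNReal)⁻¹ ^ k * (numCols D : ENNReal)⁻¹ ^ (lk m n k - k) ≤
      pr D k 0 (cyl m n k ω) := by
  classical
  have := fun i => R_prob hne k i
  unfold pr cyl
  rw [Measure.infinitePi_pi _ fun _ _ => MeasurableSet.of_discrete]
  have h1 : Finset.range (lk m n k) = Finset.range (k + (lk m n k - k)) := by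
    rw [Nat.add_sub_cancel' hk]
  rw [h1, Finset.prod_range_add]
  have e1 : (D.card : ENNReal)⁻¹ ^ k = ∏ _i ∈ Finset.range k, (D.card : ENNReal)⁻¹ := by
    rw [Finset.prod_const, Finset.card_range]
  have e2 : (numCols D : ENNReal)⁻¹ ^ (lk m n k - k) =
      ∏ _i ∈ Finset.range (lk m n k - k), (numCols D : ENNReal)⁻¹ := by
    rw [Finset.prod_const, Finset.card_range]
  rw [e1, e2]
  apply mul_le_mul' (Finset.prod_le_prod' ?_) (Finset.prod_le_prod' ?_)
  · intro i hi
    rw [Finset.mem_range] at hi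
    rw [if_pos hi, add_zero]
    unfold R
    rw [Nat.mod_eq_of_lt (by omega), if_pos hi]
    have := le_unif (S := Finset.univ) (Finset.mem_univ (ω i)) (mem_singleton (ω i))
    rwa [Finset.card_univ, Fintype.card_coe] at this
  · intro i hi
    rw [Finset.mem_range] at hi
    rw [if_neg (by omega), add_zero]
    unfold R
    rw [Nat.mod_eq_of_lt (by omega), if_neg (by omega)]
    have h2 : rep (colOf (ω (k + i))) ∈ {d : D | d.1.1 = (ω (k + i)).1.1} := by
      show (rep (colOf (ω (k + i)))).1.1 = _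
      rw [rep_spec]
      rfl
    have := le_unif (S := Finset.univ.image rep) (Finset.mem_image_of_mem _
      (Finset.mem_univ (colOf (ω (k + i))))) h2
    rwa [Finset.card_image_of_injective _ rep_inj, Finset.card_univ, Fintype.card_coe] at this

lemma le_nu0_cyl {k : ℕ} (hk : k ≤ lk m n k) (hk1 : 1 ≤ k) (ω : ℕ → D) :
    wt m n k * ((D.card : ENNReal)⁻¹ ^ k * (numCols D : ENNReal)⁻¹ ^ (lk m n k - k)) ≤
      nu0 D (cyl m n k ω) := by
  rw [nu0_apply (measurable_cyl k ω)]
  calc _ ≤ wt m n k * ∑ s ∈ Finset.range (lk m n k), pr D k s (cyl m n k ω) := by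
        gcongr
        refine (le_pr_cyl hne hk ω).trans ?_
        exact Finset.single_le_sum (f := fun s => pr D k s (cyl m n k ω)) (fun s _ => zero_le)
          (Finset.mem_range.mpr (by omega : 0 < lk m n k))
    _ ≤ _ := ENNReal.le_tsum k

/-- The invariant measure. -/
noncomputable def nu (D : Finset (Fin m × Fin n)) : Measure (ℕ → D) :=
  (nu0 D univ)⁻¹ • nu0 D

lemma nu_prob (hm : 2 ≤ m) (hmn : m < n) : IsProbabilityMeasure (nu D) := by
  constructor
  unfold nu
  rw [Measure.smul_apply, smul_eq_mul]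
  apply ENNReal.inv_mul_cancel _ (nu0_univ_ne_top hne)
  obtain ⟨d, hd⟩ := hne
  have h1 := le_nu0_cyl ⟨d, hd⟩ (k_le_lk hm hmn 1) le_rfl (fun _ => (⟨d, hd⟩ : D))
  have h2 : 0 < wt m n 1 * ((D.card : ENNReal)⁻¹ ^ 1 * (numCols D : ENNReal)⁻¹ ^ (lk m n 1 - 1)) := by
    apply ENNReal.mul_pos
    · unfold wt
      rw [Ne, ENNReal.ofReal_eq_zero, not_le]
      positivity
    · apply mul_ne_zero
      · exact pow_ne_zero _ (ENNReal.inv_ne_zero.mpr (ENNReal.natCast_ne_top _))
      · exact pow_ne_zero _ (ENNReal.inv_ne_zero.mpr (ENNReal.natCast_ne_top _))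
  intro h3
  have h4 := h2.trans_le (h1.trans (measure_mono (subset_univ _)))
  rw [h3] at h4
  exact lt_irrefl _ h4

lemma nu_shift : (nu D).map shift = nu D := by
  unfold nu
  rw [Measure.map_smul, nu0_shift hne]

/-- A real lower bound for the measure of the cylinders. -/
lemma le_nu_cyl (hm : 2 ≤ m) (hmn : m < n) : ∃ T : ℝ, 0 < T ∧ ∀ k : ℕ, 1 ≤ k → ∀ ω : ℕ → D,
    ENNReal.ofReal (T / ((k : ℝ) + 1) ^ 3 /
      ((D.card : ℝ) ^ k * (numCols D : ℝ) ^ (lk m n k - k))) ≤ nu D (cyl m n k ω) := by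
  have hN : 0 < D.card := hne.card_pos
  have hM : 0 < numCols D := (hne.image _).card_pos
  have hn0 : (0 : ℝ) < n := by exact_mod_cast (by omega : 0 < n)
  have ht0 : nu0 D univ ≠ 0 := by
    intro h0
    have := (nu_prob hne hm hmn).measure_univ
    unfold nu at this
    rw [Measure.smul_apply, h0] at this
    simp at this
  have ht1 := nu0_univ_ne_top hne
  set t := (nu0 D univ).toReal with ht
  have htpos : 0 < t := ENNReal.toReal_pos ht0 ht1
  refine ⟨t⁻¹ / n, by positivity, fun k hk ω => ?_⟩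
  have hlk := lk_le (m := m) (n := n) hm k
  unfold nu
  rw [Measure.smul_apply, smul_eq_mul]
  have h1 := le_nu0_cyl hne (k_le_lk hm hmn k) hk ω
  have e1 : (nu0 D univ)⁻¹ = ENNReal.ofReal t⁻¹ := by
    rw [ENNReal.ofReal_inv_of_pos htpos, ht, ENNReal.ofReal_toReal ht1]
  have e2 : (D.card : ENNReal)⁻¹ ^ k = ENNReal.ofReal (((D.card : ℝ) ^ k)⁻¹) := by
    rw [ENNReal.ofReal_inv_of_pos (by positivity), ENNReal.ofReal_pow (by positivity),
      ENNReal.ofReal_natCast, ENNReal.inv_pow]
  have e3 : (numCols D : ENNReal)⁻¹ ^ (lk m n k - k) =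
      ENNReal.ofReal (((numCols D : ℝ) ^ (lk m n k - k))⁻¹) := by
    rw [ENNReal.ofReal_inv_of_pos (by positivity), ENNReal.ofReal_pow (by positivity),
      ENNReal.ofReal_natCast, ENNReal.inv_pow]
  calc ENNReal.ofReal (t⁻¹ / n / ((k : ℝ) + 1) ^ 3 /
        ((D.card : ℝ) ^ k * (numCols D : ℝ) ^ (lk m n k - k)))
      ≤ ENNReal.ofReal (t⁻¹ * (1 / (((k : ℝ) + 1) ^ 2 * (lk m n k + 1)) *
        (((D.card : ℝ) ^ k)⁻¹ * ((numCols D : ℝ) ^ (lk m n k - k))⁻¹))) := by
        apply ENNReal.ofReal_le_ofReal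
        have h2 : ((lk m n k : ℝ) + 1) ≤ n * (k + 1) := by
          have h3 : lk m n k + 1 ≤ n * (k + 1) := by
            rw [mul_add, mul_one]
            omega
          exact_mod_cast h3
        have h4 : 1 / ((n : ℝ) * ((k : ℝ) + 1) ^ 3) ≤ 1 / (((k : ℝ) + 1) ^ 2 * (lk m n k + 1)) := by
          apply one_div_le_one_div_of_le (by positivity)
          calc ((k : ℝ) + 1) ^ 2 * (lk m n k + 1) ≤ ((k : ℝ) + 1) ^ 2 * (n * (k + 1)) := by gcongr
            _ = _ := by ring
        have e4 : t⁻¹ / n / ((k : ℝ) + 1) ^ 3 /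
            ((D.card : ℝ) ^ k * (numCols D : ℝ) ^ (lk m n k - k)) =
            t⁻¹ * (1 / ((n : ℝ) * ((k : ℝ) + 1) ^ 3) *
              (((D.card : ℝ) ^ k)⁻¹ * ((numCols D : ℝ) ^ (lk m n k - k))⁻¹)) := by
          have : (D.card : ℝ) ≠ 0 := by positivity
          have : (numCols D : ℝ) ≠ 0 := by positivity
          field_simp
        rw [e4]
        gcongr
    _ = (nu0 D univ)⁻¹ * (wt m n k * ((D.card : ENNReal)⁻¹ ^ k *
        (numCols D : ENNReal)⁻¹ ^ (lk m n k - k))) := by
        rw [ENNReal.ofReal_mul (by positivity), ENNReal.ofReal_mul (by positivity),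
          ENNReal.ofReal_mul (by positivity), e1, e2, e3]
        rfl
    _ ≤ _ := by gcongr

end

end Q76.BM
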