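import Mathlib
import Pool.Agent.Q76.BmMeasure

/-!
# Dimensions
-/

namespace Q76.BM

open Set Topology Filter MeasureTheory

section

variable {m n : ℕ} {D : Finset (Fin m × Fin n)}

/-- The number of approximate squares. -/
noncomputable def cnt (D : Finset (Fin m × Fin n)) (k : ℕ) : ℝ :=
  (D.card : ℝ) ^ k * (numCols D : ℝ) ^ (lk m n k - k)

variable (hne : D.Nonempty) (hm : 2 ≤ m) (hmn : m < n)
include hne hm hmn

lemma dimValue_nonneg : 0 ≤ dimValue D := by
  have hM : 0 < numCols D := (hne.image _).card_pos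
  have hMN : numCols D ≤ D.card := Finset.card_image_le
  unfold dimValue
  have h1 : 0 ≤ Real.log (numCols D) := Real.log_nonneg (by exact_mod_cast hM)
  have h2 : 0 < Real.log m := Real.log_pos (by exact_mod_cast (by omega : 1 < m))
  have h3 : 0 < Real.log n := Real.log_pos (by exact_mod_cast (by omega : 1 < n))
  have h4 : 0 ≤ Real.log ((D.card : ℝ) / numCols D) := by
    apply Real.log_nonneg
    rw [le_div_iff₀ (by exact_mod_cast hM), one_mul]
    exact_mod_cast hMN
  positivity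

lemma cnt_bounds (k : ℕ) : (n : ℝ) ^ ((k : ℝ) * dimValue D) ≤ cnt D k ∧
    cnt D k ≤ numCols D * (n : ℝ) ^ ((k : ℝ) * dimValue D) := by
  have hM : (0 : ℝ) < numCols D := by exact_mod_cast (hne.image _).card_pos
  have hM1 : (1 : ℝ) ≤ numCols D := by exact_mod_cast (hne.image Prod.fst).card_pos
  have hN : (0 : ℝ) < D.card := by exact_mod_cast hne.card_pos
  have hn0 : (0 : ℝ) < n := by exact_mod_cast (by omega : 0 < n)
  have hm0 : (0 : ℝ) < m := by exact_mod_cast (by omega : 0 < m)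
  have h2 : 0 < Real.log m := Real.log_pos (by exact_mod_cast (by omega : 1 < m))
  have h3 : 0 < Real.log n := Real.log_pos (by exact_mod_cast (by omega : 1 < n))
  have hlM : 0 ≤ Real.log (numCols D) := Real.log_nonneg hM1
  have hc : 0 < cnt D k := by unfold cnt; positivity
  have hr : (0 : ℝ) < (n : ℝ) ^ ((k : ℝ) * dimValue D) := Real.rpow_pos_of_pos hn0 _
  have hk := k_le_lk hm hmn k
  -- logarithms
  have e1 : Real.log (cnt D k) = k * Real.log D.card + (lk m n k - k) * Real.log (numCols D) := by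
    unfold cnt
    rw [Real.log_mul (by positivity) (by positivity), Real.log_pow, Real.log_pow,
      Nat.cast_sub hk]
  have e2 : Real.log ((n : ℝ) ^ ((k : ℝ) * dimValue D)) =
      k * Real.log n / Real.log m * Real.log (numCols D) +
        k * (Real.log D.card - Real.log (numCols D)) := by
    rw [Real.log_rpow hn0]
    unfold dimValue
    rw [Real.log_div hN.ne' hM.ne']
    field_simp
  have i1 : k * Real.log n / Real.log m ≤ lk m n k := by
    rw [div_le_iff₀ h2]
    have : Real.log ((n : ℝ) ^ k) ≤ Real.log ((m : ℝ) ^ lk m n k) := by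
      apply Real.log_le_log (by positivity)
      exact_mod_cast le_pow_lk hm k
    rwa [Real.log_pow, Real.log_pow] at this
  have i2 : (lk m n k : ℝ) ≤ k * Real.log n / Real.log m + 1 := by
    have : Real.log ((m : ℝ) ^ lk m n k) ≤ Real.log ((m : ℝ) * (n : ℝ) ^ k) := by
      apply Real.log_le_log (by positivity)
      exact_mod_cast lk_pow_le hm hmn k
    rw [Real.log_pow, Real.log_mul hm0.ne' (by positivity), Real.log_pow] at this
    rw [← sub_le_iff_le_add, le_div_iff₀ h2]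
    linarith
  constructor
  · rw [← Real.log_le_log_iff hr hc, e1, e2]
    have := mul_le_mul_of_nonneg_right i1 hlM
    linarith
  · rw [← Real.log_le_log_iff hc (by positivity), Real.log_mul hM.ne' hr.ne', e1, e2]
    have := mul_le_mul_of_nonneg_right i2 hlM
    linarith

omit hne in
/-- Polynomial factors are subexponential. -/
lemma poly_le {ε : ℝ} (hε : 0 < ε) : ∃ C : ℝ, 0 < C ∧ ∀ k : ℕ,
    ((k : ℝ) + 1) ^ 3 ≤ C * (n : ℝ) ^ ((k : ℝ) * ε) := by
  have hn0 : (0 : ℝ) < n := by exact_mod_cast (by omega : 0 < n)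
  have hn1 : (1 : ℝ) < n := by exact_mod_cast (by omega : 1 < n)
  set q := (n : ℝ) ^ ε with hq
  have hq1 : 1 < q := Real.one_lt_rpow hn1 hε
  have h1 := tendsto_pow_const_div_const_pow_of_one_lt 3 hq1
  obtain ⟨B, hB⟩ := h1.bddAbove_range
  refine ⟨(|B| + 1) * q, by positivity, fun k => ?_⟩
  have h2 : ((k + 1 : ℕ) : ℝ) ^ 3 / q ^ (k + 1) ≤ B := hB ⟨k + 1, rfl⟩
  rw [div_le_iff₀ (by positivity)] at h2
  have e : (n : ℝ) ^ ((k : ℝ) * ε) = q ^ k := by
    rw [hq, ← Real.rpow_natCast, ← Real.rpow_mul hn0.le, mul_comm]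
  rw [e]
  push_cast at h2
  calc ((k : ℝ) + 1) ^ 3 ≤ B * q ^ (k + 1) := h2
    _ ≤ (|B| + 1) * q ^ (k + 1) := by
      gcongr
      linarith [le_abs_self B]
    _ = _ := by ring

omit hne in
lemma measurable_coding : Measurable (coding (D := D)) := by
  have h1 : ∀ K : ℕ, Measurable fun ω : ℕ → D =>
      (!₂[∑ k ∈ Finset.range K, ((ω k).1.1 : ℝ) / (m : ℝ) ^ (k + 1),
        ∑ k ∈ Finset.range K, ((ω k).1.2 : ℝ) / (n : ℝ) ^ (k + 1)] : Pl) := by
    intro K
    refine (WithLp.measurable_toLp 2 (Fin 2 → ℝ)).comp (measurable_pi_lambda _ fun i => ?_)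
    fin_cases i
    · show Measurable fun ω : ℕ → D => ∑ k ∈ Finset.range K, ((ω k).1.1 : ℝ) / (m : ℝ) ^ (k + 1)
      exact Finset.measurable_sum _ fun k _ =>
        (Measurable.of_discrete (f := fun d : D => ((d.1.1 : ℕ) : ℝ) / (m : ℝ) ^ (k + 1))).comp
          (measurable_pi_apply k)
    · show Measurable fun ω : ℕ → D => ∑ k ∈ Finset.range K, ((ω k).1.2 : ℝ) / (n : ℝ) ^ (k + 1)
      exact Finset.measurable_sum _ fun k _ =>
        (Measurable.of_discrete (f := fun d : D => ((d.1.2 : ℕ) : ℝ) / (n : ℝ) ^ (k + 1))).comp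
          (measurable_pi_apply k)
  refine measurable_of_tendsto_metrizable h1 ?_
  rw [tendsto_pi_nhds]
  intro ω
  refine ((PiLp.continuous_toLp 2 (fun _ : Fin 2 => ℝ)).tendsto _).comp ?_
  rw [tendsto_pi_nhds]
  intro i
  fin_cases i
  · exact (summable_val hm (colD_lt ω)).hasSum.tendsto_sum_nat
  · exact (summable_val (by omega) (rowD_lt ω)).hasSum.tendsto_sum_nat

/-- The lower bound for the measure of balls. -/
lemma ball_ge {s : ℝ} (hs : dimValue D < s) : ∃ C : ℝ, 0 < C ∧ ∀ ω : ℕ → D, ∀ r : ℝ, 0 < r →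
    r ≤ 1 → ENNReal.ofReal (C * r ^ s) ≤ (nu D).map coding (Metric.ball (coding ω) r) := by
  have hn0 : (0 : ℝ) < n := by exact_mod_cast (by omega : 0 < n)
  have hn1 : (1 : ℝ) < n := by exact_mod_cast (by omega : 1 < n)
  have hs0 : 0 ≤ s := (dimValue_nonneg hne hm hmn).trans hs.le
  have hM : (0 : ℝ) < numCols D := by exact_mod_cast (hne.image _).card_pos
  obtain ⟨T, hT0, hT⟩ := le_nu_cyl hne hm hmn
  obtain ⟨C, hC0, hC⟩ := poly_le hm hmn (n := n) (sub_pos.mpr hs)
  refine ⟨T / (C * numCols D) * (2 / (3 * n)) ^ s, by positivity, fun ω r hr0 hr1 => ?_⟩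
  obtain ⟨k, hk1, hk2⟩ := exists_nat_pow_near_of_lt_one (x := 2 * r / 3) (y := 1 / (n : ℝ))
    (by positivity) (by linarith) (by positivity) ((div_lt_one hn0).mpr hn1)
  have hsub : cyl m n (k + 1) ω ⊆ coding ⁻¹' Metric.ball (coding ω) r := by
    intro τ hτ
    obtain ⟨h1, h2⟩ := mem_cyl hτ (k_le_lk hm hmn _)
    rw [mem_preimage, Metric.mem_ball]
    refine (coding_close hm hmn h1 h2).trans_lt ?_
    rw [← one_div_pow]
    linarith
  rw [Measure.map_apply (measurable_coding hm hmn) Metric.isOpen_ball.measurableSet]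
  refine le_trans ?_ (measure_mono hsub)
  refine le_trans ?_ (hT (k + 1) (by omega) ω)
  apply ENNReal.ofReal_le_ofReal
  have hcnt := (cnt_bounds hne hm hmn (k + 1)).2
  have hcnt0 : 0 < cnt D (k + 1) := lt_of_lt_of_le (Real.rpow_pos_of_pos hn0 _)
    (cnt_bounds hne hm hmn (k + 1)).1
  have hC' := hC (k + 1)
  -- the two exponentials multiply to `n^{(k+1)s}`
  have e1 : (n : ℝ) ^ (((k + 1 : ℕ) : ℝ) * (s - dimValue D)) *
      (n : ℝ) ^ (((k + 1 : ℕ) : ℝ) * dimValue D) = (n : ℝ) ^ (((k + 1 : ℕ) : ℝ) * s) := by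
    rw [← Real.rpow_add hn0]
    congr 1
    ring
  have e2 : (n : ℝ) ^ (((k + 1 : ℕ) : ℝ) * s) * (2 / (3 * n) * r) ^ s ≤ 1 := by
    rw [Real.rpow_mul hn0.le, Real.rpow_natCast, ← Real.mul_rpow (by positivity) (by positivity)]
    apply Real.rpow_le_one (by positivity) _ hs0
    have h5 : (n : ℝ) ^ (k + 1) * (2 / (3 * n) * r) = (n : ℝ) ^ k * (2 * r / 3) := by
      rw [pow_succ]
      field_simp
    rw [h5]
    calc (n : ℝ) ^ k * (2 * r / 3) ≤ (n : ℝ) ^ k * (1 / n) ^ k := by gcongr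
      _ = 1 := by rw [← mul_pow]; field_simp; simp
  change T / (C * ↑(numCols D)) * (2 / (3 * ↑n)) ^ s * r ^ s ≤ T / ((((k + 1 : ℕ) : ℝ)) + 1) ^ 3 /
    cnt D (k + 1)
  rw [mul_assoc, ← Real.mul_rpow (by positivity) hr0.le]
  have h6 : T / (((k + 1 : ℕ) : ℝ) + 1) ^ 3 / cnt D (k + 1) ≥
      T / ((C * (n : ℝ) ^ (((k + 1 : ℕ) : ℝ) * (s - dimValue D))) *
        (numCols D * (n : ℝ) ^ (((k + 1 : ℕ) : ℝ) * dimValue D))) := by
    rw [div_div]
    apply div_le_div_of_nonneg_left hT0.le (by positivity)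
    exact mul_le_mul hC' hcnt hcnt0.le (by positivity)
  refine le_trans ?_ h6
  have e3 : (C * (n : ℝ) ^ (((k + 1 : ℕ) : ℝ) * (s - dimValue D))) *
      (numCols D * (n : ℝ) ^ (((k + 1 : ℕ) : ℝ) * dimValue D)) =
      C * numCols D * (n : ℝ) ^ (((k + 1 : ℕ) : ℝ) * s) := by
    rw [← e1]; ring
  rw [e3, ← div_div T (C * (numCols D : ℝ))]
  rw [le_div_iff₀ (Real.rpow_pos_of_pos hn0 _)]
  calc T / (C * numCols D) * (2 / (3 * n) * r) ^ s * (n : ℝ) ^ (((k + 1 : ℕ) : ℝ) * s)
      = T / (C * numCols D) * ((n : ℝ) ^ (((k + 1 : ℕ) : ℝ) * s) * (2 / (3 * n) * r) ^ s) := by ring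
    _ ≤ T / (C * numCols D) * 1 := by gcongr
    _ = _ := mul_one _

lemma coding_mem_supp (ω : ℕ → D) : coding ω ∈ supp ((nu D).map coding) := by
  intro r hr
  obtain ⟨C, hC0, hC⟩ := ball_ge hne hm hmn (lt_add_one (dimValue D))
  have h1 := hC ω (min r 1) (lt_min hr one_pos) (min_le_right _ _)
  have h2 : 0 < ENNReal.ofReal (C * (min r 1) ^ (dimValue D + 1)) := by
    rw [ENNReal.ofReal_pos]
    have : 0 < min r 1 := lt_min hr one_pos
    positivity
  exact h2.trans_le (h1.trans (measure_mono (Metric.ball_subset_ball (min_le_left _ _))))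

omit hne in
lemma supp_subset {Λ : Set Pl} (hΛ : IsClosed Λ) (hr : range (coding (D := D)) ⊆ Λ) :
    supp ((nu D).map coding) ⊆ Λ := by
  intro x hx
  by_contra hxΛ
  obtain ⟨r, hr0, hr1⟩ := Metric.isOpen_iff.mp hΛ.isOpen_compl x hxΛ
  have h1 := hx r hr0
  rw [Measure.map_apply (measurable_coding hm hmn) Metric.isOpen_ball.measurableSet] at h1
  have h2 : coding ⁻¹' Metric.ball x r = (∅ : Set (ℕ → D)) := by
    ext ω
    simp only [mem_preimage, mem_empty_iff_false, iff_false]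
    intro h3
    exact hr1 h3 (hr ⟨ω, rfl⟩)
  rw [h2, measure_empty] at h1
  exact lt_irrefl _ h1

/-- Every exponent is at least McMullen's value. -/
lemma le_of_mem_exponents {s : ℝ} (hs : s ∈ exponents ((nu D).map coding)) : dimValue D ≤ s := by
  have hn0 : (0 : ℝ) < n := by exact_mod_cast (by omega : 0 < n)
  have hn1 : (1 : ℝ) < n := by exact_mod_cast (by omega : 1 < n)
  have hm0 : (0 : ℝ) < m := by exact_mod_cast (by omega : 0 < m)
  obtain ⟨hs0, C, hC0, hC⟩ := hs
  by_contra hlt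
  push Not at hlt
  obtain ⟨d, hd⟩ := id hne
  have hprob := nu_prob hne hm hmn
  have hprob2 : IsProbabilityMeasure ((nu D).map coding) :=
    Measure.isProbabilityMeasure_map (measurable_coding hm hmn).aemeasurable
  have key : ∀ k : ℕ, (n : ℝ) ^ ((k : ℝ) * (dimValue D - s)) ≤ 16 * (m : ℝ) ^ s / C := by
    intro k
    set r := 1 / (m : ℝ) ^ lk m n k with hr
    have hr0 : 0 < r := by positivity
    have hr1 : r ≤ 1 := by
      rw [hr, div_le_one (by positivity)]
      exact one_le_pow₀ (by exact_mod_cast (by omega : 1 ≤ m))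
    have h1 := sum_measure_le hm hmn (⟨d, hd⟩ : D) k le_rfl ((nu D).map coding)
    have h2 : ∑ p : Sq D k, ENNReal.ofReal (C * r ^ s) ≤
        ∑ p : Sq D k, (nu D).map coding (Metric.ball (coding (code (⟨d, hd⟩ : D) p)) r) := by
      apply Finset.sum_le_sum
      intro p _
      exact hC _ (coding_mem_supp hne hm hmn _) r hr0 hr1
    have h3 := h2.trans h1
    rw [Finset.sum_const, Finset.card_univ, card_Sq, nsmul_eq_mul, ← ENNReal.ofReal_natCast,
      ← ENNReal.ofReal_mul (by positivity),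
      show (16 : ENNReal) = ENNReal.ofReal 16 by norm_num,
      ENNReal.ofReal_le_ofReal_iff (by norm_num)] at h3
    push_cast at h3
    have h4 := (cnt_bounds hne hm hmn k).1
    unfold cnt at h4
    have h5 : 1 / ((m : ℝ) * (n : ℝ) ^ k) ≤ r := by
      apply one_div_le_one_div_of_le (by positivity)
      exact_mod_cast lk_pow_le hm hmn k
    have h6 : (1 / ((m : ℝ) * (n : ℝ) ^ k)) ^ s ≤ r ^ s :=
      Real.rpow_le_rpow (by positivity) h5 hs0
    have h7 : (1 / ((m : ℝ) * (n : ℝ) ^ k)) ^ s = ((m : ℝ) ^ s)⁻¹ * (n : ℝ) ^ (-((k : ℝ) * s)) := by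
      rw [one_div, Real.inv_rpow (by positivity), Real.mul_rpow (by positivity) (by positivity),
        mul_inv, Real.rpow_neg hn0.le, Real.rpow_mul hn0.le, Real.rpow_natCast]
    have h8 : (n : ℝ) ^ ((k : ℝ) * dimValue D) * (C * (((m : ℝ) ^ s)⁻¹ *
        (n : ℝ) ^ (-((k : ℝ) * s)))) ≤ 16 := by
      refine le_trans ?_ h3
      rw [← h7]
      gcongr
    have h9 : (n : ℝ) ^ ((k : ℝ) * (dimValue D - s)) = (n : ℝ) ^ ((k : ℝ) * dimValue D) *
        (n : ℝ) ^ (-((k : ℝ) * s)) := by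
      rw [← Real.rpow_add hn0]
      congr 1
      ring
    rw [h9, le_div_iff₀ hC0]
    have hms : 0 < (m : ℝ) ^ s := Real.rpow_pos_of_pos hm0 _
    calc _ = ((n : ℝ) ^ ((k : ℝ) * dimValue D) * (C * (((m : ℝ) ^ s)⁻¹ *
        (n : ℝ) ^ (-((k : ℝ) * s))))) * (m : ℝ) ^ s := by field_simp
      _ ≤ 16 * (m : ℝ) ^ s := by gcongr
  -- contradiction
  set q := (n : ℝ) ^ (dimValue D - s) with hq
  have hq1 : 1 < q := Real.one_lt_rpow hn1 (sub_pos.mpr hlt)
  obtain ⟨k, hk⟩ := pow_unbounded_of_one_lt (16 * (m : ℝ) ^ s / C) hq1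
  have h1 := key k
  rw [mul_comm, Real.rpow_mul hn0.le, Real.rpow_natCast] at h1
  linarith

theorem minkowskiDim_eq {Λ : Set Pl} (hΛ : IsCarpet D Λ) :
    minkowskiDim ((nu D).map coding) = dimValue D := by
  have hr := hΛ.range_coding hm (by omega)
  have hmem : ∀ s, dimValue D < s → s ∈ exponents ((nu D).map coding) := by
    intro s hs
    refine ⟨(dimValue_nonneg hne hm hmn).trans hs.le, ?_⟩
    obtain ⟨C, hC0, hC⟩ := ball_ge hne hm hmn hs
    refine ⟨C, hC0, fun x hx r hr0 hr1 => ?_⟩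
    have h1 := supp_subset hm hmn hΛ.compact.isClosed hr.subset hx
    rw [← hr] at h1
    obtain ⟨ω, rfl⟩ := h1
    exact hC ω r hr0 hr1
  unfold minkowskiDim
  apply csInf_eq_of_forall_ge_of_forall_gt_exists_lt ⟨_, hmem _ (lt_add_one _)⟩
  · intro s hs
    exact le_of_mem_exponents hne hm hmn hs
  · intro w hw
    obtain ⟨s, hs1, hs2⟩ := exists_between hw
    exact ⟨s, hmem s hs1, hs2⟩

omit hne hm hmn in
/-- Bounds of the order `r^{-s}` give the box dimension. -/
lemma tendsto_of_bounds {f : ℝ → ℝ} {c C s : ℝ} (hc : 0 < c) (hC : 0 < C)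
    (h : ∀ᶠ r in 𝓝[>] (0 : ℝ), c * r ^ (-s) ≤ f r ∧ f r ≤ C * r ^ (-s)) :
    Tendsto (fun r => Real.log (f r) / -Real.log r) (𝓝[>] 0) (𝓝 s) := by
  have hlog : Tendsto (fun r : ℝ => -Real.log r) (𝓝[>] 0) atTop :=
    tendsto_neg_atBot_atTop.comp Real.tendsto_log_nhdsGT_zero
  have lim : ∀ a : ℝ, Tendsto (fun r : ℝ => Real.log a / -Real.log r + s) (𝓝[>] 0) (𝓝 s) := by
    intro a
    have := (hlog.const_div_atTop (Real.log a)).add_const s
    rwa [zero_add] at this
  have hr1 : ∀ᶠ r in 𝓝[>] (0 : ℝ), r < 1 :=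
    (eventually_lt_nhds (show (0 : ℝ) < 1 by norm_num)).filter_mono nhdsWithin_le_nhds
  refine tendsto_of_tendsto_of_tendsto_of_le_of_le' (lim c) (lim C) ?_ ?_
  · filter_upwards [h, hr1, self_mem_nhdsWithin] with r hr h1 h0
    have h0' : (0 : ℝ) < r := h0
    have hl : 0 < -Real.log r := by
      have := Real.log_neg h0' h1
      linarith
    have h2 : Real.log (c * r ^ (-s)) ≤ Real.log (f r) := Real.log_le_log (by positivity) hr.1
    rw [Real.log_mul hc.ne' (by positivity), Real.log_rpow h0'] at h2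
    rw [le_div_iff₀ hl, add_mul, div_mul_cancel₀ _ hl.ne']
    linarith
  · filter_upwards [h, hr1, self_mem_nhdsWithin] with r hr h1 h0
    have h0' : (0 : ℝ) < r := h0
    have hl : 0 < -Real.log r := by
      have := Real.log_neg h0' h1
      linarith
    have h3 : 0 < f r := lt_of_lt_of_le (by positivity) hr.1
    have h2 : Real.log (f r) ≤ Real.log (C * r ^ (-s)) := Real.log_le_log h3 hr.2
    rw [Real.log_mul hC.ne' (by positivity), Real.log_rpow h0'] at h2
    rw [div_le_iff₀ hl, add_mul, div_mul_cancel₀ _ hl.ne']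
    linarith

/-- McMullen's formula for the Minkowski dimension. -/
theorem hasMinkowskiDim : HasMinkowskiDim (range (coding (D := D))) (dimValue D) := by
  unfold HasMinkowskiDim
  have hn0 : (0 : ℝ) < n := by exact_mod_cast (by omega : 0 < n)
  have hn1 : (1 : ℝ) < n := by exact_mod_cast (by omega : 1 < n)
  have hm0 : (0 : ℝ) < m := by exact_mod_cast (by omega : 0 < m)
  have hM : (0 : ℝ) < numCols D := by exact_mod_cast (hne.image _).card_pos
  have hs0 := dimValue_nonneg hne hm hmn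
  obtain ⟨d, hd⟩ := id hne
  set s := dimValue D with hs
  refine tendsto_of_bounds (c := 1 / 16 * ((n : ℝ) * m) ^ (-s))
    (C := numCols D * (3 * n / 2) ^ s) (by positivity) (by positivity) ?_
  have hr1 : ∀ᶠ r in 𝓝[>] (0 : ℝ), r < 1 / (m : ℝ) :=
    (eventually_lt_nhds (show (0 : ℝ) < 1 / m by positivity)).filter_mono nhdsWithin_le_nhds
  filter_upwards [hr1, self_mem_nhdsWithin] with r hr1 hr0
  have hr0' : (0 : ℝ) < r := hr0
  have hmr : (m : ℝ) * r ≤ 1 := by
    rw [lt_div_iff₀ hm0] at hr1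
    linarith
  have hm1 : (1 : ℝ) ≤ m := by exact_mod_cast (by omega : 1 ≤ m)
  have hr1' : r ≤ 1 := by nlinarith
  constructor
  · obtain ⟨k, hk1, hk2⟩ := exists_nat_pow_near_of_lt_one (x := (m : ℝ) * r) (y := 1 / (n : ℝ))
      (by positivity) hmr (by positivity) ((div_lt_one hn0).mpr hn1)
    have h1 : r ≤ 1 / (m : ℝ) ^ lk m n k := by
      have h2 : 1 / ((m : ℝ) * (n : ℝ) ^ k) ≤ 1 / (m : ℝ) ^ lk m n k := by
        apply one_div_le_one_div_of_le (by positivity)
        exact_mod_cast lk_pow_le hm hmn k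
      refine le_trans ?_ h2
      rw [le_div_iff₀ (by positivity)]
      rw [one_div_pow, le_div_iff₀ (by positivity)] at hk2
      linarith
    have h2 := coverNum_ge hm hmn (⟨d, hd⟩ : D) k hr0' h1
    have h3 : cnt D k ≤ 16 * (coverNum (range (coding (D := D))) r : ℝ) := by
      unfold cnt
      exact_mod_cast h2
    have h4 := (cnt_bounds hne hm hmn k).1
    have h5 : ((n : ℝ) * m) ^ (-s) * r ^ (-s) ≤ (n : ℝ) ^ ((k : ℝ) * s) := by
      rw [← Real.mul_rpow (by positivity) hr0'.le, Real.rpow_neg (by positivity),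
        Real.rpow_mul hn0.le, Real.rpow_natCast, ← Real.inv_rpow (by positivity)]
      apply Real.rpow_le_rpow (by positivity) _ hs0
      rw [inv_le_comm₀ (by positivity) (by positivity)]
      rw [one_div_pow, pow_succ, div_lt_iff₀ (by positivity)] at hk1
      rw [inv_le_iff_one_le_mul₀ (by positivity)]
      nlinarith
    rw [mul_assoc]
    linarith
  · obtain ⟨k, hk1, hk2⟩ := exists_nat_pow_near_of_lt_one (x := 2 * r / 3) (y := 1 / (n : ℝ))
      (by positivity) (by linarith) (by positivity) ((div_lt_one hn0).mpr hn1)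
    have h1 : 3 / 2 * (1 / (n : ℝ) ^ (k + 1)) ≤ r := by
      rw [← one_div_pow]
      linarith
    have h2 := coverNum_le hm hmn (⟨d, hd⟩ : D) (k + 1) h1
    have h3 : (coverNum (range (coding (D := D))) r : ℝ) ≤ cnt D (k + 1) := by
      unfold cnt
      exact_mod_cast h2
    have h4 := (cnt_bounds hne hm hmn (k + 1)).2
    have h5 : (n : ℝ) ^ (((k + 1 : ℕ) : ℝ) * s) ≤ (3 * n / 2) ^ s * r ^ (-s) := by
      rw [Real.rpow_neg hr0'.le, ← Real.inv_rpow hr0'.le, ← Real.mul_rpow (by positivity)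
        (by positivity), Real.rpow_mul hn0.le, Real.rpow_natCast]
      apply Real.rpow_le_rpow (by positivity) _ hs0
      rw [one_div_pow, le_div_iff₀ (by positivity)] at hk2
      rw [← div_eq_mul_inv, le_div_iff₀ hr0', pow_succ]
      nlinarith
    calc _ ≤ (numCols D : ℝ) * (n : ℝ) ^ (((k + 1 : ℕ) : ℝ) * s) := h3.trans h4
      _ ≤ (numCols D : ℝ) * ((3 * n / 2) ^ s * r ^ (-s)) := by gcongr
      _ = _ := by ring

end

end Q76.BM
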