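import Mathlib

/-!
# Homeomorphisms of the interval preserving a grid, and curves which sweep the cells
-/

namespace Q76.CellMaps

open Filter Topology Set

/-- The basic family of homeomorphisms of `[0,1]`. -/
noncomputable def mm (n : ℕ) (r u : ℝ) : ℝ := (1 - r) * u ^ n + r * (1 - (1 - u) ^ n)

lemma mm_zero {n : ℕ} (hn : n ≠ 0) (r : ℝ) : mm n r 0 = 0 := by
  simp [mm, hn]

lemma mm_one {n : ℕ} (hn : n ≠ 0) (r : ℝ) : mm n r 1 = 1 := by
  simp [mm, hn]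

lemma mm_mem {n : ℕ} {r u : ℝ} (hr : r ∈ Icc (0 : ℝ) 1) (hu : u ∈ Icc (0 : ℝ) 1) :
    mm n r u ∈ Icc (0 : ℝ) 1 := by
  have h1 : 0 ≤ u ^ n := pow_nonneg hu.1 n
  have h2 : u ^ n ≤ 1 := pow_le_one₀ hu.1 hu.2
  have h3 : 0 ≤ (1 - u) ^ n := pow_nonneg (by linarith [hu.2]) n
  have h4 : (1 - u) ^ n ≤ 1 := pow_le_one₀ (by linarith [hu.2]) (by linarith [hu.1])
  obtain ⟨hr0, hr1⟩ := hr
  unfold mm
  constructor
  · have := mul_nonneg (sub_nonneg.mpr hr1) h1
    have := mul_nonneg hr0 (sub_nonneg.mpr h4)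
    linarith
  · have := mul_le_mul_of_nonneg_left h2 (sub_nonneg.mpr hr1)
    have := mul_le_mul_of_nonneg_left (show 1 - (1 - u) ^ n ≤ 1 by linarith) hr0
    linarith

lemma mm_strictMonoOn {n : ℕ} (hn : n ≠ 0) {r : ℝ} (hr : r ∈ Icc (0 : ℝ) 1) :
    StrictMonoOn (mm n r) (Icc (0 : ℝ) 1) := by
  intro u hu v hv huv
  have h1 : u ^ n < v ^ n := pow_lt_pow_left₀ huv hu.1 hn
  have h2 : (1 - v) ^ n < (1 - u) ^ n := pow_lt_pow_left₀ (by linarith) (by linarith [hv.2]) hn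
  obtain ⟨hr0, hr1⟩ := hr
  unfold mm
  rcases hr0.eq_or_lt with h | h
  · subst h
    linarith
  · have h3 := mul_lt_mul_of_pos_left h2 h
    have h4 := mul_le_mul_of_nonneg_left h1.le (sub_nonneg.mpr hr1)
    linarith

lemma continuous_mm (n : ℕ) : Continuous fun q : ℝ × ℝ => mm n q.1 q.2 := by
  unfold mm
  fun_prop

/-- Clamping a number to the unit interval. -/
noncomputable def cl (x : ℝ) : ℝ := max 0 (min 1 x)

lemma cl_mem (x : ℝ) : cl x ∈ Icc (0 : ℝ) 1 := by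
  unfold cl
  exact ⟨le_max_left _ _, max_le zero_le_one (min_le_left _ _)⟩

lemma cl_of_mem {x : ℝ} (hx : x ∈ Icc (0 : ℝ) 1) : cl x = x := by
  unfold cl
  rw [min_eq_right hx.2, max_eq_right hx.1]

lemma cl_of_le {x : ℝ} (hx : x ≤ 0) : cl x = 0 := by
  unfold cl
  rw [min_eq_right (hx.trans zero_le_one), max_eq_left hx]

lemma cl_of_ge {x : ℝ} (hx : 1 ≤ x) : cl x = 1 := by
  unfold cl
  rw [min_eq_left hx, max_eq_right zero_le_one]

lemma cl_mono : Monotone cl := by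
  intro x y h
  unfold cl
  exact max_le_max_left _ (min_le_min_left _ h)

lemma continuous_cl : Continuous cl := by
  unfold cl
  fun_prop

/-- The cellwise family of homeomorphisms of `[0,1]`. -/
noncomputable def Ph (K n : ℕ) (r x : ℝ) : ℝ :=
  (∑ i ∈ Finset.range K, mm n r (cl (K * x - i))) / K

lemma continuous_Ph (K n : ℕ) : Continuous fun q : ℝ × ℝ => Ph K n q.1 q.2 := by
  unfold Ph
  apply Continuous.div_const
  apply continuous_finsetSum
  intro i _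
  have h1 : Continuous fun q : ℝ × ℝ => (q.1, cl (K * q.2 - i)) :=
    continuous_fst.prodMk (continuous_cl.comp (by fun_prop))
  exact (continuous_mm n).comp h1

lemma Ph_cell {K n : ℕ} (hn : n ≠ 0) {a : ℕ} (ha : a < K) {r x : ℝ}
    (hx : x ∈ Icc ((a : ℝ) / K) ((a + 1) / K)) :
    Ph K n r x = (a + mm n r (K * x - a)) / K := by
  have hK : (0 : ℝ) < K := by exact_mod_cast (Nat.zero_le a).trans_lt ha
  have h1 : (a : ℝ) ≤ K * x := by
    have := hx.1
    rwa [div_le_iff₀ hK, mul_comm] at this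
  have h2 : K * x ≤ a + 1 := by
    have := hx.2
    rwa [le_div_iff₀ hK, mul_comm] at this
  unfold Ph
  congr 1
  obtain ⟨c, rfl⟩ : ∃ c, K = a + 1 + c := ⟨K - (a + 1), by omega⟩
  rw [Finset.sum_range_add, Finset.sum_range_succ]
  have e1 : ∑ i ∈ Finset.range a, mm n r (cl (((a + 1 + c : ℕ) : ℝ) * x - i)) = a := by
    rw [Finset.sum_congr rfl (g := fun _ => (1 : ℝ))]
    · simp
    · intro i hi
      have hi' : (i : ℝ) + 1 ≤ a := by exact_mod_cast Finset.mem_range.mp hi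
      rw [cl_of_ge (by linarith), mm_one hn]
  have e2 : ∑ i ∈ Finset.range c, mm n r (cl (((a + 1 + c : ℕ) : ℝ) * x - ((a + 1 + i : ℕ) : ℝ))) = 0 := by
    apply Finset.sum_eq_zero
    intro i _
    have hi' : (0 : ℝ) ≤ i := Nat.cast_nonneg i
    rw [cl_of_le (by push_cast; push_cast at h2; linarith), mm_zero hn]
  rw [e1, e2, cl_of_mem ⟨by linarith, by linarith⟩, add_zero]

/-- Every point of the unit interval lies in a cell. -/
lemma exists_cell {K : ℕ} (hK : K ≠ 0) {x : ℝ} (hx : x ∈ Icc (0 : ℝ) 1) :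
    ∃ a < K, x ∈ Icc ((a : ℝ) / K) ((a + 1) / K) := by
  have hK' : (0 : ℝ) < K := by exact_mod_cast Nat.pos_of_ne_zero hK
  rcases hx.2.eq_or_lt with h | h
  · refine ⟨K - 1, by omega, ?_⟩
    have h1 : ((K - 1 : ℕ) : ℝ) = K - 1 := by
      rw [Nat.cast_sub (Nat.one_le_iff_ne_zero.mpr hK)]; simp
    rw [h1, h]
    constructor
    · rw [div_le_one hK']; linarith
    · rw [le_div_iff₀ hK']; linarith
  · refine ⟨⌊K * x⌋₊, ?_, ?_, ?_⟩
    · rw [Nat.floor_lt (by have := hx.1; positivity)]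
      calc K * x < K * 1 := by gcongr
        _ = K := mul_one _
    · rw [div_le_iff₀ hK', mul_comm x]
      exact Nat.floor_le (by have := hx.1; positivity)
    · rw [le_div_iff₀ hK', mul_comm x]
      exact (Nat.lt_floor_add_one _).le

lemma Ph_mapsTo_cell {K n : ℕ} (hn : n ≠ 0) {a : ℕ} (ha : a < K) {r x : ℝ}
    (hr : r ∈ Icc (0 : ℝ) 1) (hx : x ∈ Icc ((a : ℝ) / K) ((a + 1) / K)) :
    Ph K n r x ∈ Icc ((a : ℝ) / K) ((a + 1) / K) := by
  have hK : (0 : ℝ) < K := by exact_mod_cast (Nat.zero_le a).trans_lt ha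
  have h1 : (a : ℝ) ≤ K * x := by
    have := hx.1
    rwa [div_le_iff₀ hK, mul_comm] at this
  have h2 : K * x ≤ a + 1 := by
    have := hx.2
    rwa [le_div_iff₀ hK, mul_comm] at this
  rw [Ph_cell hn ha hx]
  have h3 := mm_mem (n := n) hr (u := K * x - a) ⟨by linarith, by linarith⟩
  constructor
  · gcongr
    linarith [h3.1]
  · gcongr
    linarith [h3.2]

lemma cell_subset {K : ℕ} {a : ℕ} (ha : a < K) :
    Icc ((a : ℝ) / K) ((a + 1) / K) ⊆ Icc 0 1 := by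
  have hK : (0 : ℝ) < K := by exact_mod_cast (Nat.zero_le a).trans_lt ha
  have h1 : (a : ℝ) + 1 ≤ K := by exact_mod_cast ha
  apply Icc_subset_Icc
  · positivity
  · rw [div_le_one hK]; exact h1

lemma Ph_mem {K n : ℕ} (hK : K ≠ 0) (hn : n ≠ 0) {r x : ℝ}
    (hr : r ∈ Icc (0 : ℝ) 1) (hx : x ∈ Icc (0 : ℝ) 1) : Ph K n r x ∈ Icc (0 : ℝ) 1 := by
  obtain ⟨a, ha, hxa⟩ := exists_cell hK hx
  exact cell_subset ha (Ph_mapsTo_cell hn ha hr hxa)

lemma abs_Ph_sub_le {K n : ℕ} (hK : K ≠ 0) (hn : n ≠ 0) {r x : ℝ}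
    (hr : r ∈ Icc (0 : ℝ) 1) (hx : x ∈ Icc (0 : ℝ) 1) : |Ph K n r x - x| ≤ 1 / K := by
  have hK' : (0 : ℝ) < K := by exact_mod_cast Nat.pos_of_ne_zero hK
  obtain ⟨a, ha, hxa⟩ := exists_cell hK hx
  have h1 := Ph_mapsTo_cell hn ha hr hxa
  have h2 : ((a : ℝ) + 1) / K = a / K + 1 / K := by rw [add_div]
  rw [abs_le]
  constructor
  · linarith [h1.1, hxa.2]
  · linarith [h1.2, hxa.1]

lemma Ph_strictMonoOn {K n : ℕ} (hK : K ≠ 0) (hn : n ≠ 0) {r : ℝ} (hr : r ∈ Icc (0 : ℝ) 1) :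
    StrictMonoOn (Ph K n r) (Icc 0 1) := by
  intro x hx y hy hxy
  have hK' : (0 : ℝ) < K := by exact_mod_cast Nat.pos_of_ne_zero hK
  unfold Ph
  apply div_lt_div_of_pos_right _ hK'
  have hmono := (mm_strictMonoOn hn hr).monotoneOn
  have hxy' : K * x < K * y := by gcongr
  apply Finset.sum_lt_sum
  · intro i _
    exact hmono (cl_mem _) (cl_mem _) (cl_mono (by linarith))
  · refine ⟨⌊K * x⌋₊, ?_, ?_⟩
    · rw [Finset.mem_range, Nat.floor_lt (by have := hx.1; positivity)]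
      calc K * x < K * 1 := by
            have := hxy.trans_le hy.2
            gcongr
        _ = K := mul_one _
    · apply mm_strictMonoOn hn hr (cl_mem _) (cl_mem _)
      have h1 : (⌊K * x⌋₊ : ℝ) ≤ K * x := Nat.floor_le (by have := hx.1; positivity)
      have h2 : K * x < ⌊K * x⌋₊ + 1 := Nat.lt_floor_add_one _
      rw [cl_of_mem (x := K * x - _) ⟨by linarith, by linarith⟩]
      rcases le_total (K * y - ⌊K * x⌋₊) 1 with h | h
      · rw [cl_of_mem ⟨by linarith, h⟩]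
        linarith
      · rw [cl_of_ge h]
        linarith

lemma Ph_surjOn {K n : ℕ} (hK : K ≠ 0) (hn : n ≠ 0) (r : ℝ) :
    SurjOn (Ph K n r) (Icc 0 1) (Icc 0 1) := by
  have hK' : (0 : ℝ) < K := by exact_mod_cast Nat.pos_of_ne_zero hK
  have hc : ContinuousOn (Ph K n r) (Icc 0 1) := by
    have : Continuous fun x : ℝ => Ph K n r x :=
      (continuous_Ph K n).comp (continuous_const.prodMk continuous_id)
    exact this.continuousOn
  have h0 : Ph K n r 0 = 0 := by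
    rw [Ph_cell hn (a := 0) (Nat.pos_of_ne_zero hK) ⟨by simp, by positivity⟩]
    simp [mm_zero hn]
  have h1 : Ph K n r 1 = 1 := by
    have e1 : ((K - 1 : ℕ) : ℝ) = K - 1 := by
      rw [Nat.cast_sub (Nat.one_le_iff_ne_zero.mpr hK)]; simp
    rw [Ph_cell hn (a := K - 1) (by omega)]
    · rw [e1]
      have : (K : ℝ) * 1 - (K - 1) = 1 := by ring
      rw [this, mm_one hn]
      field_simp
      ring
    · rw [e1]
      constructor
      · rw [div_le_one hK']; linarith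
      · rw [le_div_iff₀ hK']; linarith
  have := intermediate_value_Icc zero_le_one hc
  rw [h0, h1] at this
  exact this

/-- The oscillation. -/
noncomputable def rho (t : ℝ) : ℝ := (1 + Real.sin t) / 2

lemma rho_mem (t : ℝ) : rho t ∈ Icc (0 : ℝ) 1 := by
  unfold rho
  constructor
  · linarith [Real.neg_one_le_sin t]
  · linarith [Real.sin_le_one t]

lemma continuous_rho : Continuous rho := by
  unfold rho
  exact (continuous_const.add Real.continuous_sin).div_const _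

/-- The first coordinate of the curve. -/
noncomputable def c1 (K n : ℕ) (z1 t : ℝ) : ℝ := Ph K n (rho (n * t)) z1

/-- The zeroth coordinate of the curve. -/
noncomputable def c0 (K n : ℕ) (z1 t : ℝ) : ℝ := Ph K n (rho (n * c1 K n z1 t)) t

/-- An integer multiple of `2π` just above a number. -/
lemma exists_int_above (x : ℝ) : ∃ k : ℤ, x < 2 * Real.pi * k ∧ 2 * Real.pi * k ≤ x + 2 * Real.pi := by
  have hpi := Real.pi_pos
  refine ⟨⌊x / (2 * Real.pi)⌋ + 1, ?_, ?_⟩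
  · have h1 := Int.lt_floor_add_one (x / (2 * Real.pi))
    rw [div_lt_iff₀ (by positivity)] at h1
    push_cast
    linarith
  · have h1 := Int.floor_le (x / (2 * Real.pi))
    rw [le_div_iff₀ (by positivity)] at h1
    push_cast
    linarith

lemma sin_add_mul (x : ℝ) (k : ℤ) : Real.sin (2 * Real.pi * k + x) = Real.sin x := by
  have := Real.sin_add_int_mul_two_pi x k
  rw [← this]
  congr 1
  ring

/-- **The curve hits every small target.** -/
theorem exists_hit {K : ℕ} {a b : ℕ} (ha : a < K) (hb : b < K) {z1 s s' A0 A1 ε : ℝ}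
    (hz : z1 ∈ Ioo ((b : ℝ) / K) ((b + 1) / K)) (hs : (a : ℝ) / K < s) (hss : s < s')
    (hs' : s' < (a + 1) / K) (hA0 : A0 ∈ Ioo ((a : ℝ) / K) ((a + 1) / K))
    (hA1 : A1 ∈ Ioo ((b : ℝ) / K) ((b + 1) / K)) (hε : 0 < ε) :
    ∀ᶠ n : ℕ in atTop, ∃ t ∈ Ioo s s', c0 K n z1 t = A0 ∧ |c1 K n z1 t - A1| < ε := by
  have hK : (0 : ℝ) < K := by exact_mod_cast (Nat.zero_le a).trans_lt ha
  have hpi := Real.pi_pos
  have key : ∀ (x : ℝ) (c : ℕ), x ∈ Ioo ((c : ℝ) / K) ((c + 1) / K) → K * x - c ∈ Ioo (0 : ℝ) 1 := by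
    intro x c hx
    have h1 := hx.1
    have h2 := hx.2
    rw [div_lt_iff₀ hK] at h1
    rw [lt_div_iff₀ hK] at h2
    constructor <;> linarith
  obtain ⟨u, hu⟩ : ∃ u, u = K * z1 - b := ⟨_, rfl⟩
  obtain ⟨α0, hα0⟩ : ∃ u, u = K * A0 - a := ⟨_, rfl⟩
  obtain ⟨α1, hα1⟩ : ∃ u, u = K * A1 - b := ⟨_, rfl⟩
  obtain ⟨σ, hσ⟩ : ∃ u, u = K * s - a := ⟨_, rfl⟩
  obtain ⟨σ', hσ'⟩ : ∃ u, u = K * s' - a := ⟨_, rfl⟩
  have ku : u ∈ Ioo (0 : ℝ) 1 := by rw [hu]; exact key _ _ hz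
  have k0 : α0 ∈ Ioo (0 : ℝ) 1 := by rw [hα0]; exact key _ _ hA0
  have k1 : α1 ∈ Ioo (0 : ℝ) 1 := by rw [hα1]; exact key _ _ hA1
  have kσ : σ ∈ Ioo (0 : ℝ) 1 := by rw [hσ]; exact key _ _ ⟨hs, hss.trans hs'⟩
  have kσ' : σ' ∈ Ioo (0 : ℝ) 1 := by rw [hσ']; exact key _ _ ⟨hs.trans hss, hs'⟩
  have tp : ∀ x : ℝ, x ∈ Ioo (0 : ℝ) 1 → Tendsto (fun n : ℕ => x ^ n) atTop (𝓝 0) := fun x hx =>
    tendsto_pow_atTop_nhds_zero_of_lt_one hx.1.le hx.2
  have td : Tendsto (fun n : ℕ => 4 * Real.pi / (n : ℝ)) atTop (𝓝 0) :=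
    tendsto_const_div_atTop_nhds_zero_nat _
  have flip : ∀ x : ℝ, x ∈ Ioo (0 : ℝ) 1 → 1 - x ∈ Ioo (0 : ℝ) 1 := fun x hx =>
    ⟨by linarith [hx.2], by linarith [hx.1]⟩
  have E1 : ∀ᶠ n : ℕ in atTop, u ^ n < α1 := (tp u ku).eventually (gt_mem_nhds k1.1)
  have E2 : ∀ᶠ n : ℕ in atTop, α1 + K * (4 * Real.pi / (n : ℝ)) < 1 - (1 - u) ^ n := by
    have h1 : Tendsto (fun n : ℕ => α1 + K * (4 * Real.pi / (n : ℝ))) atTop (𝓝 α1) := by
      have := (td.const_mul (K : ℝ)).const_add α1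
      simpa using this
    have h2 : Tendsto (fun n : ℕ => 1 - (1 - u) ^ n) atTop (𝓝 1) := by
      have := (tp _ (flip u ku)).const_sub 1
      simpa using this
    exact h1.eventually_lt h2 k1.2
  have E3 : ∀ᶠ n : ℕ in atTop, σ' ^ n < α0 := (tp σ' kσ').eventually (gt_mem_nhds k0.1)
  have E4 : ∀ᶠ n : ℕ in atTop, α0 < 1 - (1 - σ) ^ n := by
    have h2 : Tendsto (fun n : ℕ => 1 - (1 - σ) ^ n) atTop (𝓝 1) := by
      have := (tp _ (flip σ kσ)).const_sub 1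
      simpa using this
    exact h2.eventually (lt_mem_nhds k0.2)
  have E5 : ∀ᶠ n : ℕ in atTop, 4 * Real.pi / (n : ℝ) < s' - s :=
    td.eventually (gt_mem_nhds (by linarith))
  have E6 : ∀ᶠ n : ℕ in atTop, 4 * Real.pi / (n : ℝ) < ε := td.eventually (gt_mem_nhds hε)
  filter_upwards [E1, E2, E3, E4, E5, E6, eventually_ge_atTop 1] with n e1 e2 e3 e4 e5 e6 e7
  have hn : n ≠ 0 := by omega
  have hn' : (0 : ℝ) < n := by exact_mod_cast e7
  obtain ⟨ξ, hξ⟩ : ∃ ξ, ξ = 4 * Real.pi / (n : ℝ) := ⟨_, rfl⟩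
  rw [← hξ] at e2 e5 e6
  have hξpos : 0 < ξ := by rw [hξ]; positivity
  have hnξ : n * ξ = 4 * Real.pi := by rw [hξ]; field_simp
  obtain ⟨C, hC⟩ : ∃ C, C = 1 - (1 - u) ^ n - u ^ n := ⟨_, rfl⟩
  have hCpos : 0 < C := by
    have : 0 < (K : ℝ) * ξ := by positivity
    rw [hC]; linarith
  obtain ⟨k, hk1, hk2⟩ := exists_int_above (n * s + Real.pi / 2)
  -- the reparametrisation
  set r : ℝ → ℝ := fun θ => (K * θ - b - u ^ n) / C with hr
  set T : ℝ → ℝ := fun θ => (2 * Real.pi * k + Real.arcsin (2 * r θ - 1)) / n with hT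
  have hTmem : ∀ θ, T θ ∈ Ioo s s' := by
    intro θ
    have h1 := Real.neg_pi_div_two_le_arcsin (2 * r θ - 1)
    have h2 := Real.arcsin_le_pi_div_two (2 * r θ - 1)
    have h3 : n * ξ < n * (s' - s) := by gcongr
    rw [hnξ] at h3
    simp only [hT]
    constructor
    · rw [lt_div_iff₀ hn']
      linarith
    · rw [div_lt_iff₀ hn']
      linarith
  have hrmem : ∀ θ ∈ Icc A1 (A1 + ξ), r θ ∈ Icc (0 : ℝ) 1 := by
    intro θ hθ
    have h1 : K * A1 ≤ K * θ := by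
      have := hθ.1
      gcongr
    have h2 : K * θ ≤ K * (A1 + ξ) := by
      have := hθ.2
      gcongr
    simp only [hr]
    constructor
    · apply div_nonneg _ hCpos.le
      linarith
    · rw [div_le_one hCpos]
      rw [hC]
      linarith
  have hrho : ∀ θ ∈ Icc A1 (A1 + ξ), rho (n * T θ) = r θ := by
    intro θ hθ
    have h1 := hrmem θ hθ
    have h2 : n * T θ = 2 * Real.pi * k + Real.arcsin (2 * r θ - 1) := by
      simp only [hT]; field_simp
    rw [h2, rho, sin_add_mul, Real.sin_arcsin (by linarith [h1.1]) (by linarith [h1.2])]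
    ring
  have hz' : z1 ∈ Icc ((b : ℝ) / K) ((b + 1) / K) := ⟨hz.1.le, hz.2.le⟩
  have hc1 : ∀ θ ∈ Icc A1 (A1 + ξ), c1 K n z1 (T θ) = θ := by
    intro θ hθ
    rw [c1, hrho θ hθ, Ph_cell hn hb hz', ← hu, mm]
    have h1 : r θ * C = K * θ - b - u ^ n := by
      simp only [hr]; field_simp
    have h2 : (1 - r θ) * u ^ n + r θ * (1 - (1 - u) ^ n) = u ^ n + r θ * C := by
      rw [hC]; ring
    rw [h2, h1]
    field_simp
    ring
  have hcont : Continuous fun θ => Ph K n (rho (n * θ)) (T θ) := by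
    have hTc : Continuous T := by
      simp only [hT, hr]
      exact (continuous_const.add (Real.continuous_arcsin.comp (by fun_prop))).div_const _
    have h1 : Continuous fun θ : ℝ => (rho (n * θ), T θ) :=
      (continuous_rho.comp (by fun_prop)).prodMk hTc
    exact (continuous_Ph K n).comp h1
  -- two extreme parameters
  have hext : ∀ c : ℝ, c ∈ Icc (-(Real.pi / 2)) (Real.pi / 2) → ∃ θ ∈ Icc A1 (A1 + ξ),
      Real.sin (n * θ) = Real.sin c := by
    intro c hc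
    obtain ⟨k', hk1', hk2'⟩ := exists_int_above (n * A1 - c)
    refine ⟨(2 * Real.pi * k' + c) / n, ⟨?_, ?_⟩, ?_⟩
    · rw [le_div_iff₀ hn']
      linarith
    · rw [div_le_iff₀ hn']
      have : (A1 + ξ) * n = n * A1 + n * ξ := by ring
      rw [this, hnξ]
      linarith [hc.1, hc.2]
    · have : n * ((2 * Real.pi * k' + c) / n) = 2 * Real.pi * k' + c := by field_simp
      rw [this, sin_add_mul]
  have hTcell : ∀ θ, T θ ∈ Icc ((a : ℝ) / K) ((a + 1) / K) := fun θ =>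
    ⟨hs.le.trans (hTmem θ).1.le, (hTmem θ).2.le.trans hs'.le⟩
  obtain ⟨θ₀, h₀, s₀⟩ := hext (-(Real.pi / 2)) ⟨le_rfl, by linarith⟩
  obtain ⟨θ₁, h₁, s₁⟩ := hext (Real.pi / 2) ⟨by linarith, le_rfl⟩
  have r₀ : rho (n * θ₀) = 0 := by rw [rho, s₀, Real.sin_neg, Real.sin_pi_div_two]; norm_num
  have r₁ : rho (n * θ₁) = 1 := by rw [rho, s₁, Real.sin_pi_div_two]; norm_num
  have hKT : ∀ θ, σ < K * T θ - a ∧ K * T θ - a < σ' := by
    intro θ
    have h1 : K * s < K * T θ := by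
      have := (hTmem θ).1
      gcongr
    have h2 : K * T θ < K * s' := by
      have := (hTmem θ).2
      gcongr
    rw [hσ, hσ']
    constructor <;> linarith
  have v₀ : Ph K n (rho (n * θ₀)) (T θ₀) < A0 := by
    rw [r₀, Ph_cell hn ha (hTcell θ₀), mm, div_lt_iff₀ hK]
    have h1 : (K * T θ₀ - a) ^ n ≤ σ' ^ n :=
      pow_le_pow_left₀ (by linarith [(hKT θ₀).1, kσ.1]) (hKT θ₀).2.le n
    have h2 : (1 - 0) * (K * T θ₀ - a) ^ n + 0 * (1 - (1 - (K * T θ₀ - a)) ^ n)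
      = (K * T θ₀ - a) ^ n := by ring
    rw [h2]
    linarith
  have v₁ : A0 < Ph K n (rho (n * θ₁)) (T θ₁) := by
    rw [r₁, Ph_cell hn ha (hTcell θ₁), mm, lt_div_iff₀ hK]
    have h1 : (1 - (K * T θ₁ - a)) ^ n ≤ (1 - σ) ^ n :=
      pow_le_pow_left₀ (by linarith [(hKT θ₁).2, kσ'.2]) (by linarith [(hKT θ₁).1]) n
    have h2 : (1 - 1) * (K * T θ₁ - a) ^ n + 1 * (1 - (1 - (K * T θ₁ - a)) ^ n)
      = 1 - (1 - (K * T θ₁ - a)) ^ n := by ring
    rw [h2]
    linarith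
  have hivt := intermediate_value_uIcc (a := θ₀) (b := θ₁) hcont.continuousOn
  have hA0mem : A0 ∈ uIcc (Ph K n (rho (n * θ₀)) (T θ₀)) (Ph K n (rho (n * θ₁)) (T θ₁)) := by
    rw [uIcc_of_le (v₀.trans v₁).le]
    exact ⟨v₀.le, v₁.le⟩
  obtain ⟨θ, hθ, hval⟩ := hivt hA0mem
  have hθ' : θ ∈ Icc A1 (A1 + ξ) := (uIcc_subset_Icc h₀ h₁) hθ
  refine ⟨T θ, hTmem θ, ?_, ?_⟩
  · rw [c0, hc1 θ hθ']
    exact hval
  · rw [hc1 θ hθ', abs_lt]
    constructor
    · linarith [hθ'.1]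
    · linarith [hθ'.2]

end Q76.CellMaps
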