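import Mathlib

/-!
# Upper density bounds and Hausdorff null sets

If a measure `μ` satisfies `μ (closedBall x r) ≤ K r ^ d` for small `r` at every point `x` of a
set `E` (with constants depending on `x`) and `E` is null for the `d`-dimensional Hausdorff
measure, `d > 0`, then `μ E = 0`.
-/

namespace Q76.HausdorffDensity

open MeasureTheory Filter Topology Set Metric
open scoped ENNReal NNReal

/-- From scales `r₀ / 2^j` to all scales: an inequality `m (r/2) ≤ C r^k + 2^{-(k+1)} m r`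
implies `m r ≤ K r^k`. -/
lemma decay_iteration {m : ℝ → ℝ} (hmono : Monotone m) (k : ℕ) {C r₀ : ℝ} (hr₀ : 0 < r₀)
    (hC : 0 ≤ C)
    (h : ∀ r, 0 < r → r ≤ r₀ → m (r / 2) ≤ C * r ^ k + (1 / 2) ^ (k + 1) * m r) :
    ∃ K : ℝ, ∀ r, 0 < r → r ≤ r₀ → m r ≤ K * r ^ k := by
  set K₀ := max (m r₀ / r₀ ^ k) (2 ^ (k + 1) * C) with hK₀
  have hK0 : 0 ≤ K₀ := le_max_of_le_right (by positivity)
  have hC' : C ≤ (1 / 2) ^ (k + 1) * K₀ := by
    have h1 : 2 ^ (k + 1) * C ≤ K₀ := le_max_right _ _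
    have h2 : (1 / 2 : ℝ) ^ (k + 1) * (2 ^ (k + 1) * C) = C := by
      rw [← mul_assoc, ← mul_pow]; norm_num
    calc C = (1 / 2 : ℝ) ^ (k + 1) * (2 ^ (k + 1) * C) := h2.symm
      _ ≤ _ := by gcongr
  have hj : ∀ j : ℕ, m (r₀ / 2 ^ j) ≤ K₀ * (r₀ / 2 ^ j) ^ k := by
    intro j
    induction j with
    | zero =>
      simp only [pow_zero, div_one]
      have : m r₀ / r₀ ^ k ≤ K₀ := le_max_left _ _
      rwa [div_le_iff₀ (by positivity)] at this
    | succ j ih =>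
      have hρ : 0 < r₀ / 2 ^ j := by positivity
      have hρ' : r₀ / 2 ^ j ≤ r₀ := div_le_self hr₀.le (one_le_pow₀ (by norm_num))
      have h1 := h _ hρ hρ'
      have e : r₀ / 2 ^ (j + 1) = r₀ / 2 ^ j / 2 := by rw [pow_succ, div_div]
      rw [e]
      refine h1.trans ?_
      set ρ := r₀ / 2 ^ j
      have e2 : K₀ * (ρ / 2) ^ k = 2 * ((1 / 2) ^ (k + 1) * K₀ * ρ ^ k) := by
        rw [div_pow, pow_succ, one_div, inv_pow]
        field_simp
      rw [e2]
      have h3 : C * ρ ^ k ≤ (1 / 2) ^ (k + 1) * K₀ * ρ ^ k := by gcongr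
      have h4 : (1 / 2 : ℝ) ^ (k + 1) * m ρ ≤ (1 / 2) ^ (k + 1) * K₀ * ρ ^ k := by
        rw [mul_assoc]; gcongr
      linarith
  refine ⟨K₀ * 2 ^ k, fun r hr hr' => ?_⟩
  obtain ⟨j, hj1, hj2⟩ := exists_nat_pow_near_of_lt_one (x := r / r₀) (y := 1 / 2)
    (by positivity) ((div_le_one hr₀).mpr hr') (by norm_num) (by norm_num)
  have h5 : r ≤ r₀ / 2 ^ j := by
    rw [div_le_iff₀ hr₀] at hj2
    rw [one_div, inv_pow] at hj2
    calc r ≤ (2 ^ j)⁻¹ * r₀ := hj2
      _ = r₀ / 2 ^ j := by rw [div_eq_inv_mul]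
  have h6 : r₀ / 2 ^ j ≤ 2 * r := by
    rw [lt_div_iff₀ hr₀] at hj1
    rw [one_div, inv_pow, pow_succ, mul_inv] at hj1
    rw [div_eq_inv_mul]
    linarith
  calc m r ≤ m (r₀ / 2 ^ j) := hmono h5
    _ ≤ K₀ * (r₀ / 2 ^ j) ^ k := hj j
    _ ≤ K₀ * (2 * r) ^ k := by gcongr
    _ = K₀ * 2 ^ k * r ^ k := by rw [mul_pow]; ring

variable {X : Type*} [MetricSpace X] [MeasurableSpace X] [BorelSpace X]

omit [BorelSpace X] in
/-- Bound for a measure of a small set around a point with an upper density bound. -/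
lemma measure_le_of_bound {μ : Measure X} {d : ℝ} {E : Set X} {K : ℝ≥0} {δ : ℝ}
    (hE : ∀ x ∈ E, ∀ r : ℝ, 0 < r → r ≤ δ → μ (closedBall x r) ≤ K * ENNReal.ofReal r ^ d)
    {t : Set X} (ht : ediam t ≤ ENNReal.ofReal (δ / 2)) (hδ : 0 < δ) :
    μ (t ∩ E) ≤ K * ediam t ^ d := by
  rcases (t ∩ E).eq_empty_or_nonempty with h | ⟨x, hxt, hxE⟩
  · rw [h, measure_empty]; exact zero_le
  have htop : ediam t ≠ ⊤ := ne_top_of_le_ne_top ENNReal.ofReal_ne_top ht
  set s := (ediam t).toReal with hs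
  have hs0 : 0 ≤ s := ENNReal.toReal_nonneg
  have hsδ : s ≤ δ / 2 := ENNReal.toReal_le_of_le_ofReal (by positivity) ht
  have hts : ediam t = ENNReal.ofReal s := (ENNReal.ofReal_toReal htop).symm
  have hsub : ∀ r, s < r → t ∩ E ⊆ closedBall x r := by
    intro r hr y hy
    rw [mem_closedBall, dist_edist]
    have h1 : edist y x ≤ ediam t := edist_le_ediam_of_mem hy.1 hxt
    calc (edist y x).toReal ≤ s := ENNReal.toReal_mono htop h1
      _ ≤ r := hr.le
  have hle : ∀ r ∈ Ioo s δ, μ (t ∩ E) ≤ K * ENNReal.ofReal r ^ d := by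
    intro r hr
    exact (measure_mono (hsub r hr.1)).trans (hE x hxE r (lt_of_le_of_lt hs0 hr.1) hr.2.le)
  have hcont : Tendsto (fun r : ℝ => (K : ℝ≥0∞) * ENNReal.ofReal r ^ d) (𝓝[>] s)
      (𝓝 (K * ENNReal.ofReal s ^ d)) := by
    apply tendsto_nhdsWithin_of_tendsto_nhds
    have h1 : Continuous fun r : ℝ => ENNReal.ofReal r ^ d :=
      (ENNReal.continuous_rpow_const).comp ENNReal.continuous_ofReal
    exact ENNReal.Tendsto.const_mul h1.continuousAt (Or.inr ENNReal.coe_ne_top)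
  rw [hts]
  refine ge_of_tendsto hcont ?_
  have : Ioo s δ ∈ 𝓝[>] s := Ioo_mem_nhdsGT (by linarith)
  filter_upwards [this] with r hr using hle r hr

/-- If `μ` has finite upper `d`-density at each point of an `H^d`-null set `E`, then `μ E = 0`. -/
theorem measure_eq_zero_of_density {μ : Measure X} {d : ℝ} {E : Set X}
    (hE : ∀ x ∈ E, ∃ (K : ℝ≥0) (δ : ℝ), 0 < δ ∧
      ∀ r : ℝ, 0 < r → r ≤ δ → μ (closedBall x r) ≤ K * ENNReal.ofReal r ^ d)
    (h0 : (Measure.hausdorffMeasure d : Measure X) E = 0) : μ E = 0 := by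
  -- decompose
  let F : ℕ → Set X := fun k => {x ∈ E | ∀ r : ℝ, 0 < r → r ≤ 1 / ((k : ℝ) + 1) →
    μ (closedBall x r) ≤ (k : ℝ≥0) * ENNReal.ofReal r ^ d}
  have hcover : E ⊆ ⋃ k, F k := by
    intro x hx
    obtain ⟨K, δ, hδ, h⟩ := hE x hx
    obtain ⟨k1, hk1⟩ := exists_nat_ge K
    obtain ⟨k2, hk2⟩ := exists_nat_gt (1 / δ)
    rw [mem_iUnion]
    refine ⟨max k1 k2, hx, fun r hr hr' => ?_⟩
    have hrδ : r ≤ δ := by
      refine hr'.trans ?_
      have h2 : (k2 : ℝ) ≤ ((max k1 k2 : ℕ) : ℝ) := by exact_mod_cast le_max_right _ _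
      rw [div_le_iff₀ (by positivity)]
      rw [div_lt_iff₀ hδ] at hk2
      nlinarith
    refine (h r hr hrδ).trans ?_
    gcongr
    have h3 : (k1 : ℝ≥0) ≤ ((max k1 k2 : ℕ) : ℝ≥0) := by exact_mod_cast le_max_left _ _
    exact_mod_cast hk1.trans h3
  have hF : ∀ k, μ (F k) = 0 := by
    intro k
    have hFE : F k ⊆ E := fun x hx => hx.1
    have h1 : (Measure.hausdorffMeasure d : Measure X) (F k) = 0 := measure_mono_null hFE h0
    rw [Measure.hausdorffMeasure_apply] at h1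
    have hδ : (0 : ℝ) < 1 / ((k : ℝ) + 1) := by positivity
    have hr : (0 : ℝ≥0∞) < ENNReal.ofReal (1 / ((k : ℝ) + 1) / 2) :=
      ENNReal.ofReal_pos.mpr (by positivity)
    have h2 : (⨅ (t : ℕ → Set X) (_ : F k ⊆ ⋃ n, t n)
        (_ : ∀ n, ediam (t n) ≤ ENNReal.ofReal (1 / ((k : ℝ) + 1) / 2)),
          ∑' n, ⨆ _ : (t n).Nonempty, ediam (t n) ^ d) = 0 := by
      apply le_antisymm _ zero_le
      rw [← h1]
      exact le_iSup₂_of_le (ENNReal.ofReal (1 / ((k : ℝ) + 1) / 2)) hr le_rfl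
    have h3 : ∀ ε : ℝ≥0∞, 0 < ε → μ (F k) ≤ ((k : ℝ≥0) : ℝ≥0∞) * ε := by
      intro ε hε
      rw [← h2] at hε
      simp only [iInf_lt_iff] at hε
      obtain ⟨t, ht1, ht2, ht3⟩ := hε
      calc μ (F k) ≤ μ (⋃ n, t n ∩ F k) := by
            apply measure_mono
            intro x hx
            obtain ⟨n, hn⟩ := mem_iUnion.mp (ht1 hx)
            exact mem_iUnion.mpr ⟨n, hn, hx⟩
        _ ≤ ∑' n, μ (t n ∩ F k) := measure_iUnion_le _
        _ ≤ ∑' n, ((k : ℝ≥0) : ℝ≥0∞) * ⨆ _ : (t n).Nonempty, ediam (t n) ^ d := by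
            apply ENNReal.tsum_le_tsum
            intro n
            by_cases hn : (t n).Nonempty
            · simp only [hn, iSup_pos]
              exact measure_le_of_bound (fun x hx => hx.2) (ht2 n) hδ
            · rw [not_nonempty_iff_eq_empty.mp hn]
              simp
        _ = ((k : ℝ≥0) : ℝ≥0∞) * ∑' n, ⨆ _ : (t n).Nonempty, ediam (t n) ^ d :=
            ENNReal.tsum_mul_left
        _ ≤ ((k : ℝ≥0) : ℝ≥0∞) * ε := by gcongr
    have ht : Tendsto (fun ε : ℝ≥0∞ => ((k : ℝ≥0) : ℝ≥0∞) * ε) (𝓝[>] 0)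
        (𝓝 (((k : ℝ≥0) : ℝ≥0∞) * 0)) :=
      (ENNReal.Tendsto.const_mul tendsto_id (Or.inr (by simp))).mono_left nhdsWithin_le_nhds
    rw [mul_zero] at ht
    apply le_antisymm _ zero_le
    refine ge_of_tendsto ht ?_
    filter_upwards [self_mem_nhdsWithin] with ε hε using h3 ε hε
  have := measure_iUnion_null (μ := μ) hF
  exact measure_mono_null hcover this

end Q76.HausdorffDensity
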