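import Mathlib
import Pool.Agent.Q76.HausdorffDensity

/-!
# Doubling scales

For every finite Borel measure on a Euclidean space almost every point has arbitrarily small
radii `r` with `μ (B(x, 3 r)) ≤ 3^(n+1) μ (B(x, r))`.
-/

namespace Q76.DoublingScales

open MeasureTheory Filter Topology Set Metric
open scoped ENNReal NNReal

/-- A monotone function with `3^(k) m r ≤ m (3 r)` for small `r` decays like `r^k`. -/
lemma decay_of_nondoubling {m : ℝ → ℝ} (hmono : Monotone m) (hm0 : ∀ r, 0 ≤ m r) (k : ℕ) {r₀ : ℝ}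
    (hr₀ : 0 < r₀) (h : ∀ r, 0 < r → r ≤ r₀ → 3 ^ k * m (r / 3) ≤ m r) :
    ∃ K : ℝ, 0 ≤ K ∧ ∀ r, 0 < r → r ≤ r₀ → m r ≤ K * r ^ k := by
  have hj : ∀ j : ℕ, m (r₀ / 3 ^ j) ≤ m r₀ * ((1 / 3) ^ j) ^ k := by
    intro j
    induction j with
    | zero => simp
    | succ j ih =>
      have hρ : 0 < r₀ / 3 ^ j := by positivity
      have hρ' : r₀ / 3 ^ j ≤ r₀ := div_le_self hr₀.le (one_le_pow₀ (by norm_num))
      have h1 := h _ hρ hρ'
      have e : r₀ / 3 ^ (j + 1) = r₀ / 3 ^ j / 3 := by rw [pow_succ, div_div]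
      rw [e]
      have h2 : 3 ^ k * m (r₀ / 3 ^ j / 3) ≤ m r₀ * ((1 / 3) ^ j) ^ k := h1.trans ih
      have h3 : m r₀ * ((1 / 3 : ℝ) ^ (j + 1)) ^ k = (m r₀ * ((1 / 3) ^ j) ^ k) / 3 ^ k := by
        rw [pow_succ, mul_pow, one_div_pow 3 k]
        ring
      rw [h3, le_div_iff₀ (by positivity)]
      linarith
  refine ⟨m r₀ * (3 / r₀) ^ k, mul_nonneg (hm0 _) (by positivity), fun r hr hr' => ?_⟩
  obtain ⟨j, hj1, hj2⟩ := exists_nat_pow_near_of_lt_one (x := r / r₀) (y := 1 / 3)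
    (by positivity) ((div_le_one hr₀).mpr hr') (by norm_num) (by norm_num)
  have h5 : r ≤ r₀ / 3 ^ j := by
    rw [div_le_iff₀ hr₀] at hj2
    rw [one_div, inv_pow] at hj2
    calc r ≤ (3 ^ j)⁻¹ * r₀ := hj2
      _ = r₀ / 3 ^ j := by rw [div_eq_inv_mul]
  have h6 : (1 / 3 : ℝ) ^ j ≤ 3 / r₀ * r := by
    rw [pow_succ] at hj1
    have : (1 / 3 : ℝ) ^ j < 3 * (r / r₀) := by linarith
    calc (1 / 3 : ℝ) ^ j ≤ 3 * (r / r₀) := this.le
      _ = 3 / r₀ * r := by ring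
  calc m r ≤ m (r₀ / 3 ^ j) := hmono h5
    _ ≤ m r₀ * ((1 / 3) ^ j) ^ k := hj j
    _ ≤ m r₀ * (3 / r₀ * r) ^ k := by
        have := hm0 r₀
        gcongr
    _ = m r₀ * (3 / r₀) ^ k * r ^ k := by rw [mul_pow]; ring

/-- Almost every point has arbitrarily small doubling scales. -/
theorem ae_frequently_doubling {n : ℕ} (μ : Measure (EuclideanSpace ℝ (Fin n)))
    [IsFiniteMeasure μ] :
    ∀ᵐ x ∂μ, ∃ᶠ r in 𝓝[>] (0 : ℝ), μ (closedBall x (3 * r)) ≤ 3 ^ (n + 1) * μ (closedBall x r) := by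
  rw [ae_iff]
  have h0 : (Measure.hausdorffMeasure ((n + 1 : ℕ) : ℝ) :
      Measure (EuclideanSpace ℝ (Fin n))) = 0 := by
    apply Real.hausdorffMeasure_of_finrank_lt
    rw [finrank_euclideanSpace_fin]
    exact_mod_cast Nat.lt_succ_self n
  apply Q76.HausdorffDensity.measure_eq_zero_of_density (d := ((n + 1 : ℕ) : ℝ))
  · intro x hx
    have hx' : ∀ᶠ r in 𝓝[>] (0 : ℝ),
        3 ^ (n + 1) * μ (closedBall x r) < μ (closedBall x (3 * r)) := by
      have hx1 : ¬ ∃ᶠ r in 𝓝[>] (0 : ℝ),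
        μ (closedBall x (3 * r)) ≤ 3 ^ (n + 1) * μ (closedBall x r) := hx
      rw [not_frequently] at hx1
      filter_upwards [hx1] with r hr using not_le.mp hr
    obtain ⟨δ, hδ, hδ'⟩ := (mem_nhdsGT_iff_exists_Ioo_subset' (zero_lt_one' ℝ)).mp hx'
    rw [mem_Ioi] at hδ
    have hmono : Monotone fun r : ℝ => μ.real (closedBall x r) := by
      intro r s hrs
      exact measureReal_mono (closedBall_subset_closedBall hrs)
    obtain ⟨K, hK0, hK⟩ := decay_of_nondoubling hmono (fun r => measureReal_nonneg) (n + 1)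
      (r₀ := δ) hδ (by
      intro r hr hrδ
      have h1 : r / 3 ∈ Ioo 0 δ := ⟨by positivity, by linarith⟩
      have h2 : 3 ^ (n + 1) * μ (closedBall x (r / 3)) < μ (closedBall x (3 * (r / 3))) := hδ' h1
      have h3 : 3 * (r / 3) = r := by ring
      rw [h3] at h2
      have h4 := ENNReal.toReal_mono (measure_ne_top μ _) h2.le
      rw [ENNReal.toReal_mul] at h4
      simpa [measureReal_def] using h4)
    refine ⟨K.toNNReal, δ, hδ, fun r hr hrδ => ?_⟩
    rw [ENNReal.rpow_natCast, ← ENNReal.ofReal_pow hr.le,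
      ← ENNReal.ofReal_toReal (measure_ne_top μ (closedBall x r))]
    have h5 : ((K.toNNReal : ℝ≥0) : ℝ≥0∞) = ENNReal.ofReal K := rfl
    rw [h5, ← ENNReal.ofReal_mul hK0]
    exact ENNReal.ofReal_le_ofReal (hK r hr hrδ)
  · rw [h0]; simp

end Q76.DoublingScales
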