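import Mathlib

/-!
# Periodic controls: the state and the adjoint state
-/

namespace Q76.Effort

open MeasureTheory Set Filter Topology Function

/-- Quasi-periodic primitive. -/
noncomputable def prim (κ T : ℝ) (f : ℝ → ℝ) (t : ℝ) : ℝ :=
  (1 - Real.exp (-κ))⁻¹ * ∫ r in (t - T)..t, f r

section prim

variable {T κ : ℝ} {f : ℝ → ℝ}

lemma one_sub_exp_pos (hκ : 0 < κ) : 0 < 1 - Real.exp (-κ) := by
  have : Real.exp (-κ) < 1 := by rw [Real.exp_lt_one_iff]; linarith
  linarith

lemma prim_sub (hκ : 0 < κ) (hf : ∀ a b, IntervalIntegrable f volume a b)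
    (hper : ∀ r, f (r + T) = Real.exp κ * f r) (l i : ℝ) :
    prim κ T f i - prim κ T f l = ∫ r in l..i, f r := by
  have h1 : ∫ r in (l - T)..(i - T), f r = Real.exp (-κ) * ∫ r in l..i, f r := by
    rw [← intervalIntegral.integral_comp_sub_right (fun r => f r) T,
      ← intervalIntegral.integral_const_mul]
    apply intervalIntegral.integral_congr
    intro r _
    have := hper (r - T)
    rw [sub_add_cancel] at this
    show f (r - T) = Real.exp (-κ) * f r
    rw [this, ← mul_assoc, ← Real.exp_add, neg_add_cancel, Real.exp_zero, one_mul]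
  have h2 : (∫ r in (i - T)..i, f r) - (∫ r in (l - T)..l, f r) =
      (∫ r in l..i, f r) - ∫ r in (l - T)..(i - T), f r := by
    have e1 := intervalIntegral.integral_add_adjacent_intervals (hf (l - T) (i - T)) (hf (i - T) i)
    have e2 := intervalIntegral.integral_add_adjacent_intervals (hf (l - T) l) (hf l i)
    linarith
  unfold prim
  rw [← mul_sub, h2, h1]
  have := (one_sub_exp_pos hκ).ne'
  field_simp

lemma prim_add_period (hper : ∀ r, f (r + T) = Real.exp κ * f r) (t : ℝ) :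
    prim κ T f (t + T) = Real.exp κ * prim κ T f t := by
  have h1 : ∫ r in (t + T - T)..(t + T), f r = Real.exp κ * ∫ r in (t - T)..t, f r := by
    have : ∫ r in (t - T)..t, f (r + T) = ∫ r in (t - T + T)..(t + T), f r :=
      intervalIntegral.integral_comp_add_right (fun r => f r) T
    rw [show t + T - T = t - T + T by ring, ← this, ← intervalIntegral.integral_const_mul]
    apply intervalIntegral.integral_congr
    intro r _
    exact hper r
  unfold prim
  rw [h1]
  ring

lemma continuous_prim (hκ : 0 < κ) (hf : ∀ a b, IntervalIntegrable f volume a b)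
    (hper : ∀ r, f (r + T) = Real.exp κ * f r) : Continuous (prim κ T f) := by
  have h1 : prim κ T f = fun t => prim κ T f 0 + ∫ r in (0 : ℝ)..t, f r := by
    ext t
    have := prim_sub hκ hf hper 0 t
    linarith
  rw [h1]
  exact continuous_const.add (intervalIntegral.continuous_primitive hf 0)

lemma prim_mono (hκ : 0 < κ) (hf : ∀ a b, IntervalIntegrable f volume a b)
    (hper : ∀ r, f (r + T) = Real.exp κ * f r) (h0 : ∀ r, 0 ≤ f r) : Monotone (prim κ T f) := by
  intro l i hli
  have h1 := prim_sub hκ hf hper l i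
  have h2 : 0 ≤ ∫ r in l..i, f r := intervalIntegral.integral_nonneg hli fun r _ => h0 r
  linarith

lemma prim_nonneg (hκ : 0 < κ) (hT : 0 < T) (h0 : ∀ r, 0 ≤ f r) (t : ℝ) : 0 ≤ prim κ T f t := by
  unfold prim
  apply mul_nonneg (inv_nonneg.mpr (one_sub_exp_pos hκ).le)
  exact intervalIntegral.integral_nonneg (by linarith) fun r _ => h0 r

end prim

/-- Admissible controls, without a convention for the value at the jumps. -/
structure Ctrl (T : ℝ) (α : ℝ → ℝ) : Prop where
  mono : Monotone α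
  zero : α 0 = 0
  per : ∀ t, α (t + T) = α t + α T

/-- Time reversal. -/
def rev (α : ℝ → ℝ) : ℝ → ℝ := fun r => -α (-r)

lemma rev_rev (α : ℝ → ℝ) : rev (rev α) = α := by
  ext r; simp [rev]

lemma Ctrl.neg_T {T : ℝ} {α : ℝ → ℝ} (h : Ctrl T α) : α (-T) = -α T := by
  have := h.per (-T)
  rw [neg_add_cancel, h.zero] at this
  linarith

lemma Ctrl.rev {T : ℝ} {α : ℝ → ℝ} (h : Ctrl T α) : Ctrl T (rev α) where
  mono := fun x y hxy => by
    have := h.mono (neg_le_neg hxy)
    simp only [Effort.rev]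
    linarith
  zero := by simp [Effort.rev, h.zero]
  per := fun t => by
    have h1 := h.per (-(t + T))
    rw [show -(t + T) + T = -t by ring] at h1
    have h2 := h.neg_T
    simp only [Effort.rev]
    rw [h2]
    linarith

lemma Ctrl.rev_T {T : ℝ} {α : ℝ → ℝ} (h : Ctrl T α) : Effort.rev α T = α T := by
  simp only [Effort.rev]
  rw [h.neg_T]
  ring

lemma Ctrl.T_nonneg {T : ℝ} {α : ℝ → ℝ} (h : Ctrl T α) (hT : 0 ≤ T) : 0 ≤ α T := by
  have := h.mono hT
  rwa [h.zero] at this

/-- A weight: nonnegative, periodic and integrable. -/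
structure Wt (T : ℝ) (c : ℝ → ℝ) : Prop where
  nonneg : ∀ t, 0 ≤ c t
  per : Periodic c T
  int : ∀ a b, IntervalIntegrable c volume a b
  pos : 0 < ∫ r in (0 : ℝ)..T, c r

lemma Wt.comp_neg {T : ℝ} {c : ℝ → ℝ} (h : Wt T c) : Wt T (fun r => c (-r)) where
  nonneg := fun t => h.nonneg _
  per := fun t => by
    show c (-(t + T)) = c (-t)
    have := h.per (-(t + T))
    rw [← this]
    congr 1
    ring
  int := fun a b => by
    have := (h.int (-a) (-b)).comp_sub_left 0
    simpa using this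
  pos := by
    rw [intervalIntegral.integral_comp_neg (fun r => c r), neg_zero]
    have := h.per.intervalIntegral_add_eq (-T) 0
    rw [neg_add_cancel, zero_add] at this
    rw [this]
    exact h.pos

/-- The growing integrand. -/
noncomputable def fC (δ : ℝ) (c α : ℝ → ℝ) (r : ℝ) : ℝ := c r * Real.exp (α r + δ * r)

section fC

variable {T δ : ℝ} {c α : ℝ → ℝ}

lemma fC_nonneg (hc : ∀ t, 0 ≤ c t) (r : ℝ) : 0 ≤ fC δ c α r :=
  mul_nonneg (hc r) (Real.exp_pos _).le

lemma mono_exp (hδ : 0 ≤ δ) (hα : Monotone α) : Monotone fun r => Real.exp (α r + δ * r) := by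
  intro x y hxy
  apply Real.exp_le_exp.mpr
  have h1 := hα hxy
  have h2 := mul_le_mul_of_nonneg_left hxy hδ
  linarith

lemma ii_fC (hδ : 0 ≤ δ) (hα : Monotone α) (hc : ∀ a b, IntervalIntegrable c volume a b)
    (a b : ℝ) : IntervalIntegrable (fC δ c α) volume a b := by
  have h := hc a b
  rw [intervalIntegrable_iff] at h ⊢
  refine h.mul_bdd (c := Real.exp (α (max a b) + δ * max a b))
    (mono_exp hδ hα).measurable.aestronglyMeasurable ?_
  rw [ae_restrict_iff' measurableSet_uIoc]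
  filter_upwards with r hr
  rw [Real.norm_eq_abs, abs_of_pos (Real.exp_pos _)]
  exact mono_exp hδ hα hr.2

lemma fC_period (hα : Ctrl T α) (hc : Periodic c T) (r : ℝ) :
    fC δ c α (r + T) = Real.exp (α T + δ * T) * fC δ c α r := by
  unfold fC
  rw [hc r, hα.per r, show α r + α T + δ * (r + T) = (α T + δ * T) + (α r + δ * r) by ring,
    Real.exp_add]
  ring

end fC

/-- The growing factor of the state: `S(t) = exp(-(α t + δ t)) C(t)`. -/
noncomputable def CC (T δ : ℝ) (c α : ℝ → ℝ) (t : ℝ) : ℝ :=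
  prim (α T + δ * T) T (fC δ c α) t

/-- The decreasing factor of the adjoint state. -/
noncomputable def WW (T δ : ℝ) (w α : ℝ → ℝ) (t : ℝ) : ℝ :=
  CC T δ (fun r => w (-r)) (rev α) (-t)

section CC

variable {T δ : ℝ} {c w α : ℝ → ℝ}

lemma kappa_pos (hT : 0 < T) (hδ : 0 < δ) (hα : Ctrl T α) : 0 < α T + δ * T := by
  have := hα.T_nonneg hT.le
  positivity

lemma CC_sub (hT : 0 < T) (hδ : 0 < δ) (hα : Ctrl T α) (hc : Wt T c) (l i : ℝ) :
    CC T δ c α i - CC T δ c α l = ∫ r in l..i, fC δ c α r :=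
  prim_sub (kappa_pos hT hδ hα) (ii_fC hδ.le hα.mono hc.int) (fC_period hα hc.per) l i

lemma CC_per (hα : Ctrl T α) (hc : Wt T c) (t : ℝ) :
    CC T δ c α (t + T) = Real.exp (α T + δ * T) * CC T δ c α t :=
  prim_add_period (fC_period hα hc.per) t

lemma continuous_CC (hT : 0 < T) (hδ : 0 < δ) (hα : Ctrl T α) (hc : Wt T c) :
    Continuous (CC T δ c α) :=
  continuous_prim (kappa_pos hT hδ hα) (ii_fC hδ.le hα.mono hc.int) (fC_period hα hc.per)

lemma CC_mono (hT : 0 < T) (hδ : 0 < δ) (hα : Ctrl T α) (hc : Wt T c) :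
    Monotone (CC T δ c α) :=
  prim_mono (kappa_pos hT hδ hα) (ii_fC hδ.le hα.mono hc.int) (fC_period hα hc.per)
    (fC_nonneg hc.nonneg)

lemma CC_pos (hT : 0 < T) (hδ : 0 < δ) (hα : Ctrl T α) (hc : Wt T c) (t : ℝ) :
    0 < CC T δ c α t := by
  unfold CC prim
  apply mul_pos (inv_pos.mpr (one_sub_exp_pos (kappa_pos hT hδ hα)))
  have h1 : ∫ r in (t - T)..t, c r = ∫ r in (0 : ℝ)..T, c r := by
    have := hc.per.intervalIntegral_add_eq (t - T) 0
    rwa [sub_add_cancel, zero_add] at this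
  have h2 : 0 < ∫ r in (t - T)..t, c r := by rw [h1]; exact hc.pos
  have h3 : Real.exp (α (t - T) + δ * (t - T)) * ∫ r in (t - T)..t, c r ≤
      ∫ r in (t - T)..t, fC δ c α r := by
    rw [← intervalIntegral.integral_const_mul]
    apply intervalIntegral.integral_mono_on (by linarith) ((hc.int _ _).const_mul _)
      (ii_fC hδ.le hα.mono hc.int _ _)
    intro r hr
    unfold fC
    rw [mul_comm (c r)]
    exact mul_le_mul_of_nonneg_right (mono_exp hδ.le hα.mono hr.1) (hc.nonneg r)
  have h4 := mul_pos (Real.exp_pos (α (t - T) + δ * (t - T))) h2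
  linarith

lemma WW_sub (hT : 0 < T) (hδ : 0 < δ) (hα : Ctrl T α) (hw : Wt T w) (l i : ℝ) :
    WW T δ w α l - WW T δ w α i = ∫ r in l..i, w r * Real.exp (-(α r + δ * r)) := by
  unfold WW
  rw [CC_sub hT hδ hα.rev hw.comp_neg]
  have := intervalIntegral.integral_comp_neg (a := -i) (b := -l)
    (fun r => w r * Real.exp (-(α r + δ * r)))
  rw [neg_neg, neg_neg] at this
  rw [← this]
  apply intervalIntegral.integral_congr
  intro r _
  simp only [fC, rev]
  congr 2
  ring

lemma WW_pos (hT : 0 < T) (hδ : 0 < δ) (hα : Ctrl T α) (hw : Wt T w) (t : ℝ) :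
    0 < WW T δ w α t := CC_pos hT hδ hα.rev hw.comp_neg _

lemma WW_anti (hT : 0 < T) (hδ : 0 < δ) (hα : Ctrl T α) (hw : Wt T w) :
    Antitone (WW T δ w α) := fun _ _ h =>
  CC_mono hT hδ hα.rev hw.comp_neg (neg_le_neg h)

lemma continuous_WW (hT : 0 < T) (hδ : 0 < δ) (hα : Ctrl T α) (hw : Wt T w) :
    Continuous (WW T δ w α) := (continuous_CC hT hδ hα.rev hw.comp_neg).comp continuous_neg

lemma WW_per (hα : Ctrl T α) (hw : Wt T w) (t : ℝ) :
    WW T δ w α (t + T) = Real.exp (-(α T + δ * T)) * WW T δ w α t := by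
  have h1 := CC_per (δ := δ) hα.rev hw.comp_neg (-(t + T))
  rw [show -(t + T) + T = -t by ring, hα.rev_T] at h1
  unfold WW
  rw [h1, ← mul_assoc, ← Real.exp_add, neg_add_cancel, Real.exp_zero, one_mul]

lemma WW_rev (t : ℝ) : WW T δ (fun r => c (-r)) (rev α) (-t) = CC T δ c α t := by
  simp only [WW, rev_rev, neg_neg]

lemma CC_rev (t : ℝ) : CC T δ (fun r => w (-r)) (rev α) (-t) = WW T δ w α t := rfl

/-- The product `S P`. -/
noncomputable def GG (T δ : ℝ) (c w α : ℝ → ℝ) (t : ℝ) : ℝ := CC T δ c α t * WW T δ w α t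

lemma continuous_GG (hT : 0 < T) (hδ : 0 < δ) (hα : Ctrl T α) (hc : Wt T c) (hw : Wt T w) :
    Continuous (GG T δ c w α) := (continuous_CC hT hδ hα hc).mul (continuous_WW hT hδ hα hw)

lemma GG_pos (hT : 0 < T) (hδ : 0 < δ) (hα : Ctrl T α) (hc : Wt T c) (hw : Wt T w) (t : ℝ) :
    0 < GG T δ c w α t := mul_pos (CC_pos hT hδ hα hc t) (WW_pos hT hδ hα hw t)

lemma GG_per (hα : Ctrl T α) (hc : Wt T c) (hw : Wt T w) : Periodic (GG T δ c w α) T := by
  intro t
  unfold GG
  rw [CC_per hα hc, WW_per hα hw]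
  have : Real.exp (α T + δ * T) * Real.exp (-(α T + δ * T)) = 1 := by
    rw [← Real.exp_add, add_neg_cancel, Real.exp_zero]
  linear_combination (CC T δ c α t * WW T δ w α t) * this

lemma GG_rev (t : ℝ) :
    GG T δ (fun r => w (-r)) (fun r => c (-r)) (rev α) (-t) = GG T δ c w α t := by
  unfold GG
  rw [WW_rev, CC_rev, mul_comm]

end CC

end Q76.Effort
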