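import Mathlib
import Pool.Agent.Q76.EffortBasic

/-!
# The comparison inequality at the points of the support
-/

namespace Q76.Effort

open MeasureTheory Set Filter Topology Function

variable {T δ : ℝ} {c w : ℝ → ℝ}

/-- The free integral of the input. -/
noncomputable def Kc (δ : ℝ) (c : ℝ → ℝ) (l i : ℝ) : ℝ := ∫ r in l..i, c r * Real.exp (δ * r)

/-- The free integral of the weight. -/
noncomputable def Kw (δ : ℝ) (w : ℝ → ℝ) (l i : ℝ) : ℝ := ∫ r in l..i, w r * Real.exp (-(δ * r))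

lemma ii_cexp (hc : ∀ a b, IntervalIntegrable c volume a b) (δ a b : ℝ) :
    IntervalIntegrable (fun r => c r * Real.exp (δ * r)) volume a b :=
  (hc a b).mul_continuousOn (by fun_prop)

lemma Kc_nonneg (hc : ∀ t, 0 ≤ c t) {l i : ℝ} (h : l ≤ i) : 0 ≤ Kc δ c l i :=
  intervalIntegral.integral_nonneg h fun r _ => mul_nonneg (hc r) (Real.exp_pos _).le

lemma Kw_nonneg (hc : ∀ t, 0 ≤ w t) {l i : ℝ} (h : l ≤ i) : 0 ≤ Kw δ w l i :=
  intervalIntegral.integral_nonneg h fun r _ => mul_nonneg (hc r) (Real.exp_pos _).le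

section bounds

variable {α : ℝ → ℝ}

lemma ii_fW (hδ : 0 ≤ δ) (hα : Monotone α) (hw : ∀ a b, IntervalIntegrable w volume a b)
    (a b : ℝ) : IntervalIntegrable (fun r => w r * Real.exp (-(α r + δ * r))) volume a b := by
  have h := hw a b
  rw [intervalIntegrable_iff] at h ⊢
  refine h.mul_bdd (c := Real.exp (-(α (min a b) + δ * min a b))) ?_ ?_
  · apply Measurable.aestronglyMeasurable
    apply Real.measurable_exp.comp
    exact (hα.measurable.add (measurable_const.mul measurable_id)).neg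
  · rw [ae_restrict_iff' measurableSet_uIoc]
    filter_upwards with r hr
    rw [Real.norm_eq_abs, abs_of_pos (Real.exp_pos _)]
    apply Real.exp_le_exp.mpr
    have h1 := hα hr.1.le
    have h2 := mul_le_mul_of_nonneg_left hr.1.le hδ
    linarith

lemma dC_le (hδ : 0 ≤ δ) (hα : Monotone α) (hc : ∀ a b, IntervalIntegrable c volume a b)
    (hc0 : ∀ t, 0 ≤ c t) {l i : ℝ} (h : l ≤ i) :
    ∫ r in l..i, fC δ c α r ≤ Real.exp (leftLim α i) * Kc δ c l i := by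
  unfold Kc
  rw [← intervalIntegral.integral_const_mul]
  apply intervalIntegral.integral_mono_on_of_le_Ioo h (ii_fC hδ hα hc _ _)
    ((ii_cexp hc _ _ _).const_mul _)
  intro r hr
  unfold fC
  rw [Real.exp_add]
  have h1 : Real.exp (α r) ≤ Real.exp (leftLim α i) := Real.exp_le_exp.mpr (hα.le_leftLim hr.2)
  have h2 := mul_le_mul_of_nonneg_right h1 (mul_nonneg (hc0 r) (Real.exp_pos (δ * r)).le)
  linarith

lemma le_dC (hδ : 0 ≤ δ) (hα : Monotone α) (hc : ∀ a b, IntervalIntegrable c volume a b)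
    (hc0 : ∀ t, 0 ≤ c t) {l i : ℝ} (h : l ≤ i) :
    Real.exp (rightLim α l) * Kc δ c l i ≤ ∫ r in l..i, fC δ c α r := by
  unfold Kc
  rw [← intervalIntegral.integral_const_mul]
  apply intervalIntegral.integral_mono_on_of_le_Ioo h ((ii_cexp hc _ _ _).const_mul _)
    (ii_fC hδ hα hc _ _)
  intro r hr
  unfold fC
  rw [Real.exp_add]
  have h1 : Real.exp (rightLim α l) ≤ Real.exp (α r) := Real.exp_le_exp.mpr (hα.rightLim_le hr.1)
  have h2 := mul_le_mul_of_nonneg_right h1 (mul_nonneg (hc0 r) (Real.exp_pos (δ * r)).le)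
  linarith

lemma ii_wexp (hw : ∀ a b, IntervalIntegrable w volume a b) (δ a b : ℝ) :
    IntervalIntegrable (fun r => w r * Real.exp (-(δ * r))) volume a b :=
  (hw a b).mul_continuousOn (by fun_prop)

lemma dW_le (hδ : 0 ≤ δ) (hα : Monotone α) (hw : ∀ a b, IntervalIntegrable w volume a b)
    (hw0 : ∀ t, 0 ≤ w t) {l i : ℝ} (h : l ≤ i) :
    ∫ r in l..i, w r * Real.exp (-(α r + δ * r)) ≤ Real.exp (-rightLim α l) * Kw δ w l i := by
  unfold Kw
  rw [← intervalIntegral.integral_const_mul]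
  apply intervalIntegral.integral_mono_on_of_le_Ioo h (ii_fW hδ hα hw _ _)
    ((ii_wexp hw _ _ _).const_mul _)
  intro r hr
  rw [neg_add, Real.exp_add]
  have h1 : Real.exp (-α r) ≤ Real.exp (-rightLim α l) :=
    Real.exp_le_exp.mpr (neg_le_neg (hα.rightLim_le hr.1))
  have h2 := mul_le_mul_of_nonneg_right h1 (mul_nonneg (hw0 r) (Real.exp_pos (-(δ * r))).le)
  linarith

lemma le_dW (hδ : 0 ≤ δ) (hα : Monotone α) (hw : ∀ a b, IntervalIntegrable w volume a b)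
    (hw0 : ∀ t, 0 ≤ w t) {l i : ℝ} (h : l ≤ i) :
    Real.exp (-leftLim α i) * Kw δ w l i ≤ ∫ r in l..i, w r * Real.exp (-(α r + δ * r)) := by
  unfold Kw
  rw [← intervalIntegral.integral_const_mul]
  apply intervalIntegral.integral_mono_on_of_le_Ioo h ((ii_wexp hw _ _ _).const_mul _)
    (ii_fW hδ hα hw _ _)
  intro r hr
  rw [neg_add, Real.exp_add]
  have h1 : Real.exp (-leftLim α i) ≤ Real.exp (-α r) :=
    Real.exp_le_exp.mpr (neg_le_neg (hα.le_leftLim hr.2))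
  have h2 := mul_le_mul_of_nonneg_right h1 (mul_nonneg (hw0 r) (Real.exp_pos (-(δ * r))).le)
  linarith

end bounds

/-- The normalised state before the time `i`. -/
noncomputable def ZZ (T δ : ℝ) (c α : ℝ → ℝ) (i : ℝ) : ℝ := Real.exp (-leftLim α i) * CC T δ c α i

lemma ZZ_pos {α : ℝ → ℝ} (hT : 0 < T) (hδ : 0 < δ) (hα : Ctrl T α) (hc : Wt T c) (i : ℝ) :
    0 < ZZ T δ c α i := mul_pos (Real.exp_pos _) (CC_pos hT hδ hα hc i)

/-- First inequality. -/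
lemma ineq_one {α : ℝ → ℝ} (hT : 0 < T) (hδ : 0 < δ) (hα : Ctrl T α) (hc : Wt T c) (hw : Wt T w)
    {lam l i : ℝ} (hli : l < i) (hl : GG T δ c w α l ≤ lam) (hi : GG T δ c w α i = lam) :
    Kw δ w l i * (ZZ T δ c α i * (ZZ T δ c α i - Kc δ c l i)) ≤ lam * Kc δ c l i := by
  have hC := CC_sub hT hδ hα hc l i
  have hW := WW_sub hT hδ hα hw l i
  have b1 := dC_le hδ.le hα.mono hc.int hc.nonneg hli.le
  have b2 := le_dW hδ.le hα.mono hw.int hw.nonneg hli.le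
  have p1 := CC_pos hT hδ hα hc i
  have p2 := WW_pos hT hδ hα hw i
  have p3 := CC_pos hT hδ hα hc l
  have k2 : 0 ≤ Kw δ w l i := Kw_nonneg hw.nonneg hli.le
  unfold GG at hl hi
  set a := leftLim α i with ha
  set Ci := CC T δ c α i
  set Cl := CC T δ c α l
  set Wi := WW T δ w α i
  set Wl := WW T δ w α l
  set dC := ∫ r in l..i, fC δ c α r
  set dW := ∫ r in l..i, w r * Real.exp (-(α r + δ * r))
  set kc := Kc δ c l i
  set kw := Kw δ w l i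
  have hZ : ZZ T δ c α i = Real.exp (-a) * Ci := rfl
  set Z := ZZ T δ c α i
  have hCi : Ci = Real.exp a * Z := by
    rw [hZ, ← mul_assoc, ← Real.exp_add, add_neg_cancel, Real.exp_zero, one_mul]
  have hea : Real.exp a * Real.exp (-a) = 1 := by
    rw [← Real.exp_add, add_neg_cancel, Real.exp_zero]
  have e1 := Real.exp_pos a
  have e2 := Real.exp_pos (-a)
  -- `Cl dW ≤ dC Wi`
  have h1 : Cl * dW ≤ dC * Wi := by nlinarith
  have h2 : (Ci - Real.exp a * kc) * (Real.exp (-a) * kw) ≤ Cl * dW := by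
    calc (Ci - Real.exp a * kc) * (Real.exp (-a) * kw) ≤ Cl * (Real.exp (-a) * kw) := by
          apply mul_le_mul_of_nonneg_right _ (by positivity)
          linarith
      _ ≤ Cl * dW := mul_le_mul_of_nonneg_left b2 p3.le
  have h3 : dC * Wi ≤ Real.exp a * kc * Wi := mul_le_mul_of_nonneg_right b1 p2.le
  have h4 : (Ci - Real.exp a * kc) * (Real.exp (-a) * kw) ≤ Real.exp a * kc * Wi :=
    h2.trans (h1.trans h3)
  have h5 : (Ci - Real.exp a * kc) * (Real.exp (-a) * kw) = (Z - kc) * kw := by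
    rw [hCi]
    linear_combination ((Z - kc) * kw) * hea
  rw [h5] at h4
  have hZpos : 0 < Z := by rw [hZ]; positivity
  have h6 := mul_le_mul_of_nonneg_right h4 hZpos.le
  have h7 : Real.exp a * kc * Wi * Z = lam * kc := by
    rw [← hi, hCi]
    ring
  rw [h7] at h6
  linarith

/-- Second inequality. -/
lemma ineq_two {α : ℝ → ℝ} (hT : 0 < T) (hδ : 0 < δ) (hα : Ctrl T α) (hc : Wt T c) (hw : Wt T w)
    {lam l i E : ℝ} (hli : l < i) (hl : GG T δ c w α l = lam) (hi : GG T δ c w α i ≤ lam)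
    (hE : E = Real.exp (rightLim α l - leftLim α i)) :
    lam * (E ^ 2 * Kc δ c l i) ≤
      Kw δ w l i * (ZZ T δ c α i * (ZZ T δ c α i - E * Kc δ c l i)) ∧
      E * Kc δ c l i ≤ ZZ T δ c α i := by
  have hC := CC_sub hT hδ hα hc l i
  have hW := WW_sub hT hδ hα hw l i
  have b1 := le_dC hδ.le hα.mono hc.int hc.nonneg hli.le
  have b2 := dW_le hδ.le hα.mono hw.int hw.nonneg hli.le
  have p1 := CC_pos hT hδ hα hc i
  have p2 := WW_pos hT hδ hα hw i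
  have p3 := CC_pos hT hδ hα hc l
  have p4 := WW_pos hT hδ hα hw l
  have k2 : 0 ≤ Kw δ w l i := Kw_nonneg hw.nonneg hli.le
  have k1 : 0 ≤ Kc δ c l i := Kc_nonneg hc.nonneg hli.le
  unfold GG at hl hi
  set a := leftLim α i with ha
  set b := rightLim α l with hb
  set Ci := CC T δ c α i
  set Cl := CC T δ c α l
  set Wi := WW T δ w α i
  set Wl := WW T δ w α l
  set dC := ∫ r in l..i, fC δ c α r
  set dW := ∫ r in l..i, w r * Real.exp (-(α r + δ * r))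
  set kc := Kc δ c l i
  set kw := Kw δ w l i
  have hZ : ZZ T δ c α i = Real.exp (-a) * Ci := rfl
  set Z := ZZ T δ c α i
  have hEa : E = Real.exp b * Real.exp (-a) := by rw [hE, ← Real.exp_add]; congr 1
  have e1 := Real.exp_pos a
  have e2 := Real.exp_pos (-a)
  have e3 := Real.exp_pos b
  have e4 := Real.exp_pos (-b)
  have hbb : Real.exp b * Real.exp (-b) = 1 := by
    rw [← Real.exp_add, add_neg_cancel, Real.exp_zero]
  -- `dC lam ≤ Cl Ci dW`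
  have h0 : dC * Wl ≤ Ci * dW := by nlinarith
  have h1 : dC * lam ≤ Cl * Ci * dW := by
    rw [← hl]
    have := mul_le_mul_of_nonneg_left h0 p3.le
    linarith
  have hlam : 0 < lam := by rw [← hl]; positivity
  have h2 : Real.exp b * kc * lam ≤ dC * lam := mul_le_mul_of_nonneg_right b1 hlam.le
  have h3 : Cl * Ci * dW ≤ (Ci - Real.exp b * kc) * Ci * (Real.exp (-b) * kw) := by
    calc Cl * Ci * dW ≤ Cl * Ci * (Real.exp (-b) * kw) :=
          mul_le_mul_of_nonneg_left b2 (by positivity)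
      _ ≤ (Ci - Real.exp b * kc) * Ci * (Real.exp (-b) * kw) := by
          apply mul_le_mul_of_nonneg_right _ (by positivity)
          apply mul_le_mul_of_nonneg_right _ p1.le
          linarith
  have h4 := h2.trans (h1.trans h3)
  constructor
  · have h5 := mul_le_mul_of_nonneg_left h4 (show 0 ≤ Real.exp b * Real.exp (-a) ^ 2 by positivity)
    have h6 : Real.exp b * Real.exp (-a) ^ 2 *
        ((Ci - Real.exp b * kc) * Ci * (Real.exp (-b) * kw)) =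
        kw * (Z * (Z - E * kc)) := by
      rw [hZ, hEa]
      linear_combination (Real.exp (-a) ^ 2 * (Ci - Real.exp b * kc) * Ci * kw) * hbb
    have h7 : Real.exp b * Real.exp (-a) ^ 2 * (Real.exp b * kc * lam) = lam * (E ^ 2 * kc) := by
      rw [hEa]
      ring
    rw [h6, h7] at h5
    exact h5
  · rw [hEa, hZ]
    have h8 : Real.exp b * kc ≤ Ci := by linarith
    have := mul_le_mul_of_nonneg_left h8 e2.le
    linarith

/-- The algebra of the comparison. -/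
lemma compare_alg {Z₁ Z₂ l₁ l₂ kc kw E : ℝ} (hZ₁ : 0 < Z₁) (hZ₂ : 0 < Z₂) (hl₂ : 0 < l₂)
    (hl : l₂ ≤ l₁) (hkc : 0 ≤ kc) (hkw : 0 < kw) (hE : 0 < E)
    (h1 : kw * (Z₁ * (Z₁ - kc)) ≤ l₁ * kc)
    (h2 : l₂ * (E ^ 2 * kc) ≤ kw * (Z₂ * (Z₂ - E * kc))) :
    l₂ * E ^ 2 * (Z₁ * (Z₁ - kc)) ≤ l₁ * (Z₂ * (Z₂ - E * kc)) := by
  have hl₁ : 0 < l₁ := hl₂.trans_le hl
  have a1 := mul_le_mul_of_nonneg_left h1 (show 0 ≤ l₂ * E ^ 2 by positivity)
  have a2 := mul_le_mul_of_nonneg_left h2 hl₁.le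
  have a3 : kw * (l₂ * E ^ 2 * (Z₁ * (Z₁ - kc))) ≤ kw * (l₁ * (Z₂ * (Z₂ - E * kc))) := by
    nlinarith
  exact le_of_mul_le_mul_left a3 hkw

lemma compare_one {Z₁ Z₂ l₁ l₂ kc : ℝ} (hZ₁ : 0 < Z₁) (hZ₂ : 0 < Z₂) (hl₂ : 0 < l₂)
    (hl : l₂ ≤ l₁) (hkc : 0 ≤ kc) (hkz : kc ≤ Z₂)
    (h : l₂ * (Z₁ * (Z₁ - kc)) ≤ l₁ * (Z₂ * (Z₂ - kc))) :
    l₂ * Z₁ ^ 2 ≤ l₁ * Z₂ ^ 2 := by
  by_contra hcon
  push Not at hcon
  -- `l₂ Z₁² - l₁ Z₂² ≤ kc (l₂ Z₁ - l₁ Z₂)`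
  have h1 : l₂ * Z₁ ^ 2 - l₁ * Z₂ ^ 2 ≤ kc * (l₂ * Z₁ - l₁ * Z₂) := by nlinarith
  have h2 : 0 < l₂ * Z₁ - l₁ * Z₂ := by
    by_contra h3
    push Not at h3
    have := mul_nonpos_of_nonneg_of_nonpos hkc h3
    linarith
  -- `Z₁ > Z₂`
  have hZ : Z₂ < Z₁ := by
    by_contra h3
    push Not at h3
    have := mul_le_mul hl h3 hZ₁.le (hl₂.le.trans hl)
    linarith
  have h4 : kc * (l₂ * Z₁ - l₁ * Z₂) ≤ Z₂ * (l₂ * Z₁ - l₁ * Z₂) :=
    mul_le_mul_of_nonneg_right hkz h2.le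
  have h5 : l₂ * Z₁ ^ 2 ≤ Z₂ * (l₂ * Z₁) := by nlinarith
  have h6 : Z₂ * (l₂ * Z₁) < Z₁ * (l₂ * Z₁) := mul_lt_mul_of_pos_right hZ (by positivity)
  nlinarith

/-- Passing to the limit. -/
lemma compare_lim {Z₁ Z₂ l₁ l₂ : ℝ} (hZ₁ : 0 < Z₁) (hZ₂ : 0 < Z₂) (hl₂ : 0 < l₂)
    (hl : l₂ ≤ l₁)
    (h : ∀ ε > 0, ∃ kc kw E : ℝ, 0 ≤ kc ∧ 0 < kw ∧ 0 < E ∧ E ≤ 1 ∧ 1 - ε ≤ E ∧
      E * kc ≤ Z₂ ∧ (E = 1 ∨ kc ≤ ε) ∧ kw * (Z₁ * (Z₁ - kc)) ≤ l₁ * kc ∧
      l₂ * (E ^ 2 * kc) ≤ kw * (Z₂ * (Z₂ - E * kc))) :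
    l₂ * Z₁ ^ 2 ≤ l₁ * Z₂ ^ 2 := by
  have hl₁ : 0 < l₁ := hl₂.trans_le hl
  by_cases hone : ∃ ε > 0, ∀ kc kw E : ℝ, 0 ≤ kc → 0 < kw → 0 < E → E ≤ 1 → 1 - ε ≤ E →
      E * kc ≤ Z₂ → (E = 1 ∨ kc ≤ ε) → kw * (Z₁ * (Z₁ - kc)) ≤ l₁ * kc →
      l₂ * (E ^ 2 * kc) ≤ kw * (Z₂ * (Z₂ - E * kc)) → l₂ * Z₁ ^ 2 ≤ l₁ * Z₂ ^ 2
  · obtain ⟨ε, hε, hone⟩ := hone
    obtain ⟨kc, kw, E, a1, a2, a3, a4, a5, a6, a7, a8, a9⟩ := h ε hε
    exact hone kc kw E a1 a2 a3 a4 a5 a6 a7 a8 a9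
  · -- otherwise `kc ≤ ε` always
    push Not at hone
    have hall : ∀ ε : ℝ, 0 < ε → ε < 1 → (1 - ε) ^ 2 * (l₂ * Z₁ ^ 2) ≤ l₁ * Z₂ ^ 2 + l₂ * Z₁ * ε := by
      intro ε hε hε1
      obtain ⟨kc, kw, E, a1, a2, a3, a4, a5, a6, a7, a8, a9, a10⟩ := hone ε hε
      have key := compare_alg hZ₁ hZ₂ hl₂ hl a1 a2 a3 a8 a9
      rcases a7 with h1 | h1
      · -- `E = 1` gives the conclusion
        exfalso
        rw [h1] at key a6
        have := compare_one hZ₁ hZ₂ hl₂ hl a1 (by linarith) (by linarith)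
        linarith
      · have b1 : (1 - ε) ^ 2 ≤ E ^ 2 := pow_le_pow_left₀ (by linarith) a5 2
        have b2 : E ^ 2 ≤ 1 := pow_le_one₀ a3.le a4
        have b3 : (1 - ε) ^ 2 * (l₂ * Z₁ ^ 2) ≤ E ^ 2 * (l₂ * Z₁ ^ 2) :=
          mul_le_mul_of_nonneg_right b1 (by positivity)
        have b4 : E ^ 2 * (l₂ * Z₁ * kc) ≤ l₂ * Z₁ * ε := by
          calc E ^ 2 * (l₂ * Z₁ * kc) ≤ 1 * (l₂ * Z₁ * kc) :=
                mul_le_mul_of_nonneg_right b2 (by positivity)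
            _ ≤ l₂ * Z₁ * ε := by rw [one_mul]; gcongr
        have b5 : 0 ≤ l₁ * Z₂ * (E * kc) := by positivity
        nlinarith
    have hlim1 : Tendsto (fun ε : ℝ => (1 - ε) ^ 2 * (l₂ * Z₁ ^ 2)) (𝓝[>] 0)
        (𝓝 ((1 - 0) ^ 2 * (l₂ * Z₁ ^ 2))) := by
      apply Tendsto.mono_left _ nhdsWithin_le_nhds
      exact (Continuous.tendsto (by fun_prop) 0)
    have hlim2 : Tendsto (fun ε : ℝ => l₁ * Z₂ ^ 2 + l₂ * Z₁ * ε) (𝓝[>] 0)
        (𝓝 (l₁ * Z₂ ^ 2 + l₂ * Z₁ * 0)) := by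
      apply Tendsto.mono_left _ nhdsWithin_le_nhds
      exact (Continuous.tendsto (by fun_prop) 0)
    have := le_of_tendsto_of_tendsto hlim1 hlim2 (by
      filter_upwards [Ioo_mem_nhdsGT (show (0 : ℝ) < 1 by norm_num)] with ε hε
      exact hall ε hε.1 hε.2)
    simpa using this

end Q76.Effort
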