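import Mathlib
import Pool.Agent.Q76.EffortIneq

/-!
# The support of a control and the comparison at its points
-/

namespace Q76.Effort

open MeasureTheory Set Filter Topology Function

/-- The support of the measure of a nondecreasing function. -/
def Supp (α : ℝ → ℝ) : Set ℝ := {t | ∀ ε > 0, α (t - ε) < α (t + ε)}

section supp

variable {α : ℝ → ℝ}

lemma not_mem_Supp {t : ℝ} (h : t ∉ Supp α) : ∃ ε > 0, α (t + ε) ≤ α (t - ε) := by
  unfold Supp at h
  simp only [Set.mem_ofPred_eq] at h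
  push Not at h
  exact h

/-- Constant on intervals that do not meet the support. -/
lemma const_of_free (hα : Monotone α) {x y : ℝ} (h : ∀ t ∈ Ioo x y, t ∉ Supp α) {s t : ℝ}
    (hs : s ∈ Ioo x y) (ht : t ∈ Ioo x y) : α s = α t := by
  have key : ∀ t ∈ Ioo x y, α =ᶠ[𝓝 t] fun _ => α t := by
    intro t ht
    obtain ⟨ε, hε, h1⟩ := not_mem_Supp (h t ht)
    filter_upwards [Ioo_mem_nhds (show t - ε < t by linarith) (show t < t + ε by linarith)]
      with r hr
    have a1 := hα hr.1.le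
    have a2 := hα hr.2.le
    have a3 := hα (show t - ε ≤ t by linarith)
    have a4 := hα (show t ≤ t + ε by linarith)
    show α r = α t
    linarith
  apply isOpen_Ioo.is_const_of_deriv_eq_zero isPreconnected_Ioo _ _ hs ht
  · intro r hr
    exact ((differentiableAt_const (α r)).congr_of_eventuallyEq (key r hr)).differentiableWithinAt
  · intro r hr
    rw [(key r hr).deriv_eq]
    simp

lemma free_rightLim (hα : Monotone α) {x y t : ℝ} (h : ∀ t ∈ Ioo x y, t ∉ Supp α)
    (ht : t ∈ Ioo x y) : rightLim α x = α t := by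
  apply rightLim_eq_of_tendsto
  apply Tendsto.congr' _ tendsto_const_nhds
  filter_upwards [Ioo_mem_nhdsGT (ht.1.trans ht.2)] with r hr
  exact const_of_free hα h ht hr

lemma free_leftLim (hα : Monotone α) {x y t : ℝ} (h : ∀ t ∈ Ioo x y, t ∉ Supp α)
    (ht : t ∈ Ioo x y) : leftLim α y = α t := by
  apply leftLim_eq_of_tendsto
  apply Tendsto.congr' _ tendsto_const_nhds
  filter_upwards [Ioo_mem_nhdsLT (ht.1.trans ht.2)] with r hr
  exact const_of_free hα h ht hr

lemma free_lims (hα : Monotone α) {x y : ℝ} (hxy : x < y) (h : ∀ t ∈ Ioo x y, t ∉ Supp α) :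
    rightLim α x = leftLim α y := by
  have hm : (x + y) / 2 ∈ Ioo x y := ⟨by linarith, by linarith⟩
  rw [free_rightLim hα h hm, free_leftLim hα h hm]

lemma isClosed_Supp (hα : Monotone α) : IsClosed (Supp α) := by
  rw [← isOpen_compl_iff, Metric.isOpen_iff]
  intro t ht
  obtain ⟨ε, hε, h1⟩ := not_mem_Supp ht
  refine ⟨ε / 2, by positivity, ?_⟩
  intro s hs hsS
  rw [Metric.mem_ball, Real.dist_eq, abs_lt] at hs
  have h2 := hsS (ε / 2) (by positivity)
  have a1 := hα (show t - ε ≤ s - ε / 2 by linarith [hs.1])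
  have a2 := hα (show s + ε / 2 ≤ t + ε by linarith [hs.2])
  linarith

lemma supp_nonempty_left {T : ℝ} (hT : 0 < T) (hα : Ctrl T α) (hpos : 0 < α T) (i : ℝ) :
    ∃ l ∈ Supp α, l < i ∧ i - (2 * T + 1) < l := by
  by_contra hcon
  push Not at hcon
  have hfree : ∀ t ∈ Ioo (i - (2 * T + 1)) i, t ∉ Supp α := by
    intro t ht htS
    have := hcon t htS ht.2
    linarith [ht.1]
  have h1 := const_of_free hα.mono hfree (s := i - T / 2) (t := i - T / 2 - T)
    ⟨by linarith, by linarith⟩ ⟨by linarith, by linarith⟩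
  have h2 := hα.per (i - T / 2 - T)
  rw [sub_add_cancel] at h2
  linarith

lemma supp_nonempty_right {T : ℝ} (hT : 0 < T) (hα : Ctrl T α) (hpos : 0 < α T) (i : ℝ) :
    ∃ l ∈ Supp α, i < l := by
  obtain ⟨l, h1, -, h3⟩ := supp_nonempty_left hT hα hpos (i + (2 * T + 1))
  exact ⟨l, h1, by linarith⟩

/-- No jump and no growth on the right of a point of the support: accumulation from the left. -/
lemma acc_left (hα : Monotone α) {m ε₀ : ℝ} (hm : m ∈ Supp α) (hε₀ : 0 < ε₀)
    (h : α (m + ε₀) ≤ leftLim α m) {ε : ℝ} (hε : 0 < ε) : ∃ l ∈ Supp α, m - ε < l ∧ l < m := by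
  by_contra hcon
  push Not at hcon
  have hfree : ∀ t ∈ Ioo (m - ε) m, t ∉ Supp α := by
    intro t ht htS
    have := hcon t htS ht.1
    linarith [ht.2]
  have h1 := free_leftLim hα hfree (t := m - ε / 2) ⟨by linarith, by linarith⟩
  have h2 := hm (min (ε / 2) ε₀) (by positivity)
  have a1 := hα (show m - ε / 2 ≤ m - min (ε / 2) ε₀ by linarith [min_le_left (ε / 2) ε₀])
  have a2 := hα (show m + min (ε / 2) ε₀ ≤ m + ε₀ by linarith [min_le_right (ε / 2) ε₀])
  linarith

lemma leftLim_rev (hα : Monotone α) (t : ℝ) : leftLim (rev α) (-t) = -rightLim α t := by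
  apply leftLim_eq_of_tendsto
  have h1 : Tendsto (fun r : ℝ => -r) (𝓝[<] (-t)) (𝓝[>] t) := by
    have := tendsto_neg_nhdsLT (a := -t)
    rwa [neg_neg] at this
  exact ((hα.tendsto_rightLim t).comp h1).neg

lemma rightLim_rev (hα : Monotone α) (t : ℝ) : rightLim (rev α) (-t) = -leftLim α t := by
  apply rightLim_eq_of_tendsto
  have h1 : Tendsto (fun r : ℝ => -r) (𝓝[>] (-t)) (𝓝[<] t) := by
    have := tendsto_neg_nhdsGT (a := -t)
    rwa [neg_neg] at this
  exact ((hα.tendsto_leftLim t).comp h1).neg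

lemma Supp_rev {t : ℝ} : t ∈ Supp (rev α) ↔ -t ∈ Supp α := by
  unfold Supp rev
  simp only [Set.mem_ofPred_eq]
  constructor
  · intro h ε hε
    have := h ε hε
    rw [show -(t - ε) = -t + ε by ring, show -(t + ε) = -t - ε by ring] at this
    linarith
  · intro h ε hε
    have := h ε hε
    rw [show -(t - ε) = -t + ε by ring, show -(t + ε) = -t - ε by ring]
    linarith

end supp

/-- No effort on intervals on which both data vanish. -/
def ND (c w α : ℝ → ℝ) : Prop :=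
  ∀ a b, a < b → (∀ᵐ r, r ∈ Ioo a b → c r = 0 ∧ w r = 0) → leftLim α a = rightLim α b

lemma ND.rev {c w α : ℝ → ℝ} (hα : Monotone α) (h : ND c w α) :
    ND (fun r => w (-r)) (fun r => c (-r)) (rev α) := by
  intro a b hab hae
  have h1 : ∀ᵐ r, r ∈ Ioo (-b) (-a) → c r = 0 ∧ w r = 0 := by
    have h2 := (Measure.measurePreserving_neg (volume : Measure ℝ)).quasiMeasurePreserving.ae hae
    filter_upwards [h2] with r hr hr2
    have := hr ⟨by linarith [hr2.2], by linarith [hr2.1]⟩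
    rw [neg_neg] at this
    exact ⟨this.2, this.1⟩
  have h3 := h (-b) (-a) (by linarith) h1
  have h4 := leftLim_rev hα (-a)
  have h5 := rightLim_rev hα (-b)
  rw [neg_neg] at h4 h5
  rw [h4, h5, h3]

section compare

variable {T δ : ℝ} {c w : ℝ → ℝ}

lemma ae_zero_of_K (hc : Wt T c) (hw : Wt T w) {l i : ℝ} (hli : l < i) (h1 : Kc δ c l i = 0)
    (h2 : Kw δ w l i = 0) : ∀ᵐ r, r ∈ Ioo l i → c r = 0 ∧ w r = 0 := by
  unfold Kc at h1
  unfold Kw at h2
  rw [intervalIntegral.integral_eq_zero_iff_of_le_of_nonneg_ae hli.le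
    (Eventually.of_forall fun r => mul_nonneg (hc.nonneg r) (Real.exp_pos _).le)
    (ii_cexp hc.int _ _ _)] at h1
  rw [intervalIntegral.integral_eq_zero_iff_of_le_of_nonneg_ae hli.le
    (Eventually.of_forall fun r => mul_nonneg (hw.nonneg r) (Real.exp_pos _).le)
    (ii_wexp hw.int _ _ _)] at h2
  have h3 := (ae_restrict_iff' measurableSet_Ioc).mp h1
  have h4 := (ae_restrict_iff' measurableSet_Ioc).mp h2
  filter_upwards [h3, h4] with r hr1 hr2 hr
  have hr' : r ∈ Ioc l i := ⟨hr.1, hr.2.le⟩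
  have a1 := hr1 hr'
  have a2 := hr2 hr'
  simp only [Pi.zero_apply, mul_eq_zero, (Real.exp_pos _).ne', or_false] at a1 a2
  exact ⟨a1, a2⟩

/-- The comparison at a point where the first product is maximal. -/
lemma left_lemma {α₁ α₂ : ℝ → ℝ} {l₁ l₂ : ℝ} (hT : 0 < T) (hδ : 0 < δ) (hα₁ : Ctrl T α₁)
    (hα₂ : Ctrl T α₂) (hc : Wt T c) (hw : Wt T w) (hpos : 0 < α₂ T)
    (hG1 : ∀ t, GG T δ c w α₁ t ≤ l₁) (hG2 : ∀ t, GG T δ c w α₂ t ≤ l₂)
    (hS2 : ∀ t ∈ Supp α₂, GG T δ c w α₂ t = l₂) (hl : l₂ ≤ l₁) (hND : ND c w α₂)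
    {i : ℝ} (hi : GG T δ c w α₁ i = l₁) :
    l₂ * ZZ T δ c α₁ i ^ 2 ≤ l₁ * ZZ T δ c α₂ i ^ 2 := by
  have hZ₁ := ZZ_pos hT hδ hα₁ hc i
  have hZ₂ := ZZ_pos hT hδ hα₂ hc i
  have hl₂ : 0 < l₂ := (GG_pos hT hδ hα₂ hc hw i).trans_le (hG2 i)
  have hm2 := hα₂.mono
  -- positivity of `Kw` from a point of growth strictly inside
  have hkc : ∀ l, l < i → l ∈ Supp α₂ → Kw δ w l i = 0 → Kc δ c l i = 0 := by
    intro l hli hlS hk
    obtain ⟨h1, -⟩ := ineq_two hT hδ hα₂ hc hw hli (hS2 l hlS) (hG2 i) rfl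
    rw [hk, zero_mul] at h1
    have h2 : 0 ≤ Kc δ c l i := Kc_nonneg hc.nonneg hli.le
    have h3 : 0 < l₂ * Real.exp (rightLim α₂ l - leftLim α₂ i) ^ 2 := by positivity
    nlinarith
  have hkw : ∀ l l', l < l' → l' < i → l ∈ Supp α₂ → l' ∈ Supp α₂ → 0 < Kw δ w l i := by
    intro l l' hll' hl'i hlS hl'S
    rcases (Kw_nonneg (δ := δ) hw.nonneg (hll'.trans hl'i).le).eq_or_lt with h1 | h1
    · exfalso
      have h2 := hkc l (hll'.trans hl'i) hlS h1.symm
      have h3 := hND l i (hll'.trans hl'i) (ae_zero_of_K hc hw (hll'.trans hl'i) h2 h1.symm)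
      have h4 := hl'S (min (l' - l) (i - l')) (lt_min (by linarith) (by linarith))
      have a1 := hm2.leftLim_le (show l ≤ l' - min (l' - l) (i - l') by
        linarith [min_le_left (l' - l) (i - l')])
      have a2 := hm2.le_rightLim (show l' + min (l' - l) (i - l') ≤ i by
        linarith [min_le_right (l' - l) (i - l')])
      linarith
    · exact h1
  -- the case of an accumulation point
  have hacc : ∀ m ≤ i, leftLim α₂ m = leftLim α₂ i → Kc δ c m i = 0 →
      (∀ ε > 0, ∃ l ∈ Supp α₂, m - ε < l ∧ l < m) →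
      l₂ * ZZ T δ c α₁ i ^ 2 ≤ l₁ * ZZ T δ c α₂ i ^ 2 := by
    intro m hmi hlim hK hA
    apply compare_lim hZ₁ hZ₂ hl₂ hl
    intro ε hε
    -- closeness
    have hcont : ∀ᶠ l in 𝓝[<] m, Kc δ c l m < ε := by
      have h1 : Continuous fun l => Kc δ c l m := by
        have : (fun l => Kc δ c l m) = fun l => -∫ r in m..l, c r * Real.exp (δ * r) := by
          ext l
          unfold Kc
          rw [intervalIntegral.integral_symm]
        rw [this]
        exact (intervalIntegral.continuous_primitive (fun a b => ii_cexp hc.int δ a b) m).neg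
      have h2 : Kc δ c m m = 0 := by simp [Kc]
      have h3 : Tendsto (fun l => Kc δ c l m) (𝓝[<] m) (𝓝 (Kc δ c m m)) :=
        (h1.tendsto m).mono_left nhdsWithin_le_nhds
      rw [h2] at h3
      exact h3.eventually_lt_const hε
    have hcont2 : ∀ᶠ l in 𝓝[<] m, 1 - ε < Real.exp (α₂ l - leftLim α₂ m) := by
      have h3 : Tendsto (fun l => Real.exp (α₂ l - leftLim α₂ m)) (𝓝[<] m)
          (𝓝 (Real.exp (leftLim α₂ m - leftLim α₂ m))) :=
        (Real.continuous_exp.tendsto _).comp ((hm2.tendsto_leftLim m).sub_const _)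
      rw [sub_self, Real.exp_zero] at h3
      exact h3.eventually_const_lt (by linarith)
    obtain ⟨b, hb, hb2⟩ := (mem_nhdsLT_iff_exists_Ioo_subset).mp (hcont.and hcont2)
    have hb' : b < m := hb
    obtain ⟨l, hlS, hl1, hl2⟩ := hA (m - b) (by linarith)
    have hl3 : l ∈ Ioo b m := ⟨by linarith, hl2⟩
    obtain ⟨hl4, hl5⟩ := hb2 hl3
    obtain ⟨l', hl'S, hl'1, hl'2⟩ := hA (m - l) (by linarith)
    have hli : l < i := hl2.trans_le hmi
    have hKli : Kc δ c l i = Kc δ c l m := by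
      have := intervalIntegral.integral_add_adjacent_intervals (ii_cexp hc.int δ l m)
        (ii_cexp hc.int δ m i)
      unfold Kc at hK ⊢
      rw [hK, add_zero] at this
      exact this.symm
    obtain ⟨h1, h2⟩ := ineq_two hT hδ hα₂ hc hw hli (hS2 l hlS) (hG2 i) rfl
    refine ⟨Kc δ c l i, Kw δ w l i, Real.exp (rightLim α₂ l - leftLim α₂ i),
      Kc_nonneg hc.nonneg hli.le, hkw l l' (by linarith) (hl'2.trans_le hmi) hlS hl'S,
      Real.exp_pos _, ?_, ?_, h2, Or.inr ?_, ineq_one hT hδ hα₁ hc hw hli (hG1 l) hi, h1⟩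
    · rw [Real.exp_le_one_iff]
      have := hm2.rightLim_le_leftLim hli
      linarith
    · have h5 : α₂ l - leftLim α₂ m ≤ rightLim α₂ l - leftLim α₂ i := by
        rw [hlim]
        have := hm2.le_rightLim (le_refl l)
        linarith
      have h6 := Real.exp_le_exp.mpr h5
      have h7 : 1 - ε < Real.exp (α₂ l - leftLim α₂ m) := hl5
      linarith
    · rw [hKli]
      exact (show Kc δ c l m < ε from hl4).le
  -- the last point of the support before `i`
  obtain ⟨l₀, hl₀S, hl₀i, -⟩ := supp_nonempty_left hT hα₂ hpos i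
  have hne : (Supp α₂ ∩ Iio i).Nonempty := ⟨l₀, hl₀S, hl₀i⟩
  have hbdd : BddAbove (Supp α₂ ∩ Iio i) := ⟨i, fun x hx => hx.2.le⟩
  set m := sSup (Supp α₂ ∩ Iio i) with hm
  have hmi : m ≤ i := csSup_le hne fun x hx => hx.2.le
  have hmS : m ∈ Supp α₂ :=
    closure_minimal inter_subset_left (isClosed_Supp hm2) (csSup_mem_closure hne hbdd)
  rcases hmi.eq_or_lt with h1 | h1
  · apply hacc i le_rfl rfl (by simp [Kc])
    intro ε hε
    obtain ⟨l, hl, hl2⟩ := exists_lt_of_lt_csSup hne (show i - ε < m by rw [h1]; linarith)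
    exact ⟨l, hl.1, hl2, hl.2⟩
  · have hfree : ∀ t ∈ Ioo m i, t ∉ Supp α₂ := by
      intro t ht htS
      have := le_csSup hbdd ⟨htS, ht.2⟩
      linarith [ht.1]
    have hlims := free_lims hm2 h1 hfree
    have hE : (1 : ℝ) = Real.exp (rightLim α₂ m - leftLim α₂ i) := by
      rw [hlims, sub_self, Real.exp_zero]
    obtain ⟨k1, k2⟩ := ineq_two hT hδ hα₂ hc hw h1 (hS2 m hmS) (hG2 i) hE
    rcases (Kw_nonneg (δ := δ) hw.nonneg h1.le).eq_or_lt with h2 | h2
    · have h3 := hkc m h1 hmS h2.symm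
      have h4 := hND m i h1 (ae_zero_of_K hc hw h1 h3 h2.symm)
      have h5 : leftLim α₂ m = leftLim α₂ i := by
        have a1 := hm2.leftLim h1.le
        have a2 := hm2.leftLim_le_rightLim (le_refl i)
        linarith
      apply hacc m h1.le h5 h3
      intro ε hε
      apply acc_left hm2 hmS (show 0 < (i - m) / 2 by linarith) _ hε
      have := hm2.le_rightLim (show m + (i - m) / 2 ≤ i by linarith)
      linarith
    · apply compare_lim hZ₁ hZ₂ hl₂ hl
      intro ε hε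
      refine ⟨Kc δ c m i, Kw δ w m i, 1, Kc_nonneg hc.nonneg h1.le, h2, one_pos, le_rfl,
        by linarith, k2, Or.inl rfl, ineq_one hT hδ hα₁ hc hw h1 (hG1 m) hi, k1⟩

/-- The reversed comparison. -/
lemma right_lemma {α₁ α₂ : ℝ → ℝ} {l₁ l₂ : ℝ} (hT : 0 < T) (hδ : 0 < δ) (hα₁ : Ctrl T α₁)
    (hα₂ : Ctrl T α₂) (hc : Wt T c) (hw : Wt T w) (hpos : 0 < α₂ T)
    (hG1 : ∀ t, GG T δ c w α₁ t ≤ l₁) (hG2 : ∀ t, GG T δ c w α₂ t ≤ l₂)
    (hS2 : ∀ t ∈ Supp α₂, GG T δ c w α₂ t = l₂) (hl : l₂ ≤ l₁) (hND : ND c w α₂)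
    {i : ℝ} (hi : GG T δ c w α₁ i = l₁) :
    l₂ * (Real.exp (rightLim α₁ i) * WW T δ w α₁ i) ^ 2 ≤
      l₁ * (Real.exp (rightLim α₂ i) * WW T δ w α₂ i) ^ 2 := by
  have hGr : ∀ (α : ℝ → ℝ) (t : ℝ),
      GG T δ (fun r => w (-r)) (fun r => c (-r)) (rev α) t = GG T δ c w α (-t) := by
    intro α t
    have := GG_rev (T := T) (δ := δ) (c := c) (w := w) (α := α) (-t)
    rwa [neg_neg] at this
  have key := left_lemma (c := fun r => w (-r)) (w := fun r => c (-r)) (α₁ := rev α₁)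
    (α₂ := rev α₂) (l₁ := l₁) (l₂ := l₂) hT hδ hα₁.rev hα₂.rev hw.comp_neg hc.comp_neg
    (by rw [hα₂.rev_T]; exact hpos) (fun t => by rw [hGr]; exact hG1 _)
    (fun t => by rw [hGr]; exact hG2 _)
    (fun t ht => by rw [hGr]; exact hS2 _ (Supp_rev.mp ht)) hl (hND.rev hα₂.mono)
    (i := -i) (by rw [hGr, neg_neg]; exact hi)
  unfold ZZ at key
  rw [leftLim_rev hα₁.mono, leftLim_rev hα₂.mono, neg_neg, neg_neg, CC_rev, CC_rev] at key
  exact key

end compare

end Q76.Effort
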