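import Mathlib
import Pool.Agent.Q76.EffortSupp

/-!
# Comparison of two extremal controls
-/

namespace Q76.Effort

open MeasureTheory Set Filter Topology Function

section supp2

variable {α : ℝ → ℝ}

lemma lims_at_free (hα : Monotone α) {t : ℝ} (ht : t ∉ Supp α) : leftLim α t = rightLim α t := by
  obtain ⟨ε, hε, h1⟩ := not_mem_Supp ht
  have a1 := hα.le_leftLim (show t - ε < t by linarith)
  have a2 := hα.rightLim_le (show t < t + ε by linarith)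
  have a3 := hα.leftLim_le_rightLim (le_refl t)
  linarith

lemma leftLim_eq_of_free (hα : Monotone α) {x a : ℝ} (hxa : x ≤ a)
    (h : ∀ s ∈ Ico x a, s ∉ Supp α) : leftLim α x = leftLim α a := by
  rcases hxa.eq_or_lt with h1 | h1
  · rw [h1]
  · rw [lims_at_free hα (h x ⟨le_rfl, h1⟩)]
    exact free_lims hα h1 fun t ht => h t ⟨ht.1.le, ht.2⟩

lemma rightLim_eq_of_free (hα : Monotone α) {b t : ℝ} (hbt : b ≤ t)
    (h : ∀ s ∈ Ioc b t, s ∉ Supp α) : rightLim α b = rightLim α t := by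
  rcases hbt.eq_or_lt with h1 | h1
  · rw [h1]
  · rw [← lims_at_free hα (h t ⟨h1, le_rfl⟩)]
    exact free_lims hα h1 fun t ht => h t ⟨ht.1, ht.2.le⟩

end supp2

section ratio

variable {T δ : ℝ} {c : ℝ → ℝ} {α₁ α₂ : ℝ → ℝ}

lemma ratio_mono (hT : 0 < T) (hδ : 0 < δ) (hα₁ : Ctrl T α₁) (hα₂ : Ctrl T α₂) (hc : Wt T c)
    {s t : ℝ} (hst : s ≤ t)
    (h : ∀ᵐ r, r ∈ Ioo s t → Real.exp (α₁ r) * CC T δ c α₂ r ≤ Real.exp (α₂ r) * CC T δ c α₁ r) :
    CC T δ c α₂ s * CC T δ c α₁ t ≤ CC T δ c α₂ t * CC T δ c α₁ s := by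
  have p₁ := CC_pos hT hδ hα₁ hc
  have p₂ := CC_pos hT hδ hα₂ hc
  have hR : ContinuousOn (fun r => CC T δ c α₂ r / CC T δ c α₁ r) (Icc s t) :=
    ((continuous_CC hT hδ hα₂ hc).div (continuous_CC hT hδ hα₁ hc)
      (fun r => (p₁ r).ne')).continuousOn
  obtain ⟨u, hu, hmin⟩ := isCompact_Icc.exists_isMinOn ⟨s, left_mem_Icc.mpr hst⟩ hR
  set R := CC T δ c α₂ u / CC T δ c α₁ u with hRdef
  have hRu : CC T δ c α₂ u = R * CC T δ c α₁ u := by
    rw [hRdef, div_mul_cancel₀]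
    exact (p₁ u).ne'
  have hRle : ∀ r ∈ Icc s t, R * CC T δ c α₁ r ≤ CC T δ c α₂ r := by
    intro r hr
    have := hmin hr
    simp only [Set.mem_ofPred_eq] at this
    rwa [← hRdef, le_div_iff₀ (p₁ r)] at this
  have h1 : ∫ r in s..u, R * fC δ c α₁ r ≤ ∫ r in s..u, fC δ c α₂ r := by
    rw [intervalIntegral.integral_of_le hu.1, intervalIntegral.integral_of_le hu.1,
      integral_Ioc_eq_integral_Ioo, integral_Ioc_eq_integral_Ioo]
    apply setIntegral_mono_on_ae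
    · have := (ii_fC hδ.le hα₁.mono hc.int s u).const_mul R
      rw [intervalIntegrable_iff_integrableOn_Ioo_of_le hu.1] at this
      exact this
    · have := (ii_fC hδ.le hα₂.mono hc.int s u)
      rw [intervalIntegrable_iff_integrableOn_Ioo_of_le hu.1] at this
      exact this
    · exact measurableSet_Ioo
    · filter_upwards [h] with r hr hr2
      have a1 := hr ⟨hr2.1, hr2.2.trans_le hu.2⟩
      have a2 := hRle r ⟨hr2.1.le, (hr2.2.trans_le hu.2).le⟩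
      have a3 : R * Real.exp (α₁ r) ≤ Real.exp (α₂ r) := by
        have a4 := mul_le_mul_of_nonneg_left a2 (Real.exp_pos (α₁ r)).le
        have a5 : (R * Real.exp (α₁ r)) * CC T δ c α₁ r ≤ Real.exp (α₂ r) * CC T δ c α₁ r := by
          calc (R * Real.exp (α₁ r)) * CC T δ c α₁ r =
                Real.exp (α₁ r) * (R * CC T δ c α₁ r) := by ring
            _ ≤ _ := a4.trans a1
        exact le_of_mul_le_mul_right a5 (p₁ r)
      unfold fC
      rw [Real.exp_add, Real.exp_add]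
      have a6 := mul_le_mul_of_nonneg_right a3
        (mul_nonneg (hc.nonneg r) (Real.exp_pos (δ * r)).le)
      calc R * (c r * (Real.exp (α₁ r) * Real.exp (δ * r))) =
            R * Real.exp (α₁ r) * (c r * Real.exp (δ * r)) := by ring
        _ ≤ Real.exp (α₂ r) * (c r * Real.exp (δ * r)) := a6
        _ = c r * (Real.exp (α₂ r) * Real.exp (δ * r)) := by ring
  rw [intervalIntegral.integral_const_mul, ← CC_sub hT hδ hα₁ hc, ← CC_sub hT hδ hα₂ hc] at h1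
  have h2 : CC T δ c α₂ s ≤ R * CC T δ c α₁ s := by linarith
  have h3 := hRle t ⟨hst, le_rfl⟩
  calc CC T δ c α₂ s * CC T δ c α₁ t ≤ (R * CC T δ c α₁ s) * CC T δ c α₁ t :=
        mul_le_mul_of_nonneg_right h2 (p₁ t).le
    _ = (R * CC T δ c α₁ t) * CC T δ c α₁ s := by ring
    _ ≤ CC T δ c α₂ t * CC T δ c α₁ s := mul_le_mul_of_nonneg_right h3 (p₁ s).le

end ratio

/-- An extremal control: the product is at most `lam` and equals `lam` on the support. -/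
structure Ext (T δ : ℝ) (c w α : ℝ → ℝ) (lam : ℝ) : Prop where
  ctrl : Ctrl T α
  pos : 0 < α T
  le : ∀ t, GG T δ c w α t ≤ lam
  eq : ∀ t ∈ Supp α, GG T δ c w α t = lam
  nd : ND c w α

section main

variable {T δ : ℝ} {c w : ℝ → ℝ} {α₁ α₂ : ℝ → ℝ} {l₁ l₂ : ℝ}

lemma Ext.lam_pos (hT : 0 < T) (hδ : 0 < δ) (hc : Wt T c) (hw : Wt T w)
    (h₁ : Ext T δ c w α₁ l₁) : 0 < l₁ :=
  (GG_pos hT hδ h₁.ctrl hc hw 0).trans_le (h₁.le 0)

lemma strong_right (hT : 0 < T) (hδ : 0 < δ) (hc : Wt T c) (hw : Wt T w)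
    (h₁ : Ext T δ c w α₁ l₁) (h₂ : Ext T δ c w α₂ l₂) (hl : l₂ ≤ l₁) {i : ℝ}
    (hi : i ∈ Supp α₁) :
    l₁ * (Real.exp (rightLim α₁ i) * CC T δ c α₂ i) ^ 2 ≤
      l₂ * (Real.exp (rightLim α₂ i) * CC T δ c α₁ i) ^ 2 := by
  have key := right_lemma hT hδ h₁.ctrl h₂.ctrl hc hw h₂.pos h₁.le h₂.le h₂.eq hl h₂.nd (h₁.eq i hi)
  have hl₂ := h₂.lam_pos hT hδ hc hw
  have hl₁ := h₁.lam_pos hT hδ hc hw
  have g1 := h₁.eq i hi
  have g2 := h₂.le i
  unfold GG at g1 g2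
  have p1 := CC_pos hT hδ h₁.ctrl hc i
  have p2 := CC_pos hT hδ h₂.ctrl hc i
  have p3 := WW_pos hT hδ h₂.ctrl hw i
  set e₁ := Real.exp (rightLim α₁ i)
  set e₂ := Real.exp (rightLim α₂ i)
  set C₁ := CC T δ c α₁ i
  set C₂ := CC T δ c α₂ i
  set W₁ := WW T δ w α₁ i
  set W₂ := WW T δ w α₂ i
  have a1 := mul_le_mul_of_nonneg_right key (show 0 ≤ (C₁ * C₂) ^ 2 by positivity)
  have a2 : l₂ * (e₁ * W₁) ^ 2 * (C₁ * C₂) ^ 2 = l₂ * l₁ * (l₁ * (e₁ * C₂) ^ 2) := by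
    rw [← g1]; ring
  have a3 : l₁ * (e₂ * W₂) ^ 2 * (C₁ * C₂) ^ 2 = l₁ * (e₂ * C₁) ^ 2 * (C₂ * W₂) ^ 2 := by ring
  have a4 : (C₂ * W₂) ^ 2 ≤ l₂ ^ 2 := pow_le_pow_left₀ (by positivity) g2 2
  have a5 : l₁ * (e₂ * C₁) ^ 2 * (C₂ * W₂) ^ 2 ≤ l₁ * (e₂ * C₁) ^ 2 * l₂ ^ 2 :=
    mul_le_mul_of_nonneg_left a4 (by positivity)
  have a6 : l₂ * l₁ * (l₁ * (e₁ * C₂) ^ 2) ≤ l₂ * l₁ * (l₂ * (e₂ * C₁) ^ 2) := by
    calc l₂ * l₁ * (l₁ * (e₁ * C₂) ^ 2) = l₂ * (e₁ * W₁) ^ 2 * (C₁ * C₂) ^ 2 := a2.symm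
      _ ≤ l₁ * (e₂ * W₂) ^ 2 * (C₁ * C₂) ^ 2 := a1
      _ = l₁ * (e₂ * C₁) ^ 2 * (C₂ * W₂) ^ 2 := a3
      _ ≤ l₁ * (e₂ * C₁) ^ 2 * l₂ ^ 2 := a5
      _ = l₂ * l₁ * (l₂ * (e₂ * C₁) ^ 2) := by ring
  exact le_of_mul_le_mul_left a6 (by positivity)

lemma weak_right (hT : 0 < T) (hδ : 0 < δ) (hc : Wt T c) (hw : Wt T w)
    (h₁ : Ext T δ c w α₁ l₁) (h₂ : Ext T δ c w α₂ l₂) (hl : l₂ ≤ l₁) {i : ℝ}
    (hi : i ∈ Supp α₁) :
    Real.exp (rightLim α₁ i) * CC T δ c α₂ i ≤ Real.exp (rightLim α₂ i) * CC T δ c α₁ i := by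
  have h := strong_right hT hδ hc hw h₁ h₂ hl hi
  have hl₁ := h₁.lam_pos hT hδ hc hw
  have p1 := CC_pos hT hδ h₁.ctrl hc i
  have p2 := CC_pos hT hδ h₂.ctrl hc i
  have h2 : l₁ * (Real.exp (rightLim α₁ i) * CC T δ c α₂ i) ^ 2 ≤
      l₁ * (Real.exp (rightLim α₂ i) * CC T δ c α₁ i) ^ 2 :=
    h.trans (mul_le_mul_of_nonneg_right hl (by positivity))
  have h3 := le_of_mul_le_mul_left h2 hl₁
  exact le_of_sq_le_sq h3 (by positivity)

/-- Domination at the points of continuity. -/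
lemma dom (hT : 0 < T) (hδ : 0 < δ) (hc : Wt T c) (hw : Wt T w)
    (h₁ : Ext T δ c w α₁ l₁) (h₂ : Ext T δ c w α₂ l₂) (hl : l₂ ≤ l₁) {t : ℝ}
    (ht1 : ContinuousAt α₁ t) (ht2 : ContinuousAt α₂ t) :
    Real.exp (α₁ t) * CC T δ c α₂ t ≤ Real.exp (α₂ t) * CC T δ c α₁ t := by
  have hm1 := h₁.ctrl.mono
  have hm2 := h₂.ctrl.mono
  by_cases htA : t ∈ Supp α₁
  · have h := weak_right hT hδ hc hw h₁ h₂ hl htA
    have e1 : rightLim α₁ t = α₁ t := ht1.continuousWithinAt.rightLim_eq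
    have e2 : rightLim α₂ t = α₂ t := ht2.continuousWithinAt.rightLim_eq
    rwa [e1, e2] at h
  · obtain ⟨l₀, hl₀S, hl₀i, -⟩ := supp_nonempty_left hT h₁.ctrl h₁.pos t
    have hne : (Supp α₁ ∩ Iio t).Nonempty := ⟨l₀, hl₀S, hl₀i⟩
    have hbdd : BddAbove (Supp α₁ ∩ Iio t) := ⟨t, fun x hx => hx.2.le⟩
    set p := sSup (Supp α₁ ∩ Iio t) with hp
    have hpt : p ≤ t := csSup_le hne fun x hx => hx.2.le
    have hpS : p ∈ Supp α₁ :=
      closure_minimal inter_subset_left (isClosed_Supp hm1) (csSup_mem_closure hne hbdd)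
    have hpt' : p < t := lt_of_le_of_ne hpt fun h => htA (h ▸ hpS)
    have hfree : ∀ r ∈ Ioo p t, r ∉ Supp α₁ := by
      intro r hr hrS
      have := le_csSup hbdd ⟨hrS, hr.2⟩
      linarith [hr.1]
    have hlt : leftLim α₁ t = α₁ t := ht1.continuousWithinAt.leftLim_eq
    have hpr : rightLim α₁ p = α₁ t := by rw [free_lims hm1 hpt' hfree, hlt]
    have hconst : ∀ r ∈ Ioo p t, α₁ r = α₁ t := by
      intro r hr
      rw [← free_rightLim hm1 hfree hr, hpr]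
    have p₁ := CC_pos hT hδ h₁.ctrl hc
    have p₂ := CC_pos hT hδ h₂.ctrl hc
    by_contra hcon
    push Not at hcon
    -- the continuous function `f`
    set f : ℝ → ℝ := fun r => Real.exp (α₁ t) * CC T δ c α₂ r - Real.exp (α₂ t) * CC T δ c α₁ r
      with hf
    have hfc : Continuous f := (continuous_const.mul (continuous_CC hT hδ h₂.ctrl hc)).sub
      (continuous_const.mul (continuous_CC hT hδ h₁.ctrl hc))
    have hfp : f p ≤ 0 := by
      have h := weak_right hT hδ hc hw h₁ h₂ hl hpS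
      rw [hpr] at h
      have h3 : Real.exp (rightLim α₂ p) ≤ Real.exp (α₂ t) :=
        Real.exp_le_exp.mpr (hm2.rightLim_le hpt')
      have h4 := mul_le_mul_of_nonneg_right h3 (p₁ p).le
      simp only [hf]
      linarith
    have hft : 0 < f t := by simp only [hf]; linarith
    have hcl : IsClosed ({r | f r ≤ 0}) := isClosed_le hfc continuous_const
    have hcomp : IsCompact ({r | f r ≤ 0} ∩ Icc p t) := isCompact_Icc.inter_left hcl
    obtain ⟨s, hs⟩ := hcomp.exists_isGreatest ⟨p, hfp, le_rfl, hpt'.le⟩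
    have hst : s < t := lt_of_le_of_ne hs.1.2.2 fun h => by
      have h2 : f s ≤ 0 := hs.1.1
      rw [h] at h2
      linarith
    have hpos : ∀ r ∈ Ioo s t, 0 < f r := by
      intro r hr
      by_contra h
      push Not at h
      have := hs.2 ⟨h, hs.1.2.1.trans hr.1.le, hr.2.le⟩
      linarith [hr.1]
    have h5 := ratio_mono hT hδ h₂.ctrl h₁.ctrl hc hst.le (by
      apply Eventually.of_forall
      intro r hr
      have a1 := hpos r hr
      simp only [hf] at a1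
      rw [hconst r ⟨hs.1.2.1.trans_lt hr.1, hr.2⟩]
      have a2 : Real.exp (α₂ r) ≤ Real.exp (α₂ t) := Real.exp_le_exp.mpr (hm2 hr.2.le)
      have a3 := mul_le_mul_of_nonneg_right a2 (p₁ r).le
      linarith)
    have h6 : f s ≤ 0 := hs.1.1
    simp only [hf] at h6
    -- `C₁ s C₂ t ≤ C₁ t C₂ s`
    have h7 : Real.exp (α₁ t) * CC T δ c α₂ t * CC T δ c α₁ s ≤
        Real.exp (α₂ t) * CC T δ c α₁ t * CC T δ c α₁ s := by
      calc Real.exp (α₁ t) * CC T δ c α₂ t * CC T δ c α₁ s =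
            Real.exp (α₁ t) * (CC T δ c α₁ s * CC T δ c α₂ t) := by ring
        _ ≤ Real.exp (α₁ t) * (CC T δ c α₁ t * CC T δ c α₂ s) :=
            mul_le_mul_of_nonneg_left h5 (Real.exp_pos _).le
        _ = (Real.exp (α₁ t) * CC T δ c α₂ s) * CC T δ c α₁ t := by ring
        _ ≤ (Real.exp (α₂ t) * CC T δ c α₁ s) * CC T δ c α₁ t :=
            mul_le_mul_of_nonneg_right (by linarith) (p₁ t).le
        _ = Real.exp (α₂ t) * CC T δ c α₁ t * CC T δ c α₁ s := by ring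
    have h8 := le_of_mul_le_mul_right h7 (p₁ s)
    linarith

/-- The ratio of the states is nondecreasing. -/
lemma theta_mono (hT : 0 < T) (hδ : 0 < δ) (hc : Wt T c) (hw : Wt T w)
    (h₁ : Ext T δ c w α₁ l₁) (h₂ : Ext T δ c w α₂ l₂) (hl : l₂ ≤ l₁) {s t : ℝ} (hst : s ≤ t) :
    CC T δ c α₂ s * CC T δ c α₁ t ≤ CC T δ c α₂ t * CC T δ c α₁ s := by
  apply ratio_mono hT hδ h₁.ctrl h₂.ctrl hc hst
  have e1 : ∀ᵐ r : ℝ, ContinuousAt α₁ r :=
    (h₁.ctrl.mono.countable_not_continuousAt).ae_notMem volume |>.mono fun r hr => by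
      simpa using hr
  have e2 : ∀ᵐ r : ℝ, ContinuousAt α₂ r :=
    (h₂.ctrl.mono.countable_not_continuousAt).ae_notMem volume |>.mono fun r hr => by
      simpa using hr
  filter_upwards [e1, e2] with r hr1 hr2 _
  exact dom hT hδ hc hw h₁ h₂ hl hr1 hr2

/-- The comparison of the efforts on closed intervals. -/
theorem comparison (hT : 0 < T) (hδ : 0 < δ) (hc : Wt T c) (hw : Wt T w)
    (h₁ : Ext T δ c w α₁ l₁) (h₂ : Ext T δ c w α₂ l₂) (hl : l₂ ≤ l₁) {x t : ℝ} (hxt : x ≤ t) :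
    rightLim α₁ t - leftLim α₁ x ≤ rightLim α₂ t - leftLim α₂ x := by
  have hm1 := h₁.ctrl.mono
  have hm2 := h₂.ctrl.mono
  by_cases hne : (Supp α₁ ∩ Icc x t).Nonempty
  · have hcomp : IsCompact (Supp α₁ ∩ Icc x t) := isCompact_Icc.inter_left (isClosed_Supp hm1)
    obtain ⟨a, ha⟩ := hcomp.exists_isLeast hne
    obtain ⟨b, hb⟩ := hcomp.exists_isGreatest hne
    have hab : a ≤ b := ha.2 hb.1
    have e1 : leftLim α₁ x = leftLim α₁ a := by
      apply leftLim_eq_of_free hm1 ha.1.2.1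
      intro s hs hsS
      have := ha.2 ⟨hsS, hs.1, hs.2.le.trans ha.1.2.2⟩
      linarith [hs.2]
    have e2 : rightLim α₁ b = rightLim α₁ t := by
      apply rightLim_eq_of_free hm1 hb.1.2.2
      intro s hs hsS
      have := hb.2 ⟨hsS, hb.1.2.1.trans hs.1.le, hs.2⟩
      linarith [hs.1]
    have m1 := hm2.leftLim ha.1.2.1
    have m2 := hm2.rightLim hb.1.2.2
    have k1 := left_lemma hT hδ h₁.ctrl h₂.ctrl hc hw h₂.pos h₁.le h₂.le h₂.eq hl h₂.nd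
      (h₁.eq a ha.1.1)
    have k2 := strong_right hT hδ hc hw h₁ h₂ hl hb.1.1
    have k3 := theta_mono hT hδ hc hw h₁ h₂ hl hab
    have hl₂ := h₂.lam_pos hT hδ hc hw
    have hl₁ := h₁.lam_pos hT hδ hc hw
    have p1 := CC_pos hT hδ h₁.ctrl hc a
    have p2 := CC_pos hT hδ h₂.ctrl hc a
    have p3 := CC_pos hT hδ h₁.ctrl hc b
    have p4 := CC_pos hT hδ h₂.ctrl hc b
    unfold ZZ at k1
    rw [e1, ← e2]
    suffices h : Real.exp (rightLim α₁ b - leftLim α₁ a) ≤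
        Real.exp (rightLim α₂ b - leftLim α₂ a) by
      have := Real.exp_le_exp.mp h
      linarith
    rw [sub_eq_add_neg, sub_eq_add_neg, Real.exp_add, Real.exp_add]
    set f₁ := Real.exp (-leftLim α₁ a)
    set f₂ := Real.exp (-leftLim α₂ a)
    set g₁ := Real.exp (rightLim α₁ b)
    set g₂ := Real.exp (rightLim α₂ b)
    have hf₁ : 0 < f₁ := Real.exp_pos _
    have hf₂ : 0 < f₂ := Real.exp_pos _
    have hg₁ : 0 < g₁ := Real.exp_pos _
    have hg₂ : 0 < g₂ := Real.exp_pos _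
    have q1 : (l₂ * (f₁ * CC T δ c α₁ a) ^ 2) * (l₁ * (g₁ * CC T δ c α₂ b) ^ 2) ≤
        (l₁ * (f₂ * CC T δ c α₂ a) ^ 2) * (l₂ * (g₂ * CC T δ c α₁ b) ^ 2) :=
      mul_le_mul k1 k2 (by positivity) (by positivity)
    have q2 : (l₁ * l₂) * (g₁ * f₁ * (CC T δ c α₂ b * CC T δ c α₁ a)) ^ 2 ≤
        (l₁ * l₂) * (g₂ * f₂ * (CC T δ c α₂ a * CC T δ c α₁ b)) ^ 2 := by
      calc (l₁ * l₂) * (g₁ * f₁ * (CC T δ c α₂ b * CC T δ c α₁ a)) ^ 2 =
            (l₂ * (f₁ * CC T δ c α₁ a) ^ 2) * (l₁ * (g₁ * CC T δ c α₂ b) ^ 2) := by ring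
        _ ≤ _ := q1
        _ = (l₁ * l₂) * (g₂ * f₂ * (CC T δ c α₂ a * CC T δ c α₁ b)) ^ 2 := by ring
    have q3 := le_of_mul_le_mul_left q2 (by positivity)
    have q4 : g₁ * f₁ * (CC T δ c α₂ b * CC T δ c α₁ a) ≤
        g₂ * f₂ * (CC T δ c α₂ a * CC T δ c α₁ b) := le_of_sq_le_sq q3 (by positivity)
    have q5 : g₂ * f₂ * (CC T δ c α₂ a * CC T δ c α₁ b) ≤
        g₂ * f₂ * (CC T δ c α₂ b * CC T δ c α₁ a) := mul_le_mul_of_nonneg_left k3 (by positivity)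
    exact le_of_mul_le_mul_right (q4.trans q5) (by positivity)
  · have hfree : ∀ s ∈ Icc x t, s ∉ Supp α₁ := fun s hs hsS => hne ⟨s, hsS, hs⟩
    have e1 : leftLim α₁ x = leftLim α₁ t :=
      leftLim_eq_of_free hm1 hxt fun s hs => hfree s ⟨hs.1, hs.2.le⟩
    have e2 := lims_at_free hm1 (hfree t ⟨hxt, le_rfl⟩)
    have := hm2.leftLim_le_rightLim hxt
    rw [e1, e2]
    linarith

end main

end Q76.Effort
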