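import Mathlib
import Pool.Agent.Q76.EffortComp

/-!
# First variation of the cost
-/

namespace Q76.Effort

open MeasureTheory Set Filter Topology Function

/-- `F` is a primitive of the locally integrable function `f`. -/
structure Prm (F f : ℝ → ℝ) : Prop where
  int : ∀ a b, IntervalIntegrable f volume a b
  sub : ∀ a b, F b - F a = ∫ r in a..b, f r

section prm

variable {F f G g : ℝ → ℝ}

lemma Prm.eq (h : Prm F f) (a : ℝ) : F = fun x => F a + ∫ r in a..x, f r := by
  ext x
  have := h.sub a x
  linarith

lemma Prm.continuous (h : Prm F f) : Continuous F := by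
  rw [h.eq 0]
  exact continuous_const.add (intervalIntegral.continuous_primitive h.int 0)

lemma Prm.ac (h : Prm F f) (a b : ℝ) : AbsolutelyContinuousOnInterval F a b := by
  have h1 := (h.int a b).absolutelyContinuousOnInterval_intervalIntegral (c := a) left_mem_uIcc
  have h2 : AbsolutelyContinuousOnInterval (fun _ : ℝ => F a) a b :=
    (LipschitzWith.const (F a)).lipschitzOnWith.absolutelyContinuousOnInterval
  have h3 := h2.add h1
  rw [h.eq a]
  exact h3

lemma Prm.ae (h : Prm F f) (a b : ℝ) : ∀ᵐ x, x ∈ uIcc a b → deriv F x = f x := by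
  filter_upwards [(h.int a b).ae_hasDerivAt_integral] with x hx hx2
  have h1 := hx hx2 a left_mem_uIcc
  have h2 : HasDerivAt (fun x => F a + ∫ r in a..x, f r) (f x) x := h1.const_add (F a)
  rw [← h.eq a] at h2
  exact h2.deriv

lemma Prm.ibp (hF : Prm F f) (hG : Prm G g) (a b : ℝ) :
    ∫ r in a..b, (f r * G r + F r * g r) = F b * G b - F a * G a := by
  rw [← AbsolutelyContinuousOnInterval.integral_deriv_mul_eq_sub (hF.ac a b) (hG.ac a b)]
  apply intervalIntegral.integral_congr_ae
  filter_upwards [hF.ae a b, hG.ae a b] with x hx1 hx2 hx3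
  have hx4 : x ∈ uIcc a b := uIoc_subset_uIcc hx3
  rw [hx1 hx4, hx2 hx4]

lemma Prm.mul (hF : Prm F f) (hG : Prm G g) :
    Prm (fun r => F r * G r) (fun r => f r * G r + F r * g r) where
  int := fun a b => ((hF.int a b).mul_continuousOn hG.continuous.continuousOn).add
    ((hG.int a b).continuousOn_mul hF.continuous.continuousOn)
  sub := fun a b => (hF.ibp hG a b).symm

lemma Prm.const_sub (hF : Prm F f) (k : ℝ) : Prm (fun r => k - F r) (fun r => -f r) where
  int := fun a b => (hF.int a b).neg
  sub := fun a b => by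
    rw [intervalIntegral.integral_neg, ← hF.sub]
    ring

end prm

/-- Product of a locally bounded measurable function and a locally integrable one. -/
lemma ii_bdd_mul {h f : ℝ → ℝ} (hm : Measurable h) {a b K : ℝ}
    (hb : ∀ r ∈ uIoc a b, |h r| ≤ K) (hf : IntervalIntegrable f volume a b) :
    IntervalIntegrable (fun r => h r * f r) volume a b := by
  rw [intervalIntegrable_iff] at hf ⊢
  have h1 := hf.mul_bdd (c := K) hm.aestronglyMeasurable (g := h) (by
    rw [ae_restrict_iff' measurableSet_uIoc]
    exact Eventually.of_forall fun r hr => by rw [Real.norm_eq_abs]; exact hb r hr)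
  exact h1.congr (Eventually.of_forall fun r => mul_comm _ _)

lemma ii_mono_mul {α f : ℝ → ℝ} (hα : Monotone α) (hf : ∀ a b, IntervalIntegrable f volume a b)
    (a b : ℝ) : IntervalIntegrable (fun r => α r * f r) volume a b := by
  apply ii_bdd_mul hα.measurable (K := |α (min a b)| + |α (max a b)|) _ (hf a b)
  intro r hr
  have h1 := hα hr.1.le
  have h2 := hα hr.2
  rw [abs_le]
  constructor
  · linarith [neg_abs_le (α (min a b)), abs_nonneg (α (max a b))]
  · linarith [le_abs_self (α (max a b)), abs_nonneg (α (min a b))]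

section stieltjes

variable {α v v' : ℝ → ℝ}

lemma stieltjes_direct (hα : Monotone α) (hv : Prm v v') {x y : ℝ} (hxy : x ≤ y)
    (h0 : 0 ≤ v y) : (∫ r in x..y, α r * v' r) - (α y * v y - α x * v x) ≤
      (α y - α x) * ∫ r in x..y, |v' r| := by
  have h1 : ∫ r in x..y, α r * v' r = (∫ r in x..y, (α r - α x) * v' r) + α x * (v y - v x) := by
    rw [hv.sub x y, ← intervalIntegral.integral_const_mul, ← intervalIntegral.integral_add]
    · apply intervalIntegral.integral_congr
      intro r _
      show α r * v' r = (α r - α x) * v' r + α x * v' r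
      ring
    · have : (fun r => (α r - α x) * v' r) = fun r => α r * v' r - α x * v' r := by
        ext r; ring
      rw [this]
      exact (ii_mono_mul hα hv.int x y).sub ((hv.int x y).const_mul _)
    · exact (hv.int x y).const_mul _
  have h2 : ∫ r in x..y, (α r - α x) * v' r ≤ ∫ r in x..y, (α y - α x) * |v' r| := by
    apply intervalIntegral.integral_mono_on hxy
    · have : (fun r => (α r - α x) * v' r) = fun r => α r * v' r - α x * v' r := by
        ext r; ring
      rw [this]
      exact (ii_mono_mul hα hv.int x y).sub ((hv.int x y).const_mul _)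
    · exact (hv.int x y).abs.const_mul _
    · intro r hr
      have a1 := hα hr.1
      have a2 := hα hr.2
      calc (α r - α x) * v' r ≤ (α r - α x) * |v' r| :=
            mul_le_mul_of_nonneg_left (le_abs_self _) (by linarith)
        _ ≤ (α y - α x) * |v' r| := mul_le_mul_of_nonneg_right (by linarith) (abs_nonneg _)
  rw [intervalIntegral.integral_const_mul] at h2
  have h3 : 0 ≤ (α y - α x) * v y := mul_nonneg (by linarith [hα hxy]) h0
  rw [h1]
  nlinarith

lemma stieltjes_step (hα : Monotone α) (hv : Prm v v') {ε : ℝ} (hε : 0 < ε) (n : ℕ) :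
    ∀ x y : ℝ, x ≤ y → (∀ r ∈ Icc x y, 0 ≤ v r) → ∫ r in x..y, |v' r| ≤ n * ε →
    (∫ r in x..y, α r * v' r) - (α y * v y - α x * v x) ≤ (α y - α x) * ε := by
  induction n with
  | zero =>
    intro x y hxy h0 hN
    have h1 := stieltjes_direct hα hv hxy (h0 y ⟨hxy, le_rfl⟩)
    have h2 := mul_le_mul_of_nonneg_left hN (show 0 ≤ α y - α x by linarith [hα hxy])
    have h3 : 0 ≤ (α y - α x) * ε := mul_nonneg (by linarith [hα hxy]) hε.le
    push_cast at h2
    linarith
  | succ n ih =>
    intro x y hxy h0 hN
    by_cases hs : ∫ r in x..y, |v' r| ≤ ε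
    · have h1 := stieltjes_direct hα hv hxy (h0 y ⟨hxy, le_rfl⟩)
      have h2 := mul_le_mul_of_nonneg_left hs (show 0 ≤ α y - α x by linarith [hα hxy])
      linarith
    · push Not at hs
      have hi : ∀ a b, IntervalIntegrable (fun r => |v' r|) volume a b := fun a b =>
        (hv.int a b).abs
      have hcont : Continuous fun z => ∫ r in x..z, |v' r| :=
        intervalIntegral.continuous_primitive hi x
      obtain ⟨z, hz, hz2⟩ := intermediate_value_Icc hxy hcont.continuousOn
        (show ε ∈ Icc (∫ r in x..x, |v' r|) (∫ r in x..y, |v' r|) by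
          rw [intervalIntegral.integral_same]; exact ⟨hε.le, hs.le⟩)
      have e1 := intervalIntegral.integral_add_adjacent_intervals (hi x z) (hi z y)
      have e2 := intervalIntegral.integral_add_adjacent_intervals
        (ii_mono_mul hα hv.int x z) (ii_mono_mul hα hv.int z y)
      have hz2' : ∫ r in x..z, |v' r| = ε := hz2
      have h1 := stieltjes_direct hα hv hz.1 (h0 z hz)
      rw [hz2'] at h1 e1
      have h2 := ih z y hz.2 (fun r hr => h0 r ⟨hz.1.trans hr.1, hr.2⟩) (by
        push_cast at hN
        linarith)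
      rw [← e2]
      linarith

/-- Integration by parts inequality against a nondecreasing function. -/
lemma stieltjes (hα : Monotone α) (hv : Prm v v') {x y : ℝ} (hxy : x ≤ y)
    (h0 : ∀ r ∈ Icc x y, 0 ≤ v r) :
    ∫ r in x..y, α r * v' r ≤ α y * v y - α x * v x := by
  have key : ∀ ε > 0, (∫ r in x..y, α r * v' r) - (α y * v y - α x * v x) ≤ (α y - α x) * ε := by
    intro ε hε
    obtain ⟨n, hn⟩ := exists_nat_gt ((∫ r in x..y, |v' r|) / ε)
    rw [div_lt_iff₀ hε] at hn
    exact stieltjes_step hα hv hε n x y hxy h0 hn.le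
  have hlim : Tendsto (fun ε : ℝ => (α y - α x) * ε) (𝓝[>] 0) (𝓝 ((α y - α x) * 0)) :=
    ((continuous_const.mul continuous_id).tendsto 0).mono_left nhdsWithin_le_nhds
  have := ge_of_tendsto hlim (eventually_nhdsWithin_of_forall key)
  linarith

lemma stieltjes_min (hα : Monotone α) (hv : Prm v v') {x y m : ℝ} (hxy : x ≤ y)
    (h0 : ∀ r ∈ Icc x y, m ≤ v r) :
    (∫ r in x..y, α r * v' r) + m * (α y - α x) ≤ α y * v y - α x * v x := by
  have h1 : Prm (fun r => v r - m) v' := by
    refine ⟨hv.int, fun a b => ?_⟩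
    rw [← hv.sub]
    ring
  have h2 := stieltjes hα h1 hxy (fun r hr => by
    show 0 ≤ v r - m
    linarith [h0 r hr])
  linarith

/-- Strict version over an interval at whose ends the function vanishes. -/
lemma stieltjes_strict (hα : Monotone α) (hv : Prm v v') {x y i : ℝ}
    (h0 : ∀ r, 0 ≤ v r) (hx : v x = 0) (hy : v y = 0) (hi : i ∈ Ioo x y) (hiS : i ∈ Supp α)
    (hvi : 0 < v i) : ∫ r in x..y, α r * v' r < 0 := by
  have h1 : ∀ᶠ r in 𝓝 i, v i / 2 < v r ∧ r ∈ Ioo x y :=
    ((hv.continuous.tendsto i).eventually_const_lt (by linarith)).and (Ioo_mem_nhds hi.1 hi.2)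
  obtain ⟨ε, hε, h2⟩ := Metric.eventually_nhds_iff.mp h1
  have h3 : ∀ r ∈ Icc (i - ε / 2) (i + ε / 2), v i / 2 < v r ∧ r ∈ Ioo x y := by
    intro r hr
    apply h2
    rw [Real.dist_eq, abs_lt]
    constructor
    · linarith [hr.1]
    · linarith [hr.2]
  have hl := (h3 (i - ε / 2) ⟨le_rfl, by linarith⟩).2
  have hr := (h3 (i + ε / 2) ⟨by linarith, le_rfl⟩).2
  have a1 := stieltjes hα hv hl.1.le fun r _ => h0 r
  have a2 := stieltjes_min hα hv (m := v i / 2) (show i - ε / 2 ≤ i + ε / 2 by linarith)
    fun r hr => (h3 r hr).1.le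
  have a3 := stieltjes hα hv hr.2.le fun r _ => h0 r
  have e1 := intervalIntegral.integral_add_adjacent_intervals
    (ii_mono_mul hα hv.int x (i - ε / 2)) (ii_mono_mul hα hv.int (i - ε / 2) (i + ε / 2))
  have e2 := intervalIntegral.integral_add_adjacent_intervals
    (ii_mono_mul hα hv.int x (i + ε / 2)) (ii_mono_mul hα hv.int (i + ε / 2) y)
  have h4 := hiS (ε / 2) (by positivity)
  have h5 : 0 < v i / 2 * (α (i + ε / 2) - α (i - ε / 2)) := by
    apply mul_pos (by positivity)
    linarith
  rw [hx] at a1
  rw [hy] at a3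
  linarith

end stieltjes

end Q76.Effort
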