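import Mathlib
import Pool.Agent.Q76.EffortKKT

/-!
# The cost, its first variation and the optimality condition
-/

namespace Q76.Effort

open MeasureTheory Set Filter Topology Function

/-- The periodic state. -/
noncomputable def stateS (T δ : ℝ) (c α : ℝ → ℝ) (t : ℝ) : ℝ :=
  Real.exp (-α t - δ * t) / (1 - Real.exp (-α T - δ * T)) *
    ((∫ r in (0 : ℝ)..t, c r * Real.exp (α r + δ * r)) +
      Real.exp (-α T - δ * T) * ∫ r in t..T, c r * Real.exp (α r + δ * r))

/-- The averaged weighted state. -/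
noncomputable def cost (T δ : ℝ) (c w α : ℝ → ℝ) : ℝ :=
  1 / T * ∫ t in (0 : ℝ)..T, w t * stateS T δ c α t

section cost

variable {T δ : ℝ} {c w α β : ℝ → ℝ}

lemma stateS_eq (hT : 0 < T) (hδ : 0 < δ) (hα : Ctrl T α) (hc : Wt T c) (t : ℝ) :
    stateS T δ c α t = Real.exp (-(α t + δ * t)) * CC T δ c α t := by
  have hκ := kappa_pos hT hδ hα
  have hii := ii_fC hδ.le hα.mono hc.int
  have h1 : ∫ r in (t - T)..(0 : ℝ), fC δ c α r =
      Real.exp (-(α T + δ * T)) * ∫ r in t..T, fC δ c α r := by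
    have h2 : ∫ r in (t - T)..(T - T), fC δ c α (r + T) = ∫ r in (t - T + T)..(T - T + T),
        fC δ c α r := intervalIntegral.integral_comp_add_right (fun r => fC δ c α r) T
    rw [sub_add_cancel, sub_self, zero_add] at h2
    rw [← h2, ← intervalIntegral.integral_const_mul]
    apply intervalIntegral.integral_congr
    intro r _
    show fC δ c α r = Real.exp (-(α T + δ * T)) * fC δ c α (r + T)
    rw [fC_period hα hc.per, ← mul_assoc, ← Real.exp_add, neg_add_cancel, Real.exp_zero, one_mul]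
  have h3 := intervalIntegral.integral_add_adjacent_intervals (hii (t - T) 0) (hii 0 t)
  have e1 : -α t - δ * t = -(α t + δ * t) := by ring
  have e2 : -α T - δ * T = -(α T + δ * T) := by ring
  unfold stateS CC prim
  rw [e1, e2, ← h3, h1]
  unfold fC
  have := (one_sub_exp_pos hκ).ne'
  field_simp
  ring

lemma cost_eq (hT : 0 < T) (hδ : 0 < δ) (hα : Ctrl T α) (hc : Wt T c) :
    cost T δ c w α =
      1 / T * ∫ t in (0 : ℝ)..T, w t * Real.exp (-(α t + δ * t)) * CC T δ c α t := by
  unfold cost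
  congr 1
  apply intervalIntegral.integral_congr
  intro t _
  show w t * stateS T δ c α t = w t * Real.exp (-(α t + δ * t)) * CC T δ c α t
  rw [stateS_eq hT hδ hα hc]
  ring

lemma cost_congr {β' : ℝ → ℝ} {k : ℝ} (hT' : β' T = β T)
    (hae : ∀ᵐ r, (c r = 0 ∧ w r = 0) ∨ β' r = β r - k) :
    cost T δ c w β' = cost T δ c w β := by
  have h1 : ∀ a b : ℝ, ∫ r in a..b, c r * Real.exp (β' r + δ * r) =
      Real.exp (-k) * ∫ r in a..b, c r * Real.exp (β r + δ * r) := by
    intro a b
    rw [← intervalIntegral.integral_const_mul]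
    apply intervalIntegral.integral_congr_ae
    filter_upwards [hae] with r hr _
    rcases hr with hr | hr
    · rw [hr.1]; ring
    · rw [hr, show β r - k + δ * r = -k + (β r + δ * r) by ring, Real.exp_add]
      ring
  unfold cost
  congr 1
  apply intervalIntegral.integral_congr_ae
  filter_upwards [hae] with t ht _
  rcases ht with ht | ht
  · rw [ht.2]; ring
  · unfold stateS
    rw [h1, h1, hT', ht, show -(β t - k) - δ * t = k + (-β t - δ * t) by ring, Real.exp_add]
    have hk : Real.exp k * Real.exp (-k) = 1 := by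
      rw [← Real.exp_add, add_neg_cancel, Real.exp_zero]
    set A := ∫ r in (0 : ℝ)..t, c r * Real.exp (β r + δ * r)
    set B := ∫ r in t..T, c r * Real.exp (β r + δ * r)
    set E := Real.exp (-β t - δ * t)
    set F := Real.exp (-β T - δ * T)
    calc w t * (Real.exp k * E / (1 - F) * (Real.exp (-k) * A + F * (Real.exp (-k) * B))) =
          (Real.exp k * Real.exp (-k)) * (w t * (E / (1 - F) * (A + F * B))) := by ring
      _ = w t * (E / (1 - F) * (A + F * B)) := by rw [hk, one_mul]

end cost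

section variation

variable {T δ : ℝ} {c w α β : ℝ → ℝ}

lemma Ctrl.diff_periodic (hα : Ctrl T α) (hβ : Ctrl T β) (h : β T = α T) :
    Periodic (fun r => β r - α r) T := by
  intro r
  show β (r + T) - α (r + T) = β r - α r
  rw [hα.per, hβ.per, h]
  ring

lemma Ctrl.diff_bound (hT : 0 < T) (hα : Ctrl T α) (hβ : Ctrl T β) (h : β T = α T) (r : ℝ) :
    |β r - α r| ≤ α T := by
  obtain ⟨y, hy, hy2⟩ := (hα.diff_periodic hβ h).exists_mem_Ico₀ hT r
  have hy3 : β r - α r = β y - α y := hy2
  rw [hy3, abs_le]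
  have a1 := hα.mono hy.1
  have a2 := hα.mono hy.2.le
  have a3 := hβ.mono hy.1
  have a4 := hβ.mono hy.2.le
  rw [hα.zero] at a1
  rw [hβ.zero] at a3
  constructor <;> linarith

lemma Ctrl.convex (hα : Ctrl T α) (hβ : Ctrl T β) {s : ℝ} (hs0 : 0 ≤ s) (hs1 : s ≤ 1) :
    Ctrl T (fun r => α r + s * (β r - α r)) where
  mono := fun x y hxy => by
    have h1 := hα.mono hxy
    have h2 := hβ.mono hxy
    show α x + s * (β x - α x) ≤ α y + s * (β y - α y)
    nlinarith
  zero := by
    show α 0 + s * (β 0 - α 0) = 0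
    rw [hα.zero, hβ.zero]; ring
  per := fun t => by
    show α (t + T) + s * (β (t + T) - α (t + T)) =
      α t + s * (β t - α t) + (α T + s * (β T - α T))
    rw [hα.per, hβ.per]; ring

/-- The variation of the growing factor. -/
noncomputable def FF (T δ : ℝ) (c α β : ℝ → ℝ) (t : ℝ) : ℝ :=
  prim (α T + δ * T) T (fun r => (β r - α r) * fC δ c α r) t

lemma ii_hfC (hT : 0 < T) (hδ : 0 < δ) (hα : Ctrl T α) (hβ : Ctrl T β) (h : β T = α T)
    (hc : Wt T c) (a b : ℝ) :
    IntervalIntegrable (fun r => (β r - α r) * fC δ c α r) volume a b :=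
  ii_bdd_mul (hβ.mono.measurable.sub hα.mono.measurable)
    (fun r _ => hα.diff_bound hT hβ h r) (ii_fC hδ.le hα.mono hc.int a b)

lemma hfC_period (hα : Ctrl T α) (hβ : Ctrl T β) (h : β T = α T) (hc : Wt T c) (r : ℝ) :
    (fun r => (β r - α r) * fC δ c α r) (r + T) =
      Real.exp (α T + δ * T) * (fun r => (β r - α r) * fC δ c α r) r := by
  have h1 := hα.diff_periodic hβ h r
  have h1' : β (r + T) - α (r + T) = β r - α r := h1
  simp only
  rw [h1', fC_period hα hc.per]
  ring

lemma FF_prm (hT : 0 < T) (hδ : 0 < δ) (hα : Ctrl T α) (hβ : Ctrl T β) (h : β T = α T)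
    (hc : Wt T c) : Prm (FF T δ c α β) (fun r => (β r - α r) * fC δ c α r) where
  int := ii_hfC hT hδ hα hβ h hc
  sub := fun a b => prim_sub (kappa_pos hT hδ hα) (ii_hfC hT hδ hα hβ h hc)
    (hfC_period hα hβ h hc) a b

lemma FF_per (hα : Ctrl T α) (hβ : Ctrl T β) (h : β T = α T) (hc : Wt T c) (t : ℝ) :
    FF T δ c α β (t + T) = Real.exp (α T + δ * T) * FF T δ c α β t :=
  prim_add_period (hfC_period hα hβ h hc) t

lemma CC_prm (hT : 0 < T) (hδ : 0 < δ) (hα : Ctrl T α) (hc : Wt T c) :
    Prm (CC T δ c α) (fC δ c α) where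
  int := ii_fC hδ.le hα.mono hc.int
  sub := fun a b => CC_sub hT hδ hα hc a b

lemma WW_prm (hT : 0 < T) (hδ : 0 < δ) (hα : Ctrl T α) (hw : Wt T w) :
    Prm (WW T δ w α) (fun r => -(w r * Real.exp (-(α r + δ * r)))) where
  int := fun a b => (ii_fW hδ.le hα.mono hw.int a b).neg
  sub := fun a b => by
    rw [intervalIntegral.integral_neg, ← WW_sub hT hδ hα hw]
    ring

/-- Pointwise estimate of the perturbed state. -/
lemma var_bound (hT : 0 < T) (hδ : 0 < δ) (hα : Ctrl T α) (hβ : Ctrl T β) (h : β T = α T)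
    (hc : Wt T c) {s : ℝ} (hs0 : 0 ≤ s) (hs2 : s * (2 * α T) ≤ 1) (t : ℝ) :
    Real.exp (-((α t + s * (β t - α t)) + δ * t)) *
        CC T δ c (fun r => α r + s * (β r - α r)) t ≤
      Real.exp (-(α t + δ * t)) * (CC T δ c α t +
        s * (FF T δ c α β t - (β t - α t) * CC T δ c α t) +
        s ^ 2 * ((2 * α T) ^ 2 * CC T δ c α t)) := by
  have hκ := kappa_pos hT hδ hα
  have hq := one_sub_exp_pos hκ
  have hαT := hα.T_nonneg hT.le
  have e0 : -((α t + s * (β t - α t)) + δ * t) = -(α t + δ * t) + -(s * (β t - α t)) := by ring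
  rw [e0, Real.exp_add, mul_assoc]
  apply mul_le_mul_of_nonneg_left _ (Real.exp_pos _).le
  have e1 : α T + s * (β T - α T) + δ * T = α T + δ * T := by rw [h]; ring
  unfold CC FF prim
  rw [e1]
  set q := (1 - Real.exp (-(α T + δ * T)))⁻¹ with hqdef
  have hq0 : 0 ≤ q := inv_nonneg.mpr hq.le
  have key : Real.exp (-(s * (β t - α t))) *
      ∫ r in (t - T)..t, fC δ c (fun r => α r + s * (β r - α r)) r ≤
      (1 + s ^ 2 * (2 * α T) ^ 2 - s * (β t - α t)) * (∫ r in (t - T)..t, fC δ c α r) +
        s * ∫ r in (t - T)..t, (β r - α r) * fC δ c α r := by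
    rw [← intervalIntegral.integral_const_mul, ← intervalIntegral.integral_const_mul,
      ← intervalIntegral.integral_const_mul, ← intervalIntegral.integral_add]
    rotate_left
    · exact (ii_fC hδ.le hα.mono hc.int _ _).const_mul _
    · exact (ii_hfC hT hδ hα hβ h hc _ _).const_mul _
    have hii2 : IntervalIntegrable (fC δ c (fun r => α r + s * (β r - α r))) volume (t - T) t := by
      have : fC δ c (fun r => α r + s * (β r - α r)) =
          fun r => Real.exp (s * (β r - α r)) * fC δ c α r := by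
        ext r
        unfold fC
        rw [show α r + s * (β r - α r) + δ * r = s * (β r - α r) + (α r + δ * r) by ring,
          Real.exp_add]
        ring
      rw [this]
      apply ii_bdd_mul (K := Real.exp (s * α T)) _ _ (ii_fC hδ.le hα.mono hc.int _ _)
      · exact Real.measurable_exp.comp
          (measurable_const.mul (hβ.mono.measurable.sub hα.mono.measurable))
      · intro r _
        rw [abs_of_pos (Real.exp_pos _)]
        apply Real.exp_le_exp.mpr
        apply mul_le_mul_of_nonneg_left _ hs0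
        exact (le_abs_self _).trans (hα.diff_bound hT hβ h r)
    apply intervalIntegral.integral_mono_on (by linarith) (hii2.const_mul _)
      (((ii_fC hδ.le hα.mono hc.int _ _).const_mul _).add
        ((ii_hfC hT hδ hα hβ h hc _ _).const_mul _))
    intro r _
    have b1 := hα.diff_bound hT hβ h r
    have b2 := hα.diff_bound hT hβ h t
    set hr := β r - α r
    set ht := β t - α t
    have b3 : |hr - ht| ≤ 2 * α T := by
      have := abs_sub hr ht
      linarith
    have b4 : |s * (hr - ht)| ≤ 1 := by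
      rw [abs_mul, abs_of_nonneg hs0]
      exact (mul_le_mul_of_nonneg_left b3 hs0).trans hs2
    have b5 := Real.abs_exp_sub_one_sub_id_le b4
    have b6 : (s * (hr - ht)) ^ 2 ≤ s ^ 2 * (2 * α T) ^ 2 := by
      rw [mul_pow]
      apply mul_le_mul_of_nonneg_left _ (sq_nonneg s)
      rw [← sq_abs]
      exact pow_le_pow_left₀ (abs_nonneg _) b3 2
    have b7 : Real.exp (s * (hr - ht)) ≤ 1 + s ^ 2 * (2 * α T) ^ 2 - s * ht + s * hr := by
      have := (abs_le.mp b5).2
      linarith
    have b8 : Real.exp (-(s * ht)) * fC δ c (fun r => α r + s * (β r - α r)) r =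
        Real.exp (s * (hr - ht)) * fC δ c α r := by
      show Real.exp (-(s * ht)) * (c r * Real.exp (α r + s * hr + δ * r)) =
        Real.exp (s * (hr - ht)) * (c r * Real.exp (α r + δ * r))
      rw [show Real.exp (-(s * ht)) * (c r * Real.exp (α r + s * hr + δ * r)) =
        c r * (Real.exp (-(s * ht)) * Real.exp (α r + s * hr + δ * r)) by ring, ← Real.exp_add,
        show Real.exp (s * (hr - ht)) * (c r * Real.exp (α r + δ * r)) =
        c r * (Real.exp (s * (hr - ht)) * Real.exp (α r + δ * r)) by ring, ← Real.exp_add]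
      congr 2
      ring
    rw [b8]
    have b9 := mul_le_mul_of_nonneg_right b7 (fC_nonneg (δ := δ) (α := α) hc.nonneg r)
    linarith
  have key2 := mul_le_mul_of_nonneg_left key hq0
  linarith

/-- The derivative of the product. -/
noncomputable def dG (T δ : ℝ) (c w α : ℝ → ℝ) (r : ℝ) : ℝ :=
  fC δ c α r * WW T δ w α r + CC T δ c α r * -(w r * Real.exp (-(α r + δ * r)))

lemma GG_prm (hT : 0 < T) (hδ : 0 < δ) (hα : Ctrl T α) (hc : Wt T c) (hw : Wt T w) :
    Prm (GG T δ c w α) (dG T δ c w α) :=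
  (CC_prm hT hδ hα hc).mul (WW_prm hT hδ hα hw)

lemma dG_per (hα : Ctrl T α) (hc : Wt T c) (hw : Wt T w) : Periodic (dG T δ c w α) T := by
  intro r
  unfold dG
  have h1 := fC_period (δ := δ) hα hc.per r
  have h2 := WW_per (δ := δ) hα hw r
  have h3 := CC_per (δ := δ) hα hc r
  have h4 : Real.exp (-(α (r + T) + δ * (r + T))) =
      Real.exp (-(α T + δ * T)) * Real.exp (-(α r + δ * r)) := by
    rw [← Real.exp_add, hα.per]
    congr 1
    ring
  rw [h1, h2, h3, h4, hw.per r]
  have h5 : Real.exp (α T + δ * T) * Real.exp (-(α T + δ * T)) = 1 := by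
    rw [← Real.exp_add, add_neg_cancel, Real.exp_zero]
  linear_combination (fC δ c α r * WW T δ w α r +
    CC T δ c α r * -(w r * Real.exp (-(α r + δ * r)))) * h5

/-- The first variation is nonnegative at a minimiser. -/
lemma first_variation (hT : 0 < T) (hδ : 0 < δ) (hα : Ctrl T α) (hc : Wt T c) (hw : Wt T w)
    (hmin : ∀ β, Ctrl T β → β T = α T → cost T δ c w α ≤ cost T δ c w β)
    (hβ : Ctrl T β) (h : β T = α T) :
    0 ≤ ∫ r in (0 : ℝ)..T, (β r - α r) * dG T δ c w α r := by
  set g : ℝ → ℝ := fun r => w r * Real.exp (-(α r + δ * r)) with hg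
  have hgi : ∀ a b, IntervalIntegrable g volume a b := ii_fW hδ.le hα.mono hw.int
  have hgnn : ∀ r, 0 ≤ g r := fun r => mul_nonneg (hw.nonneg r) (Real.exp_pos _).le
  have hCc := continuous_CC hT hδ hα hc
  have hFc := (FF_prm hT hδ hα hβ h hc).continuous
  have hhm : Measurable fun r => β r - α r := hβ.mono.measurable.sub hα.mono.measurable
  have hhb := hα.diff_bound hT hβ h
  have hαT := hα.T_nonneg hT.le
  -- integrability of the pieces
  have i1 : IntervalIntegrable (fun r => g r * CC T δ c α r) volume 0 T :=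
    (hgi 0 T).mul_continuousOn hCc.continuousOn
  have i2 : IntervalIntegrable (fun r => g r * FF T δ c α β r) volume 0 T :=
    (hgi 0 T).mul_continuousOn hFc.continuousOn
  have i3 : IntervalIntegrable (fun r => (β r - α r) * (g r * CC T δ c α r)) volume 0 T :=
    ii_bdd_mul hhm (fun r _ => hhb r) i1
  set D := (∫ r in (0 : ℝ)..T, g r * FF T δ c α β r) -
    ∫ r in (0 : ℝ)..T, (β r - α r) * (g r * CC T δ c α r) with hD
  set K := (2 * α T) ^ 2 * ∫ r in (0 : ℝ)..T, g r * CC T δ c α r with hK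
  -- the expansion
  have hexp : ∀ s : ℝ, 0 < s → s ≤ 1 → s * (2 * α T) ≤ 1 → 0 ≤ D + s * K := by
    intro s hs0 hs1 hs2
    have hαs := hα.convex hβ hs0.le hs1
    have hbud : (fun r => α r + s * (β r - α r)) T = α T := by
      show α T + s * (β T - α T) = α T
      rw [h]; ring
    have h1 := hmin _ hαs hbud
    rw [cost_eq hT hδ hα hc, cost_eq hT hδ hαs hc] at h1
    have h2 := le_of_mul_le_mul_left h1 (by positivity)
    have h3 : ∫ t in (0 : ℝ)..T, w t * Real.exp (-((α t + s * (β t - α t)) + δ * t)) *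
        CC T δ c (fun r => α r + s * (β r - α r)) t ≤
        ∫ t in (0 : ℝ)..T, (g t * CC T δ c α t + s * (g t * FF T δ c α β t) -
          s * ((β t - α t) * (g t * CC T δ c α t)) +
          s ^ 2 * ((2 * α T) ^ 2 * (g t * CC T δ c α t))) := by
      apply intervalIntegral.integral_mono_on hT.le
      · exact (ii_fW hδ.le hαs.mono hw.int 0 T).mul_continuousOn
          (continuous_CC hT hδ hαs hc).continuousOn
      · exact ((i1.add (i2.const_mul s)).sub (i3.const_mul s)).add
          ((i1.const_mul _).const_mul _)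
      · intro t _
        have h4 := mul_le_mul_of_nonneg_left (var_bound hT hδ hα hβ h hc hs0.le hs2 t)
          (hw.nonneg t)
        simp only [hg]
        linarith
    have h5 : ∫ t in (0 : ℝ)..T, (g t * CC T δ c α t + s * (g t * FF T δ c α β t) -
          s * ((β t - α t) * (g t * CC T δ c α t)) +
          s ^ 2 * ((2 * α T) ^ 2 * (g t * CC T δ c α t))) =
        (∫ t in (0 : ℝ)..T, g t * CC T δ c α t) + s * D + s ^ 2 * K := by
      rw [intervalIntegral.integral_add ((i1.add (i2.const_mul s)).sub (i3.const_mul s))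
        ((i1.const_mul _).const_mul _),
        intervalIntegral.integral_sub (i1.add (i2.const_mul s)) (i3.const_mul s),
        intervalIntegral.integral_add i1 (i2.const_mul s),
        intervalIntegral.integral_const_mul, intervalIntegral.integral_const_mul,
        intervalIntegral.integral_const_mul, intervalIntegral.integral_const_mul, hD, hK]
      ring
    have h6 : 0 ≤ s * D + s ^ 2 * K := by linarith
    have h7 : 0 ≤ s * (D + s * K) := by linarith
    exact nonneg_of_mul_nonneg_right h7 hs0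
  have hD0 : 0 ≤ D := by
    have hlim : Tendsto (fun s : ℝ => D + s * K) (𝓝[>] 0) (𝓝 (D + 0 * K)) :=
      (Continuous.tendsto (by fun_prop) 0).mono_left nhdsWithin_le_nhds
    rw [zero_mul, add_zero] at hlim
    apply ge_of_tendsto hlim
    filter_upwards [Ioo_mem_nhdsGT (show (0 : ℝ) < min 1 (1 / (2 * α T + 1)) by positivity)]
      with s hs
    have a1 : s ≤ 1 := hs.2.le.trans (min_le_left _ _)
    have a2 : s ≤ 1 / (2 * α T + 1) := hs.2.le.trans (min_le_right _ _)
    rw [le_div_iff₀ (by positivity)] at a2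
    exact hexp s hs.1 a1 (by nlinarith [hs.1])
  -- integration by parts
  have hibp := (FF_prm hT hδ hα hβ h hc).ibp (WW_prm hT hδ hα hw) 0 T
  have hzero : FF T δ c α β T * WW T δ w α T - FF T δ c α β 0 * WW T δ w α 0 = 0 := by
    have h1 := FF_per (δ := δ) hα hβ h hc 0
    have h2 := WW_per (δ := δ) hα hw 0
    rw [zero_add] at h1 h2
    rw [h1, h2]
    have h5 : Real.exp (α T + δ * T) * Real.exp (-(α T + δ * T)) = 1 := by
      rw [← Real.exp_add, add_neg_cancel, Real.exp_zero]
    linear_combination (FF T δ c α β 0 * WW T δ w α 0) * h5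
  rw [hzero] at hibp
  have i4 : IntervalIntegrable (fun r => (β r - α r) * fC δ c α r * WW T δ w α r) volume 0 T :=
    (ii_hfC hT hδ hα hβ h hc 0 T).mul_continuousOn (continuous_WW hT hδ hα hw).continuousOn
  have h8 : ∫ r in (0 : ℝ)..T, ((β r - α r) * fC δ c α r * WW T δ w α r +
      FF T δ c α β r * -(w r * Real.exp (-(α r + δ * r)))) =
      (∫ r in (0 : ℝ)..T, (β r - α r) * fC δ c α r * WW T δ w α r) -
        ∫ r in (0 : ℝ)..T, g r * FF T δ c α β r := by
    rw [← intervalIntegral.integral_sub i4 i2]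
    apply intervalIntegral.integral_congr
    intro r _
    simp only [hg]
    ring
  have h9 : ∫ r in (0 : ℝ)..T, (β r - α r) * dG T δ c w α r =
      (∫ r in (0 : ℝ)..T, (β r - α r) * fC δ c α r * WW T δ w α r) -
        ∫ r in (0 : ℝ)..T, (β r - α r) * (g r * CC T δ c α r) := by
    rw [← intervalIntegral.integral_sub i4 i3]
    apply intervalIntegral.integral_congr
    intro r _
    simp only [hg, dG]
    ring
  rw [h9]
  have h10 : (∫ r in (0 : ℝ)..T, (β r - α r) * fC δ c α r * WW T δ w α r) =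
      ∫ r in (0 : ℝ)..T, g r * FF T δ c α β r := by
    rw [h8] at hibp
    linarith
  rw [h10]
  exact hD0

/-- The pure jump control. -/
lemma jump_ctrl (hT : 0 < T) {M : ℝ} (hM : 0 ≤ M) (x₀ : ℝ) :
    Ctrl T (fun t => M * (⌊(t - x₀) / T⌋ - ⌊-x₀ / T⌋)) where
  mono := fun x y hxy => by
    show M * ((⌊(x - x₀) / T⌋ : ℝ) - ⌊-x₀ / T⌋) ≤ M * ((⌊(y - x₀) / T⌋ : ℝ) - ⌊-x₀ / T⌋)
    apply mul_le_mul_of_nonneg_left _ hM
    have h1 : ⌊(x - x₀) / T⌋ ≤ ⌊(y - x₀) / T⌋ := by
      apply Int.floor_le_floor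
      gcongr
    have h2 : (⌊(x - x₀) / T⌋ : ℝ) ≤ ⌊(y - x₀) / T⌋ := by exact_mod_cast h1
    linarith
  zero := by simp
  per := fun t => by
    have h1 : (t + T - x₀) / T = (t - x₀) / T + 1 := by field_simp; ring
    have h2 : (T - x₀) / T = -x₀ / T + 1 := by field_simp; ring
    show M * ((⌊(t + T - x₀) / T⌋ : ℝ) - ⌊-x₀ / T⌋) =
      M * ((⌊(t - x₀) / T⌋ : ℝ) - ⌊-x₀ / T⌋) + M * ((⌊(T - x₀) / T⌋ : ℝ) - ⌊-x₀ / T⌋)
    rw [h1, h2, Int.floor_add_one, Int.floor_add_one]
    push_cast
    ring

/-- The optimality condition. -/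
theorem kkt (hT : 0 < T) (hδ : 0 < δ) (hα : Ctrl T α) (hc : Wt T c) (hw : Wt T w)
    (hmin : ∀ β, Ctrl T β → β T = α T → cost T δ c w α ≤ cost T δ c w β) :
    ∃ lam, (∀ t, GG T δ c w α t ≤ lam) ∧ ∀ t ∈ Supp α, GG T δ c w α t = lam := by
  have hGc := continuous_GG hT hδ hα hc hw
  have hGp := GG_per (δ := δ) hα hc hw
  obtain ⟨x₀, hx₀, hmax⟩ := isCompact_Icc.exists_isMaxOn (nonempty_Icc.mpr hT.le)
    hGc.continuousOn
  have hle : ∀ t, GG T δ c w α t ≤ GG T δ c w α x₀ := by
    intro t
    obtain ⟨y, hy, hy2⟩ := hGp.exists_mem_Ico₀ hT t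
    rw [hy2]
    exact hmax ⟨hy.1, hy.2.le⟩
  refine ⟨GG T δ c w α x₀, hle, fun i hi => ?_⟩
  by_contra hne
  have hlt : GG T δ c w α i < GG T δ c w α x₀ := lt_of_le_of_ne (hle i) hne
  -- shift the maximum point
  set k := ⌊(i - x₀) / T⌋ with hk
  set x₁ := x₀ + k * T with hx₁
  have hGx₁ : GG T δ c w α x₁ = GG T δ c w α x₀ := by
    have := hGp.int_mul k x₀
    rw [hx₁]
    exact this
  have h1 : x₁ ≤ i := by
    have := Int.floor_le ((i - x₀) / T)
    rw [le_div_iff₀ hT] at this
    rw [hx₁]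
    linarith
  have h2 : i < x₁ + T := by
    have := Int.lt_floor_add_one ((i - x₀) / T)
    rw [div_lt_iff₀ hT] at this
    rw [hx₁]
    linarith
  have h1' : x₁ < i := lt_of_le_of_ne h1 fun h => by
    rw [← h, hGx₁] at hlt
    exact lt_irrefl _ hlt
  have hG := GG_prm hT hδ hα hc hw
  have hu := hG.const_sub (GG T δ c w α x₀)
  have hGx₁T : GG T δ c w α (x₁ + T) = GG T δ c w α x₀ := by rw [hGp, hGx₁]
  have h3 := stieltjes_strict hα.mono hu (x := x₁) (y := x₁ + T) (i := i)
    (fun r => by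
      show 0 ≤ GG T δ c w α x₀ - GG T δ c w α r
      linarith [hle r])
    (by
      show GG T δ c w α x₀ - GG T δ c w α x₁ = 0
      rw [hGx₁, sub_self])
    (by
      show GG T δ c w α x₀ - GG T δ c w α (x₁ + T) = 0
      rw [hGx₁T, sub_self])
    ⟨h1', h2⟩ hi
    (by
      show 0 < GG T δ c w α x₀ - GG T δ c w α i
      linarith)
  -- the competitor
  have hαT := hα.T_nonneg hT.le
  set β : ℝ → ℝ := fun t => α T * (⌊(t - x₁) / T⌋ - ⌊-x₁ / T⌋) with hβ
  have hβc : Ctrl T β := jump_ctrl hT hαT x₁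
  have hβT : β T = α T := by
    have h2 : (T - x₁) / T = -x₁ / T + 1 := by field_simp; ring
    show α T * ((⌊(T - x₁) / T⌋ : ℝ) - ⌊-x₁ / T⌋) = α T
    rw [h2, Int.floor_add_one]
    push_cast
    ring
  have h4 := first_variation hT hδ hα hc hw hmin hβc hβT
  have hper : Periodic (fun r => (β r - α r) * dG T δ c w α r) T := by
    intro r
    have a1 : β (r + T) - α (r + T) = β r - α r := hα.diff_periodic hβc hβT r
    show (β (r + T) - α (r + T)) * dG T δ c w α (r + T) = (β r - α r) * dG T δ c w α r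
    rw [a1, dG_per hα hc hw r]
  have h5 := hper.intervalIntegral_add_eq 0 x₁
  rw [zero_add] at h5
  rw [h5] at h4
  have h6 : ∫ r in x₁..(x₁ + T), (β r - α r) * dG T δ c w α r =
      (∫ r in x₁..(x₁ + T), (-(α T * ⌊-x₁ / T⌋)) * dG T δ c w α r) +
        ∫ r in x₁..(x₁ + T), α r * -dG T δ c w α r := by
    rw [← intervalIntegral.integral_add ((hG.int _ _).const_mul _)
      (ii_mono_mul hα.mono hu.int _ _)]
    rw [intervalIntegral.integral_of_le (by linarith), intervalIntegral.integral_of_le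
      (by linarith), integral_Ioc_eq_integral_Ioo, integral_Ioc_eq_integral_Ioo]
    apply setIntegral_congr_fun measurableSet_Ioo
    intro r hr
    have b1 : ⌊(r - x₁) / T⌋ = 0 := by
      rw [Int.floor_eq_zero_iff]
      constructor
      · apply div_nonneg _ hT.le
        linarith [hr.1]
      · rw [div_lt_one hT]
        linarith [hr.2]
    simp only [hβ, b1]
    push_cast
    ring
  rw [h6, intervalIntegral.integral_const_mul, ← hG.sub, hGx₁, hGx₁T, sub_self, mul_zero,
    zero_add] at h4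
  linarith

end variation

end Q76.Effort
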