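import Mathlib
import Pool.Agent.Q76.EffortVar

/-!
# Consequences of the uniqueness of the minimiser, and the comparison of two minimisers
-/

namespace Q76.Effort

open MeasureTheory Set Filter Topology Function

section nd

variable {T δ : ℝ} {c w α : ℝ → ℝ}

/-- The periodic extension of a closed interval. -/
def FS (T a b : ℝ) : Set ℝ := {t | ∃ k : ℤ, t + k * T ∈ Icc a b}

lemma FS_add {T a b t : ℝ} : t + T ∈ FS T a b ↔ t ∈ FS T a b := by
  unfold FS
  simp only [Set.mem_ofPred_eq]
  constructor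
  · rintro ⟨k, hk⟩
    refine ⟨k + 1, ?_⟩
    push_cast
    rwa [show t + (k + 1) * T = t + T + k * T by ring]
  · rintro ⟨k, hk⟩
    refine ⟨k - 1, ?_⟩
    push_cast
    rwa [show t + T + (k - 1) * T = t + k * T by ring]

lemma FS_add_nat {T a b t : ℝ} (n : ℕ) : t + n * T ∈ FS T a b ↔ t ∈ FS T a b := by
  induction n with
  | zero => simp
  | succ n ih =>
    rw [← ih, ← FS_add (t := t + n * T)]
    push_cast
    rw [show t + (n + 1) * T = t + n * T + T by ring]

lemma FS_ae (hc : Wt T c) (hw : Wt T w) {a b : ℝ}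
    (hae : ∀ᵐ r, r ∈ Ioo a b → c r = 0 ∧ w r = 0) :
    ∀ᵐ r, r ∈ FS T a b → c r = 0 ∧ w r = 0 := by
  have h1 : ∀ᵐ r, r ∈ Icc a b → c r = 0 ∧ w r = 0 := by
    have e1 : ∀ᵐ r : ℝ, r ≠ a := by simp [ae_iff, measure_singleton]
    have e2 : ∀ᵐ r : ℝ, r ≠ b := by simp [ae_iff, measure_singleton]
    filter_upwards [hae, e1, e2] with r h1 h2 h3 h4
    exact h1 ⟨lt_of_le_of_ne h4.1 (Ne.symm h2), lt_of_le_of_ne h4.2 h3⟩
  have h2 : ∀ k : ℤ, ∀ᵐ r, r + k * T ∈ Icc a b → c r = 0 ∧ w r = 0 := by
    intro k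
    have h3 := (measurePreserving_add_right (volume : Measure ℝ) (k * T)).quasiMeasurePreserving.ae
      h1
    filter_upwards [h3] with r hr hr2
    have h4 := hr hr2
    have h5 := (hc.per.int_mul k) r
    have h6 := (hw.per.int_mul k) r
    rw [← h5, ← h6]
    exact h4
  have h3 := ae_all_iff.mpr h2
  filter_upwards [h3] with r hr ⟨k, hk⟩
  exact hr k hk

lemma exists_not_FS (hc : Wt T c) (hw : Wt T w) {a b : ℝ}
    (hae : ∀ᵐ r, r ∈ Ioo a b → c r = 0 ∧ w r = 0) : ∃ᵐ r : ℝ, r ∉ FS T a b := by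
  intro h
  have h1 : ∀ᵐ r : ℝ, c r = 0 := by
    filter_upwards [h, FS_ae hc hw hae] with r h1 h2
    by_cases h3 : r ∈ FS T a b
    · exact (h2 h3).1
    · exact absurd h3 h1
  have h2 : ∫ r in (0 : ℝ)..T, c r = ∫ r in (0 : ℝ)..T, (0 : ℝ) := by
    apply intervalIntegral.integral_congr_ae
    filter_upwards [h1] with r hr _
    exact hr
  have := hc.pos
  rw [h2] at this
  simp at this

lemma exists_not_FS_le (hT : 0 < T) {a b : ℝ} (hne : ∃ r : ℝ, r ∉ FS T a b) (t : ℝ) :
    ∃ r ≤ t, r ∉ FS T a b := by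
  obtain ⟨r, hr⟩ := hne
  obtain ⟨n, hn⟩ := exists_nat_ge ((r - t) / T)
  rw [div_le_iff₀ hT] at hn
  refine ⟨r - n * T, by linarith, fun h => hr ?_⟩
  have := (FS_add_nat (T := T) (a := a) (b := b) (t := r - n * T) n).mpr h
  rwa [sub_add_cancel] at this

lemma exists_not_FS_ge (hT : 0 < T) {a b : ℝ} (hne : ∃ r : ℝ, r ∉ FS T a b) (t : ℝ) :
    ∃ r ≥ t, r ∉ FS T a b := by
  obtain ⟨r, hr⟩ := hne
  obtain ⟨n, hn⟩ := exists_nat_ge ((t - r) / T)
  rw [div_le_iff₀ hT] at hn
  exact ⟨r + n * T, by linarith, fun h => hr ((FS_add_nat n).mp h)⟩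

/-- Uniqueness up to constants and null sets. -/
def Uniq (T δ : ℝ) (c w α : ℝ → ℝ) : Prop :=
  ∀ β, Ctrl T β → β T = α T → cost T δ c w β ≤ cost T δ c w α → ∃ k, ∀ᵐ r, β r = α r + k

lemma ae_eq_of_eq_off (hc : Wt T c) (hw : Wt T w) (hu : Uniq T δ c w α) {a b : ℝ}
    (hae : ∀ᵐ r, r ∈ Ioo a b → c r = 0 ∧ w r = 0) {β : ℝ → ℝ} (hβm : Monotone β)
    (hβp : ∀ t, β (t + T) = β t + α T) (hβ : ∀ t, t ∉ FS T a b → β t = α t) :
    ∀ᵐ r, β r = α r := by
  have hF := FS_ae hc hw hae
  set γ : ℝ → ℝ := fun t => β t - β 0 with hγ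
  have hγT : γ T = α T := by
    have := hβp 0
    rw [zero_add] at this
    show β T - β 0 = α T
    rw [this]; ring
  have hγc : Ctrl T γ := by
    refine ⟨fun x y hxy => ?_, ?_, fun t => ?_⟩
    · show β x - β 0 ≤ β y - β 0
      linarith [hβm hxy]
    · show β 0 - β 0 = 0
      ring
    · rw [hγT]
      show β (t + T) - β 0 = β t - β 0 + α T
      rw [hβp]; ring
  have hcost : cost T δ c w γ = cost T δ c w α := by
    apply cost_congr (k := β 0) hγT
    filter_upwards [hF] with r hr
    by_cases h : r ∈ FS T a b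
    · exact Or.inl (hr h)
    · right
      show β r - β 0 = α r - β 0
      rw [hβ r h]
  obtain ⟨k, hk⟩ := hu γ hγc hγT hcost.le
  obtain ⟨r, hr1, hr2⟩ := ((exists_not_FS hc hw hae).and_eventually hk).exists
  have h1 : β r - β 0 = α r + k := hr2
  rw [hβ r hr1] at h1
  filter_upwards [hk] with s hs
  have h2 : β s - β 0 = α s + k := hs
  linarith

lemma nd_of_uniq (hT : 0 < T) (hα : Ctrl T α) (hc : Wt T c) (hw : Wt T w)
    (hu : Uniq T δ c w α) : ND c w α := by
  intro a b hab hae
  have hm := hα.mono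
  have hne : ∃ r : ℝ, r ∉ FS T a b := (exists_not_FS hc hw hae).exists
  have hab_sub : ∀ s ∈ Icc a b, s ∈ FS T a b := fun s hs => ⟨0, by simpa using hs⟩
  -- effort moved to the right end
  set S₁ : ℝ → Set ℝ := fun t => α '' {s | s ≤ t ∧ s ∉ FS T a b} with hS₁
  have hS₁ne : ∀ t, (S₁ t).Nonempty := fun t => by
    obtain ⟨r, hr, hr2⟩ := exists_not_FS_le hT hne t
    exact ⟨α r, r, ⟨hr, hr2⟩, rfl⟩
  have hS₁b : ∀ t, BddAbove (S₁ t) := fun t => ⟨α t, by
    rintro _ ⟨s, hs, rfl⟩
    exact hm hs.1⟩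
  set β₁ : ℝ → ℝ := fun t => sSup (S₁ t) with hβ₁
  have hβ₁le : ∀ s t, s ≤ t → s ∉ FS T a b → α s ≤ β₁ t := fun s t h1 h2 =>
    le_csSup (hS₁b t) ⟨s, ⟨h1, h2⟩, rfl⟩
  have hle : ∀ᵐ r, r ∈ Ioo a b → α r ≤ leftLim α a := by
    have h1 := ae_eq_of_eq_off (β := β₁) hc hw hu hae
      (fun x y hxy => by
        apply csSup_le (hS₁ne x)
        rintro _ ⟨s, hs, rfl⟩
        exact hβ₁le s y (hs.1.trans hxy) hs.2)
      (fun t => by
        apply le_antisymm
        · apply csSup_le (hS₁ne _)
          rintro _ ⟨s, hs, rfl⟩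
          have h2 : s - T ∉ FS T a b := fun h => hs.2 (by
            have := FS_add.mpr h
            rwa [sub_add_cancel] at this)
          have h3 := hβ₁le (s - T) t (by linarith [hs.1]) h2
          have h4 := hα.per (s - T)
          rw [sub_add_cancel] at h4
          linarith
        · have h5 : β₁ t ≤ β₁ (t + T) - α T := by
            apply csSup_le (hS₁ne _)
            rintro _ ⟨s, hs, rfl⟩
            have h3 := hβ₁le (s + T) (t + T) (by linarith [hs.1]) (fun h => hs.2 (FS_add.mp h))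
            have h4 := hα.per s
            linarith
          linarith)
      (fun t ht => by
        apply le_antisymm
        · apply csSup_le (hS₁ne _)
          rintro _ ⟨s, hs, rfl⟩
          exact hm hs.1
        · exact hβ₁le t t le_rfl ht)
    filter_upwards [h1] with r hr hr2
    rw [← hr]
    apply csSup_le (hS₁ne _)
    rintro _ ⟨s, hs, rfl⟩
    apply hm.le_leftLim
    by_contra hcon
    push Not at hcon
    exact hs.2 (hab_sub s ⟨hcon, hs.1.trans hr2.2.le⟩)
  -- effort moved to the left end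
  set S₂ : ℝ → Set ℝ := fun t => α '' {s | t ≤ s ∧ s ∉ FS T a b} with hS₂
  have hS₂ne : ∀ t, (S₂ t).Nonempty := fun t => by
    obtain ⟨r, hr, hr2⟩ := exists_not_FS_ge hT hne t
    exact ⟨α r, r, ⟨hr, hr2⟩, rfl⟩
  have hS₂b : ∀ t, BddBelow (S₂ t) := fun t => ⟨α t, by
    rintro _ ⟨s, hs, rfl⟩
    exact hm hs.1⟩
  set β₂ : ℝ → ℝ := fun t => sInf (S₂ t) with hβ₂
  have hβ₂le : ∀ s t, t ≤ s → s ∉ FS T a b → β₂ t ≤ α s := fun s t h1 h2 =>
    csInf_le (hS₂b t) ⟨s, ⟨h1, h2⟩, rfl⟩
  have hge : ∀ᵐ r, r ∈ Ioo a b → rightLim α b ≤ α r := by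
    have h1 := ae_eq_of_eq_off (β := β₂) hc hw hu hae
      (fun x y hxy => by
        apply le_csInf (hS₂ne y)
        rintro _ ⟨s, hs, rfl⟩
        exact hβ₂le s x (hxy.trans hs.1) hs.2)
      (fun t => by
        apply le_antisymm
        · have h5 : β₂ (t + T) - α T ≤ β₂ t := by
            apply le_csInf (hS₂ne _)
            rintro _ ⟨s, hs, rfl⟩
            have h3 := hβ₂le (s + T) (t + T) (by linarith [hs.1]) (fun h => hs.2 (FS_add.mp h))
            have h4 := hα.per s
            linarith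
          linarith
        · apply le_csInf (hS₂ne _)
          rintro _ ⟨s, hs, rfl⟩
          have h2 : s - T ∉ FS T a b := fun h => hs.2 (by
            have := FS_add.mpr h
            rwa [sub_add_cancel] at this)
          have h3 := hβ₂le (s - T) t (by linarith [hs.1]) h2
          have h4 := hα.per (s - T)
          rw [sub_add_cancel] at h4
          linarith)
      (fun t ht => by
        apply le_antisymm
        · exact hβ₂le t t le_rfl ht
        · apply le_csInf (hS₂ne _)
          rintro _ ⟨s, hs, rfl⟩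
          exact hm hs.1)
    filter_upwards [h1] with r hr hr2
    rw [← hr]
    apply le_csInf (hS₂ne _)
    rintro _ ⟨s, hs, rfl⟩
    apply hm.rightLim_le
    by_contra hcon
    push Not at hcon
    exact hs.2 (hab_sub s ⟨hr2.1.le.trans hs.1, hcon⟩)
  -- conclusion
  have hex : ∃ r ∈ Ioo a b, α r ≤ leftLim α a ∧ rightLim α b ≤ α r := by
    by_contra hcon
    push Not at hcon
    have h1 : ∀ᵐ r : ℝ, r ∉ Ioo a b := by
      filter_upwards [hle, hge] with r h1 h2 h3
      have := hcon r h3 (h1 h3)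
      linarith [h2 h3]
    have h2 : volume (Ioo a b) = 0 := by
      have h3 := ae_iff.mp h1
      have h4 : {r : ℝ | ¬ r ∉ Ioo a b} = Ioo a b := by
        ext r
        simp only [Set.mem_ofPred_eq, not_not]
      rwa [h4] at h3
    rw [Real.volume_Ioo, ENNReal.ofReal_eq_zero] at h2
    linarith
  obtain ⟨r, -, h1, h2⟩ := hex
  have := hm.leftLim_le_rightLim hab.le
  linarith

end nd

section weights

variable {T δ : ℝ} {c w : ℝ → ℝ}

lemma w_integrable_of (hT : 0 < T) (hδ : 0 < δ) {α : ℝ → ℝ} (hα : Ctrl T α) (hc : Wt T c)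
    (h : IntervalIntegrable (fun t => w t * stateS T δ c α t) volume 0 T) :
    IntervalIntegrable w volume 0 T := by
  have p := CC_pos hT hδ hα hc
  have h1 : w = fun t => (Real.exp (α t + δ * t) * (CC T δ c α t)⁻¹) *
      (w t * stateS T δ c α t) := by
    ext t
    rw [stateS_eq hT hδ hα hc]
    have e1 : Real.exp (α t + δ * t) * Real.exp (-(α t + δ * t)) = 1 := by
      rw [← Real.exp_add, add_neg_cancel, Real.exp_zero]
    have e2 : (CC T δ c α t)⁻¹ * CC T δ c α t = 1 := inv_mul_cancel₀ (p t).ne'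
    calc w t = (Real.exp (α t + δ * t) * Real.exp (-(α t + δ * t))) *
          ((CC T δ c α t)⁻¹ * CC T δ c α t) * w t := by rw [e1, e2]; ring
      _ = _ := by ring
  rw [h1]
  apply ii_bdd_mul (K := Real.exp (α T + δ * T) * (CC T δ c α 0)⁻¹) _ _ h
  · apply Measurable.mul
    · exact Real.measurable_exp.comp (hα.mono.measurable.add (measurable_const.mul measurable_id))
    · exact (continuous_CC hT hδ hα hc).measurable.inv
  · intro r hr
    rw [uIoc_of_le hT.le] at hr
    rw [abs_of_pos (mul_pos (Real.exp_pos _) (inv_pos.mpr (p r)))]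
    apply mul_le_mul (mono_exp hδ.le hα.mono hr.2) _ (inv_pos.mpr (p r)).le (Real.exp_pos _).le
    exact inv_anti₀ (p 0) (CC_mono hT hδ hα hc hr.1.le)

lemma linear_ctrl {η : ℝ} (hη : 0 < η) : Ctrl T (fun t => η * t) where
  mono := fun x y hxy => mul_le_mul_of_nonneg_left hxy hη.le
  zero := by simp
  per := fun t => by ring

lemma sin_ctrl (hT : 0 < T) {η : ℝ} (hη : 0 < η) :
    Ctrl T (fun t => η * (t + T / (2 * Real.pi) * Real.sin (2 * Real.pi / T * t))) where
  mono := by
    apply monotone_of_deriv_nonneg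
    · fun_prop
    · intro x
      have h1 : HasDerivAt (fun t : ℝ => 2 * Real.pi / T * t) (2 * Real.pi / T) x := by
        simpa using (hasDerivAt_id x).const_mul (2 * Real.pi / T)
      have h2 := ((hasDerivAt_id x).add (h1.sin.const_mul (T / (2 * Real.pi)))).const_mul η
      have h3 : HasDerivAt (fun t => η * (t + T / (2 * Real.pi) * Real.sin (2 * Real.pi / T * t)))
        (η * (1 + T / (2 * Real.pi) * (Real.cos (2 * Real.pi / T * x) * (2 * Real.pi / T)))) x := h2
      rw [h3.deriv]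
      have h4 : T / (2 * Real.pi) * (Real.cos (2 * Real.pi / T * x) * (2 * Real.pi / T)) =
          Real.cos (2 * Real.pi / T * x) := by
        have := Real.pi_pos
        field_simp
      rw [h4]
      have := Real.neg_one_le_cos (2 * Real.pi / T * x)
      apply mul_nonneg hη.le
      linarith
  zero := by simp
  per := fun t => by
    have h1 : 2 * Real.pi / T * (t + T) = 2 * Real.pi / T * t + 2 * Real.pi := by
      field_simp
    have h2 : 2 * Real.pi / T * T = 2 * Real.pi := by field_simp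
    show η * (t + T + T / (2 * Real.pi) * Real.sin (2 * Real.pi / T * (t + T))) =
      η * (t + T / (2 * Real.pi) * Real.sin (2 * Real.pi / T * t)) +
      η * (T + T / (2 * Real.pi) * Real.sin (2 * Real.pi / T * T))
    rw [h1, h2, Real.sin_add_two_pi, Real.sin_two_pi]
    ring

end weights

section final

variable {T δ : ℝ} {c w : ℝ → ℝ}

/-- Comparison of two minimisers, for a class of controls that contains all continuous ones and
represents all nondecreasing ones. -/
theorem main_abstract (hT : 0 < T) (hδ : 0 < δ) (hc0 : ∀ t, 0 ≤ c t) (hcp : Periodic c T)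
    (hci : IntervalIntegrable c volume 0 T) (hw0 : ∀ t, 0 ≤ w t) (hwp : Periodic w T)
    (P : (ℝ → ℝ) → Prop) (hP1 : ∀ β, P β → Ctrl T β)
    (hP2 : ∀ β, Ctrl T β → ∃ β' k, P β' ∧ β' T = β T ∧ ∀ᵐ r, β' r = β r - k)
    (hP3 : ∀ β, Ctrl T β → Continuous β → P β)
    (huniq : ∀ η > 0, ∃! α, (P α ∧ α T / T = η) ∧
      ∀ β, P β → β T / T = η → cost T δ c w α ≤ cost T δ c w β)
    {η₁ η₂ : ℝ} (h1 : 0 < η₁) (h12 : η₁ < η₂) {α₁ α₂ : ℝ → ℝ}
    (hα₁ : (P α₁ ∧ α₁ T / T = η₁) ∧ ∀ β, P β → β T / T = η₁ → cost T δ c w α₁ ≤ cost T δ c w β)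
    (hα₂ : (P α₂ ∧ α₂ T / T = η₂) ∧ ∀ β, P β → β T / T = η₂ → cost T δ c w α₂ ≤ cost T δ c w β)
    {x t : ℝ} (hxt : x ≤ t) :
    rightLim α₁ t - leftLim α₁ x ≤ rightLim α₂ t - leftLim α₂ x := by
  -- the cost is not identically zero
  have hnz : ¬ ∀ β, P β → β T / T = η₁ → cost T δ c w β = 0 := by
    intro hall
    have k1 := linear_ctrl (T := T) h1
    have k2 := sin_ctrl hT h1
    have q1 : P (fun t => η₁ * t) := hP3 _ k1 (by fun_prop)
    have q2 : P (fun t => η₁ * (t + T / (2 * Real.pi) * Real.sin (2 * Real.pi / T * t))) :=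
      hP3 _ k2 (by fun_prop)
    have r1 : (fun t => η₁ * t) T / T = η₁ := by
      show η₁ * T / T = η₁
      field_simp
    have r2 : (fun t => η₁ * (t + T / (2 * Real.pi) * Real.sin (2 * Real.pi / T * t))) T / T =
        η₁ := by
      show η₁ * (T + T / (2 * Real.pi) * Real.sin (2 * Real.pi / T * T)) / T = η₁
      rw [show 2 * Real.pi / T * T = 2 * Real.pi by field_simp, Real.sin_two_pi]
      field_simp
      ring
    have e := (huniq η₁ h1).unique
      (y₁ := fun t => η₁ * t)
      (y₂ := fun t => η₁ * (t + T / (2 * Real.pi) * Real.sin (2 * Real.pi / T * t)))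
      ⟨⟨q1, r1⟩, fun β hβ hβ2 => by rw [hall _ q1 r1, hall β hβ hβ2]⟩
      ⟨⟨q2, r2⟩, fun β hβ hβ2 => by rw [hall _ q2 r2, hall β hβ hβ2]⟩
    have e2 : η₁ * (T / 4) =
        η₁ * (T / 4 + T / (2 * Real.pi) * Real.sin (2 * Real.pi / T * (T / 4))) :=
      congrFun e (T / 4)
    rw [show 2 * Real.pi / T * (T / 4) = Real.pi / 2 by field_simp; ring, Real.sin_pi_div_two] at e2
    have e3 : 0 < η₁ * (T / (2 * Real.pi)) := by
      have := Real.pi_pos
      positivity
    linarith
  -- the data are admissible weights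
  have hci' : ∀ a b, IntervalIntegrable c volume a b := fun a b =>
    hcp.intervalIntegrable₀ hT.ne' hci a b
  have hcpos : 0 < ∫ r in (0 : ℝ)..T, c r := by
    rcases (intervalIntegral.integral_nonneg (μ := volume) hT.le
      (fun r _ => hc0 r)).eq_or_lt with h | h
    · exfalso
      apply hnz
      intro β hβ _
      have h2 := (intervalIntegral.integral_eq_zero_iff_of_le_of_nonneg_ae hT.le
        (Eventually.of_forall fun r => hc0 r) hci).mp h.symm
      have h3 := (ae_restrict_iff' measurableSet_Ioc).mp h2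
      have h4 : ∀ a b : ℝ, 0 ≤ a → a ≤ T → 0 ≤ b → b ≤ T →
          ∫ r in a..b, c r * Real.exp (β r + δ * r) = 0 := by
        intro a b ha haT hb hbT
        have : ∫ r in a..b, c r * Real.exp (β r + δ * r) = ∫ r in a..b, (0 : ℝ) := by
          apply intervalIntegral.integral_congr_ae
          filter_upwards [h3] with r hr hr2
          have : r ∈ Ioc 0 T := ⟨(le_min ha hb).trans_lt hr2.1, hr2.2.trans (max_le haT hbT)⟩
          rw [hr this]
          simp
        rw [this]
        simp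
      unfold cost
      have h5 : ∫ t in (0 : ℝ)..T, w t * stateS T δ c β t = ∫ t in (0 : ℝ)..T, (0 : ℝ) := by
        apply intervalIntegral.integral_congr
        intro r hr
        rw [uIcc_of_le hT.le] at hr
        show w r * stateS T δ c β r = 0
        unfold stateS
        rw [h4 0 r le_rfl hT.le hr.1 hr.2, h4 r T hr.1 hr.2 hT.le le_rfl]
        simp
      rw [h5]
      simp
    · exact h
  have hc : Wt T c := ⟨hc0, hcp, hci', hcpos⟩
  have hwi : IntervalIntegrable w volume 0 T := by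
    by_contra hcon
    apply hnz
    intro β hβ _
    unfold cost
    rw [intervalIntegral.integral_undef fun h => hcon (w_integrable_of hT hδ (hP1 β hβ) hc h),
      mul_zero]
  have hwi' : ∀ a b, IntervalIntegrable w volume a b := fun a b =>
    hwp.intervalIntegrable₀ hT.ne' hwi a b
  have hwpos : 0 < ∫ r in (0 : ℝ)..T, w r := by
    rcases (intervalIntegral.integral_nonneg (μ := volume) hT.le
      (fun r _ => hw0 r)).eq_or_lt with h | h
    · exfalso
      apply hnz
      intro β hβ _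
      have h2 := (intervalIntegral.integral_eq_zero_iff_of_le_of_nonneg_ae hT.le
        (Eventually.of_forall fun r => hw0 r) hwi).mp h.symm
      have h3 := (ae_restrict_iff' measurableSet_Ioc).mp h2
      unfold cost
      have h5 : ∫ t in (0 : ℝ)..T, w t * stateS T δ c β t = ∫ t in (0 : ℝ)..T, (0 : ℝ) := by
        apply intervalIntegral.integral_congr_ae
        filter_upwards [h3] with r hr hr2
        rw [uIoc_of_le hT.le] at hr2
        rw [hr hr2]
        simp
      rw [h5]
      simp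
    · exact h
  have hw : Wt T w := ⟨hw0, hwp, hwi', hwpos⟩
  -- minimisers in the class of all controls
  have hgen : ∀ {η : ℝ}, 0 < η → ∀ {α : ℝ → ℝ}, ((P α ∧ α T / T = η) ∧
      ∀ β, P β → β T / T = η → cost T δ c w α ≤ cost T δ c w β) →
      ∃ lam, Ext T δ c w α lam := by
    intro η hη α hα
    have hαc := hP1 α hα.1.1
    have hαT : α T = η * T := by
      have := hα.1.2
      rwa [div_eq_iff hT.ne'] at this
    have hmin : ∀ β, Ctrl T β → β T = α T → cost T δ c w α ≤ cost T δ c w β := by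
      intro β hβ hβT
      obtain ⟨β', k, hβ', hβ'T, hae⟩ := hP2 β hβ
      have h2 : cost T δ c w β' = cost T δ c w β :=
        cost_congr (k := k) hβ'T (hae.mono fun r hr => Or.inr hr)
      rw [← h2]
      apply hα.2 β' hβ'
      rw [hβ'T, hβT]
      exact hα.1.2
    have hu : Uniq T δ c w α := by
      intro β hβ hβT hle
      obtain ⟨β', k, hβ', hβ'T, hae⟩ := hP2 β hβ
      have h2 : cost T δ c w β' = cost T δ c w β :=
        cost_congr (k := k) hβ'T (hae.mono fun r hr => Or.inr hr)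
      have h3 : β' = α := by
        apply (huniq η hη).unique (y₁ := β') (y₂ := α) _ hα
        refine ⟨⟨hβ', ?_⟩, fun γ hγ hγT => ?_⟩
        · rw [hβ'T, hβT]
          exact hα.1.2
        · rw [h2]
          exact hle.trans (hα.2 γ hγ hγT)
      refine ⟨k, ?_⟩
      filter_upwards [hae] with r hr
      rw [h3] at hr
      linarith
    obtain ⟨lam, hl1, hl2⟩ := kkt hT hδ hαc hc hw hmin
    exact ⟨lam, hαc, by rw [hαT]; positivity, hl1, hl2, nd_of_uniq hT hαc hc hw hu⟩
  obtain ⟨l₁, e₁⟩ := hgen h1 hα₁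
  obtain ⟨l₂, e₂⟩ := hgen (h1.trans h12) hα₂
  rcases le_or_gt l₂ l₁ with hl | hl
  · exact comparison hT hδ hc hw e₁ e₂ hl hxt
  · -- the reverse order of the multipliers contradicts the budgets
    exfalso
    have hb : α₁ T < α₂ T := by
      have b1 := hα₁.1.2
      have b2 := hα₂.1.2
      rw [div_eq_iff hT.ne'] at b1 b2
      rw [b1, b2]
      exact mul_lt_mul_of_pos_right h12 hT
    -- compare on long intervals
    have hcmp : ∀ n : ℕ, n * (α₂ T - α₁ T) ≤ (α₁ T) + (α₂ 0 - leftLim α₂ 0) + 0 +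
        |leftLim α₁ 0| + |leftLim α₂ 0| + |rightLim α₁ 0| := by
      intro n
      have k := comparison hT hδ hc hw e₂ e₁ hl.le (x := 0) (t := n * T) (by positivity)
      have k1 : ∀ {α : ℝ → ℝ}, Ctrl T α → ∀ n : ℕ, α (n * T) = n * α T := by
        intro α hα n
        induction n with
        | zero => simp [hα.zero]
        | succ n ih =>
          push_cast
          rw [show ((n : ℝ) + 1) * T = n * T + T by ring, hα.per, ih]
          ring
      have k2 : n * α₂ T ≤ rightLim α₂ (n * T) := by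
        rw [← k1 e₂.ctrl n]
        exact e₂.ctrl.mono.le_rightLim le_rfl
      have k3 : rightLim α₁ (n * T) ≤ n * α₁ T + α₁ T := by
        have := e₁.ctrl.mono.rightLim_le (show (n : ℝ) * T < n * T + T by linarith)
        rw [e₁.ctrl.per, k1 e₁.ctrl n] at this
        exact this
      have k4 := e₂.ctrl.zero
      have k5 := neg_abs_le (leftLim α₁ 0)
      have k6 := neg_abs_le (leftLim α₂ 0)
      have k7 := abs_nonneg (rightLim α₁ 0)
      have k8 := le_abs_self (leftLim α₂ 0)
      have k9 := e₂.ctrl.mono.leftLim_le (le_refl (0 : ℝ))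
      rw [k4] at k9 ⊢
      nlinarith
    obtain ⟨n, hn⟩ := exists_nat_gt (((α₁ T) + (α₂ 0 - leftLim α₂ 0) + 0 +
        |leftLim α₁ 0| + |leftLim α₂ 0| + |rightLim α₁ 0|) / (α₂ T - α₁ T))
    rw [div_lt_iff₀ (by linarith)] at hn
    linarith [hcmp n]

end final

end Q76.Effort
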