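import Mathlib

/-!
# Positive combinations of smooth compactly supported functions
-/

namespace Q76.SmoothSeries

open MeasureTheory Filter Topology Set Metric
open scoped ENNReal ContDiff

/-- For smooth compactly supported `h i` there are positive coefficients such that all the series
`∑ c i * h i (x - a i)` are smooth. -/
theorem exists_coeff {F : Type*} [NormedAddCommGroup F] [NormedSpace ℝ F] (h : ℕ → F → ℝ)
    (hs : ∀ i, ContDiff ℝ ∞ (h i)) (hc : ∀ i, HasCompactSupport (h i)) :
    ∃ c : ℕ → ℝ, (∀ i, 0 < c i) ∧ (∀ i x, c i * |h i x| ≤ (1 / 2) ^ i) ∧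
      ∀ (r : ℝ) (a : ℕ → F), ContDiff ℝ ∞ (fun x => ∑' i, r * c i * h i (x - a i)) := by
  have hb : ∀ l i : ℕ, ∃ B : ℝ, ∀ x, ‖iteratedFDeriv ℝ l (h i) x‖ ≤ B := by
    intro l i
    have hcont : Continuous (iteratedFDeriv ℝ l (h i)) :=
      (hs i).continuous_iteratedFDeriv (m := l) (by exact_mod_cast le_top)
    exact hcont.bounded_above_of_compact_support ((hc i).iteratedFDeriv l)
  choose B hB using hb
  have hB0 : ∀ l i, 0 ≤ B l i := fun l i => (norm_nonneg _).trans (hB l i 0)
  set D : ℕ → ℝ := fun i => 1 + ∑ l ∈ Finset.range (i + 1), B l i with hDdef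
  have hDpos : ∀ i, 0 < D i := fun i => by
    have : 0 ≤ ∑ l ∈ Finset.range (i + 1), B l i := Finset.sum_nonneg fun l _ => hB0 l i
    simp only [hDdef]
    linarith
  have hDB : ∀ l i, l ≤ i → B l i ≤ D i := fun l i hli => by
    have h1 : B l i ≤ ∑ l ∈ Finset.range (i + 1), B l i :=
      Finset.single_le_sum (f := fun l => B l i) (fun l _ => hB0 l i)
        (Finset.mem_range.mpr (by omega))
    simp only [hDdef]
    linarith
  have key : ∀ l i x, l ≤ i → (1 / 2 : ℝ) ^ i / D i * ‖iteratedFDeriv ℝ l (h i) x‖ ≤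
      (1 / 2) ^ i := by
    intro l i x hli
    have h1 : ‖iteratedFDeriv ℝ l (h i) x‖ ≤ D i := (hB l i x).trans (hDB l i hli)
    calc (1 / 2 : ℝ) ^ i / D i * ‖iteratedFDeriv ℝ l (h i) x‖
        ≤ (1 / 2 : ℝ) ^ i / D i * D i := by
          have := hDpos i
          gcongr
      _ = (1 / 2) ^ i := by
          have := (hDpos i).ne'
          field_simp
  refine ⟨fun i => (1 / 2) ^ i / D i, fun i => by have := hDpos i; positivity, ?_, ?_⟩
  · intro i x
    have := key 0 i x (Nat.zero_le _)
    rwa [norm_iteratedFDeriv_zero, Real.norm_eq_abs] at this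
  · intro r a
    refine contDiff_tsum_of_eventually (v := fun _ i => |r| * (1 / 2) ^ i) (fun i => ?_)
      (fun k _ => summable_geometric_two.mul_left _) (fun l _ => ?_)
    · exact contDiff_const.mul ((hs i).comp (contDiff_id.sub contDiff_const))
    · rw [Nat.cofinite_eq_atTop]
      filter_upwards [eventually_ge_atTop l] with i hi x
      have e : iteratedFDeriv ℝ l (fun x => r * ((1 / 2) ^ i / D i) * h i (x - a i)) x =
          (r * ((1 / 2) ^ i / D i)) • iteratedFDeriv ℝ l (h i) (x - a i) := by
        have h1 : (fun x => r * ((1 / 2) ^ i / D i) * h i (x - a i)) =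
            fun x => (r * ((1 / 2) ^ i / D i)) • (fun x => h i (x - a i)) x := by
          ext x; simp
        rw [h1, iteratedFDeriv_const_smul_apply', iteratedFDeriv_comp_sub]
        exact (((hs i).comp (contDiff_id.sub contDiff_const)).of_le
          (by exact_mod_cast le_top)).contDiffAt
      rw [e, norm_smul, Real.norm_eq_abs, abs_mul, abs_of_pos (a := (1 / 2) ^ i / D i)
        (by have := hDpos i; positivity), mul_assoc]
      exact mul_le_mul_of_nonneg_left (key l i (x - a i) hi) (abs_nonneg r)

end Q76.SmoothSeries
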