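import Mathlib

/-!
# A compact set of Hausdorff dimension zero realising all small patterns up to translation

We construct a compact set `F ⊆ [0, 1]` with `dimH F = 0` such that for every `n` there is `δ > 0`
with the following property: for all shifts `s_0, …, s_{n-1} ∈ [0, δ]` there is `x` with
`x + s_τ ∈ F` for all `τ < n`.  It is then enlarged to a perfect, totally disconnected compact set
of Hausdorff dimension zero.
-/

namespace Q76.UniversalCantor

open MeasureTheory Filter Topology Set Metric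
open scoped ENNReal NNReal

/-- The frequencies. -/
def freq : ℕ → ℕ
  | 0 => 1
  | k + 1 => 16 * freq k ^ (k + 1)

/-- The tolerances `δ_k = 1 / (4 N_k^k)`. -/
noncomputable def tol (k : ℕ) : ℝ := 1 / (4 * (freq k : ℝ) ^ k)

lemma freq_pos (k : ℕ) : 0 < freq k := by
  induction k with
  | zero => simp [freq]
  | succ k ih => simp only [freq]; positivity

lemma freq_succ (k : ℕ) : (freq (k + 1) : ℝ) = 16 * (freq k : ℝ) ^ (k + 1) := by
  simp [freq]

lemma freq_cast_pos (k : ℕ) : (0 : ℝ) < freq k := by exact_mod_cast freq_pos k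

lemma one_le_freq (k : ℕ) : (1 : ℝ) ≤ freq k := by exact_mod_cast freq_pos k

lemma freq_ge (k : ℕ) : (k : ℝ) + 1 ≤ freq k := by
  induction k with
  | zero => simp [freq]
  | succ k ih =>
    rw [freq_succ]
    have h1 : (freq k : ℝ) ≤ (freq k : ℝ) ^ (k + 1) := by
      calc (freq k : ℝ) = (freq k : ℝ) ^ 1 := (pow_one _).symm
        _ ≤ _ := pow_le_pow_right₀ (one_le_freq k) (by omega)
    push_cast
    have := one_le_freq k
    linarith

lemma tol_pos (k : ℕ) : 0 < tol k := by
  unfold tol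
  have := freq_cast_pos k
  positivity

lemma tol_le (k : ℕ) : tol k ≤ 1 / 4 := by
  unfold tol
  have h := one_le_pow₀ (one_le_freq k) (n := k)
  apply one_div_le_one_div_of_le (by norm_num)
  linarith

/-- `δ_k / N_k = 4 / N_{k+1}`. -/
lemma tol_div (k : ℕ) : tol k / freq k = 4 / freq (k + 1) := by
  rw [freq_succ]
  unfold tol
  have := freq_cast_pos k
  rw [pow_succ]
  field_simp
  norm_num

lemma freq_mono : Monotone fun k => (freq k : ℝ) := by
  apply monotone_nat_of_le_succ
  intro k
  rw [freq_succ]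
  have h1 : (freq k : ℝ) ≤ (freq k : ℝ) ^ (k + 1) := by
    calc (freq k : ℝ) = (freq k : ℝ) ^ 1 := (pow_one _).symm
      _ ≤ _ := pow_le_pow_right₀ (one_le_freq k) (by omega)
  have := one_le_freq k
  linarith

lemma tol_div_anti : Antitone fun k => tol k / freq k := by
  intro a b hab
  simp only [tol_div]
  have h1 := freq_mono (show a + 1 ≤ b + 1 by omega)
  have h2 := freq_cast_pos (a + 1)
  simp only at h1
  gcongr

/-- The condition at level `k`: `N_k x` is within `δ_k` of an integer. -/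
def cond (k : ℕ) (x : ℝ) : Prop := ‖(((freq k : ℝ) * x : ℝ) : UnitAddCircle)‖ ≤ tol k

lemma isClosed_cond (k : ℕ) : IsClosed {x : ℝ | cond k x} := by
  unfold cond
  apply isClosed_le _ continuous_const
  exact (AddCircle.continuous_mk' 1 |>.comp (continuous_const.mul continuous_id)).norm

lemma norm_le_of_int {y : ℝ} (m : ℤ) {d : ℝ} (h : |y - m| ≤ d) : ‖(y : UnitAddCircle)‖ ≤ d := by
  rw [UnitAddCircle.norm_eq]
  exact (round_le y m).trans h

lemma exists_int_of_norm_le {y d : ℝ} (h : ‖(y : UnitAddCircle)‖ ≤ d) : ∃ m : ℤ, |y - m| ≤ d := by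
  rw [UnitAddCircle.norm_eq] at h
  exact ⟨_, h⟩

lemma cond_of_small {k : ℕ} {x : ℝ} (h0 : 0 ≤ x) (h : x ≤ tol k / freq k) : cond k x := by
  apply norm_le_of_int 0
  have hf := freq_cast_pos k
  rw [Int.cast_zero, sub_zero, abs_of_nonneg (by positivity)]
  rw [le_div_iff₀ hf] at h
  linarith

/-- One step of the nested interval construction. -/
lemma step {N len a d s : ℝ} (hN : 0 < N) (hd2 : d ≤ 1 / 4) (hlen : 2 ≤ N * len) :
    ∃ a', a ≤ a' ∧ a' + 2 * d / N ≤ a + len ∧
      ∀ x ∈ Icc a' (a' + 2 * d / N), ‖((N * (x + s) : ℝ) : UnitAddCircle)‖ ≤ d := by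
  set m : ℤ := ⌈N * (a + s) + d⌉ with hm
  have h1 : N * (a + s) + d ≤ m := Int.le_ceil _
  have h2 : (m : ℝ) < N * (a + s) + d + 1 := Int.ceil_lt_add_one _
  refine ⟨(m - d) / N - s, ?_, ?_, ?_⟩
  · rw [le_sub_iff_add_le, le_div_iff₀ hN]; linarith
  · have : (m - d) / N - s + 2 * d / N = (m + d) / N - s := by ring
    rw [this, sub_le_iff_le_add, div_le_iff₀ hN]
    nlinarith
  · intro x hx
    apply norm_le_of_int m
    have e1 : (m - d) / N ≤ x + s := by linarith [hx.1]
    have e2 : x + s ≤ (m + d) / N := by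
      have := hx.2
      have h3 : (m - d) / N - s + 2 * d / N = (m + d) / N - s := by ring
      linarith
    rw [div_le_iff₀ hN] at e1
    rw [le_div_iff₀ hN] at e2
    rw [abs_le]
    constructor <;> linarith

/-- Index of the component to which level `k` belongs. -/
def idx (k : ℕ) : ℕ := (Nat.unpair k).1

/-- Nested intervals up to a finite level. -/
lemma nest_finite (K : ℕ) (s : ℕ → ℝ) (J : ℕ) :
    ∃ a len : ℝ, 0 ≤ a ∧ 0 ≤ len ∧ a + len ≤ tol K / (2 * freq K) ∧
      2 ≤ freq (K + 1 + J) * len ∧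
      ∀ x ∈ Icc a (a + len), ∀ k, K < k → k < K + 1 + J → cond k (x + s (idx k)) := by
  induction J with
  | zero =>
    have hf := freq_cast_pos K
    have ht := tol_pos K
    refine ⟨0, tol K / (2 * freq K), le_rfl, by positivity, by simp, ?_, ?_⟩
    · have h1 := tol_div K
      have h2 := freq_cast_pos (K + 1)
      have h3 : tol K / (2 * freq K) = 2 / freq (K + 1) := by
        have : tol K / (2 * freq K) = (tol K / freq K) / 2 := by
          field_simp
        rw [this, h1]; field_simp; norm_num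
      rw [add_zero, h3]
      rw [mul_div_cancel₀ _ h2.ne']
    · intro x _ k h1 h2
      omega
  | succ J ih =>
    obtain ⟨a, len, ha, hlen0, hle, hlen, hcond⟩ := ih
    set k₀ := K + 1 + J with hk₀
    have hf := freq_cast_pos k₀
    obtain ⟨a', h1, h2, h3⟩ := step (a := a) (s := s (idx k₀)) hf (tol_le k₀) hlen
    have ht := tol_pos k₀
    have hd0 : 0 ≤ 2 * tol k₀ / freq k₀ := by positivity
    refine ⟨a', 2 * tol k₀ / freq k₀, ha.trans h1, hd0, h2.trans hle, ?_, ?_⟩
    · have h4 := tol_div k₀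
      have h5 := freq_cast_pos (k₀ + 1)
      have h6 : 2 * tol k₀ / freq k₀ = 8 / freq (k₀ + 1) := by
        rw [mul_div_assoc, h4]; ring
      have h7 : K + 1 + (J + 1) = k₀ + 1 := by omega
      rw [h7, h6, mul_div_cancel₀ _ h5.ne']
      norm_num
    · intro x hx k hk1 hk2
      rcases Nat.lt_or_ge k k₀ with h | h
      · exact hcond x ⟨h1.trans hx.1, hx.2.trans h2⟩ k hk1 h
      · have : k = k₀ := by omega
        rw [this]
        exact h3 x hx

/-- The intersection property. -/
lemma nest (K : ℕ) (s : ℕ → ℝ) :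
    ∃ x, 0 ≤ x ∧ x ≤ tol K / (2 * freq K) ∧ ∀ k, K < k → cond k (x + s (idx k)) := by
  let t : ℕ → Set ℝ := fun J => Icc 0 (tol K / (2 * freq K)) ∩
    ⋂ k ∈ {k | K < k ∧ k < K + 1 + J}, {x : ℝ | cond k (x + s (idx k))}
  have hcl : ∀ J, IsClosed (t J) := by
    intro J
    refine isClosed_Icc.inter (isClosed_biInter fun k _ => ?_)
    exact (isClosed_cond k).preimage (continuous_id.add continuous_const)
  have hne : (⋂ J, t J).Nonempty := by
    apply IsCompact.nonempty_iInter_of_sequence_nonempty_isCompact_isClosed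
    · intro J x hx
      refine ⟨hx.1, mem_iInter₂.mpr fun k hk => ?_⟩
      exact mem_iInter₂.mp hx.2 k ⟨hk.1, by have := hk.2; omega⟩
    · intro J
      obtain ⟨a, len, ha, hlen0, hle, hlen, hcond⟩ := nest_finite K s J
      refine ⟨a, ⟨ha, by linarith⟩, mem_iInter₂.mpr fun k hk => ?_⟩
      exact hcond a ⟨le_rfl, by linarith⟩ k hk.1 hk.2
    · exact (isCompact_Icc).inter_right
        (isClosed_biInter fun k _ => (isClosed_cond k).preimage (continuous_id.add continuous_const))
    · exact hcl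
  obtain ⟨x, hx⟩ := hne
  rw [mem_iInter] at hx
  refine ⟨x, (hx 0).1.1, (hx 0).1.2, fun k hk => ?_⟩
  exact mem_iInter₂.mp (hx k).2 k ⟨hk, by omega⟩

/-- The components. -/
def comp (i : ℕ) : Set ℝ := {x | x ∈ Icc (0 : ℝ) ((1 / 2) ^ i) ∧ ∀ k, idx k = i → cond k x}

/-- The compact set. -/
def base : Set ℝ := ⋃ i, comp i

lemma isClosed_comp (i : ℕ) : IsClosed (comp i) := by
  have : comp i = Icc (0 : ℝ) ((1 / 2) ^ i) ∩ ⋂ k ∈ {k | idx k = i}, {x | cond k x} := by
    ext x
    simp [comp]
  rw [this]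
  exact isClosed_Icc.inter (isClosed_biInter fun k _ => isClosed_cond k)

lemma zero_mem_comp (i : ℕ) : (0 : ℝ) ∈ comp i := by
  refine ⟨⟨le_rfl, by positivity⟩, fun k _ => ?_⟩
  apply cond_of_small le_rfl
  have := tol_pos k
  have := freq_cast_pos k
  positivity

lemma isClosed_base : IsClosed base := by
  have h : base = ⋂ m : ℕ, (Icc (0 : ℝ) ((1 / 2) ^ m) ∪ ⋃ i ∈ {i | i < m}, comp i) := by
    apply Subset.antisymm
    · intro x hx
      obtain ⟨i, hi⟩ := mem_iUnion.mp hx
      refine mem_iInter.mpr fun m => ?_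
      rcases Nat.lt_or_ge i m with h | h
      · exact Or.inr (mem_iUnion₂.mpr ⟨i, h, hi⟩)
      · refine Or.inl ⟨hi.1.1, hi.1.2.trans ?_⟩
        exact pow_le_pow_of_le_one (by norm_num) (by norm_num) h
    · intro x hx
      by_cases h0 : x = 0
      · rw [h0]
        exact mem_iUnion.mpr ⟨0, zero_mem_comp 0⟩
      · have hx0 : ∃ m : ℕ, x ∉ Icc (0 : ℝ) ((1 / 2) ^ m) := by
          by_contra hcon
          push Not at hcon
          have h1 : 0 < x := lt_of_le_of_ne (hcon 0).1 (Ne.symm h0)
          obtain ⟨m, hm⟩ := exists_pow_lt_of_lt_one h1 (show (1 / 2 : ℝ) < 1 by norm_num)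
          exact absurd (hcon m).2 (not_le.mpr hm)
        obtain ⟨m, hm⟩ := hx0
        rcases mem_iInter.mp hx m with h | h
        · exact absurd h hm
        · obtain ⟨i, -, hi⟩ := mem_iUnion₂.mp h
          exact mem_iUnion.mpr ⟨i, hi⟩
  rw [h]
  refine isClosed_iInter fun m => isClosed_Icc.union ?_
  exact (Set.finite_lt_nat m).isClosed_biUnion fun i _ => isClosed_comp i

lemma base_subset : base ⊆ Icc 0 1 := by
  intro x hx
  obtain ⟨i, hi⟩ := mem_iUnion.mp hx
  exact ⟨hi.1.1, hi.1.2.trans (pow_le_one₀ (by norm_num) (by norm_num))⟩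

lemma isCompact_base : IsCompact base :=
  isCompact_Icc.of_isClosed_subset isClosed_base base_subset

/-- Small patterns are realised up to translation. -/
lemma pattern (n : ℕ) : ∃ δ > (0 : ℝ), ∀ s : ℕ → ℝ, (∀ τ, τ < n → s τ ∈ Icc 0 δ) →
    ∃ x : ℝ, ∀ τ, τ < n → x + s τ ∈ base := by
  -- choose `K` with `δ_K / N_K ≤ 2^{-n}`
  obtain ⟨K, hK⟩ : ∃ K : ℕ, tol K / freq K ≤ (1 / 2) ^ n := by
    obtain ⟨K, hK⟩ := exists_nat_gt ((2 : ℝ) ^ n)
    refine ⟨K, ?_⟩
    have h1 := freq_ge K
    have h2 := tol_le K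
    have h3 := freq_cast_pos K
    rw [div_le_iff₀ h3, one_div, inv_pow]
    have h4 : (1 : ℝ) ≤ (2 ^ n)⁻¹ * freq K := by
      rw [inv_mul_eq_div, le_div_iff₀ (by positivity)]
      linarith
    linarith
  have hf := freq_cast_pos K
  have ht := tol_pos K
  refine ⟨tol K / (2 * freq K), by positivity, fun s hs => ?_⟩
  obtain ⟨x, hx0, hx1, hx⟩ := nest K s
  refine ⟨x, fun τ hτ => mem_iUnion.mpr ⟨τ, ?_⟩⟩
  have hsum : x + s τ ≤ tol K / freq K := by
    have h1 := (hs τ hτ).2
    have h2 : tol K / (2 * freq K) = (tol K / freq K) / 2 := by field_simp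
    rw [h2] at h1 hx1
    linarith
  have h0 : 0 ≤ x + s τ := add_nonneg hx0 (hs τ hτ).1
  refine ⟨⟨h0, hsum.trans (hK.trans ?_)⟩, fun k hk => ?_⟩
  · exact pow_le_pow_of_le_one (by norm_num) (by norm_num) hτ.le
  · rcases Nat.lt_or_ge K k with h | h
    · have := hx k h
      rwa [hk] at this
    · exact cond_of_small h0 (hsum.trans (tol_div_anti h))

/-- Covers of a component at level `k`. -/
lemma comp_cover {i k : ℕ} (hk : idx k = i) :
    comp i ⊆ ⋃ m : Fin (freq k + 1), closedBall ((m : ℝ) / freq k) (tol k / freq k) := by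
  intro x hx
  have hf := freq_cast_pos k
  have hx1 : x ≤ 1 := hx.1.2.trans (pow_le_one₀ (by norm_num) (by norm_num))
  have hx0 := hx.1.1
  obtain ⟨m, hm⟩ := exists_int_of_norm_le (hx.2 k hk)
  have ht := tol_le k
  rw [abs_le] at hm
  have hm0 : 0 ≤ m := by
    have h1 : (-1 : ℝ) < m := by
      have : 0 ≤ (freq k : ℝ) * x := by positivity
      linarith [hm.2]
    have h2 : (-1 : ℤ) < m := by exact_mod_cast h1
    omega
  have hm1 : m ≤ freq k := by
    have h1 : (m : ℝ) < freq k + 1 := by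
      have : (freq k : ℝ) * x ≤ freq k * 1 := by gcongr
      linarith [hm.1]
    have h2 : m < (freq k : ℤ) + 1 := by exact_mod_cast h1
    omega
  refine mem_iUnion.mpr ⟨⟨m.toNat, by omega⟩, ?_⟩
  have hcast : ((m.toNat : ℕ) : ℝ) = (m : ℝ) := by
    exact_mod_cast Int.toNat_of_nonneg hm0
  rw [mem_closedBall, Real.dist_eq]
  simp only [hcast]
  have e : x - (m : ℝ) / freq k = ((freq k : ℝ) * x - m) / freq k := by
    field_simp
  rw [e, abs_div, abs_of_pos hf]
  gcongr
  rw [abs_le]
  exact hm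

/-- The components have vanishing Hausdorff measures of positive dimension. -/
lemma hausdorff_comp (i : ℕ) {d : ℝ} (hd : 0 < d) :
    (Measure.hausdorffMeasure d : Measure ℝ) (comp i) = 0 := by
  set κ : ℕ → ℕ := fun j => Nat.pair i j with hκ
  have hidx : ∀ j, idx (κ j) = i := by intro j; simp [idx, hκ]
  have hκge : ∀ j, j ≤ κ j := fun j => Nat.right_le_pair i j
  have hκt : Tendsto κ atTop atTop := tendsto_atTop_mono hκge tendsto_id
  have hrad : ∀ j, tol (κ j) / freq (κ j) = 4 / freq (κ j + 1) := fun j => tol_div _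
  have hfreq_top : Tendsto (fun j => (freq (κ j) : ℝ)) atTop atTop := by
    apply tendsto_atTop_mono (f := fun j => ((κ j : ℕ) : ℝ))
    · intro j
      have := freq_ge (κ j)
      linarith
    · exact tendsto_natCast_atTop_atTop.comp hκt
  have hsmall : ∀ j, 2 * (tol (κ j) / freq (κ j)) ≤ ((freq (κ j) : ℝ) ^ (κ j))⁻¹ := by
    intro j
    have hf := freq_cast_pos (κ j)
    have h1 := one_le_freq (κ j)
    unfold tol
    rw [div_div, ← mul_div_assoc, mul_one, inv_eq_one_div]
    rw [div_le_div_iff₀ (by positivity) (by positivity)]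
    have : (0 : ℝ) < freq (κ j) ^ (κ j) := by positivity
    nlinarith
  have hdiam : ∀ (j : ℕ) (m : Fin (freq (κ j) + 1)),
      ediam (closedBall ((m : ℝ) / freq (κ j)) (tol (κ j) / freq (κ j))) ≤
        ENNReal.ofReal (((freq (κ j) : ℝ) ^ (κ j))⁻¹) := by
    intro j m
    have hf := freq_cast_pos (κ j)
    have ht := tol_pos (κ j)
    rw [Real.closedBall_eq_Icc, Real.ediam_Icc]
    apply ENNReal.ofReal_le_ofReal
    refine le_trans (le_of_eq ?_) (hsmall j)
    ring
  have hinv : Tendsto (fun j => 2 * ((freq (κ j) : ℝ))⁻¹) atTop (𝓝 0) := by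
    have := (tendsto_inv_atTop_zero.comp hfreq_top).const_mul 2
    simpa using this
  have hκpos : ∀ᶠ j in atTop, 1 ≤ κ j := hκt.eventually (eventually_ge_atTop 1)
  have hr0 : Tendsto (fun j => ENNReal.ofReal (((freq (κ j) : ℝ) ^ (κ j))⁻¹)) atTop (𝓝 0) := by
    have h1 : Tendsto (fun j => ENNReal.ofReal (2 * ((freq (κ j) : ℝ))⁻¹)) atTop (𝓝 0) := by
      have := ENNReal.tendsto_ofReal hinv
      simpa using this
    refine tendsto_of_tendsto_of_tendsto_of_le_of_le' tendsto_const_nhds h1
      (Eventually.of_forall fun j => zero_le) ?_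
    filter_upwards [hκpos] with j hj
    apply ENNReal.ofReal_le_ofReal
    have hf := one_le_freq (κ j)
    have h2 : (freq (κ j) : ℝ) ≤ (freq (κ j) : ℝ) ^ (κ j) := by
      calc (freq (κ j) : ℝ) = (freq (κ j) : ℝ) ^ 1 := (pow_one _).symm
        _ ≤ _ := pow_le_pow_right₀ hf hj
    have h3 : ((freq (κ j) : ℝ) ^ (κ j))⁻¹ ≤ (freq (κ j) : ℝ)⁻¹ := inv_anti₀ (by linarith) h2
    have h4 : 0 ≤ (freq (κ j) : ℝ)⁻¹ := by positivity
    linarith
  have hle := Measure.hausdorffMeasure_le_liminf_sum d (comp i)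
    (fun j => ENNReal.ofReal (((freq (κ j) : ℝ) ^ (κ j))⁻¹)) hr0
    (fun j (m : Fin (freq (κ j) + 1)) =>
      closedBall ((m : ℝ) / freq (κ j)) (tol (κ j) / freq (κ j)))
    (Eventually.of_forall hdiam) (Eventually.of_forall fun j => comp_cover (hidx j))
  have hbig : ∀ᶠ j in atTop, 2 ≤ (κ j : ℝ) * d := by
    have : Tendsto (fun j => (κ j : ℝ) * d) atTop atTop :=
      (tendsto_natCast_atTop_atTop.comp hκt).atTop_mul_const hd
    exact this.eventually (eventually_ge_atTop 2)
  have hlim : Tendsto (fun j => ∑ m : Fin (freq (κ j) + 1),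
      ediam (closedBall ((m : ℝ) / freq (κ j)) (tol (κ j) / freq (κ j))) ^ d) atTop (𝓝 0) := by
    have h1 : Tendsto (fun j => ENNReal.ofReal (2 * ((freq (κ j) : ℝ))⁻¹)) atTop (𝓝 0) := by
      have := ENNReal.tendsto_ofReal hinv
      simpa using this
    refine tendsto_of_tendsto_of_tendsto_of_le_of_le' tendsto_const_nhds h1
      (Eventually.of_forall fun j => zero_le) ?_
    filter_upwards [hbig] with j hj
    have hf := one_le_freq (κ j)
    have hf0 := freq_cast_pos (κ j)
    have h2 : ∀ m : Fin (freq (κ j) + 1),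
        ediam (closedBall ((m : ℝ) / freq (κ j)) (tol (κ j) / freq (κ j))) ^ d ≤
          ENNReal.ofReal (((freq (κ j) : ℝ) ^ 2)⁻¹) := by
      intro m
      calc ediam (closedBall ((m : ℝ) / freq (κ j)) (tol (κ j) / freq (κ j))) ^ d
          ≤ ENNReal.ofReal (((freq (κ j) : ℝ) ^ (κ j))⁻¹) ^ d := by
            gcongr
            exact hdiam j m
        _ = ENNReal.ofReal ((((freq (κ j) : ℝ) ^ (κ j))⁻¹) ^ d) :=
            ENNReal.ofReal_rpow_of_nonneg (by positivity) hd.le
        _ ≤ ENNReal.ofReal (((freq (κ j) : ℝ) ^ 2)⁻¹) := by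
            apply ENNReal.ofReal_le_ofReal
            rw [Real.inv_rpow (by positivity), ← Real.rpow_natCast, ← Real.rpow_mul hf0.le]
            apply inv_anti₀ (by positivity)
            rw [← Real.rpow_natCast]
            exact Real.rpow_le_rpow_of_exponent_le hf (by exact_mod_cast hj)
    calc ∑ m : Fin (freq (κ j) + 1),
        ediam (closedBall ((m : ℝ) / freq (κ j)) (tol (κ j) / freq (κ j))) ^ d
        ≤ ∑ _m : Fin (freq (κ j) + 1), ENNReal.ofReal (((freq (κ j) : ℝ) ^ 2)⁻¹) :=
          Finset.sum_le_sum fun m _ => h2 m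
      _ = ENNReal.ofReal (((freq (κ j) : ℝ) + 1) * ((freq (κ j) : ℝ) ^ 2)⁻¹) := by
          rw [Finset.sum_const, Finset.card_univ, Fintype.card_fin, nsmul_eq_mul,
            ENNReal.ofReal_mul (by positivity)]
          congr 1
          rw [← Nat.cast_succ, ENNReal.ofReal_natCast]
      _ ≤ ENNReal.ofReal (2 * ((freq (κ j) : ℝ))⁻¹) := by
          apply ENNReal.ofReal_le_ofReal
          rw [← div_eq_mul_inv, ← div_eq_mul_inv, div_le_div_iff₀ (by positivity) hf0]
          nlinarith
  rw [hlim.liminf_eq] at hle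
  exact le_antisymm hle zero_le

lemma dimH_comp (i : ℕ) : dimH (comp i) = 0 := by
  apply le_antisymm _ zero_le
  apply dimH_le
  intro d' hd'
  rcases eq_or_ne d' 0 with h | h
  · simp [h]
  · have : 0 < (d' : ℝ) := by
      exact_mod_cast pos_iff_ne_zero.mpr h
    rw [hausdorff_comp i this] at hd'
    exact absurd hd' (by simp)

lemma dimH_base : dimH base = 0 := by
  unfold base
  rw [dimH_iUnion]
  simp [dimH_comp]

/-- `IsCantor K`: nonempty, compact, totally disconnected, without isolated points. -/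
structure IsCantor (K : Set ℝ) : Prop where
  nonempty : K.Nonempty
  isCompact : IsCompact K
  totallyDisconnected : IsTotallyDisconnected K
  noIsolated : ∀ x ∈ K, AccPt x (𝓟 K)

lemma totallyDisconnected_of_dimH {K : Set ℝ} (hK : dimH K = 0) : IsTotallyDisconnected K := by
  intro t htK ht x hx y hy
  by_contra hxy
  wlog h : x < y generalizing x y
  · exact this hy hx (Ne.symm hxy) (lt_of_le_of_ne (not_lt.mp h) (Ne.symm hxy))
  have h1 : Icc x y ⊆ K := (ht.Icc_subset hx hy).trans htK
  have h2 : (interior K).Nonempty := by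
    refine Nonempty.mono (interior_mono h1) ?_
    rw [interior_Icc]
    exact nonempty_Ioo.mpr h
  have h3 := Real.dimH_of_nonempty_interior h2
  rw [hK] at h3
  simp at h3

/-- The base set is uncountable. -/
lemma base_not_countable : ¬ base.Countable := by
  intro hc
  obtain ⟨δ, hδ, h⟩ := pattern 2
  have hsub : Icc 0 δ ⊆ (fun p : ℝ × ℝ => p.1 - p.2) '' (base ×ˢ base) := by
    intro s hs
    obtain ⟨x, hx⟩ := h (fun τ => if τ = 0 then 0 else s) (by
      intro τ _
      by_cases h0 : τ = 0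
      · simp [h0, hδ.le]
      · simp only [h0, if_false]; exact hs)
    have h0 := hx 0 (by norm_num)
    have h1 := hx 1 (by norm_num)
    simp only [if_true, one_ne_zero, if_false, add_zero] at h0 h1
    exact ⟨(x + s, x), ⟨h1, h0⟩, by simp⟩
  have hcount : (Icc (0 : ℝ) δ).Countable := ((hc.prod hc).image _).mono hsub
  have h4 := Cardinal.mk_Icc_real hδ
  have h5 := Cardinal.le_aleph0_iff_set_countable.mpr hcount
  rw [h4] at h5
  exact absurd h5 (not_le.mpr Cardinal.aleph0_lt_continuum)

/-- A perfect compact set of dimension zero containing `0`. -/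
lemma exists_small_cantor : ∃ C : Set ℝ, IsCompact C ∧ (0 : ℝ) ∈ C ∧ C ⊆ Icc (-1) 1 ∧
    (∀ x ∈ C, AccPt x (𝓟 C)) ∧ dimH C = 0 := by
  obtain ⟨D, hD, ⟨d, hd⟩, hDb⟩ := exists_perfect_nonempty_of_isClosed_of_not_countable
    isClosed_base base_not_countable
  have hDc : IsCompact D := isCompact_base.of_isClosed_subset hD.closed hDb
  let e : ℝ ≃ₜ ℝ := Homeomorph.subRight d
  refine ⟨e '' D, hDc.image e.continuous, ⟨d, hd, by simp [e]⟩, ?_, ?_, ?_⟩
  · rintro _ ⟨x, hx, rfl⟩
    have h1 := base_subset (hDb hx)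
    have h2 := base_subset (hDb hd)
    simp only [e, Homeomorph.subRight_apply, mem_Icc] at h1 h2 ⊢
    constructor <;> linarith [h1.1, h1.2, h2.1, h2.2]
  · rintro _ ⟨x, hx, rfl⟩
    have := (hD.acc x hx).map (f := e) e.continuous.continuousAt e.injective
    rwa [map_principal] at this
  · apply le_antisymm _ zero_le
    have hl : LipschitzWith 1 e := by
      apply LipschitzWith.of_dist_le_mul
      intro a b
      simp [e]
    refine (hl.dimH_image_le D).trans ?_
    rw [← dimH_base]
    exact dimH_mono hDb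

/-- Every nonempty compact set of dimension zero lies in a Cantor set of dimension zero. -/
theorem exists_cantor_superset {F : Set ℝ} (hF : IsCompact F) (hne : F.Nonempty)
    (hd : dimH F = 0) : ∃ K : Set ℝ, IsCantor K ∧ F ⊆ K ∧ dimH K = 0 := by
  obtain ⟨C, hC, hC0, hC1, hCp, hCd⟩ := exists_small_cantor
  have : Nonempty F := hne.to_subtype
  let q : ℕ → ℝ := fun j => (TopologicalSpace.denseSeq F j : ℝ)
  have hqF : ∀ j, q j ∈ F := fun j => (TopologicalSpace.denseSeq F j).2
  have hqd : ∀ x ∈ F, ∀ ε > 0, ∃ j, dist (q j) x < ε := by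
    intro x hx ε hε
    have h1 := TopologicalSpace.denseRange_denseSeq F
    obtain ⟨j, hj⟩ := h1.exists_dist_lt ⟨x, hx⟩ hε
    refine ⟨j, ?_⟩
    rw [dist_comm]
    exact hj
  let g : ℕ → ℝ → ℝ := fun j c => q j + (1 / 2) ^ j * c
  have hgc : ∀ j, Continuous (g j) := fun j => by fun_prop
  have hgi : ∀ j, Function.Injective (g j) := by
    intro j a b hab
    have h1 : (1 / 2 : ℝ) ^ j * a = (1 / 2) ^ j * b := add_left_cancel hab
    exact mul_left_cancel₀ (by positivity) h1
  let P : ℕ → Set ℝ := fun j => g j '' C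
  have hPc : ∀ j, IsCompact (P j) := fun j => hC.image (hgc j)
  have hPacc : ∀ j, ∀ x ∈ P j, AccPt x (𝓟 (P j)) := by
    rintro j _ ⟨c, hc, rfl⟩
    have := (hCp c hc).map (f := g j) (hgc j).continuousAt (hgi j)
    rwa [map_principal] at this
  have hPq : ∀ j, q j ∈ P j := fun j => ⟨0, hC0, by simp [g]⟩
  have hPclose : ∀ j, ∀ x ∈ P j, dist x (q j) ≤ (1 / 2) ^ j := by
    rintro j _ ⟨c, hc, rfl⟩
    have h1 := hC1 hc
    rw [Real.dist_eq]
    have e : g j c - q j = (1 / 2) ^ j * c := by simp [g]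
    rw [e, abs_mul, abs_of_pos (by positivity : (0 : ℝ) < (1 / 2) ^ j)]
    have h2 : |c| ≤ 1 := abs_le.mpr ⟨h1.1, h1.2⟩
    have h3 : (0 : ℝ) < (1 / 2) ^ j := by positivity
    nlinarith
  set K : Set ℝ := F ∪ ⋃ j, P j with hK
  have hKF : F ⊆ K := subset_union_left
  have hKP : ∀ j, P j ⊆ K := fun j => (subset_iUnion P j).trans subset_union_right
  -- closedness
  have hclosed : IsClosed K := by
    have h : K = ⋂ m : ℕ, (cthickening ((1 / 2) ^ m) F ∪ ⋃ j ∈ {j | j < m}, P j) := by
      apply Subset.antisymm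
      · rintro x (hx | hx)
        · exact mem_iInter.mpr fun m => Or.inl (self_subset_cthickening F hx)
        · obtain ⟨j, hj⟩ := mem_iUnion.mp hx
          refine mem_iInter.mpr fun m => ?_
          rcases Nat.lt_or_ge j m with h | h
          · exact Or.inr (mem_iUnion₂.mpr ⟨j, h, hj⟩)
          · left
            apply mem_cthickening_of_dist_le x (q j) _ _ (hqF j)
            refine (hPclose j x hj).trans ?_
            exact pow_le_pow_of_le_one (by norm_num) (by norm_num) h
      · intro x hx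
        by_cases h0 : x ∈ F
        · exact Or.inl h0
        · by_cases h1 : ∃ j, x ∈ P j
          · obtain ⟨j, hj⟩ := h1
            exact hKP j hj
          · exfalso
            have h2 : ∀ m : ℕ, x ∈ cthickening ((1 / 2) ^ m) F := by
              intro m
              rcases mem_iInter.mp hx m with h | h
              · exact h
              · obtain ⟨j, -, hj⟩ := mem_iUnion₂.mp h
                exact absurd ⟨j, hj⟩ h1
            apply h0
            rw [← hF.isClosed.closure_eq, mem_closure_iff_infEDist_zero]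
            apply le_antisymm _ zero_le
            have ht : Tendsto (fun m : ℕ => ENNReal.ofReal ((1 / 2) ^ m)) atTop (𝓝 0) := by
              have := ENNReal.tendsto_ofReal (tendsto_pow_atTop_nhds_zero_of_lt_one
                (by norm_num : (0 : ℝ) ≤ 1 / 2) (by norm_num))
              simpa using this
            exact ge_of_tendsto' ht fun m => h2 m
    rw [h]
    refine isClosed_iInter fun m => isClosed_cthickening.union ?_
    exact (Set.finite_lt_nat m).isClosed_biUnion fun j _ => (hPc j).isClosed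
  have hcompact : IsCompact K := by
    apply IsCompact.of_isClosed_subset (hF.cthickening (r := 1)) hclosed
    rintro x (hx | hx)
    · exact self_subset_cthickening F hx
    · obtain ⟨j, hj⟩ := mem_iUnion.mp hx
      apply mem_cthickening_of_dist_le x (q j) _ _ (hqF j)
      exact (hPclose j x hj).trans (pow_le_one₀ (by norm_num) (by norm_num))
  have hdim : dimH K = 0 := by
    rw [hK, dimH_union, hd, dimH_iUnion]
    have : ∀ j, dimH (P j) = 0 := by
      intro j
      apply le_antisymm _ zero_le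
      have hl : LipschitzWith 1 (g j) := by
        apply LipschitzWith.of_dist_le_mul
        intro a b
        rw [Real.dist_eq, Real.dist_eq]
        have e : g j a - g j b = (1 / 2) ^ j * (a - b) := by simp [g]; ring
        rw [e, abs_mul, abs_of_pos (by positivity : (0 : ℝ) < (1 / 2) ^ j), NNReal.coe_one]
        gcongr
        exact pow_le_one₀ (by norm_num) (by norm_num)
      refine (hl.dimH_image_le C).trans hCd.le
    simp [this]
  refine ⟨K, ⟨hne.mono hKF, hcompact, totallyDisconnected_of_dimH hdim, ?_⟩, hKF, hdim⟩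
  -- no isolated points
  have hP2 : ∀ j, ∀ x ∈ P j, AccPt x (𝓟 K) := fun j x hx =>
    (hPacc j x hx).mono (principal_mono.mpr (hKP j))
  rintro x (hx | hx)
  · rw [accPt_iff_nhds]
    intro U hU
    obtain ⟨ε, hε, hεU⟩ := Metric.mem_nhds_iff.mp hU
    obtain ⟨j, hj⟩ := hqd x hx ε hε
    by_cases hxj : q j = x
    · have h1 := hP2 j (q j) (hPq j)
      rw [hxj, accPt_iff_nhds] at h1
      exact h1 U hU
    · exact ⟨q j, ⟨hεU hj, hKF (hqF j)⟩, hxj⟩
  · obtain ⟨j, hj⟩ := mem_iUnion.mp hx
    exact hP2 j x hj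

/-- A universal Cantor set of Hausdorff dimension zero: all sufficiently small patterns are
realised up to translation. -/
theorem exists_universal_cantor : ∃ K : Set ℝ, IsCantor K ∧ dimH K = 0 ∧
    ∀ n : ℕ, ∃ δ > (0 : ℝ), ∀ s : Fin n → ℝ, (∀ τ, s τ ∈ Icc 0 δ) →
      ∃ x : ℝ, ∀ τ, x + s τ ∈ K := by
  obtain ⟨K, hK, hsub, hdim⟩ := exists_cantor_superset isCompact_base
    ⟨0, mem_iUnion.mpr ⟨0, zero_mem_comp 0⟩⟩ dimH_base
  refine ⟨K, hK, hdim, fun n => ?_⟩
  obtain ⟨δ, hδ, h⟩ := pattern n
  refine ⟨δ, hδ, fun s hs => ?_⟩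
  obtain ⟨x, hx⟩ := h (fun τ => if hτ : τ < n then s ⟨τ, hτ⟩ else 0) (by
    intro τ hτ
    simp only [hτ, dif_pos]
    exact hs _)
  refine ⟨x, fun τ => hsub ?_⟩
  have := hx τ.1 τ.2
  simpa using this

end Q76.UniversalCantor
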