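import Mathlib
import Pool.Agent.Q76.UniversalCantor

/-!
# Infinitely many disjoint open sets accumulating at a common set of positive measure

`wada k` are pairwise disjoint open subsets of `ℝ` and `core ⊆ [0, 1]` has positive Lebesgue
measure; every neighbourhood of every point of `core` meets `wada k` for all large `k`.
-/

namespace Q76.WadaSets

open MeasureTheory Filter Topology Set Metric
open scoped ENNReal

/-- Frequencies. -/
noncomputable def N (k : ℕ) : ℝ := 2 ^ ((k + 5) ^ 2)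

/-- Tolerances. -/
noncomputable def tol (k : ℕ) : ℝ := (1 / 2) ^ (k + 6)

lemma N_pos (k : ℕ) : 0 < N k := by unfold N; positivity

lemma N_ge_one (k : ℕ) : 1 ≤ N k := one_le_pow₀ (by norm_num)

lemma tol_pos (k : ℕ) : 0 < tol k := by unfold tol; positivity

lemma N_ratio {i k : ℕ} (h : i < k) : N i / N k < tol i := by
  unfold N tol
  have h1 : (i + 5) ^ 2 + (i + 6 + 1) ≤ (k + 5) ^ 2 := by
    have : i + 1 ≤ k := h
    have h2 : (i + 1 + 5) ^ 2 ≤ (k + 5) ^ 2 := by gcongr
    nlinarith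
  rw [div_lt_iff₀ (by positivity), one_div, inv_pow, inv_mul_eq_div, lt_div_iff₀ (by positivity),
    ← pow_add]
  apply pow_lt_pow_right₀ (by norm_num)
  omega

/-- The disjoint open sets. -/
def wada (k : ℕ) : Set ℝ :=
  {s | ‖((N k * s : ℝ) : UnitAddCircle)‖ < tol k ∧
    ∀ i < k, tol i < ‖((N i * s : ℝ) : UnitAddCircle)‖}

/-- The common accumulation set. -/
def core : Set ℝ := {s | s ∈ Icc (0 : ℝ) 1 ∧ ∀ k, 2 * tol k ≤ ‖((N k * s : ℝ) : UnitAddCircle)‖}

lemma continuous_norm (k : ℕ) : Continuous fun s : ℝ => ‖((N k * s : ℝ) : UnitAddCircle)‖ :=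
  ((AddCircle.continuous_mk' 1).comp (continuous_const.mul continuous_id)).norm

lemma isOpen_wada (k : ℕ) : IsOpen (wada k) := by
  have : wada k = {s | ‖((N k * s : ℝ) : UnitAddCircle)‖ < tol k} ∩
      ⋂ i ∈ {i | i < k}, {s | tol i < ‖((N i * s : ℝ) : UnitAddCircle)‖} := by
    ext s; simp [wada]
  rw [this]
  refine (isOpen_lt (continuous_norm k) continuous_const).inter ?_
  exact (Set.finite_lt_nat k).isOpen_biInter fun i _ =>
    isOpen_lt continuous_const (continuous_norm i)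

lemma disjoint_wada {i k : ℕ} (h : i ≠ k) {s : ℝ} (hi : s ∈ wada i) (hk : s ∈ wada k) : False := by
  rcases lt_or_gt_of_ne h with h | h
  · exact absurd (hk.2 i h) (not_lt.mpr hi.1.le)
  · exact absurd (hi.2 k h) (not_lt.mpr hk.1.le)

lemma wada_near_core {s₀ : ℝ} (hs₀ : s₀ ∈ core) (k : ℕ) : ∃ s ∈ wada k, |s - s₀| ≤ 1 / N k := by
  have hN := N_pos k
  set m : ℤ := ⌊N k * s₀⌋ with hm
  have h1 : (m : ℝ) ≤ N k * s₀ := Int.floor_le _
  have h2 : N k * s₀ < m + 1 := Int.lt_floor_add_one _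
  have hdist : |m / N k - s₀| ≤ 1 / N k := by
    have e : (m : ℝ) / N k - s₀ = (m - N k * s₀) / N k := by field_simp
    rw [e, abs_div, abs_of_pos hN]
    gcongr
    rw [abs_le]
    constructor <;> linarith
  refine ⟨m / N k, ⟨?_, fun i hi => ?_⟩, hdist⟩
  · have h3 : ‖((N k * (m / N k) : ℝ) : UnitAddCircle)‖ ≤ 0 := by
      apply Q76.UniversalCantor.norm_le_of_int m
      rw [mul_div_cancel₀ _ hN.ne']
      simp
    exact h3.trans_lt (tol_pos k)
  · have h3 := hs₀.2 i
    have h4 : ‖((N i * s₀ : ℝ) : UnitAddCircle)‖ ≤ ‖((N i * (m / N k) : ℝ) : UnitAddCircle)‖ +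
        N i / N k := by
      have e : ((N i * s₀ : ℝ) : UnitAddCircle) = ((N i * (m / N k) : ℝ) : UnitAddCircle) +
          ((N i * (s₀ - m / N k) : ℝ) : UnitAddCircle) := by
        rw [← AddCircle.coe_add]
        congr 1
        ring
      rw [e]
      refine (norm_add_le _ _).trans ?_
      gcongr
      apply Q76.UniversalCantor.norm_le_of_int 0
      rw [Int.cast_zero, sub_zero, abs_mul, abs_of_pos (N_pos i), abs_sub_comm]
      calc N i * |m / N k - s₀| ≤ N i * (1 / N k) := by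
            have := N_pos i
            gcongr
        _ = N i / N k := by ring
    have h5 := N_ratio hi
    linarith

/-- Measure of a level set. -/
lemma volume_level (n : ℕ) (hn : 0 < n) {b : ℝ} (hb : 0 ≤ b) (hb1 : b ≤ 1 / 2) :
    volume {s | s ∈ Icc (0 : ℝ) 1 ∧ ‖(((n : ℝ) * s : ℝ) : UnitAddCircle)‖ < b} ≤
      ENNReal.ofReal (4 * b) := by
  have hn0 : (0 : ℝ) < n := by exact_mod_cast hn
  have hn1 : (1 : ℝ) ≤ n := by exact_mod_cast hn
  have hcov : {s | s ∈ Icc (0 : ℝ) 1 ∧ ‖(((n : ℝ) * s : ℝ) : UnitAddCircle)‖ < b} ⊆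
      ⋃ m : Fin (n + 1), closedBall ((m : ℝ) / n) (b / n) := by
    rintro s ⟨⟨hs0, hs1⟩, hs⟩
    obtain ⟨m, hm⟩ := Q76.UniversalCantor.exists_int_of_norm_le hs.le
    rw [abs_le] at hm
    have hm0 : 0 ≤ m := by
      have h1 : (-1 : ℝ) < m := by
        have : 0 ≤ (n : ℝ) * s := by positivity
        linarith [hm.2]
      have h2 : (-1 : ℤ) < m := by exact_mod_cast h1
      omega
    have hm1 : m ≤ n := by
      have h1 : (m : ℝ) < n + 1 := by
        have : (n : ℝ) * s ≤ n * 1 := by gcongr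
        linarith [hm.1]
      have h2 : m < (n : ℤ) + 1 := by exact_mod_cast h1
      omega
    refine mem_iUnion.mpr ⟨⟨m.toNat, by omega⟩, ?_⟩
    have hcast : ((m.toNat : ℕ) : ℝ) = (m : ℝ) := by
      exact_mod_cast Int.toNat_of_nonneg hm0
    rw [mem_closedBall, Real.dist_eq]
    simp only [hcast]
    have e : s - (m : ℝ) / n = ((n : ℝ) * s - m) / n := by
      field_simp
    rw [e, abs_div, abs_of_pos hn0]
    gcongr
    rw [abs_le]
    exact hm
  calc volume {s | s ∈ Icc (0 : ℝ) 1 ∧ ‖(((n : ℝ) * s : ℝ) : UnitAddCircle)‖ < b}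
      ≤ volume (⋃ m : Fin (n + 1), closedBall ((m : ℝ) / n) (b / n)) := measure_mono hcov
    _ ≤ ∑ m : Fin (n + 1), volume (closedBall ((m : ℝ) / n) (b / n)) :=
        measure_iUnion_fintype_le _ _
    _ = ∑ _m : Fin (n + 1), ENNReal.ofReal (2 * (b / n)) := by
        simp only [Real.volume_closedBall]
    _ = ENNReal.ofReal (((n : ℝ) + 1) * (2 * (b / n))) := by
        have e : ((n + 1 : ℕ) : ℝ≥0∞) = ENNReal.ofReal ((n : ℝ) + 1) := by
          rw [← Nat.cast_succ, ENNReal.ofReal_natCast]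
        rw [Finset.sum_const, Finset.card_univ, Fintype.card_fin, nsmul_eq_mul, e,
          ← ENNReal.ofReal_mul (by positivity)]
    _ ≤ ENNReal.ofReal (4 * b) := by
        apply ENNReal.ofReal_le_ofReal
        rw [← mul_div_assoc, ← mul_div_assoc, div_le_iff₀ hn0]
        nlinarith

lemma measurableSet_core : MeasurableSet core := by
  have : core = Icc (0 : ℝ) 1 ∩ ⋂ k, {s | 2 * tol k ≤ ‖((N k * s : ℝ) : UnitAddCircle)‖} := by
    ext s; simp [core]
  rw [this]
  exact (isClosed_Icc.inter (isClosed_iInter fun k =>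
    isClosed_le continuous_const (continuous_norm k))).measurableSet

lemma volume_core : 0 < volume core := by
  have hsub : Icc (0 : ℝ) 1 ⊆ core ∪
      ⋃ k : ℕ, {s | s ∈ Icc (0 : ℝ) 1 ∧ ‖((N k * s : ℝ) : UnitAddCircle)‖ < 2 * tol k} := by
    intro s hs
    by_cases h : ∀ k, 2 * tol k ≤ ‖((N k * s : ℝ) : UnitAddCircle)‖
    · exact Or.inl ⟨hs, h⟩
    · push Not at h
      obtain ⟨k, hk⟩ := h
      exact Or.inr (mem_iUnion.mpr ⟨k, hs, hk⟩)
  have hk : ∀ k : ℕ, volume {s | s ∈ Icc (0 : ℝ) 1 ∧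
      ‖((N k * s : ℝ) : UnitAddCircle)‖ < 2 * tol k} ≤ ENNReal.ofReal ((1 / 2) ^ (k + 3)) := by
    intro k
    have h1 := volume_level (2 ^ ((k + 5) ^ 2)) (by positivity) (b := 2 * tol k)
      (by have := tol_pos k; positivity) (by
        unfold tol
        have : ((1 : ℝ) / 2) ^ (k + 6) ≤ (1 / 2) ^ 6 :=
          pow_le_pow_of_le_one (by norm_num) (by norm_num) (by omega)
        norm_num at this ⊢
        linarith)
    have e1 : (((2 ^ ((k + 5) ^ 2) : ℕ) : ℝ)) = N k := by unfold N; push_cast; rfl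
    rw [e1] at h1
    refine h1.trans (ENNReal.ofReal_le_ofReal ?_)
    unfold tol
    have : ((1 : ℝ) / 2) ^ (k + 6) = (1 / 2) ^ (k + 3) * (1 / 8) := by
      rw [show k + 6 = (k + 3) + 3 by ring, pow_add]
      norm_num
    rw [this]
    have : (0 : ℝ) ≤ (1 / 2) ^ (k + 3) := by positivity
    linarith
  have hsum : ∑' k : ℕ, ENNReal.ofReal ((1 / 2) ^ (k + 3)) = ENNReal.ofReal (1 / 4) := by
    rw [← ENNReal.ofReal_tsum_of_nonneg (fun k => by positivity)]
    · congr 1
      have h1 : ∀ k : ℕ, ((1 : ℝ) / 2) ^ (k + 3) = (1 / 2) ^ k * (1 / 8) := by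
        intro k; rw [pow_add]; norm_num
      simp_rw [h1]
      rw [tsum_mul_right, tsum_geometric_two]
      norm_num
    · exact (summable_nat_add_iff 3).mpr summable_geometric_two
  by_contra hcon
  have h0 : volume core = 0 := by simpa using hcon
  have h1 : volume (Icc (0 : ℝ) 1) ≤ ENNReal.ofReal (1 / 4) := by
    calc volume (Icc (0 : ℝ) 1) ≤ volume core + volume (⋃ k : ℕ, {s | s ∈ Icc (0 : ℝ) 1 ∧
          ‖((N k * s : ℝ) : UnitAddCircle)‖ < 2 * tol k}) :=
          (measure_mono hsub).trans (measure_union_le _ _)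
      _ ≤ 0 + ∑' k : ℕ, volume {s | s ∈ Icc (0 : ℝ) 1 ∧
          ‖((N k * s : ℝ) : UnitAddCircle)‖ < 2 * tol k} :=
          add_le_add h0.le (measure_iUnion_le _)
      _ ≤ ∑' k : ℕ, ENNReal.ofReal ((1 / 2) ^ (k + 3)) := by
          rw [zero_add]
          exact ENNReal.tsum_le_tsum hk
      _ = ENNReal.ofReal (1 / 4) := hsum
  rw [Real.volume_Icc] at h1
  have h2 := (ENNReal.ofReal_le_ofReal_iff (by norm_num)).mp h1
  norm_num at h2

lemma one_div_N_le (k : ℕ) : 1 / N k ≤ (1 / 2) ^ k := by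
  unfold N
  rw [one_div_pow]
  apply one_div_le_one_div_of_le (by positivity)
  apply pow_le_pow_right₀ (by norm_num)
  nlinarith

end Q76.WadaSets
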