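import Mathlib
import Pool.Agent.Q76.WadaSets
import Pool.Agent.Q76.SmoothSeries

/-!
# Smooth densities all of whose `W₁`-optimal couplings have support of dimension `n + 1`
-/

namespace Q76.FatPlan

open MeasureTheory Filter Topology Set Metric Q76.WadaSets
open scoped ENNReal ContDiff

/-- Euclidean space of dimension `m + 2`. -/
abbrev E (m : ℕ) := EuclideanSpace ℝ (Fin (m + 2))

/-- The direction of transport. -/
noncomputable def e₀ (m : ℕ) : E m := EuclideanSpace.single 0 1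

lemma exists_labels : ∃ α β : ℕ → ℝ, (∀ k, α k ∈ Icc (0 : ℝ) 1) ∧ (∀ k, β k ∈ Icc (2 : ℝ) 3) ∧
    ∀ a ∈ Icc (0 : ℝ) 1, ∀ b ∈ Icc (2 : ℝ) 3, ∀ ε > 0, ∀ K : ℕ, ∃ k ≥ K,
      |α k - a| < ε ∧ |β k - b| < ε := by
  let d := TopologicalSpace.denseSeq (ℝ × ℝ)
  have hd : DenseRange d := TopologicalSpace.denseRange_denseSeq _
  have h23 : (2 : ℝ) ≤ 3 := by norm_num
  refine ⟨fun k => projIcc (0 : ℝ) 1 zero_le_one (d k.unpair.1).1,
    fun k => projIcc (2 : ℝ) 3 h23 (d k.unpair.1).2, fun k => Subtype.coe_prop _,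
    fun k => Subtype.coe_prop _, ?_⟩
  intro a ha b hb ε hε K
  obtain ⟨j, hj⟩ := hd.exists_dist_lt (a, b) hε
  refine ⟨Nat.pair j K, Nat.right_le_pair j K, ?_⟩
  simp only [Nat.unpair_pair]
  rw [Prod.dist_eq, max_lt_iff, Real.dist_eq, Real.dist_eq] at hj
  constructor
  · have h1 : (projIcc (0 : ℝ) 1 zero_le_one a : ℝ) = a := by rw [projIcc_of_mem _ ha]
    have h2 := abs_projIcc_sub_projIcc (c := (d j).1) (d := a) (zero_le_one (α := ℝ))
    rw [h1] at h2
    refine h2.trans_lt ?_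
    rw [abs_sub_comm]
    exact hj.1
  · have h1 : (projIcc (2 : ℝ) 3 h23 b : ℝ) = b := by rw [projIcc_of_mem _ hb]
    have h2 := abs_projIcc_sub_projIcc (c := (d j).2) (d := b) h23
    rw [h1] at h2
    refine h2.trans_lt ?_
    rw [abs_sub_comm]
    exact hj.2

/-- The cells. -/
def cell (m : ℕ) (α : ℕ → ℝ) (k : ℕ) : Set (E m) :=
  {x | |x 0 - α k| < (1 / 2) ^ k ∧ x 1 ∈ wada k ∧ ∀ j, x j ∈ Ioo (-1 : ℝ) 2}

lemma continuous_coord {m : ℕ} (j : Fin (m + 2)) : Continuous (fun x : E m => (x j : ℝ)) := by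
  fun_prop

lemma isOpen_cell (m : ℕ) (α : ℕ → ℝ) (k : ℕ) : IsOpen (cell m α k) := by
  have h0 : Continuous fun x : E m => |x 0 - α k| := by fun_prop
  refine (isOpen_lt h0 continuous_const).inter
    (((isOpen_wada k).preimage (continuous_coord 1)).inter ?_)
  have : {x : E m | ∀ j, x j ∈ Ioo (-1 : ℝ) 2} = ⋂ j, (fun x : E m => x j) ⁻¹' Ioo (-1 : ℝ) 2 := by
    ext x; simp
  have h1 : IsOpen {x : E m | ∀ j, x j ∈ Ioo (-1 : ℝ) 2} := by
    rw [this]
    exact isOpen_iInter_of_finite fun j => isOpen_Ioo.preimage (continuous_coord j)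
  exact h1

lemma norm_le_of_coord {m : ℕ} {x : E m} {r : ℝ} (hr : 0 ≤ r) (h : ∀ j, |x j| ≤ r) :
    ‖x‖ ≤ (m + 2) * r := by
  have h1 : ‖x‖ ^ 2 ≤ ((m + 2) * r) ^ 2 := by
    rw [EuclideanSpace.norm_sq_eq]
    calc ∑ i, ‖x i‖ ^ 2 ≤ ∑ _i : Fin (m + 2), r ^ 2 := by
          apply Finset.sum_le_sum
          intro i _
          rw [Real.norm_eq_abs]
          gcongr
          exact h i
      _ = (m + 2) * r ^ 2 := by simp
      _ ≤ ((m + 2) * r) ^ 2 := by
          have : (1 : ℝ) ≤ m + 2 := by linarith [(Nat.cast_nonneg m : (0 : ℝ) ≤ m)]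
          nlinarith [sq_nonneg r, mul_nonneg (by linarith : (0 : ℝ) ≤ m + 2) (sq_nonneg r)]
  exact (abs_le_of_sq_le_sq' h1 (by positivity)).2

lemma abs_coord_le_norm {m : ℕ} (x : E m) (j : Fin (m + 2)) : |x j| ≤ ‖x‖ := by
  have := PiLp.norm_apply_le x j
  rwa [Real.norm_eq_abs] at this

/-- If the displacement has length equal to its `0`-th coordinate then the other coordinates
agree. -/
lemma coord_eq_of_dist {m : ℕ} {x y : E m} (h : dist x y = y 0 - x 0) {j : Fin (m + 2)}
    (hj : j ≠ 0) : x j = y j := by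
  have h1 : ‖x - y‖ ^ 2 = (y 0 - x 0) ^ 2 := by rw [← dist_eq_norm, h]
  rw [EuclideanSpace.norm_sq_eq, Fin.sum_univ_succ] at h1
  obtain ⟨i, rfl⟩ := Fin.exists_succ_eq.mpr hj
  have h2 : ‖(x - y) i.succ‖ ^ 2 ≤ ∑ i : Fin (m + 1), ‖(x - y) i.succ‖ ^ 2 :=
    Finset.single_le_sum (f := fun i : Fin (m + 1) => ‖(x - y) i.succ‖ ^ 2)
      (fun i _ => by positivity) (Finset.mem_univ i)
  have h3 : ‖(x - y) 0‖ ^ 2 = (y 0 - x 0) ^ 2 := by
    rw [Real.norm_eq_abs, sq_abs]
    simp only [PiLp.sub_apply]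
    ring
  have h4 : ‖(x - y) i.succ‖ ^ 2 ≤ 0 := by linarith
  have h5 : (x - y) i.succ = 0 := by
    have : ‖(x - y) i.succ‖ = 0 := by
      have := sq_nonneg ‖(x - y) i.succ‖
      nlinarith [norm_nonneg ((x - y) i.succ)]
    exact norm_eq_zero.mp this
  simp only [PiLp.sub_apply] at h5
  linarith

/-- The measure with density `u`. -/
noncomputable def M {m : ℕ} (u : E m → ℝ) : Measure (E m) :=
  volume.withDensity fun x => ENNReal.ofReal (u x)

lemma M_translate {m : ℕ} {u : E m → ℝ} (hu : Continuous u) (a : E m) :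
    M (fun x => u (x - a)) = (M u).map (fun x => x + a) := by
  ext A hA
  have hmeas : Measurable fun x : E m => x + a := measurable_id.add_const a
  rw [Measure.map_apply hmeas hA]
  unfold M
  rw [withDensity_apply _ hA, withDensity_apply _ (hmeas hA)]
  have h1 := (measurePreserving_add_right (volume : Measure (E m)) a).setLIntegral_comp_preimage
    hA (f := fun x => ENNReal.ofReal (u (x - a)))
    ((hu.comp (continuous_id.sub continuous_const)).measurable.ennreal_ofReal)
  rw [← h1]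
  simp

lemma M_apply_univ {m : ℕ} (u : E m → ℝ) : M u univ = ∫⁻ x, ENNReal.ofReal (u x) := by
  unfold M
  rw [withDensity_apply _ MeasurableSet.univ, Measure.restrict_univ]

/-- The data of the construction. -/
structure Data (m : ℕ) where
  α : ℕ → ℝ
  β : ℕ → ℝ
  c : ℕ → ℝ
  h : ℕ → E m → ℝ
  hα : ∀ k, α k ∈ Icc (0 : ℝ) 1
  hβ : ∀ k, β k ∈ Icc (2 : ℝ) 3
  hdense : ∀ a ∈ Icc (0 : ℝ) 1, ∀ b ∈ Icc (2 : ℝ) 3, ∀ ε > 0, ∀ K : ℕ, ∃ k ≥ K,
      |α k - a| < ε ∧ |β k - b| < ε
  hc : ∀ i, 0 < c i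
  hsupp : ∀ i, Function.support (h i) = cell m α i
  h0 : ∀ i x, 0 ≤ h i x
  hcont : ∀ i, Continuous (h i)
  hbound : ∃ C : ℝ, ∀ i x, c i * h i x ≤ C * (1 / 2) ^ i
  smooth : ∀ a : ℕ → E m, ContDiff ℝ ∞ (fun x => ∑' i, c i * h i (x - a i))
  mass : ∑' i, ∫⁻ x, ENNReal.ofReal (c i * h i x) = 1

namespace Data

variable {m : ℕ} (D : Data m)

/-- A superposition of translates. -/
noncomputable def dens (a : ℕ → E m) (x : E m) : ℝ := ∑' i, D.c i * D.h i (x - a i)

/-- The displacements. -/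
noncomputable def disp (i : ℕ) : E m := (D.β i - D.α i) • e₀ m

lemma summable (a : ℕ → E m) (x : E m) : Summable fun i => D.c i * D.h i (x - a i) := by
  obtain ⟨C, hC⟩ := D.hbound
  exact Summable.of_nonneg_of_le (fun i => mul_nonneg (D.hc i).le (D.h0 i _))
    (fun i => hC i _) (summable_geometric_two.mul_left C)

lemma dens_nonneg (a : ℕ → E m) (x : E m) : 0 ≤ D.dens a x :=
  tsum_nonneg fun i => mul_nonneg (D.hc i).le (D.h0 i _)

lemma M_dens (a : ℕ → E m) : M (D.dens a) =
    Measure.sum fun i => (M fun x => D.c i * D.h i x).map (fun x => x + a i) := by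
  have h1 : (fun x => ENNReal.ofReal (D.dens a x)) =
      ∑' i, fun x => ENNReal.ofReal (D.c i * D.h i (x - a i)) := by
    ext x
    rw [tsum_apply (Pi.summable.mpr fun _ => ENNReal.summable)]
    unfold dens
    exact ENNReal.ofReal_tsum_of_nonneg (fun i => mul_nonneg (D.hc i).le (D.h0 i _))
      (D.summable a x)
  have hmeas : ∀ i, Measurable fun x : E m => ENNReal.ofReal (D.c i * D.h i (x - a i)) := fun i =>
    (continuous_const.mul ((D.hcont i).comp
      (continuous_id.sub continuous_const))).measurable.ennreal_ofReal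
  unfold M
  rw [h1, withDensity_tsum hmeas]
  congr 1
  ext1 i
  exact M_translate (u := fun x => D.c i * D.h i x) (continuous_const.mul (D.hcont i)) (a i)

lemma M_dens_univ (a : ℕ → E m) : M (D.dens a) univ = 1 := by
  rw [M_dens, Measure.sum_apply _ MeasurableSet.univ, ← D.mass]
  congr 1
  ext1 i
  have hmeas : Measurable fun x : E m => x + a i := measurable_id.add_const _
  rw [Measure.map_apply hmeas MeasurableSet.univ, preimage_univ, M_apply_univ]

instance (a : ℕ → E m) : IsProbabilityMeasure (M (D.dens a)) := ⟨D.M_dens_univ a⟩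

/-- The first density. -/
noncomputable def f : E m → ℝ := D.dens fun _ => 0

/-- The second density. -/
noncomputable def g : E m → ℝ := D.dens D.disp

lemma h_eq_zero {i : ℕ} {x : E m} (hx : x ∉ cell m D.α i) : D.h i x = 0 := by
  rw [← D.hsupp i] at hx
  exact Function.notMem_support.mp hx

lemma h_pos {i : ℕ} {x : E m} (hx : x ∈ cell m D.α i) : 0 < D.h i x := by
  rw [← D.hsupp i] at hx
  exact lt_of_le_of_ne (D.h0 i x) (Ne.symm hx)

lemma f_pos {i : ℕ} {x : E m} (hx : x ∈ cell m D.α i) : 0 < D.f x := by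
  have h1 : D.c i * D.h i (x - 0) ≤ D.f x :=
    (D.summable (fun _ => 0) x).le_tsum i fun j _ => mul_nonneg (D.hc j).le (D.h0 j _)
  rw [sub_zero] at h1
  exact (mul_pos (D.hc i) (D.h_pos hx)).trans_le h1

/-- On the strip `wada k` the second density is supported in a thin slab. -/
lemma of_g_pos {k : ℕ} {y : E m} (hy : 0 < D.g y) (hk : y 1 ∈ wada k) :
    |y 0 - D.β k| < (1 / 2) ^ k := by
  by_contra hcon
  have h1 : ∀ i, D.c i * D.h i (y - D.disp i) = 0 := by
    intro i
    have h2 : D.h i (y - D.disp i) = 0 := by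
      apply D.h_eq_zero
      rintro ⟨h3, h4, h5⟩
      have e1 : (y - D.disp i) 1 = y 1 := by simp [disp, e₀]
      rw [e1] at h4
      have hik : i = k := by
        by_contra hne
        exact disjoint_wada hne h4 hk
      subst hik
      have e2 : (y - D.disp i) 0 - D.α i = y 0 - D.β i := by
        simp only [disp, e₀, PiLp.sub_apply, PiLp.smul_apply, PiLp.single_apply,
          if_true, smul_eq_mul, mul_one]
        ring
      rw [e2] at h3
      exact hcon h3
    rw [h2, mul_zero]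
  have h3 : D.g y = 0 := by
    unfold g dens
    simp_rw [h1]
    exact tsum_zero
  exact hy.ne' h3

/-- The explicit coupling. -/
noncomputable def plan : Measure (E m × E m) :=
  Measure.sum fun i => (M fun x => D.c i * D.h i x).map (fun x => (x, x + D.disp i))

lemma measurable_pair (i : ℕ) : Measurable fun x : E m => (x, x + D.disp i) :=
  measurable_id.prodMk (measurable_id.add_const _)

lemma plan_fst (A : Set (E m)) (hA : MeasurableSet A) : D.plan (A ×ˢ univ) = M D.f A := by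
  unfold plan f
  rw [M_dens, Measure.sum_apply _ (hA.prod MeasurableSet.univ), Measure.sum_apply _ hA]
  congr 1
  ext1 i
  have hmeas : Measurable fun x : E m => x + (0 : E m) := measurable_id.add_const _
  rw [Measure.map_apply (D.measurable_pair i) (hA.prod MeasurableSet.univ),
    Measure.map_apply hmeas hA]
  congr 1
  ext x
  simp

lemma plan_snd (A : Set (E m)) (hA : MeasurableSet A) : D.plan (univ ×ˢ A) = M D.g A := by
  unfold plan g
  rw [M_dens, Measure.sum_apply _ (MeasurableSet.univ.prod hA), Measure.sum_apply _ hA]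
  congr 1
  ext1 i
  have hmeas : Measurable fun x : E m => x + D.disp i := measurable_id.add_const _
  rw [Measure.map_apply (D.measurable_pair i) (MeasurableSet.univ.prod hA),
    Measure.map_apply hmeas hA]
  congr 1
  ext x
  simp

lemma plan_ae : ∀ᵐ p ∂D.plan, dist p.1 p.2 = p.2 0 - p.1 0 := by
  unfold plan
  rw [Measure.ae_sum_iff]
  intro i
  have hms : MeasurableSet {p : E m × E m | dist p.1 p.2 = p.2 0 - p.1 0} := by
    apply measurableSet_eq_fun
    · exact (continuous_fst.dist continuous_snd).measurable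
    · have h1 : Continuous fun p : E m × E m => (p.2 0 : ℝ) - p.1 0 := by fun_prop
      exact h1.measurable
  rw [ae_map_iff (D.measurable_pair i).aemeasurable hms]
  refine Eventually.of_forall fun x => ?_
  have h1 : 0 ≤ D.β i - D.α i := by linarith [(D.hβ i).1, (D.hα i).2]
  have e1 : dist x (x + D.disp i) = D.β i - D.α i := by
    rw [dist_self_add_right, disp, norm_smul, Real.norm_eq_abs, abs_of_nonneg h1, e₀,
      PiLp.norm_single]
    simp
  simp only [e1]
  simp [disp, e₀]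

end Data

/-- The definition of a coupling. -/
structure IsCoupling {X : Type*} [MeasurableSpace X] (μ ν : Measure X) (π : Measure (X × X)) :
    Prop where
  fst : ∀ A, MeasurableSet A → π (A ×ˢ univ) = μ A
  snd : ∀ A, MeasurableSet A → π (univ ×ˢ A) = ν A

/-- The transport cost. -/
noncomputable def cost {X : Type*} [MeasurableSpace X] [PseudoEMetricSpace X]
    (π : Measure (X × X)) : ℝ≥0∞ := ∫⁻ p, edist p.1 p.2 ∂π

lemma IsCoupling.map_fst {X : Type*} [MeasurableSpace X] {μ ν : Measure X} {π : Measure (X × X)}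
    (h : IsCoupling μ ν π) : π.map Prod.fst = μ := by
  ext A hA
  rw [Measure.map_apply measurable_fst hA, ← prod_univ, h.fst A hA]

lemma IsCoupling.map_snd {X : Type*} [MeasurableSpace X] {μ ν : Measure X} {π : Measure (X × X)}
    (h : IsCoupling μ ν π) : π.map Prod.snd = ν := by
  ext A hA
  rw [Measure.map_apply measurable_snd hA, ← univ_prod, h.snd A hA]

lemma IsCoupling.isFiniteMeasure {X : Type*} [MeasurableSpace X] {μ ν : Measure X}
    {π : Measure (X × X)} (h : IsCoupling μ ν π) [IsFiniteMeasure μ] : IsFiniteMeasure π := by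
  refine ⟨?_⟩
  rw [← univ_prod_univ, h.fst univ MeasurableSet.univ]
  exact measure_lt_top _ _

section abstract

variable {m : ℕ} {μ ν : Measure (E m)} [IsFiniteMeasure μ]

lemma integrable_coord {ρ : Measure (E m)} [IsFiniteMeasure ρ] {R : ℝ}
    (h : ∀ᵐ x ∂ρ, ‖x‖ ≤ R) : Integrable (fun x : E m => x 0) ρ := by
  refine Integrable.of_bound (continuous_coord 0).aestronglyMeasurable R ?_
  filter_upwards [h] with x hx
  exact (abs_coord_le_norm x 0).trans hx

lemma coupling_facts {R : ℝ} (hμ : ∀ᵐ x ∂μ, ‖x‖ ≤ R) (hν : ∀ᵐ x ∂ν, ‖x‖ ≤ R)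
    {π : Measure (E m × E m)} (hπ : IsCoupling μ ν π) :
    Integrable (fun p : E m × E m => dist p.1 p.2) π ∧
    Integrable (fun p : E m × E m => p.2 0 - p.1 0) π ∧
    ∫ p, (p.2 0 - p.1 0) ∂π = ∫ y, y 0 ∂ν - ∫ x, x 0 ∂μ ∧
    cost π = ENNReal.ofReal (∫ p, dist p.1 p.2 ∂π) := by
  have hfin := hπ.isFiniteMeasure
  have h1 : ∀ᵐ p ∂π, ‖p.1‖ ≤ R := by
    have := hμ
    rw [← hπ.map_fst] at this
    exact ae_of_ae_map measurable_fst.aemeasurable this
  have h2 : ∀ᵐ p ∂π, ‖p.2‖ ≤ R := by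
    have := hν
    rw [← hπ.map_snd] at this
    exact ae_of_ae_map measurable_snd.aemeasurable this
  have hi1 : Integrable (fun p : E m × E m => dist p.1 p.2) π := by
    refine Integrable.of_bound (continuous_fst.dist continuous_snd).aestronglyMeasurable (R + R) ?_
    filter_upwards [h1, h2] with p hp1 hp2
    rw [Real.norm_eq_abs, abs_of_nonneg dist_nonneg, dist_eq_norm]
    exact (norm_sub_le _ _).trans (add_le_add hp1 hp2)
  have hx : Integrable (fun p : E m × E m => p.1 0) π := by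
    refine Integrable.of_bound ((continuous_coord 0).comp continuous_fst).aestronglyMeasurable R ?_
    filter_upwards [h1] with p hp
    exact (abs_coord_le_norm p.1 0).trans hp
  have hy : Integrable (fun p : E m × E m => p.2 0) π := by
    refine Integrable.of_bound ((continuous_coord 0).comp continuous_snd).aestronglyMeasurable R ?_
    filter_upwards [h2] with p hp
    exact (abs_coord_le_norm p.2 0).trans hp
  refine ⟨hi1, hy.sub hx, ?_, ?_⟩
  · rw [integral_sub hy hx]
    congr 1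
    · rw [← hπ.map_snd, integral_map measurable_snd.aemeasurable
        (continuous_coord 0).aestronglyMeasurable]
    · rw [← hπ.map_fst, integral_map measurable_fst.aemeasurable
        (continuous_coord 0).aestronglyMeasurable]
  · unfold cost
    rw [ofReal_integral_eq_lintegral_ofReal hi1 (Eventually.of_forall fun p => dist_nonneg)]
    simp_rw [edist_dist]

lemma coord_le_dist (x y : E m) : y 0 - x 0 ≤ dist x y := by
  rw [dist_comm, dist_eq_norm]
  have := abs_coord_le_norm (y - x) 0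
  simp only [PiLp.sub_apply] at this
  exact (le_abs_self _).trans this

/-- The explicit coupling is optimal. -/
lemma cost_le_of_ae {R : ℝ} (hμ : ∀ᵐ x ∂μ, ‖x‖ ≤ R) (hν : ∀ᵐ x ∂ν, ‖x‖ ≤ R)
    {π₀ π : Measure (E m × E m)} (h₀ : IsCoupling μ ν π₀)
    (hae : ∀ᵐ p ∂π₀, dist p.1 p.2 = p.2 0 - p.1 0) (hπ : IsCoupling μ ν π) :
    cost π₀ ≤ cost π := by
  obtain ⟨a1, a2, a3, a4⟩ := coupling_facts hμ hν h₀
  obtain ⟨b1, b2, b3, b4⟩ := coupling_facts hμ hν hπ
  rw [a4, b4]
  apply ENNReal.ofReal_le_ofReal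
  rw [integral_congr_ae hae, a3, ← b3]
  exact integral_mono b2 b1 fun p => coord_le_dist p.1 p.2

/-- Every optimal coupling moves mass in the direction `e₀`. -/
lemma ae_of_cost_le {R : ℝ} (hμ : ∀ᵐ x ∂μ, ‖x‖ ≤ R) (hν : ∀ᵐ x ∂ν, ‖x‖ ≤ R)
    {π₀ π : Measure (E m × E m)} (h₀ : IsCoupling μ ν π₀)
    (hae : ∀ᵐ p ∂π₀, dist p.1 p.2 = p.2 0 - p.1 0) (hπ : IsCoupling μ ν π)
    (hle : cost π ≤ cost π₀) : ∀ᵐ p ∂π, dist p.1 p.2 = p.2 0 - p.1 0 := by
  obtain ⟨a1, a2, a3, a4⟩ := coupling_facts hμ hν h₀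
  obtain ⟨b1, b2, b3, b4⟩ := coupling_facts hμ hν hπ
  rw [a4, b4] at hle
  have h0 : 0 ≤ ∫ p, dist p.1 p.2 ∂π₀ := integral_nonneg fun p => dist_nonneg
  rw [ENNReal.ofReal_le_ofReal_iff h0, integral_congr_ae hae, a3, ← b3] at hle
  have h3 : ∫ p, (p.2 0 - p.1 0) ∂π ≤ ∫ p, dist p.1 p.2 ∂π :=
    integral_mono b2 b1 fun p => coord_le_dist p.1 p.2
  have h1 : ∫ p, (dist p.1 p.2 - (p.2 0 - p.1 0)) ∂π = 0 := by
    rw [integral_sub b1 b2]
    linarith
  have h4 : Integrable (fun p : E m × E m => dist p.1 p.2 - (p.2 0 - p.1 0)) π := b1.sub b2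
  have h5 : 0 ≤ fun p : E m × E m => dist p.1 p.2 - (p.2 0 - p.1 0) :=
    fun p => sub_nonneg.mpr (coord_le_dist p.1 p.2)
  have h2 : (fun p : E m × E m => dist p.1 p.2 - (p.2 0 - p.1 0)) =ᵐ[π] 0 :=
    (integral_eq_zero_iff_of_nonneg h5 h4).mp h1
  filter_upwards [h2] with p hp
  have hp' : dist p.1 p.2 - (p.2 0 - p.1 0) = 0 := hp
  linarith

end abstract

lemma exists_coord_ball {m : ℕ} {x₀ y₀ : E m} {U : Set (E m × E m)} (hU : U ∈ 𝓝 (x₀, y₀)) :
    ∃ ε > 0, ∀ x y : E m, (∀ j, |x j - x₀ j| < ε) → (∀ j, |y j - y₀ j| < ε) → (x, y) ∈ U := by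
  obtain ⟨δ, hδ, hδU⟩ := Metric.mem_nhds_iff.mp hU
  have hm : (0 : ℝ) < m + 3 := by positivity
  have hlt : ∀ x x' : E m, (∀ j, |x j - x' j| < δ / (m + 3)) → dist x x' < δ := by
    intro x x' h
    rw [dist_eq_norm]
    have h1 : ‖x - x'‖ ≤ (m + 2) * (δ / (m + 3)) :=
      norm_le_of_coord (by positivity) fun j => by
        rw [PiLp.sub_apply]
        exact (h j).le
    refine h1.trans_lt ?_
    rw [← mul_div_assoc, div_lt_iff₀ hm]
    nlinarith
  refine ⟨δ / (m + 3), by positivity, fun x y hx hy => hδU ?_⟩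
  rw [mem_ball, Prod.dist_eq]
  exact max_lt (hlt x x₀ hx) (hlt y y₀ hy)

namespace Data

variable {m : ℕ} (D : Data m)

lemma continuous_f : Continuous D.f := (D.smooth fun _ => 0).continuous

lemma continuous_g : Continuous D.g := (D.smooth D.disp).continuous

/-- The support of a coupling that moves mass in the direction `e₀` is large. -/
theorem mem_support {π : Measure (E m × E m)} (hπ : IsCoupling (M D.f) (M D.g) π)
    (hae : ∀ᵐ p ∂π, dist p.1 p.2 = p.2 0 - p.1 0) {x₀ y₀ : E m}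
    (h0' : y₀ 0 ∈ Icc (2 : ℝ) 3) (h1 : x₀ 1 ∈ core) (hj : ∀ j, x₀ j ∈ Icc (0 : ℝ) 1)
    (heq : ∀ j, j ≠ 0 → y₀ j = x₀ j) : (x₀, y₀) ∈ π.support := by
  rw [Measure.mem_support_iff_forall]
  intro U hU
  obtain ⟨ε, hε, hεU⟩ := exists_coord_ball hU
  obtain ⟨K, hK⟩ : ∃ K : ℕ, ((1 : ℝ) / 2) ^ K < min (ε / 2) 1 :=
    exists_pow_lt_of_lt_one (by positivity) (by norm_num)
  obtain ⟨k, hkK, hka, hkb⟩ := D.hdense (x₀ 0) (hj 0) (y₀ 0) h0' (ε / 2) (by positivity) K
  have hk2 : ((1 : ℝ) / 2) ^ k < min (ε / 2) 1 :=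
    (pow_le_pow_of_le_one (by norm_num) (by norm_num) hkK).trans_lt hK
  rw [lt_min_iff] at hk2
  obtain ⟨s, hs, hs'⟩ := wada_near_core h1 k
  have hs2 : |s - x₀ 1| ≤ (1 / 2) ^ k := hs'.trans (one_div_N_le k)
  set W : Set (E m) := cell m D.α k ∩ {x | ∀ j, j ≠ 0 → |x j - x₀ j| < ε} with hW
  have hWo : IsOpen W := by
    refine (isOpen_cell m D.α k).inter ?_
    have e : {x : E m | ∀ j, j ≠ 0 → |x j - x₀ j| < ε} =
        ⋂ j, {x : E m | j ≠ 0 → |x j - x₀ j| < ε} := by
      ext x; simp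
    rw [e]
    refine isOpen_iInter_of_finite fun j => ?_
    by_cases hj0 : j = 0
    · simp [hj0]
    · simp only [ne_eq, hj0, not_false_eq_true, forall_true_left]
      have hc : Continuous fun x : E m => |x j - x₀ j| := by fun_prop
      exact isOpen_lt hc continuous_const
  set q : E m := WithLp.toLp 2 fun j => if j = 0 then D.α k else if j = 1 then s else x₀ j with hq
  have h10 : (1 : Fin (m + 2)) ≠ 0 := by simp
  have hq0 : q 0 = D.α k := by simp [hq]
  have hq1 : q 1 = s := by simp [hq]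
  have hqj : ∀ j, j ≠ 0 → j ≠ 1 → q j = x₀ j := fun j hj0 hj1 => by simp [hq, hj0, hj1]
  rw [abs_le] at hs2
  have hqW : q ∈ W := by
    refine ⟨⟨?_, ?_, ?_⟩, ?_⟩
    · rw [hq0, sub_self, abs_zero]
      positivity
    · rw [hq1]
      exact hs
    · intro j
      by_cases hj0 : j = 0
      · rw [hj0, hq0]
        constructor <;> linarith [(D.hα k).1, (D.hα k).2]
      · by_cases hj1 : j = 1
        · rw [hj1, hq1]
          constructor <;> linarith [(hj 1).1, (hj 1).2, hs2.1, hs2.2, hk2.2]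
        · rw [hqj j hj0 hj1]
          constructor <;> linarith [(hj j).1, (hj j).2]
    · intro j hj0
      by_cases hj1 : j = 1
      · rw [hj1, hq1, abs_lt]
        constructor <;> linarith [hs2.1, hs2.2, hk2.1]
      · rw [hqj j hj0 hj1, sub_self, abs_zero]
        exact hε
  have hWpos : 0 < M D.f W := by
    unfold M
    rw [withDensity_apply _ hWo.measurableSet,
      setLIntegral_pos_iff D.continuous_f.measurable.ennreal_ofReal]
    have e : (Function.support fun x => ENNReal.ofReal (D.f x)) ∩ W = W := by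
      apply inter_eq_self_of_subset_right
      intro x hx
      exact (ENNReal.ofReal_pos.mpr (D.f_pos hx.1)).ne'
    rw [e]
    exact hWo.measure_pos volume ⟨q, hqW⟩
  rw [← hπ.fst W hWo.measurableSet] at hWpos
  have hg : ∀ᵐ p ∂π, 0 < D.g p.2 := by
    have h2 : ∀ᵐ y ∂(M D.g), 0 < D.g y := by
      unfold M
      rw [ae_withDensity_iff D.continuous_g.measurable.ennreal_ofReal]
      refine Eventually.of_forall fun y hy => ?_
      by_contra hcon
      exact hy (ENNReal.ofReal_eq_zero.mpr (not_lt.mp hcon))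
    rw [← hπ.map_snd] at h2
    exact ae_of_ae_map measurable_snd.aemeasurable h2
  refine hWpos.trans_le (measure_mono_ae ?_)
  filter_upwards [hae, hg] with p hp1 hp2
  intro hpW
  have hpW1 : p.1 ∈ W := hpW.1
  have heq' : ∀ j, j ≠ 0 → p.2 j = p.1 j := fun j hj0 => (coord_eq_of_dist hp1 hj0).symm
  have hx0 : |p.1 0 - x₀ 0| < ε := by
    have h3 := hpW1.1.1
    rw [abs_lt] at h3 hka ⊢
    constructor <;> linarith [h3.1, h3.2, hka.1, hka.2, hk2.1]
  have hy0 : |p.2 0 - y₀ 0| < ε := by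
    have h3 := D.of_g_pos hp2 (k := k) (by rw [heq' 1 h10]; exact hpW1.1.2.1)
    rw [abs_lt] at h3 hkb ⊢
    constructor <;> linarith [h3.1, h3.2, hkb.1, hkb.2, hk2.1]
  have hmem := hεU p.1 p.2 (fun j => by
      by_cases hj0 : j = 0
      · rw [hj0]; exact hx0
      · exact hpW1.2 j hj0) (fun j => by
      by_cases hj0 : j = 0
      · rw [hj0]; exact hy0
      · rw [heq' j hj0, heq j hj0]
        exact hpW1.2 j hj0)
  exact hmem

end Data

/-- The projection used to bound the dimension from below. -/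
def proj (m : ℕ) (p : E m × E m) : Fin (m + 3) → ℝ := Fin.cons (p.2 0) fun j => p.1 j

lemma lipschitz_proj (m : ℕ) : LipschitzWith 1 (proj m) := by
  refine LipschitzWith.of_dist_le_mul fun p q => ?_
  rw [NNReal.coe_one, one_mul, dist_pi_le_iff dist_nonneg]
  intro i
  refine Fin.cases ?_ (fun j => ?_) i
  · simp only [proj, Fin.cons_zero]
    rw [Real.dist_eq]
    have := abs_coord_le_norm (p.2 - q.2) 0
    rw [PiLp.sub_apply, ← dist_eq_norm] at this
    exact this.trans (le_max_right _ _)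
  · simp only [proj, Fin.cons_succ]
    rw [Real.dist_eq]
    have := abs_coord_le_norm (p.1 - q.1) j
    rw [PiLp.sub_apply, ← dist_eq_norm] at this
    exact this.trans (le_max_left _ _)

lemma dimH_ge {m : ℕ} {S : Set (E m × E m)}
    (hS : ∀ x₀ y₀ : E m, y₀ 0 ∈ Icc (2 : ℝ) 3 → x₀ 1 ∈ core → (∀ j, x₀ j ∈ Icc (0 : ℝ) 1) →
      (∀ j, j ≠ 0 → y₀ j = x₀ j) → (x₀, y₀) ∈ S) : (m + 3 : ℕ) ≤ dimH S := by
  set B : Fin (m + 3) → Set ℝ := Fin.cons (Icc 2 3) fun j => if j = 1 then core else Icc 0 1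
    with hB
  have hsub : Set.pi univ B ⊆ proj m '' S := by
    intro z hz
    have hz0 : z 0 ∈ Icc (2 : ℝ) 3 := by
      have := hz 0 (mem_univ _)
      simpa [hB] using this
    have hz1 : z (Fin.succ 1) ∈ core := by
      have := hz (Fin.succ 1) (mem_univ _)
      simpa only [hB, Fin.cons_succ, if_true] using this
    have hzj : ∀ j : Fin (m + 2), z j.succ ∈ Icc (0 : ℝ) 1 := by
      intro j
      by_cases hj : j = 1
      · rw [hj]
        exact hz1.1
      · have := hz j.succ (mem_univ _)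
        simpa only [hB, Fin.cons_succ, hj, if_false] using this
    refine ⟨(WithLp.toLp 2 fun j => z j.succ, WithLp.toLp 2 fun j => if j = 0 then z 0 else
      z j.succ), hS _ _ ?_ ?_ ?_ ?_, ?_⟩
    · simpa using hz0
    · exact hz1
    · exact hzj
    · intro j hj
      simp [hj]
    · ext i
      refine Fin.cases ?_ (fun j => ?_) i
      · simp [proj]
      · simp [proj]
  have hvol : volume (Set.pi univ B) ≠ 0 := by
    rw [volume_pi_pi, Finset.prod_ne_zero_iff]
    intro i _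
    refine Fin.cases ?_ (fun j => ?_) i
    · simp only [hB, Fin.cons_zero, Real.volume_Icc]
      norm_num
    · simp only [hB, Fin.cons_succ]
      split_ifs
      · exact volume_core.ne'
      · rw [Real.volume_Icc]
        norm_num
  have h1 : ((m + 3 : ℕ) : ℝ≥0∞) ≤ dimH (Set.pi univ B) := by
    have h2 : μH[((m + 3 : ℕ) : ℝ)] (Set.pi univ B) ≠ 0 := by
      have h3 := hausdorffMeasure_pi_real (ι := Fin (m + 3))
      rw [Fintype.card_fin] at h3
      rw [h3]
      exact hvol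
    have h4 := le_dimH_of_hausdorffMeasure_ne_zero (d := ((m + 3 : ℕ) : NNReal)) (s := Set.pi univ B)
      (by simpa using h2)
    simpa using h4
  calc ((m + 3 : ℕ) : ℝ≥0∞) ≤ dimH (Set.pi univ B) := h1
    _ ≤ dimH (proj m '' S) := dimH_mono hsub
    _ ≤ dimH S := (lipschitz_proj m).dimH_image_le S

end Q76.FatPlan
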