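import Mathlib
import Pool.Agent.Q76.FatPlan

/-!
# Existence of the data and basic properties of the densities
-/

namespace Q76.FatPlan

open MeasureTheory Filter Topology Set Metric Q76.WadaSets
open scoped ENNReal ContDiff

lemma exists_core : ∃ s, s ∈ core := by
  have h := volume_core
  exact nonempty_of_measure_ne_zero h.ne'

lemma cell_subset (m : ℕ) (α : ℕ → ℝ) (k : ℕ) :
    cell m α k ⊆ closedBall (0 : E m) ((m + 2) * 2) := by
  rintro x ⟨_, _, h⟩
  rw [mem_closedBall_zero_iff]
  refine norm_le_of_coord (by norm_num) fun j => ?_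
  rw [abs_le]
  constructor <;> linarith [(h j).1, (h j).2]

lemma cell_nonempty (m : ℕ) {α : ℕ → ℝ} (hα : ∀ k, α k ∈ Icc (0 : ℝ) 1) :
    (cell m α 1).Nonempty := by
  obtain ⟨s₀, hs₀⟩ := exists_core
  obtain ⟨s, hs, hs'⟩ := wada_near_core hs₀ 1
  have hs2 : |s - s₀| ≤ (1 / 2) ^ 1 := hs'.trans (one_div_N_le 1)
  rw [abs_le] at hs2
  refine ⟨WithLp.toLp 2 fun j => if j = 1 then s else α 1, ?_, ?_, ?_⟩
  · simp
  · simpa using hs
  · intro j
    by_cases hj : j = 1
    · simp only [hj, if_true]
      constructor <;> linarith [hs₀.1.1, hs₀.1.2, hs2.1, hs2.2]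
    · simp only [hj, if_false]
      constructor <;> linarith [(hα 1).1, (hα 1).2]

theorem exists_data (m : ℕ) : ∃ _D : Data m, True := by
  obtain ⟨α, β, hα, hβ, hdense⟩ := exists_labels
  have hex : ∀ k, ∃ h : E m → ℝ, Function.support h = cell m α k ∧ ContDiff ℝ ∞ h ∧
      range h ⊆ Icc 0 1 := fun k => (isOpen_cell m α k).exists_contDiff_support_eq (n := ⊤)
  choose h hsupp hsm hrange using hex
  have h0 : ∀ i x, 0 ≤ h i x := fun i x => (hrange i (mem_range_self x)).1
  have hcs : ∀ i, HasCompactSupport (h i) := fun i =>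
    HasCompactSupport.of_support_subset_isCompact (isCompact_closedBall 0 _)
      ((hsupp i).le.trans (cell_subset m α i))
  obtain ⟨c, hc, hcb, hcs'⟩ := Q76.SmoothSeries.exists_coeff h hsm hcs
  set L : ℝ≥0∞ := ∑' i, ∫⁻ x, ENNReal.ofReal (c i * h i x) with hL
  have hL0 : L ≠ 0 := by
    intro hcon
    rw [hL, ENNReal.tsum_eq_zero] at hcon
    have h1 := hcon 1
    have hmeas : Measurable fun x : E m => ENNReal.ofReal (c 1 * h 1 x) :=
      (continuous_const.mul (hsm 1).continuous).measurable.ennreal_ofReal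
    have h2 : 0 < ∫⁻ x, ENNReal.ofReal (c 1 * h 1 x) := by
      rw [lintegral_pos_iff_support hmeas]
      have e : (Function.support fun x : E m => ENNReal.ofReal (c 1 * h 1 x)) = cell m α 1 := by
        rw [← hsupp 1]
        ext x
        simp only [Function.mem_support, ne_eq, ENNReal.ofReal_eq_zero, not_le]
        constructor
        · intro hx hcon
          rw [hcon, mul_zero] at hx
          exact lt_irrefl _ hx
        · intro hx
          exact mul_pos (hc 1) (lt_of_le_of_ne (h0 1 x) (Ne.symm hx))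
      rw [e]
      exact (isOpen_cell m α 1).measure_pos volume (cell_nonempty m hα)
    exact h2.ne' h1
  set B : Set (E m) := closedBall (0 : E m) ((m + 2) * 2) with hB
  have hLtop : L ≠ ⊤ := by
    have h1 : ∀ i, ∫⁻ x, ENNReal.ofReal (c i * h i x) ≤ ENNReal.ofReal ((1 / 2) ^ i) * volume B := by
      intro i
      rw [← lintegral_indicator_const (show MeasurableSet B from
        isClosed_closedBall.measurableSet)]
      apply lintegral_mono
      intro x
      by_cases hx : x ∈ B
      · rw [indicator_of_mem hx]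
        apply ENNReal.ofReal_le_ofReal
        have := hcb i x
        rwa [abs_of_nonneg (h0 i x)] at this
      · rw [indicator_of_notMem hx]
        have h3 : h i x = 0 := by
          by_contra hne
          have : x ∈ Function.support (h i) := hne
          rw [hsupp i] at this
          exact hx (cell_subset m α i this)
        simp [h3]
    have h2 : L ≤ ∑' i, ENNReal.ofReal ((1 / 2) ^ i) * volume B := ENNReal.tsum_le_tsum h1
    rw [ENNReal.tsum_mul_right, ← ENNReal.ofReal_tsum_of_nonneg (fun i => by positivity)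
      summable_geometric_two] at h2
    exact ne_top_of_le_ne_top (ENNReal.mul_ne_top ENNReal.ofReal_ne_top
      (isCompact_closedBall _ _).measure_lt_top.ne) h2
  have hLr : 0 < L.toReal := ENNReal.toReal_pos hL0 hLtop
  refine ⟨⟨α, β, fun i => L.toReal⁻¹ * c i, h, hα, hβ, hdense,
    fun i => mul_pos (inv_pos.mpr hLr) (hc i), hsupp, h0, fun i => (hsm i).continuous,
    ⟨L.toReal⁻¹, fun i x => ?_⟩, fun a => hcs' L.toReal⁻¹ a, ?_⟩, trivial⟩
  · have := hcb i x
    rw [abs_of_nonneg (h0 i x)] at this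
    rw [mul_assoc]
    exact mul_le_mul_of_nonneg_left this (inv_pos.mpr hLr).le
  · have h1 : ∀ i, ∫⁻ x, ENNReal.ofReal (L.toReal⁻¹ * c i * h i x) =
        L⁻¹ * ∫⁻ x, ENNReal.ofReal (c i * h i x) := by
      intro i
      have hmeas : Measurable fun x : E m => ENNReal.ofReal (c i * h i x) :=
        (continuous_const.mul (hsm i).continuous).measurable.ennreal_ofReal
      rw [← lintegral_const_mul _ hmeas]
      congr 1
      ext1 x
      rw [mul_assoc, ENNReal.ofReal_mul (inv_pos.mpr hLr).le, ENNReal.ofReal_inv_of_pos hLr,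
        ENNReal.ofReal_toReal hLtop]
    simp_rw [h1]
    rw [ENNReal.tsum_mul_left]
    exact ENNReal.inv_mul_cancel hL0 hLtop

namespace Data

variable {m : ℕ} (D : Data m)

lemma dens_support (a : ℕ → E m) {R : ℝ} (ha : ∀ i, ‖a i‖ ≤ R) {x : E m}
    (hx : (m + 2) * 2 + R < ‖x‖) : D.dens a x = 0 := by
  unfold dens
  have h1 : ∀ i, D.c i * D.h i (x - a i) = 0 := by
    intro i
    rw [D.h_eq_zero, mul_zero]
    intro hcon
    have h2 := cell_subset m D.α i hcon
    rw [mem_closedBall_zero_iff] at h2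
    have h3 : ‖x‖ ≤ ‖x - a i‖ + ‖a i‖ := by
      simpa using norm_add_le (x - a i) (a i)
    linarith [ha i]
  simp_rw [h1]
  exact tsum_zero

lemma norm_disp (i : ℕ) : ‖D.disp i‖ ≤ 3 := by
  rw [disp, norm_smul, e₀, PiLp.norm_single, Real.norm_eq_abs, Real.norm_eq_abs, abs_one, mul_one,
    abs_le]
  constructor <;> linarith [(D.hβ i).1, (D.hβ i).2, (D.hα i).1, (D.hα i).2]

lemma hasCompactSupport_dens (a : ℕ → E m) {R : ℝ} (ha : ∀ i, ‖a i‖ ≤ R) :
    HasCompactSupport (D.dens a) :=
  HasCompactSupport.of_support_subset_isCompact (isCompact_closedBall (0 : E m) ((m + 2) * 2 + R))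
    fun x hx => by
      rw [mem_closedBall_zero_iff]
      by_contra hcon
      exact hx (D.dens_support a ha (not_le.mp hcon))

lemma ae_norm_le (a : ℕ → E m) {R : ℝ} (ha : ∀ i, ‖a i‖ ≤ R) :
    ∀ᵐ x ∂(M (D.dens a)), ‖x‖ ≤ (m + 2) * 2 + R := by
  have hcont : Continuous (D.dens a) := (D.smooth a).continuous
  unfold M
  rw [ae_withDensity_iff hcont.measurable.ennreal_ofReal]
  refine Eventually.of_forall fun x hx => ?_
  by_contra hcon
  have h1 : D.dens a x = 0 := D.dens_support a ha (not_le.mp hcon)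
  have h2 : ENNReal.ofReal (D.dens a x) = 0 := by rw [h1, ENNReal.ofReal_zero]
  exact hx h2

lemma plan_isCoupling : IsCoupling (M D.f) (M D.g) D.plan := ⟨D.plan_fst, D.plan_snd⟩

instance : IsProbabilityMeasure (M D.f) := inferInstanceAs (IsProbabilityMeasure (M (D.dens _)))

instance : IsProbabilityMeasure (M D.g) := inferInstanceAs (IsProbabilityMeasure (M (D.dens _)))

lemma ae_f : ∀ᵐ x ∂(M D.f), ‖x‖ ≤ (m + 2) * 2 + 3 :=
  D.ae_norm_le (fun _ => 0) fun i => by simp

lemma ae_g : ∀ᵐ x ∂(M D.g), ‖x‖ ≤ (m + 2) * 2 + 3 := D.ae_norm_le D.disp D.norm_disp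

/-- The explicit coupling is optimal. -/
theorem plan_optimal {π : Measure (E m × E m)} (hπ : IsCoupling (M D.f) (M D.g) π) :
    cost D.plan ≤ cost π :=
  cost_le_of_ae D.ae_f D.ae_g D.plan_isCoupling D.plan_ae hπ

/-- Every optimal coupling has a support of dimension at least `m + 3`. -/
theorem dimH_support {π : Measure (E m × E m)} (hπ : IsCoupling (M D.f) (M D.g) π)
    (hopt : cost π ≤ cost D.plan) : ((m + 3 : ℕ) : ℝ≥0∞) ≤ dimH π.support :=
  dimH_ge fun _ _ h0' h1 hj heq => D.mem_support hπ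
    (ae_of_cost_le D.ae_f D.ae_g D.plan_isCoupling D.plan_ae hπ hopt) h0' h1 hj heq

end Data

end Q76.FatPlan
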