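import Mathlib

/-!
# Fibres of Lipschitz maps on sets of finite or σ-finite Hausdorff measure

If `ℋᵈ(A) < ∞` and `φ : A → ℝᵈ` is Lipschitz then almost every fibre of `φ` on `A` is finite.
-/

namespace Q76.FiniteFibre

open MeasureTheory Filter Topology Set Metric
open scoped ENNReal NNReal

variable {Z : Type*} [MetricSpace Z] {d : ℕ}

section cover

variable [MeasurableSpace Z] [BorelSpace Z]

/-- A good cover. -/
lemma exists_cover {A : Set Z} (hA : μH[(d : ℝ)] A < ∞) {r : ℝ≥0∞} (hr : 0 < r) :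
    ∃ t : ℕ → Set Z, A ⊆ ⋃ n, t n ∧ (∀ n, ediam (t n) ≤ r) ∧
      ∑' n, (⨆ _ : (t n).Nonempty, ediam (t n) ^ (d : ℝ)) < μH[(d : ℝ)] A + 1 := by
  have h1 : ⨅ (t : ℕ → Set Z) (_ : A ⊆ ⋃ n, t n) (_ : ∀ n, ediam (t n) ≤ r),
      ∑' n, ⨆ _ : (t n).Nonempty, ediam (t n) ^ (d : ℝ) ≤ μH[(d : ℝ)] A := by
    rw [Measure.hausdorffMeasure_apply]
    exact le_iSup₂_of_le r hr le_rfl
  have h2 : ⨅ (t : ℕ → Set Z) (_ : A ⊆ ⋃ n, t n) (_ : ∀ n, ediam (t n) ≤ r),
      ∑' n, ⨆ _ : (t n).Nonempty, ediam (t n) ^ (d : ℝ) < μH[(d : ℝ)] A + 1 :=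
    h1.trans_lt (ENNReal.lt_add_right hA.ne one_ne_zero)
  simp only [iInf_lt_iff] at h2
  obtain ⟨t, ht1, ht2, ht3⟩ := h2
  exact ⟨t, ht1, ht2, ht3⟩

end cover

/-- The image of a small set is contained in a small ball. -/
lemma exists_ball {φ : Z → Fin d → ℝ} (hφ : LipschitzWith 1 φ) {t : Set Z}
    (ht : ediam t ≠ ∞) : ∃ B : Set (Fin d → ℝ), MeasurableSet B ∧ φ '' t ⊆ B ∧
      volume B ≤ 2 ^ d * ⨆ _ : t.Nonempty, ediam t ^ (d : ℝ) := by
  rcases t.eq_empty_or_nonempty with rfl | ⟨z, hz⟩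
  · exact ⟨∅, MeasurableSet.empty, by simp, by simp⟩
  · refine ⟨closedBall (φ z) (ediam t).toReal, isClosed_closedBall.measurableSet, ?_, ?_⟩
    · rintro _ ⟨w, hw, rfl⟩
      rw [mem_closedBall]
      have h1 : edist (φ w) (φ z) ≤ ediam t := by
        have := hφ w z
        rw [ENNReal.coe_one, one_mul] at this
        exact this.trans (edist_le_ediam_of_mem hw hz)
      rw [dist_edist]
      exact ENNReal.toReal_mono ht h1
    · rw [Real.volume_pi_closedBall _ ENNReal.toReal_nonneg, Fintype.card_fin]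
      have hne : t.Nonempty := ⟨z, hz⟩
      simp only [hne, iSup_pos]
      rw [mul_pow, ENNReal.ofReal_mul (by positivity), ENNReal.ofReal_pow (by norm_num),
        ENNReal.ofReal_pow ENNReal.toReal_nonneg, ENNReal.ofReal_toReal ht, ENNReal.rpow_natCast]
      simp

variable [MeasurableSpace Z] [BorelSpace Z]

/-- **Finite fibres.** -/
theorem ae_finite_fibre {φ : Z → Fin d → ℝ} (hφ : LipschitzWith 1 φ) {A : Set Z}
    (hA : μH[(d : ℝ)] A < ∞) : ∀ᵐ y : Fin d → ℝ, (A ∩ φ ⁻¹' {y}).Finite := by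
  have hr : ∀ n : ℕ, (0 : ℝ≥0∞) < (n + 1 : ℝ≥0∞)⁻¹ := fun n => by simp
  choose t ht1 ht2 ht3 using fun n : ℕ => exists_cover (d := d) hA (hr n)
  have hfin : ∀ n i, ediam (t n i) ≠ ∞ := fun n i =>
    ne_top_of_le_ne_top (by simp) (ht2 n i)
  choose B hB1 hB2 hB3 using fun (n i : ℕ) => exists_ball hφ (hfin n i)
  set g : ℕ → (Fin d → ℝ) → ℝ≥0∞ := fun n y => ∑' i, (B n i).indicator 1 y with hg
  have hgm : ∀ n, Measurable (g n) := fun n =>
    Measurable.tsum fun i => measurable_one.indicator (hB1 n i)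
  set C : ℝ≥0∞ := 2 ^ d * (μH[(d : ℝ)] A + 1) with hC
  have hCtop : C ≠ ∞ := ENNReal.mul_ne_top (by simp) (by simp [hA.ne])
  have hint : ∀ n, ∫⁻ y, g n y ≤ C := by
    intro n
    calc ∫⁻ y, g n y = ∑' i, volume (B n i) := by
          simp only [hg]
          rw [lintegral_tsum fun i => (measurable_one.indicator (hB1 n i)).aemeasurable]
          congr 1
          ext1 i
          rw [lintegral_indicator_one (hB1 n i)]
      _ ≤ ∑' i, 2 ^ d * (⨆ _ : (t n i).Nonempty, ediam (t n i) ^ (d : ℝ)) :=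
          ENNReal.tsum_le_tsum (hB3 n)
      _ = 2 ^ d * ∑' i, (⨆ _ : (t n i).Nonempty, ediam (t n i) ^ (d : ℝ)) :=
          ENNReal.tsum_mul_left
      _ ≤ C := by
          rw [hC]
          gcongr
          exact (ht3 n).le
  have hlim : ∫⁻ y, liminf (fun n => g n y) atTop ≤ C :=
    (lintegral_liminf_le hgm).trans (liminf_le_of_le (by isBoundedDefault) fun b hb => by
      obtain ⟨n, hn⟩ := hb.exists
      exact hn.trans (hint n))
  have hae : ∀ᵐ y, liminf (fun n => g n y) atTop < ∞ :=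
    ae_lt_top (Measurable.liminf hgm) (ne_top_of_le_ne_top hCtop hlim)
  filter_upwards [hae] with y hy
  by_contra hinf
  have hinf' : (A ∩ φ ⁻¹' {y}).Infinite := hinf
  have hge : ∀ M : ℕ, (M : ℝ≥0∞) ≤ liminf (fun n => g n y) atTop := by
    intro M
    obtain ⟨F, hF, hFM⟩ := hinf'.exists_subset_card_eq M
    -- the points of `F` are separated
    obtain ⟨ε, hε, hsep⟩ : ∃ ε : ℝ≥0∞, 0 < ε ∧ ∀ a ∈ F, ∀ b ∈ F, a ≠ b → ε ≤ edist a b := by
      have hfinite : ((fun q : Z × Z => edist q.1 q.2) '' ((F ×ˢ F : Finset (Z × Z)) \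
          {q | q.1 = q.2})).Finite := by
        apply Set.Finite.image
        exact (Finset.finite_toSet _).subset sdiff_subset
      by_cases hne : (((F ×ˢ F : Finset (Z × Z)) : Set (Z × Z)) \ {q | q.1 = q.2}).Nonempty
      · obtain ⟨ε, ⟨q, hq, rfl⟩, hmin⟩ := Set.exists_min_image _ id hfinite (hne.image _)
        refine ⟨edist q.1 q.2, edist_pos.mpr hq.2, fun a ha b hb hab => ?_⟩
        exact hmin (edist a b) ⟨(a, b), ⟨by simp [ha, hb], hab⟩, rfl⟩
      · refine ⟨1, one_pos, fun a ha b hb hab => absurd ⟨(a, b), ?_⟩ hne⟩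
        exact ⟨by simp [ha, hb], hab⟩
    have hev : ∀ᶠ n : ℕ in atTop, ((n : ℝ≥0∞) + 1)⁻¹ < ε := by
      have h1 : Tendsto (fun n : ℕ => ((n : ℝ≥0∞) + 1)⁻¹) atTop (𝓝 0) := by
        have := ENNReal.tendsto_inv_nat_nhds_zero.comp (tendsto_add_atTop_nat 1)
        simpa [Function.comp_def] using this
      exact h1.eventually (gt_mem_nhds hε)
    refine le_liminf_of_le (by isBoundedDefault) (hev.mono fun n hn => ?_)
    -- choose indices
    have hidx : ∀ a ∈ F, ∃ i, a ∈ t n i := fun a ha => mem_iUnion.mp (ht1 n (hF ha).1)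
    choose! idx hidx' using hidx
    have hinj : Set.InjOn idx F := by
      intro a ha b hb hab
      by_contra hne
      have h1 := hsep a ha b hb hne
      have h2 : edist a b ≤ ediam (t n (idx a)) :=
        edist_le_ediam_of_mem (hidx' a ha) (by rw [hab]; exact hidx' b hb)
      exact absurd (h1.trans (h2.trans (ht2 n _))) (not_le.mpr hn)
    calc (M : ℝ≥0∞) = ∑ i ∈ F.image idx, (1 : ℝ≥0∞) := by
          rw [Finset.sum_const, Finset.card_image_of_injOn hinj, hFM]
          simp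
      _ = ∑ i ∈ F.image idx, (B n i).indicator 1 y := by
          apply Finset.sum_congr rfl
          intro i hi
          obtain ⟨a, ha, rfl⟩ := Finset.mem_image.mp hi
          have : y ∈ B n (idx a) := hB2 n _ ⟨a, hidx' a ha, (hF ha).2⟩
          rw [indicator_of_mem this]
          rfl
      _ ≤ g n y := ENNReal.sum_le_tsum _
  have htop : liminf (fun n => g n y) atTop = ∞ :=
    ENNReal.eq_top_of_forall_nnreal_le fun r => by
      obtain ⟨M, hM⟩ := exists_nat_ge r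
      exact le_trans (by exact_mod_cast hM) (hge M)
  exact hy.ne htop

/-- **Countable fibres.** -/
theorem ae_countable_fibre {φ : Z → Fin d → ℝ} (hφ : LipschitzWith 1 φ)
    {A : ℕ → Set Z} (hA : ∀ n, μH[(d : ℝ)] (A n) < ∞) :
    ∀ᵐ y : Fin d → ℝ, ((⋃ n, A n) ∩ φ ⁻¹' {y}).Countable := by
  filter_upwards [ae_all_iff.mpr fun n => ae_finite_fibre hφ (hA n)] with y hy
  rw [iUnion_inter]
  exact countable_iUnion fun n => (hy n).countable

end Q76.FiniteFibre
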