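import Mathlib
import Pool.Agent.Q76.FiniteFibre

/-!
# The space of homeomorphisms of the cube and the good set of levels
-/

namespace Q76.GenericHomeo

open MeasureTheory Filter Topology Set Metric
open scoped ENNReal NNReal

/-- The ambient Euclidean space of dimension `m + 2`. -/
abbrev E (m : ℕ) := EuclideanSpace ℝ (Fin (m + 2))

/-- The cube. -/
def cube (m : ℕ) : Set (E m) := {x | ∀ i, x i ∈ Icc (0 : ℝ) 1}

/-- Vectors. -/
abbrev V (m : ℕ) := Fin (m + 2) → ℝ

lemma isCompact_cube (m : ℕ) : IsCompact (cube m) := by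
  have h1 : cube m = (PiLp.continuousLinearEquiv 2 ℝ (fun _ : Fin (m + 2) => ℝ)).toHomeomorph ⁻¹'
      (Icc (0 : V m) 1) := by
    ext x
    simp only [cube, mem_ofPred_eq, mem_preimage, mem_Icc, Pi.le_def]
    constructor
    · intro h
      exact ⟨fun i => (h i).1, fun i => (h i).2⟩
    · intro h i
      exact ⟨h.1 i, h.2 i⟩
  rw [h1]
  exact (PiLp.continuousLinearEquiv 2 ℝ (fun _ : Fin (m + 2) => ℝ)).toHomeomorph.isCompact_preimage.mpr
    isCompact_Icc

instance (m : ℕ) : CompactSpace (cube m) := isCompact_iff_compactSpace.mp (isCompact_cube m)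

/-- The homeomorphisms of the cube, as continuous bijections, with the metric of uniform
convergence. -/
abbrev H (m : ℕ) := {f : C(cube m, cube m) // Function.Bijective f}

/-- Clamping to the cube. -/
noncomputable def clamp (m : ℕ) (z : V m) : cube m :=
  ⟨WithLp.toLp 2 fun i => (projIcc (0 : ℝ) 1 zero_le_one (z i) : ℝ), fun _ => Subtype.coe_prop _⟩

lemma continuous_clamp (m : ℕ) : Continuous (clamp m) := by
  apply Continuous.subtype_mk
  apply (PiLp.continuous_toLp 2 _).comp
  exact continuous_pi fun i => continuous_subtype_val.comp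
    (continuous_projIcc.comp (continuous_apply i))

lemma clamp_apply {m : ℕ} {z : V m} (i : Fin (m + 2)) (h : z i ∈ Icc (0 : ℝ) 1) :
    ((clamp m z).1 i : ℝ) = z i := by
  show (projIcc (0 : ℝ) 1 zero_le_one (z i) : ℝ) = z i
  rw [projIcc_of_mem _ h]

lemma clamp_coe {m : ℕ} (x : cube m) : clamp m (fun i => x.1 i) = x := by
  apply Subtype.ext
  ext i
  exact clamp_apply (z := fun i => x.1 i) i (x.2 i)

/-- The `j`-th coordinate of `f` at the point with coordinates `z`, the `0`-th one replaced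
by `t`. -/
noncomputable def F {m : ℕ} (f : C(cube m, cube m)) (j : Fin (m + 2)) (z : V m) (t : ℝ) : ℝ :=
  (f (clamp m (Function.update z 0 t))).1 j

lemma continuous_F {m : ℕ} (j : Fin (m + 2)) :
    Continuous fun q : C(cube m, cube m) × V m × ℝ => F q.1 j q.2.1 q.2.2 := by
  unfold F
  have h1 : Continuous fun q : C(cube m, cube m) × V m × ℝ =>
      clamp m (Function.update q.2.1 0 q.2.2) :=
    (continuous_clamp m).comp ((continuous_fst.comp continuous_snd).update 0
      (continuous_snd.comp continuous_snd))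
  have h2 : Continuous fun q : C(cube m, cube m) × V m × ℝ =>
      q.1 (clamp m (Function.update q.2.1 0 q.2.2)) := continuous_fst.eval h1
  have h3 : Continuous fun x : cube m => (x.1 j : ℝ) := by
    have : Continuous fun x : E m => (x j : ℝ) := by fun_prop
    exact this.comp continuous_subtype_val
  exact h3.comp h2

/-- The level `z 0` is missed or crossed twice on the line through `z`, over `[p, q]`. -/
def Good {m : ℕ} (f : C(cube m, cube m)) (j : Fin (m + 2)) (p q : ℝ) (z : V m) : Prop :=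
  (∀ t ∈ Icc p q, F f j z t ≠ z 0) ∨
    ∃ t₁ t₂ t₃, p ≤ t₁ ∧ t₁ < t₂ ∧ t₂ < t₃ ∧ t₃ ≤ q ∧
      ((F f j z t₁ < z 0 ∧ z 0 < F f j z t₂ ∧ F f j z t₃ < z 0) ∨
        (z 0 < F f j z t₁ ∧ F f j z t₂ < z 0 ∧ z 0 < F f j z t₃))

lemma eventually_good {m : ℕ} {f : C(cube m, cube m)} {j : Fin (m + 2)} {p q : ℝ} {z : V m}
    (h : Good f j p q z) : ∀ᶠ r : C(cube m, cube m) × V m in 𝓝 (f, z), Good r.1 j p q r.2 := by
  have hz : Continuous fun r : C(cube m, cube m) × V m => r.2 0 :=
    (continuous_apply 0).comp continuous_snd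
  have hF : ∀ t : ℝ, Continuous fun r : C(cube m, cube m) × V m => F r.1 j r.2 t := fun t =>
    (continuous_F j).comp (continuous_fst.prodMk (continuous_snd.prodMk continuous_const))
  rcases h with h | ⟨t₁, t₂, t₃, h1, h2, h3, h4, h⟩
  · have hev : ∀ᶠ r : C(cube m, cube m) × V m in 𝓝 (f, z), ∀ t ∈ Icc p q, F r.1 j r.2 t ≠ r.2 0 := by
      apply isCompact_Icc.eventually_forall_of_forall_eventually
      intro t ht
      have hc1 : Continuous fun w : (C(cube m, cube m) × V m) × ℝ => F w.1.1 j w.1.2 w.2 :=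
        (continuous_F j).comp ((continuous_fst.comp continuous_fst).prodMk
          ((continuous_snd.comp continuous_fst).prodMk continuous_snd))
      have hc2 : Continuous fun w : (C(cube m, cube m) × V m) × ℝ => w.1.2 0 :=
        hz.comp continuous_fst
      exact (isOpen_ne_fun hc1 hc2).mem_nhds (h t ht)
    exact hev.mono fun r hr => Or.inl hr
  · have hlt : ∀ (u v : C(cube m, cube m) × V m → ℝ), Continuous u → Continuous v →
        u (f, z) < v (f, z) → ∀ᶠ r in 𝓝 (f, z), u r < v r := fun u v hu hv huv =>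
      (isOpen_lt hu hv).mem_nhds huv
    rcases h with ⟨a1, a2, a3⟩ | ⟨a1, a2, a3⟩
    · filter_upwards [hlt _ _ (hF t₁) hz a1, hlt _ _ hz (hF t₂) a2, hlt _ _ (hF t₃) hz a3]
        with r b1 b2 b3
      exact Or.inr ⟨t₁, t₂, t₃, h1, h2, h3, h4, Or.inl ⟨b1, b2, b3⟩⟩
    · filter_upwards [hlt _ _ hz (hF t₁) a1, hlt _ _ (hF t₂) hz a2, hlt _ _ hz (hF t₃) a3]
        with r b1 b2 b3
      exact Or.inr ⟨t₁, t₂, t₃, h1, h2, h3, h4, Or.inr ⟨b1, b2, b3⟩⟩

/-- The bad levels. -/
def Bad {m : ℕ} (f : C(cube m, cube m)) (j : Fin (m + 2)) (p q : ℝ) : Set (V m) :=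
  {z | z ∈ Icc (0 : V m) 1 ∧ ¬ Good f j p q z}

lemma isCompact_Bad {m : ℕ} (f : C(cube m, cube m)) (j : Fin (m + 2)) (p q : ℝ) :
    IsCompact (Bad f j p q) := by
  have hopen : IsOpen {z : V m | Good f j p q z} := by
    rw [isOpen_iff_mem_nhds]
    intro z hz
    have h1 := eventually_good hz
    have h2 : Continuous fun w : V m => (f, w) := by fun_prop
    exact h2.continuousAt.eventually h1
  exact isCompact_Icc.inter_right hopen.isClosed_compl

/-- The homeomorphisms with few bad levels. -/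
def U {m : ℕ} (j : Fin (m + 2)) (p q : ℝ) (n : ℕ) : Set (H m) :=
  {f | volume (Bad f.1 j p q) < ENNReal.ofReal (1 / (n + 1))}

lemma isOpen_U {m : ℕ} (j : Fin (m + 2)) (p q : ℝ) (n : ℕ) : IsOpen (U j p q n : Set (H m)) := by
  rw [isOpen_iff_mem_nhds]
  intro f hf
  obtain ⟨O, hO1, hO2, hO3⟩ := (Bad f.1 j p q).exists_isOpen_lt_of_lt _ hf
  have hK : IsCompact (Icc (0 : V m) 1 \ O) := isCompact_Icc.diff hO2
  have hev : ∀ᶠ g : C(cube m, cube m) in 𝓝 f.1, ∀ z ∈ Icc (0 : V m) 1 \ O, Good g j p q z := by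
    apply hK.eventually_forall_of_forall_eventually
    intro z hz
    apply eventually_good
    by_contra hbad
    exact hz.2 (hO1 ⟨hz.1, hbad⟩)
  have hev' : ∀ᶠ g : H m in 𝓝 f, ∀ z ∈ Icc (0 : V m) 1 \ O, Good g.1 j p q z :=
    continuous_subtype_val.continuousAt.eventually hev
  filter_upwards [hev'] with g hg
  apply lt_of_le_of_lt (measure_mono _) hO3
  rintro z ⟨hz1, hz2⟩
  by_contra hzO
  exact hz2 (hg z ⟨hz1, hzO⟩)

end Q76.GenericHomeo
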