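import Mathlib
import Pool.Agent.Q76.GenericHomeo
import Pool.Agent.Q76.CellMaps

/-!
# The good homeomorphisms are dense
-/

namespace Q76.GenericHomeo

open MeasureTheory Filter Topology Set Metric CellMaps
open scoped ENNReal NNReal

lemma continuous_coord (m : ℕ) (l : Fin (m + 2)) : Continuous fun x : cube m => (x.1 l : ℝ) := by
  have : Continuous fun x : E m => (x l : ℝ) := by fun_prop
  exact this.comp continuous_subtype_val

/-- The shear moving the coordinate `j` according to the coordinate `i`. -/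
noncomputable def shearFun (m K n : ℕ) (i j : Fin (m + 2)) (x : cube m) : cube m :=
  clamp m (Function.update (fun l => x.1 l) j (Ph K n (rho (n * x.1 i)) (x.1 j)))

lemma continuous_shearFun (m K n : ℕ) (i j : Fin (m + 2)) : Continuous (shearFun m K n i j) := by
  unfold shearFun
  apply (continuous_clamp m).comp
  apply Continuous.update (continuous_pi fun l => continuous_coord m l)
  have h1 : Continuous fun x : cube m => (rho (n * x.1 i), (x.1 j : ℝ)) :=
    (continuous_rho.comp (continuous_const.mul (continuous_coord m i))).prodMk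
      (continuous_coord m j)
  exact (continuous_Ph K n).comp h1

lemma shearFun_self {m K n : ℕ} (hK : K ≠ 0) (hn : n ≠ 0) (i j : Fin (m + 2)) (x : cube m) :
    (shearFun m K n i j x).1 j = Ph K n (rho (n * x.1 i)) (x.1 j) := by
  have h := Ph_mem hK hn (rho_mem (n * x.1 i)) (x.2 j)
  unfold shearFun
  rw [clamp_apply j (by rw [Function.update_self]; exact h), Function.update_self]

lemma shearFun_ne {m K n : ℕ} {i j l : Fin (m + 2)} (hl : l ≠ j) (x : cube m) :
    (shearFun m K n i j x).1 l = x.1 l := by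
  unfold shearFun
  rw [clamp_apply l (by rw [Function.update_of_ne hl]; exact x.2 l), Function.update_of_ne hl]

lemma bijective_shearFun {m K n : ℕ} (hK : K ≠ 0) (hn : n ≠ 0) {i j : Fin (m + 2)}
    (hij : i ≠ j) : Function.Bijective (shearFun m K n i j) := by
  constructor
  · intro x y hxy
    have h1 : ∀ l, l ≠ j → x.1 l = y.1 l := by
      intro l hl
      rw [← shearFun_ne (K := K) (n := n) (i := i) hl x, hxy, shearFun_ne hl]
    have h2 : x.1 j = y.1 j := by
      have h3 := shearFun_self hK hn i j x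
      rw [hxy, shearFun_self hK hn i j y, h1 i hij] at h3
      exact ((Ph_strictMonoOn hK hn (rho_mem _)).injOn (y.2 j) (x.2 j) h3).symm
    apply Subtype.ext
    ext l
    by_cases hl : l = j
    · rw [hl]; exact h2
    · exact h1 l hl
  · intro y
    obtain ⟨s, hs, hs'⟩ := Ph_surjOn hK hn (rho (n * y.1 i)) (y.2 j)
    refine ⟨clamp m (Function.update (fun l => y.1 l) j s), ?_⟩
    have h1 : (clamp m (Function.update (fun l => y.1 l) j s)).1 j = s := by
      rw [clamp_apply j (by rw [Function.update_self]; exact hs), Function.update_self]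
    have h2 : ∀ l, l ≠ j → (clamp m (Function.update (fun l => y.1 l) j s)).1 l = y.1 l := by
      intro l hl
      rw [clamp_apply l (by rw [Function.update_of_ne hl]; exact y.2 l),
        Function.update_of_ne hl]
    apply Subtype.ext
    ext l
    by_cases hl : l = j
    · rw [hl, shearFun_self hK hn, h1, h2 i hij]; exact hs'
    · rw [shearFun_ne hl, h2 l hl]

lemma dist_shearFun_le {m K n : ℕ} (hK : K ≠ 0) (hn : n ≠ 0) (i j : Fin (m + 2)) (x : cube m) :
    dist (shearFun m K n i j x) x ≤ 1 / K := by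
  have h1 := abs_Ph_sub_le hK hn (rho_mem (n * x.1 i)) (x.2 j)
  rw [Subtype.dist_eq, EuclideanSpace.dist_eq, Finset.sum_eq_single j]
  · rw [Real.sqrt_sq dist_nonneg, Real.dist_eq, shearFun_self hK hn]
    exact h1
  · intro l _ hl
    rw [shearFun_ne hl]
    simp
  · simp

/-- The shear as a continuous map. -/
noncomputable def shearC (m K n : ℕ) (i j : Fin (m + 2)) : C(cube m, cube m) :=
  ⟨shearFun m K n i j, continuous_shearFun m K n i j⟩

/-- The perturbed homeomorphism. -/
noncomputable def pert {m : ℕ} (g : C(cube m, cube m)) (K n : ℕ) : C(cube m, cube m) :=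
  g.comp ((shearC m K n 1 0).comp (shearC m K n 0 1))

lemma zero_ne_one' (m : ℕ) : (0 : Fin (m + 2)) ≠ 1 := by
  intro h
  have := congrArg Fin.val h
  simp at this

lemma bijective_pert {m : ℕ} {g : C(cube m, cube m)} (hg : Function.Bijective g) {K n : ℕ}
    (hK : K ≠ 0) (hn : n ≠ 0) : Function.Bijective (pert g K n) :=
  hg.comp ((bijective_shearFun hK hn (zero_ne_one' m).symm).comp
    (bijective_shearFun hK hn (zero_ne_one' m)))

/-- The coordinate `j` of `g` on the two dimensional slice through `z`. -/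
noncomputable def G {m : ℕ} (g : C(cube m, cube m)) (j : Fin (m + 2)) (z : V m) (x : ℝ × ℝ) : ℝ :=
  (g (clamp m (Function.update (Function.update z 0 x.1) 1 x.2))).1 j

lemma continuous_G {m : ℕ} (g : C(cube m, cube m)) (j : Fin (m + 2)) :
    Continuous fun q : V m × ℝ × ℝ => G g j q.1 q.2 := by
  unfold G
  have h1 : Continuous fun q : V m × ℝ × ℝ =>
      clamp m (Function.update (Function.update q.1 0 q.2.1) 1 q.2.2) := by
    apply (continuous_clamp m).comp
    exact (continuous_fst.update 0 (continuous_fst.comp continuous_snd)).update 1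
      (continuous_snd.comp continuous_snd)
  exact (continuous_coord m j).comp (g.continuous.comp h1)

lemma F_pert {m : ℕ} (g : C(cube m, cube m)) {K n : ℕ} (hK : K ≠ 0) (hn : n ≠ 0)
    (j : Fin (m + 2)) {z : V m} (hz : z ∈ Icc (0 : V m) 1) {t : ℝ} (ht : t ∈ Icc (0 : ℝ) 1) :
    F (pert g K n) j z t = G g j z (c0 K n (z 1) t, c1 K n (z 1) t) := by
  have hzi : ∀ i, z i ∈ Icc (0 : ℝ) 1 := fun i => ⟨hz.1 i, hz.2 i⟩
  have h01 := zero_ne_one' m
  have hc1 : c1 K n (z 1) t ∈ Icc (0 : ℝ) 1 := Ph_mem hK hn (rho_mem _) (hzi 1)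
  have hc0 : c0 K n (z 1) t ∈ Icc (0 : ℝ) 1 := Ph_mem hK hn (rho_mem _) ht
  unfold F G pert
  have key : shearFun m K n 1 0 (shearFun m K n 0 1 (clamp m (Function.update z 0 t))) =
      clamp m (Function.update (Function.update z 0 (c0 K n (z 1) t)) 1 (c1 K n (z 1) t)) := by
    have w0 : (clamp m (Function.update z 0 t)).1 0 = t := by
      rw [clamp_apply 0 (by rw [Function.update_self]; exact ht), Function.update_self]
    have wl : ∀ l, l ≠ 0 → (clamp m (Function.update z 0 t)).1 l = z l := by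
      intro l hl
      rw [clamp_apply l (by rw [Function.update_of_ne hl]; exact hzi l),
        Function.update_of_ne hl]
    have a1 : (shearFun m K n 0 1 (clamp m (Function.update z 0 t))).1 1 = c1 K n (z 1) t := by
      rw [shearFun_self hK hn, w0, wl 1 h01.symm, c1]
    have al : ∀ l, l ≠ 1 → (shearFun m K n 0 1 (clamp m (Function.update z 0 t))).1 l =
        (clamp m (Function.update z 0 t)).1 l := fun l hl => shearFun_ne hl _
    apply Subtype.ext
    ext l
    by_cases h0 : l = 0
    · subst h0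
      rw [shearFun_self hK hn, a1, al 0 h01, w0,
        clamp_apply 0 (by rw [Function.update_of_ne h01, Function.update_self]; exact hc0),
        Function.update_of_ne h01, Function.update_self, c0]
    · rw [shearFun_ne h0]
      by_cases h1 : l = 1
      · subst h1
        rw [a1, clamp_apply 1 (by rw [Function.update_self]; exact hc1), Function.update_self]
      · rw [al l h1, wl l h0, clamp_apply l (by
          rw [Function.update_of_ne h1, Function.update_of_ne h0]; exact hzi l),
          Function.update_of_ne h1, Function.update_of_ne h0]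
  show ((g (shearFun m K n 1 0 (shearFun m K n 0 1 (clamp m (Function.update z 0 t))))).1 j : ℝ) = _
  rw [key]

/-- The graph of a function of the other coordinates is null. -/
lemma null_graph {m : ℕ} (i : Fin (m + 2)) {M : V m → ℝ} (hM : Continuous M)
    (h : ∀ z t, M (Function.update z i t) = M z) : volume {z : V m | z i = M z} = 0 := by
  have hmeas : MeasurableSet {z : V m | z i = M z} :=
    (isClosed_eq (continuous_apply i) hM).measurableSet
  set e := MeasurableEquiv.piFinSuccAbove (fun _ : Fin (m + 2) => ℝ) i with he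
  have hmp := (volume_preserving_piFinSuccAbove (fun _ : Fin (m + 2) => ℝ) i).symm
  rw [← hmp.measure_preimage hmeas.nullMeasurableSet]
  rw [Measure.volume_eq_prod, Measure.prod_apply_symm (e.symm.measurable hmeas)]
  rw [lintegral_eq_zero_iff (measurable_measure_prodMk_right (e.symm.measurable hmeas))]
  filter_upwards with y
  have hsub : ((fun x : ℝ => (x, y)) ⁻¹' (e.symm ⁻¹' {z : V m | z i = M z})).Subsingleton := by
    intro s hs t ht
    have h0 : ∀ s : ℝ, e.symm (s, y) = i.insertNth s y := fun _ => rfl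
    have h1 : ∀ s : ℝ, e.symm (s, y) i = s := by
      intro s
      rw [h0]
      exact Fin.insertNth_apply_same _ _ _
    have h2 : e.symm (t, y) = Function.update (e.symm (s, y)) i t := by
      rw [h0, h0]
      ext l
      rcases Fin.eq_self_or_eq_succAbove i l with h | ⟨l', h⟩
      · subst h
        rw [Function.update_self]
        exact Fin.insertNth_apply_same _ _ _
      · subst h
        rw [Function.update_of_ne (Fin.succAbove_ne i l')]
        rw [Fin.insertNth_apply_succAbove, Fin.insertNth_apply_succAbove]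
    simp only [mem_preimage, mem_ofPred_eq] at hs ht
    rw [h1] at hs ht
    rw [hs, ht, h2, h]
  exact hsub.measure_zero _

/-- The closed cells. -/
def cell (K a b : ℕ) : Set (ℝ × ℝ) :=
  Icc ((a : ℝ) / K) ((a + 1) / K) ×ˢ Icc ((b : ℝ) / K) ((b + 1) / K)

/-- The open cells. -/
def ocell (K a b : ℕ) : Set (ℝ × ℝ) :=
  Ioo ((a : ℝ) / K) ((a + 1) / K) ×ˢ Ioo ((b : ℝ) / K) ((b + 1) / K)

lemma isCompact_cell (K a b : ℕ) : IsCompact (cell K a b) := isCompact_Icc.prod isCompact_Icc

lemma lt_cell {K : ℕ} (hK : K ≠ 0) (a : ℕ) : (a : ℝ) / K < (a + 1) / K := by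
  have hK' : (0 : ℝ) < K := by exact_mod_cast Nat.pos_of_ne_zero hK
  gcongr
  linarith

lemma cell_nonempty {K : ℕ} (hK : K ≠ 0) (a b : ℕ) : (cell K a b).Nonempty :=
  (nonempty_Icc.mpr (lt_cell hK a).le).prod (nonempty_Icc.mpr (lt_cell hK b).le)

lemma closure_ocell {K : ℕ} (hK : K ≠ 0) (a b : ℕ) : closure (ocell K a b) = cell K a b := by
  rw [ocell, closure_prod_eq, closure_Ioo (lt_cell hK a).ne, closure_Ioo (lt_cell hK b).ne, cell]

lemma G_update {m : ℕ} (g : C(cube m, cube m)) (j : Fin (m + 2)) (z : V m) (t : ℝ) (x : ℝ × ℝ) :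
    G g j (Function.update z 0 t) x = G g j z x := by
  simp only [G, Function.update_idem]

/-- Almost every level avoids the extreme values on the cells. -/
lemma ae_avoid {m : ℕ} (g : C(cube m, cube m)) (j : Fin (m + 2)) (K : ℕ) :
    ∀ᵐ z : V m, (∀ a b : ℕ, z 0 ≠ sSup (G g j z '' cell K a b) ∧
      z 0 ≠ sInf (G g j z '' cell K a b)) ∧ ∀ b : ℕ, z 1 ≠ (b : ℝ) / K := by
  have hG := continuous_G g j
  refine Filter.Eventually.and ?_ ?_
  · rw [ae_all_iff]
    intro a
    rw [ae_all_iff]
    intro b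
    refine Filter.Eventually.and ?_ ?_
    · have h1 : Continuous fun z : V m => sSup (G g j z '' cell K a b) :=
        (isCompact_cell K a b).continuous_sSup (f := fun z x => G g j z x) hG
      have h2 := null_graph (0 : Fin (m + 2)) h1 (fun z t => by
        have : G g j (Function.update z 0 t) = G g j z := funext fun x => G_update g j z t x
        simp only [this])
      rw [ae_iff]
      simpa using h2
    · have h1 : Continuous fun z : V m => sInf (G g j z '' cell K a b) :=
        (isCompact_cell K a b).continuous_sInf (f := fun z x => G g j z x) hG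
      have h2 := null_graph (0 : Fin (m + 2)) h1 (fun z t => by
        have : G g j (Function.update z 0 t) = G g j z := funext fun x => G_update g j z t x
        simp only [this])
      rw [ae_iff]
      simpa using h2
  · rw [ae_all_iff]
    intro b
    have h2 := null_graph (1 : Fin (m + 2)) (M := fun _ : V m => (b : ℝ) / K) continuous_const
      (fun z t => rfl)
    rw [ae_iff]
    simpa using h2

/-- **The perturbed maps are eventually good at almost every level.** -/
lemma eventually_good_pert {m : ℕ} (g : C(cube m, cube m)) (j : Fin (m + 2)) {K P Q : ℕ}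
    (hK : K ≠ 0) (hPQ : P < Q) (hQ : Q ≤ K) {z : V m} (hz : z ∈ Icc (0 : V m) 1)
    (h1 : ∀ a b : ℕ, z 0 ≠ sSup (G g j z '' cell K a b) ∧
      z 0 ≠ sInf (G g j z '' cell K a b)) (h2 : ∀ b : ℕ, z 1 ≠ (b : ℝ) / K) :
    ∀ᶠ n : ℕ in atTop, Good (pert g K n) j ((P : ℝ) / K) ((Q : ℝ) / K) z := by
  have hK' : (0 : ℝ) < K := by exact_mod_cast Nat.pos_of_ne_zero hK
  have hzi : ∀ i, z i ∈ Icc (0 : ℝ) 1 := fun i => ⟨hz.1 i, hz.2 i⟩
  have hGz : Continuous (G g j z) := (continuous_G g j).comp (continuous_const.prodMk continuous_id)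
  obtain ⟨b, hb, hzb⟩ := exists_cell hK (hzi 1)
  have hzb' : z 1 ∈ Ioo ((b : ℝ) / K) ((b + 1) / K) := by
    refine ⟨lt_of_le_of_ne hzb.1 (h2 b).symm, lt_of_le_of_ne hzb.2 ?_⟩
    have := h2 (b + 1)
    push_cast at this
    exact this
  have hbdd : ∀ a, BddAbove (G g j z '' cell K a b) ∧ BddBelow (G g j z '' cell K a b) := fun a =>
    ⟨((isCompact_cell K a b).image hGz).bddAbove, ((isCompact_cell K a b).image hGz).bddBelow⟩
  have hne : ∀ a, (G g j z '' cell K a b).Nonempty := fun a => (cell_nonempty hK a b).image _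
  by_cases h : ∃ a, P ≤ a ∧ a < Q ∧ sInf (G g j z '' cell K a b) < z 0 ∧
      z 0 < sSup (G g j z '' cell K a b)
  · obtain ⟨a, hPa, haQ, hlow, hhigh⟩ := h
    have ha : a < K := haQ.trans_le hQ
    -- points of the open cell below and above
    have hpoint : ∀ S : Set (ℝ × ℝ), IsOpen S → (S ∩ cell K a b).Nonempty →
        ∃ A0 A1 ε : ℝ, (A0, A1) ∈ ocell K a b ∧ 0 < ε ∧ ∀ x, |x - A1| < ε → (A0, x) ∈ S := by
      intro S hS hSne
      rw [← closure_ocell hK, inter_comm] at hSne
      obtain ⟨w, hw1, hw2⟩ := hSne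
      obtain ⟨v, hv1, hv2⟩ := mem_closure_iff.mp hw1 S hS hw2
      obtain ⟨ε, hε, hball⟩ := Metric.isOpen_iff.mp hS v hv1
      refine ⟨v.1, v.2, ε, hv2, hε, fun x hx => hball ?_⟩
      rw [mem_ball, Prod.dist_eq, dist_self, Real.dist_eq, max_lt_iff]
      exact ⟨hε, hx⟩
    have hb1 : ({x | G g j z x < z 0} ∩ cell K a b).Nonempty := by
      obtain ⟨_, ⟨x, hx, rfl⟩, hx2⟩ := exists_lt_of_csInf_lt (hne a) hlow
      exact ⟨x, hx2, hx⟩
    have hb2 : ({x | z 0 < G g j z x} ∩ cell K a b).Nonempty := by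
      obtain ⟨_, ⟨x, hx, rfl⟩, hx2⟩ := exists_lt_of_lt_csSup (hne a) hhigh
      exact ⟨x, hx2, hx⟩
    obtain ⟨L0, L1, ε, hL, hε, hLS⟩ := hpoint _ (isOpen_lt hGz continuous_const) hb1
    obtain ⟨R0, R1, ε', hR, hε', hRS⟩ := hpoint _ (isOpen_lt continuous_const hGz) hb2
    -- three times
    obtain ⟨s0, hs0, hs0'⟩ := exists_between (lt_cell hK a)
    obtain ⟨s1, hs1, hs1'⟩ := exists_between hs0'
    obtain ⟨s2, hs2, hs2'⟩ := exists_between hs1'
    obtain ⟨s3, hs3, hs3'⟩ := exists_between hs2'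
    have T1 := exists_hit ha hb hzb' hs0 hs1 hs1' hL.1 hL.2 hε
    have T2 := exists_hit ha hb hzb' (hs0.trans hs1) hs2 hs2' hR.1 hR.2 hε'
    have T3 := exists_hit ha hb hzb' ((hs0.trans hs1).trans hs2) hs3 hs3' hL.1 hL.2 hε
    filter_upwards [T1, T2, T3, eventually_ge_atTop 1] with n t1 t2 t3 hn
    have hn0 : n ≠ 0 := by omega
    obtain ⟨t₁, ⟨m11, m12⟩, x1, y1⟩ := t1
    obtain ⟨t₂, ⟨m21, m22⟩, x2, y2⟩ := t2
    obtain ⟨t₃, ⟨m31, m32⟩, x3, y3⟩ := t3
    have hPK : (P : ℝ) / K ≤ a / K := by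
      have : (P : ℝ) ≤ a := by exact_mod_cast hPa
      gcongr
    have hQK : ((a : ℝ) + 1) / K ≤ Q / K := by
      have : (a : ℝ) + 1 ≤ Q := by exact_mod_cast haQ
      gcongr
    have hin : ∀ t, (a : ℝ) / K < t → t < (a + 1) / K → t ∈ Icc (0 : ℝ) 1 := fun t u v =>
      cell_subset ha ⟨u.le, v.le⟩
    refine Or.inr ⟨t₁, t₂, t₃, ?_, ?_, ?_, ?_, Or.inl ⟨?_, ?_, ?_⟩⟩
    · linarith
    · linarith
    · linarith
    · linarith
    · rw [F_pert g hK hn0 j hz (hin t₁ (by linarith) (by linarith)), x1]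
      exact hLS _ y1
    · rw [F_pert g hK hn0 j hz (hin t₂ (by linarith) (by linarith)), x2]
      exact hRS _ y2
    · rw [F_pert g hK hn0 j hz (hin t₃ (by linarith) (by linarith)), x3]
      exact hLS _ y3
  · push Not at h
    filter_upwards [eventually_ge_atTop 1] with n hn
    have hn0 : n ≠ 0 := by omega
    refine Or.inl fun t ht => ?_
    have hQ1 : (Q : ℝ) / K ≤ 1 := by
      rw [div_le_one hK']
      exact_mod_cast hQ
    have ht01 : t ∈ Icc (0 : ℝ) 1 := ⟨le_trans (by positivity) ht.1, ht.2.trans hQ1⟩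
    -- the cell of `t`
    obtain ⟨a, hPa, haQ, hta⟩ : ∃ a, P ≤ a ∧ a < Q ∧ t ∈ Icc ((a : ℝ) / K) ((a + 1) / K) := by
      rcases ht.2.eq_or_lt with h' | h'
      · refine ⟨Q - 1, by omega, by omega, ?_⟩
        have e1 : ((Q - 1 : ℕ) : ℝ) = Q - 1 := by
          rw [Nat.cast_sub (by omega)]; simp
        rw [e1, h', sub_add_cancel]
        exact ⟨by gcongr; linarith, le_rfl⟩
      · refine ⟨⌊K * t⌋₊, ?_, ?_, ?_, ?_⟩
        · rw [Nat.le_floor_iff (by have := ht01.1; positivity)]
          have := ht.1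
          rw [div_le_iff₀ hK'] at this
          linarith
        · rw [Nat.floor_lt (by have := ht01.1; positivity)]
          rw [lt_div_iff₀ hK'] at h'
          linarith
        · rw [div_le_iff₀ hK', mul_comm t]
          exact Nat.floor_le (by have := ht01.1; positivity)
        · rw [le_div_iff₀ hK', mul_comm t]
          exact (Nat.lt_floor_add_one _).le
    have ha : a < K := haQ.trans_le hQ
    rw [F_pert g hK hn0 j hz ht01]
    have hmem : (c0 K n (z 1) t, c1 K n (z 1) t) ∈ cell K a b :=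
      ⟨Ph_mapsTo_cell hn0 ha (rho_mem _) hta, Ph_mapsTo_cell hn0 hb (rho_mem _) hzb⟩
    have u1 := csInf_le (hbdd a).2 (mem_image_of_mem (G g j z) hmem)
    have u2 := le_csSup (hbdd a).1 (mem_image_of_mem (G g j z) hmem)
    intro heq
    rw [heq] at u1 u2
    have v1 : sInf (G g j z '' cell K a b) < z 0 := lt_of_le_of_ne u1 (h1 a b).2.symm
    have v2 := h a hPa haQ v1
    exact (h1 a b).1 (le_antisymm u2 v2)

lemma tendsto_volume_Bad {m : ℕ} (g : C(cube m, cube m)) (j : Fin (m + 2)) {K P Q : ℕ}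
    (hK : K ≠ 0) (hPQ : P < Q) (hQ : Q ≤ K) :
    Tendsto (fun n : ℕ => volume (Bad (pert g K n) j ((P : ℝ) / K) ((Q : ℝ) / K))) atTop (𝓝 0) := by
  have h := tendsto_measure_of_ae_tendsto_indicator (μ := (volume : Measure (V m)))
    (A := ∅) (As := fun n => Bad (pert g K n) j ((P : ℝ) / K) ((Q : ℝ) / K)) (B := Icc 0 1)
    atTop MeasurableSet.empty (fun n => (isCompact_Bad _ _ _ _).measurableSet)
    measurableSet_Icc (isCompact_Icc.measure_lt_top.ne)
    (Eventually.of_forall fun n z hz => hz.1) (by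
      filter_upwards [ae_avoid g j K] with z hz
      by_cases hz01 : z ∈ Icc (0 : V m) 1
      · filter_upwards [eventually_good_pert g j hK hPQ hQ hz01 hz.1 hz.2] with n hn
        simp only [mem_empty_iff_false, iff_false]
        exact fun hbad => hbad.2 hn
      · refine Eventually.of_forall fun n => ?_
        simp only [mem_empty_iff_false, iff_false]
        exact fun hbad => hz01 hbad.1)
  simpa using h

lemma dist_pert_le {m : ℕ} (g : C(cube m, cube m)) {ε : ℝ} (hε : 0 < ε) :
    ∃ δ > 0, ∀ K n : ℕ, K ≠ 0 → n ≠ 0 → 2 / (K : ℝ) < δ → dist (pert g K n) g < ε := by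
  have huc : UniformContinuous g := CompactSpace.uniformContinuous_of_continuous g.continuous
  obtain ⟨δ, hδ, h⟩ := Metric.uniformContinuous_iff.mp huc (ε / 2) (by positivity)
  refine ⟨δ, hδ, fun K n hK hn hKδ => ?_⟩
  refine lt_of_le_of_lt ((ContinuousMap.dist_le (by positivity)).mpr fun x => ?_) (half_lt_self hε)
  have h1 : dist (shearFun m K n 1 0 (shearFun m K n 0 1 x)) x ≤ 2 / K := by
    calc _ ≤ dist (shearFun m K n 1 0 (shearFun m K n 0 1 x)) (shearFun m K n 0 1 x) +
          dist (shearFun m K n 0 1 x) x := dist_triangle _ _ _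
      _ ≤ 1 / K + 1 / K := add_le_add (dist_shearFun_le hK hn _ _ _) (dist_shearFun_le hK hn _ _ _)
      _ = 2 / K := by ring
  exact (h (h1.trans_lt hKδ)).le

/-- **Density.** -/
theorem dense_U {m : ℕ} (j : Fin (m + 2)) {p q : ℚ} (hp : 0 ≤ p) (hpq : p < q) (hq : q ≤ 1)
    (N : ℕ) : Dense (U j p q N : Set (H m)) := by
  rw [Metric.dense_iff]
  intro g ε hε
  obtain ⟨δ, hδ, hclose⟩ := dist_pert_le g.1 hε
  obtain ⟨M, hM⟩ := exists_nat_gt (2 / δ)
  have hM0 : 0 < M := by
    have : (0 : ℝ) < M := lt_trans (by positivity) hM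
    exact_mod_cast this
  set K : ℕ := M * p.den * q.den with hKdef
  have hK : K ≠ 0 := by
    rw [hKdef]
    have := p.den_pos
    have := q.den_pos
    positivity
  have hK' : (0 : ℝ) < K := by exact_mod_cast Nat.pos_of_ne_zero hK
  have hKM : (M : ℝ) ≤ K := by
    have : M ≤ K := by
      rw [hKdef, mul_assoc]
      exact Nat.le_mul_of_pos_right _ (Nat.mul_pos p.den_pos q.den_pos)
    exact_mod_cast this
  have hKδ : 2 / (K : ℝ) < δ := by
    rw [div_lt_iff₀ hK']
    rw [div_lt_iff₀ hδ] at hM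
    calc 2 < M * δ := hM
      _ ≤ K * δ := by gcongr
      _ = δ * K := mul_comm _ _
  -- numerators
  have hq0 : 0 ≤ q := hp.trans hpq.le
  obtain ⟨P, hP⟩ : ∃ P : ℕ, (p : ℝ) = (P : ℝ) / K := by
    refine ⟨M * q.den * p.num.toNat, ?_⟩
    rw [eq_div_iff hK'.ne']
    have h1 : (p.num.toNat : ℤ) = p.num := Int.toNat_of_nonneg (Rat.num_nonneg.mpr hp)
    have h2 : (p : ℝ) * p.den = (p.num.toNat : ℝ) := by
      have : (p.num.toNat : ℝ) = ((p.num.toNat : ℤ) : ℝ) := by push_cast; rfl
      rw [this, h1]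
      exact_mod_cast Rat.mul_den_eq_num p
    rw [hKdef]
    push_cast
    linear_combination ((M : ℝ) * q.den) * h2
  obtain ⟨Q, hQ⟩ : ∃ Q : ℕ, (q : ℝ) = (Q : ℝ) / K := by
    refine ⟨M * p.den * q.num.toNat, ?_⟩
    rw [eq_div_iff hK'.ne']
    have h1 : (q.num.toNat : ℤ) = q.num := Int.toNat_of_nonneg (Rat.num_nonneg.mpr hq0)
    have h2 : (q : ℝ) * q.den = (q.num.toNat : ℝ) := by
      have : (q.num.toNat : ℝ) = ((q.num.toNat : ℤ) : ℝ) := by push_cast; rfl
      rw [this, h1]
      exact_mod_cast Rat.mul_den_eq_num q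
    rw [hKdef]
    push_cast
    linear_combination ((M : ℝ) * p.den) * h2
  have hPQ : P < Q := by
    have : (p : ℝ) < q := by exact_mod_cast hpq
    rw [hP, hQ, div_lt_div_iff_of_pos_right hK'] at this
    exact_mod_cast this
  have hQK : Q ≤ K := by
    have : (q : ℝ) ≤ 1 := by exact_mod_cast hq
    rw [hQ, div_le_one hK'] at this
    exact_mod_cast this
  have htend := tendsto_volume_Bad g.1 j hK hPQ hQK
  have hpos : (0 : ℝ≥0∞) < ENNReal.ofReal (1 / ((N : ℝ) + 1)) := by
    rw [ENNReal.ofReal_pos]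
    positivity
  obtain ⟨n, hn1, hn2⟩ := ((htend.eventually (gt_mem_nhds hpos)).and (eventually_ge_atTop 1)).exists
  have hn0 : n ≠ 0 := by omega
  refine ⟨⟨pert g.1 K n, bijective_pert g.2 hK hn0⟩, ?_, ?_⟩
  · rw [mem_ball, Subtype.dist_eq]
    exact hclose K n hK hn0 hKδ
  · show volume (Bad (pert g.1 K n) j (p : ℝ) (q : ℝ)) < _
    rw [hP, hQ]
    exact hn1

end Q76.GenericHomeo
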