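import Mathlib
import Pool.Agent.Q76.FiniteFibre
import Pool.Agent.Q76.GenericDense

/-!
# Graphs of generic homeomorphisms are not σ-finite
-/

namespace Q76.GenericHomeo

open MeasureTheory Filter Topology Set Metric CellMaps
open scoped ENNReal NNReal

section perfect

variable {m : ℕ} {f : C(cube m, cube m)} {j : Fin (m + 2)} {z : V m}

lemma continuous_Fz (f : C(cube m, cube m)) (j : Fin (m + 2)) (z : V m) :
    Continuous (F f j z) :=
  (continuous_F j).comp (continuous_const.prodMk (continuous_const.prodMk continuous_id))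

/-- Two crossings. -/
lemma exists_two_zeros {c : ℝ → ℝ} (hc : Continuous c) {y t₁ t₂ t₃ : ℝ} (h12 : t₁ < t₂)
    (h23 : t₂ < t₃) (h : (c t₁ < y ∧ y < c t₂ ∧ c t₃ < y) ∨ (y < c t₁ ∧ c t₂ < y ∧ y < c t₃)) :
    ∃ s₁ ∈ Ioo t₁ t₂, ∃ s₂ ∈ Ioo t₂ t₃, c s₁ = y ∧ c s₂ = y := by
  rcases h with ⟨a1, a2, a3⟩ | ⟨a1, a2, a3⟩
  · obtain ⟨s₁, hs₁, e₁⟩ := intermediate_value_Ioo h12.le hc.continuousOn (show y ∈ Ioo _ _ from ⟨a1, a2⟩)
    obtain ⟨s₂, hs₂, e₂⟩ := intermediate_value_Ioo' h23.le hc.continuousOn (show y ∈ Ioo _ _ from ⟨a3, a2⟩)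
    exact ⟨s₁, hs₁, s₂, hs₂, e₁, e₂⟩
  · obtain ⟨s₁, hs₁, e₁⟩ := intermediate_value_Ioo' h12.le hc.continuousOn (show y ∈ Ioo _ _ from ⟨a2, a1⟩)
    obtain ⟨s₂, hs₂, e₂⟩ := intermediate_value_Ioo h23.le hc.continuousOn (show y ∈ Ioo _ _ from ⟨a2, a3⟩)
    exact ⟨s₁, hs₁, s₂, hs₂, e₁, e₂⟩

/-- The level set. -/
def T (f : C(cube m, cube m)) (j : Fin (m + 2)) (z : V m) : Set ℝ :=
  {t | t ∈ Icc (0 : ℝ) 1 ∧ F f j z t = z 0}

lemma perfect_T (hgood : ∀ p q : ℚ, 0 ≤ p → p < q → q ≤ 1 → Good f j p q z) :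
    Perfect (T f j z) := by
  constructor
  · exact isClosed_Icc.inter (isClosed_eq (continuous_Fz f j z) continuous_const)
  · intro t₀ ht₀
    rw [accPt_iff_nhds]
    intro W hW
    obtain ⟨ε, hε, hball⟩ := Metric.mem_nhds_iff.mp hW
    obtain ⟨⟨ht0, ht1⟩, hval⟩ := ht₀
    obtain ⟨p, hp0, hpt, hpε⟩ : ∃ p : ℚ, 0 ≤ p ∧ (p : ℝ) ≤ t₀ ∧ t₀ - ε < p ∧ (t₀ = 0 ∨ (p : ℝ) < t₀) := by
      rcases ht0.eq_or_lt with h | h
      · exact ⟨0, le_rfl, by simp [h.symm], by simp [h.symm, hε], Or.inl h.symm⟩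
      · obtain ⟨p, hp1, hp2⟩ := exists_rat_btwn (show max 0 (t₀ - ε) < t₀ from max_lt h (by linarith))
        refine ⟨p, ?_, hp2.le, (le_max_right _ _).trans_lt hp1, Or.inr hp2⟩
        have : (0 : ℝ) < p := (le_max_left _ _).trans_lt hp1
        exact_mod_cast this.le
    obtain ⟨q, hq1, hqt, hqε⟩ : ∃ q : ℚ, q ≤ 1 ∧ t₀ ≤ (q : ℝ) ∧ (q : ℝ) < t₀ + ε ∧ (t₀ = 1 ∨ t₀ < (q : ℝ)) := by
      rcases ht1.eq_or_lt with h | h
      · exact ⟨1, le_rfl, by simp [h], by simp [h, hε], Or.inl h⟩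
      · obtain ⟨q, hq1, hq2⟩ := exists_rat_btwn (show t₀ < min 1 (t₀ + ε) from lt_min h (by linarith))
        refine ⟨q, ?_, hq1.le, hq2.trans_le (min_le_right _ _), Or.inr hq1⟩
        have : (q : ℝ) < 1 := hq2.trans_le (min_le_left _ _)
        exact_mod_cast this.le
    have hpq : p < q := by
      have : (p : ℝ) < q := by
        rcases hpε.2 with h | h
        · rcases hqε.2 with h' | h'
          · rw [h] at h'
            norm_num at h'
          · exact hpt.trans_lt h'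
        · exact h.trans_le hqt
      exact_mod_cast this
    rcases hgood p q hp0 hpq hq1 with h | ⟨t₁, t₂, t₃, a1, a2, a3, a4, h⟩
    · exact absurd hval (h t₀ ⟨hpt, hqt⟩)
    · obtain ⟨s₁, hs₁, s₂, hs₂, e₁, e₂⟩ := exists_two_zeros (continuous_Fz f j z) a2 a3 h
      have hp0' : (0 : ℝ) ≤ p := by exact_mod_cast hp0
      have hq1' : (q : ℝ) ≤ 1 := by exact_mod_cast hq1
      have hin : ∀ s, (p : ℝ) ≤ s → s ≤ q → F f j z s = z 0 → s ∈ W ∩ T f j z := by
        intro s h1 h2 h3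
        refine ⟨hball ?_, ⟨by linarith, by linarith⟩, h3⟩
        rw [mem_ball, Real.dist_eq, abs_lt]
        constructor
        · linarith [hpε.1]
        · linarith [hqε.1]
      by_cases hs : s₁ = t₀
      · refine ⟨s₂, hin s₂ (by linarith [hs₂.1]) (by linarith [hs₂.2]) e₂, ?_⟩
        intro h'
        have := hs₁.2.trans hs₂.1
        rw [hs, h'] at this
        exact lt_irrefl _ this
      · exact ⟨s₁, hin s₁ (by linarith [hs₁.1]) (by linarith [hs₁.2]) e₁, hs⟩

lemma not_countable_T (hgood : ∀ p q : ℚ, 0 ≤ p → p < q → q ≤ 1 → Good f j p q z)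
    (hne : (T f j z).Nonempty) : ¬ (T f j z).Countable := by
  intro hc
  obtain ⟨g, hg1, _, hg3⟩ := (perfect_T hgood).exists_nat_bool_injection hne
  have h4 : Cardinal.mk (ℕ → Bool) = 2 ^ Cardinal.aleph0 := by simp
  have h1 : (range g).Countable := hc.mono hg1
  have h2 : Countable (ℕ → Bool) := by
    have := h1.to_subtype
    exact (Equiv.ofInjective g hg3).countable_iff.mpr this
  have h3 : Cardinal.mk (ℕ → Bool) ≤ Cardinal.aleph0 := Cardinal.mk_le_aleph0_iff.mpr h2
  rw [h4] at h3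
  exact absurd h3 (not_le.mpr (Cardinal.cantor _))

end perfect

/-- The graph of a self-map of the cube, in `ℝᵈ × ℝᵈ` with the Euclidean metric. -/
def graph {m : ℕ} (f : C(cube m, cube m)) : Set (WithLp 2 (E m × E m)) :=
  {P | ∃ x : cube m, P = WithLp.toLp 2 (x.1, (f x).1)}

/-- The Lipschitz map. -/
noncomputable def phi {m : ℕ} (j : Fin (m + 2)) (P : WithLp 2 (E m × E m)) : V m :=
  Function.update (fun i => P.fst i) 0 (P.snd j)

lemma lipschitz_phi {m : ℕ} (j : Fin (m + 2)) : LipschitzWith 1 (phi (m := m) j) := by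
  apply LipschitzWith.of_dist_le_mul
  intro P P'
  rw [NNReal.coe_one, one_mul, dist_pi_le_iff dist_nonneg]
  intro i
  have hE : ∀ (x y : E m) (l : Fin (m + 2)), dist (x l) (y l) ≤ dist x y := by
    intro x y l
    rw [dist_eq_norm, dist_eq_norm]
    exact PiLp.norm_apply_le (x - y) l
  have h1 : dist P.fst P'.fst ≤ dist P P' := by
    rw [WithLp.prod_dist_eq_of_L2]
    exact Real.le_sqrt_of_sq_le (le_add_of_nonneg_right (sq_nonneg _))
  have h2 : dist P.snd P'.snd ≤ dist P P' := by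
    rw [WithLp.prod_dist_eq_of_L2]
    exact Real.le_sqrt_of_sq_le (le_add_of_nonneg_left (sq_nonneg _))
  unfold phi
  by_cases hi : i = 0
  · subst hi
    rw [Function.update_self, Function.update_self]
    exact (hE _ _ _).trans h2
  · rw [Function.update_of_ne hi, Function.update_of_ne hi]
    exact (hE _ _ _).trans h1

/-- There is an open set of levels which are hit. -/
lemma exists_open_hit {m : ℕ} {f : C(cube m, cube m)} (hf : Function.Injective f) :
    ∃ (j : Fin (m + 2)) (W : Set (V m)), IsOpen W ∧ W.Nonempty ∧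
      ∀ z ∈ W, z ∈ Icc (0 : V m) 1 ∧ (T f j z).Nonempty := by
  set c : V m := fun _ => 1 / 2 with hc
  have hcmem : ∀ i, c i ∈ Icc (0 : ℝ) 1 := fun i => by rw [hc]; norm_num
  have hne : f (clamp m (Function.update c 0 0)) ≠ f (clamp m (Function.update c 0 1)) := by
    intro h
    have h1 := hf h
    have h2 : (clamp m (Function.update c 0 0)).1 0 = (0 : ℝ) := by
      rw [clamp_apply 0 (by simp), Function.update_self]
    have h3 : (clamp m (Function.update c 0 1)).1 0 = (1 : ℝ) := by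
      rw [clamp_apply 0 (by simp), Function.update_self]
    rw [h1, h3] at h2
    norm_num at h2
  obtain ⟨j, hj⟩ : ∃ j, F f j c 0 ≠ F f j c 1 := by
    by_contra hcon
    push Not at hcon
    apply hne
    apply Subtype.ext
    ext j
    exact hcon j
  have hFmem : ∀ z t, F f j z t ∈ Icc (0 : ℝ) 1 := fun z t => (f _).2 j
  have hup : ∀ z s t, F f j (Function.update z 0 s) t = F f j z t := by
    intro z s t
    simp only [F, Function.update_idem]
  have hcont : ∀ t, Continuous fun z => F f j z t := fun t =>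
    (continuous_F j).comp (continuous_const.prodMk (continuous_id.prodMk continuous_const))
  have hcube : IsOpen {z : V m | ∀ i, z i ∈ Ioo (0 : ℝ) 1} := by
    have : {z : V m | ∀ i, z i ∈ Ioo (0 : ℝ) 1} = Set.pi univ fun _ => Ioo (0 : ℝ) 1 := by
      ext z; simp
    rw [this]
    exact isOpen_set_pi finite_univ fun _ _ => isOpen_Ioo
  have hsub : ∀ z ∈ {z : V m | ∀ i, z i ∈ Ioo (0 : ℝ) 1}, z ∈ Icc (0 : V m) 1 := fun z hz =>
    ⟨fun i => (hz i).1.le, fun i => (hz i).2.le⟩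
  have hmid : ∀ y ∈ Ioo (0 : ℝ) 1, Function.update c 0 y ∈ {z : V m | ∀ i, z i ∈ Ioo (0 : ℝ) 1} := by
    intro y hy i
    by_cases hi : i = 0
    · subst hi; rw [Function.update_self]; exact hy
    · rw [Function.update_of_ne hi, hc]; norm_num
  rcases lt_or_gt_of_ne hj with h | h
  · obtain ⟨y, hy1, hy2⟩ := exists_between h
    refine ⟨j, {z | F f j z 0 < z 0} ∩ {z | z 0 < F f j z 1} ∩ {z : V m | ∀ i, z i ∈ Ioo (0 : ℝ) 1},
      ((isOpen_lt (hcont 0) (continuous_apply 0)).inter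
        (isOpen_lt (continuous_apply 0) (hcont 1))).inter hcube,
      ⟨Function.update c 0 y, ⟨?_, ?_⟩, hmid y ⟨(hFmem _ _).1.trans_lt hy1, hy2.trans_le (hFmem _ _).2⟩⟩, ?_⟩
    · show F f j (Function.update c 0 y) 0 < Function.update c 0 y 0
      rw [hup, Function.update_self]
      exact hy1
    · show Function.update c 0 y 0 < F f j (Function.update c 0 y) 1
      rw [hup, Function.update_self]
      exact hy2
    · rintro z ⟨⟨h1, h2⟩, h3⟩
      refine ⟨hsub z h3, ?_⟩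
      obtain ⟨t, ht, hval⟩ := intermediate_value_Icc zero_le_one
        (continuous_Fz f j z).continuousOn (show z 0 ∈ Icc _ _ from ⟨le_of_lt h1, le_of_lt h2⟩)
      exact ⟨t, ht, hval⟩
  · obtain ⟨y, hy1, hy2⟩ := exists_between h
    refine ⟨j, {z | F f j z 1 < z 0} ∩ {z | z 0 < F f j z 0} ∩ {z : V m | ∀ i, z i ∈ Ioo (0 : ℝ) 1},
      ((isOpen_lt (hcont 1) (continuous_apply 0)).inter
        (isOpen_lt (continuous_apply 0) (hcont 0))).inter hcube,
      ⟨Function.update c 0 y, ⟨?_, ?_⟩, hmid y ⟨(hFmem _ _).1.trans_lt hy1, hy2.trans_le (hFmem _ _).2⟩⟩, ?_⟩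
    · show F f j (Function.update c 0 y) 1 < Function.update c 0 y 0
      rw [hup, Function.update_self]
      exact hy1
    · show Function.update c 0 y 0 < F f j (Function.update c 0 y) 0
      rw [hup, Function.update_self]
      exact hy2
    · rintro z ⟨⟨h1, h2⟩, h3⟩
      refine ⟨hsub z h3, ?_⟩
      obtain ⟨t, ht, hval⟩ := intermediate_value_Icc' zero_le_one
        (continuous_Fz f j z).continuousOn (show z 0 ∈ Icc _ _ from ⟨le_of_lt h1, le_of_lt h2⟩)
      exact ⟨t, ht, hval⟩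

/-- **Main theorem.** -/
theorem eventually_not_sigmaFinite (m : ℕ) : ∀ᶠ f : H m in residual (H m),
    ¬ ∃ A : ℕ → Set (WithLp 2 (E m × E m)), graph f.1 = ⋃ n, A n ∧
      ∀ n, μH[((m + 2 : ℕ) : ℝ)] (A n) < ∞ := by
  have hU : ∀ᶠ f : H m in residual (H m), ∀ (j : Fin (m + 2)) (p q : ℚ) (n : ℕ),
      0 ≤ p → p < q → q ≤ 1 → f ∈ U j (p : ℝ) (q : ℝ) n := by
    rw [eventually_countable_forall]
    intro j
    rw [eventually_countable_forall]
    intro p
    rw [eventually_countable_forall]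
    intro q
    rw [eventually_countable_forall]
    intro n
    by_cases h : 0 ≤ p ∧ p < q ∧ q ≤ 1
    · have := residual_of_dense_open (isOpen_U j (p : ℝ) (q : ℝ) n)
        (dense_U (m := m) j h.1 h.2.1 h.2.2 n)
      filter_upwards [this] with f hf _ _ _ using hf
    · exact Eventually.of_forall fun f h1 h2 h3 => absurd ⟨h1, h2, h3⟩ h
  filter_upwards [hU] with f hf
  rintro ⟨A, hA1, hA2⟩
  have hbad : ∀ (j : Fin (m + 2)) (p q : ℚ), 0 ≤ p → p < q → q ≤ 1 →
      volume (Bad f.1 j p q) = 0 := by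
    intro j p q h1 h2 h3
    by_contra hne
    have hpos : 0 < volume (Bad f.1 j p q) := pos_iff_ne_zero.mpr hne
    have hlim : Tendsto (fun n : ℕ => ENNReal.ofReal (1 / ((n : ℝ) + 1))) atTop (𝓝 0) := by
      have := (ENNReal.tendsto_ofReal tendsto_one_div_add_atTop_nhds_zero_nat)
      simpa using this
    obtain ⟨n, hn⟩ := (hlim.eventually (gt_mem_nhds hpos)).exists
    exact absurd (hf j p q n h1 h2 h3) (not_lt.mpr hn.le)
  have hgood : ∀ᵐ z : V m, z ∈ Icc (0 : V m) 1 → ∀ (j : Fin (m + 2)) (p q : ℚ), 0 ≤ p → p < q →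
      q ≤ 1 → Good f.1 j p q z := by
    have h1 : ∀ (j : Fin (m + 2)) (p q : ℚ), ∀ᵐ z : V m, 0 ≤ p → p < q → q ≤ 1 →
        z ∉ Bad f.1 j p q := by
      intro j p q
      by_cases h : 0 ≤ p ∧ p < q ∧ q ≤ 1
      · have := measure_eq_zero_iff_ae_notMem.mp (hbad j p q h.1 h.2.1 h.2.2)
        filter_upwards [this] with z hz _ _ _ using hz
      · exact Eventually.of_forall fun z h1 h2 h3 => absurd ⟨h1, h2, h3⟩ h
    have h2 : ∀ᵐ z : V m, ∀ (j : Fin (m + 2)) (p q : ℚ), 0 ≤ p → p < q → q ≤ 1 →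
        z ∉ Bad f.1 j p q := by
      rw [ae_all_iff]
      intro j
      rw [ae_all_iff]
      intro p
      rw [ae_all_iff]
      exact fun q => h1 j p q
    filter_upwards [h2] with z hz hz01 j p q a b c
    by_contra hng
    exact hz j p q a b c ⟨hz01, hng⟩
  obtain ⟨j, W, hW, hWne, hWhit⟩ := exists_open_hit f.2.1
  have hfib := Q76.FiniteFibre.ae_countable_fibre (lipschitz_phi j) hA2
  obtain ⟨z, hzW, hz1, hz2⟩ :=
    (Measure.dense_of_ae (hgood.and hfib)).inter_open_nonempty W hW hWne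
  obtain ⟨hz01, hTne⟩ := hWhit z hzW
  apply not_countable_T (hz1 hz01 j) hTne
  -- inject the level set in the fibre
  have hzi : ∀ i, z i ∈ Icc (0 : ℝ) 1 := fun i => ⟨hz01.1 i, hz01.2 i⟩
  set Pt : ℝ → WithLp 2 (E m × E m) := fun t =>
    WithLp.toLp 2 ((clamp m (Function.update z 0 t)).1, (f.1 (clamp m (Function.update z 0 t))).1)
    with hPt
  have hcl0 : ∀ t ∈ Icc (0 : ℝ) 1, (clamp m (Function.update z 0 t)).1 0 = t := by
    intro t ht
    rw [clamp_apply 0 (by rw [Function.update_self]; exact ht), Function.update_self]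
  have hcl : ∀ t, ∀ i ≠ 0, (clamp m (Function.update z 0 t)).1 i = z i := by
    intro t i hi
    rw [clamp_apply i (by rw [Function.update_of_ne hi]; exact hzi i), Function.update_of_ne hi]
  have hmaps : MapsTo Pt (T f.1 j z) ((⋃ n, A n) ∩ phi j ⁻¹' {z}) := by
    rintro t ⟨ht, hval⟩
    refine ⟨?_, ?_⟩
    · rw [← hA1]
      exact ⟨clamp m (Function.update z 0 t), rfl⟩
    · rw [mem_preimage, mem_singleton_iff]
      ext i
      unfold phi
      by_cases hi : i = 0
      · subst hi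
        rw [Function.update_self]
        exact hval
      · rw [Function.update_of_ne hi]
        exact hcl t i hi
  have hinj : InjOn Pt (T f.1 j z) := by
    rintro t ⟨ht, _⟩ s ⟨hs, _⟩ hts
    have h1 : (Pt t).fst 0 = (Pt s).fst 0 := by rw [hts]
    have h2 : (Pt t).fst 0 = t := hcl0 t ht
    have h3 : (Pt s).fst 0 = s := hcl0 s hs
    rw [← h2, h1, h3]
  exact hmaps.countable_of_injOn hinj hz2

end Q76.GenericHomeo
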