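import Mathlib

/-!
# Hausdorff content on the line
-/

namespace Q76.Lur

open MeasureTheory Set Filter Topology Metric
open scoped ENNReal NNReal

/-- Hausdorff content of exponent `s`. -/
noncomputable def content (s : ℝ) (hs : 0 < s) : OuterMeasure ℝ :=
  OuterMeasure.ofFunction (fun A => ediam A ^ s) (by simp [hs])

variable {s : ℝ} (hs : 0 < s)

lemma content_le (A : Set ℝ) : content s hs A ≤ ediam A ^ s := OuterMeasure.ofFunction_le A

lemma content_apply (A : Set ℝ) : content s hs A =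
    ⨅ (t : ℕ → Set ℝ) (_ : A ⊆ ⋃ i, t i), ∑' i, ediam (t i) ^ s := OuterMeasure.ofFunction_apply _ _ _

lemma content_countable {A : Set ℝ} (hA : A.Countable) : content s hs A = 0 := by
  have h1 : ∀ x : ℝ, content s hs {x} = 0 := by
    intro x
    have := content_le hs {x}
    simpa [hs] using this
  have h2 : A = ⋃ x ∈ A, {x} := by simp
  rw [h2]
  exact (measure_biUnion_null_iff hA).mpr fun x _ => h1 x

/-- Scaling under Lipschitz maps. -/
lemma content_image_le {K : ℝ≥0} {f : ℝ → ℝ} (hf : LipschitzWith K f) (A : Set ℝ) :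
    content s hs (f '' A) ≤ (K : ℝ≥0∞) ^ s * content s hs A := by
  rcases eq_or_ne K 0 with hK | hK
  · have h0 : (K : ℝ≥0∞) ^ s = 0 := by rw [hK]; simp [hs]
    rw [h0, zero_mul]
    have h1 : (f '' A).Subsingleton := by
      rintro _ ⟨x, _, rfl⟩ _ ⟨y, _, rfl⟩
      have h2 := hf x y
      rw [hK] at h2
      simpa using h2
    exact (content_countable hs h1.countable).le
  have hKpos : 0 < (K : ℝ≥0∞) ^ s := by
    apply ENNReal.rpow_pos
    · exact_mod_cast pos_iff_ne_zero.mpr hK
    · exact ENNReal.coe_ne_top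
  rw [content_apply, content_apply, ENNReal.mul_iInf_of_ne hKpos.ne'
    (ENNReal.rpow_ne_top_of_nonneg hs.le ENNReal.coe_ne_top)]
  apply le_iInf
  intro t
  rw [ENNReal.mul_iInf_of_ne hKpos.ne'
    (ENNReal.rpow_ne_top_of_nonneg hs.le ENNReal.coe_ne_top)]
  apply le_iInf
  intro ht
  apply (iInf₂_le (fun i => f '' t i) (by
    rw [← image_iUnion]
    exact image_mono ht)).trans
  rw [← ENNReal.tsum_mul_left]
  apply ENNReal.tsum_le_tsum
  intro i
  rw [← ENNReal.mul_rpow_of_nonneg _ _ hs.le]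
  exact ENNReal.rpow_le_rpow (hf.ediam_image_le _) hs.le

/-- Sets of content zero are null for the Hausdorff measure. -/
lemma hausdorff_of_content {A : Set ℝ} (hA : content s hs A = 0) :
    Measure.hausdorffMeasure s A = 0 := by
  rw [Measure.hausdorffMeasure_apply]
  refine le_antisymm ?_ zero_le
  apply iSup₂_le
  intro r hr
  apply le_of_forall_pos_le_add
  intro ε hε
  rw [zero_add]
  set η : ℝ≥0∞ := min ε (r ^ s) with hη
  have hηpos : 0 < η := by
    apply lt_min hε
    rcases eq_or_ne r ⊤ with h | h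
    · rw [h, ENNReal.top_rpow_of_pos hs]
      exact ENNReal.zero_lt_top
    · exact ENNReal.rpow_pos hr h
  have h1 : (⨅ (t : ℕ → Set ℝ) (_ : A ⊆ ⋃ i, t i), ∑' i, ediam (t i) ^ s) < η := by
    rw [← content_apply hs, hA]
    exact hηpos
  obtain ⟨t, ht⟩ := iInf_lt_iff.mp h1
  obtain ⟨hcov, hsum⟩ := iInf_lt_iff.mp ht
  have hd : ∀ n, ediam (t n) ≤ r := by
    intro n
    have h2 : ediam (t n) ^ s ≤ r ^ s :=
      (ENNReal.le_tsum n).trans (hsum.le.trans (min_le_right _ _))
    exact (ENNReal.rpow_le_rpow_iff hs).mp h2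
  apply (iInf₂_le t hcov).trans
  apply (iInf_le _ hd).trans
  calc ∑' n, ⨆ (_ : (t n).Nonempty), ediam (t n) ^ s ≤ ∑' n, ediam (t n) ^ s := by
        apply ENNReal.tsum_le_tsum
        intro n
        exact iSup_le fun _ => le_rfl
    _ ≤ ε := hsum.le.trans (min_le_left _ _)

lemma dimH_le_of_content {A : Set ℝ} (hA : content s hs A = 0) : dimH A ≤ ENNReal.ofReal s := by
  have h := hausdorff_of_content hs hA
  have h2 : Measure.hausdorffMeasure (s.toNNReal : ℝ) A ≠ ⊤ := by
    rw [Real.coe_toNNReal s hs.le, h]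
    exact ENNReal.zero_ne_top
  exact dimH_le_of_hausdorffMeasure_ne_top h2

end Q76.Lur
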