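import Mathlib
import Pool.Agent.Q76.LurContent

/-!
# The inverse branches of the Lüroth map and expansions
-/

namespace Q76.Lur

open MeasureTheory Set Filter Topology Metric
open scoped ENNReal NNReal

/-- The inverse branch number `m`. -/
noncomputable def phi (m : ℕ) (t : ℝ) : ℝ := (t + m) / (m * (m + 1))

/-- A map with the Lüroth branches on the open intervals. -/
def IsLur (T : ℝ → ℝ) : Prop :=
  ∀ m : ℕ, 1 ≤ m → ∀ x ∈ Ioo (1 / ((m : ℝ) + 1)) (1 / (m : ℝ)), T x = m * (m + 1) * x - m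

/-- The endpoints. -/
def EP : Set ℝ := insert 0 (range fun m : ℕ => 1 / (m : ℝ))

lemma EP_countable : EP.Countable := (countable_range _).insert 0

lemma phi_lipschitz {m : ℕ} (hm : 1 ≤ m) :
    LipschitzWith (Real.toNNReal (1 / (m * (m + 1)))) (phi m) := by
  have hm' : (0 : ℝ) < m := by exact_mod_cast hm
  apply LipschitzWith.of_dist_le_mul
  intro x y
  rw [Real.coe_toNNReal _ (by positivity), Real.dist_eq, Real.dist_eq]
  unfold phi
  rw [← sub_div, show x + (m : ℝ) - (y + m) = x - y by ring, abs_div,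
    abs_of_pos (show (0 : ℝ) < m * (m + 1) by positivity)]
  apply le_of_eq
  ring

lemma exists_digit {z : ℝ} (hz : z ∈ Icc (0 : ℝ) 1) (hzE : z ∉ EP) :
    ∃ m : ℕ, 1 ≤ m ∧ z ∈ Ioo (1 / ((m : ℝ) + 1)) (1 / (m : ℝ)) := by
  have hz0 : z ≠ 0 := fun h => hzE (by rw [h]; exact mem_insert _ _)
  have hzpos : 0 < z := lt_of_le_of_ne hz.1 (Ne.symm hz0)
  have h1 : 1 ≤ 1 / z := by
    rw [le_div_iff₀ hzpos]
    linarith [hz.2]
  have h2 : (⌊1 / z⌋₊ : ℝ) ≤ 1 / z := Nat.floor_le (by positivity)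
  have h3 : 1 / z < ⌊1 / z⌋₊ + 1 := Nat.lt_floor_add_one _
  have h4 : 1 ≤ ⌊1 / z⌋₊ := by
    apply Nat.le_floor
    simpa using h1
  refine ⟨⌊1 / z⌋₊, h4, ?_, ?_⟩
  · rw [one_div_lt (by positivity) hzpos]
    exact h3
  · have h4' : (0 : ℝ) < ⌊1 / z⌋₊ := by exact_mod_cast h4
    have h5 : z ≤ 1 / ⌊1 / z⌋₊ := by
      rw [le_one_div hzpos h4']
      exact h2
    exact lt_of_le_of_ne h5 fun h => hzE (by
      rw [h]
      exact mem_insert_of_mem _ ⟨_, rfl⟩)

lemma phi_T {T : ℝ → ℝ} (hT : IsLur T) {m : ℕ} (hm : 1 ≤ m) {z : ℝ}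
    (hz : z ∈ Ioo (1 / ((m : ℝ) + 1)) (1 / (m : ℝ))) : phi m (T z) = z := by
  have hm' : (0 : ℝ) < m := by exact_mod_cast hm
  rw [hT m hm z hz]
  unfold phi
  field_simp
  ring

lemma T_mem {T : ℝ → ℝ} (hT : IsLur T) {m : ℕ} (hm : 1 ≤ m) {z : ℝ}
    (hz : z ∈ Ioo (1 / ((m : ℝ) + 1)) (1 / (m : ℝ))) : T z ∈ Ioo (0 : ℝ) 1 := by
  have hm' : (0 : ℝ) < m := by exact_mod_cast hm
  rw [hT m hm z hz]
  have h1 := hz.1
  have h2 := hz.2
  rw [div_lt_iff₀ (by positivity)] at h1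
  rw [lt_div_iff₀ hm'] at h2
  constructor <;> nlinarith

lemma phi_mem {m : ℕ} (hm : 1 ≤ m) {t : ℝ} (ht : t ∈ Ioo (0 : ℝ) 1) :
    phi m t ∈ Ioo (1 / ((m : ℝ) + 1)) (1 / (m : ℝ)) := by
  have hm' : (0 : ℝ) < m := by exact_mod_cast hm
  unfold phi
  constructor
  · rw [div_lt_div_iff₀ (by positivity) (by positivity)]
    nlinarith [ht.1]
  · rw [div_lt_div_iff₀ (by positivity) (by positivity)]
    nlinarith [ht.2]

lemma T_phi {T : ℝ → ℝ} (hT : IsLur T) {m : ℕ} (hm : 1 ≤ m) {t : ℝ} (ht : t ∈ Ioo (0 : ℝ) 1) :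
    T (phi m t) = t := by
  have hm' : (0 : ℝ) < m := by exact_mod_cast hm
  rw [hT m hm _ (phi_mem hm ht)]
  unfold phi
  field_simp
  ring

/-! ### Expansions -/

/-- The length of the cylinder of rank `n`. -/
noncomputable def PP (a : ℕ → ℕ) (n : ℕ) : ℝ := ∏ j ∈ Finset.range n, 1 / ((a j : ℝ) * (a j + 1))

/-- The shifted sequence. -/
def shift (a : ℕ → ℕ) (n : ℕ) : ℕ → ℕ := fun i => a (n + i)

/-- The point with a given expansion. -/
noncomputable def XX (a : ℕ → ℕ) : ℝ := ∑' n, PP a n / (a n + 1)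

/-- Admissible sequences. -/
def Adm (a : ℕ → ℕ) : Prop := ∀ n, 1 ≤ a n

lemma Adm.shift {a : ℕ → ℕ} (ha : Adm a) (n : ℕ) : Adm (shift a n) := fun i => ha (n + i)

lemma PP_pos {a : ℕ → ℕ} (ha : Adm a) (n : ℕ) : 0 < PP a n := by
  apply Finset.prod_pos
  intro j _
  have : (0 : ℝ) < a j := by exact_mod_cast ha j
  positivity

lemma PP_zero (a : ℕ → ℕ) : PP a 0 = 1 := by simp [PP]

lemma PP_succ (a : ℕ → ℕ) (n : ℕ) : PP a (n + 1) = PP a n * (1 / ((a n : ℝ) * (a n + 1))) := by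
  unfold PP
  rw [Finset.prod_range_succ]

lemma PP_succ' (a : ℕ → ℕ) (n : ℕ) :
    PP a (n + 1) = 1 / ((a 0 : ℝ) * (a 0 + 1)) * PP (shift a 1) n := by
  unfold PP shift
  rw [Finset.prod_range_succ', mul_comm]
  congr 1
  apply Finset.prod_congr rfl
  intro j _
  rw [add_comm 1 j]

lemma one_div_le_half {m : ℕ} (hm : 1 ≤ m) : 1 / ((m : ℝ) * (m + 1)) ≤ 1 / 2 := by
  have hm' : (1 : ℝ) ≤ m := by exact_mod_cast hm
  apply one_div_le_one_div_of_le (by norm_num)
  nlinarith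

lemma PP_le {a : ℕ → ℕ} (ha : Adm a) (n : ℕ) : PP a n ≤ (1 / 2) ^ n := by
  induction n with
  | zero => simp [PP_zero]
  | succ n ih =>
    rw [PP_succ, pow_succ]
    exact mul_le_mul ih (one_div_le_half (ha n)) (by positivity) (by positivity)

lemma XX_summable {a : ℕ → ℕ} (ha : Adm a) : Summable fun n => PP a n / ((a n : ℝ) + 1) := by
  apply Summable.of_nonneg_of_le (f := fun n => (1 / 2 : ℝ) ^ n)
  · intro n
    exact div_nonneg (PP_pos ha n).le (by positivity)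
  · intro n
    apply (div_le_self (PP_pos ha n).le _).trans (PP_le ha n)
    linarith [(Nat.cast_nonneg (a n) : (0 : ℝ) ≤ a n)]
  · exact summable_geometric_of_lt_one (by norm_num) (by norm_num)

lemma XX_pos {a : ℕ → ℕ} (ha : Adm a) : 0 < XX a := by
  apply (XX_summable ha).tsum_pos (i := 0)
  · intro n
    exact div_nonneg (PP_pos ha n).le (by positivity)
  · exact div_pos (PP_pos ha 0) (by positivity)

lemma XX_eq {a : ℕ → ℕ} (ha : Adm a) : XX a = phi (a 0) (XX (shift a 1)) := by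
  have h0 : (0 : ℝ) < a 0 := by exact_mod_cast ha 0
  unfold XX
  rw [(XX_summable ha).tsum_eq_zero_add]
  have h1 : ∀ n, PP a (n + 1) / ((a (n + 1) : ℝ) + 1) =
      1 / ((a 0 : ℝ) * (a 0 + 1)) * (PP (shift a 1) n / ((shift a 1 n : ℝ) + 1)) := by
    intro n
    rw [PP_succ']
    unfold shift
    rw [add_comm 1 n]
    ring
  simp_rw [h1]
  rw [tsum_mul_left, PP_zero]
  unfold phi
  field_simp
  ring

lemma phi_le_one {m : ℕ} (hm : 1 ≤ m) {t : ℝ} (ht : t ≤ 1) : phi m t ≤ 1 / m := by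
  have hm' : (0 : ℝ) < m := by exact_mod_cast hm
  unfold phi
  rw [div_le_div_iff₀ (by positivity) (by positivity)]
  nlinarith

lemma le_phi {m : ℕ} (hm : 1 ≤ m) {t : ℝ} (ht : 0 ≤ t) : 1 / ((m : ℝ) + 1) ≤ phi m t := by
  have hm' : (0 : ℝ) < m := by exact_mod_cast hm
  unfold phi
  rw [div_le_div_iff₀ (by positivity) (by positivity)]
  nlinarith

lemma XX_le_one {a : ℕ → ℕ} (ha : Adm a) : XX a ≤ 1 := by
  -- bound of the tails
  have key : ∀ n : ℕ, ∀ b : ℕ → ℕ, Adm b → ∑ i ∈ Finset.range n, PP b i / ((b i : ℝ) + 1) ≤ 1 := by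
    intro n
    induction n with
    | zero => intro b _; simp
    | succ n ih =>
      intro b hb
      have h0 : (0 : ℝ) < b 0 := by exact_mod_cast hb 0
      rw [Finset.sum_range_succ']
      have h1 : ∀ i, PP b (i + 1) / ((b (i + 1) : ℝ) + 1) =
          1 / ((b 0 : ℝ) * (b 0 + 1)) * (PP (shift b 1) i / ((shift b 1 i : ℝ) + 1)) := by
        intro i
        rw [PP_succ']
        unfold shift
        rw [add_comm 1 i]
        ring
      simp_rw [h1]
      rw [← Finset.mul_sum, PP_zero]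
      have h2 := ih (shift b 1) (hb.shift 1)
      have h3 : 1 / ((b 0 : ℝ) * (b 0 + 1)) * ∑ i ∈ Finset.range n,
          (PP (shift b 1) i / ((shift b 1 i : ℝ) + 1)) ≤ 1 / ((b 0 : ℝ) * (b 0 + 1)) * 1 :=
        mul_le_mul_of_nonneg_left h2 (by positivity)
      have h4 : 1 / ((b 0 : ℝ) * (b 0 + 1)) * 1 + 1 / ((b 0 : ℝ) + 1) = 1 / b 0 := by
        field_simp
        ring
      have h5 : 1 / (b 0 : ℝ) ≤ 1 := by
        rw [div_le_one h0]
        exact_mod_cast hb 0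
      linarith
  exact (XX_summable ha).tsum_le_of_sum_range_le fun n => key n a ha

lemma XX_mem_branch {a : ℕ → ℕ} (ha : Adm a) :
    1 / ((a 0 : ℝ) + 1) ≤ XX a ∧ XX a ≤ 1 / a 0 := by
  rw [XX_eq ha]
  exact ⟨le_phi (ha 0) (XX_pos (ha.shift 1)).le, phi_le_one (ha 0) (XX_le_one (ha.shift 1))⟩

lemma shift_zero (a : ℕ → ℕ) : shift a 0 = a := by
  ext i
  simp [shift]

lemma shift_shift (a : ℕ → ℕ) (m n : ℕ) : shift (shift a m) n = shift a (m + n) := by
  ext i
  simp only [shift]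
  rw [add_assoc]

/-- Sequences with infinitely many entries larger than one. -/
def Inf2 (a : ℕ → ℕ) : Prop := ∀ n, ∃ m ≥ n, 2 ≤ a m

lemma XX_lt_one_aux : ∀ n : ℕ, ∀ a : ℕ → ℕ, Adm a → 2 ≤ a n → XX a < 1 := by
  intro n
  induction n with
  | zero =>
    intro a ha h
    have h1 := (XX_mem_branch ha).2
    have h2 : (1 : ℝ) / a 0 ≤ 1 / 2 := by
      apply one_div_le_one_div_of_le (by norm_num)
      exact_mod_cast h
    linarith
  | succ n ih =>
    intro a ha h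
    have h1 := ih (shift a 1) (ha.shift 1) (by
      simp only [shift]
      rwa [add_comm 1 n])
    rw [XX_eq ha]
    have h0 : (1 : ℝ) ≤ a 0 := by exact_mod_cast ha 0
    unfold phi
    rw [div_lt_one (by positivity)]
    nlinarith

lemma XX_lt_one {a : ℕ → ℕ} (ha : Adm a) (h2 : Inf2 a) : XX a < 1 := by
  obtain ⟨m, -, hm⟩ := h2 0
  exact XX_lt_one_aux m a ha hm

lemma Inf2.shift {a : ℕ → ℕ} (h : Inf2 a) (n : ℕ) : Inf2 (shift a n) := by
  intro k
  obtain ⟨m, hm, hm2⟩ := h (n + k)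
  refine ⟨m - n, by omega, ?_⟩
  simp only [Lur.shift]
  rwa [Nat.add_sub_cancel' (by omega)]

lemma XX_mem {a : ℕ → ℕ} (ha : Adm a) (h2 : Inf2 a) : XX a ∈ Ioo (0 : ℝ) 1 :=
  ⟨XX_pos ha, XX_lt_one ha h2⟩

/-- The orbit of a point with a given expansion. -/
lemma T_iter_XX {T : ℝ → ℝ} (hT : IsLur T) {a : ℕ → ℕ} (ha : Adm a) (h2 : Inf2 a) (n : ℕ) :
    T^[n] (XX a) = XX (shift a n) := by
  induction n with
  | zero => rw [shift_zero]; rfl
  | succ n ih =>
    rw [Function.iterate_succ_apply', ih, XX_eq (ha.shift n),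
      T_phi hT (ha.shift n 0) (XX_mem ((ha.shift n).shift 1) ((h2.shift n).shift 1)), shift_shift]

/-- Comparison when the first `r` entries agree. -/
lemma XX_sub_of_agree : ∀ r : ℕ, ∀ a b : ℕ → ℕ, Adm a → Adm b → (∀ i < r, a i = b i) →
    XX a - XX b = PP a r * (XX (shift a r) - XX (shift b r)) := by
  intro r
  induction r with
  | zero => intro a b _ _ _; rw [shift_zero, shift_zero, PP_zero, one_mul]
  | succ r ih =>
    intro a b ha hb h
    have h1 := ih (shift a 1) (shift b 1) (ha.shift 1) (hb.shift 1) (fun i hi => by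
      simp only [shift]
      exact h (1 + i) (by omega))
    rw [shift_shift, shift_shift, add_comm 1 r] at h1
    have h0 : (0 : ℝ) < a 0 := by exact_mod_cast ha 0
    rw [XX_eq ha, XX_eq hb, PP_succ', mul_assoc, ← h1, ← h 0 (by omega)]
    unfold phi
    field_simp
    ring

end Q76.Lur
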