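import Mathlib
import Pool.Agent.Q76.LurMaps

/-!
# Asymptotic sets of the Lüroth map have dimension at most one half
-/

namespace Q76.Lur

open MeasureTheory Set Filter Topology Metric
open scoped ENNReal NNReal

/-- The asymptotic set of a sequence. -/
def ASeq (T : ℝ → ℝ) (u : ℕ → ℝ) : Set ℝ :=
  {y | y ∈ Icc (0 : ℝ) 1 ∧ Tendsto (fun n => |u n - T^[n] y|) atTop (𝓝 0)}

/-- Points whose orbit is close to `u` from time `N` on. -/
def FF (T : ℝ → ℝ) (ε : ℝ) (u : ℕ → ℝ) (N : ℕ) : Set ℝ :=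
  {z | z ∈ Icc (0 : ℝ) 1 ∧ ∀ n ≥ N, |u n - T^[n] z| < ε}

/-- The weight of a branch. -/
noncomputable def wt (s : ℝ) (m : ℕ) : ℝ≥0∞ :=
  ((Real.toNNReal (1 / ((m : ℝ) * (m + 1))) : ℝ≥0) : ℝ≥0∞) ^ s

variable {T : ℝ → ℝ} {s : ℝ}

lemma content_phi (hs : 0 < s) {m : ℕ} (hm : 1 ≤ m) (A : Set ℝ) :
    content s hs (phi m '' A) ≤ wt s m * content s hs A :=
  content_image_le hs (phi_lipschitz hm) A

lemma wt_eq (hs : 0 < s) (m : ℕ) : wt s m = ENNReal.ofReal ((1 / ((m : ℝ) * (m + 1))) ^ s) := by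
  unfold wt
  rw [← ENNReal.ofReal_rpow_of_nonneg (by positivity) hs.le]
  rfl

lemma wt_le_half (hs : 0 < s) {m : ℕ} (hm : 1 ≤ m) : wt s m ≤ ENNReal.ofReal ((1 / 2) ^ s) := by
  rw [wt_eq hs]
  apply ENNReal.ofReal_le_ofReal
  exact Real.rpow_le_rpow (by positivity) (one_div_le_half hm) hs.le

lemma wt_tsum (hs : 1 / 2 < s) : ∑' m, wt s m ≠ ⊤ := by
  have hs0 : 0 < s := by linarith
  have hsum : Summable fun m : ℕ => (1 / ((m : ℝ) * (m + 1))) ^ s := by
    apply Summable.of_nonneg_of_le (f := fun m : ℕ => 1 / (m : ℝ) ^ (2 * s))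
    · intro m; positivity
    · intro m
      rcases Nat.eq_zero_or_pos m with h | h
      · subst h
        simp only [Nat.cast_zero, zero_mul, div_zero]
        rw [Real.zero_rpow hs0.ne']
        positivity
      · have hm' : (0 : ℝ) < m := by exact_mod_cast h
        rw [Real.rpow_mul hm'.le, ← Real.one_rpow s, Real.one_rpow,
          show (1 : ℝ) / ((m : ℝ) ^ (2 : ℝ)) ^ s = (1 / (m : ℝ) ^ (2 : ℝ)) ^ s by
            rw [Real.div_rpow zero_le_one (by positivity), Real.one_rpow]]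
        apply Real.rpow_le_rpow (by positivity) _ hs0.le
        apply one_div_le_one_div_of_le (by positivity)
        rw [Real.rpow_two]
        nlinarith
    · exact Real.summable_one_div_nat_rpow.mpr (by linarith)
  simp_rw [wt_eq hs0]
  rw [← ENNReal.ofReal_tsum_of_nonneg (fun m => by positivity) hsum]
  exact ENNReal.ofReal_ne_top

lemma wt_tail (hs : 1 / 2 < s) : ∃ M : ℕ, ∑' k, wt s (k + M) ≤ ENNReal.ofReal (1 / 2) := by
  have h := ENNReal.tendsto_sum_nat_add (wt s) (wt_tsum hs)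
  have h2 : ∀ᶠ M in atTop, ∑' k, wt s (k + M) < ENNReal.ofReal (1 / 2) :=
    h.eventually_lt_const (by simp)
  obtain ⟨M, hM⟩ := h2.exists
  exact ⟨M, hM.le⟩

lemma FF_step (hT : IsLur T) {ε : ℝ} {u : ℕ → ℝ} {N : ℕ} {z : ℝ} {m : ℕ} (hm : 1 ≤ m)
    (hz : z ∈ Ioo (1 / ((m : ℝ) + 1)) (1 / (m : ℝ))) (h : z ∈ FF T ε u (N + 1)) :
    z ∈ phi m '' FF T ε (fun n => u (n + 1)) N := by
  refine ⟨T z, ⟨Ioo_subset_Icc_self (T_mem hT hm hz), fun n hn => ?_⟩, phi_T hT hm hz⟩
  have := h.2 (n + 1) (by omega)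
  rwa [Function.iterate_succ_apply] at this

lemma FF_step0 (hT : IsLur T) {ε : ℝ} {u : ℕ → ℝ} {z : ℝ} {m : ℕ} (hm : 1 ≤ m)
    (hz : z ∈ Ioo (1 / ((m : ℝ) + 1)) (1 / (m : ℝ))) (h : z ∈ FF T ε u 0) :
    z ∈ phi m '' FF T ε (fun n => u (n + 1)) 0 :=
  FF_step hT hm hz ⟨h.1, fun n _ => h.2 n (Nat.zero_le _)⟩

lemma digit_lt {m : ℕ} {z η : ℝ} (hη : 0 < η) (hzη : η ≤ z)
    (hz : z ∈ Ioo (1 / ((m : ℝ) + 1)) (1 / (m : ℝ))) (hm : 1 ≤ m) : (m : ℝ) < 1 / η := by
  have hm' : (0 : ℝ) < m := by exact_mod_cast hm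
  rw [lt_one_div hm' hη]
  exact hzη.trans_lt hz.2

/-- Close points with close images lie in the same branch. -/
lemma same_digit (hT : IsLur T) {η ε : ℝ} (hη : 0 < η) (hη1 : η ≤ 1) (hε : 0 < ε)
    (hε2 : ε ≤ η ^ 2 / 16) {z z' : ℝ} {m m' : ℕ} (hm : 1 ≤ m) (hm' : 1 ≤ m')
    (hz : z ∈ Ioo (1 / ((m : ℝ) + 1)) (1 / (m : ℝ)))
    (hz' : z' ∈ Ioo (1 / ((m' : ℝ) + 1)) (1 / (m' : ℝ))) (hzη : η ≤ z) (hzη' : η ≤ z')
    (h1 : |z - z'| < 2 * ε) (h2 : |T z - T z'| < 2 * ε) : ¬ m < m' := by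
  intro hlt
  have hmp : (0 : ℝ) < m := by exact_mod_cast hm
  have hmp' : (0 : ℝ) < m' := by exact_mod_cast hm'
  have hle : (m : ℝ) + 1 ≤ m' := by exact_mod_cast hlt
  have k1 := digit_lt hη hzη hz hm
  have k2 := digit_lt hη hzη' hz' hm'
  have k3 : (m : ℝ) ^ 2 ≤ (1 / η) ^ 2 := pow_le_pow_left₀ hmp.le k1.le 2
  have k4 : (m' : ℝ) ^ 2 ≤ (1 / η) ^ 2 := pow_le_pow_left₀ hmp'.le k2.le 2
  have k5 : (m : ℝ) * (m + 1) ≤ 2 * (1 / η) ^ 2 := by
    have : (1 : ℝ) ≤ m := by exact_mod_cast hm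
    nlinarith
  have k6 : (m' : ℝ) * (m' + 1) ≤ 2 * (1 / η) ^ 2 := by
    have : (1 : ℝ) ≤ m' := by exact_mod_cast hm'
    nlinarith
  have k7 : (1 / η) ^ 2 * ε ≤ 1 / 16 := by
    rw [div_pow, one_pow, div_mul_eq_mul_div, one_mul, div_le_iff₀ (by positivity)]
    linarith
  have k8 : ε ≤ 1 / 16 := by nlinarith
  rw [hT m hm z hz, hT m' hm' z' hz'] at h2
  have a1 := (abs_lt.mp h1).2
  have a2 := (abs_lt.mp h2).1
  have b1 : 1 / (m' : ℝ) ≤ 1 / ((m : ℝ) + 1) := one_div_le_one_div_of_le (by positivity) hle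
  have b2 : z - 1 / ((m : ℝ) + 1) < 2 * ε := by linarith [hz'.2]
  have b3 : 1 / (m' : ℝ) - z' < 2 * ε := by linarith [hz.1]
  have c1 : (m : ℝ) * (m + 1) * z - m = m * (m + 1) * (z - 1 / (m + 1)) := by
    field_simp
  have c2 : (m' : ℝ) * (m' + 1) * z' - m' = 1 - m' * (m' + 1) * (1 / m' - z') := by
    field_simp
    ring
  rw [c1, c2] at a2
  have d1 : (m : ℝ) * (m + 1) * (z - 1 / (m + 1)) ≤ 2 * (1 / η) ^ 2 * (2 * ε) :=
    mul_le_mul k5 b2.le (by linarith [hz.1]) (by positivity)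
  have d2 : (m' : ℝ) * (m' + 1) * (1 / m' - z') ≤ 2 * (1 / η) ^ 2 * (2 * ε) :=
    mul_le_mul k6 b3.le (by linarith [hz'.2]) (by positivity)
  nlinarith

/-- The key contraction of the content. -/
lemma key_step (hT : IsLur T) (hs : 1 / 2 < s) (hs0 : 0 < s) : ∃ ε > 0, ∀ u : ℕ → ℝ,
    content s hs0 (FF T ε u 0) ≤ ENNReal.ofReal (max (1 / 2) ((1 / 2) ^ s)) *
      content s hs0 (FF T ε (fun n => u (n + 1)) 0) := by
  obtain ⟨M, hM⟩ := wt_tail hs
  set δ : ℝ := 1 / ((M : ℝ) + 1) with hδ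
  have hδpos : 0 < δ := by positivity
  have hδ1 : δ ≤ 1 := by
    rw [hδ, div_le_one (by positivity)]
    linarith [(Nat.cast_nonneg M : (0 : ℝ) ≤ M)]
  set η : ℝ := δ / 2 with hη
  set ε : ℝ := η ^ 2 / 16 with hε
  have hεpos : 0 < ε := by positivity
  refine ⟨ε, hεpos, fun u => ?_⟩
  set D := FF T ε u 0 with hD
  set D' := FF T ε (fun n => u (n + 1)) 0 with hD'
  have hclose : ∀ z ∈ D, ∀ z' ∈ D, |z - z'| < 2 * ε ∧ |T z - T z'| < 2 * ε := by
    intro z hz z' hz'
    have a0 := hz.2 0 (le_refl 0)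
    have a1 := hz.2 1 (Nat.zero_le _)
    have b0 := hz'.2 0 (le_refl 0)
    have b1 := hz'.2 1 (Nat.zero_le _)
    simp only [Function.iterate_zero, id_eq, Function.iterate_one] at a0 a1 b0 b1
    rw [abs_lt] at a0 a1 b0 b1
    constructor <;> rw [abs_lt] <;> constructor <;> linarith [a0.1, a0.2, a1.1, a1.2, b0.1, b0.2,
      b1.1, b1.2]
  by_cases hcase : ∀ z ∈ D, z < δ
  · have hsub : D ⊆ EP ∪ ⋃ k : ℕ, phi (k + M) '' D' := by
      intro z hz
      by_cases hzE : z ∈ EP
      · exact Or.inl hzE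
      · right
        obtain ⟨m, hm, hzm⟩ := exists_digit hz.1 hzE
        have h1 := hzm.1.trans (hcase z hz)
        rw [hδ, one_div_lt_one_div (by positivity) (by positivity)] at h1
        have h2 : M < m := by
          have : (M : ℝ) < m := by linarith
          exact_mod_cast this
        rw [mem_iUnion]
        refine ⟨m - M, ?_⟩
        rw [Nat.sub_add_cancel h2.le]
        exact FF_step0 hT hm hzm hz
    calc content s hs0 D ≤ content s hs0 (EP ∪ ⋃ k : ℕ, phi (k + M) '' D') := measure_mono hsub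
      _ ≤ content s hs0 EP + content s hs0 (⋃ k : ℕ, phi (k + M) '' D') := measure_union_le _ _
      _ ≤ 0 + ∑' k : ℕ, content s hs0 (phi (k + M) '' D') := by
          gcongr
          · exact (content_countable hs0 EP_countable).le
          · exact measure_iUnion_le _
      _ ≤ ∑' k : ℕ, wt s (k + M) * content s hs0 D' := by
          rw [zero_add]
          apply ENNReal.tsum_le_tsum
          intro k
          rcases Nat.eq_zero_or_pos (k + M) with h | h
          · rw [h]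
            -- the degenerate branch is constant
            have h1 : phi 0 '' D' ⊆ {0} := by
              rintro _ ⟨x, _, rfl⟩
              simp [phi]
            calc content s hs0 (phi 0 '' D') ≤ content s hs0 {0} := measure_mono h1
              _ = 0 := content_countable hs0 (countable_singleton _)
              _ ≤ _ := zero_le
          · exact content_phi hs0 h D'
      _ = (∑' k : ℕ, wt s (k + M)) * content s hs0 D' := ENNReal.tsum_mul_right
      _ ≤ ENNReal.ofReal (max (1 / 2) ((1 / 2) ^ s)) * content s hs0 D' := by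
          gcongr
          exact hM.trans (ENNReal.ofReal_le_ofReal (le_max_left _ _))
  · push Not at hcase
    obtain ⟨z₀, hz₀, hz₀δ⟩ := hcase
    have hlow : ∀ z ∈ D, η ≤ z := by
      intro z hz
      have h1 := (abs_lt.mp (hclose z hz z₀ hz₀).1).1
      have h2 : 2 * ε ≤ η := by
        rw [hε]
        have : η ≤ 1 := by rw [hη]; linarith
        have : 0 < η := by positivity
        nlinarith
      rw [hη] at h2 ⊢
      linarith
    by_cases hemp : ∃ z ∈ D, z ∉ EP
    · obtain ⟨z₁, hz₁, hz₁E⟩ := hemp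
      obtain ⟨m, hm, hzm⟩ := exists_digit hz₁.1 hz₁E
      have hsub : D ⊆ EP ∪ phi m '' D' := by
        intro z hz
        by_cases hzE : z ∈ EP
        · exact Or.inl hzE
        · right
          obtain ⟨m', hm', hzm'⟩ := exists_digit hz.1 hzE
          have h1 : ¬ m < m' := same_digit hT (by positivity) (by rw [hη]; linarith) hεpos le_rfl
            hm hm' hzm hzm' (hlow _ hz₁) (hlow _ hz) (hclose _ hz₁ _ hz).1 (hclose _ hz₁ _ hz).2
          have h2 : ¬ m' < m := same_digit hT (by positivity) (by rw [hη]; linarith) hεpos le_rfl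
            hm' hm hzm' hzm (hlow _ hz) (hlow _ hz₁) (hclose _ hz _ hz₁).1 (hclose _ hz _ hz₁).2
          have h3 : m' = m := by omega
          subst h3
          exact FF_step0 hT hm' hzm' hz
      calc content s hs0 D ≤ content s hs0 (EP ∪ phi m '' D') := measure_mono hsub
        _ ≤ content s hs0 EP + content s hs0 (phi m '' D') := measure_union_le _ _
        _ ≤ 0 + wt s m * content s hs0 D' := by
            gcongr
            · exact (content_countable hs0 EP_countable).le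
            · exact content_phi hs0 hm D'
        _ ≤ ENNReal.ofReal (max (1 / 2) ((1 / 2) ^ s)) * content s hs0 D' := by
            rw [zero_add]
            gcongr
            exact (wt_le_half hs0 hm).trans (ENNReal.ofReal_le_ofReal (le_max_right _ _))
    · push Not at hemp
      calc content s hs0 D ≤ content s hs0 EP := measure_mono hemp
        _ = 0 := content_countable hs0 EP_countable
        _ ≤ _ := zero_le

lemma content_FF_le_one (hs0 : 0 < s) (ε : ℝ) (u : ℕ → ℝ) (N : ℕ) :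
    content s hs0 (FF T ε u N) ≤ 1 := by
  calc content s hs0 (FF T ε u N) ≤ content s hs0 (Icc (0 : ℝ) 1) :=
        measure_mono fun z hz => hz.1
    _ ≤ ediam (Icc (0 : ℝ) 1) ^ s := content_le hs0 _
    _ = 1 := by
        rw [Real.ediam_Icc]
        simp

lemma content_FF_zero (hT : IsLur T) (hs : 1 / 2 < s) (hs0 : 0 < s) : ∃ ε > 0, ∀ u : ℕ → ℝ,
    content s hs0 (FF T ε u 0) = 0 := by
  obtain ⟨ε, hε, h⟩ := key_step hT hs hs0
  refine ⟨ε, hε, ?_⟩
  set θ := ENNReal.ofReal (max (1 / 2) ((1 / 2) ^ s)) with hθ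
  have hθ1 : θ < 1 := by
    rw [hθ, ENNReal.ofReal_lt_one]
    apply max_lt (by norm_num)
    exact Real.rpow_lt_one (by norm_num) (by norm_num) hs0
  have hn : ∀ n : ℕ, ∀ u : ℕ → ℝ, content s hs0 (FF T ε u 0) ≤ θ ^ n := by
    intro n
    induction n with
    | zero => intro u; rw [pow_zero]; exact content_FF_le_one hs0 ε u 0
    | succ n ih =>
      intro u
      calc content s hs0 (FF T ε u 0) ≤ θ * content s hs0 (FF T ε (fun n => u (n + 1)) 0) := h u
        _ ≤ θ * θ ^ n := by gcongr; exact ih _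
        _ = θ ^ (n + 1) := by rw [pow_succ, mul_comm]
  intro u
  have hlim := ENNReal.tendsto_pow_atTop_nhds_zero_of_lt_one hθ1
  exact le_antisymm (ge_of_tendsto hlim (Eventually.of_forall fun n => hn n u)) zero_le

/-- Content zero propagates to the preimages. -/
lemma content_FF_all (hT : IsLur T) (hs0 : 0 < s) {ε : ℝ}
    (h : ∀ u : ℕ → ℝ, content s hs0 (FF T ε u 0) = 0) :
    ∀ N : ℕ, ∀ u : ℕ → ℝ, content s hs0 (FF T ε u N) = 0 := by
  intro N
  induction N with
  | zero => exact h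
  | succ N ih =>
    intro u
    have hsub : FF T ε u (N + 1) ⊆ EP ∪ ⋃ m : ℕ, phi (m + 1) '' FF T ε (fun n => u (n + 1)) N := by
      intro z hz
      by_cases hzE : z ∈ EP
      · exact Or.inl hzE
      · right
        obtain ⟨m, hm, hzm⟩ := exists_digit hz.1 hzE
        rw [mem_iUnion]
        refine ⟨m - 1, ?_⟩
        rw [Nat.sub_add_cancel hm]
        exact FF_step hT hm hzm hz
    have h1 : ∀ m : ℕ, content s hs0 (phi (m + 1) '' FF T ε (fun n => u (n + 1)) N) = 0 := by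
      intro m
      have := content_phi hs0 (show 1 ≤ m + 1 by omega) (FF T ε (fun n => u (n + 1)) N)
      rw [ih, mul_zero] at this
      exact le_antisymm this zero_le
    apply measure_mono_null hsub
    rw [measure_union_null_iff]
    exact ⟨content_countable hs0 EP_countable, measure_iUnion_null h1⟩

lemma ASeq_subset {u : ℕ → ℝ} {ε : ℝ} (hε : 0 < ε) : ASeq T u ⊆ ⋃ N, FF T ε u N := by
  intro y hy
  have h1 := hy.2.eventually_lt_const hε
  obtain ⟨N, hN⟩ := eventually_atTop.mp h1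
  exact mem_iUnion.mpr ⟨N, hy.1, fun n hn => hN n hn⟩

/-- **Upper bound.** -/
theorem dimH_ASeq_le (hT : IsLur T) (u : ℕ → ℝ) : dimH (ASeq T u) ≤ ENNReal.ofReal (1 / 2) := by
  apply le_of_forall_gt_imp_ge_of_dense
  intro r hr
  rcases eq_or_ne r ⊤ with h | h
  · rw [h]; exact le_top
  have hr2 : 1 / 2 < r.toReal := by
    rw [← ENNReal.ofReal_toReal h] at hr
    exact (ENNReal.ofReal_lt_ofReal_iff_of_nonneg (by norm_num)).mp hr
  have hr0 : 0 < r.toReal := by linarith
  obtain ⟨ε, hε, h0⟩ := content_FF_zero hT hr2 hr0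
  have h2 : content r.toReal hr0 (ASeq T u) = 0 := by
    apply measure_mono_null (ASeq_subset hε)
    exact measure_iUnion_null fun N => content_FF_all hT hr0 h0 N u
  have h3 := dimH_le_of_content hr0 h2
  rwa [ENNReal.ofReal_toReal h] at h3

end Q76.Lur
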