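import Mathlib
import Pool.Agent.Q76.LurUpper

/-!
# Lower bounds for dimensions by Hölder maps onto the unit interval
-/

namespace Q76.Lur

open MeasureTheory Set Filter Topology Metric
open scoped ENNReal NNReal

/-- Digit system: at time `n` the digits are `lo n ≤ m < hi n` with probabilities `q n m`. -/
structure DS (lo hi : ℕ → ℕ) (q : ℕ → ℕ → ℝ) : Prop where
  pos : ∀ n, 1 ≤ lo n
  lt : ∀ n, lo n < hi n
  qpos : ∀ n m, lo n ≤ m → m < hi n → 0 < q n m
  sum : ∀ n, ∑ m ∈ Finset.Ico (lo n) (hi n), q n m = 1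

/-- The sequences of digits. -/
def Seqs (lo hi : ℕ → ℕ) : Set (ℕ → ℕ) := {a | ∀ n, lo n ≤ a n ∧ a n < hi n}

/-- Probability of a cylinder. -/
noncomputable def QQ (q : ℕ → ℕ → ℝ) (a : ℕ → ℕ) (n : ℕ) : ℝ := ∏ j ∈ Finset.range n, q j (a j)

/-- Distribution function of the digits. -/
noncomputable def cdf (lo : ℕ → ℕ) (q : ℕ → ℕ → ℝ) (n m : ℕ) : ℝ :=
  ∑ i ∈ Finset.Ico (lo n) m, q n i

/-- Partial sums of the coding map. -/
noncomputable def GS (lo : ℕ → ℕ) (q : ℕ → ℕ → ℝ) (a : ℕ → ℕ) (n : ℕ) : ℝ :=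
  ∑ j ∈ Finset.range n, QQ q a j * cdf lo q j (a j)

/-- The coding map. -/
noncomputable def FM (lo : ℕ → ℕ) (q : ℕ → ℕ → ℝ) (a : ℕ → ℕ) : ℝ :=
  ∑' j, QQ q a j * cdf lo q j (a j)

section ds

variable {lo hi : ℕ → ℕ} {q : ℕ → ℕ → ℝ}

lemma QQ_zero (a : ℕ → ℕ) : QQ q a 0 = 1 := by simp [QQ]

lemma QQ_succ (a : ℕ → ℕ) (n : ℕ) : QQ q a (n + 1) = QQ q a n * q n (a n) := by
  unfold QQ; rw [Finset.prod_range_succ]

lemma GS_succ (a : ℕ → ℕ) (n : ℕ) :
    GS lo q a (n + 1) = GS lo q a n + QQ q a n * cdf lo q n (a n) := by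
  unfold GS; rw [Finset.sum_range_succ]

lemma QQ_pos (h : DS lo hi q) {a : ℕ → ℕ} (ha : a ∈ Seqs lo hi) (n : ℕ) : 0 < QQ q a n :=
  Finset.prod_pos fun j _ => h.qpos j (a j) (ha j).1 (ha j).2

lemma cdf_succ {n m : ℕ} (hm : lo n ≤ m) : cdf lo q n (m + 1) = cdf lo q n m + q n m := by
  unfold cdf
  rw [Finset.sum_Ico_succ_top hm]

lemma cdf_lo (n : ℕ) : cdf lo q n (lo n) = 0 := by simp [cdf]

lemma cdf_hi (h : DS lo hi q) (n : ℕ) : cdf lo q n (hi n) = 1 := h.sum n

lemma cdf_mono (h : DS lo hi q) {n m m' : ℕ} (hmm : m ≤ m') (hm' : m' ≤ hi n) :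
    cdf lo q n m ≤ cdf lo q n m' := by
  unfold cdf
  apply Finset.sum_le_sum_of_subset_of_nonneg
  · exact Finset.Ico_subset_Ico_right hmm
  · intro i hi' _
    rw [Finset.mem_Ico] at hi'
    exact (h.qpos n i hi'.1 (hi'.2.trans_le hm')).le

lemma cdf_nonneg (h : DS lo hi q) {n m : ℕ} (hm : m ≤ hi n) : 0 ≤ cdf lo q n m := by
  unfold cdf
  apply Finset.sum_nonneg
  intro i hi'
  rw [Finset.mem_Ico] at hi'
  exact (h.qpos n i hi'.1 (hi'.2.trans_le hm)).le

lemma cdf_add_le (h : DS lo hi q) {n m : ℕ} (h1 : lo n ≤ m) (h2 : m < hi n) :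
    cdf lo q n m + q n m ≤ 1 := by
  rw [← cdf_succ h1, ← cdf_hi h n]
  exact cdf_mono h h2 le_rfl

lemma GS_mono (h : DS lo hi q) {a : ℕ → ℕ} (ha : a ∈ Seqs lo hi) : Monotone (GS lo q a) := by
  apply monotone_nat_of_le_succ
  intro n
  rw [GS_succ]
  have := mul_nonneg (QQ_pos h ha n).le (cdf_nonneg h (ha n).2.le)
  linarith

lemma GSQ_anti (h : DS lo hi q) {a : ℕ → ℕ} (ha : a ∈ Seqs lo hi) :
    Antitone (fun n => GS lo q a n + QQ q a n) := by
  apply antitone_nat_of_succ_le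
  intro n
  show GS lo q a (n + 1) + QQ q a (n + 1) ≤ GS lo q a n + QQ q a n
  rw [GS_succ, QQ_succ]
  have := mul_le_mul_of_nonneg_left (cdf_add_le h (ha n).1 (ha n).2) (QQ_pos h ha n).le
  linarith

lemma GS_le_one (h : DS lo hi q) {a : ℕ → ℕ} (ha : a ∈ Seqs lo hi) (n : ℕ) : GS lo q a n ≤ 1 := by
  have h1 := GSQ_anti h ha (Nat.zero_le n)
  simp only [QQ_zero] at h1
  have h2 : GS lo q a 0 = 0 := by simp [GS]
  have h3 := QQ_pos h ha n
  linarith

lemma FM_summable (h : DS lo hi q) {a : ℕ → ℕ} (ha : a ∈ Seqs lo hi) :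
    Summable fun j => QQ q a j * cdf lo q j (a j) := by
  apply summable_of_sum_range_le (c := 1)
  · intro n
    exact mul_nonneg (QQ_pos h ha n).le (cdf_nonneg h (ha n).2.le)
  · exact fun n => GS_le_one h ha n

lemma GS_le_FM (h : DS lo hi q) {a : ℕ → ℕ} (ha : a ∈ Seqs lo hi) (n : ℕ) :
    GS lo q a n ≤ FM lo q a :=
  (FM_summable h ha).sum_le_tsum _ fun j _ =>
    mul_nonneg (QQ_pos h ha j).le (cdf_nonneg h (ha j).2.le)

lemma FM_le (h : DS lo hi q) {a : ℕ → ℕ} (ha : a ∈ Seqs lo hi) (n : ℕ) :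
    FM lo q a ≤ GS lo q a n + QQ q a n := by
  apply le_of_tendsto (FM_summable h ha).hasSum.tendsto_sum_nat
  filter_upwards [eventually_ge_atTop n] with k hk
  have h1 := GSQ_anti h ha hk
  have h2 := QQ_pos h ha k
  simp only at h1
  have h3 : ∑ i ∈ Finset.range k, QQ q a i * cdf lo q i (a i) = GS lo q a k := rfl
  rw [h3]
  linarith

lemma QQ_congr {a b : ℕ → ℕ} {n : ℕ} (hab : ∀ i < n, a i = b i) : QQ q a n = QQ q b n := by
  apply Finset.prod_congr rfl
  intro j hj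
  rw [hab j (Finset.mem_range.mp hj)]

lemma GS_congr {a b : ℕ → ℕ} {n : ℕ} (hab : ∀ i < n, a i = b i) : GS lo q a n = GS lo q b n := by
  apply Finset.sum_congr rfl
  intro j hj
  have hj' := Finset.mem_range.mp hj
  rw [hab j hj', QQ_congr fun i hi => hab i (hi.trans hj')]

/-- The coding map at two sequences that differ first at time `n`. -/
lemma FM_diff (h : DS lo hi q) {a b : ℕ → ℕ} (ha : a ∈ Seqs lo hi) (hb : b ∈ Seqs lo hi) {n : ℕ}
    (hab : ∀ i < n, a i = b i) (hlt : a n < b n) :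
    |FM lo q a - FM lo q b| ≤ QQ q a n * (cdf lo q n (b n + 1) - cdf lo q n (a n)) := by
  have a1 := GS_le_FM h ha (n + 1)
  have a2 := FM_le h ha (n + 1)
  have b1 := GS_le_FM h hb (n + 1)
  have b2 := FM_le h hb (n + 1)
  rw [GS_succ] at a1 a2 b1 b2
  rw [QQ_succ] at a2 b2
  rw [← QQ_congr hab] at b1 b2
  rw [← GS_congr hab] at b1 b2
  have c1 := cdf_succ (q := q) (ha n).1
  have c2 := cdf_succ (q := q) (hb n).1
  have c3 : cdf lo q n (a n + 1) ≤ cdf lo q n (b n) := cdf_mono h hlt (hb n).2.le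
  have hQ := QQ_pos h ha n
  have c4 := mul_le_mul_of_nonneg_left c3 hQ.le
  have q1 := h.qpos n (a n) (ha n).1 (ha n).2
  have q2 := h.qpos n (b n) (hb n).1 (hb n).2
  have e1 : QQ q a n * cdf lo q n (a n + 1) =
      QQ q a n * cdf lo q n (a n) + QQ q a n * q n (a n) := by rw [c1]; ring
  have e2 : QQ q a n * cdf lo q n (b n + 1) =
      QQ q a n * cdf lo q n (b n) + QQ q a n * q n (b n) := by rw [c2]; ring
  have p1 := mul_pos hQ q1
  have p2 := mul_pos hQ q2
  rw [mul_sub, abs_le]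
  constructor <;> linarith

/-! ### Surjectivity -/

lemma exists_dig (h : DS lo hi q) (n : ℕ) {t : ℝ} (ht : t ∈ Ico (0 : ℝ) 1) :
    ∃ m, lo n ≤ m ∧ m < hi n ∧ cdf lo q n m ≤ t ∧ t < cdf lo q n m + q n m := by
  classical
  have hex : ∃ m, t < cdf lo q n (m + 1) ∧ lo n ≤ m := by
    refine ⟨hi n - 1, ?_, ?_⟩
    · rw [Nat.sub_add_cancel (by have := h.lt n; omega), cdf_hi h]
      exact ht.2
    · have := h.lt n
      omega
  set m := Nat.find hex with hm
  obtain ⟨h1, h2⟩ := Nat.find_spec hex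
  rw [← hm] at h1 h2
  have hmhi : m ≤ hi n - 1 := by
    apply Nat.find_min' hex
    constructor
    · rw [Nat.sub_add_cancel (by have := h.lt n; omega), cdf_hi h]
      exact ht.2
    · have := h.lt n
      omega
  have hlt : m < hi n := by
    have := h.lt n
    omega
  refine ⟨m, h2, hlt, ?_, ?_⟩
  · rcases h2.eq_or_lt with h3 | h3
    · rw [← h3, cdf_lo]
      exact ht.1
    · have h4 := Nat.find_min hex (show m - 1 < Nat.find hex by omega)
      push Not at h4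
      by_contra hcon
      push Not at hcon
      have h5 := h4 (by
        rw [Nat.sub_add_cancel (by omega)]
        exact hcon)
      omega
  · rw [← cdf_succ h2]
    exact h1

open Classical in
/-- The greedy digit. -/
noncomputable def gd (lo hi : ℕ → ℕ) (q : ℕ → ℕ → ℝ) (n : ℕ) (t : ℝ) : ℕ :=
  if h : ∃ m, lo n ≤ m ∧ m < hi n ∧ cdf lo q n m ≤ t ∧ t < cdf lo q n m + q n m then h.choose
  else lo n

/-- The greedy state. -/
noncomputable def gs (lo hi : ℕ → ℕ) (q : ℕ → ℕ → ℝ) (t : ℝ) : ℕ → ℝ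
  | 0 => t
  | n + 1 => (gs lo hi q t n - cdf lo q n (gd lo hi q n (gs lo hi q t n))) /
      q n (gd lo hi q n (gs lo hi q t n))

lemma gd_spec (h : DS lo hi q) (n : ℕ) {t : ℝ} (ht : t ∈ Ico (0 : ℝ) 1) :
    lo n ≤ gd lo hi q n t ∧ gd lo hi q n t < hi n ∧ cdf lo q n (gd lo hi q n t) ≤ t ∧
      t < cdf lo q n (gd lo hi q n t) + q n (gd lo hi q n t) := by
  have hex := exists_dig h n ht
  unfold gd
  rw [dif_pos hex]
  exact hex.choose_spec

lemma gs_mem (h : DS lo hi q) {t : ℝ} (ht : t ∈ Ico (0 : ℝ) 1) (n : ℕ) :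
    gs lo hi q t n ∈ Ico (0 : ℝ) 1 := by
  induction n with
  | zero => exact ht
  | succ n ih =>
    obtain ⟨h1, h2, h3, h4⟩ := gd_spec h n ih
    have hq := h.qpos n _ h1 h2
    constructor
    · exact div_nonneg (by linarith) hq.le
    · show (gs lo hi q t n - cdf lo q n (gd lo hi q n (gs lo hi q t n))) /
        q n (gd lo hi q n (gs lo hi q t n)) < 1
      rw [div_lt_one hq]
      linarith

lemma exists_seq (h : DS lo hi q) {t : ℝ} (ht : t ∈ Ico (0 : ℝ) 1)
    (hQ : ∀ a ∈ Seqs lo hi, Tendsto (QQ q a) atTop (𝓝 0)) :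
    ∃ a ∈ Seqs lo hi, FM lo q a = t := by
  set a : ℕ → ℕ := fun n => gd lo hi q n (gs lo hi q t n) with ha
  have haS : a ∈ Seqs lo hi := fun n =>
    ⟨(gd_spec h n (gs_mem h ht n)).1, (gd_spec h n (gs_mem h ht n)).2.1⟩
  refine ⟨a, haS, ?_⟩
  have key : ∀ n, t = GS lo q a n + QQ q a n * gs lo hi q t n := by
    intro n
    induction n with
    | zero => simp [GS, QQ, gs]
    | succ n ih =>
      have hq := h.qpos n (a n) (haS n).1 (haS n).2
      have h1 : gs lo hi q t (n + 1) = (gs lo hi q t n - cdf lo q n (a n)) / q n (a n) := rfl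
      rw [GS_succ, QQ_succ, h1, mul_assoc, mul_div_cancel₀ _ hq.ne']
      calc t = GS lo q a n + QQ q a n * gs lo hi q t n := ih
        _ = _ := by ring
  have hb : ∀ n, |FM lo q a - t| ≤ QQ q a n := by
    intro n
    have h1 := GS_le_FM h haS n
    have h2 := FM_le h haS n
    have h3 := gs_mem h ht n
    have h4 := key n
    have h5 := QQ_pos h haS n
    have h6 := mul_nonneg h5.le h3.1
    have h7 : QQ q a n * gs lo hi q t n ≤ QQ q a n * 1 := mul_le_mul_of_nonneg_left h3.2.le h5.le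
    rw [abs_le]
    constructor <;> linarith
  have h8 : |FM lo q a - t| ≤ 0 := ge_of_tendsto (hQ a haS) (Eventually.of_forall hb)
  have h9 := abs_nonpos_iff.mp h8
  linarith

/-- **Lower bound for the dimension.** -/
theorem dimH_ge (h : DS lo hi q) {s C : ℝ} (hs : 0 < s) (hC : 0 ≤ C)
    (hQ : ∀ a ∈ Seqs lo hi, Tendsto (QQ q a) atTop (𝓝 0))
    (hH : ∀ a ∈ Seqs lo hi, ∀ b ∈ Seqs lo hi, ∀ n, (∀ i < n, a i = b i) → a n < b n →
      QQ q a n * (cdf lo q n (b n + 1) - cdf lo q n (a n)) ≤ C * |XX a - XX b| ^ s) :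
    ENNReal.ofReal s ≤ dimH (XX '' Seqs lo hi) := by
  have hH2 : ∀ a ∈ Seqs lo hi, ∀ b ∈ Seqs lo hi,
      |FM lo q a - FM lo q b| ≤ C * |XX a - XX b| ^ s := by
    intro a ha b hb
    by_cases hab : a = b
    · rw [hab]
      simp only [sub_self, abs_zero]
      positivity
    · have hex : ∃ n, a n ≠ b n := by
        by_contra hcon
        push Not at hcon
        exact hab (funext hcon)
      classical
      set n := Nat.find hex with hn
      have h1 : a n ≠ b n := Nat.find_spec hex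
      have h2 : ∀ i < n, a i = b i := fun i hi => by
        have := Nat.find_min hex hi
        push Not at this
        exact this
      rcases lt_or_gt_of_ne h1 with h3 | h3
      · exact (FM_diff h ha hb h2 h3).trans (hH a ha b hb n h2 h3)
      · rw [abs_sub_comm (FM lo q a), abs_sub_comm (XX a)]
        exact (FM_diff h hb ha (fun i hi => (h2 i hi).symm) h3).trans
          (hH b hb a ha n (fun i hi => (h2 i hi).symm) h3)
  classical
  -- the inverse map
  set g : ℝ → ℝ := fun x => if hx : ∃ a ∈ Seqs lo hi, XX a = x then FM lo q hx.choose else 0 with hg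
  have hgX : ∀ a ∈ Seqs lo hi, g (XX a) = FM lo q a := by
    intro a ha
    have hx : ∃ b ∈ Seqs lo hi, XX b = XX a := ⟨a, ha, rfl⟩
    have h1 : g (XX a) = FM lo q hx.choose := by
      simp only [hg]
      rw [dif_pos hx]
    have h2 := hx.choose_spec
    have h3 := hH2 _ h2.1 a ha
    rw [h2.2, sub_self, abs_zero, Real.zero_rpow hs.ne', mul_zero] at h3
    have h4 := abs_nonpos_iff.mp h3
    rw [h1]
    linarith
  have hhold : HolderOnWith (Real.toNNReal C) (Real.toNNReal s) g (XX '' Seqs lo hi) := by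
    rintro _ ⟨a, ha, rfl⟩ _ ⟨b, hb, rfl⟩
    rw [hgX a ha, hgX b hb, edist_dist, edist_dist, Real.dist_eq, Real.dist_eq,
      Real.coe_toNNReal s hs.le, ENNReal.ofReal_rpow_of_nonneg (abs_nonneg _) hs.le]
    have : ((Real.toNNReal C : ℝ≥0) : ℝ≥0∞) = ENNReal.ofReal C := rfl
    rw [this, ← ENNReal.ofReal_mul hC]
    exact ENNReal.ofReal_le_ofReal (hH2 a ha b hb)
  have hspos : 0 < Real.toNNReal s := Real.toNNReal_pos.mpr hs
  have h1 := hhold.dimH_image_le hspos
  have h2 : Ico (0 : ℝ) 1 ⊆ g '' (XX '' Seqs lo hi) := by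
    intro t ht
    obtain ⟨a, ha, hat⟩ := exists_seq h ht hQ
    exact ⟨XX a, ⟨a, ha, rfl⟩, by rw [hgX a ha, hat]⟩
  have h3 : dimH (Ico (0 : ℝ) 1) = 1 := by
    have := Real.dimH_of_nonempty_interior (E := ℝ) (s := Ico (0 : ℝ) 1) (by
      rw [interior_Ico]
      exact nonempty_Ioo.mpr one_pos)
    simpa using this
  have h4 : (1 : ℝ≥0∞) ≤ dimH (XX '' Seqs lo hi) / (Real.toNNReal s : ℝ≥0∞) := by
    rw [← h3]
    exact (dimH_mono h2).trans h1
  rw [ENNReal.le_div_iff_mul_le (Or.inl (by exact_mod_cast hspos.ne'))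
    (Or.inl ENNReal.coe_ne_top), one_mul] at h4
  exact h4

end ds

/-- The gap between two cylinders. -/
lemma XX_gap {a b : ℕ → ℕ} (ha : Adm a) (hb : Adm b) {n : ℕ} (hab : ∀ i < n, a i = b i)
    (hlt : a n < b n) :
    PP a n * ((1 / ((a n : ℝ) + 1) - 1 / b n) +
      1 / ((a n : ℝ) * (a n + 1)) * (1 / ((a (n + 1) : ℝ) + 1))) ≤ XX a - XX b := by
  rw [XX_sub_of_agree n a b ha hb hab]
  apply mul_le_mul_of_nonneg_left _ (PP_pos ha n).le
  have h1 := XX_mem_branch (hb.shift n)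
  have h2 := XX_mem_branch ((ha.shift n).shift 1)
  have e1 : shift b n 0 = b n := by simp [shift]
  have e2 : shift (shift a n) 1 0 = a (n + 1) := by simp [shift]
  have e3 : shift a n 0 = a n := by simp [shift]
  rw [e1] at h1
  rw [e2] at h2
  rw [XX_eq (ha.shift n), e3]
  have ha0 : (0 : ℝ) < a n := by exact_mod_cast ha n
  have h3 : phi (a n) (XX (shift (shift a n) 1)) =
      1 / ((a n : ℝ) + 1) + 1 / ((a n : ℝ) * (a n + 1)) * XX (shift (shift a n) 1) := by
    unfold phi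
    field_simp
    ring
  rw [h3]
  have h4 := mul_le_mul_of_nonneg_left h2.1
    (show 0 ≤ 1 / ((a n : ℝ) * (a n + 1)) by positivity)
  linarith [h1.2]

end Q76.Lur
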