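import Mathlib
import Pool.Agent.Q76.LurHolder

/-!
# The level set of dimension one half has full dimension
-/

namespace Q76.Lur

open MeasureTheory Set Filter Topology Metric
open scoped ENNReal NNReal

/-! ### Logarithmic form of the lower bound -/

/-- Logarithm of the inverse length. -/
noncomputable def LP (a : ℕ → ℕ) (n : ℕ) : ℝ :=
  ∑ j ∈ Finset.range n, Real.log ((a j : ℝ) * (a j + 1))

/-- Logarithm of the inverse probability. -/
noncomputable def LQ (q : ℕ → ℕ → ℝ) (a : ℕ → ℕ) (n : ℕ) : ℝ :=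
  ∑ j ∈ Finset.range n, -Real.log (q j (a j))

lemma PP_exp {a : ℕ → ℕ} (ha : Adm a) (n : ℕ) : PP a n = Real.exp (-LP a n) := by
  unfold PP LP
  rw [← Finset.sum_neg_distrib, Real.exp_sum]
  apply Finset.prod_congr rfl
  intro j _
  have h0 : (0 : ℝ) < a j := by exact_mod_cast ha j
  rw [Real.exp_neg, Real.exp_log (by positivity), one_div]

lemma QQ_exp {lo hi : ℕ → ℕ} {q : ℕ → ℕ → ℝ} (h : DS lo hi q) {a : ℕ → ℕ}
    (ha : a ∈ Seqs lo hi) (n : ℕ) : QQ q a n = Real.exp (-LQ q a n) := by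
  unfold QQ LQ
  rw [← Finset.sum_neg_distrib, Real.exp_sum]
  apply Finset.prod_congr rfl
  intro j _
  rw [neg_neg, Real.exp_log (h.qpos j _ (ha j).1 (ha j).2)]

lemma Seqs_adm {lo hi : ℕ → ℕ} {q : ℕ → ℕ → ℝ} (h : DS lo hi q) {a : ℕ → ℕ}
    (ha : a ∈ Seqs lo hi) : Adm a := fun n => (h.pos n).trans (ha n).1

lemma LP_ge {a : ℕ → ℕ} (ha : Adm a) (n : ℕ) : n * Real.log 2 ≤ LP a n := by
  unfold LP
  calc (n : ℝ) * Real.log 2 = ∑ _j ∈ Finset.range n, Real.log 2 := by simp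
    _ ≤ _ := by
      apply Finset.sum_le_sum
      intro j _
      have h0 : (1 : ℝ) ≤ a j := by exact_mod_cast ha j
      apply Real.log_le_log (by norm_num)
      nlinarith

theorem dimH_ge_log {lo hi : ℕ → ℕ} {q : ℕ → ℕ → ℝ} (h : DS lo hi q) {s K : ℝ} (hs : 0 < s)
    (hK : ∀ a ∈ Seqs lo hi, ∀ n, s * (LP a (n + 1) + Real.log ((a (n + 1) : ℝ) + 1)) ≤
      LQ q a n + K) :
    ENNReal.ofReal s ≤ dimH (XX '' Seqs lo hi) := by
  have hQle : ∀ a ∈ Seqs lo hi, ∀ n, QQ q a n ≤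
      Real.exp K * (PP a (n + 1) * (1 / ((a (n + 1) : ℝ) + 1))) ^ s := by
    intro a ha n
    have hadm := Seqs_adm h ha
    have h0 : (0 : ℝ) < (a (n + 1) : ℝ) + 1 := by positivity
    rw [QQ_exp h ha, PP_exp hadm, one_div, ← Real.exp_log (inv_pos.mpr h0), ← Real.exp_add,
      ← Real.exp_mul, ← Real.exp_add, Real.log_inv]
    apply Real.exp_le_exp.mpr
    have := hK a ha n
    linarith
  apply dimH_ge h hs (Real.exp_pos K).le
  · intro a ha
    have hadm := Seqs_adm h ha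
    have h1 : ∀ n, QQ q a n ≤ Real.exp K * ((1 / 2 : ℝ) ^ s) ^ n := by
      intro n
      apply (hQle a ha n).trans
      apply mul_le_mul_of_nonneg_left _ (Real.exp_pos K).le
      rw [← Real.rpow_natCast, ← Real.rpow_mul (by positivity), mul_comm s, Real.rpow_mul
        (by positivity), Real.rpow_natCast]
      apply Real.rpow_le_rpow
      · exact mul_nonneg (PP_pos hadm _).le (by positivity)
      · have h2 : 1 / ((a (n + 1) : ℝ) + 1) ≤ 1 := by
          rw [div_le_one (by positivity)]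
          linarith [(Nat.cast_nonneg (a (n + 1)) : (0 : ℝ) ≤ a (n + 1))]
        calc PP a (n + 1) * (1 / ((a (n + 1) : ℝ) + 1)) ≤ PP a (n + 1) * 1 :=
              mul_le_mul_of_nonneg_left h2 (PP_pos hadm _).le
          _ = PP a (n + 1) := mul_one _
          _ ≤ (1 / 2) ^ (n + 1) := PP_le hadm _
          _ ≤ (1 / 2) ^ n := pow_le_pow_of_le_one (by norm_num) (by norm_num) (Nat.le_succ n)
      · exact hs.le
    have h3 : Tendsto (fun n : ℕ => Real.exp K * ((1 / 2 : ℝ) ^ s) ^ n) atTop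
        (𝓝 (Real.exp K * 0)) := by
      apply Tendsto.const_mul
      apply tendsto_pow_atTop_nhds_zero_of_lt_one (by positivity)
      exact Real.rpow_lt_one (by norm_num) (by norm_num) hs
    rw [mul_zero] at h3
    exact squeeze_zero (fun n => (QQ_pos h ha n).le) h1 h3
  · intro a ha b hb n hab hlt
    have hadm := Seqs_adm h ha
    have hbdm := Seqs_adm h hb
    have c1 : cdf lo q n (b n + 1) ≤ 1 := by
      rw [← cdf_hi h n]
      exact cdf_mono h (hb n).2 le_rfl
    have c2 := cdf_nonneg h (ha n).2.le (n := n)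
    have hQ := QQ_pos h ha n
    have ha0 : (0 : ℝ) < a n := by exact_mod_cast hadm n
    have hgap := XX_gap hadm hbdm hab hlt
    have h1 : 0 ≤ 1 / ((a n : ℝ) + 1) - 1 / b n := by
      have : (a n : ℝ) + 1 ≤ b n := by exact_mod_cast hlt
      have := one_div_le_one_div_of_le (by positivity) this
      linarith
    have h2 : PP a (n + 1) * (1 / ((a (n + 1) : ℝ) + 1)) ≤ XX a - XX b := by
      rw [PP_succ]
      have := mul_nonneg (PP_pos hadm n).le h1
      calc PP a n * (1 / ((a n : ℝ) * (a n + 1))) * (1 / ((a (n + 1) : ℝ) + 1)) ≤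
            PP a n * (1 / ((a n : ℝ) + 1) - 1 / b n) +
              PP a n * (1 / ((a n : ℝ) * (a n + 1))) * (1 / ((a (n + 1) : ℝ) + 1)) := by
            linarith
        _ = PP a n * ((1 / ((a n : ℝ) + 1) - 1 / b n) +
            1 / ((a n : ℝ) * (a n + 1)) * (1 / ((a (n + 1) : ℝ) + 1))) := by ring
        _ ≤ _ := hgap
    calc QQ q a n * (cdf lo q n (b n + 1) - cdf lo q n (a n)) ≤ QQ q a n * 1 :=
          mul_le_mul_of_nonneg_left (by linarith) hQ.le
      _ = QQ q a n := mul_one _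
      _ ≤ Real.exp K * (PP a (n + 1) * (1 / ((a (n + 1) : ℝ) + 1))) ^ s := hQle a ha n
      _ ≤ Real.exp K * |XX a - XX b| ^ s := by
          apply mul_le_mul_of_nonneg_left _ (Real.exp_pos K).le
          apply Real.rpow_le_rpow _ (h2.trans (le_abs_self _)) hs.le
          exact mul_nonneg (PP_pos hadm _).le (by positivity)

/-! ### Counting squares -/

open Classical in
/-- Sum of the squares below `n`. -/
noncomputable def SS (n : ℕ) : ℝ := ∑ j ∈ Finset.range n, if IsSquare j then (j : ℝ) else 0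

open Classical in
/-- Number of squares below `n`. -/
noncomputable def RR (n : ℕ) : ℝ := ∑ j ∈ Finset.range n, if IsSquare j then (1 : ℝ) else 0

lemma RR_nonneg (n : ℕ) : 0 ≤ RR n := by
  unfold RR
  apply Finset.sum_nonneg
  intro j _
  split_ifs <;> norm_num

lemma RR_le (n : ℕ) : RR n ≤ Nat.sqrt n + 1 := by
  classical
  unfold RR
  rw [← Finset.sum_filter, Finset.sum_const, nsmul_eq_mul, mul_one]
  have h1 : (Finset.filter (fun j => IsSquare j) (Finset.range n)).card ≤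
      (Finset.range (Nat.sqrt n + 1)).card := by
    apply Finset.card_le_card_of_injOn Nat.sqrt
    · intro j hj
      simp only [Finset.coe_filter, Set.mem_ofPred_eq, Finset.mem_range] at hj
      simp only [Finset.coe_range, mem_Iio]
      exact Nat.lt_succ_of_le (Nat.sqrt_le_sqrt hj.1.le)
    · intro i hi j hj hij
      simp only [Finset.coe_filter, Set.mem_ofPred_eq, Finset.mem_range] at hi hj
      obtain ⟨r, hr⟩ := hi.2
      obtain ⟨t, ht⟩ := hj.2
      rw [hr, ht] at hij ⊢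
      rw [Nat.sqrt_eq, Nat.sqrt_eq] at hij
      rw [hij]
  rw [Finset.card_range] at h1
  exact_mod_cast h1

lemma SS_ge (n : ℕ) : ∑ k ∈ Finset.range (Nat.sqrt n), (k : ℝ) ^ 2 ≤ SS n := by
  classical
  unfold SS
  rw [← Finset.sum_filter]
  have h1 : ∑ k ∈ Finset.range (Nat.sqrt n), (k : ℝ) ^ 2 =
      ∑ j ∈ (Finset.range (Nat.sqrt n)).image (fun k : ℕ => k * k), (j : ℝ) := by
    rw [Finset.sum_image]
    · apply Finset.sum_congr rfl
      intro k _
      push_cast
      ring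
    · intro x _ y _ hxy
      simp only at hxy
      exact Nat.mul_self_inj.mp hxy
  rw [h1]
  apply Finset.sum_le_sum_of_subset_of_nonneg
  · intro j hj
    rw [Finset.mem_image] at hj
    obtain ⟨k, hk, rfl⟩ := hj
    rw [Finset.mem_range] at hk
    rw [Finset.mem_filter, Finset.mem_range]
    refine ⟨?_, k, rfl⟩
    have h2 : k * k < Nat.sqrt n * Nat.sqrt n := Nat.mul_self_lt_mul_self hk
    exact h2.trans_le (Nat.sqrt_le n)
  · intro j _ _
    positivity

lemma sum_sq_ge (A : ℝ) (r : ℕ) :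
    A * (r * (r - 1) / 2) - r * (A ^ 2 / 4) ≤ ∑ k ∈ Finset.range r, (k : ℝ) ^ 2 := by
  induction r with
  | zero => simp
  | succ r ih =>
    rw [Finset.sum_range_succ]
    push_cast
    nlinarith [sq_nonneg ((r : ℝ) - A / 2)]

lemma SS_superlinear {K : ℝ} (hK : 0 ≤ K) : ∃ C, ∀ n : ℕ, K * n ≤ SS n + C := by
  refine ⟨((K + 1) + (K + 1) ^ 2 + 2 * K) ^ 2 / 4, fun n => ?_⟩
  set r := Nat.sqrt n with hr
  have h1 := SS_ge n
  have h2 := sum_sq_ge (2 * (K + 1)) r
  rw [← hr] at h1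
  have h3 : (n : ℝ) ≤ r ^ 2 + 2 * r := by
    have := Nat.sqrt_le_add n
    rw [← hr] at this
    have h4 : (n : ℝ) ≤ r * r + r + r := by exact_mod_cast this
    nlinarith
  have h5 : K * n ≤ K * (r ^ 2 + 2 * r) := mul_le_mul_of_nonneg_left h3 hK
  nlinarith [sq_nonneg ((r : ℝ) - ((K + 1) + (K + 1) ^ 2 + 2 * K) / 2)]

/-- `RR n log (n + 4)` is sublinear. -/
lemma RR_log {ε : ℝ} (hε : 0 < ε) : ∃ C, ∀ n : ℕ, RR n * Real.log (n + 4) ≤ ε * n + C := by
  refine ⟨4 * ε + 8 * (8 / ε) ^ 3, fun n => ?_⟩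
  set y : ℝ := ((n : ℝ) + 4) ^ (1 / 4 : ℝ) with hy
  have hn : (0 : ℝ) < (n : ℝ) + 4 := by positivity
  have hy1 : 1 ≤ y := Real.one_le_rpow (by linarith [(Nat.cast_nonneg n : (0 : ℝ) ≤ n)])
    (by norm_num)
  have hy4 : y ^ 4 = n + 4 := by
    rw [hy, ← Real.rpow_natCast, ← Real.rpow_mul hn.le]
    norm_num
  have h1 : Real.log (n + 4) ≤ 4 * y := by
    rw [← hy4, Real.log_pow]
    have := Real.log_le_self (show (0 : ℝ) ≤ y by linarith)
    push_cast
    linarith
  have h2 : RR n ≤ 2 * y ^ 2 := by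
    have h3 := RR_le n
    have h4 : ((Nat.sqrt n : ℕ) : ℝ) ≤ y ^ 2 := by
      have h5 : ((Nat.sqrt n : ℕ) : ℝ) ^ 2 ≤ (y ^ 2) ^ 2 := by
        have h6 : Nat.sqrt n * Nat.sqrt n ≤ n := Nat.sqrt_le n
        have h7 : ((Nat.sqrt n : ℕ) : ℝ) * (Nat.sqrt n : ℕ) ≤ n := by exact_mod_cast h6
        nlinarith
      exact le_of_sq_le_sq h5 (by positivity)
    nlinarith
  have hlog : 0 ≤ Real.log ((n : ℝ) + 4) := Real.log_nonneg (by
    linarith [(Nat.cast_nonneg n : (0 : ℝ) ≤ n)])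
  have h3 : RR n * Real.log (n + 4) ≤ 2 * y ^ 2 * (4 * y) :=
    mul_le_mul h2 h1 hlog (by positivity)
  have h4 : ε * n = ε * y ^ 4 - 4 * ε := by rw [hy4]; ring
  rw [h4]
  rcases le_or_gt (8 / ε) y with h | h
  · have h5 : 8 ≤ ε * y := by
      rw [div_le_iff₀ hε] at h
      linarith
    have h6 : 8 * y ^ 3 ≤ ε * y * y ^ 3 := mul_le_mul_of_nonneg_right h5 (by positivity)
    have h7 : 0 ≤ 8 * (8 / ε) ^ 3 := by positivity
    nlinarith
  · have h5 : y ^ 3 ≤ (8 / ε) ^ 3 := pow_le_pow_left₀ (by linarith) h.le 3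
    have h6 : 0 ≤ ε * y ^ 4 := by positivity
    nlinarith

lemma log_sub {ε : ℝ} (hε : 0 < ε) {x : ℝ} (hx : 0 < x) :
    Real.log x ≤ ε * x - Real.log ε := by
  have h1 := Real.log_le_sub_one_of_pos (show 0 < ε * x by positivity)
  rw [Real.log_mul hε.ne' hx.ne'] at h1
  linarith

end Q76.Lur
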