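import Mathlib
import Pool.Agent.Q76.LurHalf

/-!
# The level set of dimension one half has full dimension: conclusion
-/

namespace Q76.Lur

open MeasureTheory Set Filter Topology Metric
open scoped ENNReal NNReal

/-! ### The two digit systems -/

open Classical in
/-- Smallest digit of the points `y`. -/
noncomputable def loY (a : ℕ → ℕ) (n : ℕ) : ℕ := if IsSquare n then 2 ^ n else a n

open Classical in
/-- Bound for the digits of the points `y`. -/
noncomputable def hiY (a : ℕ → ℕ) (n : ℕ) : ℕ := if IsSquare n then 2 ^ (n + 1) else a n + 1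

open Classical in
/-- Probabilities of the digits of the points `y`. -/
noncomputable def qY (n _m : ℕ) : ℝ := if IsSquare n then (1 / 2) ^ n else 1

open Classical in
/-- Smallest digit of the points `x`. -/
noncomputable def loX (n : ℕ) : ℕ := if IsSquare n then n + 2 else 1

open Classical in
/-- Bound for the digits of the points `x`. -/
noncomputable def hiX (M n : ℕ) : ℕ := if IsSquare n then n + 3 else M + 1

open Classical in
/-- Probabilities of the digits of the points `x`. -/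
noncomputable def qX (M n m : ℕ) : ℝ :=
  if IsSquare n then 1 else (((M : ℝ) + 1) / M) * (1 / ((m : ℝ) * (m + 1)))

lemma dsY {a : ℕ → ℕ} (ha : Adm a) : DS (loY a) (hiY a) qY where
  pos := fun n => by
    unfold loY
    split_ifs
    · exact Nat.one_le_two_pow
    · exact ha n
  lt := fun n => by
    unfold loY hiY
    split_ifs
    · exact Nat.pow_lt_pow_right (by norm_num) (Nat.lt_succ_self n)
    · exact Nat.lt_succ_self _
  qpos := fun n m _ _ => by
    unfold qY
    split_ifs <;> positivity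
  sum := fun n => by
    unfold loY hiY qY
    split_ifs
    · rw [Finset.sum_const, Nat.card_Ico, nsmul_eq_mul, pow_succ, mul_two, Nat.add_sub_cancel]
      push_cast
      rw [← mul_pow]
      norm_num
    · simp

lemma sum_telescope (M : ℕ) :
    ∑ m ∈ Finset.Ico 1 (M + 1), 1 / ((m : ℝ) * (m + 1)) = M / (M + 1) := by
  induction M with
  | zero => simp
  | succ M ih =>
    rw [Finset.sum_Ico_succ_top (by omega), ih]
    push_cast
    field_simp
    ring

lemma dsX {M : ℕ} (hM : 1 ≤ M) : DS loX (hiX M) (qX M) where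
  pos := fun n => by
    unfold loX
    split_ifs <;> omega
  lt := fun n => by
    unfold loX hiX
    split_ifs <;> omega
  qpos := fun n m h1 h2 => by
    unfold qX
    unfold loX at h1
    split_ifs at h1 ⊢ with h
    · exact one_pos
    · have h3 : (0 : ℝ) < m := by exact_mod_cast h1
      have h4 : (0 : ℝ) < M := by exact_mod_cast hM
      positivity
  sum := fun n => by
    unfold loX hiX qX
    split_ifs with h
    · simp
    · rw [← Finset.mul_sum, sum_telescope]
      have h4 : (0 : ℝ) < M := by exact_mod_cast hM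
      field_simp

/-! ### The dimension of the set of points `x` -/

lemma seqX_le {M : ℕ} {a : ℕ → ℕ} (ha : a ∈ Seqs loX (hiX M)) (n : ℕ) : a n ≤ M + n + 2 := by
  have := (ha n).2
  unfold hiX at this
  split_ifs at this <;> omega

lemma LQX_ge {M : ℕ} (hM : 1 ≤ M) {a : ℕ → ℕ} (ha : a ∈ Seqs loX (hiX M)) (n : ℕ) :
    LP a n - n * Real.log (((M : ℝ) + 1) / M) - 2 * (RR n * Real.log (n + 4)) ≤
      LQ (qX M) a n := by
  classical
  have hadm := Seqs_adm (dsX hM) ha
  have hM0 : (0 : ℝ) < M := by exact_mod_cast hM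
  have hc : 0 ≤ Real.log (((M : ℝ) + 1) / M) := by
    apply Real.log_nonneg
    rw [le_div_iff₀ hM0]
    linarith
  unfold LP LQ RR
  rw [Finset.sum_mul, Finset.mul_sum]
  have e1 : (n : ℝ) * Real.log (((M : ℝ) + 1) / M) =
      ∑ _j ∈ Finset.range n, Real.log (((M : ℝ) + 1) / M) := by simp
  rw [e1, ← Finset.sum_sub_distrib, ← Finset.sum_sub_distrib]
  apply Finset.sum_le_sum
  intro j hj
  have hjn := Finset.mem_range.mp hj
  have hj0 : (1 : ℝ) ≤ a j := by exact_mod_cast hadm j
  unfold qX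
  split_ifs with h
  · have h1 : a j = j + 2 := by
      have h2 := ha j
      unfold loX hiX at h2
      rw [if_pos h, if_pos h] at h2
      omega
    rw [Real.log_one, neg_zero, one_mul]
    have h2 : Real.log ((a j : ℝ) * (a j + 1)) ≤ 2 * Real.log (n + 4) := by
      rw [← Real.log_rpow (by positivity), Real.rpow_two]
      apply Real.log_le_log (by positivity)
      rw [h1]
      push_cast
      have h3 : (j : ℝ) + 1 ≤ n := by exact_mod_cast hjn
      have h4 : (0 : ℝ) ≤ j := by positivity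
      nlinarith
    linarith
  · have e2 : Real.log ((((M : ℝ) + 1) / M) * (1 / ((a j : ℝ) * (a j + 1)))) =
        Real.log (((M : ℝ) + 1) / M) - Real.log ((a j : ℝ) * (a j + 1)) := by
      rw [Real.log_mul (by positivity) (by positivity), one_div, Real.log_inv]
      ring
    rw [e2]
    linarith

lemma X_cond {s : ℝ} (hs0 : 0 < s) (hs1 : s < 1) : ∃ M : ℕ, 1 ≤ M ∧ ∃ K : ℝ,
    ∀ a ∈ Seqs loX (hiX M), ∀ n,
      s * (LP a (n + 1) + Real.log ((a (n + 1) : ℝ) + 1)) ≤ LQ (qX M) a n + K := by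
  have hl2 : 0 < Real.log 2 := Real.log_pos (by norm_num)
  set κ := (1 - s) * Real.log 2 with hκ
  have hκ0 : 0 < κ := mul_pos (by linarith) hl2
  obtain ⟨M, hM⟩ := exists_nat_gt (4 / κ)
  have hM0 : (0 : ℝ) < M := lt_trans (by positivity) hM
  have hM1 : 1 ≤ M := by exact_mod_cast hM0
  obtain ⟨C, hC⟩ := RR_log (show 0 < κ / 8 by positivity)
  refine ⟨M, hM1, 2 * C + 3 * (κ / 12 * (M + 4) - Real.log (κ / 12)), fun a ha n => ?_⟩
  have hadm := Seqs_adm (dsX hM1) ha
  have h1 := LQX_ge hM1 ha n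
  have h2 := hC n
  have h3 := LP_ge hadm n
  -- the logarithmic constant
  have h4 : Real.log (((M : ℝ) + 1) / M) ≤ κ / 4 := by
    have h5 := Real.log_le_sub_one_of_pos (show (0 : ℝ) < ((M : ℝ) + 1) / M by positivity)
    have h6 : ((M : ℝ) + 1) / M - 1 = 1 / M := by field_simp; ring
    rw [h6] at h5
    have h7 : 1 / (M : ℝ) ≤ κ / 4 := by
      rw [div_le_div_iff₀ hM0 (by norm_num)]
      rw [div_lt_iff₀ hκ0] at hM
      linarith
    linarith
  -- the last digits
  have hb : ∀ i, i ≤ n + 1 → (a i : ℝ) + 1 ≤ (M : ℝ) + n + 4 := by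
    intro i hi
    have h5 := seqX_le ha i
    have h6 : a i + 1 ≤ M + n + 4 := by omega
    exact_mod_cast h6
  have hpos : (0 : ℝ) < (M : ℝ) + n + 4 := by positivity
  have ha0 : (1 : ℝ) ≤ a n := by exact_mod_cast hadm n
  have h5 : Real.log ((a n : ℝ) * (a n + 1)) ≤ 2 * Real.log ((M : ℝ) + n + 4) := by
    rw [← Real.log_rpow hpos, Real.rpow_two]
    apply Real.log_le_log (by positivity)
    have := hb n (Nat.le_succ n)
    nlinarith
  have h6 : Real.log ((a (n + 1) : ℝ) + 1) ≤ Real.log ((M : ℝ) + n + 4) :=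
    Real.log_le_log (by positivity) (hb (n + 1) le_rfl)
  have h7 := log_sub (show 0 < κ / 12 by positivity) hpos
  have h8 : LP a (n + 1) = LP a n + Real.log ((a n : ℝ) * (a n + 1)) := by
    unfold LP; rw [Finset.sum_range_succ]
  have h9 : 0 ≤ Real.log ((M : ℝ) + n + 4) := Real.log_nonneg (by
    linarith [(Nat.cast_nonneg n : (0 : ℝ) ≤ n)])
  rw [h8]
  have h10 : s * (LP a n + Real.log ((a n : ℝ) * (a n + 1)) + Real.log ((a (n + 1) : ℝ) + 1)) ≤
      s * LP a n + 3 * Real.log ((M : ℝ) + n + 4) := by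
    have h11 : s * (Real.log ((a n : ℝ) * (a n + 1)) + Real.log ((a (n + 1) : ℝ) + 1)) ≤
        1 * (3 * Real.log ((M : ℝ) + n + 4)) := by
      apply mul_le_mul hs1.le (by linarith) _ (by norm_num)
      apply add_nonneg
      · apply Real.log_nonneg
        nlinarith
      · apply Real.log_nonneg
        linarith [(Nat.cast_nonneg (a (n + 1)) : (0 : ℝ) ≤ a (n + 1))]
    linarith
  have h12 : (n : ℝ) * Real.log (((M : ℝ) + 1) / M) ≤ n * (κ / 4) :=
    mul_le_mul_of_nonneg_left h4 (Nat.cast_nonneg n)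
  have h13 : (1 - s) * (n * Real.log 2) ≤ (1 - s) * LP a n :=
    mul_le_mul_of_nonneg_left h3 (by linarith)
  have h14 : (1 - s) * (n * Real.log 2) = n * κ := by rw [hκ]; ring
  nlinarith

/-! ### The dimension of the asymptotic sets -/

lemma SS_succ_le (n : ℕ) : SS (n + 1) ≤ SS n + n := by
  classical
  unfold SS
  rw [Finset.sum_range_succ]
  split_ifs
  · exact le_rfl
  · linarith [(Nat.cast_nonneg n : (0 : ℝ) ≤ n)]

lemma RR_le_self (n : ℕ) : RR n ≤ n := by
  classical
  unfold RR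
  calc _ ≤ ∑ _j ∈ Finset.range n, (1 : ℝ) := by
        apply Finset.sum_le_sum
        intro j _
        split_ifs <;> norm_num
    _ = n := by simp

lemma seqX_nonsq {M : ℕ} {a : ℕ → ℕ} (ha : a ∈ Seqs loX (hiX M)) {n : ℕ} (hn : ¬ IsSquare n) :
    a n ≤ M := by
  have := (ha n).2
  unfold hiX at this
  rw [if_neg hn] at this
  omega

lemma Y_cond {s : ℝ} (hs0 : 0 < s) (hs1 : s < 1 / 2) {M : ℕ} (hM : 1 ≤ M) {a : ℕ → ℕ}
    (ha : a ∈ Seqs loX (hiX M)) : ∃ K : ℝ, ∀ b ∈ Seqs (loY a) (hiY a), ∀ n,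
      s * (LP b (n + 1) + Real.log ((b (n + 1) : ℝ) + 1)) ≤ LQ qY b n + K := by
  classical
  have hadm := Seqs_adm (dsX hM) ha
  have hl2 : 0 < Real.log 2 := Real.log_pos (by norm_num)
  have hM0 : (1 : ℝ) ≤ M := by exact_mod_cast hM
  set B : ℝ := M * (M + 1) with hB
  have hB1 : 1 ≤ B := by rw [hB]; nlinarith
  have hlB : 0 ≤ Real.log B := Real.log_nonneg hB1
  have hκ : 0 < (1 - 2 * s) * Real.log 2 := mul_pos (by linarith) hl2
  obtain ⟨C, hC⟩ := SS_superlinear
    (show 0 ≤ s * (Real.log B + 5 * Real.log 2) / ((1 - 2 * s) * Real.log 2) by positivity)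
  refine ⟨C * ((1 - 2 * s) * Real.log 2) + s * (2 * Real.log B + 5 * Real.log 2),
    fun b hb n => ?_⟩
  have hbadm := Seqs_adm (dsY hadm) hb
  -- `LQ`
  have hLQ : LQ qY b n = SS n * Real.log 2 := by
    unfold LQ SS
    rw [Finset.sum_mul]
    apply Finset.sum_congr rfl
    intro j _
    unfold qY
    split_ifs
    · rw [Real.log_pow, one_div, Real.log_inv]
      ring
    · simp
  -- `LP`
  have hterm : ∀ j, Real.log ((b j : ℝ) * (b j + 1)) ≤
      Real.log B + (if IsSquare j then (j : ℝ) else 0) * (2 * Real.log 2) +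
        (if IsSquare j then (1 : ℝ) else 0) * (2 * Real.log 2) := by
    intro j
    have hbj : (1 : ℝ) ≤ b j := by exact_mod_cast hbadm j
    have h2 := hb j
    unfold loY hiY at h2
    split_ifs at h2 ⊢ with h
    · have h3 : (b j : ℝ) + 1 ≤ 2 ^ (j + 1) := by exact_mod_cast h2.2
      have h4 : Real.log ((b j : ℝ) * (b j + 1)) ≤ 2 * ((j + 1) * Real.log 2) := by
        have h5 : ((j : ℝ) + 1) * Real.log 2 = Real.log (2 ^ (j + 1)) := by
          rw [Real.log_pow]; push_cast; ring
        rw [h5, ← Real.log_rpow (by positivity), Real.rpow_two]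
        apply Real.log_le_log (by positivity)
        nlinarith
      linarith
    · have h3 : b j = a j := by omega
      have h4 := seqX_nonsq ha h
      have h5 : (b j : ℝ) ≤ M := by rw [h3]; exact_mod_cast h4
      have h6 : Real.log ((b j : ℝ) * (b j + 1)) ≤ Real.log B := by
        apply Real.log_le_log (by positivity)
        rw [hB]
        nlinarith
      linarith
  have hLP : LP b (n + 1) ≤ (n + 1) * Real.log B + SS (n + 1) * (2 * Real.log 2) +
      RR (n + 1) * (2 * Real.log 2) := by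
    unfold LP SS RR
    rw [Finset.sum_mul, Finset.sum_mul]
    have e1 : ((n : ℝ) + 1) * Real.log B = ∑ _j ∈ Finset.range (n + 1), Real.log B := by
      simp
    rw [e1, ← Finset.sum_add_distrib, ← Finset.sum_add_distrib]
    exact Finset.sum_le_sum fun j _ => hterm j
  have hlast : Real.log ((b (n + 1) : ℝ) + 1) ≤ Real.log B + Real.log 2 + (n + 2) * Real.log 2 := by
    have h2 := hb (n + 1)
    unfold loY hiY at h2
    have h5 : ((n : ℝ) + 2) * Real.log 2 = Real.log (2 ^ (n + 2)) := by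
      rw [Real.log_pow]; push_cast; ring
    split_ifs at h2 with h
    · have h3 : (b (n + 1) : ℝ) + 1 ≤ 2 ^ (n + 2) := by exact_mod_cast h2.2
      rw [h5]
      have := Real.log_le_log (by positivity) h3
      linarith
    · have h3 : b (n + 1) = a (n + 1) := by omega
      have h4 := seqX_nonsq ha h
      have h6 : (b (n + 1) : ℝ) ≤ M := by rw [h3]; exact_mod_cast h4
      have h7 : Real.log ((b (n + 1) : ℝ) + 1) ≤ Real.log B + Real.log 2 := by
        rw [← Real.log_mul (by positivity) (by norm_num)]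
        apply Real.log_le_log (by positivity)
        rw [hB]
        nlinarith
      have h8 : 0 ≤ ((n : ℝ) + 2) * Real.log 2 := by positivity
      linarith
  have h1 := SS_succ_le n
  have h2 := RR_le_self (n + 1)
  push_cast at h2
  have h3 := hC n
  have h4 : s * (Real.log B + 5 * Real.log 2) * n ≤
      (SS n + C) * ((1 - 2 * s) * Real.log 2) := by
    have h5 := mul_le_mul_of_nonneg_right h3 hκ.le
    have h6 : s * (Real.log B + 5 * Real.log 2) / ((1 - 2 * s) * Real.log 2) * n *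
        ((1 - 2 * s) * Real.log 2) = s * (Real.log B + 5 * Real.log 2) * n := by
      rw [div_mul_eq_mul_div, div_mul_cancel₀ _ hκ.ne']
    linarith
  have h7 : LP b (n + 1) + Real.log ((b (n + 1) : ℝ) + 1) ≤
      2 * Real.log 2 * SS n + (n + 2) * Real.log B + (5 * n + 5) * Real.log 2 := by
    have h8 := mul_le_mul_of_nonneg_right h1 (show 0 ≤ 2 * Real.log 2 by positivity)
    have h9 := mul_le_mul_of_nonneg_right h2 (show 0 ≤ 2 * Real.log 2 by positivity)
    linarith
  have h10 := mul_le_mul_of_nonneg_left h7 hs0.le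
  rw [hLQ]
  nlinarith

/-! ### Asymptotic pairs -/

lemma exists_next (n : ℕ) : ∃ j, n ≤ j ∧ IsSquare j ∧ ∀ i, n ≤ i → i < j → ¬ IsSquare i := by
  classical
  have hex : ∃ j, n ≤ j ∧ IsSquare j := ⟨n * n, Nat.le_mul_self n, n, rfl⟩
  refine ⟨Nat.find hex, (Nat.find_spec hex).1, (Nat.find_spec hex).2, fun i hi hlt hsq => ?_⟩
  exact Nat.find_min hex hlt ⟨hi, hsq⟩

lemma seqX_inf {M : ℕ} {a : ℕ → ℕ} (ha : a ∈ Seqs loX (hiX M)) : Inf2 a := by
  intro n
  obtain ⟨j, h1, h2, -⟩ := exists_next n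
  refine ⟨j, h1, ?_⟩
  have := (ha j).1
  unfold loX at this
  rw [if_pos h2] at this
  omega

lemma seqY_inf {a b : ℕ → ℕ} (hb : b ∈ Seqs (loY a) (hiY a)) : Inf2 b := by
  intro n
  obtain ⟨j, h1, h2, -⟩ := exists_next (n + 1)
  refine ⟨j, by omega, ?_⟩
  have := (hb j).1
  unfold loY at this
  rw [if_pos h2] at this
  have h3 : 2 ^ 1 ≤ 2 ^ j := Nat.pow_le_pow_right (by norm_num) (by omega)
  omega

lemma XX_close {M : ℕ} (hM : 1 ≤ M) {a b : ℕ → ℕ} (ha : a ∈ Seqs loX (hiX M))
    (hb : b ∈ Seqs (loY a) (hiY a)) (n : ℕ) :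
    |XX (shift a n) - XX (shift b n)| ≤ 1 / ((n : ℝ) + 1) := by
  have hadm := Seqs_adm (dsX hM) ha
  have hbadm := Seqs_adm (dsY hadm) hb
  obtain ⟨j, h1, h2, h3⟩ := exists_next n
  obtain ⟨r, rfl⟩ := Nat.exists_eq_add_of_le h1
  have hagree : ∀ i < r, shift a n i = shift b n i := by
    intro i hi
    have h4 := h3 (n + i) (Nat.le_add_right _ _) (by omega)
    have h5 := hb (n + i)
    unfold loY hiY at h5
    rw [if_neg h4, if_neg h4] at h5
    simp only [shift]
    omega
  rw [XX_sub_of_agree r _ _ (hadm.shift n) (hbadm.shift n) hagree, shift_shift, shift_shift,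
    abs_mul, abs_of_pos (PP_pos (hadm.shift n) r)]
  have h6 : PP (shift a n) r ≤ 1 := (PP_le (hadm.shift n) r).trans
    (pow_le_one₀ (by norm_num) (by norm_num))
  have hn0 : (0 : ℝ) < (n : ℝ) + 1 := by positivity
  have h7 : XX (shift a (n + r)) ≤ 1 / ((n : ℝ) + 1) := by
    have h8 := (XX_mem_branch (hadm.shift (n + r))).2
    have h9 := (ha (n + r)).1
    unfold loX at h9
    rw [if_pos h2] at h9
    have e : shift a (n + r) 0 = a (n + r) := by simp [shift]
    rw [e] at h8
    apply h8.trans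
    apply one_div_le_one_div_of_le hn0
    have : n + 1 ≤ a (n + r) := by omega
    exact_mod_cast this
  have h7' : XX (shift b (n + r)) ≤ 1 / ((n : ℝ) + 1) := by
    have h8 := (XX_mem_branch (hbadm.shift (n + r))).2
    have h9 := (hb (n + r)).1
    unfold loY at h9
    rw [if_pos h2] at h9
    have e : shift b (n + r) 0 = b (n + r) := by simp [shift]
    rw [e] at h8
    apply h8.trans
    apply one_div_le_one_div_of_le hn0
    have h10 : n + r + 1 ≤ 2 ^ (n + r) := Nat.lt_two_pow_self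
    have : n + 1 ≤ b (n + r) := by omega
    exact_mod_cast this
  have p1 := XX_pos (hadm.shift (n + r))
  have p2 := XX_pos (hbadm.shift (n + r))
  have h8 : |XX (shift a (n + r)) - XX (shift b (n + r))| ≤ 1 / ((n : ℝ) + 1) := by
    rw [abs_le]
    constructor <;> linarith
  calc PP (shift a n) r * |XX (shift a (n + r)) - XX (shift b (n + r))| ≤
        1 * |XX (shift a (n + r)) - XX (shift b (n + r))| :=
        mul_le_mul_of_nonneg_right h6 (abs_nonneg _)
    _ ≤ _ := by rw [one_mul]; exact h8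

variable {T : ℝ → ℝ}

lemma XX_mem_ASeq (hT : IsLur T) {M : ℕ} (hM : 1 ≤ M) {a b : ℕ → ℕ}
    (ha : a ∈ Seqs loX (hiX M)) (hb : b ∈ Seqs (loY a) (hiY a)) :
    XX b ∈ ASeq T (fun n => T^[n] (XX a)) := by
  have hadm := Seqs_adm (dsX hM) ha
  have hbadm := Seqs_adm (dsY hadm) hb
  refine ⟨⟨(XX_pos hbadm).le, XX_le_one hbadm⟩, ?_⟩
  have h1 : (fun n => |T^[n] (XX a) - T^[n] (XX b)|) =
      fun n => |XX (shift a n) - XX (shift b n)| := by
    ext n
    rw [T_iter_XX hT hadm (seqX_inf ha), T_iter_XX hT hbadm (seqY_inf hb)]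
  rw [h1]
  apply squeeze_zero (fun n => abs_nonneg _) (XX_close hM ha hb)
  exact tendsto_one_div_add_atTop_nhds_zero_nat

/-- The asymptotic set of the points `x` has dimension one half. -/
lemma dimH_ASeq_eq (hT : IsLur T) {M : ℕ} (hM : 1 ≤ M) {a : ℕ → ℕ} (ha : a ∈ Seqs loX (hiX M)) :
    dimH (ASeq T (fun n => T^[n] (XX a))) = ENNReal.ofReal (1 / 2) := by
  apply le_antisymm (dimH_ASeq_le hT _)
  have hadm := Seqs_adm (dsX hM) ha
  have key : ∀ s : ℝ, 0 < s → s < 1 / 2 →
      ENNReal.ofReal s ≤ dimH (ASeq T (fun n => T^[n] (XX a))) := by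
    intro s hs0 hs1
    obtain ⟨K, hK⟩ := Y_cond hs0 hs1 hM ha
    apply (dimH_ge_log (dsY hadm) hs0 hK).trans
    apply dimH_mono
    rintro _ ⟨b, hb, rfl⟩
    exact XX_mem_ASeq hT hM ha hb
  have hlim : Tendsto (fun s : ℝ => ENNReal.ofReal s) (𝓝[<] (1 / 2)) (𝓝 (ENNReal.ofReal (1 / 2))) :=
    (ENNReal.continuous_ofReal.tendsto _).mono_left nhdsWithin_le_nhds
  apply le_of_tendsto hlim
  filter_upwards [Ioo_mem_nhdsLT (show (0 : ℝ) < 1 / 2 by norm_num)] with s hs
  exact key s hs.1 hs.2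

/-- **The level set at one half has dimension one.** -/
theorem dimH_level (hT : IsLur T) :
    dimH {x : ℝ | x ∈ Icc (0 : ℝ) 1 ∧
      dimH (ASeq T (fun n => T^[n] x)) = ENNReal.ofReal (1 / 2)} = 1 := by
  apply le_antisymm
  · calc dimH {x : ℝ | x ∈ Icc (0 : ℝ) 1 ∧
        dimH (ASeq T (fun n => T^[n] x)) = ENNReal.ofReal (1 / 2)} ≤ dimH (univ : Set ℝ) :=
          dimH_mono (subset_univ _)
      _ = 1 := Real.dimH_univ
  · have key : ∀ s : ℝ, 0 < s → s < 1 → ENNReal.ofReal s ≤ dimH {x : ℝ | x ∈ Icc (0 : ℝ) 1 ∧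
        dimH (ASeq T (fun n => T^[n] x)) = ENNReal.ofReal (1 / 2)} := by
      intro s hs0 hs1
      obtain ⟨M, hM, K, hK⟩ := X_cond hs0 hs1
      apply (dimH_ge_log (dsX hM) hs0 hK).trans
      apply dimH_mono
      rintro _ ⟨a, ha, rfl⟩
      have hadm := Seqs_adm (dsX hM) ha
      exact ⟨⟨(XX_pos hadm).le, XX_le_one hadm⟩, dimH_ASeq_eq hT hM ha⟩
    have hlim : Tendsto (fun s : ℝ => ENNReal.ofReal s) (𝓝[<] 1) (𝓝 (ENNReal.ofReal 1)) :=
      (ENNReal.continuous_ofReal.tendsto _).mono_left nhdsWithin_le_nhds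
    rw [ENNReal.ofReal_one] at hlim
    apply le_of_tendsto hlim
    filter_upwards [Ioo_mem_nhdsLT (show (0 : ℝ) < 1 by norm_num)] with s hs
    exact key s hs.1 hs.2

end Q76.Lur
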