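import Mathlib
import Pool.Agent.Q76.LurLevel

/-!
# Asymptotic sets with geometrically spaced free digits: upper bound
-/

namespace Q76.Lur

open MeasureTheory Set Filter Topology Metric
open scoped ENNReal NNReal

variable {T : ℝ → ℝ} {s : ℝ}

/-- Content of the points that follow the sequence `u` from time `n` on. -/
noncomputable def VV (T : ℝ → ℝ) (s : ℝ) (hs0 : 0 < s) (ε : ℝ) (u : ℕ → ℝ) (n : ℕ) : ℝ≥0∞ :=
  content s hs0 (FF T ε (fun i => u (n + i)) 0)

lemma VV_le_one (hs0 : 0 < s) (ε : ℝ) (u : ℕ → ℝ) (n : ℕ) : VV T s hs0 ε u n ≤ 1 :=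
  content_FF_le_one hs0 ε _ 0

lemma FF_shift_eq (ε : ℝ) (u : ℕ → ℝ) (n : ℕ) :
    FF T ε (fun i => (fun j => u (n + j)) (i + 1)) 0 = FF T ε (fun i => u (n + 1 + i)) 0 := by
  congr 1
  ext i
  simp only
  congr 1
  omega

/-- A step at which the digit is forced. -/
lemma VV_forced (hT : IsLur T) (hs0 : 0 < s) {ε : ℝ} (hε : 0 < ε) (hε2 : ε ≤ 1 / 100) {a : ℕ → ℕ}
    (ha : ∀ j, 2 ≤ a j) {n : ℕ} (hn : a n = 2) :
    VV T s hs0 ε (fun i => XX (shift a i)) n ≤
      ENNReal.ofReal ((1 / 6) ^ s) * VV T s hs0 ε (fun i => XX (shift a i)) (n + 1) := by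
  have hadm : Adm a := fun j => by have := ha j; omega
  unfold VV
  rw [← FF_shift_eq ε (fun i => XX (shift a i)) n]
  set u : ℕ → ℝ := fun i => XX (shift a i) with hu
  set D := FF T ε (fun i => u (n + i)) 0 with hD
  set D' := FF T ε (fun i => (fun j => u (n + j)) (i + 1)) 0 with hD'
  have e0 : shift a n 0 = 2 := by simp [shift, hn]
  have h1 : u n = phi 2 (u (n + 1)) := by
    simp only [hu]
    rw [XX_eq (hadm.shift n), e0, shift_shift]
  have h2 : 0 < u (n + 1) := XX_pos (hadm.shift (n + 1))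
  have h3 : u (n + 1) ≤ 1 / 2 := by
    have h4 := (XX_mem_branch (hadm.shift (n + 1))).2
    apply h4.trans
    apply one_div_le_one_div_of_le (by norm_num)
    have h5 := ha (n + 1 + 0)
    have e : shift a (n + 1) 0 = a (n + 1 + 0) := rfl
    rw [e]
    exact_mod_cast h5
  have hsub : D ⊆ EP ∪ phi 2 '' D' := by
    intro z hz
    by_cases hzE : z ∈ EP
    · exact Or.inl hzE
    · right
      obtain ⟨m, hm, hzm⟩ := exists_digit hz.1 hzE
      have a0 := hz.2 0 (le_refl 0)
      have a1 := hz.2 1 (Nat.zero_le _)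
      simp only [Function.iterate_zero, id_eq, Function.iterate_one, add_zero] at a0 a1
      rw [abs_lt] at a0 a1
      rw [h1] at a0
      unfold phi at a0
      push_cast at a0
      have hm0 : (0 : ℝ) < m := by exact_mod_cast hm
      have hm2 : m = 2 := by
        have b1 : z < 1 / 2 := by linarith [a0.1]
        have b2 : 1 / 3 - ε < z := by linarith [a0.2]
        have c1 : 2 ≤ m := by
          by_contra hcon
          have : m = 1 := by omega
          rw [this] at hzm
          have := hzm.1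
          norm_num at this
          linarith
        have c2 : m < 4 := by
          by_contra hcon
          push Not at hcon
          have h4 : (4 : ℝ) ≤ m := by exact_mod_cast hcon
          have h5 := one_div_le_one_div_of_le (by norm_num) h4
          have := hzm.2
          linarith
        by_contra hcon
        have : m = 3 := by omega
        have hT3 := hT m hm z hzm
        rw [this] at hT3
        push_cast at hT3
        rw [hT3] at a1
        linarith [a1.1, a1.2]
      rw [hm2] at hzm hm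
      exact FF_step0 hT hm hzm hz
  calc content s hs0 D ≤ content s hs0 (EP ∪ phi 2 '' D') := measure_mono hsub
    _ ≤ content s hs0 EP + content s hs0 (phi 2 '' D') := measure_union_le _ _
    _ ≤ 0 + wt s 2 * content s hs0 D' := by
        gcongr
        · exact (content_countable hs0 EP_countable).le
        · exact content_phi hs0 (by norm_num) D'
    _ = ENNReal.ofReal ((1 / 6) ^ s) * content s hs0 D' := by
        rw [zero_add, wt_eq hs0]
        norm_num

/-- A free step. -/
lemma VV_free (hT : IsLur T) (hs0 : 0 < s) {ε : ℝ} (u : ℕ → ℝ) (n : ℕ) {B : ℕ} (hB : 1 ≤ B) :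
    VV T s hs0 ε u n ≤ (∑ m ∈ Finset.range B, wt s m) * VV T s hs0 ε u (n + 1) +
      ENNReal.ofReal ((1 / B) ^ s) := by
  unfold VV
  rw [← FF_shift_eq]
  set D := FF T ε (fun i => u (n + i)) 0 with hD
  set D' := FF T ε (fun i => (fun j => u (n + j)) (i + 1)) 0 with hD'
  have hB0 : (0 : ℝ) < B := by exact_mod_cast hB
  have hsub : D ⊆ EP ∪ ((⋃ m ∈ Finset.range B, phi m '' D') ∪ Icc 0 (1 / (B : ℝ))) := by
    intro z hz
    by_cases hzE : z ∈ EP
    · exact Or.inl hzE
    · right
      obtain ⟨m, hm, hzm⟩ := exists_digit hz.1 hzE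
      rcases lt_or_ge m B with h | h
      · left
        rw [mem_iUnion₂]
        exact ⟨m, Finset.mem_range.mpr h, FF_step0 hT hm hzm hz⟩
      · right
        refine ⟨hz.1.1, hzm.2.le.trans ?_⟩
        apply one_div_le_one_div_of_le hB0
        exact_mod_cast h
  have hphi : ∀ m, content s hs0 (phi m '' D') ≤ wt s m * content s hs0 D' := by
    intro m
    rcases Nat.eq_zero_or_pos m with h | h
    · rw [h]
      have h1 : phi 0 '' D' ⊆ {0} := by
        rintro _ ⟨x, _, rfl⟩
        simp [phi]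
      calc content s hs0 (phi 0 '' D') ≤ content s hs0 {0} := measure_mono h1
        _ = 0 := content_countable hs0 (countable_singleton _)
        _ ≤ _ := zero_le
    · exact content_phi hs0 h D'
  calc content s hs0 D ≤
        content s hs0 (EP ∪ ((⋃ m ∈ Finset.range B, phi m '' D') ∪ Icc 0 (1 / (B : ℝ)))) :=
        measure_mono hsub
    _ ≤ content s hs0 EP +
        (content s hs0 (⋃ m ∈ Finset.range B, phi m '' D') + content s hs0 (Icc 0 (1 / (B : ℝ)))) :=
        (measure_union_le _ _).trans (by gcongr; exact measure_union_le _ _)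
    _ ≤ 0 + ((∑ m ∈ Finset.range B, wt s m * content s hs0 D') + ENNReal.ofReal ((1 / B) ^ s)) := by
        gcongr
        · exact (content_countable hs0 EP_countable).le
        · apply (measure_biUnion_finset_le _ _).trans
          exact Finset.sum_le_sum fun m _ => hphi m
        · apply (content_le hs0 _).trans
          rw [Real.ediam_Icc, sub_zero, ENNReal.ofReal_rpow_of_nonneg (by positivity) hs0.le]
    _ = _ := by rw [zero_add, Finset.sum_mul]

/-- Sum of the weights. -/
lemma wt_sum_le (hs0 : 0 < s) (hs1 : s < 1 / 2) {B : ℕ} (hB : 1 ≤ B) :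
    ∑ m ∈ Finset.range B, wt s m ≤ ENNReal.ofReal ((B : ℝ) ^ (1 - 2 * s) / (1 - 2 * s)) := by
  have hθ : 0 < 1 - 2 * s := by linarith
  have h0 : wt s 0 = 0 := by
    rw [wt_eq hs0]
    simp [hs0.ne']
  have key : ∀ B : ℕ, 1 ≤ B → ∑ m ∈ Finset.range B, (1 / ((m : ℝ) * (m + 1))) ^ s ≤
      ((B : ℝ) - 1) ^ (1 - 2 * s) / (1 - 2 * s) := by
    intro B hB
    induction B, hB using Nat.le_induction with
    | base =>
      simp only [Finset.range_one, Finset.sum_singleton, Nat.cast_zero, zero_mul, div_zero]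
      rw [Real.zero_rpow hs0.ne']
      norm_num
      rw [Real.zero_rpow hθ.ne']
      simp
    | succ B hB ih =>
      rw [Finset.sum_range_succ]
      have hB0 : (1 : ℝ) ≤ B := by exact_mod_cast hB
      push_cast
      rw [add_sub_cancel_right]
      have h1 : (1 / ((B : ℝ) * (B + 1))) ^ s ≤ (B : ℝ) ^ (-2 * s) := by
        have h2 : (B : ℝ) ^ (-2 * s) = (1 / (B : ℝ) ^ (2 : ℝ)) ^ s := by
          rw [Real.rpow_mul (by positivity), Real.rpow_neg (by positivity), one_div]
        rw [h2]
        apply Real.rpow_le_rpow (by positivity) _ hs0.le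
        apply one_div_le_one_div_of_le (by positivity)
        rw [Real.rpow_two]
        nlinarith
      -- Bernoulli
      have h3 : ((B : ℝ) - 1) ^ (1 - 2 * s) ≤
          (B : ℝ) ^ (1 - 2 * s) - (1 - 2 * s) * (B : ℝ) ^ (-2 * s) := by
        have h4 := rpow_one_add_le_one_add_mul_self (s := -1 / (B : ℝ)) (p := 1 - 2 * s)
          (by rw [le_div_iff₀ (by positivity)]; linarith) hθ.le (by linarith)
        have h5 : (B : ℝ) - 1 = B * (1 + -1 / B) := by field_simp; ring
        have h6 : (0 : ℝ) ≤ 1 + -1 / B := by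
          have : (1 : ℝ) / B ≤ 1 := by rw [div_le_one (by positivity)]; exact hB0
          have h7 : -1 / (B : ℝ) = -(1 / B) := by ring
          rw [h7]
          linarith
        rw [h5, Real.mul_rpow (by positivity) h6]
        have h8 := mul_le_mul_of_nonneg_left h4 (show 0 ≤ (B : ℝ) ^ (1 - 2 * s) by positivity)
        have h9 : (B : ℝ) ^ (-2 * s) = (B : ℝ) ^ (1 - 2 * s) * (1 / B) := by
          rw [show -2 * s = (1 - 2 * s) - 1 by ring, Real.rpow_sub (by positivity), Real.rpow_one]
          ring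
        rw [h9]
        calc (B : ℝ) ^ (1 - 2 * s) * (1 + -1 / B) ^ (1 - 2 * s) ≤
              (B : ℝ) ^ (1 - 2 * s) * (1 + (1 - 2 * s) * (-1 / B)) := h8
          _ = _ := by ring
      have h10 : ((B : ℝ) - 1) ^ (1 - 2 * s) / (1 - 2 * s) + (B : ℝ) ^ (-2 * s) ≤
          (B : ℝ) ^ (1 - 2 * s) / (1 - 2 * s) := by
        rw [div_add' _ _ _ hθ.ne', div_le_div_iff_of_pos_right hθ]
        linarith
      linarith
  simp_rw [wt_eq hs0]
  rw [← ENNReal.ofReal_sum_of_nonneg (fun m _ => by positivity)]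
  apply ENNReal.ofReal_le_ofReal
  apply (key B hB).trans
  have hB0 : (1 : ℝ) ≤ B := by exact_mod_cast hB
  apply div_le_div_of_nonneg_right _ hθ.le
  exact Real.rpow_le_rpow (by linarith) (by linarith) hθ.le

/-- Optimisation of the number of branches. -/
lemma optimise (hs0 : 0 < s) (hs1 : s < 1 / 2) {v lam C : ℝ} (hlam : 0 ≤ lam) (hlam1 : lam ≤ 1)
    (hC : 0 ≤ C) (h : ∀ B : ℕ, 1 ≤ B → v ≤ C * (B : ℝ) ^ (1 - 2 * s) * lam + (1 / (B : ℝ)) ^ s) :
    v ≤ (2 * C + 1) * lam ^ (s / (1 - s)) := by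
  have h1s : 0 < 1 - s := by linarith
  rcases hlam.eq_or_lt with h0 | h0
  · rw [← h0, Real.zero_rpow (by positivity), mul_zero]
    have hlim : Tendsto (fun n : ℕ => (1 / ((n : ℝ) + 1)) ^ s) atTop (𝓝 (0 ^ s)) :=
      tendsto_one_div_add_atTop_nhds_zero_nat.rpow_const (Or.inr hs0.le)
    rw [Real.zero_rpow hs0.ne'] at hlim
    apply ge_of_tendsto hlim
    filter_upwards with n
    have := h (n + 1) (by omega)
    rw [← h0, mul_zero, zero_add] at this
    push_cast at this
    exact this
  · set Bs : ℝ := lam ^ (-(1 / (1 - s))) with hBs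
    have hBs1 : 1 ≤ Bs := by
      rw [hBs, Real.rpow_neg hlam, ← Real.inv_rpow hlam]
      apply Real.one_le_rpow _ (by positivity)
      exact (one_le_inv₀ h0).mpr hlam1
    have hBpos : 0 < Bs := by linarith
    set B := ⌈Bs⌉₊ with hB
    have hB1 : Bs ≤ B := Nat.le_ceil _
    have hB2 : (B : ℝ) ≤ 2 * Bs := by
      have := (Nat.ceil_lt_add_one (show 0 ≤ Bs by linarith)).le
      linarith
    have hBn : 1 ≤ B := by
      have : (1 : ℝ) ≤ B := hBs1.trans hB1
      exact_mod_cast this
    apply (h B hBn).trans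
    have e1 : Bs ^ (1 - 2 * s) * lam = lam ^ (s / (1 - s)) := by
      rw [hBs, ← Real.rpow_mul hlam]
      nth_rewrite 2 [← Real.rpow_one lam]
      rw [← Real.rpow_add h0]
      congr 1
      field_simp
      ring
    have e2 : (1 / Bs) ^ s = lam ^ (s / (1 - s)) := by
      rw [hBs, one_div, ← Real.rpow_neg hlam, neg_neg, ← Real.rpow_mul hlam]
      congr 1
      ring
    have b1 : (B : ℝ) ^ (1 - 2 * s) ≤ 2 * Bs ^ (1 - 2 * s) := by
      calc (B : ℝ) ^ (1 - 2 * s) ≤ (2 * Bs) ^ (1 - 2 * s) :=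
            Real.rpow_le_rpow (by positivity) hB2 (by linarith)
        _ = 2 ^ (1 - 2 * s) * Bs ^ (1 - 2 * s) := Real.mul_rpow (by norm_num) hBpos.le
        _ ≤ 2 ^ (1 : ℝ) * Bs ^ (1 - 2 * s) := by
            apply mul_le_mul_of_nonneg_right _ (by positivity)
            exact Real.rpow_le_rpow_of_exponent_le (by norm_num) (by linarith)
        _ = _ := by rw [Real.rpow_one]
    have b2 : (1 / (B : ℝ)) ^ s ≤ (1 / Bs) ^ s := by
      apply Real.rpow_le_rpow (by positivity) _ hs0.le
      exact one_div_le_one_div_of_le hBpos hB1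
    calc C * (B : ℝ) ^ (1 - 2 * s) * lam + (1 / (B : ℝ)) ^ s ≤
          C * (2 * Bs ^ (1 - 2 * s)) * lam + (1 / Bs) ^ s := by gcongr
      _ = 2 * C * (Bs ^ (1 - 2 * s) * lam) + (1 / Bs) ^ s := by ring
      _ = (2 * C + 1) * lam ^ (s / (1 - s)) := by rw [e1, e2]; ring

/-- The iteration. -/
lemma iterate_zero {v g : ℕ → ℝ} {C κ β γ ρ : ℝ} (hv0 : ∀ k, 0 ≤ v k) (hv1 : ∀ k, v k ≤ 1)
    (hC : 1 ≤ C) (hκ : 0 < κ) (hβ0 : 0 < β) (hβ1 : β < 1) (hγ : 0 < γ) (hρ : 0 < ρ)
    (hβρ : 1 < β * ρ) (hg : ∀ k, γ * ρ ^ k ≤ g k)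
    (h : ∀ k, v k ≤ C * (Real.exp (-(κ * g k)) * v (k + 1)) ^ β) (k : ℕ) : v k = 0 := by
  by_contra hne
  have hpos : 0 < v k := lt_of_le_of_ne (hv0 k) (Ne.symm hne)
  have hall : ∀ j, 0 < v (k + j) := by
    intro j
    induction j with
    | zero => exact hpos
    | succ j ih =>
      rcases (hv0 (k + (j + 1))).eq_or_lt with h0 | h0
      · exfalso
        have := h (k + j)
        rw [show k + j + 1 = k + (j + 1) by ring, ← h0, mul_zero, Real.zero_rpow hβ0.ne',
          mul_zero] at this
        linarith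
      · exact h0
  set c' := Real.log C with hc'
  have hc0 : 0 ≤ c' := Real.log_nonneg hC
  set w : ℕ → ℝ := fun j => -Real.log (v (k + j)) with hw
  have hw0 : ∀ j, 0 ≤ w j := fun j => by
    simp only [hw]
    have := Real.log_nonpos (hv0 (k + j)) (hv1 (k + j))
    linarith
  have hrec : ∀ j, β * (κ * g (k + j) + w (j + 1)) - c' ≤ w j := by
    intro j
    have h1 := h (k + j)
    rw [show k + j + 1 = k + (j + 1) by ring] at h1
    have h2 := Real.log_le_log (hall j) h1
    rw [Real.log_mul (by positivity) (Real.rpow_pos_of_pos (mul_pos (Real.exp_pos _)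
      (hall (j + 1))) _).ne', Real.log_rpow (mul_pos (Real.exp_pos _) (hall (j + 1))),
      Real.log_mul (Real.exp_pos _).ne' (hall (j + 1)).ne', Real.log_exp] at h2
    simp only [hw]
    linarith
  set c'' := c' / (1 - β) with hc''
  have h1β : 0 < 1 - β := by linarith
  have hc2 : c' = c'' * (1 - β) := by rw [hc'']; field_simp
  have hc2' : 0 ≤ c'' := by positivity
  have hg0 : ∀ j, 0 ≤ g j := fun j => le_trans (by positivity) (hg j)
  have hW : ∀ j, β ^ j * (w j + c'') ≤ w 0 + c'' := by
    intro j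
    induction j with
    | zero => simp
    | succ j ih =>
      have h1 := hrec j
      have h2 : β * (w (j + 1) + c'') ≤ w j + c'' := by
        have : 0 ≤ β * (κ * g (k + j)) := mul_nonneg hβ0.le (mul_nonneg hκ.le (hg0 _))
        nlinarith
      calc β ^ (j + 1) * (w (j + 1) + c'') = β ^ j * (β * (w (j + 1) + c'')) := by ring
        _ ≤ β ^ j * (w j + c'') := mul_le_mul_of_nonneg_left h2 (by positivity)
        _ ≤ _ := ih
  have hfin : ∀ j, (β * ρ) ^ j * (β * κ * γ * ρ ^ k) ≤ w 0 + c'' := by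
    intro j
    have h1 := hrec j
    have h2 : β * (κ * g (k + j)) ≤ w j + c'' := by
      have := mul_nonneg hβ0.le (hw0 (j + 1))
      nlinarith
    have h3 : β * (κ * (γ * ρ ^ (k + j))) ≤ β * (κ * g (k + j)) := by
      gcongr
      exact hg _
    have h4 := mul_le_mul_of_nonneg_left (h3.trans h2) (show 0 ≤ β ^ j by positivity)
    calc (β * ρ) ^ j * (β * κ * γ * ρ ^ k) = β ^ j * (β * (κ * (γ * ρ ^ (k + j)))) := by
          rw [mul_pow, pow_add]; ring
      _ ≤ _ := h4.trans (hW j)
  have hP : 0 < β * κ * γ * ρ ^ k := by positivity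
  obtain ⟨j, hj⟩ := pow_unbounded_of_one_lt ((w 0 + c'') / (β * κ * γ * ρ ^ k)) hβρ
  rw [div_lt_iff₀ hP] at hj
  linarith [hfin j]

/-- Content zero propagates to the preimages. -/
lemma content_FF_pre (hT : IsLur T) (hs0 : 0 < s) {ε : ℝ} :
    ∀ N : ℕ, ∀ u : ℕ → ℝ, VV T s hs0 ε u N = 0 → content s hs0 (FF T ε u N) = 0 := by
  intro N
  induction N with
  | zero =>
    intro u h
    unfold VV at h
    simpa using h
  | succ N ih =>
    intro u h
    have h0 : VV T s hs0 ε (fun n => u (n + 1)) N = 0 := by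
      unfold VV at h ⊢
      have : (fun i => u (N + 1 + i)) = fun i => (fun n => u (n + 1)) (N + i) := by
        ext i
        simp only
        congr 1
        omega
      rwa [this] at h
    have hsub : FF T ε u (N + 1) ⊆ EP ∪ ⋃ m : ℕ, phi (m + 1) '' FF T ε (fun n => u (n + 1)) N := by
      intro z hz
      by_cases hzE : z ∈ EP
      · exact Or.inl hzE
      · right
        obtain ⟨m, hm, hzm⟩ := exists_digit hz.1 hzE
        rw [mem_iUnion]
        refine ⟨m - 1, ?_⟩
        rw [Nat.sub_add_cancel hm]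
        exact FF_step hT hm hzm hz
    have h1 : ∀ m : ℕ, content s hs0 (phi (m + 1) '' FF T ε (fun n => u (n + 1)) N) = 0 := by
      intro m
      have := content_phi hs0 (show 1 ≤ m + 1 by omega) (FF T ε (fun n => u (n + 1)) N)
      rw [ih _ h0, mul_zero] at this
      exact le_antisymm this zero_le
    apply measure_mono_null hsub
    rw [measure_union_null_iff]
    exact ⟨content_countable hs0 EP_countable, measure_iUnion_null h1⟩

/-- Dimension of the asymptotic set from the vanishing of the contents. -/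
lemma dimH_ASeq_le_of_VV (hT : IsLur T) (hs0 : 0 < s) {ε : ℝ} (hε : 0 < ε) {u : ℕ → ℝ}
    (h : ∀ N, ∃ n ≥ N, VV T s hs0 ε u n = 0) : dimH (ASeq T u) ≤ ENNReal.ofReal s := by
  apply dimH_le_of_content hs0
  apply measure_mono_null (ASeq_subset hε)
  apply measure_iUnion_null
  intro N
  obtain ⟨n, hn, h0⟩ := h N
  apply measure_mono_null _ (content_FF_pre hT hs0 n u h0)
  intro z hz
  exact ⟨hz.1, fun i hi => hz.2 i (hn.trans hi)⟩

end Q76.Lur
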