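import Mathlib
import Pool.Agent.Q76.LurGeoUp

/-!
# Asymptotic sets with geometrically spaced free digits
-/

namespace Q76.Lur

open MeasureTheory Set Filter Topology Metric
open scoped ENNReal NNReal

/-! ### Positions -/

/-- The positions of the free digits. -/
noncomputable def nn (ρ : ℝ) (k : ℕ) : ℕ := ⌊ρ ^ k⌋₊ + 2 * k

variable {ρ : ℝ}

lemma nn_gap (hρ : 1 < ρ) (k : ℕ) : nn ρ k + 2 ≤ nn ρ (k + 1) := by
  unfold nn
  have h1 : ⌊ρ ^ k⌋₊ ≤ ⌊ρ ^ (k + 1)⌋₊ :=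
    Nat.floor_le_floor (pow_le_pow_right₀ hρ.le (Nat.le_succ k))
  omega

lemma nn_strictMono (hρ : 1 < ρ) : StrictMono (nn ρ) :=
  strictMono_nat_of_lt_succ fun k => by have := nn_gap hρ k; omega

lemma nn_big (hρ : 1 < ρ) (k : ℕ) :
    (ρ - 1) * ρ ^ k ≤ ((nn ρ (k + 1) - nn ρ k - 1 : ℕ) : ℝ) := by
  have hgap := nn_gap hρ k
  have h1 : ((nn ρ (k + 1) - nn ρ k - 1 : ℕ) : ℝ) = (nn ρ (k + 1) : ℝ) - nn ρ k - 1 := by
    rw [Nat.cast_sub (by omega), Nat.cast_sub (by omega)]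
    push_cast
    ring
  rw [h1]
  unfold nn
  push_cast
  have h2 := Nat.lt_floor_add_one (ρ ^ (k + 1))
  have h3 := Nat.floor_le (show 0 ≤ ρ ^ k by positivity)
  rw [pow_succ] at h2 ⊢
  nlinarith

lemma nn_succ_le (hρ : 1 < ρ) (k : ℕ) :
    (nn ρ (k + 1) : ℝ) ≤ ρ * nn ρ k + ρ + 2 * k + 2 := by
  unfold nn
  push_cast
  have h2 := Nat.floor_le (show 0 ≤ ρ ^ (k + 1) by positivity)
  have h3 := Nat.lt_floor_add_one (ρ ^ k)
  have h4 : ρ ^ (k + 1) ≤ ρ * (⌊ρ ^ k⌋₊ + 1) := by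
    rw [pow_succ, mul_comm]
    exact mul_le_mul_of_nonneg_left h3.le (by linarith)
  have h5 : 0 ≤ ρ * (2 * k) := by positivity
  nlinarith

lemma nn_superlinear (hρ : 1 < ρ) {D : ℝ} (hD : 0 < D) : ∃ C, ∀ k : ℕ, D * k ≤ nn ρ k + C := by
  have h1 := tendsto_pow_const_div_const_pow_of_one_lt 1 hρ
  have h2 : ∀ᶠ k : ℕ in atTop, (k : ℝ) ^ 1 / ρ ^ k < 1 / D := h1.eventually_lt_const (by positivity)
  obtain ⟨N, hN⟩ := eventually_atTop.mp h2
  refine ⟨D * N + 1, fun k => ?_⟩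
  have hnn : (0 : ℝ) ≤ nn ρ k := by positivity
  rcases le_or_gt N k with h | h
  · have h3 := hN k h
    rw [pow_one, div_lt_div_iff₀ (by positivity) hD, one_mul] at h3
    have h4 : ρ ^ k ≤ nn ρ k + 1 := by
      unfold nn
      push_cast
      have := Nat.lt_floor_add_one (ρ ^ k)
      have : (0 : ℝ) ≤ 2 * k := by positivity
      linarith
    have h5 : 0 ≤ D * N := by positivity
    linarith
  · have h3 : (k : ℝ) ≤ N := by exact_mod_cast h.le
    have := mul_le_mul_of_nonneg_left h3 hD.le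
    linarith

/-- The index of a position. -/
noncomputable def idx (ρ : ℝ) (j : ℕ) : ℕ := Function.invFun (nn ρ) j

lemma idx_nn (hρ : 1 < ρ) (k : ℕ) : idx ρ (nn ρ k) = k :=
  Function.leftInverse_invFun (nn_strictMono hρ).injective k

open Classical in
lemma sum_positions (hρ : 1 < ρ) (f : ℕ → ℝ) (k : ℕ) :
    ∑ j ∈ Finset.range (nn ρ k), (if j ∈ range (nn ρ) then f (idx ρ j) else 0) =
      ∑ i ∈ Finset.range k, f i := by
  have h1 : ∑ i ∈ Finset.range k, f i =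
      ∑ j ∈ (Finset.range k).image (nn ρ), (if j ∈ range (nn ρ) then f (idx ρ j) else 0) := by
    rw [Finset.sum_image fun x _ y _ h => (nn_strictMono hρ).injective h]
    apply Finset.sum_congr rfl
    intro i _
    rw [if_pos ⟨i, rfl⟩, idx_nn hρ]
  rw [h1]
  symm
  apply Finset.sum_subset
  · intro j hj
    rw [Finset.mem_image] at hj
    obtain ⟨i, hi, rfl⟩ := hj
    rw [Finset.mem_range] at hi ⊢
    exact nn_strictMono hρ hi
  · intro j hj hj2
    rw [if_neg]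
    rintro ⟨i, rfl⟩
    apply hj2
    rw [Finset.mem_image]
    refine ⟨i, ?_, rfl⟩
    rw [Finset.mem_range] at hj ⊢
    exact (nn_strictMono hρ).lt_iff_lt.mp hj

/-! ### Digits -/

open Classical in
/-- The digits of the point `x`. -/
noncomputable def aG (ρ : ℝ) (j : ℕ) : ℕ := if j ∈ range (nn ρ) then idx ρ j + 2 else 2

/-- The size of the free digits. -/
noncomputable def tt (ρ : ℝ) (K k : ℕ) : ℕ := K * (nn ρ (k + 1) - nn ρ k) + k

open Classical in
/-- Smallest digits of the points `y`. -/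
noncomputable def loG (ρ : ℝ) (K : ℕ) (j : ℕ) : ℕ :=
  if j ∈ range (nn ρ) then 2 ^ tt ρ K (idx ρ j) else 2

open Classical in
/-- Bounds for the digits of the points `y`. -/
noncomputable def hiG (ρ : ℝ) (K : ℕ) (j : ℕ) : ℕ :=
  if j ∈ range (nn ρ) then 2 ^ (tt ρ K (idx ρ j) + 1) else 3

open Classical in
/-- Probabilities of the digits of the points `y`. -/
noncomputable def qG (ρ : ℝ) (K : ℕ) (j _m : ℕ) : ℝ :=
  if j ∈ range (nn ρ) then (1 / 2) ^ tt ρ K (idx ρ j) else 1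

lemma dsG (ρ : ℝ) (K : ℕ) : DS (loG ρ K) (hiG ρ K) (qG ρ K) where
  pos := fun n => by
    unfold loG
    split_ifs
    · exact Nat.one_le_two_pow
    · norm_num
  lt := fun n => by
    unfold loG hiG
    split_ifs
    · exact Nat.pow_lt_pow_right (by norm_num) (Nat.lt_succ_self _)
    · norm_num
  qpos := fun n m _ _ => by
    unfold qG
    split_ifs <;> positivity
  sum := fun n => by
    unfold loG hiG qG
    split_ifs
    · rw [Finset.sum_const, Nat.card_Ico, nsmul_eq_mul, pow_succ, mul_two, Nat.add_sub_cancel]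
      push_cast
      rw [← mul_pow]
      norm_num
    · simp

lemma aG_ge (ρ : ℝ) (j : ℕ) : 2 ≤ aG ρ j := by
  unfold aG
  split_ifs <;> omega

lemma tt_ge (hρ : 1 < ρ) {K : ℕ} (hK : 1 ≤ K) (k : ℕ) : k + 1 ≤ tt ρ K k := by
  unfold tt
  have h1 := nn_gap hρ k
  have h2 : 1 * 2 ≤ K * (nn ρ (k + 1) - nn ρ k) := Nat.mul_le_mul hK (by omega)
  omega

lemma seqG_ge (hρ : 1 < ρ) {K : ℕ} (hK : 1 ≤ K) {b : ℕ → ℕ} (hb : b ∈ Seqs (loG ρ K) (hiG ρ K))
    (j : ℕ) : 2 ≤ b j := by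
  have h := (hb j).1
  unfold loG at h
  split_ifs at h
  · have h1 := tt_ge hρ hK (idx ρ j)
    have h2 : 2 ^ 1 ≤ 2 ^ tt ρ K (idx ρ j) := Nat.pow_le_pow_right (by norm_num) (by omega)
    omega
  · exact h

/-! ### Asymptotic pairs -/

lemma next_pos (hρ : 1 < ρ) (n : ℕ) : ∃ k, n ≤ nn ρ k ∧ ∀ i, n ≤ i → i < nn ρ k →
    i ∉ range (nn ρ) := by
  classical
  have hex : ∃ k, n ≤ nn ρ k := ⟨n, (nn_strictMono hρ).le_apply⟩
  refine ⟨Nat.find hex, Nat.find_spec hex, ?_⟩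
  rintro _ hi hlt ⟨k', rfl⟩
  have h1 : Nat.find hex ≤ k' := Nat.find_min' hex hi
  exact absurd ((nn_strictMono hρ).monotone h1) (not_le.mpr hlt)

lemma G_close (hρ : 1 < ρ) {K : ℕ} (hK : 1 ≤ K) {b : ℕ → ℕ}
    (hb : b ∈ Seqs (loG ρ K) (hiG ρ K)) {n k₀ : ℕ} (hn : nn ρ k₀ < n) :
    |XX (shift (aG ρ) n) - XX (shift b n)| ≤ 1 / ((k₀ : ℝ) + 1) := by
  have hadm : Adm (aG ρ) := fun j => by have := aG_ge ρ j; omega
  have hbadm := Seqs_adm (dsG ρ K) hb
  obtain ⟨k, h1, h3⟩ := next_pos hρ n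
  have hk : k₀ < k := (nn_strictMono hρ).lt_iff_lt.mp (hn.trans_le h1)
  obtain ⟨r, hr⟩ := Nat.exists_eq_add_of_le h1
  have hagree : ∀ i < r, shift (aG ρ) n i = shift b n i := by
    intro i hi
    have h4 := h3 (n + i) (Nat.le_add_right _ _) (by omega)
    have h5 := hb (n + i)
    unfold loG hiG at h5
    rw [if_neg h4, if_neg h4] at h5
    have h6 : aG ρ (n + i) = 2 := by
      unfold aG
      rw [if_neg h4]
    simp only [shift]
    omega
  rw [XX_sub_of_agree r _ _ (hadm.shift n) (hbadm.shift n) hagree, shift_shift, shift_shift,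
    abs_mul, abs_of_pos (PP_pos (hadm.shift n) r), ← hr]
  have h6 : PP (shift (aG ρ) n) r ≤ 1 := (PP_le (hadm.shift n) r).trans
    (pow_le_one₀ (by norm_num) (by norm_num))
  have hk0 : (0 : ℝ) < (k₀ : ℝ) + 1 := by positivity
  have h7 : XX (shift (aG ρ) (nn ρ k)) ≤ 1 / ((k₀ : ℝ) + 1) := by
    have h8 := (XX_mem_branch (hadm.shift (nn ρ k))).2
    have e : shift (aG ρ) (nn ρ k) 0 = k + 2 := by
      simp only [shift, add_zero]
      unfold aG
      rw [if_pos ⟨k, rfl⟩, idx_nn hρ]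
    rw [e] at h8
    apply h8.trans
    apply one_div_le_one_div_of_le hk0
    have : k₀ + 1 ≤ k + 2 := by omega
    exact_mod_cast this
  have h7' : XX (shift b (nn ρ k)) ≤ 1 / ((k₀ : ℝ) + 1) := by
    have h8 := (XX_mem_branch (hbadm.shift (nn ρ k))).2
    have h9 := (hb (nn ρ k)).1
    unfold loG at h9
    rw [if_pos ⟨k, rfl⟩, idx_nn hρ] at h9
    have e : shift b (nn ρ k) 0 = b (nn ρ k) := by simp [shift]
    rw [e] at h8
    apply h8.trans
    apply one_div_le_one_div_of_le hk0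
    have h10 := tt_ge hρ hK k
    have h11 : tt ρ K k < 2 ^ tt ρ K k := Nat.lt_two_pow_self
    have : k₀ + 1 ≤ b (nn ρ k) := by omega
    exact_mod_cast this
  have p1 := XX_pos (hadm.shift (nn ρ k))
  have p2 := XX_pos (hbadm.shift (nn ρ k))
  have h8 : |XX (shift (aG ρ) (nn ρ k)) - XX (shift b (nn ρ k))| ≤ 1 / ((k₀ : ℝ) + 1) := by
    rw [abs_le]
    constructor <;> linarith
  calc PP (shift (aG ρ) n) r * |XX (shift (aG ρ) (nn ρ k)) - XX (shift b (nn ρ k))| ≤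
        1 * |XX (shift (aG ρ) (nn ρ k)) - XX (shift b (nn ρ k))| :=
        mul_le_mul_of_nonneg_right h6 (abs_nonneg _)
    _ ≤ _ := by rw [one_mul]; exact h8

variable {T : ℝ → ℝ}

lemma inf2_of_ge {a : ℕ → ℕ} (h : ∀ j, 2 ≤ a j) : Inf2 a := fun n => ⟨n, le_rfl, h n⟩

lemma G_mem_ASeq (hT : IsLur T) (hρ : 1 < ρ) {K : ℕ} (hK : 1 ≤ K) {b : ℕ → ℕ}
    (hb : b ∈ Seqs (loG ρ K) (hiG ρ K)) : XX b ∈ ASeq T (fun n => T^[n] (XX (aG ρ))) := by
  have hadm : Adm (aG ρ) := fun j => by have := aG_ge ρ j; omega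
  have hbadm := Seqs_adm (dsG ρ K) hb
  refine ⟨⟨(XX_pos hbadm).le, XX_le_one hbadm⟩, ?_⟩
  have h1 : (fun n => |T^[n] (XX (aG ρ)) - T^[n] (XX b)|) =
      fun n => |XX (shift (aG ρ) n) - XX (shift b n)| := by
    ext n
    rw [T_iter_XX hT hadm (inf2_of_ge (aG_ge ρ)), T_iter_XX hT hbadm
      (inf2_of_ge (seqG_ge hρ hK hb))]
  rw [h1, Metric.tendsto_atTop]
  intro ε hε
  obtain ⟨k₀, hk₀⟩ := exists_nat_one_div_lt hε
  refine ⟨nn ρ k₀ + 1, fun n hn => ?_⟩
  rw [Real.dist_eq, sub_zero, abs_abs]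
  exact (G_close hρ hK hb (by omega)).trans_lt hk₀

/-! ### The lower bound -/

/-- Sum of the sizes. -/
lemma tt_sum (hρ : 1 < ρ) (K k : ℕ) :
    (K : ℝ) * ((nn ρ k : ℝ) - nn ρ 0) ≤ ∑ i ∈ Finset.range k, (tt ρ K i : ℝ) := by
  induction k with
  | zero => simp
  | succ k ih =>
    rw [Finset.sum_range_succ]
    unfold tt
    push_cast
    rw [Nat.cast_sub (by have := nn_gap hρ k; omega)]
    have : (0 : ℝ) ≤ k := by positivity
    unfold tt at ih
    push_cast at ih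
    linarith

lemma G_cond (hρ : 1 < ρ) {s : ℝ} (hs0 : 0 < s) (hs1 : s * (1 + ρ) < 1) :
    ∃ K : ℕ, 1 ≤ K ∧ ∃ K₀ : ℝ, ∀ b ∈ Seqs (loG ρ K) (hiG ρ K), ∀ k,
      s * (LP b (nn ρ k) + tt ρ K k * Real.log 2 + Real.log 24) ≤
        LQ (qG ρ K) b (nn ρ k) + K₀ := by
  classical
  have hl2 : 0 < Real.log 2 := Real.log_pos (by norm_num)
  have hl6 : 0 < Real.log 6 := Real.log_pos (by norm_num)
  have hl24 : 0 < Real.log 24 := Real.log_pos (by norm_num)
  set η := 1 - s * (1 + ρ) with hη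
  have hη0 : 0 < η := by linarith
  obtain ⟨K, hKbig⟩ := exists_nat_gt ((s * Real.log 6 + 1) / (η * Real.log 2))
  have hK0 : (0 : ℝ) < K := lt_trans (by positivity) hKbig
  have hK1 : 1 ≤ K := by exact_mod_cast hK0
  rw [div_lt_iff₀ (by positivity)] at hKbig
  obtain ⟨C, hC⟩ := nn_superlinear hρ (show 0 < s * (3 + 2 * K) * Real.log 2 by positivity)
  refine ⟨K, hK1, C + s * (K * (ρ + 2) * Real.log 2 + Real.log 24) +
    K * nn ρ 0 * Real.log 2, fun b hb k => ?_⟩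
  have hbadm := Seqs_adm (dsG ρ K) hb
  have hLQ : LQ (qG ρ K) b (nn ρ k) = (∑ i ∈ Finset.range k, (tt ρ K i : ℝ)) * Real.log 2 := by
    rw [← sum_positions hρ (fun i => (tt ρ K i : ℝ)) k]
    unfold LQ
    rw [Finset.sum_mul]
    apply Finset.sum_congr rfl
    intro j _
    unfold qG
    split_ifs
    · rw [Real.log_pow, one_div, Real.log_inv]
      ring
    · simp
  have hterm : ∀ j, Real.log ((b j : ℝ) * (b j + 1)) ≤ Real.log 6 +
      (if j ∈ range (nn ρ) then (fun i => 2 * ((tt ρ K i : ℝ) + 1) * Real.log 2) (idx ρ j)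
        else 0) := by
    intro j
    have hbj : (1 : ℝ) ≤ b j := by exact_mod_cast hbadm j
    have h2 := hb j
    unfold loG hiG at h2
    split_ifs at h2 ⊢ with h
    · have h3 : (b j : ℝ) + 1 ≤ 2 ^ (tt ρ K (idx ρ j) + 1) := by exact_mod_cast h2.2
      have h4 : Real.log ((b j : ℝ) * (b j + 1)) ≤ 2 * ((tt ρ K (idx ρ j) + 1) * Real.log 2) := by
        have h5 : ((tt ρ K (idx ρ j) : ℝ) + 1) * Real.log 2 =
            Real.log (2 ^ (tt ρ K (idx ρ j) + 1)) := by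
          rw [Real.log_pow]; push_cast; ring
        rw [h5, ← Real.log_rpow (by positivity), Real.rpow_two]
        apply Real.log_le_log (by positivity)
        nlinarith
      simp only
      linarith
    · have h3 : b j = 2 := by omega
      rw [h3]
      norm_num
  have hLP : LP b (nn ρ k) ≤ nn ρ k * Real.log 6 +
      2 * Real.log 2 * ((∑ i ∈ Finset.range k, (tt ρ K i : ℝ)) + k) := by
    have h1 : LP b (nn ρ k) ≤ ∑ j ∈ Finset.range (nn ρ k), (Real.log 6 +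
        (if j ∈ range (nn ρ) then (fun i => 2 * ((tt ρ K i : ℝ) + 1) * Real.log 2) (idx ρ j)
          else 0)) := by
      unfold LP
      exact Finset.sum_le_sum fun j _ => hterm j
    rw [Finset.sum_add_distrib, sum_positions hρ (fun i => 2 * ((tt ρ K i : ℝ) + 1) * Real.log 2) k,
      Finset.sum_const, Finset.card_range, nsmul_eq_mul] at h1
    have h2 : ∑ i ∈ Finset.range k, 2 * ((tt ρ K i : ℝ) + 1) * Real.log 2 =
        2 * Real.log 2 * ((∑ i ∈ Finset.range k, (tt ρ K i : ℝ)) + k) := by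
      have : ∀ i ∈ Finset.range k, 2 * ((tt ρ K i : ℝ) + 1) * Real.log 2 =
          2 * Real.log 2 * (tt ρ K i : ℝ) + 2 * Real.log 2 := fun i _ => by ring
      rw [Finset.sum_congr rfl this, Finset.sum_add_distrib, ← Finset.mul_sum, Finset.sum_const,
        Finset.card_range, nsmul_eq_mul]
      ring
    linarith
  have hsum := tt_sum hρ K k
  set S := ∑ i ∈ Finset.range k, (tt ρ K i : ℝ) with hS
  have htt : (tt ρ K k : ℝ) ≤ K * ((ρ - 1) * nn ρ k + ρ + 2 * k + 2) + k := by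
    unfold tt
    push_cast
    rw [Nat.cast_sub (by have := nn_gap hρ k; omega)]
    have h1 := nn_succ_le hρ k
    have h2 : (K : ℝ) * ((nn ρ (k + 1) : ℝ) - nn ρ k) ≤
        K * ((ρ - 1) * nn ρ k + ρ + 2 * k + 2) := by
      apply mul_le_mul_of_nonneg_left _ hK0.le
      linarith
    linarith
  have hCk := hC k
  have hn0 : (0 : ℝ) ≤ nn ρ k := by positivity
  have hk0 : (0 : ℝ) ≤ k := by positivity
  have h2s : 0 < 1 - 2 * s := by nlinarith
  rw [hLQ]
  -- assemble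
  have e1 : s * (LP b (nn ρ k) + tt ρ K k * Real.log 2 + Real.log 24) ≤
      s * (nn ρ k * Real.log 6 + 2 * Real.log 2 * (S + k) +
        (K * ((ρ - 1) * nn ρ k + ρ + 2 * k + 2) + k) * Real.log 2 + Real.log 24) := by
    apply mul_le_mul_of_nonneg_left _ hs0.le
    have := mul_le_mul_of_nonneg_right htt hl2.le
    linarith
  have e2 : (1 - 2 * s) * Real.log 2 * (K * ((nn ρ k : ℝ) - nn ρ 0)) ≤
      (1 - 2 * s) * Real.log 2 * S := mul_le_mul_of_nonneg_left hsum (by positivity)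
  have e3 : (s * Real.log 6 + 1) * nn ρ k ≤ K * (η * Real.log 2) * nn ρ k :=
    mul_le_mul_of_nonneg_right hKbig.le hn0
  have e4 : (1 - 2 * s) * Real.log 2 * (K * (nn ρ 0 : ℝ)) ≤ 1 * Real.log 2 * (K * (nn ρ 0 : ℝ)) := by
    apply mul_le_mul_of_nonneg_right _ (by positivity)
    apply mul_le_mul_of_nonneg_right _ hl2.le
    linarith
  have e5 : K * (η * Real.log 2) * nn ρ k =
      (1 - 2 * s) * Real.log 2 * (K * (nn ρ k : ℝ)) -
        s * (K * ((ρ - 1) * nn ρ k)) * Real.log 2 := by rw [hη]; ring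
  nlinarith

lemma QQG_tendsto (hρ : 1 < ρ) {K : ℕ} (hK : 1 ≤ K) {b : ℕ → ℕ}
    (hb : b ∈ Seqs (loG ρ K) (hiG ρ K)) : Tendsto (QQ (qG ρ K) b) atTop (𝓝 0) := by
  classical
  have hanti : Antitone (QQ (qG ρ K) b) := by
    apply antitone_nat_of_succ_le
    intro n
    rw [QQ_succ]
    have h1 := (QQ_pos (dsG ρ K) hb n).le
    have h2 : qG ρ K n (b n) ≤ 1 := by
      unfold qG
      split_ifs
      · exact pow_le_one₀ (by norm_num) (by norm_num)
      · exact le_rfl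
    calc QQ (qG ρ K) b n * qG ρ K n (b n) ≤ QQ (qG ρ K) b n * 1 :=
          mul_le_mul_of_nonneg_left h2 h1
      _ = _ := mul_one _
  have hsub : ∀ k, QQ (qG ρ K) b (nn ρ k) ≤ (1 / 2 : ℝ) ^ k := by
    intro k
    have hLQ : LQ (qG ρ K) b (nn ρ k) = (∑ i ∈ Finset.range k, (tt ρ K i : ℝ)) * Real.log 2 := by
      rw [← sum_positions hρ (fun i => (tt ρ K i : ℝ)) k]
      unfold LQ
      rw [Finset.sum_mul]
      apply Finset.sum_congr rfl
      intro j _
      unfold qG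
      split_ifs
      · rw [Real.log_pow, one_div, Real.log_inv]
        ring
      · simp
    rw [QQ_exp (dsG ρ K) hb, hLQ]
    have h1 : (k : ℝ) ≤ ∑ i ∈ Finset.range k, (tt ρ K i : ℝ) := by
      calc (k : ℝ) = ∑ _i ∈ Finset.range k, (1 : ℝ) := by simp
        _ ≤ _ := by
          apply Finset.sum_le_sum
          intro i _
          have := tt_ge hρ hK i
          have h2 : 1 ≤ tt ρ K i := by omega
          exact_mod_cast h2
    have h2 : (1 / 2 : ℝ) ^ k = Real.exp (-(k * Real.log 2)) := by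
      rw [Real.exp_neg, mul_comm, Real.exp_mul, Real.exp_log (by norm_num), Real.rpow_natCast,
        one_div, inv_pow]
    rw [h2]
    apply Real.exp_le_exp.mpr
    have hl2 : 0 < Real.log 2 := Real.log_pos (by norm_num)
    have := mul_le_mul_of_nonneg_right h1 hl2.le
    linarith
  rw [Metric.tendsto_atTop]
  intro ε hε
  obtain ⟨k, hk⟩ := exists_pow_lt_of_lt_one hε (show (1 / 2 : ℝ) < 1 by norm_num)
  refine ⟨nn ρ k, fun n hn => ?_⟩
  rw [Real.dist_eq, sub_zero, abs_of_pos (QQ_pos (dsG ρ K) hb n)]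
  exact (hanti hn).trans_lt ((hsub k).trans_lt hk)

lemma cdfG (K : ℕ) {n m : ℕ} (hn : n ∈ range (nn ρ)) (hm : loG ρ K n ≤ m) :
    cdf (loG ρ K) (qG ρ K) n m =
      ((m : ℝ) - loG ρ K n) * (1 / 2) ^ tt ρ K (idx ρ n) := by
  unfold cdf
  have : ∀ i ∈ Finset.Ico (loG ρ K n) m, qG ρ K n i = (1 / 2) ^ tt ρ K (idx ρ n) := by
    intro i _
    unfold qG
    rw [if_pos hn]
  rw [Finset.sum_congr rfl this, Finset.sum_const, Nat.card_Ico, nsmul_eq_mul, Nat.cast_sub hm]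

theorem G_lower (hρ : 1 < ρ) {s : ℝ} (hs0 : 0 < s) (hs1 : s * (1 + ρ) < 1) :
    ∃ K : ℕ, 1 ≤ K ∧ ENNReal.ofReal s ≤ dimH (XX '' Seqs (loG ρ K) (hiG ρ K)) := by
  obtain ⟨K, hK, K₀, hcond⟩ := G_cond hρ hs0 hs1
  refine ⟨K, hK, ?_⟩
  have hs1' : s < 1 := by nlinarith
  apply dimH_ge (dsG ρ K) hs0 (Real.exp_pos K₀).le (fun a ha => QQG_tendsto hρ hK ha)
  intro a ha b hb n hab hlt
  have hadm := Seqs_adm (dsG ρ K) ha
  have hbdm := Seqs_adm (dsG ρ K) hb
  -- `n` is a free position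
  have hn : n ∈ range (nn ρ) := by
    by_contra hcon
    have h1 := ha n
    have h2 := hb n
    unfold loG hiG at h1 h2
    rw [if_neg hcon, if_neg hcon] at h1 h2
    omega
  have hn' := hn
  obtain ⟨k, rfl⟩ := hn'
  have hk := idx_nn hρ k
  have h1 := ha (nn ρ k)
  have h2 := hb (nn ρ k)
  have e1 : a (nn ρ k + 1) = 2 := by
    have h3 := ha (nn ρ k + 1)
    unfold loG hiG at h3
    have h4 : nn ρ k + 1 ∉ range (nn ρ) := by
      rintro ⟨k', hk'⟩
      have h5 := nn_gap hρ k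
      have h6 : k < k' := (nn_strictMono hρ).lt_iff_lt.mp (by omega)
      have h7 : nn ρ (k + 1) ≤ nn ρ k' := (nn_strictMono hρ).monotone h6
      omega
    rw [if_neg h4, if_neg h4] at h3
    omega
  have hgap := XX_gap hadm hbdm hab hlt
  rw [e1] at hgap
  have hc1 := cdfG (ρ := ρ) K ⟨k, rfl⟩ (show loG ρ K (nn ρ k) ≤ b (nn ρ k) + 1 by omega)
  have hc2 := cdfG (ρ := ρ) K ⟨k, rfl⟩ h1.1
  rw [hc1, hc2]
  unfold loG hiG at h1 h2
  rw [if_pos ⟨k, rfl⟩, if_pos ⟨k, rfl⟩, hk] at h1 h2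
  rw [hk]
  set t := tt ρ K k with ht
  set L : ℝ := 2 ^ t with hL
  have hLpos : 0 < L := by positivity
  have hLinv : ((1 : ℝ) / 2) ^ t = 1 / L := by rw [hL, one_div, one_div, inv_pow]
  rw [hLinv]
  have ha1 : L ≤ a (nn ρ k) := by rw [hL]; exact_mod_cast h1.1
  have hb1 : (b (nn ρ k) : ℝ) + 1 ≤ 2 * L := by
    rw [hL, ← pow_succ']
    exact_mod_cast h2.2
  have hlt' : (a (nn ρ k) : ℝ) + 1 ≤ b (nn ρ k) := by exact_mod_cast hlt
  set A : ℝ := (a (nn ρ k) : ℝ) with hA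
  set Bv : ℝ := (b (nn ρ k) : ℝ) with hBv
  have hApos : 0 < A := by linarith
  have hBpos : 0 < Bv := by linarith
  set Δ := Bv - A with hΔ
  have hΔ1 : 1 ≤ Δ := by linarith
  have hΔL : Δ + 1 ≤ L := by linarith
  -- the gap
  have hP := PP_pos hadm (nn ρ k)
  have hg : PP a (nn ρ k) * ((Δ + 1) / (24 * L ^ 2)) ≤ XX a - XX b := by
    apply le_trans _ hgap
    apply mul_le_mul_of_nonneg_left _ hP.le
    have g1 : 1 / (A + 1) - 1 / Bv = (Δ - 1) / ((A + 1) * Bv) := by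
      rw [hΔ]
      field_simp
      ring
    have g2 : (Δ - 1) / (4 * L ^ 2) ≤ (Δ - 1) / ((A + 1) * Bv) := by
      apply div_le_div_of_nonneg_left (by linarith) (by positivity)
      nlinarith
    have g3 : 1 / (4 * L ^ 2) ≤ 1 / (A * (A + 1)) := by
      apply one_div_le_one_div_of_le (by positivity)
      nlinarith
    have g4 : (1 : ℝ) / (((2 : ℕ) : ℝ) + 1) = 1 / 3 := by norm_num
    rw [g1, g4]
    have g5 : (Δ + 1) / (24 * L ^ 2) = (Δ + 1) / 6 * (1 / (4 * L ^ 2)) := by field_simp; ring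
    have g6 : (Δ - 1) / (4 * L ^ 2) = (Δ - 1) * (1 / (4 * L ^ 2)) := by ring
    have g7 : 0 ≤ 1 / (4 * L ^ 2) := by positivity
    rw [g6] at g2
    rw [g5]
    nlinarith
  have hX : 0 ≤ XX a - XX b := le_trans (by positivity) hg
  rw [abs_of_nonneg hX]
  -- the condition
  have hc := hcond a ha k
  have hQ : QQ (qG ρ K) a (nn ρ k) ≤ Real.exp K₀ * (PP a (nn ρ k) * (1 / (24 * L))) ^ s := by
    have hLexp : (1 : ℝ) / (24 * L) = Real.exp (-(t * Real.log 2 + Real.log 24)) := by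
      rw [Real.exp_neg, Real.exp_add, mul_comm (t : ℝ), Real.exp_mul,
        Real.exp_log (by norm_num), Real.exp_log (by norm_num), Real.rpow_natCast, one_div, hL,
        mul_comm]
    rw [QQ_exp (dsG ρ K) ha, PP_exp hadm, hLexp, ← Real.exp_add, ← Real.exp_mul, ← Real.exp_add]
    apply Real.exp_le_exp.mpr
    linarith
  have hΔpow : (Δ + 1) ≤ (Δ + 1) ^ s * L ^ (1 - s) := by
    calc Δ + 1 = (Δ + 1) ^ s * (Δ + 1) ^ (1 - s) := by
          rw [← Real.rpow_add (by linarith)]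
          simp
      _ ≤ (Δ + 1) ^ s * L ^ (1 - s) := by
          apply mul_le_mul_of_nonneg_left _ (by positivity)
          exact Real.rpow_le_rpow (by linarith) hΔL (by linarith)
  calc QQ (qG ρ K) a (nn ρ k) *
        (((((b (nn ρ k) + 1 : ℕ) : ℝ)) - loG ρ K (nn ρ k)) * (1 / L) -
          (A - loG ρ K (nn ρ k)) * (1 / L)) =
        QQ (qG ρ K) a (nn ρ k) * ((Δ + 1) / L) := by
        push_cast
        rw [hΔ]
        ring
    _ ≤ (Real.exp K₀ * (PP a (nn ρ k) * (1 / (24 * L))) ^ s) *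
          (((Δ + 1) ^ s * L ^ (1 - s)) / L) := by
        apply mul_le_mul hQ _ (by positivity) (by positivity)
        exact div_le_div_of_nonneg_right hΔpow hLpos.le
    _ = Real.exp K₀ * (PP a (nn ρ k) * ((Δ + 1) / (24 * L ^ 2))) ^ s := by
        have e2 : L ^ (1 - s) / L = (1 / L) ^ s := by
          rw [Real.rpow_sub hLpos, Real.rpow_one, Real.div_rpow zero_le_one hLpos.le,
            Real.one_rpow]
          field_simp
        rw [mul_div_assoc, e2, mul_assoc (Real.exp K₀), ← Real.mul_rpow (by linarith)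
          (by positivity), ← Real.mul_rpow (by positivity) (by positivity)]
        congr 2
        field_simp
    _ ≤ Real.exp K₀ * (XX a - XX b) ^ s := by
        apply mul_le_mul_of_nonneg_left _ (Real.exp_pos _).le
        exact Real.rpow_le_rpow (by positivity) hg hs0.le

end Q76.Lur
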