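import Mathlib
import Pool.Agent.Q76.LurGeo

/-!
# The set of dimensions of the asymptotic sets
-/

namespace Q76.Lur

open MeasureTheory Set Filter Topology Metric
open scoped ENNReal NNReal

variable {T : ℝ → ℝ} {ρ : ℝ}

/-- Iterating the forced steps. -/
lemma VV_forced_iter (hT : IsLur T) {s : ℝ} (hs0 : 0 < s) {ε : ℝ} (hε : 0 < ε)
    (hε2 : ε ≤ 1 / 100) {a : ℕ → ℕ} (ha : ∀ j, 2 ≤ a j) (n : ℕ) :
    ∀ r : ℕ, (∀ i < r, a (n + i) = 2) → VV T s hs0 ε (fun i => XX (shift a i)) n ≤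
      ENNReal.ofReal ((1 / 6) ^ s) ^ r * VV T s hs0 ε (fun i => XX (shift a i)) (n + r) := by
  intro r
  induction r with
  | zero => intro _; simp
  | succ r ih =>
    intro h
    have h1 := ih fun i hi => h i (by omega)
    have h2 := VV_forced hT hs0 hε hε2 ha (h r (Nat.lt_succ_self r))
    calc VV T s hs0 ε (fun i => XX (shift a i)) n ≤ _ := h1
      _ ≤ ENNReal.ofReal ((1 / 6) ^ s) ^ r * (ENNReal.ofReal ((1 / 6) ^ s) *
          VV T s hs0 ε (fun i => XX (shift a i)) (n + r + 1)) := by gcongr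
      _ = _ := by rw [pow_succ, mul_assoc]; rfl

/-- The contents vanish above the critical exponent. -/
lemma VV_zero (hT : IsLur T) (hρ : 1 < ρ) {s : ℝ} (hs0 : 0 < s) (hs1 : s < 1 / 2)
    (hs2 : 1 < s * (1 + ρ)) {ε : ℝ} (hε : 0 < ε) (hε2 : ε ≤ 1 / 100) (k : ℕ) :
    VV T s hs0 ε (fun i => XX (shift (aG ρ) i)) (nn ρ k) = 0 := by
  set V : ℕ → ℝ≥0∞ := VV T s hs0 ε (fun i => XX (shift (aG ρ) i)) with hV
  have hV1 : ∀ n, V n ≤ 1 := fun n => VV_le_one hs0 ε _ n
  have hVt : ∀ n, V n ≠ ⊤ := fun n => ne_top_of_le_ne_top ENNReal.one_ne_top (hV1 n)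
  set v : ℕ → ℝ := fun k => (V (nn ρ k)).toReal with hv
  set g : ℕ → ℝ := fun k => ((nn ρ (k + 1) - nn ρ k - 1 : ℕ) : ℝ) with hg
  have h2s : 0 < 1 - 2 * s := by linarith
  have h1s : 0 < 1 - s := by linarith
  have hl6 : 0 < Real.log 6 := Real.log_pos (by norm_num)
  have key : ∀ k, v k ≤ (2 * (1 / (1 - 2 * s)) + 1) *
      (Real.exp (-(s * Real.log 6 * g k)) * v (k + 1)) ^ (s / (1 - s)) := by
    intro k
    have hgap := nn_gap hρ k
    set r := nn ρ (k + 1) - nn ρ k - 1 with hr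
    have hforced : ∀ i < r, aG ρ (nn ρ k + 1 + i) = 2 := by
      intro i hi
      unfold aG
      rw [if_neg]
      rintro ⟨k', hk'⟩
      have h6 : k < k' := (nn_strictMono hρ).lt_iff_lt.mp (by omega)
      have h7 : nn ρ (k + 1) ≤ nn ρ k' := (nn_strictMono hρ).monotone h6
      omega
    have h1 := VV_forced_iter hT hs0 hε hε2 (aG_ge ρ) (nn ρ k + 1) r hforced
    rw [show nn ρ k + 1 + r = nn ρ (k + 1) by omega] at h1
    have hlam : ((1 / 6 : ℝ) ^ s) ^ r = Real.exp (-(s * Real.log 6 * g k)) := by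
      rw [← Real.rpow_natCast, ← Real.rpow_mul (by norm_num), one_div,
        Real.inv_rpow (by norm_num), ← Real.rpow_neg (by norm_num),
        Real.rpow_def_of_pos (by norm_num)]
      congr 1
      simp only [hg]
      ring
    apply optimise hs0 hs1
    · exact mul_nonneg (Real.exp_pos _).le ENNReal.toReal_nonneg
    · have a1 : Real.exp (-(s * Real.log 6 * g k)) ≤ 1 := by
        rw [Real.exp_le_one_iff]
        have : 0 ≤ g k := by simp only [hg]; positivity
        have : 0 ≤ s * Real.log 6 * g k := by positivity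
        linarith
      have a2 : v (k + 1) ≤ 1 := by
        have := ENNReal.toReal_mono ENNReal.one_ne_top (hV1 (nn ρ (k + 1)))
        simpa using this
      calc _ ≤ 1 * v (k + 1) := mul_le_mul_of_nonneg_right a1 ENNReal.toReal_nonneg
        _ ≤ 1 := by rw [one_mul]; exact a2
    · positivity
    · intro B hB
      have hB0 : (0 : ℝ) < B := by exact_mod_cast hB
      have h2 := VV_free (s := s) hT hs0 (ε := ε) (fun i => XX (shift (aG ρ) i)) (nn ρ k) hB
      have h3 := wt_sum_le hs0 hs1 hB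
      have h4 : V (nn ρ k) ≤ ENNReal.ofReal ((B : ℝ) ^ (1 - 2 * s) / (1 - 2 * s)) *
          (ENNReal.ofReal ((1 / 6) ^ s) ^ r * V (nn ρ (k + 1))) +
            ENNReal.ofReal ((1 / B) ^ s) := by
        apply h2.trans
        gcongr
      have h5 := ENNReal.toReal_mono (by
        apply ENNReal.add_ne_top.mpr
        refine ⟨ENNReal.mul_ne_top ENNReal.ofReal_ne_top (ENNReal.mul_ne_top
          (ENNReal.pow_ne_top ENNReal.ofReal_ne_top) (hVt _)), ENNReal.ofReal_ne_top⟩) h4
      rw [ENNReal.toReal_add (ENNReal.mul_ne_top ENNReal.ofReal_ne_top (ENNReal.mul_ne_top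
          (ENNReal.pow_ne_top ENNReal.ofReal_ne_top) (hVt _))) ENNReal.ofReal_ne_top,
        ENNReal.toReal_mul, ENNReal.toReal_mul, ENNReal.toReal_pow,
        ENNReal.toReal_ofReal (by positivity), ENNReal.toReal_ofReal (by positivity),
        ENNReal.toReal_ofReal (by positivity), hlam] at h5
      calc v k ≤ _ := h5
        _ = _ := by simp only [hv]; ring
  have hβ0 : 0 < s / (1 - s) := by positivity
  have hβ1 : s / (1 - s) < 1 := by rw [div_lt_one h1s]; linarith
  have hβρ : 1 < s / (1 - s) * ρ := by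
    rw [div_mul_eq_mul_div, lt_div_iff₀ h1s]
    linarith
  have hC1 : 1 ≤ 2 * (1 / (1 - 2 * s)) + 1 := by
    have : 0 ≤ 2 * (1 / (1 - 2 * s)) := by positivity
    linarith
  have hzero := iterate_zero (v := v) (g := g) (γ := ρ - 1) (ρ := ρ) (κ := s * Real.log 6)
    (fun k => ENNReal.toReal_nonneg)
    (fun k => by
      have := ENNReal.toReal_mono ENNReal.one_ne_top (hV1 (nn ρ k))
      simpa using this)
    hC1 (by positivity) hβ0 hβ1 (by linarith) (by linarith) hβρ (fun k => nn_big hρ k) key k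
  simp only [hv] at hzero
  rcases (ENNReal.toReal_eq_zero_iff _).mp hzero with h | h
  · exact h
  · exact absurd h (hVt _)

/-- The orbit of the point with digits `aG`. -/
lemma orbit_aG (hT : IsLur T) : (fun n => T^[n] (XX (aG ρ))) = fun i => XX (shift (aG ρ) i) := by
  ext n
  exact T_iter_XX hT (fun j => by have := aG_ge ρ j; omega) (inf2_of_ge (aG_ge ρ)) n

theorem dimH_aG (hT : IsLur T) (hρ : 1 < ρ) :
    dimH (ASeq T (fun n => T^[n] (XX (aG ρ)))) = ENNReal.ofReal (1 / (1 + ρ)) := by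
  have hρ0 : 0 < 1 + ρ := by linarith
  apply le_antisymm
  · have key : ∀ s : ℝ, 1 / (1 + ρ) < s → s < 1 / 2 →
        dimH (ASeq T (fun n => T^[n] (XX (aG ρ)))) ≤ ENNReal.ofReal s := by
      intro s h1 h2
      have hs0 : 0 < s := lt_trans (by positivity) h1
      rw [div_lt_iff₀ hρ0] at h1
      apply dimH_ASeq_le_of_VV hT hs0 (show (0 : ℝ) < 1 / 100 by norm_num)
      intro N
      refine ⟨nn ρ N, (nn_strictMono hρ).le_apply, ?_⟩
      rw [orbit_aG hT]
      exact VV_zero hT hρ hs0 h2 h1 (by norm_num) le_rfl N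
    have hlim : Tendsto (fun s : ℝ => ENNReal.ofReal s) (𝓝[>] (1 / (1 + ρ)))
        (𝓝 (ENNReal.ofReal (1 / (1 + ρ)))) :=
      (ENNReal.continuous_ofReal.tendsto _).mono_left nhdsWithin_le_nhds
    apply ge_of_tendsto hlim
    have hlt : 1 / (1 + ρ) < 1 / 2 := by
      apply one_div_lt_one_div_of_lt (by norm_num)
      linarith
    filter_upwards [Ioo_mem_nhdsGT hlt] with s hs
    exact key s hs.1 hs.2
  · have key : ∀ s : ℝ, 0 < s → s < 1 / (1 + ρ) →
        ENNReal.ofReal s ≤ dimH (ASeq T (fun n => T^[n] (XX (aG ρ)))) := by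
      intro s h1 h2
      rw [lt_div_iff₀ hρ0] at h2
      obtain ⟨K, hK, h3⟩ := G_lower hρ h1 h2
      apply h3.trans
      apply dimH_mono
      rintro _ ⟨b, hb, rfl⟩
      exact G_mem_ASeq hT hρ hK hb
    have hlim : Tendsto (fun s : ℝ => ENNReal.ofReal s) (𝓝[<] (1 / (1 + ρ)))
        (𝓝 (ENNReal.ofReal (1 / (1 + ρ)))) :=
      (ENNReal.continuous_ofReal.tendsto _).mono_left nhdsWithin_le_nhds
    apply le_of_tendsto hlim
    filter_upwards [Ioo_mem_nhdsLT (show (0 : ℝ) < 1 / (1 + ρ) by positivity)] with s hs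
    exact key s hs.1 hs.2

/-- A point whose asymptotic set has dimension zero. -/
theorem dimH_const (hT : IsLur T) : dimH (ASeq T (fun n => T^[n] (XX fun _ => 2))) = 0 := by
  have ha : ∀ j : ℕ, 2 ≤ (fun _ : ℕ => (2 : ℕ)) j := fun _ => le_rfl
  have horb : (fun n => T^[n] (XX fun _ => 2)) = fun i => XX (shift (fun _ => 2) i) := by
    ext n
    exact T_iter_XX hT (fun _ => one_le_two) (inf2_of_ge ha) n
  have key : ∀ s : ℝ, 0 < s → dimH (ASeq T (fun n => T^[n] (XX fun _ => 2))) ≤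
      ENNReal.ofReal s := by
    intro s hs0
    apply dimH_ASeq_le_of_VV hT hs0 (show (0 : ℝ) < 1 / 100 by norm_num)
    intro N
    refine ⟨N, le_rfl, ?_⟩
    rw [horb]
    have h1 : ∀ r : ℕ, VV T s hs0 (1 / 100) (fun i => XX (shift (fun _ => 2) i)) N ≤
        ENNReal.ofReal ((1 / 6) ^ s) ^ r := by
      intro r
      have h2 := VV_forced_iter hT hs0 (show (0 : ℝ) < 1 / 100 by norm_num) le_rfl ha N r
        (fun _ _ => rfl)
      apply h2.trans
      calc _ ≤ ENNReal.ofReal ((1 / 6) ^ s) ^ r * 1 := by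
            gcongr
            exact VV_le_one hs0 _ _ _
        _ = _ := mul_one _
    have h3 : ENNReal.ofReal ((1 / 6) ^ s) < 1 := by
      rw [ENNReal.ofReal_lt_one]
      exact Real.rpow_lt_one (by norm_num) (by norm_num) hs0
    exact le_antisymm (ge_of_tendsto (ENNReal.tendsto_pow_atTop_nhds_zero_of_lt_one h3)
      (Eventually.of_forall h1)) zero_le
  have hlim : Tendsto (fun s : ℝ => ENNReal.ofReal s) (𝓝[>] 0) (𝓝 (ENNReal.ofReal 0)) :=
    (ENNReal.continuous_ofReal.tendsto _).mono_left nhdsWithin_le_nhds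
  rw [ENNReal.ofReal_zero] at hlim
  exact le_antisymm (ge_of_tendsto hlim (eventually_nhdsWithin_of_forall fun s hs => key s hs))
    zero_le

/-- **The image of the dimension function.** -/
theorem image_dimH (hT : IsLur T) :
    (fun x => dimH (ASeq T (fun n => T^[n] x))) '' Icc (0 : ℝ) 1 =
      Icc 0 (ENNReal.ofReal (1 / 2)) := by
  apply Subset.antisymm
  · rintro _ ⟨x, _, rfl⟩
    exact ⟨zero_le, dimH_ASeq_le hT _⟩
  · intro r hr
    have hr' : r ≠ ⊤ := ne_top_of_le_ne_top ENNReal.ofReal_ne_top hr.2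
    have hr2 : r.toReal ≤ 1 / 2 := by
      have := ENNReal.toReal_mono ENNReal.ofReal_ne_top hr.2
      rwa [ENNReal.toReal_ofReal (by norm_num)] at this
    rcases eq_or_ne r 0 with h0 | h0
    · refine ⟨XX fun _ => 2, ⟨(XX_pos fun _ => one_le_two).le, XX_le_one fun _ => one_le_two⟩, ?_⟩
      rw [h0]
      exact dimH_const hT
    · rcases hr2.eq_or_lt with h2 | h2
      · have hloX : loX ∈ Seqs loX (hiX 1) := fun n => ⟨le_rfl, (dsX (le_refl 1)).lt n⟩
        have hadm := Seqs_adm (dsX (le_refl 1)) hloX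
        refine ⟨XX loX, ⟨(XX_pos hadm).le, XX_le_one hadm⟩, ?_⟩
        show dimH (ASeq T (fun n => T^[n] (XX loX))) = r
        rw [dimH_ASeq_eq hT (le_refl 1) hloX, ← h2, ENNReal.ofReal_toReal hr']
      · have h3 : 0 < r.toReal := ENNReal.toReal_pos h0 hr'
        set ρ := 1 / r.toReal - 1 with hρ
        have hρ1 : 1 < ρ := by
          have : 2 < 1 / r.toReal := by
            rw [lt_div_iff₀ h3]
            linarith
          rw [hρ]
          linarith
        have hadm : Adm (aG ρ) := fun j => by have := aG_ge ρ j; omega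
        refine ⟨XX (aG ρ), ⟨(XX_pos hadm).le, XX_le_one hadm⟩, ?_⟩
        show dimH (ASeq T (fun n => T^[n] (XX (aG ρ)))) = r
        rw [dimH_aG hT hρ1, hρ, add_sub_cancel, one_div_one_div, ENNReal.ofReal_toReal hr']

end Q76.Lur
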