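import Pool.Agent.Q61.MH.Stm

/-!
# Project MH (MP_499f6d_pr), lemma UNIF: the uniform target on `{-k, …, k}` and the proposal
`±(2k-1)` give `g k r ≤ s r`
-/

set_option autoImplicit false

open Real Filter Topology

noncomputable section

namespace Pool.Agent.Q76.MH_UNIF

open Pool.Agent.Q61.MH

/-- the uniform target on `{-k, …, k}` -/
def qq (k : ℕ) (x : ℤ) : ℝ := if |x| ≤ (k : ℤ) then 1 / (2 * (k : ℝ) + 1) else 0

/-- the proposal `±(2k-1)`, each with probability one half -/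
def ph (k : ℕ) (z : ℤ) : ℝ :=
  if z = 2 * (k : ℤ) - 1 ∨ z = -(2 * (k : ℤ) - 1) then 1 / 2 else 0

lemma qq_nonneg (k : ℕ) (x : ℤ) : 0 ≤ qq k x := by
  unfold qq
  split_ifs
  · positivity
  · exact le_refl 0

lemma qq_pos {k : ℕ} {x : ℤ} (h : |x| ≤ (k : ℤ)) : qq k x = 1 / (2 * (k : ℝ) + 1) := by
  unfold qq
  rw [if_pos h]

lemma qq_zero {k : ℕ} {x : ℤ} (h : ¬ |x| ≤ (k : ℤ)) : qq k x = 0 := by
  unfold qq
  rw [if_neg h]

lemma hasSum_qq (k : ℕ) : HasSum (qq k) 1 := by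
  have h1 : ∀ x ∉ Finset.Icc (-(k : ℤ)) k, qq k x = 0 := by
    intro x hx
    exact qq_zero fun h => hx (Finset.mem_Icc.2 (abs_le.1 h))
  have h2 : HasSum (qq k) (∑ x ∈ Finset.Icc (-(k : ℤ)) k, qq k x) :=
    hasSum_sum_of_ne_finset_zero h1
  have h3 : ∑ x ∈ Finset.Icc (-(k : ℤ)) k, qq k x = 1 := by
    have h4 : ∀ x ∈ Finset.Icc (-(k : ℤ)) k, qq k x = 1 / (2 * (k : ℝ) + 1) := by
      intro x hx
      exact qq_pos (abs_le.2 (Finset.mem_Icc.1 hx))
    rw [Finset.sum_congr rfl h4, Finset.sum_const, Int.card_Icc, nsmul_eq_mul]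
    have h5 : ((k : ℤ) + 1 - -(k : ℤ)).toNat = 2 * k + 1 := by omega
    rw [h5]
    push_cast
    have h6 : (2 * (k : ℝ) + 1) ≠ 0 := by positivity
    field_simp
  rwa [h3] at h2

lemma isTarget (k : ℕ) (hk : 1 ≤ k) : IsTarget (qq k) where
  nonneg := qq_nonneg k
  hasSum := hasSum_qq k
  symm := by
    intro x
    unfold qq
    rw [abs_neg]
  unimodal := by
    intro x y hxy
    by_cases h : |y| ≤ (k : ℤ)
    · rw [qq_pos h, qq_pos (le_trans hxy h)]
    · rw [qq_zero h]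
      exact qq_nonneg k x
  nondegenerate := by
    intro h
    have h1 := congrFun h 1
    have h2 : qq k 1 = 1 / (2 * (k : ℝ) + 1) := qq_pos (by rw [abs_one]; exact_mod_cast hk)
    simp only [one_ne_zero, if_false] at h1
    rw [h2] at h1
    have h3 : (0 : ℝ) < 1 / (2 * (k : ℝ) + 1) := by positivity
    linarith

lemma ph_nonneg (k : ℕ) (z : ℤ) : 0 ≤ ph k z := by
  unfold ph
  split_ifs
  · norm_num
  · exact le_refl 0

lemma hasSum_ph (k : ℕ) (hk : 1 ≤ k) : HasSum (ph k) 1 := by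
  have h0 : (2 * (k : ℤ) - 1) ≠ -(2 * (k : ℤ) - 1) := by omega
  have h1 : ∀ x ∉ ({2 * (k : ℤ) - 1, -(2 * (k : ℤ) - 1)} : Finset ℤ), ph k x = 0 := by
    intro x hx
    unfold ph
    rw [if_neg]
    intro h
    apply hx
    simpa only [Finset.mem_insert, Finset.mem_singleton] using h
  have h2 : HasSum (ph k)
      (∑ x ∈ ({2 * (k : ℤ) - 1, -(2 * (k : ℤ) - 1)} : Finset ℤ), ph k x) :=
    hasSum_sum_of_ne_finset_zero h1
  rw [Finset.sum_pair h0] at h2
  have h3 : ph k (2 * (k : ℤ) - 1) = 1 / 2 := by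
    unfold ph
    rw [if_pos (Or.inl rfl)]
  have h4 : ph k (-(2 * (k : ℤ) - 1)) = 1 / 2 := by
    unfold ph
    rw [if_pos (Or.inr rfl)]
  rw [h3, h4] at h2
  norm_num at h2
  exact h2

lemma isProposal (k : ℕ) (hk : 1 ≤ k) : IsProposal (ph k) where
  nonneg := ph_nonneg k
  hasSum := hasSum_ph k hk
  symm := by
    intro z
    unfold ph
    have : (-z = 2 * (k : ℤ) - 1 ∨ -z = -(2 * (k : ℤ) - 1)) ↔
        (z = 2 * (k : ℤ) - 1 ∨ z = -(2 * (k : ℤ) - 1)) := by omega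
    simp only [this]
  odd := by
    intro z hz
    obtain ⟨m, hm⟩ := hz
    unfold ph
    rw [if_neg]
    omega

/-- the moment of the positive half -/
lemma Mo_eq (k : ℕ) (r : ℝ) :
    Mo r (qq k) = ENNReal.ofReal (1 / (2 * (k : ℝ) + 1) * S k r) := by
  unfold Mo
  rw [tsum_eq_sum (s := Finset.range k)]
  · unfold S
    rw [Finset.mul_sum, ENNReal.ofReal_sum_of_nonneg]
    · refine Finset.sum_congr rfl fun w hw => ?_
      rw [qq_pos]
      have := Finset.mem_range.1 hw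
      rw [abs_of_nonneg (by positivity)]
      omega
    · intro i _
      positivity
  · intro w hw
    rw [qq_zero]
    · simp
    · have h1 : ¬ w < k := fun h => hw (Finset.mem_range.2 h)
      rw [abs_of_nonneg (by positivity)]
      omega

lemma S_pos (k : ℕ) (hk : 1 ≤ k) (r : ℝ) : 0 < S k r := by
  unfold S
  apply Finset.sum_pos
  · intro i _
    positivity
  · exact ⟨0, Finset.mem_range.2 (by omega)⟩

/-- the tail beyond `k - 1` contains the point `k` -/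
lemma T_ge (k : ℕ) (hk : 1 ≤ k) :
    ENNReal.ofReal (1 / (2 * (k : ℝ) + 1)) ≤ T (qq k) (k - 1) := by
  unfold T
  refine le_trans ?_ (ENNReal.le_tsum 0)
  rw [qq_pos]
  have h1 : ((0 : ℕ) : ℤ) + ((k - 1 : ℕ) : ℤ) + 1 = k := by omega
  rw [h1]
  rw [abs_of_nonneg (by positivity)]

theorem unif (h1 : S_jump) (h2 : S_tail) (h3 : S_mom) : S_unif := by
  intro k r hk hr
  have hT := isTarget k hk
  have hP := isProposal k hk
  obtain ⟨hm, -⟩ := h3 (qq k) r hT hr
  rw [Mo_eq] at hm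
  have hkR : (1 : ℝ) ≤ k := by exact_mod_cast hk
  have hS := S_pos k hk r
  have hc : (0 : ℝ) < 1 / (2 * (k : ℝ) + 1) := by positivity
  have hB : (0 : ℝ) < 1 / (2 * (k : ℝ) + 1) * S k r := mul_pos hc hS
  have hmtop : mom r (qq k) ≠ ⊤ := by
    rw [hm]
    exact ENNReal.mul_ne_top (by norm_num) ENNReal.ofReal_ne_top
  -- the jump
  have hA : (0 : ℝ) ≤ 1 / 2 * (2 * (k : ℝ) - 1) ^ r := by
    have : (0 : ℝ) ≤ 2 * (k : ℝ) - 1 := by linarith
    positivity
  have hj : 2 * (ENNReal.ofReal (1 / 2 * (2 * (k : ℝ) - 1) ^ r) *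
      (2 * ENNReal.ofReal (1 / (2 * (k : ℝ) + 1)))) ≤ jump r (qq k) (ph k) := by
    rw [h1 (qq k) (ph k) r hT hP hr]
    have h0 : (2 * (k : ℤ) - 1) ≠ -(2 * (k : ℤ) - 1) := by omega
    refine le_trans ?_ (ENNReal.sum_le_tsum ({2 * (k : ℤ) - 1, -(2 * (k : ℤ) - 1)} : Finset ℤ))
    rw [Finset.sum_pair h0, two_mul]
    have hc1 : (((2 * (k : ℤ) - 1 : ℤ)) : ℝ) = 2 * (k : ℝ) - 1 := by push_cast; ring
    have hc2 : |(((2 * (k : ℤ) - 1 : ℤ)) : ℝ)| = 2 * (k : ℝ) - 1 := by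
      rw [hc1]
      exact abs_of_nonneg (by linarith)
    have hc3 : |((-(2 * (k : ℤ) - 1) : ℤ) : ℝ)| = 2 * (k : ℝ) - 1 := by
      rw [Int.cast_neg, abs_neg, hc2]
    have h3' : ph k (2 * (k : ℤ) - 1) = 1 / 2 := by
      unfold ph
      rw [if_pos (Or.inl rfl)]
    have h4' : ph k (-(2 * (k : ℤ) - 1)) = 1 / 2 := by
      unfold ph
      rw [if_pos (Or.inr rfl)]
    have hk1 : (((k - 1 : ℕ)) : ℤ) = (k : ℤ) - 1 := by omega
    rw [h2 (qq k) hT (k - 1) (2 * (k : ℤ) - 1) (Or.inl (by rw [hk1]; ring)),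
      h2 (qq k) hT (k - 1) (-(2 * (k : ℤ) - 1)) (Or.inr (by rw [hk1]; ring)), hc2, hc3, h3', h4']
    have hT' := T_ge k hk
    gcongr
  -- the quotient
  have hq : ENNReal.ofReal (g k r) ≤ jump r (qq k) (ph k) / mom r (qq k) := by
    rw [ENNReal.le_div_iff_mul_le]
    · refine le_trans ?_ hj
      rw [hm]
      have e2 : (2 : ENNReal) = ENNReal.ofReal 2 := by norm_num
      have hg : 0 ≤ g k r := by
        unfold g
        have : (0 : ℝ) ≤ 2 * (k : ℝ) - 1 := by linarith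
        positivity
      rw [e2, ← ENNReal.ofReal_mul (by norm_num), ← ENNReal.ofReal_mul hg,
        ← ENNReal.ofReal_mul (by norm_num), ← ENNReal.ofReal_mul hA,
        ← ENNReal.ofReal_mul (by norm_num)]
      apply ENNReal.ofReal_le_ofReal
      unfold g
      apply le_of_eq
      field_simp
    · left
      rw [hm]
      simp only [ne_eq, mul_eq_zero, OfNat.ofNat_ne_zero, ENNReal.ofReal_eq_zero, not_le, false_or]
      exact hB
    · left
      exact hmtop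
  refine le_trans hq ?_
  unfold s
  exact le_iSup_of_le (qq k) (le_iSup_of_le (ph k) (le_iSup_of_le hT (le_iSup_of_le hP
    (le_iSup_of_le hmtop le_rfl))))

end Pool.Agent.Q76.MH_UNIF
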