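import Pool.Agent.Q88.MT.Stm

/-! Project MT (MP_0b6044_an), job BAN. -/

set_option autoImplicit false

open Set Filter Topology
open scoped ENNReal NNReal

noncomputable section

namespace Pool.Agent.Q76.MTB

open Pool.Agent.Q88.MT

/-- the Hilbert space -/
abbrev H (n : ℕ) : Type := lp (fun _ : X n => ℂ) 2

theorem sq_iff {n : ℕ} (u : X n → ℂ) : Memℓp (E := fun _ : X n => ℂ) u 2 ↔ Sq u := by
  rw [memℓp_gen_iff (by norm_num)]
  unfold Sq
  simp only [ENNReal.toReal_ofNat, Real.rpow_two]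

theorem norm_eq {n : ℕ} (f : H n) : ‖f‖ = nn (f : X n → ℂ) := by
  rw [lp.norm_eq_tsum_rpow (by norm_num)]
  unfold nn
  rw [Real.sqrt_eq_rpow]
  simp only [ENNReal.toReal_ofNat, Real.rpow_two]

/-- the subspace -/
def N (n : ℕ) (b : Bool) : Submodule ℂ (H n) where
  carrier := {f | ∀ (π : Equiv.Perm (Fin n)) (x : X n), f (fun j => x (π j)) = chi b π * f x}
  add_mem' := by
    intro f g hf hg π x
    show f (fun j => x (π j)) + g (fun j => x (π j)) = chi b π * (f x + g x)
    rw [hf, hg]; ring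
  zero_mem' := by
    intro π x
    show (0 : ℂ) = chi b π * 0
    ring
  smul_mem' := by
    intro c f hf π x
    show c * f (fun j => x (π j)) = chi b π * (c * f x)
    rw [hf]; ring

theorem mem_N {n : ℕ} {b : Bool} {f : H n} : f ∈ N n b ↔ (f : X n → ℂ) ∈ M n b :=
  ⟨fun h => ⟨(sq_iff _).1 (lp.memℓp f), h⟩, fun h => h.2⟩

theorem closed_N (n : ℕ) (b : Bool) : IsClosed (N n b : Set (H n)) := by
  have h : (N n b : Set (H n)) = ⋂ (π : Equiv.Perm (Fin n)), ⋂ (x : X n),
      {f : H n | f (fun j => x (π j)) = chi b π * f x} := by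
    ext f
    simp only [mem_iInter]
    exact Iff.rfl
  rw [h]
  refine isClosed_iInter fun π => isClosed_iInter fun x => ?_
  have hc : ∀ y : X n, Continuous fun f : H n => f y := fun y =>
    (lp.evalCLM ℂ (fun _ : X n => ℂ) 2 y).continuous
  exact isClosed_eq (hc _) (continuous_const.mul (hc x))

section

variable {n : ℕ} {k : Fin n → ℤ} {b : Bool} {l : ℂ}

theorem A_mem (h2 : S_inv) {u : X n → ℂ} (hu : u ∈ M n b) :
    (fun y => T k u y - l * u y) ∈ M n b := by
  have h := (h2 n k b).2.2 (T k u) ((h2 n k b).1 u hu) u hu (-l)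
  have e : (fun x => T k u x + -l * u x) = fun y => T k u y - l * u y := by
    funext y; ring
  rwa [e] at h

theorem A_bd (h : S_bas) (h1 : S_bdd) {u : X n → ℂ} (hu : Sq u) :
    nn (fun y => T k u y - l * u y) ≤ (1 + ‖l‖) * nn u := by
  obtain ⟨ha, hb⟩ := h1 n k u hu
  obtain ⟨hc, hd⟩ := (h n).2.1 (-l) u hu
  have he := ((h n).1 _ _ ha hc).2
  have e : (fun x => T k u x + -l * u x) = fun y => T k u y - l * u y := by
    funext y; ring
  rw [e, hd, norm_neg] at he
  linarith

theorem T_zero : T k (fun _ => (0 : ℂ)) = fun _ => 0 := by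
  funext y
  unfold T W
  simp

theorem T_add (h2 : S_inv) (u v : X n → ℂ) :
    T k (fun x => u x + v x) = fun y => T k u y + T k v y := by
  have h := (h2 n k false).2.1 u v 1
  simpa only [one_mul] using h

theorem T_smul (h2 : S_inv) (c : ℂ) (v : X n → ℂ) :
    T k (fun x => c * v x) = fun y => c * T k v y := by
  have h := (h2 n k false).2.1 (fun _ => 0) v c
  simpa only [zero_add, T_zero] using h

/-- the operator `T k - l` on the subspace -/
def opA (h2 : S_inv) (n : ℕ) (k : Fin n → ℤ) (b : Bool) (l : ℂ) : N n b →ₗ[ℂ] N n b where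
  toFun f := ⟨⟨fun y => T k (f : H n) y - l * (f : H n) y,
    (sq_iff _).2 (A_mem h2 (mem_N.1 f.2)).1⟩, mem_N.2 (A_mem h2 (mem_N.1 f.2))⟩
  map_add' f g := by
    apply Subtype.ext
    apply Subtype.ext
    funext y
    show T k (fun x => ((f : H n) x + (g : H n) x)) y - l * ((f : H n) y + (g : H n) y) =
      (T k (f : H n) y - l * (f : H n) y) + (T k (g : H n) y - l * (g : H n) y)
    rw [T_add h2]
    ring
  map_smul' c f := by
    apply Subtype.ext
    apply Subtype.ext
    funext y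
    show T k (fun x => c * (f : H n) x) y - l * (c * (f : H n) y) =
      c * (T k (f : H n) y - l * (f : H n) y)
    rw [T_smul h2]
    ring

end

theorem ban (h : S_bas) (h1 : S_bdd) (h2 : S_inv) : S_ban := by
  intro n k b l hl
  have hbij : ∀ v ∈ M n b, ∃! u : X n → ℂ, u ∈ M n b ∧ (fun y => T k u y - l * u y) = v := by
    by_contra hcon
    exact hl hcon
  have : CompleteSpace (N n b) := (closed_N n b).completeSpace_coe
  let A : N n b →L[ℂ] N n b := (opA h2 n k b l).mkContinuous (1 + ‖l‖) (by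
    intro f
    show ‖((opA h2 n k b l f : N n b) : H n)‖ ≤ (1 + ‖l‖) * ‖(f : H n)‖
    rw [norm_eq, norm_eq]
    exact A_bd h h1 (mem_N.1 f.2).1)
  have hA : ∀ f : N n b, ((A f : N n b) : H n) = (⟨fun y => T k (f : H n) y - l * (f : H n) y,
    (sq_iff _).2 (A_mem h2 (mem_N.1 f.2)).1⟩ : H n) := fun f => rfl
  have hinj : Function.Injective A := by
    intro f g hfg
    have h3 : (fun y => T k (f : H n) y - l * (f : H n) y) =
        fun y => T k (g : H n) y - l * (g : H n) y :=
      congrArg (fun F : N n b => ((F : H n) : X n → ℂ)) hfg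
    obtain ⟨u, _, hu⟩ := hbij _ (A_mem (k := k) (l := l) h2 (mem_N.1 g.2))
    have h4 := hu _ ⟨mem_N.1 f.2, h3⟩
    have h5 := hu _ ⟨mem_N.1 g.2, rfl⟩
    exact Subtype.ext (Subtype.ext (h4.trans h5.symm))
  have hsurj : Function.Surjective A := by
    intro g
    obtain ⟨u, ⟨hu, hug⟩, _⟩ := hbij _ (mem_N.1 g.2)
    refine ⟨⟨⟨u, (sq_iff u).2 hu.1⟩, mem_N.2 hu⟩, ?_⟩
    exact Subtype.ext (Subtype.ext hug)
  obtain ⟨K, hK⟩ := A.antilipschitz_of_injective_of_isClosed_range hinj (by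
    rw [hsurj.range_eq]; exact isClosed_univ)
  refine ⟨K + 1, by positivity, ?_⟩
  intro u hu
  have h3 := A.bound_of_antilipschitz hK ⟨⟨u, (sq_iff u).2 hu.1⟩, mem_N.2 hu⟩
  have h4 : ‖(⟨u, (sq_iff u).2 hu.1⟩ : H n)‖ ≤
      K * ‖(⟨fun y => T k u y - l * u y, (sq_iff _).2 (A_mem h2 hu).1⟩ : H n)‖ := h3
  rw [norm_eq, norm_eq] at h4
  have h5 : nn u ≤ K * nn (fun y => T k u y - l * u y) := h4
  have h6 : 0 ≤ nn (fun y => T k u y - l * u y) := Real.sqrt_nonneg _
  linarith

end Pool.Agent.Q76.MTB
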