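import Pool.Agent.Q76.NdFourier

/-!
# The node formula: a nonharmonic cosine series
-/

namespace Q76.Nd

open Real Set MeasureTheory Polynomial Polynomial.Chebyshev Filter Topology

/-- Cosine polynomials of degree at most `N`. -/
def CosPoly (N : ℕ) (h : ℝ → ℝ) : Prop :=
  ∃ a : ℕ → ℝ, ∀ θ, h θ = ∑ k ∈ Finset.range (N + 1), a k * Real.cos (k * θ)

lemma CosPoly.add {N : ℕ} {f g : ℝ → ℝ} (hf : CosPoly N f) (hg : CosPoly N g) :
    CosPoly N (fun θ => f θ + g θ) := by
  obtain ⟨a, ha⟩ := hf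
  obtain ⟨b, hb⟩ := hg
  refine ⟨fun k => a k + b k, fun θ => ?_⟩
  simp only [ha, hb, add_mul, Finset.sum_add_distrib]

lemma CosPoly.smul {N : ℕ} {f : ℝ → ℝ} (c : ℝ) (hf : CosPoly N f) :
    CosPoly N (fun θ => c * f θ) := by
  obtain ⟨a, ha⟩ := hf
  refine ⟨fun k => c * a k, fun θ => ?_⟩
  simp only [ha, Finset.mul_sum, mul_assoc]

lemma CosPoly.single {N k : ℕ} (hk : k ≤ N) : CosPoly N (fun θ => Real.cos (k * θ)) := by
  refine ⟨fun j => if j = k then 1 else 0, fun θ => ?_⟩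
  rw [Finset.sum_eq_single k]
  · simp
  · intro j _ hj
    simp [hj]
  · intro h
    exact absurd (Finset.mem_range.2 (by omega)) h

lemma CosPoly.zero (N : ℕ) : CosPoly N (fun _ => 0) := ⟨fun _ => 0, fun θ => by simp⟩

lemma CosPoly.sum {N : ℕ} {ι : Type*} (s : Finset ι) {f : ι → ℝ → ℝ}
    (hf : ∀ i ∈ s, CosPoly N (f i)) : CosPoly N (fun θ => ∑ i ∈ s, f i θ) := by
  classical
  induction s using Finset.induction_on with
  | empty => simpa using CosPoly.zero N
  | insert i s hi ih =>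
    have h1 := (hf i (Finset.mem_insert_self _ _)).add
      (ih (fun j hj => hf j (Finset.mem_insert_of_mem hj)))
    simpa [Finset.sum_insert hi] using h1

lemma CosPoly.mul_cos {N : ℕ} {f : ℝ → ℝ} (hf : CosPoly N f) :
    CosPoly (N + 1) (fun θ => f θ * Real.cos θ) := by
  obtain ⟨a, ha⟩ := hf
  have h1 : ∀ k ∈ Finset.range (N + 1),
      CosPoly (N + 1) (fun θ => a k * (Real.cos (k * θ) * Real.cos θ)) := by
    intro k hk
    rw [Finset.mem_range] at hk
    refine CosPoly.smul _ ?_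
    rcases Nat.eq_zero_or_pos k with rfl | hk0
    · have := CosPoly.single (N := N + 1) (k := 1) (by omega)
      simpa using this
    · have e : (fun θ => Real.cos (k * θ) * Real.cos θ) =
          fun θ => 1 / 2 * Real.cos ((k + 1 : ℕ) * θ) + 1 / 2 * Real.cos ((k - 1 : ℕ) * θ) := by
        funext θ
        rw [Nat.cast_sub hk0]
        push_cast
        rw [show ((k : ℝ) + 1) * θ = k * θ + θ by ring, show ((k : ℝ) - 1) * θ = k * θ - θ by ring,
          Real.cos_add, Real.cos_sub]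
        ring
      rw [e]
      exact (CosPoly.smul _ (CosPoly.single (by omega))).add
        (CosPoly.smul _ (CosPoly.single (by omega)))
  have h2 := CosPoly.sum _ h1
  convert h2 using 2 with θ
  rw [ha, Finset.sum_mul]
  exact Finset.sum_congr rfl (fun k _ => by ring)

lemma cosPoly_eval : ∀ (N : ℕ) (p : ℝ[X]), p.natDegree ≤ N →
    CosPoly N (fun θ => p.eval (Real.cos θ)) := by
  intro N
  induction N with
  | zero =>
    intro p hp
    have h0 : p = C (p.coeff 0) := eq_C_of_natDegree_le_zero hp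
    rw [h0]
    refine ⟨fun _ => p.coeff 0, fun θ => by simp⟩
  | succ N ih =>
    intro p hp
    have h1 : p.divX.natDegree ≤ N := by
      rw [natDegree_divX_eq_natDegree_tsub_one]; omega
    have h2 := (ih _ h1).mul_cos
    have h3 : CosPoly (N + 1) (fun _ : ℝ => p.coeff 0) := by
      have := CosPoly.smul (p.coeff 0) (CosPoly.single (N := N + 1) (k := 0) (by omega))
      simpa using this
    have h4 := h2.add h3
    convert h4 using 2 with θ
    conv_lhs => rw [← divX_mul_X_add p]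
    simp

/-- The node formula for cosine polynomials. -/
lemma hasSum_cosPoly {N : ℕ} {h : ℝ → ℝ} (hh : CosPoly N h) {δ : ℝ} (hδ : N * |δ| ≤ 1) {D : ℝ}
    (hD : HasDerivAt (fun w => h (δ * w)) D (π / 2)) :
    HasSum (fun n : ℕ => bet n * h (δ * (π * n))) (2 / π * h (δ * (π / 2)) + D) := by
  obtain ⟨a, ha⟩ := hh
  have h1 : HasSum (fun n : ℕ => ∑ k ∈ Finset.range (N + 1),
      a k * (bet n * Real.cos (π * n * (k * δ))))
      (∑ k ∈ Finset.range (N + 1), a k * prof (k * δ)) := by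
    refine hasSum_sum (fun k hk => ?_)
    refine (hasSum_prof ?_).mul_left (a k)
    rw [Finset.mem_range] at hk
    rw [abs_mul, Nat.abs_cast]
    refine le_trans (mul_le_mul_of_nonneg_right ?_ (abs_nonneg _)) hδ
    exact_mod_cast (by omega : k ≤ N)
  have h2 : HasDerivAt (fun w => h (δ * w))
      (∑ k ∈ Finset.range (N + 1), a k * (-Real.sin (k * (δ * (π / 2))) * (k * (δ * 1))))
      (π / 2) := by
    have e : (fun w => h (δ * w)) = fun w => ∑ k ∈ Finset.range (N + 1),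
        a k * Real.cos (k * (δ * w)) := by
      funext w; rw [ha]
    rw [e]
    refine HasDerivAt.fun_sum (fun k _ => ?_)
    exact ((((hasDerivAt_id' (π / 2)).const_mul δ).const_mul (k : ℝ)).cos).const_mul (a k)
  have h3 := hD.unique h2
  convert h1 using 1
  · funext n
    rw [ha, Finset.mul_sum]
    refine Finset.sum_congr rfl (fun k _ => ?_)
    rw [show (k : ℝ) * (δ * (π * n)) = π * n * (k * δ) by ring]
    ring
  · rw [h3, ha, Finset.mul_sum, ← Finset.sum_add_distrib]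
    refine Finset.sum_congr rfl (fun k _ => ?_)
    rw [prof, show π / 2 * ((k : ℝ) * δ) = k * (δ * (π / 2)) by ring]
    ring

/-- The approximating polynomials. -/
noncomputable def hN (ξ : ℝ) (N : ℕ) (w : ℝ) : ℝ :=
  (T ℝ N).eval (Real.cos (ξ / N * w) + (1 - Real.cos (ξ / N * (π / 2))))

lemma hasSum_hN {ξ : ℝ} (hξ : |ξ| ≤ 1) {N : ℕ} (hN0 : 0 < N) :
    HasSum (fun n : ℕ => bet n * hN ξ N (π * n))
      (2 / π - ξ * (N * Real.sin (ξ * (π / 2) / N))) := by
  have hN' : (0 : ℝ) < N := by exact_mod_cast hN0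
  set κ := 1 - Real.cos (ξ / N * (π / 2)) with hκ
  have hp : ((T ℝ N).comp (X + C κ)).natDegree ≤ N := by
    refine natDegree_comp_le.trans ?_
    rw [natDegree_X_add_C, mul_one]
    have := natDegree_T ℝ (N : ℤ)
    rw [this]; simp
  have h1 := cosPoly_eval N _ hp
  have h2 : (fun θ => ((T ℝ N).comp (X + C κ)).eval (Real.cos θ)) =
      fun θ => (T ℝ N).eval (Real.cos θ + κ) := by
    funext θ; simp [eval_comp]
  rw [h2] at h1
  have hin : HasDerivAt (fun w => Real.cos (ξ / N * w) + κ)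
      (-Real.sin (ξ / N * (π / 2)) * (ξ / N * 1)) (π / 2) :=
    (((hasDerivAt_id' (π / 2)).const_mul (ξ / N)).cos).add_const κ
  have hval : Real.cos (ξ / N * (π / 2)) + κ = 1 := by rw [hκ]; ring
  have hout : HasDerivAt (fun y => (T ℝ N).eval y) ((derivative (T ℝ N)).eval 1)
      (Real.cos (ξ / N * (π / 2)) + κ) := by
    rw [hval]; exact Polynomial.hasDerivAt _ _
  have hD := hout.comp (π / 2) hin
  have h3 := hasSum_cosPoly h1 (δ := ξ / N) (by
    rw [abs_div, Nat.abs_cast, mul_div_assoc', mul_comm, mul_div_assoc, div_self hN'.ne', mul_one]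
    exact hξ) hD
  have h5 : 2 / π - ξ * (N * Real.sin (ξ * (π / 2) / N)) =
      2 / π * eval (Real.cos (ξ / N * (π / 2)) + κ) (T ℝ N) +
      eval 1 (derivative (T ℝ N)) * (-Real.sin (ξ / N * (π / 2)) * (ξ / N * 1)) := ?_
  · rw [h5]; exact h3
  rw [hval, T_eval_one, T_derivative_eq_U]
  rw [eval_mul]
  have e1 : (U ℝ ((N : ℤ) - 1)).eval 1 = N := by
    rw [U_eval_one]; push_cast; ring
  rw [e1]
  have e2 : ξ * (π / 2) / N = ξ / N * (π / 2) := by ring
  rw [e2]
  simp only [Int.cast_natCast, eval_natCast]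
  field_simp
  ring

lemma tendsto_mul_sin (c : ℝ) :
    Tendsto (fun N : ℕ => (N : ℝ) * Real.sin (c / N)) atTop (𝓝 c) := by
  have h1 : Tendsto (fun N : ℕ => c / (N : ℝ)) atTop (𝓝 0) :=
    tendsto_const_div_atTop_nhds_zero_nat c
  have h2 : Tendsto (fun N : ℕ => c * Real.sinc (c / N)) atTop (𝓝 (c * 1)) := by
    refine Tendsto.const_mul c ?_
    have := (Real.continuous_sinc.tendsto 0).comp h1
    rwa [Real.sinc_zero] at this
  rw [mul_one] at h2
  refine h2.congr' ?_
  filter_upwards [eventually_gt_atTop 0] with N hN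
  have hN' : (0 : ℝ) < N := by exact_mod_cast hN
  rcases eq_or_ne c 0 with rfl | hc
  · simp
  · rw [Real.sinc_of_ne_zero (div_ne_zero hc hN'.ne')]
    field_simp

lemma tendsto_mul_arcsin {s : ℕ → ℝ} {L : ℝ}
    (hs : Tendsto (fun N : ℕ => (N : ℝ) * s N) atTop (𝓝 L)) :
    Tendsto (fun N : ℕ => (N : ℝ) * Real.arcsin (s N)) atTop (𝓝 L) := by
  have h0 : Tendsto s atTop (𝓝 0) := by
    have h1 : Tendsto (fun N : ℕ => (N : ℝ) * s N * (1 / (N : ℝ))) atTop (𝓝 (L * 0)) :=
      hs.mul tendsto_one_div_atTop_nhds_zero_nat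
    rw [mul_zero] at h1
    refine h1.congr' ?_
    filter_upwards [eventually_gt_atTop 0] with N hN
    have hN' : (0 : ℝ) < N := by exact_mod_cast hN
    field_simp
  have hd : HasDerivAt Real.arcsin 1 0 := by
    have := Real.hasDerivAt_arcsin (x := 0) (by norm_num) (by norm_num)
    simpa using this
  rw [hasDerivAt_iff_isLittleO_nhds_zero] at hd
  have h2 := hd.comp_tendsto h0
  have h3 : (fun N : ℕ => (N : ℝ) * (Real.arcsin (s N) - s N)) =o[atTop]
      (fun N : ℕ => (N : ℝ) * s N) := by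
    refine (Asymptotics.isBigO_refl (fun N : ℕ => (N : ℝ)) atTop).mul_isLittleO ?_
    refine h2.congr (fun N => ?_) (fun N => rfl)
    simp
  have h4 : (fun N : ℕ => (N : ℝ) * (Real.arcsin (s N) - s N)) =o[atTop]
      (fun _ : ℕ => (1 : ℝ)) := h3.trans_isBigO (hs.isBigO_one ℝ)
  rw [Asymptotics.isLittleO_one_iff] at h4
  have h5 := h4.add hs
  rw [zero_add] at h5
  refine h5.congr (fun N => ?_)
  ring

/-- The nodes. -/
noncomputable def nd (n : ℕ) : ℝ := π * √((n : ℝ) ^ 2 - 1 / 4)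

lemma tendsto_hN {ξ : ℝ} (hξ : 0 ≤ ξ) {n : ℕ} (hn : 0 < n) :
    Tendsto (fun N : ℕ => hN ξ N (π * n)) atTop (𝓝 (Real.cos (ξ * nd n))) := by
  have hn' : (1 : ℝ) ≤ n := by exact_mod_cast hn
  have hπ := Real.pi_pos
  set c1 := ξ * (π * n + π / 2) / 2 with hc1
  set c2 := ξ * (π * n - π / 2) / 2 with hc2
  have hc1' : 0 ≤ c1 := by positivity
  have hc2' : 0 ≤ c2 := by
    have : 0 ≤ π * n - π / 2 := by nlinarith
    positivity
  have hA : Tendsto (fun N : ℕ => ((N : ℝ) * Real.sin (c1 / N)) * ((N : ℝ) * Real.sin (c2 / N)))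
      atTop (𝓝 (c1 * c2)) := (tendsto_mul_sin c1).mul (tendsto_mul_sin c2)
  have hS : Tendsto (fun N : ℕ => (N : ℝ) * √(Real.sin (c1 / N) * Real.sin (c2 / N))) atTop
      (𝓝 (√(c1 * c2))) := by
    refine ((Real.continuous_sqrt.tendsto _).comp hA).congr (fun N => ?_)
    simp only [Function.comp]
    rw [show (N : ℝ) * Real.sin (c1 / N) * ((N : ℝ) * Real.sin (c2 / N)) =
      (N : ℝ) ^ 2 * (Real.sin (c1 / N) * Real.sin (c2 / N)) by ring,
      Real.sqrt_mul (sq_nonneg _), Real.sqrt_sq (Nat.cast_nonneg _)]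
  have hB := (tendsto_mul_arcsin hS).const_mul 2
  have hlim : 2 * √(c1 * c2) = ξ * nd n := by
    rw [nd]
    have e : c1 * c2 = (ξ * π / 2) ^ 2 * ((n : ℝ) ^ 2 - 1 / 4) := by rw [hc1, hc2]; ring
    rw [e, Real.sqrt_mul (sq_nonneg _), Real.sqrt_sq (by positivity)]
    ring
  rw [hlim] at hB
  have hC := (Real.continuous_cos.tendsto _).comp hB
  refine hC.congr' ?_
  have hz1 : Tendsto (fun N : ℕ => c1 / (N : ℝ)) atTop (𝓝 0) :=
    tendsto_const_div_atTop_nhds_zero_nat c1
  have hz2 : Tendsto (fun N : ℕ => c2 / (N : ℝ)) atTop (𝓝 0) :=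
    tendsto_const_div_atTop_nhds_zero_nat c2
  filter_upwards [eventually_gt_atTop 0, hz1.eventually (gt_mem_nhds hπ),
    hz2.eventually (gt_mem_nhds hπ)] with N hN0 hN1 hN2
  have hN' : (0 : ℝ) < N := by exact_mod_cast hN0
  have s1 : 0 ≤ Real.sin (c1 / N) := Real.sin_nonneg_of_nonneg_of_le_pi (by positivity) hN1.le
  have s2 : 0 ≤ Real.sin (c2 / N) := Real.sin_nonneg_of_nonneg_of_le_pi (by positivity) hN2.le
  have s3 : Real.sin (c1 / N) * Real.sin (c2 / N) ≤ 1 := by
    have := Real.sin_le_one (c1 / N)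
    have := Real.sin_le_one (c2 / N)
    nlinarith
  simp only [Function.comp]
  rw [show 2 * ((N : ℝ) * Real.arcsin √(Real.sin (c1 / N) * Real.sin (c2 / N))) =
    ((N : ℤ) : ℝ) * (2 * Real.arcsin √(Real.sin (c1 / N) * Real.sin (c2 / N))) by push_cast; ring,
    ← T_real_cos, hN]
  congr 1
  rw [Real.cos_two_mul, Real.cos_sq', Real.sin_arcsin (by
    have := Real.sqrt_nonneg (Real.sin (c1 / N) * Real.sin (c2 / N)); linarith) (by
    rw [Real.sqrt_le_left (by norm_num : (0 : ℝ) ≤ 1)]; linarith), Real.sq_sqrt (mul_nonneg s1 s2)]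
  have e1 : ξ / N * (π * n) = c1 / N + c2 / N := by rw [hc1, hc2]; ring
  have e2 : ξ / N * (π / 2) = c1 / N - c2 / N := by rw [hc1, hc2]; ring
  rw [e1, e2, Real.cos_add, Real.cos_sub]
  ring

lemma abs_hN_le {ξ : ℝ} (hξ : |ξ| ≤ 1) {N : ℕ} (hN0 : 0 < N) (w : ℝ) :
    |hN ξ N w| ≤ Real.cosh (π / 2) := by
  have hN' : (0 : ℝ) < N := by exact_mod_cast hN0
  have hπ := Real.pi_pos
  rw [hN]
  set y := Real.cos (ξ / N * w) + (1 - Real.cos (ξ / N * (π / 2))) with hy
  have hlow : -1 ≤ y := by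
    have h1 := Real.neg_one_le_cos (ξ / N * w)
    have h2 := Real.cos_le_one (ξ / N * (π / 2))
    linarith
  rcases le_total y 1 with h | h
  · exact (abs_eval_T_real_le_one _ (abs_le.2 ⟨hlow, h⟩)).trans (Real.one_le_cosh _)
  · set ψ := Real.arcosh y with hψ
    have hψ0 : 0 ≤ ψ := Real.arcosh_nonneg h
    have hc : Real.cosh ψ = y := Real.cosh_arcosh h
    rw [← hc, T_real_cosh, abs_of_pos (Real.cosh_pos _)]
    have h1 : Real.cosh ψ - 1 = 2 * Real.sinh (ψ / 2) ^ 2 := by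
      have := Real.cosh_two_mul (ψ / 2)
      have h2 := Real.cosh_sq (ψ / 2)
      rw [mul_div_cancel₀ _ (two_ne_zero)] at this
      rw [this, h2]; ring
    have h2 : ψ / 2 ≤ Real.sinh (ψ / 2) := Real.self_le_sinh_iff.2 (by positivity)
    have h3 : ψ ^ 2 / 2 ≤ y - 1 := by
      rw [← hc, h1]
      nlinarith
    have h4 : y - 1 ≤ (ξ / N * (π / 2)) ^ 2 / 2 := by
      have h5 := Real.cos_le_one (ξ / N * w)
      have h6 := Real.one_sub_sq_div_two_le_cos (x := ξ / N * (π / 2))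
      rw [hy]; linarith
    have h7 : ψ ^ 2 ≤ (ξ / N * (π / 2)) ^ 2 := by linarith
    have h8 : ψ ≤ |ξ / N * (π / 2)| := by
      rw [← abs_of_nonneg hψ0]; exact sq_le_sq.1 h7
    rw [Real.cosh_le_cosh]
    rw [abs_mul, abs_of_nonneg hψ0, abs_of_pos (by positivity : 0 < π / 2)]
    have h9 : |ξ / N * (π / 2)| ≤ 1 / N * (π / 2) := by
      rw [abs_mul, abs_div, Nat.abs_cast, abs_of_pos (by positivity : 0 < π / 2)]
      gcongr
    have h10 : |((N : ℤ) : ℝ)| = N := by push_cast; exact Nat.abs_cast N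
    rw [h10]
    calc (N : ℝ) * ψ ≤ N * (1 / N * (π / 2)) := by gcongr; exact h8.trans h9
      _ = π / 2 := by field_simp

theorem node_series_nonneg {ξ : ℝ} (h0 : 0 ≤ ξ) (hξ : ξ ≤ 1) :
    HasSum (fun n : ℕ => bet n * Real.cos (ξ * nd n)) (2 / π - π / 2 * ξ ^ 2) := by
  have hξ' : |ξ| ≤ 1 := abs_le.2 ⟨by linarith, hξ⟩
  have hS : Summable (fun n : ℕ => bet n * Real.cos (ξ * nd n)) := by
    refine Summable.of_norm_bounded bet_summable (fun n => ?_)
    rw [Real.norm_eq_abs, abs_mul]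
    exact mul_le_of_le_one_right (abs_nonneg _) (Real.abs_cos_le_one _)
  have h1 : Tendsto (fun N : ℕ => ∑' n : ℕ, bet n * hN ξ N (π * n)) atTop
      (𝓝 (∑' n : ℕ, bet n * Real.cos (ξ * nd n))) := by
    refine tendsto_tsum_of_dominated_convergence
      (bound := fun n => |bet n| * Real.cosh (π / 2)) (bet_summable.mul_right _) (fun n => ?_) ?_
    · rcases Nat.eq_zero_or_pos n with rfl | hn
      · have : bet 0 = 0 := by simp [bet]
        simp [this]
      · exact (tendsto_hN h0 hn).const_mul _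
    · filter_upwards [eventually_gt_atTop 0] with N hN0 n
      rw [Real.norm_eq_abs, abs_mul]
      exact mul_le_mul_of_nonneg_left (abs_hN_le hξ' hN0 _) (abs_nonneg _)
  have h2 : Tendsto (fun N : ℕ => ∑' n : ℕ, bet n * hN ξ N (π * n)) atTop
      (𝓝 (2 / π - ξ * (ξ * (π / 2)))) := by
    have h3 : Tendsto (fun N : ℕ => 2 / π - ξ * ((N : ℝ) * Real.sin (ξ * (π / 2) / N))) atTop
        (𝓝 (2 / π - ξ * (ξ * (π / 2)))) :=
      ((tendsto_mul_sin (ξ * (π / 2))).const_mul ξ).const_sub _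
    refine h3.congr' ?_
    filter_upwards [eventually_gt_atTop 0] with N hN0
    exact ((hasSum_hN hξ' hN0).tsum_eq).symm
  have h4 := tendsto_nhds_unique h1 h2
  rw [show 2 / π - π / 2 * ξ ^ 2 = 2 / π - ξ * (ξ * (π / 2)) by ring, ← h4]
  exact hS.hasSum

/-- **The nonharmonic cosine series.** -/
theorem node_series {ξ : ℝ} (hξ : |ξ| ≤ 1) :
    HasSum (fun n : ℕ => bet n * Real.cos (ξ * nd n)) (2 / π - π / 2 * ξ ^ 2) := by
  have h := node_series_nonneg (abs_nonneg ξ) hξ
  rw [sq_abs] at h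
  convert h using 2 with n
  rcases abs_choice ξ with h1 | h1
  · rw [h1]
  · rw [h1, neg_mul, Real.cos_neg]

/-- The total mass of the coefficients. -/
theorem tsum_abs_bet : HasSum (fun n : ℕ => |bet n|) 1 := by
  have h := hasSum_prof (t := 1) (by norm_num)
  have h1 := h.neg
  have e : -prof 1 = 1 := by norm_num [prof]
  rw [e] at h1
  refine h1.congr_fun (fun n => ?_)
  rw [mul_one, show π * (n : ℝ) = n * π by ring, Real.cos_nat_mul_pi, bet]
  rw [abs_mul, abs_of_pos (by positivity : (0 : ℝ) < 64 / π ^ 2), abs_div, abs_mul, abs_pow,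
    abs_neg, abs_one, one_pow, one_mul, abs_of_nonneg (by positivity),
    abs_of_nonneg (by positivity)]
  have : ((-1 : ℝ) ^ (n + 1)) * (-1) ^ n = -1 := by
    rw [pow_succ]
    have h2 : ((-1 : ℝ) ^ n) * (-1) ^ n = 1 := by
      rw [← mul_pow]; norm_num
    linear_combination -h2
  linear_combination (64 / π ^ 2 * ((n : ℝ) ^ 2 / (4 * (n : ℝ) ^ 2 - 1) ^ 2)) * this

lemma bet_sign (n : ℕ) : bet n = (-1) ^ (n + 1) * |bet n| := by
  rw [bet, abs_mul, abs_of_pos (by positivity : (0 : ℝ) < 64 / π ^ 2), abs_div, abs_mul, abs_pow,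
    abs_neg, abs_one, one_pow, one_mul, abs_of_nonneg (by positivity),
    abs_of_nonneg (by positivity)]
  ring

lemma bet_ne {n : ℕ} (hn : 0 < n) : bet n ≠ 0 := by
  have h1 := four_sub_neN n
  have h2 : (n : ℝ) ≠ 0 := by exact_mod_cast hn.ne'
  rw [bet]
  have := Real.pi_ne_zero
  positivity

end Q76.Nd
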