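import Mathlib

/-!
# Definitions: functions on the plane with spectrum in the unit disc
-/

namespace Q76.Nd

open MeasureTheory
open scoped ContDiff

/-- The Fourier integral `∫ e^{-i(ξ,x)} ψ(ξ) dξ` of a function on the plane. -/
noncomputable def fourierInt (ψ : EuclideanSpace ℝ (Fin 2) → ℂ) (x : EuclideanSpace ℝ (Fin 2)) :
    ℂ := ∫ ξ : EuclideanSpace ℝ (Fin 2), Complex.exp (-(Complex.I * ((inner ℝ ξ x : ℝ) : ℂ))) * ψ ξ

/-- The space `B(K_2)`: bounded continuous functions on the plane whose Fourier transform, as a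
(tempered) distribution, is supported in the closed Euclidean unit disc. The distributional Fourier
transform of `f` is `ψ ↦ ∫ f * fourierInt ψ`; it has to vanish on the test functions supported
off the disc. -/
def InB (f : EuclideanSpace ℝ (Fin 2) → ℂ) : Prop :=
  Continuous f ∧ (∃ C : ℝ, ∀ x, ‖f x‖ ≤ C) ∧
    ∀ ψ : EuclideanSpace ℝ (Fin 2) → ℂ, ContDiff ℝ ∞ ψ → HasCompactSupport ψ →
      Disjoint (tsupport ψ) (Metric.closedBall 0 1) → ∫ x, f x * fourierInt ψ x = 0

/-- The partial derivative in the coordinate `j`. -/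
noncomputable def pd (j : Fin 2) (f : EuclideanSpace ℝ (Fin 2) → ℂ)
    (x : EuclideanSpace ℝ (Fin 2)) : ℂ := fderiv ℝ f x (EuclideanSpace.single j 1)

/-- The mixed second derivative `∂²/∂x₁∂x₂`. -/
noncomputable def mixed (f : EuclideanSpace ℝ (Fin 2) → ℂ) : EuclideanSpace ℝ (Fin 2) → ℂ :=
  pd 0 (pd 1 f)

/-- The diagonal unit vector `(1, 1)/√2`. -/
noncomputable def diagU : EuclideanSpace ℝ (Fin 2) :=
  (√2)⁻¹ • (EuclideanSpace.single 0 1 + EuclideanSpace.single 1 1)

/-- The diagonal unit vector `(1, -1)/√2`. -/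
noncomputable def diagV : EuclideanSpace ℝ (Fin 2) :=
  (√2)⁻¹ • (EuclideanSpace.single 0 1 - EuclideanSpace.single 1 1)

/-- The function `(cos|x - (π/2)u| + cos|x + (π/2)u| - cos|x - (π/2)v| - cos|x + (π/2)v|)/2`. -/
noncomputable def extremal (x : EuclideanSpace ℝ (Fin 2)) : ℂ :=
  (((Real.cos ‖x - (Real.pi / 2) • diagU‖ + Real.cos ‖x + (Real.pi / 2) • diagU‖
    - Real.cos ‖x - (Real.pi / 2) • diagV‖ - Real.cos ‖x + (Real.pi / 2) • diagV‖) / 2 : ℝ) : ℂ)

end Q76.Nd
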