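import Pool.Agent.Q76.NdMain
import Pool.Agent.Q76.NdDefs

/-!
# The norm of the mixed second derivative
-/

namespace Q76.Nd

open Real Set MeasureTheory Filter Topology FourierTransform
open scoped ContDiff

lemma fourierInt_eq (ψ : P2 → ℂ) (x : P2) : fourierInt ψ x = 𝓕 ψ ((2 * π)⁻¹ • x) := by
  rw [fourierInt, Real.fourier_eq']
  congr 1
  funext v
  rw [smul_eq_mul, inner_smul_right]
  congr 2
  have hπ : (π : ℂ) ≠ 0 := by exact_mod_cast Real.pi_ne_zero
  push_cast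
  field_simp

lemma InB.toG {f : P2 → ℂ} (hf : InB f) : InG (fun x => f ((2 * π) • x)) := by
  obtain ⟨hc, ⟨C, hC⟩, ht⟩ := hf
  refine ⟨hc.comp (continuous_const_smul _), ⟨C, fun x => hC _⟩, fun ψ h1 h2 h3 => ?_⟩
  have h4 := ht ψ h1 h2 h3
  have h5 := Measure.integral_comp_smul volume (fun x => f x * fourierInt ψ x) (2 * π)
  rw [h4, smul_zero] at h5
  rw [← h5]
  congr 1
  funext x
  rw [fourierInt_eq, smul_smul, inv_mul_cancel₀ (by positivity), one_smul]

lemma InG.toB {g : P2 → ℂ} (hg : InG g) : InB (fun x => g ((2 * π)⁻¹ • x)) := by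
  obtain ⟨hc, ⟨C, hC⟩, ht⟩ := hg
  refine ⟨hc.comp (continuous_const_smul _), ⟨C, fun x => hC _⟩, fun ψ h1 h2 h3 => ?_⟩
  have h4 := ht ψ h1 h2 h3
  have h5 := Measure.integral_comp_smul volume (fun x => g x * 𝓕 ψ x) (2 * π)⁻¹
  rw [h4, smul_zero] at h5
  rw [← h5]
  congr 1
  funext x
  rw [fourierInt_eq]

lemma mixed_eq (f : P2 → ℂ) : mixed f = T f := rfl

lemma diagU_eq : diagU = du := rfl
lemma diagV_eq : diagV = dw := rfl

lemma D_smul (g : P2 → ℂ) (c : ℝ) (e : P2) :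
    D e (fun x => g (c • x)) = fun x => (c : ℂ) * D e g (c • x) := by
  funext x
  rw [D, fderiv_comp_smul]
  rfl

lemma D_const_mul {h : P2 → ℂ} (hh : ContDiff ℝ ∞ h) (a : ℂ) (e : P2) :
    D e (fun x => a * h x) = fun x => a * D e h x := by
  funext x
  rw [D, fderiv_const_mul (hh.differentiable (by simp) x)]
  rfl

lemma T_smul {g : P2 → ℂ} (hg : ContDiff ℝ ∞ g) (c : ℝ) (y : P2) :
    T (fun x => g (c • x)) y = (c : ℂ) ^ 2 * T g (c • y) := by
  have hsm : ContDiff ℝ ∞ (fun x : P2 => c • x) := contDiff_const_smul c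
  have h1 := D_const_mul (h := fun x => D e2 g (c • x)) ((contDiff_D hg e2).comp hsm) c e1
  rw [T, D_smul, h1, D_smul]
  simp only [T]
  ring

lemma InB.contDiff {f : P2 → ℂ} (hf : InB f) : ContDiff ℝ ∞ f := by
  have h1 := hf.toG.contDiff
  have h2 : f = (fun x => f ((2 * π) • x)) ∘ (fun x => (2 * π)⁻¹ • x) := by
    funext x
    simp only [Function.comp]
    rw [smul_smul, mul_inv_cancel₀ (by positivity), one_smul]
  rw [h2]
  exact h1.comp (contDiff_const_smul _)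

/-- **The node formula.** -/
theorem node_formula {f : P2 → ℂ} (hf : InB f) (y : P2) :
    mixed f y = 1 / (2 * π) * ∑' n, ndsum f 1 y n := by
  have hπ := Real.pi_pos
  have hπ' : (π : ℂ) ≠ 0 := by exact_mod_cast hπ.ne'
  set g : P2 → ℂ := fun x => f ((2 * π) • x) with hg
  have hgG : InG g := hf.toG
  have h1 := node_formula_G hgG ((2 * π)⁻¹ • y)
  have h2 : f = fun x => g ((2 * π)⁻¹ • x) := by
    funext x
    simp only [hg]
    rw [smul_smul, mul_inv_cancel₀ (by positivity), one_smul]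
  have h3 : mixed f y = ((2 * π)⁻¹ : ℝ) ^ 2 * T g ((2 * π)⁻¹ • y) := by
    rw [mixed_eq]
    nth_rewrite 1 [h2]
    rw [T_smul hgG.contDiff]
  rw [h3, h1]
  have h4 : ∀ n, ndsum g (1 / (2 * π)) ((2 * π)⁻¹ • y) n = ndsum f 1 y n := by
    intro n
    simp only [ndsum, hg, smul_add, smul_neg, smul_smul]
    have e1 : 2 * π * (1 / (2 * π) * nd n) = 1 * nd n := by field_simp
    have e2 : 2 * π * (2 * π)⁻¹ = 1 := mul_inv_cancel₀ (by positivity)
    rw [e1, e2, one_smul]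
  simp only [h4]
  push_cast
  field_simp

lemma summable_ndsum {f : P2 → ℂ} {C : ℝ} (hC : ∀ x, ‖f x‖ ≤ C) (y : P2) :
    Summable (ndsum f 1 y) :=
  Summable.of_norm_bounded (bet_summable.mul_right (4 * C)) (fun n => norm_ndsum_le hC 1 y n)

/-- The upper bound. -/
theorem norm_mixed_le {f : P2 → ℂ} (hf : InB f) (h1 : ∀ x, ‖f x‖ ≤ 1) (y : P2) :
    ‖mixed f y‖ ≤ 2 / π := by
  have hπ := Real.pi_pos
  rw [node_formula hf, norm_mul]
  have h2 : ‖∑' n, ndsum f 1 y n‖ ≤ 4 := by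
    have h3 := tsum_of_norm_bounded (tsum_abs_bet.mul_right (4 * 1))
      (fun n => norm_ndsum_le h1 1 y n)
    simpa using h3
  have h4 : ‖(1 / (2 * π) : ℂ)‖ = 1 / (2 * π) := by
    rw [norm_div, norm_mul, Complex.norm_real, Real.norm_eq_abs, abs_of_pos hπ]; simp
  rw [h4]
  calc 1 / (2 * π) * ‖∑' n, ndsum f 1 y n‖ ≤ 1 / (2 * π) * 4 := by gcongr
    _ = 2 / π := by field_simp; ring

/-- The values at the nodes. -/
def Nodes (f : P2 → ℂ) : Prop :=
  ∀ n : ℕ, 1 ≤ n → f (nd n • diagU) = (-1) ^ (n + 1) ∧ f (-(nd n • diagU)) = (-1) ^ (n + 1) ∧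
    f (nd n • diagV) = (-1) ^ n ∧ f (-(nd n • diagV)) = (-1) ^ n

lemma bet_signC (n : ℕ) : (bet n : ℂ) = (-1) ^ (n + 1) * ((|bet n| : ℝ) : ℂ) := by
  have h := bet_sign n
  have h2 : ((bet n : ℝ) : ℂ) = (((-1) ^ (n + 1) * |bet n| : ℝ) : ℂ) := congrArg _ h
  rw [h2]
  push_cast
  ring

lemma mixed_of_nodes {f : P2 → ℂ} (hf : InB f) (hn : Nodes f) : mixed f 0 = 2 / π := by
  have hπ := Real.pi_pos
  have hπ' : (π : ℂ) ≠ 0 := by exact_mod_cast hπ.ne'
  rw [node_formula hf]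
  have h1 : ∀ n, ndsum f 1 0 n = ((4 * |bet n| : ℝ) : ℂ) := by
    intro n
    rcases Nat.eq_zero_or_pos n with rfl | h
    · simp [ndsum, bet]
    · obtain ⟨a1, a2, a3, a4⟩ := hn n h
      rw [diagU_eq] at a1 a2
      rw [diagV_eq] at a3 a4
      rw [ndsum, one_mul, add_zero, add_zero, add_zero, add_zero, a1, a2, a3, a4, bet_signC n]
      push_cast
      have : ((-1 : ℂ) ^ (n + 1)) * ((-1) ^ (n + 1) + (-1) ^ (n + 1) - (-1) ^ n - (-1) ^ n) = 4 := by
        have h2 : ((-1 : ℂ) ^ n) * (-1) ^ n = 1 := by rw [← mul_pow]; norm_num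
        rw [pow_succ]
        linear_combination 4 * h2
      linear_combination ((|bet n| : ℝ) : ℂ) * this
  simp only [h1]
  rw [← Complex.ofReal_tsum, (tsum_abs_bet.mul_left 4).tsum_eq]
  push_cast
  field_simp
  ring

lemma eq_one_of_re {z : ℂ} (h1 : ‖z‖ ≤ 1) (h2 : z.re = 1) : z = 1 := by
  have h3 := Complex.sq_norm z
  rw [Complex.normSq_apply, h2] at h3
  have h4 : ‖z‖ ^ 2 ≤ 1 := by nlinarith [norm_nonneg z]
  have h5 : z.im = 0 := by nlinarith
  exact Complex.ext h2 h5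

lemma nodes_of_mixed {f : P2 → ℂ} (hf : InB f) (h1 : ∀ x, ‖f x‖ ≤ 1)
    (h : mixed f 0 = 2 / π) : Nodes f := by
  have hπ := Real.pi_pos
  have hπ' : (π : ℂ) ≠ 0 := by exact_mod_cast hπ.ne'
  rw [node_formula hf] at h
  have hs := summable_ndsum h1 0
  have h2 : ∑' n, ndsum f 1 0 n = 4 := by
    have : ∑' n, ndsum f 1 0 n = 2 * π * (1 / (2 * π) * ∑' n, ndsum f 1 0 n) := by field_simp
    rw [this, h]; field_simp; norm_num
  have h3 : HasSum (fun n => (ndsum f 1 0 n).re) 4 := by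
    have := Complex.hasSum_re hs.hasSum
    rw [h2] at this
    simpa using this
  have h4 : HasSum (fun n => |bet n| * 4 - (ndsum f 1 0 n).re) 0 := by
    have := (tsum_abs_bet.mul_right 4).sub h3
    simpa using this
  have h5 : ∀ n, 0 ≤ |bet n| * 4 - (ndsum f 1 0 n).re := by
    intro n
    have h6 := norm_ndsum_le h1 1 0 n
    have h7 := Complex.re_le_norm (ndsum f 1 0 n)
    linarith
  have h6 := (hasSum_zero_iff_of_nonneg h5).1 h4
  intro n hn
  have h7 := congrFun h6 n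
  simp only [Pi.zero_apply] at h7
  have hb : 0 < |bet n| := abs_pos.2 (bet_ne hn)
  rw [ndsum, one_mul, add_zero, add_zero, add_zero, add_zero, bet_signC n] at h7
  have e1 : ((-1 : ℂ) ^ (n + 1) * ((|bet n| : ℝ) : ℂ)) * (f (nd n • du) + f (-(nd n • du)) -
      f (nd n • dw) - f (-(nd n • dw))) = ((|bet n| : ℝ) : ℂ) *
      ((-1) ^ (n + 1) * f (nd n • du) + (-1) ^ (n + 1) * f (-(nd n • du)) +
      (-1) ^ n * f (nd n • dw) + (-1) ^ n * f (-(nd n • dw))) := by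
    rw [pow_succ]
    ring
  rw [e1, Complex.re_ofReal_mul] at h7
  have h8 : ((-1) ^ (n + 1) * f (nd n • du) + (-1) ^ (n + 1) * f (-(nd n • du)) +
      (-1) ^ n * f (nd n • dw) + (-1) ^ n * f (-(nd n • dw))).re = 4 := by
    have : |bet n| * (4 - ((-1) ^ (n + 1) * f (nd n • du) + (-1) ^ (n + 1) * f (-(nd n • du)) +
      (-1) ^ n * f (nd n • dw) + (-1) ^ n * f (-(nd n • dw))).re) = 0 := by linarith
    rcases mul_eq_zero.1 this with h9 | h9
    · exact absurd h9 hb.ne'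
    · linarith
  simp only [Complex.add_re] at h8
  have hpow : ∀ m : ℕ, ‖((-1 : ℂ) ^ m)‖ = 1 := fun m => by rw [norm_pow]; simp
  have hle : ∀ (m : ℕ) (x : P2), ‖(-1) ^ m * f x‖ ≤ 1 := by
    intro m x
    rw [norm_mul, hpow, one_mul]; exact h1 x
  have b1 := (Complex.re_le_norm _).trans (hle (n + 1) (nd n • du))
  have b2 := (Complex.re_le_norm _).trans (hle (n + 1) (-(nd n • du)))
  have b3 := (Complex.re_le_norm _).trans (hle n (nd n • dw))
  have b4 := (Complex.re_le_norm _).trans (hle n (-(nd n • dw)))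
  have hinv : ∀ (m : ℕ) (z : ℂ), (-1) ^ m * z = 1 → z = (-1) ^ m := by
    intro m z hz
    have h9 : ((-1 : ℂ) ^ m) * (-1) ^ m = 1 := by rw [← mul_pow]; norm_num
    calc z = ((-1 : ℂ) ^ m * (-1) ^ m) * z := by rw [h9, one_mul]
      _ = (-1) ^ m * ((-1) ^ m * z) := by ring
      _ = (-1) ^ m := by rw [hz, mul_one]
  rw [diagU_eq, diagV_eq]
  exact ⟨hinv _ _ (eq_one_of_re (hle _ _) (by linarith)),
    hinv _ _ (eq_one_of_re (hle _ _) (by linarith)),
    hinv _ _ (eq_one_of_re (hle _ _) (by linarith)),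
    hinv _ _ (eq_one_of_re (hle _ _) (by linarith))⟩

/-! ### The extremal function -/

lemma norm_sq_uv (x : P2) : ‖x‖ ^ 2 = (inner ℝ x du) ^ 2 + (inner ℝ x dw) ^ 2 := by
  rw [inner_du, inner_dw, norm_sq_eq, mul_pow, mul_pow, inv_sqrt_two_sq]
  ring

lemma norm_sub_smul (x : P2) {a : P2} (ha : ‖a‖ = 1) (c : ℝ) :
    ‖x - c • a‖ ^ 2 = ‖x‖ ^ 2 - 2 * c * inner ℝ x a + c ^ 2 := by
  rw [norm_sub_sq_real, inner_smul_right, norm_smul, ha, mul_one, Real.norm_eq_abs, sq_abs]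
  ring

lemma norm_sub_du (x : P2) (c : ℝ) :
    ‖x - c • du‖ = √((inner ℝ x du - c) ^ 2 + (inner ℝ x dw) ^ 2) := by
  rw [← Real.sqrt_sq (norm_nonneg (x - c • du)), norm_sub_smul x norm_du, norm_sq_uv]
  congr 1; ring

lemma norm_sub_dw (x : P2) (c : ℝ) :
    ‖x - c • dw‖ = √((inner ℝ x dw - c) ^ 2 + (inner ℝ x du) ^ 2) := by
  rw [← Real.sqrt_sq (norm_nonneg (x - c • dw)), norm_sub_smul x norm_dw, norm_sq_uv]
  congr 1; ring

lemma add_eq_sub (x a : P2) (c : ℝ) : x + c • a = x - (-c) • a := by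
  rw [neg_smul, sub_neg_eq_add]

lemma extremal_eq (x : P2) : extremal x =
    (((Real.cos √((inner ℝ x du - π / 2) ^ 2 + (inner ℝ x dw) ^ 2) +
      Real.cos √((inner ℝ x du + π / 2) ^ 2 + (inner ℝ x dw) ^ 2) -
      (Real.cos √((inner ℝ x dw - π / 2) ^ 2 + (inner ℝ x du) ^ 2) +
      Real.cos √((inner ℝ x dw + π / 2) ^ 2 + (inner ℝ x du) ^ 2))) / 2 : ℝ) : ℂ) := by
  rw [extremal, diagU_eq, diagV_eq, add_eq_sub x du, add_eq_sub x dw, norm_sub_du, norm_sub_du,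
    norm_sub_dw, norm_sub_dw, sub_neg_eq_add, sub_neg_eq_add]
  congr 1
  ring

lemma norm_extremal_le (x : P2) : ‖extremal x‖ ≤ 1 := by
  rw [extremal_eq, Complex.norm_real, Real.norm_eq_abs, abs_le]
  have h1 := four_le (inner ℝ x du) (inner ℝ x dw)
  have h2 := four_le (inner ℝ x dw) (inner ℝ x du)
  constructor <;> linarith

lemma InB_extremal : InB extremal := by
  have hcos : ∀ c : P2, InB (fun x => (Real.cos ‖x - c‖ : ℂ)) := by
    intro c
    have h := (InG_cos.translate (-((2 * π)⁻¹ • c))).toB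
    convert h using 2 with x
    rw [← sub_eq_add_neg, ← smul_sub, norm_smul, Real.norm_eq_abs,
      abs_of_pos (by positivity : 0 < (2 * π)⁻¹)]
    congr 2
    have := Real.pi_pos
    field_simp
  have hG : ∀ c : P2, InG (fun x => (Real.cos ‖(2 * π) • x - c‖ : ℂ)) := fun c => (hcos c).toG
  have h1 := (((hG ((π / 2) • diagU)).add (hG ((-(π / 2)) • diagU))).add
    (((hG ((π / 2) • diagV)).add (hG ((-(π / 2)) • diagV))).const_mul (-1))).const_mul (1 / 2)
  have h2 := h1.toB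
  convert h2 using 1
  funext x
  have e : (2 * π) • (2 * π)⁻¹ • x = x := by
    rw [smul_smul, mul_inv_cancel₀ (by positivity), one_smul]
  simp only [e]
  rw [extremal, add_eq_sub x diagU, add_eq_sub x diagV]
  push_cast
  ring

lemma nd_sq {n : ℕ} (hn : 1 ≤ n) : nd n ^ 2 = π ^ 2 * ((n : ℝ) ^ 2 - 1 / 4) := by
  rw [nd, mul_pow, Real.sq_sqrt]
  have : (1 : ℝ) ≤ n := by exact_mod_cast hn
  nlinarith

lemma inner_du_du : inner ℝ du du = (1 : ℝ) := by
  rw [real_inner_self_eq_norm_sq, norm_du]; norm_num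
lemma inner_dw_dw : inner ℝ dw dw = (1 : ℝ) := by
  rw [real_inner_self_eq_norm_sq, norm_dw]; norm_num
lemma inner_du_dw : inner ℝ du dw = (0 : ℝ) := by
  rw [inner_dw]
  simp [du, e1, e2]
lemma inner_dw_du : inner ℝ dw du = (0 : ℝ) := by
  rw [real_inner_comm, inner_du_dw]

lemma cos_pair (t : ℝ) : Real.cos √((t - π / 2) ^ 2 + 0 ^ 2) + Real.cos √((t + π / 2) ^ 2 + 0 ^ 2) = 0 := by
  have h1 : ∀ s : ℝ, Real.cos √(s ^ 2 + 0 ^ 2) = Real.cos s := by
    intro s
    rw [zero_pow two_ne_zero, add_zero, Real.sqrt_sq_eq_abs, Real.cos_abs]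
  rw [h1, h1, Real.cos_sub_pi_div_two, Real.cos_add_pi_div_two]
  ring

lemma cos_node {n : ℕ} (hn : 1 ≤ n) (s t : ℝ) (hs : s ^ 2 = (π / 2) ^ 2) (ht : t ^ 2 = nd n ^ 2) :
    Real.cos √(s ^ 2 + t ^ 2) = (-1) ^ n := by
  rw [hs, ht, nd_sq hn]
  have : (π / 2) ^ 2 + π ^ 2 * ((n : ℝ) ^ 2 - 1 / 4) = (n * π) ^ 2 := by ring
  have hπ := Real.pi_pos
  rw [this, Real.sqrt_sq (by positivity), Real.cos_nat_mul_pi]

lemma nodes_extremal : Nodes extremal := by
  intro n hn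
  have hpow : ((-1 : ℂ)) ^ (n + 1) = ((-(-1 : ℝ) ^ n : ℝ) : ℂ) := by push_cast; ring
  have hpow' : ((-1 : ℂ)) ^ n = (((-1 : ℝ) ^ n : ℝ) : ℂ) := by push_cast; ring
  rw [hpow, hpow', diagU_eq, diagV_eq]
  refine ⟨?_, ?_, ?_, ?_⟩
  · rw [extremal_eq]
    simp only [inner_smul_left, inner_du_du, inner_du_dw, conj_trivial, mul_zero, mul_one, zero_sub,
      zero_add]
    rw [cos_pair, cos_node hn (-(π / 2)) (nd n) (by ring) rfl, cos_node hn (π / 2) (nd n) rfl rfl]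
    congr 1; ring
  · rw [extremal_eq]
    simp only [inner_neg_left, inner_smul_left, inner_du_du, inner_du_dw, conj_trivial, mul_zero,
      mul_one, zero_sub, zero_add, neg_zero]
    rw [cos_pair, cos_node hn (-(π / 2)) (-nd n) (by ring) (by ring),
      cos_node hn (π / 2) (-nd n) rfl (by ring)]
    congr 1; ring
  · rw [extremal_eq]
    simp only [inner_smul_left, inner_dw_dw, inner_dw_du, conj_trivial, mul_zero, mul_one, zero_sub,
      zero_add]
    rw [cos_pair, cos_node hn (-(π / 2)) (nd n) (by ring) rfl, cos_node hn (π / 2) (nd n) rfl rfl]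
    congr 1; ring
  · rw [extremal_eq]
    simp only [inner_neg_left, inner_smul_left, inner_dw_dw, inner_dw_du, conj_trivial, mul_zero,
      mul_one, zero_sub, zero_add, neg_zero]
    rw [cos_pair, cos_node hn (-(π / 2)) (-nd n) (by ring) (by ring),
      cos_node hn (π / 2) (-nd n) rfl (by ring)]
    congr 1; ring

end Q76.Nd
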