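import Mathlib

/-!
# The Fourier series behind the node formula
-/

namespace Q76.Nd

open Complex Real Set MeasureTheory

/-- The coefficients of the node formula. -/
noncomputable def bet (n : ℕ) : ℝ := 64 / π ^ 2 * ((-1) ^ (n + 1) * n ^ 2 / (4 * n ^ 2 - 1) ^ 2)

/-- The profile on `[-1, 1]`. -/
noncomputable def prof (t : ℝ) : ℝ := 2 / π * Real.cos (π / 2 * t) - t * Real.sin (π / 2 * t)

lemma four_sub_ne (n : ℤ) : (4 * (n : ℝ) ^ 2 - 1) ≠ 0 := by
  have h : (4 * n ^ 2 - 1 : ℤ) ≠ 0 := by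
    intro h
    have : (4 * n ^ 2 : ℤ) = 1 := by linarith
    omega
  exact_mod_cast h

lemma four_sub_ne' (n : ℤ) : (4 * (n : ℂ) ^ 2 - 1) ≠ 0 := by
  have := four_sub_ne n
  exact_mod_cast this

lemma four_sub_neN (n : ℕ) : (4 * (n : ℝ) ^ 2 - 1) ≠ 0 := by
  have := four_sub_ne n
  exact_mod_cast this

/-- The antiderivative of `prof t * exp (-i n π t)`. -/
noncomputable def anti (n : ℤ) (t : ℝ) : ℂ :=
  cexp (-(π * n * I) * t) *
    ((-2 * (π * n) ^ 2 / ((π / 2) ^ 2 - (π * n) ^ 2) ^ 2 +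
        I * (π * n) / ((π / 2) ^ 2 - (π * n) ^ 2) * t) * Complex.sin (π / 2 * t) +
     (I * (π * n) * ((π / 2) ^ 2 + (π * n) ^ 2) / ((π / 2) * ((π / 2) ^ 2 - (π * n) ^ 2) ^ 2) +
        (π / 2) / ((π / 2) ^ 2 - (π * n) ^ 2) * t) * Complex.cos (π / 2 * t))

lemma den_ne (n : ℤ) : ((π : ℂ) / 2) ^ 2 - (π * n) ^ 2 ≠ 0 := by
  have h : ((π : ℂ) / 2) ^ 2 - (π * n) ^ 2 = -(π ^ 2 / 4) * (4 * (n : ℂ) ^ 2 - 1) := by ring
  rw [h]
  refine mul_ne_zero (neg_ne_zero.2 (div_ne_zero (pow_ne_zero _ ?_) (by norm_num))) (four_sub_ne' n)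
  exact_mod_cast Real.pi_ne_zero

lemma rel_aux {P N : ℂ} (hP : P ≠ 0) (hD : (P / 2) ^ 2 - (P * N) ^ 2 ≠ 0) :
    (-(P * N * I) * (I * (P * N) / ((P / 2) ^ 2 - (P * N) ^ 2)) -
      P / 2 * ((P / 2) / ((P / 2) ^ 2 - (P * N) ^ 2)) = -1) ∧
    (-(P * N * I) * ((P / 2) / ((P / 2) ^ 2 - (P * N) ^ 2)) +
      P / 2 * (I * (P * N) / ((P / 2) ^ 2 - (P * N) ^ 2)) = 0) ∧
    (-(P * N * I) * (-2 * (P * N) ^ 2 / ((P / 2) ^ 2 - (P * N) ^ 2) ^ 2) +
      I * (P * N) / ((P / 2) ^ 2 - (P * N) ^ 2) -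
      P / 2 * (I * (P * N) * ((P / 2) ^ 2 + (P * N) ^ 2) /
        ((P / 2) * ((P / 2) ^ 2 - (P * N) ^ 2) ^ 2)) = 0) ∧
    (-(P * N * I) * (I * (P * N) * ((P / 2) ^ 2 + (P * N) ^ 2) /
        ((P / 2) * ((P / 2) ^ 2 - (P * N) ^ 2) ^ 2)) +
      (P / 2) / ((P / 2) ^ 2 - (P * N) ^ 2) +
      P / 2 * (-2 * (P * N) ^ 2 / ((P / 2) ^ 2 - (P * N) ^ 2) ^ 2) = 2 / P) := by
  have hI : I * I = -1 := Complex.I_mul_I
  set D := (P / 2) ^ 2 - (P * N) ^ 2 with hDdef
  have hP2 : P / 2 ≠ 0 := div_ne_zero hP two_ne_zero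
  refine ⟨?_, ?_, ?_, ?_⟩
  · rw [eq_comm, ← mul_left_inj' hD]
    have : (-(P * N * I) * (I * (P * N) / D) - P / 2 * ((P / 2) / D)) * D =
      -(P * N * I) * (I * (P * N)) - P / 2 * (P / 2) := by field_simp
    rw [this, hDdef]
    linear_combination (P * N) ^ 2 * hI
  · field_simp
    ring
  · rw [← mul_left_inj' (pow_ne_zero 2 hD), zero_mul]
    have : (-(P * N * I) * (-2 * (P * N) ^ 2 / D ^ 2) + I * (P * N) / D -
      P / 2 * (I * (P * N) * ((P / 2) ^ 2 + (P * N) ^ 2) / ((P / 2) * D ^ 2))) * D ^ 2 =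
      -(P * N * I) * (-2 * (P * N) ^ 2) + I * (P * N) * D -
        (I * (P * N) * ((P / 2) ^ 2 + (P * N) ^ 2)) := by
      field_simp
    rw [this, hDdef]
    ring
  · rw [← mul_left_inj' (pow_ne_zero 2 hD), ← mul_left_inj' hP2]
    have : (-(P * N * I) * (I * (P * N) * ((P / 2) ^ 2 + (P * N) ^ 2) / ((P / 2) * D ^ 2)) +
      (P / 2) / D + P / 2 * (-2 * (P * N) ^ 2 / D ^ 2)) * D ^ 2 * (P / 2) =
      -(P * N * I) * (I * (P * N) * ((P / 2) ^ 2 + (P * N) ^ 2)) + (P / 2) ^ 2 * D +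
        (P / 2) ^ 2 * (-2 * (P * N) ^ 2) := by
      field_simp
    have h2 : 2 / P * D ^ 2 * (P / 2) = D ^ 2 := by field_simp
    rw [this, h2, hDdef]
    linear_combination -(P * N) ^ 2 * ((P / 2) ^ 2 + (P * N) ^ 2) * hI

lemma hasDerivAt_anti (n : ℤ) (t : ℝ) :
    HasDerivAt (anti n) (cexp (-(π * n * I) * t) * (prof t : ℂ)) t := by
  have hid : HasDerivAt (fun s : ℂ => s) 1 (t : ℂ) := hasDerivAt_id' _
  have hexp : HasDerivAt (fun s : ℂ => cexp (-(π * n * I) * s))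
      (cexp (-(π * n * I) * t) * (-(π * n * I) * 1)) (t : ℂ) := (hid.const_mul _).cexp
  have hsin : HasDerivAt (fun s : ℂ => Complex.sin (π / 2 * s))
      (Complex.cos (π / 2 * t) * (π / 2 * 1)) (t : ℂ) := (hid.const_mul ((π : ℂ) / 2)).csin
  have hcos : HasDerivAt (fun s : ℂ => Complex.cos (π / 2 * s))
      (-Complex.sin (π / 2 * t) * (π / 2 * 1)) (t : ℂ) := (hid.const_mul ((π : ℂ) / 2)).ccos
  have hd := den_ne n
  have hp : (π : ℂ) ≠ 0 := by exact_mod_cast Real.pi_ne_zero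
  obtain ⟨r1, r2, r3, r4⟩ := rel_aux hp hd
  have h1 := ((hid.const_mul (I * (π * n) / ((π / 2) ^ 2 - (π * n) ^ 2))).const_add
    (-2 * ((π : ℂ) * n) ^ 2 / (((π : ℂ) / 2) ^ 2 - (π * n) ^ 2) ^ 2)).mul hsin
  have h2 := ((hid.const_mul (((π : ℂ) / 2) / ((π / 2) ^ 2 - (π * n) ^ 2))).const_add
    (I * ((π : ℂ) * n) * ((π / 2) ^ 2 + (π * n) ^ 2) /
      (((π : ℂ) / 2) * ((π / 2) ^ 2 - (π * n) ^ 2) ^ 2))).mul hcos
  have h := (hexp.mul (h1.add h2)).comp_ofReal
  refine h.congr_deriv ?_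
  have hprof : (prof t : ℂ) = 2 / π * Complex.cos (π / 2 * t) - t * Complex.sin (π / 2 * t) := by
    rw [prof]; push_cast; ring
  rw [hprof]
  simp only [Pi.add_apply, Pi.mul_apply]
  generalize (-2 * ((π : ℂ) * n) ^ 2 / (((π : ℂ) / 2) ^ 2 - (π * n) ^ 2) ^ 2) = p0 at *
  generalize (I * ((π : ℂ) * n) * ((π / 2) ^ 2 + (π * n) ^ 2) /
      (((π : ℂ) / 2) * ((π / 2) ^ 2 - (π * n) ^ 2) ^ 2)) = q0 at *
  generalize (I * ((π : ℂ) * n) / (((π : ℂ) / 2) ^ 2 - (π * n) ^ 2)) = p1 at *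
  generalize ((π : ℂ) / 2) / (((π : ℂ) / 2) ^ 2 - (π * n) ^ 2) = q1 at *
  generalize Complex.sin (π / 2 * t) = S
  generalize Complex.cos (π / 2 * t) = C
  generalize cexp (-(π * n * I) * t) = X
  linear_combination X * (S * t * r1 + C * t * r2 + S * r3 + C * r4)

lemma cont_prof : Continuous prof := by unfold prof; fun_prop

lemma integral_prof (n : ℤ) :
    ∫ t in (-1 : ℝ)..1, cexp (-(π * n * I) * t) * (prof t : ℂ) =
      2 * (-1) ^ n * (-2 * (π * n) ^ 2 / ((π / 2) ^ 2 - (π * n) ^ 2) ^ 2) := by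
  rw [intervalIntegral.integral_eq_sub_of_hasDerivAt (fun t _ => hasDerivAt_anti n t)]
  · have e1 : cexp (-(π * n * I)) = (-1) ^ n := by
      rw [show -(π * n * I) = (-n : ℤ) * (π * I) by push_cast; ring, Complex.exp_int_mul,
        Complex.exp_pi_mul_I, zpow_neg]
      rcases Int.even_or_odd n with h | h
      · rw [h.neg_one_zpow]; norm_num
      · rw [h.neg_one_zpow]; norm_num
    have e2 : cexp ((π * n * I)) = (-1) ^ n := by
      rw [show (π * n * I) = (n : ℤ) * (π * I) by push_cast; ring, Complex.exp_int_mul,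
        Complex.exp_pi_mul_I]
    simp only [anti, ofReal_one, ofReal_neg, mul_one, mul_neg, neg_neg, Complex.sin_neg,
      Complex.cos_neg]
    rw [e1, e2]
    have s1 : Complex.sin (π / 2) = 1 := by
      rw [show (π / 2 : ℂ) = ((π / 2 : ℝ) : ℂ) by push_cast; ring, ← Complex.ofReal_sin]; simp
    have c1 : Complex.cos (π / 2) = 0 := by
      rw [show (π / 2 : ℂ) = ((π / 2 : ℝ) : ℂ) by push_cast; ring, ← Complex.ofReal_cos]; simp
    rw [s1, c1]
    ring
  · refine Continuous.intervalIntegrable ?_ _ _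
    have := cont_prof
    fun_prop

instance : Fact (0 < (2 : ℝ)) := ⟨by norm_num⟩

/-- The periodic extension of the profile. -/
noncomputable def perProf : C(AddCircle (2 : ℝ), ℂ) :=
  ⟨AddCircle.liftIco 2 (-1) (fun t => (prof t : ℂ)), by
    apply AddCircle.liftIco_continuous
    · norm_num [prof]
    · exact (continuous_ofReal.comp cont_prof).continuousOn⟩

/-- The Fourier coefficients. -/
noncomputable def cf (n : ℤ) : ℝ := -(-1) ^ n * 32 / π ^ 2 * (n ^ 2 / (4 * n ^ 2 - 1) ^ 2)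

lemma coeff_perProf (n : ℤ) : fourierCoeff perProf n = cf n := by
  have h1 : fourierCoeff perProf n = fourierCoeff (AddCircle.liftIco 2 (-1)
    (fun t => (prof t : ℂ))) n := rfl
  rw [h1, fourierCoeff_liftIco_eq, fourierCoeffOn_eq_integral]
  have e : ∫ x in (-1 : ℝ)..(-1 + 2), (fourier (-n)) (x : AddCircle (-1 + 2 - -1 : ℝ)) •
      (prof x : ℂ) = ∫ t in (-1 : ℝ)..1, cexp (-(π * n * I) * t) * (prof t : ℂ) := by
    rw [show (-1 + 2 : ℝ) = 1 by norm_num]
    refine intervalIntegral.integral_congr (fun x _ => ?_)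
    rw [fourier_coe_apply, smul_eq_mul]
    congr 2
    push_cast
    ring
  rw [e, integral_prof]
  rw [cf]
  push_cast
  rw [Complex.real_smul]
  have hd := den_ne n
  have h4 := four_sub_ne' n
  have hp : (π : ℂ) ≠ 0 := by exact_mod_cast Real.pi_ne_zero
  have hk : ((π : ℂ) / 2) ^ 2 - (π * n) ^ 2 = -(π ^ 2 / 4) * (4 * (n : ℂ) ^ 2 - 1) := by ring
  rw [hk]
  push_cast
  field_simp
  ring

lemma bet_summable : Summable (fun n : ℕ => |bet n|) := by
  have h1 : Summable (fun n : ℕ => 64 / π ^ 2 * (1 / (n : ℝ) ^ 2)) :=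
    (Real.summable_one_div_nat_pow.2 (by norm_num : 1 < 2)).mul_left _
  refine h1.of_nonneg_of_le (fun _ => abs_nonneg _) (fun n => ?_)
  rw [bet, abs_mul, abs_of_pos (by positivity : (0 : ℝ) < 64 / π ^ 2)]
  refine mul_le_mul_of_nonneg_left ?_ (by positivity)
  rcases Nat.eq_zero_or_pos n with rfl | hn
  · simp
  · rw [abs_div, abs_mul, abs_pow, abs_neg, abs_one, one_pow, one_mul, abs_of_nonneg (by positivity),
      abs_of_nonneg (by positivity)]
    have hn' : (1 : ℝ) ≤ n := by exact_mod_cast hn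
    rw [div_le_div_iff₀ (by have : (0 : ℝ) < 4 * (n : ℝ) ^ 2 - 1 := by nlinarith
                            positivity) (by positivity)]
    nlinarith [sq_nonneg ((n : ℝ) ^ 2 - 1), mul_self_nonneg ((n : ℝ) ^ 2)]

lemma summable_cf : Summable cf := by
  have hN : Summable (fun n : ℕ => cf n) := by
    have hs : Summable bet := bet_summable.of_abs
    refine (hs.mul_left (1 / 2)).congr (fun n => ?_)
    rw [bet, cf, zpow_natCast]
    push_cast
    ring
  have hN' : Summable (fun n : ℕ => cf (-(n : ℤ))) := by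
    refine hN.congr (fun n => ?_)
    rw [cf, cf]
    push_cast
    rw [zpow_neg, ← inv_zpow]
    norm_num
  exact Summable.of_nat_of_neg hN hN'

lemma hasSum_prof_aux {t : ℝ} (ht : t ∈ Ico (-1 : ℝ) 1) :
    HasSum (fun n : ℕ => bet n * Real.cos (π * n * t)) (prof t) := by
  have h0 : Summable (fourierCoeff perProf) := by
    have : fourierCoeff perProf = fun n => ((cf n : ℝ) : ℂ) := funext coeff_perProf
    rw [this]
    exact_mod_cast summable_cf
  have h1 := has_pointwise_sum_fourier_series_of_summable h0 (t : AddCircle (2 : ℝ))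
  have h2 : perProf (t : AddCircle (2 : ℝ)) = (prof t : ℂ) := by
    change AddCircle.liftIco 2 (-1) (fun t => (prof t : ℂ)) _ = _
    rw [AddCircle.liftIco_coe_apply]
    rw [show (-1 + 2 : ℝ) = 1 by norm_num]; exact ht
  rw [h2] at h1
  have h3 := h1.nat_add_neg
  simp only [coeff_perProf] at h3
  have hc0 : cf 0 = 0 := by simp [cf]
  rw [hc0] at h3
  simp only [ofReal_zero, zero_smul, add_zero] at h3
  rw [← Complex.hasSum_ofReal]
  convert h3 using 1
  ext n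
  have hcn : cf (-(n : ℤ)) = cf n := by
    rw [cf, cf]
    push_cast
    rw [zpow_neg, ← inv_zpow]
    norm_num
  rw [hcn, fourier_coe_apply, fourier_coe_apply, smul_eq_mul, smul_eq_mul]
  push_cast
  rw [Complex.cos]
  have hb : (bet n : ℂ) = 2 * (cf n : ℂ) := by
    rw [bet, cf]
    push_cast
    rw [zpow_natCast]
    ring
  rw [hb]
  have a1 : 2 * (π : ℂ) * I * n * t / 2 = π * n * t * I := by ring
  have a2 : 2 * (π : ℂ) * I * -n * t / 2 = -(π * n * t) * I := by ring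
  rw [a1, a2]
  ring

/-- The cosine series of the profile. -/
theorem hasSum_prof {t : ℝ} (ht : |t| ≤ 1) :
    HasSum (fun n : ℕ => bet n * Real.cos (π * n * t)) (prof t) := by
  rw [abs_le] at ht
  rcases lt_or_eq_of_le ht.2 with h | h
  · exact hasSum_prof_aux ⟨ht.1, h⟩
  · subst h
    have h1 := hasSum_prof_aux (t := -1) ⟨le_refl _, by norm_num⟩
    have h2 : prof (-1) = prof 1 := by norm_num [prof]
    rw [h2] at h1
    convert h1 using 2 with n
    rw [mul_neg_one, Real.cos_neg, mul_one]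

end Q76.Nd
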