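import Mathlib

/-!
# The four cosines are bounded by one
-/

namespace Q76.Nd

open Real

lemma cos_quartic {p : ℝ} (h0 : 0 ≤ p) (h1 : p ≤ 1) :
    Real.cos (π / 2 * p) ≤ 1 - 23 / 20 * p ^ 2 + 3 / 20 * p ^ 4 := by
  have hπ1 := Real.pi_gt_d2
  have hπ2 := Real.pi_lt_d4
  have hs1 : 9.8596 ≤ π ^ 2 := by nlinarith
  have hs2 : π ^ 2 ≤ 9.8697 := by nlinarith
  have hπ := Real.pi_pos
  rcases le_total p (17 / 20) with h | h
  · have e : Real.cos (π / 2 * p) = 1 - 2 * Real.sin (π / 4 * p) ^ 2 := by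
      rw [show π / 2 * p = 2 * (π / 4 * p) by ring, Real.cos_two_mul, Real.cos_sq']
      ring
    set y := π / 4 * p with hy
    have hy0 : 0 ≤ y := by positivity
    have h2 := Real.sin_ge_sub_cube hy0
    have hy1 : y ≤ 0.7 := by rw [hy]; nlinarith
    have h3 : 0 ≤ y - y ^ 3 / 6 := by nlinarith [sq_nonneg y, mul_nonneg hy0 (sq_nonneg y)]
    have h4 : (y - y ^ 3 / 6) ^ 2 ≤ Real.sin y ^ 2 := pow_le_pow_left₀ h3 h2 2
    have h5 : y ^ 2 ≥ 0.616 * p ^ 2 := by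
      have : y ^ 2 = π ^ 2 / 16 * p ^ 2 := by rw [hy]; ring
      rw [this]; exact mul_le_mul_of_nonneg_right (by linarith) (sq_nonneg p)
    have h6 : y ^ 2 ≤ 0.6173 * p ^ 2 := by
      have : y ^ 2 = π ^ 2 / 16 * p ^ 2 := by rw [hy]; ring
      rw [this]; exact mul_le_mul_of_nonneg_right (by linarith) (sq_nonneg p)
    rw [e]
    have h7 : (y - y ^ 3 / 6) ^ 2 = y ^ 2 * (1 - y ^ 2 / 6) ^ 2 := by ring
    have h8 : 23 / 40 * p ^ 2 - 3 / 40 * p ^ 4 ≤ y ^ 2 * (1 - y ^ 2 / 6) ^ 2 := by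
      have hq : p ^ 2 ≤ 0.7225 := by nlinarith
      have h9 : 1 - y ^ 2 / 6 ≥ 1 - 0.1029 * p ^ 2 := by nlinarith [sq_nonneg p]
      have h10 : (0 : ℝ) ≤ 1 - 0.1029 * p ^ 2 := by nlinarith
      have h11 : (1 - 0.1029 * p ^ 2) ^ 2 ≤ (1 - y ^ 2 / 6) ^ 2 := pow_le_pow_left₀ h10 h9 2
      have h12 : (0.616 * p ^ 2) * (1 - 0.1029 * p ^ 2) ^ 2 ≤ y ^ 2 * (1 - y ^ 2 / 6) ^ 2 :=
        mul_le_mul h5 h11 (sq_nonneg _) (sq_nonneg _)
      refine le_trans ?_ h12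
      have hp2 := sq_nonneg p
      have h13 : 23 / 40 - 3 / 40 * p ^ 2 ≤ 0.616 * (1 - 0.1029 * p ^ 2) ^ 2 := by
        nlinarith [sq_nonneg (p ^ 2)]
      nlinarith [mul_le_mul_of_nonneg_left h13 hp2]
    nlinarith
  · have e : Real.cos (π / 2 * p) = Real.sin (π / 2 * (1 - p)) := by
      rw [← Real.cos_pi_div_two_sub]
      congr 1; ring
    rw [e]
    have h2 : Real.sin (π / 2 * (1 - p)) ≤ π / 2 * (1 - p) := Real.sin_le (by
      have : 0 ≤ 1 - p := by linarith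
      positivity)
    refine h2.trans ?_
    have h3 : 1 - 23 / 20 * p ^ 2 + 3 / 20 * p ^ 4 = (1 - p) * ((1 + p) * (1 - 3 / 20 * p ^ 2)) := by
      ring
    rw [h3]
    have h4 : π / 2 ≤ (1 + p) * (1 - 3 / 20 * p ^ 2) := by
      nlinarith [mul_nonneg h0 h0, mul_nonneg (sub_nonneg.2 h) (sub_nonneg.2 h1)]
    have h5 : 0 ≤ 1 - p := by linarith
    nlinarith

/-- The elliptic coordinates of a pair of distances. -/
lemma elliptic (a u v : ℝ) (ha : 0 < a) :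
    ∃ s d : ℝ, a ≤ s ∧ 0 ≤ d ∧ d ≤ a ∧ s ^ 2 + d ^ 2 = u ^ 2 + v ^ 2 + a ^ 2 ∧
      (s * d) ^ 2 = a ^ 2 * u ^ 2 ∧
      Real.cos √((u - a) ^ 2 + v ^ 2) + Real.cos √((u + a) ^ 2 + v ^ 2) =
        2 * (Real.cos s * Real.cos d) := by
  set A := √((u - a) ^ 2 + v ^ 2) with hA
  set B := √((u + a) ^ 2 + v ^ 2) with hB
  have hA2 : A ^ 2 = (u - a) ^ 2 + v ^ 2 := Real.sq_sqrt (by positivity)
  have hB2 : B ^ 2 = (u + a) ^ 2 + v ^ 2 := Real.sq_sqrt (by positivity)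
  have hA0 : 0 ≤ A := Real.sqrt_nonneg _
  have hB0 : 0 ≤ B := Real.sqrt_nonneg _
  have hAu : |u - a| ≤ A := by
    rw [hA, ← Real.sqrt_sq_eq_abs]; exact Real.sqrt_le_sqrt (by nlinarith [sq_nonneg v])
  have hBu : |u + a| ≤ B := by
    rw [hB, ← Real.sqrt_sq_eq_abs]; exact Real.sqrt_le_sqrt (by nlinarith [sq_nonneg v])
  have hsum : 2 * a ≤ A + B := by
    have := abs_sub_abs_le_abs_sub (u + a) (u - a)
    have h1 := neg_abs_le (u - a)
    have h2 := le_abs_self (u + a)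
    linarith
  -- |A - B| ≤ 2 a
  have hprod : (A - B) ^ 2 ≤ (2 * a) ^ 2 := by
    have h3 : (A * B) ^ 2 = ((u - a) ^ 2 + v ^ 2) * ((u + a) ^ 2 + v ^ 2) := by
      rw [mul_pow, hA2, hB2]
    have h4 : u ^ 2 + v ^ 2 - a ^ 2 ≤ A * B := by
      refine abs_le_of_sq_le_sq' ?_ (by positivity) |>.2
      rw [h3]
      nlinarith [sq_nonneg (a * v)]
    nlinarith
  refine ⟨(A + B) / 2, |A - B| / 2, by linarith, by positivity, ?_, ?_, ?_, ?_⟩
  · have := abs_le_of_sq_le_sq hprod (by positivity)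
    linarith
  · have : (|A - B| / 2) ^ 2 = (A - B) ^ 2 / 4 := by rw [div_pow, sq_abs]; ring
    rw [this]
    nlinarith
  · have : ((A + B) / 2 * (|A - B| / 2)) ^ 2 = ((A ^ 2 - B ^ 2) / 4) ^ 2 := by
      rw [mul_pow, div_pow |A - B|, sq_abs]; ring
    rw [this, hA2, hB2]
    ring
  · have h1 : Real.cos (|A - B| / 2) = Real.cos ((A - B) / 2) := by
      rcases abs_choice (A - B) with h | h
      · rw [h]
      · rw [h, neg_div, Real.cos_neg]
    rw [h1]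
    have h2 : A = (A + B) / 2 + (A - B) / 2 := by ring
    have h3 : B = (A + B) / 2 - (A - B) / 2 := by ring
    have h4 : Real.cos A = Real.cos ((A + B) / 2 + (A - B) / 2) := by congr 1
    have h5 : Real.cos B = Real.cos ((A + B) / 2 - (A - B) / 2) := by congr 1
    rw [h4, h5, Real.cos_add, Real.cos_sub]
    ring

lemma alg_aux (P Q ρ : ℝ) (hP0 : 0 ≤ P) (hQ0 : 0 ≤ Q) (hP1 : P ≤ 1) (hQ1 : Q ≤ 1) (hρ : 9 ≤ ρ)
    (e3 : P * (ρ - P) + Q * (ρ - Q) = ρ - 1) :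
    2 - 23 / 20 * (P + Q) + 3 / 20 * (P ^ 2 + Q ^ 2) ≤ 1 := by
  obtain ⟨η, hη⟩ : ∃ η, η = 1 - P - Q := ⟨_, rfl⟩
  obtain ⟨R, hR⟩ : ∃ R, R = P * Q := ⟨_, rfl⟩
  have hR0 : 0 ≤ R := by rw [hR]; exact mul_nonneg hP0 hQ0
  have e4 : η * (ρ - 2 + η) = 2 * R := by rw [hη, hR]; linear_combination -e3
  have hη2 : -1 ≤ η := by rw [hη]; linarith
  have hη1 : η ≤ 1 := by rw [hη]; linarith
  have h6 : 0 < ρ - 2 + η := by linarith
  have hη0 : 0 ≤ η := by
    by_contra hneg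
    push Not at hneg
    have := mul_neg_of_neg_of_pos hneg h6
    linarith
  have e5 : 7 * η ≤ 2 * R := by
    rw [← e4]
    have : η * 7 ≤ η * (ρ - 2 + η) := mul_le_mul_of_nonneg_left (by linarith) hη0
    linarith
  have hPQ : P + Q = 1 - η := by rw [hη]; ring
  have hPQ2 : P ^ 2 + Q ^ 2 = (1 - η) ^ 2 - 2 * R := by rw [← hPQ, hR]; ring
  have hηη : η ^ 2 ≤ η := by nlinarith
  rw [hPQ, hPQ2]
  nlinarith

lemma four_le (u v : ℝ) :
    Real.cos √((u - π / 2) ^ 2 + v ^ 2) + Real.cos √((u + π / 2) ^ 2 + v ^ 2) -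
      (Real.cos √((v - π / 2) ^ 2 + u ^ 2) + Real.cos √((v + π / 2) ^ 2 + u ^ 2)) ≤ 2 := by
  have hπ := Real.pi_pos
  have ha : 0 < π / 2 := by positivity
  obtain ⟨s, d, hs, hd0, hda, h1, h2, h3⟩ := elliptic (π / 2) u v ha
  obtain ⟨s', d', hs', hd0', hda', h1', h2', h3'⟩ := elliptic (π / 2) v u ha
  rw [h3, h3']
  have cd0 : 0 ≤ Real.cos d := Real.cos_nonneg_of_neg_pi_div_two_le_of_le (by linarith) hda
  have cd0' : 0 ≤ Real.cos d' := Real.cos_nonneg_of_neg_pi_div_two_le_of_le (by linarith) hda'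
  have cd1 := Real.cos_le_one d
  have cd1' := Real.cos_le_one d'
  have cs := Real.neg_one_le_cos s
  have cs1 := Real.cos_le_one s
  have cs' := Real.neg_one_le_cos s'
  rcases le_total (u ^ 2 + v ^ 2) (2 * π ^ 2) with h | h
  · have hs2 : s ≤ 3 * π / 2 := by
      refine abs_le_of_sq_le_sq' ?_ (by positivity) |>.2
      nlinarith [sq_nonneg d]
    have hcs : Real.cos s ≤ 0 :=
      Real.cos_nonpos_of_pi_div_two_le_of_le hs (by linarith)
    have t1 : Real.cos s * Real.cos d ≤ 0 := mul_nonpos_of_nonpos_of_nonneg hcs cd0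
    have t2 := mul_nonneg cd0' (by linarith : 0 ≤ 1 + Real.cos s')
    linarith
  · -- large distances
    have key : Real.cos d + Real.cos d' ≤ 1 := by
      set p := d / (π / 2) with hp
      set q := d' / (π / 2) with hq
      have hdp : d = π / 2 * p := by rw [hp]; field_simp
      have hdq : d' = π / 2 * q := by rw [hq]; field_simp
      have hp0 : 0 ≤ p := by positivity
      have hq0 : 0 ≤ q := by positivity
      have hp1 : p ≤ 1 := (div_le_one ha).2 hda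
      have hq1 : q ≤ 1 := (div_le_one ha).2 hda'
      have b1 := cos_quartic hp0 hp1
      have b2 := cos_quartic hq0 hq1
      rw [hdp, hdq]
      set P := p ^ 2 with hP
      set Q := q ^ 2 with hQ
      have hP0 : 0 ≤ P := sq_nonneg _
      have hQ0 : 0 ≤ Q := sq_nonneg _
      have hP1 : P ≤ 1 := by rw [hP]; nlinarith
      have hQ1 : Q ≤ 1 := by rw [hQ]; nlinarith
      set ρ := (u ^ 2 + v ^ 2 + (π / 2) ^ 2) / (π / 2) ^ 2 with hρ
      have ha2 : (0 : ℝ) < (π / 2) ^ 2 := by positivity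
      have hρ9 : 9 ≤ ρ := by
        rw [hρ, le_div_iff₀ ha2]; nlinarith
      have hρ' : ρ * (π / 2) ^ 2 = u ^ 2 + v ^ 2 + (π / 2) ^ 2 := by
        rw [hρ, div_mul_cancel₀ _ ha2.ne']
      have e1 : P * (ρ - P) = u ^ 2 / (π / 2) ^ 2 := by
        have hs2 : s ^ 2 = u ^ 2 + v ^ 2 + (π / 2) ^ 2 - d ^ 2 := by linarith
        have hd2 : d ^ 2 = (π / 2) ^ 2 * P := by rw [hdp, hP]; ring
        have h4 : (u ^ 2 + v ^ 2 + (π / 2) ^ 2 - (π / 2) ^ 2 * P) * ((π / 2) ^ 2 * P) =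
            (π / 2) ^ 2 * u ^ 2 := by
          rw [← h2, mul_pow, hs2, hd2]
        have h5 : (u ^ 2 + v ^ 2 + (π / 2) ^ 2 - (π / 2) ^ 2 * P) * P = u ^ 2 := by
          have := mul_left_cancel₀ ha2.ne' (show (π / 2) ^ 2 *
            ((u ^ 2 + v ^ 2 + (π / 2) ^ 2 - (π / 2) ^ 2 * P) * P) = (π / 2) ^ 2 * u ^ 2 by
              linarith)
          exact this
        rw [eq_div_iff ha2.ne']
        linear_combination h5 + P * hρ'
      have e2 : Q * (ρ - Q) = v ^ 2 / (π / 2) ^ 2 := by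
        have hs2 : s' ^ 2 = u ^ 2 + v ^ 2 + (π / 2) ^ 2 - d' ^ 2 := by linarith
        have hd2 : d' ^ 2 = (π / 2) ^ 2 * Q := by rw [hdq, hQ]; ring
        have h4 : (u ^ 2 + v ^ 2 + (π / 2) ^ 2 - (π / 2) ^ 2 * Q) * ((π / 2) ^ 2 * Q) =
            (π / 2) ^ 2 * v ^ 2 := by
          rw [← h2', mul_pow, hs2, hd2]
        have h5 : (u ^ 2 + v ^ 2 + (π / 2) ^ 2 - (π / 2) ^ 2 * Q) * Q = v ^ 2 := by
          have := mul_left_cancel₀ ha2.ne' (show (π / 2) ^ 2 *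
            ((u ^ 2 + v ^ 2 + (π / 2) ^ 2 - (π / 2) ^ 2 * Q) * Q) = (π / 2) ^ 2 * v ^ 2 by
              linarith)
          exact this
        rw [eq_div_iff ha2.ne']
        linear_combination h5 + Q * hρ'
      have e3 : P * (ρ - P) + Q * (ρ - Q) = ρ - 1 := by
        rw [e1, e2, ← add_div, div_eq_iff ha2.ne']
        linear_combination -hρ'
      have e6 := alg_aux P Q ρ hP0 hQ0 hP1 hQ1 hρ9 e3
      have b1' : Real.cos (π / 2 * p) ≤ 1 - 23 / 20 * P + 3 / 20 * P ^ 2 := by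
        refine b1.trans (le_of_eq ?_); rw [hP]; ring
      have b2' : Real.cos (π / 2 * q) ≤ 1 - 23 / 20 * Q + 3 / 20 * Q ^ 2 := by
        refine b2.trans (le_of_eq ?_); rw [hQ]; ring
      linarith
    have t1 : Real.cos s * Real.cos d ≤ Real.cos d := mul_le_of_le_one_left cd0 cs1
    have t2 : -(Real.cos s' * Real.cos d') ≤ Real.cos d' := by
      have := mul_nonneg cd0' (by linarith : 0 ≤ 1 + Real.cos s')
      linarith
    linarith

end Q76.Nd
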