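import Pool.Agent.Q76.NdSinc
import Pool.Agent.Q76.NdIneq

/-!
# The extremal function has spectrum in the disc
-/

namespace Q76.Nd

open Real Set MeasureTheory Filter Topology FourierTransform
open scoped ContDiff

/-- The waves. -/
noncomputable def Sf (l : ℝ) (x : P2) : ℂ :=
  l * ∫ p, (Real.sin p.1 : ℂ) * (𝐞 (inner ℝ (l • Xp p) x) : ℂ) ∂mu

lemma char_norm (t : ℝ) : ‖(𝐞 t : ℂ)‖ = 1 := Circle.norm_coe _

lemma Sf_test {l : ℝ} (hl : |l| ≤ 1) {ψ : P2 → ℂ} (h1 : ContDiff ℝ ∞ ψ) (h2 : HasCompactSupport ψ)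
    (h3 : Disjoint (tsupport ψ) (Metric.closedBall 0 1)) :
    ∫ x, Sf l x * 𝓕 ψ x = 0 := by
  have hint := integrable_fourier h2 h1
  have hsin : Integrable (fun p : ℝ × ℝ => (Real.sin p.1 : ℂ)) mu :=
    integrable_mu (C := 1) (by fun_prop) (fun p => by
      rw [Complex.norm_real]; exact Real.abs_sin_le_one _)
  have hchar : Continuous (fun z : P2 × (ℝ × ℝ) => (𝐞 (inner ℝ (l • Xp z.2) z.1) : ℂ)) := by
    have := continuous_Xp
    have h0 : Continuous (fun z : P2 × (ℝ × ℝ) => (inner ℝ (l • Xp z.2) z.1 : ℝ)) := by fun_prop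
    exact continuous_subtype_val.comp (Real.continuous_fourierChar.comp h0)
  have hprod : Integrable (fun z : P2 × (ℝ × ℝ) =>
      (𝐞 (inner ℝ (l • Xp z.2) z.1) : ℂ) * (𝓕 ψ z.1 * (Real.sin z.2.1 : ℂ)))
      (volume.prod mu) := by
    refine (hint.mul_prod hsin).bdd_mul (c := 1) hchar.aestronglyMeasurable
      (Filter.Eventually.of_forall (fun z => (char_norm _).le))
  have e1 : ∀ x : P2, Sf l x * 𝓕 ψ x =
      l * ∫ p, (𝐞 (inner ℝ (l • Xp p) x) : ℂ) * (𝓕 ψ x * (Real.sin p.1 : ℂ)) ∂mu := by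
    intro x
    rw [Sf, mul_assoc, ← integral_mul_const]
    congr 2
    funext p
    ring
  simp only [e1]
  rw [integral_const_mul, integral_integral_swap hprod]
  have e2 : ∀ p : ℝ × ℝ, ∫ x, (𝐞 (inner ℝ (l • Xp p) x) : ℂ) * (𝓕 ψ x * (Real.sin p.1 : ℂ)) = 0 := by
    intro p
    have h4 : 𝓕⁻ (𝓕 ψ) (l • Xp p) = ψ (l • Xp p) := by
      have := h1.continuous.fourierInv_fourier_eq (h1.continuous.integrable_of_hasCompactSupport h2)
        hint
      rw [this]
    rw [Real.fourierInv_eq] at h4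
    have h5 : ψ (l • Xp p) = 0 := by
      apply image_eq_zero_of_notMem_tsupport
      intro h6
      refine (Set.disjoint_left.1 h3) h6 ?_
      rw [Metric.mem_closedBall, dist_zero_right, norm_smul, Real.norm_eq_abs]
      exact mul_le_one₀ hl (norm_nonneg _) (norm_Xp_le p)
    rw [h5] at h4
    have e3 : ∀ x, (𝐞 (inner ℝ (l • Xp p) x) : ℂ) * (𝓕 ψ x * (Real.sin p.1 : ℂ)) =
        (𝐞 (inner ℝ x (l • Xp p)) • 𝓕 ψ x) * (Real.sin p.1 : ℂ) := by
      intro x
      rw [Circle.smul_def, smul_eq_mul, real_inner_comm]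
      ring
    simp only [e3]
    rw [integral_mul_const, h4, zero_mul]
  simp only [e2]
  simp

lemma Sf_eq (l : ℝ) (x : P2) :
    (2 * π * ‖x‖ : ℝ) * Sf l x = 4 * π * Real.sin (2 * π * l * ‖x‖) := by
  have h := wave (2 * π * l * x 0) (2 * π * l * x 1)
  have e0 : √((2 * π * l * x 0) ^ 2 + (2 * π * l * x 1) ^ 2) = |2 * π * l| * ‖x‖ := by
    rw [← Real.sqrt_sq (norm_nonneg x), norm_sq_eq, ← Real.sqrt_sq_eq_abs,
      ← Real.sqrt_mul (sq_nonneg _)]
    congr 1; ring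
  rw [e0] at h
  have e1 : ∀ p : ℝ × ℝ, Complex.exp (Complex.I *
      (Real.sin p.1 * (2 * π * l * x 0 * Real.cos p.2 + 2 * π * l * x 1 * Real.sin p.2) : ℝ)) =
      (𝐞 (inner ℝ (l • Xp p) x) : ℂ) := by
    intro p
    rw [Real.fourierChar_apply, inner_smul_left, inner_Xp]
    simp only [conj_trivial]
    rw [mul_comm Complex.I]
    congr 3
    ring
  simp only [e1] at h
  rw [Sf]
  set J := ∫ p, (Real.sin p.1 : ℂ) * (𝐞 (inner ℝ (l • Xp p) x) : ℂ) ∂mu with hJ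
  have hI := Complex.I_ne_zero
  rcases le_total 0 l with hl | hl
  · rw [abs_of_nonneg (by positivity)] at h
    have h' : Complex.I * ((2 * π * ‖x‖ : ℝ) * (l * J)) =
        Complex.I * (4 * π * Real.sin (2 * π * l * ‖x‖)) := by
      push_cast at h ⊢
      linear_combination h
    exact mul_left_cancel₀ hI h'
  · rw [abs_of_nonpos (by have := Real.pi_pos; nlinarith)] at h
    have e2 : -(2 * π * l) * ‖x‖ = -(2 * π * l * ‖x‖) := by ring
    rw [e2, Real.sin_neg] at h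
    have h' : Complex.I * ((2 * π * ‖x‖ : ℝ) * (l * J)) =
        Complex.I * (4 * π * Real.sin (2 * π * l * ‖x‖)) := by
      push_cast at h ⊢
      linear_combination -h
    exact mul_left_cancel₀ hI h'

/-- The difference quotients. -/
noncomputable def Qf (n : ℕ) (x : P2) : ℂ :=
  (Sf 1 x - Sf (1 - 1 / ((n : ℝ) + 1)) x) * (((n : ℝ) + 1) / (4 * π) : ℝ)

/-- Their value. -/
noncomputable def qr (n : ℕ) (x : P2) : ℝ :=
  (((n + 1 : ℕ) : ℝ) * Real.sin (π * ‖x‖ / ((n + 1 : ℕ) : ℝ))) / (π * ‖x‖) *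
      Real.cos (2 * π * ‖x‖ - π * ‖x‖ / ((n + 1 : ℕ) : ℝ))

lemma Sf_real (l : ℝ) {x : P2} (hx : x ≠ 0) :
    Sf l x = ((2 * Real.sin (2 * π * l * ‖x‖) / ‖x‖ : ℝ) : ℂ) := by
  have hx' : 0 < ‖x‖ := norm_pos_iff.2 hx
  have hπ := Real.pi_pos
  have hc : ((2 * π * ‖x‖ : ℝ) : ℂ) ≠ 0 := by
    exact_mod_cast (by positivity : (0 : ℝ) < 2 * π * ‖x‖).ne'
  have h := Sf_eq l x
  rw [mul_comm, ← eq_div_iff hc] at h
  rw [h]
  push_cast
  have h2 : (‖x‖ : ℂ) ≠ 0 := by exact_mod_cast hx'.ne'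
  have h3 : (π : ℂ) ≠ 0 := by exact_mod_cast hπ.ne'
  field_simp
  ring

lemma Qf_eq (n : ℕ) {x : P2} (hx : x ≠ 0) : Qf n x = (qr n x : ℂ) := by
  have hn : (0 : ℝ) < (n : ℝ) + 1 := by positivity
  have hx' : 0 < ‖x‖ := norm_pos_iff.2 hx
  have hπ := Real.pi_pos
  rw [Qf, Sf_real _ hx, Sf_real _ hx, ← Complex.ofReal_sub, ← Complex.ofReal_mul]
  congr 1
  rw [qr]
  push_cast
  have e1 : Real.sin (2 * π * 1 * ‖x‖) - Real.sin (2 * π * (1 - 1 / ((n : ℝ) + 1)) * ‖x‖) =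
      2 * Real.sin (π * ‖x‖ / (n + 1)) * Real.cos (2 * π * ‖x‖ - π * ‖x‖ / (n + 1)) := by
    rw [Real.sin_sub_sin]
    congr 2
    · congr 1
      field_simp
      ring
    · field_simp
      ring
  have e2 : (2 * Real.sin (2 * π * 1 * ‖x‖) / ‖x‖ -
      2 * Real.sin (2 * π * (1 - 1 / ((n : ℝ) + 1)) * ‖x‖) / ‖x‖) * (((n : ℝ) + 1) / (4 * π)) =
      (Real.sin (2 * π * 1 * ‖x‖) - Real.sin (2 * π * (1 - 1 / ((n : ℝ) + 1)) * ‖x‖)) *
        (((n : ℝ) + 1) / (2 * π * ‖x‖)) := by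
    field_simp
    ring
  rw [e2, e1]
  field_simp

lemma abs_qr_le (n : ℕ) {x : P2} (hx : x ≠ 0) : |qr n x| ≤ 1 := by
  have hn : (0 : ℝ) < ((n + 1 : ℕ) : ℝ) := by positivity
  have hx' : 0 < ‖x‖ := norm_pos_iff.2 hx
  have hπ := Real.pi_pos
  rw [qr, abs_mul]
  refine mul_le_one₀ ?_ (abs_nonneg _) (Real.abs_cos_le_one _)
  rw [abs_div, abs_mul, abs_of_pos hn, abs_of_pos (by positivity : 0 < π * ‖x‖),
    div_le_one (by positivity)]
  have h1 : |Real.sin (π * ‖x‖ / ((n + 1 : ℕ) : ℝ))| ≤ π * ‖x‖ / ((n + 1 : ℕ) : ℝ) := by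
    refine Real.abs_sin_le_abs.trans (le_of_eq (abs_of_pos (by positivity)))
  calc ((n + 1 : ℕ) : ℝ) * |Real.sin (π * ‖x‖ / ((n + 1 : ℕ) : ℝ))|
      ≤ ((n + 1 : ℕ) : ℝ) * (π * ‖x‖ / ((n + 1 : ℕ) : ℝ)) := by gcongr
    _ = π * ‖x‖ := by field_simp

lemma tendsto_qr {x : P2} (hx : x ≠ 0) :
    Tendsto (fun n => qr n x) atTop (𝓝 (Real.cos (2 * π * ‖x‖))) := by
  have hx' : 0 < ‖x‖ := norm_pos_iff.2 hx
  have hπ := Real.pi_pos
  have h1 := (tendsto_add_atTop_iff_nat 1).2 (tendsto_mul_sin (π * ‖x‖))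
  have h2 := h1.div_const (π * ‖x‖)
  rw [div_self (by positivity)] at h2
  have h3 := (tendsto_add_atTop_iff_nat 1).2 (tendsto_const_div_atTop_nhds_zero_nat (π * ‖x‖))
  have h4 := (Real.continuous_cos.tendsto _).comp (h3.const_sub (2 * π * ‖x‖))
  have h5 := h2.mul h4
  rw [sub_zero, one_mul] at h5
  exact h5

lemma continuous_Sf (l : ℝ) : Continuous (Sf l) := by
  unfold Sf
  refine continuous_const.mul ?_
  refine continuous_of_dominated (bound := fun _ => 1) (fun x => ?_) (fun x => ?_)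
    (integrable_const _) (Filter.Eventually.of_forall (fun p => ?_))
  · have := continuous_Xp
    have h0 : Continuous (fun p : ℝ × ℝ => (inner ℝ (l • Xp p) x : ℝ)) := by fun_prop
    have h1 := continuous_subtype_val.comp (Real.continuous_fourierChar.comp h0)
    exact ((by fun_prop : Continuous (fun p : ℝ × ℝ => (Real.sin p.1 : ℂ))).mul
      h1).aestronglyMeasurable
  · refine Filter.Eventually.of_forall (fun p => ?_)
    rw [norm_mul, char_norm, mul_one, Complex.norm_real]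
    exact Real.abs_sin_le_one _
  · have h0 : Continuous (fun x : P2 => (inner ℝ (l • Xp p) x : ℝ)) := by fun_prop
    exact continuous_const.mul (continuous_subtype_val.comp
      (Real.continuous_fourierChar.comp h0))

lemma norm_Sf_le (l : ℝ) (x : P2) : ‖Sf l x‖ ≤ |l| * mu.real univ := by
  rw [Sf, norm_mul, Complex.norm_real, Real.norm_eq_abs]
  refine mul_le_mul_of_nonneg_left ?_ (abs_nonneg _)
  refine (norm_integral_le_of_norm_le_const (C := 1) (Filter.Eventually.of_forall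
    (fun p => ?_))).trans (le_of_eq (one_mul _))
  rw [norm_mul, char_norm, mul_one, Complex.norm_real]
  exact Real.abs_sin_le_one _

/-- The cosine of the distance to the origin has spectrum in the disc. -/
lemma cos_test {ψ : P2 → ℂ} (h1 : ContDiff ℝ ∞ ψ) (h2 : HasCompactSupport ψ)
    (h3 : Disjoint (tsupport ψ) (Metric.closedBall 0 1)) :
    ∫ x : P2, (Real.cos (2 * π * ‖x‖) : ℂ) * 𝓕 ψ x = 0 := by
  have hint := integrable_fourier h2 h1
  have hSi : ∀ l, Integrable (fun x => Sf l x * 𝓕 ψ x) := fun l =>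
    hint.bdd_mul (continuous_Sf l).aestronglyMeasurable
      (Filter.Eventually.of_forall (fun x => norm_Sf_le l x))
  have hz : ∀ n, ∫ x, Qf n x * 𝓕 ψ x = 0 := by
    intro n
    have e : ∀ x, Qf n x * 𝓕 ψ x = (((n : ℝ) + 1) / (4 * π) : ℝ) *
        (Sf 1 x * 𝓕 ψ x - Sf (1 - 1 / ((n : ℝ) + 1)) x * 𝓕 ψ x) := by
      intro x; rw [Qf]; ring
    simp only [e]
    rw [integral_const_mul, integral_sub (hSi _) (hSi _), Sf_test (by simp) h1 h2 h3,
      Sf_test ?_ h1 h2 h3]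
    · simp
    · have hn : (0 : ℝ) < (n : ℝ) + 1 := by positivity
      have h4 : 1 / ((n : ℝ) + 1) ≤ 1 := by
        rw [div_le_one hn]; linarith [(Nat.cast_nonneg n : (0 : ℝ) ≤ n)]
      have h5 : 0 < 1 / ((n : ℝ) + 1) := by positivity
      rw [abs_le]; constructor <;> linarith
  have hae : ∀ᵐ x : P2, x ≠ 0 := by
    have : volume ({0} : Set P2) = 0 := measure_singleton 0
    exact (measure_eq_zero_iff_ae_notMem.1 this)
  have hlim : Tendsto (fun n => ∫ x, Qf n x * 𝓕 ψ x) atTop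
      (𝓝 (∫ x : P2, (Real.cos (2 * π * ‖x‖) : ℂ) * 𝓕 ψ x)) := by
    refine tendsto_integral_of_dominated_convergence (fun x => ‖𝓕 ψ x‖) (fun n => ?_) hint.norm
      (fun n => ?_) ?_
    · have hc : Continuous (Qf n) := by
        unfold Qf
        exact ((continuous_Sf _).sub (continuous_Sf _)).mul continuous_const
      exact hc.aestronglyMeasurable.mul hint.aestronglyMeasurable
    · filter_upwards [hae] with x hx
      rw [norm_mul, Qf_eq n hx, Complex.norm_real]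
      exact mul_le_of_le_one_left (norm_nonneg _) (abs_qr_le n hx)
    · filter_upwards [hae] with x hx
      refine Tendsto.mul_const _ ?_
      have h4 := (Complex.continuous_ofReal.tendsto _).comp (tendsto_qr hx)
      refine h4.congr (fun n => ?_)
      rw [Qf_eq n hx]; rfl
  have h0 := tendsto_nhds_unique hlim (tendsto_const_nhds.congr (fun n => (hz n).symm))
  exact h0

lemma InG_cos : InG (fun x => (Real.cos (2 * π * ‖x‖) : ℂ)) := by
  refine ⟨by fun_prop, ⟨1, fun x => ?_⟩, fun ψ h1 h2 h3 => cos_test h1 h2 h3⟩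
  rw [Complex.norm_real]; exact Real.abs_cos_le_one _

lemma InG.translate {g : P2 → ℂ} (hg : InG g) (c : P2) : InG (fun x => g (x + c)) := by
  obtain ⟨hc, ⟨C, hC⟩, ht⟩ := hg
  refine ⟨hc.comp (continuous_add_const c), ⟨C, fun x => hC _⟩, fun ψ h1 h2 h3 => ?_⟩
  set ψ' : P2 → ℂ := fun t => ψ t * (𝐞 (inner ℝ t c) : ℂ) with hψ
  have hch : ContDiff ℝ ∞ (fun t : P2 => (𝐞 (inner ℝ t c) : ℂ)) := by
    simp only [Real.fourierChar_apply]
    have h0 : ContDiff ℝ ∞ (fun t : P2 => 2 * π * (inner ℝ t c : ℝ)) :=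
      contDiff_const.mul (contDiff_id.inner ℝ contDiff_const)
    exact ((Complex.ofRealCLM.contDiff.comp h0).mul contDiff_const).cexp
  have h4 := ht ψ' (h1.mul hch) h2.mul_right (h3.mono_left (tsupport_mul_subset_left))
  have h5 : ∀ x, 𝓕 ψ' x = 𝓕 ψ (x - c) := by
    intro x
    rw [Real.fourier_eq, Real.fourier_eq]
    congr 1
    funext t
    rw [Circle.smul_def, Circle.smul_def, smul_eq_mul, smul_eq_mul]
    simp only [hψ]
    have e1 : (𝐞 (-(inner ℝ t x)) : ℂ) * (𝐞 (inner ℝ t c) : ℂ) = (𝐞 (-(inner ℝ t (x - c))) : ℂ) := by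
      rw [← Circle.coe_mul, ← AddChar.map_add_eq_mul]
      congr 2
      rw [inner_sub_right]
      ring
    rw [← e1]
    ring
  rw [← h4, ← integral_add_right_eq_self (fun x => g x * 𝓕 ψ' x) c]
  congr 1
  funext x
  rw [h5, add_sub_cancel_right]

lemma InG.add {f g : P2 → ℂ} (hf : InG f) (hg : InG g) : InG (fun x => f x + g x) := by
  obtain ⟨hc, ⟨C, hC⟩, ht⟩ := hf
  obtain ⟨hc', ⟨C', hC'⟩, ht'⟩ := hg
  refine ⟨hc.add hc', ⟨C + C', fun x => (norm_add_le _ _).trans (add_le_add (hC x) (hC' x))⟩,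
    fun ψ h1 h2 h3 => ?_⟩
  have hint := integrable_fourier h2 h1
  have i1 : Integrable (fun x => f x * 𝓕 ψ x) := hint.bdd_mul hc.aestronglyMeasurable
      (Filter.Eventually.of_forall hC)
  have i2 : Integrable (fun x => g x * 𝓕 ψ x) := hint.bdd_mul hc'.aestronglyMeasurable
      (Filter.Eventually.of_forall hC')
  simp only [add_mul]
  rw [integral_add i1 i2, ht ψ h1 h2 h3, ht' ψ h1 h2 h3, add_zero]

lemma InG.const_mul {f : P2 → ℂ} (hf : InG f) (a : ℂ) : InG (fun x => a * f x) := by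
  obtain ⟨hc, ⟨C, hC⟩, ht⟩ := hf
  refine ⟨continuous_const.mul hc, ⟨‖a‖ * C, fun x => ?_⟩, fun ψ h1 h2 h3 => ?_⟩
  · rw [norm_mul]; exact mul_le_mul_of_nonneg_left (hC x) (norm_nonneg _)
  · simp only [mul_assoc]
    rw [integral_const_mul, ht ψ h1 h2 h3, mul_zero]

end Q76.Nd
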