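import Pool.Agent.Q76.NdSpec

/-!
# The node formula for the mixed second derivative
-/

namespace Q76.Nd

open Real Set MeasureTheory Filter Topology FourierTransform
open scoped ContDiff

/-- The first basis vector. -/
noncomputable def e1 : P2 := EuclideanSpace.single 0 1
/-- The second basis vector. -/
noncomputable def e2 : P2 := EuclideanSpace.single 1 1
/-- The first diagonal unit vector. -/
noncomputable def du : P2 := (√2)⁻¹ • (e1 + e2)
/-- The second diagonal unit vector. -/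
noncomputable def dw : P2 := (√2)⁻¹ • (e1 - e2)

/-- The mixed second derivative. -/
noncomputable def T (f : P2 → ℂ) : P2 → ℂ := D e1 (D e2 f)

lemma inner_e1 (v : P2) : inner ℝ v e1 = v 0 := by
  rw [e1, EuclideanSpace.inner_single_right]; simp

lemma inner_e2 (v : P2) : inner ℝ v e2 = v 1 := by
  rw [e2, EuclideanSpace.inner_single_right]; simp

lemma inner_du (v : P2) : inner ℝ v du = (√2)⁻¹ * (v 0 + v 1) := by
  rw [du, inner_smul_right, inner_add_right, inner_e1, inner_e2]

lemma inner_dw (v : P2) : inner ℝ v dw = (√2)⁻¹ * (v 0 - v 1) := by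
  rw [dw, inner_smul_right, inner_sub_right, inner_e1, inner_e2]

lemma inv_sqrt_two_sq : ((√2)⁻¹ : ℝ) ^ 2 = 1 / 2 := by
  rw [inv_pow, Real.sq_sqrt (by norm_num)]; norm_num

lemma norm_sq_eq (v : P2) : ‖v‖ ^ 2 = v 0 ^ 2 + v 1 ^ 2 := by
  rw [EuclideanSpace.norm_sq_eq]; simp

lemma norm_of_sq {v : P2} (h : v 0 ^ 2 + v 1 ^ 2 = 1) : ‖v‖ = 1 := by
  have h1 := norm_sq_eq v
  rw [h] at h1
  have h2 := norm_nonneg v
  nlinarith

lemma norm_du : ‖du‖ = 1 := by
  have h := inner_du du
  rw [real_inner_self_eq_norm_sq] at h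
  have h0 : du 0 = (√2)⁻¹ := by simp [du, e1, e2]
  have h1 : du 1 = (√2)⁻¹ := by simp [du, e1, e2]
  refine norm_of_sq ?_
  rw [h0, h1, inv_sqrt_two_sq]; norm_num

lemma norm_dw : ‖dw‖ = 1 := by
  have h0 : dw 0 = (√2)⁻¹ := by simp [dw, e1, e2]
  have h1 : dw 1 = -(√2)⁻¹ := by simp [dw, e1, e2]
  refine norm_of_sq ?_
  rw [h0, h1, neg_sq, inv_sqrt_two_sq]; norm_num

lemma T_fourier {k : P2 → ℂ} (hk : CC k) :
    T (𝓕 k) 0 = -4 * π ^ 2 * ∫ v, ((v 0 * v 1 : ℝ) : ℂ) * k v := by
  rw [T, hk.D_fourier, (hk.sym _).D_fourier, fourier_zero_eq, ← integral_const_mul]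
  congr 1
  funext v
  rw [symI, symI, inner_e1, inner_e2]
  push_cast
  linear_combination (4 * π ^ 2 * v 0 * v 1 * k v : ℂ) * Complex.I_sq

lemma fourier_pair (k : P2 → ℂ) (hk : CC k) (a : P2) (t : ℝ) :
    𝓕 k (t • a) + 𝓕 k (-(t • a)) =
      ∫ v, ((2 * Real.cos (2 * π * t * inner ℝ v a) : ℝ) : ℂ) * k v := by
  have hi : ∀ x : P2, Integrable (fun v => 𝐞 (-(inner ℝ v x)) • k v) := by
    intro x
    exact (Real.fourierIntegral_convergent_iff x).2 hk.integrable
  rw [Real.fourier_eq, Real.fourier_eq, ← integral_add (hi _) (hi _)]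
  congr 1
  funext v
  rw [Circle.smul_def, Circle.smul_def, smul_eq_mul, smul_eq_mul, ← add_mul]
  congr 1
  rw [inner_neg_right, inner_smul_right, neg_neg, Real.fourierChar_apply, Real.fourierChar_apply]
  push_cast
  rw [Complex.cos]
  have e1 : 2 * (π : ℂ) * -(t * (inner ℝ v a : ℝ)) * Complex.I =
    -(2 * π * t * (inner ℝ v a : ℝ)) * Complex.I := by ring
  have e2 : 2 * (π : ℂ) * (t * (inner ℝ v a : ℝ)) * Complex.I =
    (2 * π * t * (inner ℝ v a : ℝ)) * Complex.I := by ring
  rw [e1, e2]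
  ring

lemma hasSum_direction {k : P2 → ℂ} (hk : CC k) {ρ : ℝ} (hρ : 0 < ρ)
    (hsupp : ∀ v, ρ < ‖v‖ → k v = 0) {a : P2} (ha : ‖a‖ = 1) :
    HasSum (fun n : ℕ => (bet n : ℂ) * (𝓕 k ((nd n / (2 * π * ρ)) • a) +
        𝓕 k (-((nd n / (2 * π * ρ)) • a))))
      (∫ v, ((2 * (2 / π - π / 2 * (inner ℝ v a / ρ) ^ 2) : ℝ) : ℂ) * k v) := by
  have hπ := Real.pi_pos
  set F : ℕ → P2 → ℂ := fun n v =>
    ((bet n * (2 * Real.cos (inner ℝ v a / ρ * nd n)) : ℝ) : ℂ) * k v with hF
  have hFc : ∀ n, CC (F n) := by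
    intro n
    constructor
    · have := hk.1
      simp only [hF]
      fun_prop
    · exact hk.2.mul_left
  have h1 : ∀ n, Integrable (F n) := fun n => (hFc n).integrable
  have h2 : Summable (fun n => ∫ v, ‖F n v‖) := by
    refine Summable.of_nonneg_of_le (fun n => integral_nonneg (fun v => norm_nonneg _))
      (fun n => ?_) (bet_summable.mul_right (2 * ∫ v, ‖k v‖))
    calc ∫ v, ‖F n v‖ ≤ ∫ v, |bet n| * 2 * ‖k v‖ := by
          refine integral_mono (h1 n).norm (hk.integrable.norm.const_mul _) (fun v => ?_)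
          simp only [hF]
          rw [norm_mul, Complex.norm_real, Real.norm_eq_abs, abs_mul, abs_mul]
          refine mul_le_mul_of_nonneg_right ?_ (norm_nonneg _)
          refine mul_le_mul_of_nonneg_left ?_ (abs_nonneg _)
          rw [abs_of_pos (by norm_num : (0 : ℝ) < 2)]
          have := Real.abs_cos_le_one (inner ℝ v a / ρ * nd n)
          linarith
      _ = |bet n| * (2 * ∫ v, ‖k v‖) := by rw [integral_const_mul]; ring
  have h3 := hasSum_integral_of_summable_integral_norm h1 h2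
  have h4 : ∀ v, ∑' n, F n v = ((2 * (2 / π - π / 2 * (inner ℝ v a / ρ) ^ 2) : ℝ) : ℂ) * k v := by
    intro v
    by_cases hv : ρ < ‖v‖
    · simp [hF, hsupp v hv]
    · push Not at hv
      have h5 : |inner ℝ v a / ρ| ≤ 1 := by
        rw [abs_div, abs_of_pos hρ, div_le_one hρ]
        refine (abs_real_inner_le_norm v a).trans ?_
        rw [ha, mul_one]; exact hv
      have h6 := (node_series h5).mul_left 2
      have h7 : HasSum (fun n => F n v)
          (((2 * (2 / π - π / 2 * (inner ℝ v a / ρ) ^ 2) : ℝ) : ℂ) * k v) := by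
        have h8 := (Complex.hasSum_ofReal.2 h6).mul_right (k v)
        refine h8.congr_fun (fun n => ?_)
        simp only [hF]
        congr 2
        ring
      exact h7.tsum_eq
  rw [integral_congr_ae (Filter.Eventually.of_forall h4)] at h3
  refine h3.congr_fun (fun n => ?_)
  rw [fourier_pair k hk, ← integral_const_mul]
  congr 1
  funext v
  simp only [hF]
  have e : 2 * π * (nd n / (2 * π * ρ)) * inner ℝ v a = inner ℝ v a / ρ * nd n := by
    field_simp
  rw [e]
  push_cast
  ring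

/-- The node sum at scale `r` around `y`. -/
noncomputable def ndsum (g : P2 → ℂ) (r : ℝ) (y : P2) (n : ℕ) : ℂ :=
  (bet n : ℂ) * (g ((r * nd n) • du + y) + g (-((r * nd n) • du) + y)
    - g ((r * nd n) • dw + y) - g (-((r * nd n) • dw) + y))

lemma hasSum_fourier {k : P2 → ℂ} (hk : CC k) {ρ : ℝ} (hρ : 0 < ρ)
    (hsupp : ∀ v, ρ < ‖v‖ → k v = 0) :
    HasSum (ndsum (𝓕 k) (1 / (2 * π * ρ)) 0) (T (𝓕 k) 0 / (2 * π * ρ ^ 2)) := by
  have hπ := Real.pi_pos
  have h1 := hasSum_direction hk hρ hsupp norm_du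
  have h2 := hasSum_direction hk hρ hsupp norm_dw
  have h3 := h1.sub h2
  have hcc : ∀ a : P2, CC (fun v => ((2 * (2 / π - π / 2 * (inner ℝ v a / ρ) ^ 2) : ℝ) : ℂ) * k v) := by
    intro a
    constructor
    · have := hk.1
      fun_prop
    · exact hk.2.mul_left
  rw [← integral_sub (hcc _).integrable (hcc _).integrable] at h3
  have e : (∫ v, ((2 * (2 / π - π / 2 * (inner ℝ v du / ρ) ^ 2) : ℝ) : ℂ) * k v -
      ((2 * (2 / π - π / 2 * (inner ℝ v dw / ρ) ^ 2) : ℝ) : ℂ) * k v) =
      T (𝓕 k) 0 / (2 * π * ρ ^ 2) := by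
    rw [T_fourier hk]
    have hρ' : (ρ : ℂ) ≠ 0 := by exact_mod_cast hρ.ne'
    have hπ' : (π : ℂ) ≠ 0 := by exact_mod_cast hπ.ne'
    have e3 : -4 * (π : ℂ) ^ 2 * (∫ v, ((v 0 * v 1 : ℝ) : ℂ) * k v) / (2 * π * ρ ^ 2) =
        (-2 * π / ρ ^ 2) * ∫ v, ((v 0 * v 1 : ℝ) : ℂ) * k v := by
      field_simp
      ring
    rw [e3, ← integral_const_mul]
    congr 1
    funext v
    rw [inner_du, inner_dw, ← sub_mul, ← mul_assoc]
    congr 1
    have e4 : 2 * (2 / π - π / 2 * ((√2)⁻¹ * (v 0 + v 1) / ρ) ^ 2) -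
        2 * (2 / π - π / 2 * ((√2)⁻¹ * (v 0 - v 1) / ρ) ^ 2) = (-2 * π / ρ ^ 2) * (v 0 * v 1) := by
      have h5 := inv_sqrt_two_sq
      rw [div_pow, div_pow, mul_pow, mul_pow, h5]
      field_simp
      ring
    exact_mod_cast e4
  rw [e] at h3
  refine h3.congr_fun (fun n => ?_)
  rw [ndsum]
  have e5 : 1 / (2 * π * ρ) * nd n = nd n / (2 * π * ρ) := by ring
  rw [e5]
  simp only [add_zero]
  ring

/-- Functions with spectrum in the disc are smooth. -/
lemma InG.contDiff {g : P2 → ℂ} (hg : InG g) : ContDiff ℝ ∞ g := by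
  rw [contDiff_iff_contDiffAt]
  intro y
  obtain ⟨k, hk, -, hloc⟩ := exists_loc one_pos hg y
  have h1 : ∀ᶠ x in 𝓝 (0 : P2), eta 1 one_pos x ≠ 0 := by
    refine (continuous_eta one_pos).continuousAt.eventually_ne ?_
    rw [eta_zero]; exact one_ne_zero
  have hsm : ContDiff ℝ ∞ (eta 1 one_pos) := (cc_bb one_pos).contDiff
  have h2 : ContDiffAt ℝ ∞ (fun x => 𝓕 k x * (eta 1 one_pos x)⁻¹) 0 := by
    refine (hk.contDiff.contDiffAt).mul (hsm.contDiffAt.inv ?_)
    rw [eta_zero]; exact one_ne_zero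
  have h3 : ContDiffAt ℝ ∞ (fun x => g (x + y)) 0 := by
    refine h2.congr_of_eventuallyEq ?_
    filter_upwards [h1] with x hx
    rw [← hloc, loc, mul_assoc, mul_inv_cancel₀ hx, mul_one]
  have h4 : ContDiffAt ℝ ∞ ((fun x => g (x + y)) ∘ (fun x => x - y)) y := by
    refine ContDiffAt.comp y ?_ (contDiffAt_id.sub contDiffAt_const)
    rw [sub_self]; exact h3
  simpa [Function.comp_def] using h4

lemma D_mul {f g : P2 → ℂ} (hf : ContDiff ℝ ∞ f) (hg : ContDiff ℝ ∞ g) (e : P2) :
    D e (fun x => f x * g x) = fun x => D e f x * g x + f x * D e g x := by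
  funext x
  have h1 := (hf.differentiable (by simp) x).hasFDerivAt
  have h2 := (hg.differentiable (by simp) x).hasFDerivAt
  have h3 : fderiv ℝ (fun x => f x * g x) x = f x • fderiv ℝ g x + g x • fderiv ℝ f x :=
    (h1.mul h2).fderiv
  rw [D, h3]
  simp only [D, add_apply, smul_apply, smul_eq_mul]
  ring

lemma contDiff_D {f : P2 → ℂ} (hf : ContDiff ℝ ∞ f) (e : P2) : ContDiff ℝ ∞ (D e f) := by
  unfold D
  exact (hf.fderiv_right (m := ∞) (by simp)).clm_apply contDiff_const

lemma D_add {f g : P2 → ℂ} (hf : ContDiff ℝ ∞ f) (hg : ContDiff ℝ ∞ g) (e : P2) :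
    D e (fun x => f x + g x) = fun x => D e f x + D e g x := by
  funext x
  have h1 := (hf.differentiable (by simp) x).hasFDerivAt
  have h2 := (hg.differentiable (by simp) x).hasFDerivAt
  have h3 : fderiv ℝ (fun x => f x + g x) x = fderiv ℝ f x + fderiv ℝ g x :=
    (h1.add h2).fderiv
  rw [D, h3]
  rfl

lemma T_mul {f g : P2 → ℂ} (hf : ContDiff ℝ ∞ f) (hg : ContDiff ℝ ∞ g) (x : P2) :
    T (fun x => f x * g x) x =
      T f x * g x + D e2 f x * D e1 g x + (D e1 f x * D e2 g x + f x * T g x) := by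
  rw [T, D_mul hf hg, D_add ((contDiff_D hf _).mul hg) (hf.mul (contDiff_D hg _)),
    D_mul (contDiff_D hf _) hg, D_mul hf (contDiff_D hg _)]
  rfl

lemma T_shift {g : P2 → ℂ} (y : P2) (x : P2) : T (fun x => g (x + y)) x = T g (x + y) := by
  have h1 : ∀ (e : P2) (f : P2 → ℂ), D e (fun x => f (x + y)) = fun x => D e f (x + y) := by
    intro e f
    funext x
    rw [D, D, fderiv_comp_add_right]
  rw [T, h1, h1]
  rfl

lemma norm_eta_sub_one (ε : ℝ) (hε : 0 < ε) (x : P2) : ‖eta ε hε x - 1‖ ≤ 2 * π * ε * ‖x‖ := by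
  have hi : Integrable (fun v => 𝐞 (-(inner ℝ v x)) • bb ε hε v) :=
    (Real.fourierIntegral_convergent_iff x).2 (cc_bb hε).integrable
  have h1 : eta ε hε x - 1 = ∫ v, (𝐞 (-(inner ℝ v x)) • bb ε hε v - bb ε hε v) := by
    rw [integral_sub hi (cc_bb hε).integrable, integral_bb, eta, Real.fourier_eq]
  rw [h1]
  refine (norm_integral_le_integral_norm _).trans ?_
  calc ∫ v, ‖𝐞 (-(inner ℝ v x)) • bb ε hε v - bb ε hε v‖
      ≤ ∫ v, 2 * π * ε * ‖x‖ * ‖bb ε hε v‖ := by
        refine integral_mono (hi.sub (cc_bb hε).integrable).norm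
          ((cc_bb hε).integrable.norm.const_mul _) (fun v => ?_)
        simp only
        rcases le_total ε ‖v‖ with h | h
        · rw [bb_eq_zero hε h]; simp
        · rw [Circle.smul_def, smul_eq_mul, ← sub_one_mul, norm_mul]
          refine mul_le_mul_of_nonneg_right ?_ (norm_nonneg _)
          rw [Real.fourierChar_apply, mul_comm _ Complex.I]
          refine (Real.norm_exp_I_mul_ofReal_sub_one_le).trans ?_
          rw [Real.norm_eq_abs, abs_mul, abs_neg, abs_of_pos (by positivity : 0 < 2 * π)]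
          have h2 := abs_real_inner_le_norm v x
          have h3 : |inner ℝ v x| ≤ ε * ‖x‖ := h2.trans (by gcongr)
          have h4 : 2 * π * |inner ℝ v x| ≤ 2 * π * (ε * ‖x‖) := by gcongr
          linarith
    _ = 2 * π * ε * ‖x‖ := by rw [integral_const_mul, integral_norm_bb, mul_one]

/-- The node sequences are dominated. -/
lemma norm_ndsum_le {g : P2 → ℂ} {C : ℝ} (hC : ∀ x, ‖g x‖ ≤ C) (r : ℝ) (y : P2) (n : ℕ) :
    ‖ndsum g r y n‖ ≤ |bet n| * (4 * C) := by
  rw [ndsum, norm_mul, Complex.norm_real, Real.norm_eq_abs]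
  refine mul_le_mul_of_nonneg_left ?_ (abs_nonneg _)
  have h1 := hC ((r * nd n) • du + y)
  have h2 := hC (-((r * nd n) • du) + y)
  have h3 := hC ((r * nd n) • dw + y)
  have h4 := hC (-((r * nd n) • dw) + y)
  refine (norm_sub_le _ _).trans ?_
  refine (add_le_add ((norm_sub_le _ _).trans (add_le_add (norm_add_le _ _) le_rfl)) le_rfl).trans ?_
  linarith

/-- **The node formula** (Mathlib normalisation). -/
theorem node_formula_G {g : P2 → ℂ} (hg : InG g) (y : P2) :
    T g y = 2 * π * ∑' n, ndsum g (1 / (2 * π)) y n := by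
  have hπ := Real.pi_pos
  obtain ⟨C, hC⟩ := hg.2.1
  have hC0 : 0 ≤ C := (norm_nonneg _).trans (hC 0)
  set E : ℕ → ℝ := fun n => 1 / ((n : ℝ) + 1) with hE
  have hEpos : ∀ n, 0 < E n := fun n => by simp only [hE]; positivity
  have hE0 : Tendsto E atTop (𝓝 0) := tendsto_one_div_add_atTop_nhds_zero_nat
  have hsm : ContDiff ℝ ∞ (fun x => g (x + y)) := hg.contDiff.comp (contDiff_id.add contDiff_const)
  have hes : ∀ n, ContDiff ℝ ∞ (eta (E n) (hEpos n)) := fun n => (cc_bb (hEpos n)).contDiff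
  -- left side
  have hL : Tendsto (fun n => T (loc (hEpos n) g y) 0) atTop (𝓝 (T g y)) := by
    have h1 : ∀ n, T (loc (hEpos n) g y) 0 = T g y +
        (D e2 (fun x => g (x + y)) 0 * D e1 (eta (E n) (hEpos n)) 0 +
        (D e1 (fun x => g (x + y)) 0 * D e2 (eta (E n) (hEpos n)) 0 +
          g y * T (eta (E n) (hEpos n)) 0)) := by
      intro n
      have : loc (hEpos n) g y = fun x => g (x + y) * eta (E n) (hEpos n) x := rfl
      rw [this, T_mul hsm (hes n), T_shift, eta_zero]
      simp only [zero_add]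
      ring
    have z1 : ∀ e : P2, Tendsto (fun n => D e (eta (E n) (hEpos n)) 0) atTop (𝓝 0) := by
      intro e
      refine squeeze_zero_norm (fun n => norm_D_eta_zero (hEpos n) e) ?_
      have := hE0.const_mul (2 * π * ‖e‖)
      simpa using this
    have z2 : Tendsto (fun n => T (eta (E n) (hEpos n)) 0) atTop (𝓝 0) := by
      refine squeeze_zero_norm (fun n => norm_DD_eta_zero (hEpos n) e2 e1) ?_
      have := (hE0.const_mul (2 * π * ‖e2‖)).mul (hE0.const_mul (2 * π * ‖e1‖))
      simpa using this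
    have h2 : Tendsto (fun n => T g y +
        (D e2 (fun x => g (x + y)) 0 * D e1 (eta (E n) (hEpos n)) 0 +
        (D e1 (fun x => g (x + y)) 0 * D e2 (eta (E n) (hEpos n)) 0 +
          g y * T (eta (E n) (hEpos n)) 0))) atTop
        (𝓝 (T g y + (D e2 (fun x => g (x + y)) 0 * 0 +
        (D e1 (fun x => g (x + y)) 0 * 0 + g y * 0)))) :=
      (((z1 e1).const_mul _).add (((z1 e2).const_mul _).add (z2.const_mul _))).const_add _
    simp only [mul_zero, add_zero] at h2
    exact h2.congr (fun n => (h1 n).symm)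
  -- formula for the localised functions
  have hF : ∀ n, T (loc (hEpos n) g y) 0 = 2 * π * (1 + E n) ^ 2 *
      ∑' m, ndsum (loc (hEpos n) g y) (1 / (2 * π * (1 + E n))) 0 m := by
    intro n
    obtain ⟨k, hk, hs, hloc⟩ := exists_loc (hEpos n) hg y
    have hρ : 0 < 1 + E n := by have := hEpos n; linarith
    have h1 := hasSum_fourier hk hρ hs
    rw [hloc, h1.tsum_eq]
    have hρ' : ((1 + E n : ℝ) : ℂ) ≠ 0 := by exact_mod_cast hρ.ne'
    have hπ' : (π : ℂ) ≠ 0 := by exact_mod_cast hπ.ne'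
    push_cast at hρ' ⊢
    field_simp
  -- right side
  have hR : Tendsto (fun n => 2 * π * (1 + (E n : ℂ)) ^ 2 *
      ∑' m, ndsum (loc (hEpos n) g y) (1 / (2 * π * (1 + E n))) 0 m) atTop
      (𝓝 (2 * π * (1 + ((0 : ℝ) : ℂ)) ^ 2 * ∑' m, ndsum g (1 / (2 * π)) y m)) := by
    have hEc : Tendsto (fun n => ((E n : ℝ) : ℂ)) atTop (𝓝 ((0 : ℝ) : ℂ)) :=
      (Complex.continuous_ofReal.tendsto 0).comp hE0
    refine ((hEc.const_add 1).pow 2 |>.const_mul _).mul ?_
    refine tendsto_tsum_of_dominated_convergence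
      (bound := fun m => |bet m| * (4 * C)) (bet_summable.mul_right _) (fun m => ?_)
      (Filter.Eventually.of_forall (fun n m => ?_))
    · -- pointwise convergence
      have hr : Tendsto (fun n => 1 / (2 * π * (1 + E n)) * nd m) atTop
          (𝓝 (1 / (2 * π) * nd m)) := by
        have : Tendsto (fun n => 1 / (2 * π * (1 + E n)) * nd m) atTop
          (𝓝 (1 / (2 * π * (1 + 0)) * nd m)) := by
          refine Tendsto.mul_const _ ?_
          refine tendsto_const_nhds.div ((hE0.const_add 1).const_mul _) ?_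
          positivity
        simpa using this
      have hp : ∀ (a : P2), Tendsto (fun n => loc (hEpos n) g y
          ((1 / (2 * π * (1 + E n)) * nd m) • a + 0)) atTop
          (𝓝 (g ((1 / (2 * π) * nd m) • a + y))) := by
        intro a
        have hx : Tendsto (fun n => (1 / (2 * π * (1 + E n)) * nd m) • a) atTop
            (𝓝 ((1 / (2 * π) * nd m) • a)) := hr.smul_const a
        have hg1 : Tendsto (fun n => g ((1 / (2 * π * (1 + E n)) * nd m) • a + y)) atTop
            (𝓝 (g ((1 / (2 * π) * nd m) • a + y))) :=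
          (hg.1.tendsto _).comp (hx.add_const y)
        have he1 : Tendsto (fun n => eta (E n) (hEpos n) ((1 / (2 * π * (1 + E n)) * nd m) • a))
            atTop (𝓝 1) := by
          rw [tendsto_iff_norm_sub_tendsto_zero]
          refine squeeze_zero (fun _ => norm_nonneg _)
            (fun n => norm_eta_sub_one (E n) (hEpos n) _) ?_
          have := (hE0.const_mul (2 * π)).mul hx.norm
          simpa using this
        have h3 := hg1.mul he1
        rw [mul_one] at h3
        refine h3.congr (fun n => ?_)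
        rw [loc, add_zero]
      have hp' : ∀ (a : P2), Tendsto (fun n => loc (hEpos n) g y
          (-((1 / (2 * π * (1 + E n)) * nd m) • a) + 0)) atTop
          (𝓝 (g (-((1 / (2 * π) * nd m) • a) + y))) := by
        intro a
        have := hp (-a)
        simpa only [smul_neg] using this
      unfold ndsum
      exact ((((hp du).add (hp' du)).sub (hp dw)).sub (hp' dw)).const_mul _
    · refine norm_ndsum_le (fun x => ?_) _ _ _
      rw [loc, norm_mul]
      exact (mul_le_of_le_one_right (norm_nonneg _) (norm_eta_le (hEpos n) x)).trans (hC _)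
  have hL' := hL.congr hF
  have h := tendsto_nhds_unique hL' hR
  rw [h]
  simp

end Q76.Nd
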