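import Pool.Agent.Q76.NdNode

/-!
# The cosine of the distance has spectrum in the disc
-/

namespace Q76.Nd

open Real Set MeasureTheory Filter Topology FourierTransform
open scoped ContDiff Nat

/-- The parameter measure of the sphere. -/
noncomputable def mu : Measure (ℝ × ℝ) :=
  (volume.restrict (Ioc 0 π)).prod (volume.restrict (Ioc 0 (2 * π)))

instance : IsFiniteMeasure (volume.restrict (Ioc 0 π)) := ⟨by simp⟩
instance : IsFiniteMeasure (volume.restrict (Ioc 0 (2 * π))) := ⟨by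
  rw [Measure.restrict_apply_univ]; exact measure_Ioc_lt_top⟩

instance : IsFiniteMeasure mu := by unfold mu; infer_instance

lemma integrable_mu {f : ℝ × ℝ → ℂ} (hf : Continuous f) {C : ℝ} (hC : ∀ p, ‖f p‖ ≤ C) :
    Integrable f mu :=
  Integrable.of_bound hf.aestronglyMeasurable C (Filter.Eventually.of_forall hC)

lemma AB : ∀ n : ℕ, (∫ θ in (0 : ℝ)..π, Real.sin θ ^ (n + 1)) *
    (∫ α in (0 : ℝ)..(2 * π), Real.sin α ^ n) = 2 * π * (1 + (-1) ^ n) / (n + 1)
  | 0 => by
    simp only [zero_add, pow_one, integral_sin, pow_zero, Real.cos_zero, Real.cos_pi,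
      intervalIntegral.integral_const, smul_eq_mul]
    norm_num
    ring
  | 1 => by
    simp only [pow_one, integral_sin, Real.cos_two_pi, Real.cos_zero]
    norm_num
  | (n + 2) => by
    have ih := AB n
    have h1 : ∫ θ in (0 : ℝ)..π, Real.sin θ ^ (n + 2 + 1) =
        (n + 2) / (n + 3) * ∫ θ in (0 : ℝ)..π, Real.sin θ ^ (n + 1) := by
      have := integral_sin_pow (n := n + 1) (a := 0) (b := π)
      rw [show n + 2 + 1 = n + 1 + 2 by ring, this]
      simp only [Real.sin_zero, Real.sin_pi]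
      push_cast
      rw [zero_pow (by omega), show (n : ℝ) + 1 + 1 = n + 2 by ring,
        show (n : ℝ) + 1 + 2 = n + 3 by ring]
      ring
    have h2 : ∫ θ in (0 : ℝ)..(2 * π), Real.sin θ ^ (n + 2) =
        (n + 1) / (n + 2) * ∫ θ in (0 : ℝ)..(2 * π), Real.sin θ ^ n := by
      have := integral_sin_pow (n := n) (a := 0) (b := 2 * π)
      rw [this]
      simp only [Real.sin_zero, Real.sin_two_pi]
      rw [zero_pow (by omega)]
      ring
    rw [h1, h2]
    have h3 : (n : ℝ) + 2 ≠ 0 := by positivity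
    have h4 : (n : ℝ) + 3 ≠ 0 := by positivity
    have h5 : (n : ℝ) + 1 ≠ 0 := by positivity
    calc (n + 2) / (n + 3) * (∫ θ in (0 : ℝ)..π, Real.sin θ ^ (n + 1)) *
          ((n + 1) / (n + 2) * ∫ θ in (0 : ℝ)..(2 * π), Real.sin θ ^ n)
        = ((n : ℝ) + 1) / (n + 3) * ((∫ θ in (0 : ℝ)..π, Real.sin θ ^ (n + 1)) *
          (∫ θ in (0 : ℝ)..(2 * π), Real.sin θ ^ n)) := by field_simp
      _ = _ := by
        rw [ih, pow_add]
        push_cast
        field_simp
        ring

/-- The series terms. -/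
noncomputable def Ft (r : ℝ) (n : ℕ) (p : ℝ × ℝ) : ℂ :=
  (Real.sin p.1 : ℂ) * ((Complex.I * r * (Real.sin p.1 * Real.sin p.2 : ℝ)) ^ n / (n ! : ℂ))

lemma norm_Ft (r : ℝ) (n : ℕ) (p : ℝ × ℝ) : ‖Ft r n p‖ ≤ |r| ^ n / n ! := by
  have h1 := Real.abs_sin_le_one p.1
  have h2 := Real.abs_sin_le_one p.2
  rw [Ft, norm_mul, norm_div, norm_pow, norm_mul, norm_mul, Complex.norm_I, one_mul,
    Complex.norm_real, Complex.norm_real, Complex.norm_real, Complex.norm_natCast,
    Real.norm_eq_abs, Real.norm_eq_abs, Real.norm_eq_abs, abs_mul]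
  have h3 : |r| * (|Real.sin p.1| * |Real.sin p.2|) ≤ |r| := by
    have : |Real.sin p.1| * |Real.sin p.2| ≤ 1 := mul_le_one₀ h1 (abs_nonneg _) h2
    exact mul_le_of_le_one_right (abs_nonneg _) this
  calc |Real.sin p.1| * ((|r| * (|Real.sin p.1| * |Real.sin p.2|)) ^ n / n !)
      ≤ 1 * (|r| ^ n / n !) := by gcongr
    _ = _ := one_mul _

lemma continuous_Ft (r : ℝ) (n : ℕ) : Continuous (Ft r n) := by
  unfold Ft
  fun_prop

lemma integral_Ft (r : ℝ) (n : ℕ) :
    ∫ p, Ft r n p ∂mu = (Complex.I * r) ^ n / n ! * (2 * π * (1 + (-1) ^ n) / (n + 1)) := by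
  have e1 : ∀ p : ℝ × ℝ, Ft r n p = (Complex.I * r) ^ n / n ! *
      (((Real.sin p.1 ^ (n + 1) : ℝ) : ℂ) * ((Real.sin p.2 ^ n : ℝ) : ℂ)) := by
    intro p
    rw [Ft]
    push_cast
    ring
  simp only [e1]
  rw [integral_const_mul, mu, integral_prod_mul (fun θ : ℝ => ((Real.sin θ ^ (n + 1) : ℝ) : ℂ))
    (fun α : ℝ => ((Real.sin α ^ n : ℝ) : ℂ)), integral_complex_ofReal, integral_complex_ofReal,
    ← intervalIntegral.integral_of_le Real.pi_pos.le,
    ← intervalIntegral.integral_of_le (by positivity : (0 : ℝ) ≤ 2 * π), ← Complex.ofReal_mul, AB]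
  push_cast
  ring

lemma hasSum_shift_exp (z : ℂ) : HasSum (fun n : ℕ => z ^ (n + 1) / (n + 1)!) (Complex.exp z - 1) := by
  have h := NormedSpace.expSeries_div_hasSum_exp (𝔸 := ℂ) z
  rw [← Complex.exp_eq_exp_ℂ] at h
  rw [← hasSum_nat_add_iff' 1] at h
  simpa using h

lemma wave_sin (r : ℝ) :
    Complex.I * r * ∫ p, (Real.sin p.1 : ℂ) * Complex.exp (Complex.I * r *
      (Real.sin p.1 * Real.sin p.2 : ℝ)) ∂mu = 4 * π * Complex.I * Real.sin r := by
  have h1 : ∀ n, Integrable (Ft r n) mu := fun n => integrable_mu (continuous_Ft r n) (norm_Ft r n)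
  have h2 : Summable (fun n => ∫ p, ‖Ft r n p‖ ∂mu) := by
    refine Summable.of_nonneg_of_le (fun n => integral_nonneg (fun v => norm_nonneg _))
      (fun n => ?_) ((Real.summable_pow_div_factorial |r|).mul_right (mu.real univ))
    calc ∫ p, ‖Ft r n p‖ ∂mu ≤ ∫ p, |r| ^ n / n ! ∂mu :=
          integral_mono (h1 n).norm (integrable_const _) (norm_Ft r n)
      _ = _ := by rw [integral_const, smul_eq_mul, mul_comm]
  have h3 := hasSum_integral_of_summable_integral_norm h1 h2
  have h4 : ∀ p, ∑' n, Ft r n p = (Real.sin p.1 : ℂ) * Complex.exp (Complex.I * r *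
      (Real.sin p.1 * Real.sin p.2 : ℝ)) := by
    intro p
    have := (NormedSpace.expSeries_div_hasSum_exp (𝔸 := ℂ) (Complex.I * r *
      (Real.sin p.1 * Real.sin p.2 : ℝ))).mul_left (Real.sin p.1 : ℂ)
    rw [← Complex.exp_eq_exp_ℂ] at this
    exact this.tsum_eq
  rw [integral_congr_ae (Filter.Eventually.of_forall h4)] at h3
  have h5 := h3.mul_left (Complex.I * r)
  have h6 : HasSum (fun n => Complex.I * r * ∫ p, Ft r n p ∂mu)
      (2 * π * ((Complex.exp (Complex.I * r) - 1) - (Complex.exp (-(Complex.I * r)) - 1))) := by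
    have h7 := ((hasSum_shift_exp (Complex.I * r)).sub
      (hasSum_shift_exp (-(Complex.I * r)))).mul_left (2 * (π : ℂ))
    refine h7.congr_fun (fun n => ?_)
    rw [integral_Ft, Nat.factorial_succ]
    have h8 : ((n : ℂ) + 1) ≠ 0 := by exact_mod_cast Nat.succ_ne_zero n
    have h9 : (n ! : ℂ) ≠ 0 := by exact_mod_cast Nat.factorial_ne_zero n
    have h10 : (-(Complex.I * r)) ^ (n + 1) = -((-1) ^ n * (Complex.I * r) ^ (n + 1)) := by
      rw [neg_pow, pow_succ (-1 : ℂ)]; ring
    rw [h10]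
    push_cast
    field_simp
    ring
  rw [h5.unique h6]
  rw [Complex.ofReal_sin, Complex.sin]
  have e1 : Complex.I * r = r * Complex.I := mul_comm _ _
  have e2 : -(r * Complex.I) = -r * Complex.I := by ring
  rw [e1, e2]
  have hI := Complex.I_mul_I
  linear_combination (-(2 * π * (Complex.exp (-r * Complex.I) - Complex.exp (r * Complex.I)))) * hI

/-- The point of the disc with the given parameters. -/
noncomputable def Xp (p : ℝ × ℝ) : P2 :=
  (Real.sin p.1 * Real.cos p.2) • e1 + (Real.sin p.1 * Real.sin p.2) • e2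

lemma inner_Xp (p : ℝ × ℝ) (x : P2) :
    inner ℝ (Xp p) x = Real.sin p.1 * (x 0 * Real.cos p.2 + x 1 * Real.sin p.2) := by
  rw [Xp, inner_add_left, inner_smul_left, inner_smul_left, real_inner_comm, inner_e1,
    real_inner_comm, inner_e2]
  simp only [conj_trivial]
  ring

lemma norm_Xp_le (p : ℝ × ℝ) : ‖Xp p‖ ≤ 1 := by
  have h0 : Xp p 0 = Real.sin p.1 * Real.cos p.2 := by simp [Xp, e1, e2]
  have h1 : Xp p 1 = Real.sin p.1 * Real.sin p.2 := by simp [Xp, e1, e2]
  have h2 := norm_sq_eq (Xp p)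
  rw [h0, h1] at h2
  have h3 : (Real.sin p.1 * Real.cos p.2) ^ 2 + (Real.sin p.1 * Real.sin p.2) ^ 2 =
      Real.sin p.1 ^ 2 := by
    have := Real.sin_sq_add_cos_sq p.2
    linear_combination Real.sin p.1 ^ 2 * this
  rw [h3] at h2
  have h4 : Real.sin p.1 ^ 2 ≤ 1 := Real.sin_sq_le_one _
  have := norm_nonneg (Xp p)
  nlinarith

lemma continuous_Xp : Continuous Xp := by unfold Xp; fun_prop

/-- The wave integral in an arbitrary direction. -/
lemma wave (a b : ℝ) :
    Complex.I * √(a ^ 2 + b ^ 2) * ∫ p, (Real.sin p.1 : ℂ) * Complex.exp (Complex.I *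
      (Real.sin p.1 * (a * Real.cos p.2 + b * Real.sin p.2) : ℝ)) ∂mu =
      4 * π * Complex.I * Real.sin √(a ^ 2 + b ^ 2) := by
  rw [← wave_sin]
  congr 1
  set r := √(a ^ 2 + b ^ 2) with hr
  obtain ⟨β, hb1, hb2⟩ : ∃ β : ℝ, b = r * Real.cos β ∧ a = r * Real.sin β := by
    refine ⟨Complex.arg ⟨b, a⟩, ?_, ?_⟩
    · have h1 := Complex.norm_mul_cos_arg (⟨b, a⟩ : ℂ)
      have h2 : ‖(⟨b, a⟩ : ℂ)‖ = r := by
        rw [hr, Complex.norm_def, Complex.normSq_mk]; congr 1; ring
      rw [h2] at h1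
      exact h1.symm
    · have h1 := Complex.norm_mul_sin_arg (⟨b, a⟩ : ℂ)
      have h2 : ‖(⟨b, a⟩ : ℂ)‖ = r := by
        rw [hr, Complex.norm_def, Complex.normSq_mk]; congr 1; ring
      rw [h2] at h1
      exact h1.symm
  have hexp : ∀ (s : ℝ × ℝ → ℝ), ∀ p, ‖(Real.sin p.1 : ℂ) * Complex.exp (Complex.I * (s p : ℝ))‖
      ≤ 1 := by
    intro s p
    rw [norm_mul, mul_comm Complex.I, Complex.norm_exp_ofReal_mul_I, mul_one, Complex.norm_real]
    exact Real.abs_sin_le_one _
  have i1 : Integrable (fun p : ℝ × ℝ => (Real.sin p.1 : ℂ) * Complex.exp (Complex.I *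
      (Real.sin p.1 * (a * Real.cos p.2 + b * Real.sin p.2) : ℝ))) mu :=
    integrable_mu (by fun_prop) (hexp _)
  have i2 : Integrable (fun p : ℝ × ℝ => (Real.sin p.1 : ℂ) * Complex.exp (Complex.I * r *
      (Real.sin p.1 * Real.sin p.2 : ℝ))) mu := by
    refine integrable_mu (C := 1) (by fun_prop) (fun p => ?_)
    have := hexp (fun p => r * (Real.sin p.1 * Real.sin p.2)) p
    convert this using 4
    push_cast
    ring
  rw [mu] at i1 i2 ⊢
  rw [integral_prod _ i1, integral_prod _ i2]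
  congr 1
  funext θ
  simp only
  rw [integral_const_mul, integral_const_mul]
  congr 1
  rw [← intervalIntegral.integral_of_le (by positivity : (0 : ℝ) ≤ 2 * π),
    ← intervalIntegral.integral_of_le (by positivity : (0 : ℝ) ≤ 2 * π)]
  set h : ℝ → ℂ := fun α => Complex.exp (Complex.I * r * (Real.sin θ * Real.sin α : ℝ)) with hh
  have hper : Function.Periodic h (2 * π) := by
    intro α
    simp only [hh, Real.sin_add_two_pi]
  have h1 := hper.intervalIntegral_add_eq β 0
  rw [zero_add] at h1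
  rw [← h1, show β + 2 * π = 2 * π + β by ring]
  have h2 := intervalIntegral.integral_comp_add_right (a := 0) (b := 2 * π) h β
  rw [zero_add] at h2
  rw [← h2]
  refine intervalIntegral.integral_congr (fun α _ => ?_)
  simp only [hh]
  congr 1
  rw [mul_assoc]
  congr 1
  rw [← Complex.ofReal_mul]
  congr 1
  rw [Real.sin_add]
  nth_rewrite 1 [hb1]
  nth_rewrite 1 [hb2]
  ring

end Q76.Nd
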