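import Pool.Agent.Q76.NdCheb

/-!
# Functions with spectrum in the disc: localisation and the node formula
-/

namespace Q76.Nd

open Real Set MeasureTheory Filter Topology FourierTransform
open scoped ContDiff

/-- The plane. -/
abbrev P2 := EuclideanSpace ℝ (Fin 2)

/-- Directional derivative. -/
noncomputable def D (e : P2) (f : P2 → ℂ) (x : P2) : ℂ := fderiv ℝ f x e

/-- Multiplication by the symbol of the directional derivative. -/
noncomputable def symI (e : P2) (k : P2 → ℂ) (v : P2) : ℂ :=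
  (-(2 * π * Complex.I)) * ((inner ℝ v e : ℝ) : ℂ) * k v

/-- Continuous with compact support. -/
def CC (k : P2 → ℂ) : Prop := Continuous k ∧ HasCompactSupport k

lemma CC.integrable {k : P2 → ℂ} (hk : CC k) : Integrable k :=
  hk.1.integrable_of_hasCompactSupport hk.2

lemma CC.sym {k : P2 → ℂ} (hk : CC k) (e : P2) : CC (symI e k) := by
  constructor
  · unfold symI
    have := hk.1
    fun_prop
  · exact hk.2.mul_left

lemma CC.pow_integrable {k : P2 → ℂ} (hk : CC k) (n : ℕ) :
    Integrable (fun v => ‖v‖ ^ n * ‖k v‖) := by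
  refine Continuous.integrable_of_hasCompactSupport ?_ ?_
  · have := hk.1
    fun_prop
  · exact (hk.2.norm).mul_left

lemma CC.contDiff {k : P2 → ℂ} (hk : CC k) : ContDiff ℝ ∞ (𝓕 k) :=
  Real.contDiff_fourier (fun n _ => hk.pow_integrable n)

lemma CC.D_fourier {k : P2 → ℂ} (hk : CC k) (e : P2) : D e (𝓕 k) = 𝓕 (symI e k) := by
  funext x
  have h1 : Integrable (fun v => ‖v‖ * ‖k v‖) := by
    have := hk.pow_integrable 1
    simpa using this
  rw [D, Real.fderiv_fourier hk.integrable h1]
  rw [Real.fourier_continuousLinearMap_apply]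
  · have e1 : (fun v => (VectorFourier.fourierSMulRight (innerSL ℝ) k v) e) = symI e k := by
      funext v
      rw [VectorFourier.fourierSMulRight_apply, symI]
      have e2 : (innerSL ℝ v) e = (inner ℝ v e : ℝ) := rfl
      rw [e2]
      simp only [smul_eq_mul, Complex.real_smul]
      ring
    rw [e1]
  · refine (h1.const_mul (2 * π * ‖innerSL ℝ (E := P2)‖)).mono' ?_ ?_
    · exact hk.1.aestronglyMeasurable.fourierSMulRight
    · refine Filter.Eventually.of_forall (fun v => ?_)
      refine (VectorFourier.norm_fourierSMulRight_le _ _ _).trans (le_of_eq ?_)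
      ring

/-- Spectrum (Mathlib normalisation) in the unit disc. -/
def InG (g : P2 → ℂ) : Prop :=
  Continuous g ∧ (∃ C : ℝ, ∀ x, ‖g x‖ ≤ C) ∧
  ∀ ψ : P2 → ℂ, ContDiff ℝ ∞ ψ → HasCompactSupport ψ →
    Disjoint (tsupport ψ) (Metric.closedBall 0 1) → ∫ x, g x * 𝓕 ψ x = 0

/-- The bump of radius `ε`. -/
noncomputable def bmp (ε : ℝ) (hε : 0 < ε) : ContDiffBump (0 : P2) :=
  ⟨ε / 2, ε, by positivity, by linarith⟩

/-- The normalised bump of radius `ε`, as a complex function. -/
noncomputable def bb (ε : ℝ) (hε : 0 < ε) (v : P2) : ℂ := ((bmp ε hε).normed volume v : ℝ)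

/-- Its Fourier transform. -/
noncomputable def eta (ε : ℝ) (hε : 0 < ε) (x : P2) : ℂ := 𝓕 (bb ε hε) x

variable {ε : ℝ} (hε : 0 < ε)

lemma contDiff_bb : ContDiff ℝ ∞ (bb ε hε) :=
  Complex.ofRealCLM.contDiff.comp (bmp ε hε).contDiff_normed

lemma hasCompactSupport_bb : HasCompactSupport (bb ε hε) :=
  ((bmp ε hε).hasCompactSupport_normed (μ := volume)).comp_left (g := fun t : ℝ => (t : ℂ)) (by simp)

lemma tsupport_bb : tsupport (bb ε hε) ⊆ Metric.closedBall 0 ε := by
  have h1 : tsupport ((bmp ε hε).normed volume) = Metric.closedBall (0 : P2) ε :=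
    (bmp ε hε).tsupport_normed_eq
  rw [← h1]
  refine closure_mono ?_
  intro x hx
  rw [Function.mem_support] at hx ⊢
  intro h0
  apply hx
  rw [bb, h0]; simp

lemma bb_eq_zero {v : P2} (hv : ε ≤ ‖v‖) : bb ε hε v = 0 := by
  have h1 : Function.support ((bmp ε hε).normed volume) = Metric.ball (0 : P2) ε :=
    (bmp ε hε).support_normed_eq
  have h2 : v ∉ Function.support ((bmp ε hε).normed (volume : Measure P2)) := by
    rw [h1]; simpa using hv
  rw [Function.notMem_support] at h2
  rw [bb, h2]; simp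

lemma cc_bb : CC (bb ε hε) := ⟨(contDiff_bb hε).continuous, hasCompactSupport_bb hε⟩

lemma norm_bb (v : P2) : ‖bb ε hε v‖ = (bmp ε hε).normed volume v := by
  rw [bb, Complex.norm_real, Real.norm_eq_abs, abs_of_nonneg ((bmp ε hε).nonneg_normed v)]

lemma integral_norm_bb : ∫ v, ‖bb ε hε v‖ = 1 := by
  simp only [norm_bb]
  exact (bmp ε hε).integral_normed

lemma integral_bb : ∫ v, bb ε hε v = 1 := by
  simp only [bb]
  rw [integral_complex_ofReal, (bmp ε hε).integral_normed]; simp

lemma norm_fourier_le (k : P2 → ℂ) (x : P2) : ‖𝓕 k x‖ ≤ ∫ v, ‖k v‖ := by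
  rw [Real.fourier_eq]
  refine (norm_integral_le_integral_norm _).trans (le_of_eq ?_)
  congr 1; funext v
  rw [Circle.norm_smul]

lemma norm_eta_le (x : P2) : ‖eta ε hε x‖ ≤ 1 :=
  (norm_fourier_le _ _).trans (integral_norm_bb hε).le

lemma fourier_zero_eq (k : P2 → ℂ) : 𝓕 k 0 = ∫ v, k v := by
  rw [Real.fourier_eq]
  simp

lemma eta_zero : eta ε hε 0 = 1 := by
  rw [eta, fourier_zero_eq, integral_bb]

/-- Pointwise bound of the first moment. -/
lemma norm_D_eta_zero (e : P2) : ‖D e (eta ε hε) 0‖ ≤ 2 * π * ‖e‖ * ε := by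
  have h0 : D e (eta ε hε) = 𝓕 (symI e (bb ε hε)) := (cc_bb hε).D_fourier e
  rw [h0]
  refine (norm_fourier_le _ _).trans ?_
  calc ∫ v, ‖symI e (bb ε hε) v‖ ≤ ∫ v, 2 * π * ‖e‖ * ε * ‖bb ε hε v‖ := by
        refine integral_mono ((cc_bb hε).sym e).integrable.norm
          ((cc_bb hε).integrable.norm.const_mul _) (fun v => ?_)
        simp only [symI]
        rcases le_total ε ‖v‖ with h | h
        · rw [bb_eq_zero hε h]; simp
        · rw [norm_mul, norm_mul, norm_neg, norm_mul, norm_mul, Complex.norm_I, mul_one,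
            Complex.norm_real, Complex.norm_real, Complex.norm_ofNat, Real.norm_eq_abs,
            abs_of_pos Real.pi_pos, Real.norm_eq_abs]
          refine mul_le_mul_of_nonneg_right ?_ (norm_nonneg _)
          have h1 := abs_real_inner_le_norm v e
          have h2 : |inner ℝ v e| ≤ ε * ‖e‖ := h1.trans (by gcongr)
          have h3 : 2 * π * |inner ℝ v e| ≤ 2 * π * (ε * ‖e‖) := by gcongr
          linarith
    _ = 2 * π * ‖e‖ * ε := by
        rw [integral_const_mul, integral_norm_bb, mul_one]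

lemma norm_DD_eta_zero (e e' : P2) :
    ‖D e' (D e (eta ε hε)) 0‖ ≤ (2 * π * ‖e‖ * ε) * (2 * π * ‖e'‖ * ε) := by
  have h0 : D e (eta ε hε) = 𝓕 (symI e (bb ε hε)) := (cc_bb hε).D_fourier e
  rw [h0, ((cc_bb hε).sym e).D_fourier e']
  refine (norm_fourier_le _ _).trans ?_
  calc ∫ v, ‖symI e' (symI e (bb ε hε)) v‖
      ≤ ∫ v, (2 * π * ‖e‖ * ε) * (2 * π * ‖e'‖ * ε) * ‖bb ε hε v‖ := by
        refine integral_mono (((cc_bb hε).sym e).sym e').integrable.norm
          ((cc_bb hε).integrable.norm.const_mul _) (fun v => ?_)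
        simp only [symI]
        rcases le_total ε ‖v‖ with h | h
        · rw [bb_eq_zero hε h]; simp
        · have hn : ∀ e : P2, ‖-(2 * (π : ℂ) * Complex.I) * ((inner ℝ v e : ℝ) : ℂ)‖ ≤
              2 * π * ‖e‖ * ε := by
            intro e
            rw [norm_mul, norm_neg, norm_mul, norm_mul, Complex.norm_I, mul_one,
              Complex.norm_real, Complex.norm_real, Complex.norm_ofNat, Real.norm_eq_abs,
              abs_of_pos Real.pi_pos, Real.norm_eq_abs]
            have h1 := abs_real_inner_le_norm v e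
            have h2 : |inner ℝ v e| ≤ ε * ‖e‖ := h1.trans (by gcongr)
            have h3 : 2 * π * |inner ℝ v e| ≤ 2 * π * (ε * ‖e‖) := by gcongr
            linarith
          rw [norm_mul, norm_mul (_ * _) (bb ε hε v), ← mul_assoc]
          refine mul_le_mul_of_nonneg_right ?_ (norm_nonneg _)
          rw [mul_comm (2 * π * ‖e‖ * ε)]
          exact mul_le_mul (hn e') (hn e) (norm_nonneg _) ((norm_nonneg _).trans (hn e'))
    _ = (2 * π * ‖e‖ * ε) * (2 * π * ‖e'‖ * ε) := by
        rw [integral_const_mul, integral_norm_bb, mul_one]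

/-- The Schwartz version of a test function. -/
noncomputable def sch {ψ : P2 → ℂ} (h1 : HasCompactSupport ψ) (h2 : ContDiff ℝ ∞ ψ) :
    SchwartzMap P2 ℂ := h1.toSchwartzMap h2

lemma integrable_fourier {ψ : P2 → ℂ} (h1 : HasCompactSupport ψ) (h2 : ContDiff ℝ ∞ ψ) :
    Integrable (𝓕 ψ) := by
  have h := (𝓕 (sch h1 h2) : SchwartzMap P2 ℂ).integrable (μ := volume)
  rwa [SchwartzMap.fourier_coe] at h

lemma integrable_eta : Integrable (eta ε hε) :=
  integrable_fourier (hasCompactSupport_bb hε) (contDiff_bb hε)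

lemma continuous_eta : Continuous (eta ε hε) := (cc_bb hε).contDiff.continuous

/-- The localised function. -/
noncomputable def loc (g : P2 → ℂ) (y : P2) (x : P2) : ℂ := g (x + y) * eta ε hε x

lemma loc_integrable {g : P2 → ℂ} (hg : InG g) (y : P2) : Integrable (loc hε g y) := by
  obtain ⟨hc, ⟨C, hC⟩, -⟩ := hg
  unfold loc
  refine (integrable_eta hε).bdd_mul ?_ (Filter.Eventually.of_forall (fun x => hC (x + y)))
  exact (hc.comp (continuous_add_const y)).aestronglyMeasurable

lemma loc_continuous {g : P2 → ℂ} (hg : InG g) (y : P2) : Continuous (loc hε g y) := by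
  unfold loc
  exact (hg.1.comp (continuous_add_const y)).mul (continuous_eta hε)

lemma fourier_loc {g : P2 → ℂ} (hg : InG g) (y : P2) {ξ : P2} (hξ : 1 + ε < ‖ξ‖) :
    𝓕 (loc hε g y) ξ = 0 := by
  set ψ : P2 → ℂ := fun t => bb ε hε (t - ξ) * (𝐞 (inner ℝ t y) : ℂ) with hψ
  have hch : ContDiff ℝ ∞ (fun t : P2 => (𝐞 (inner ℝ t y) : ℂ)) := by
    simp only [Real.fourierChar_apply]
    have h0 : ContDiff ℝ ∞ (fun t : P2 => 2 * π * (inner ℝ t y : ℝ)) :=
      contDiff_const.mul (contDiff_id.inner ℝ contDiff_const)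
    exact ((Complex.ofRealCLM.contDiff.comp h0).mul contDiff_const).cexp
  have h1 : ContDiff ℝ ∞ ψ := ((contDiff_bb hε).comp (contDiff_id.sub contDiff_const)).mul hch
  have h2 : HasCompactSupport ψ := by
    refine HasCompactSupport.mul_right ?_
    exact (hasCompactSupport_bb hε).comp_homeomorph (Homeomorph.subRight ξ)
  have h3 : Disjoint (tsupport ψ) (Metric.closedBall 0 1) := by
    rw [Set.disjoint_left]
    intro t ht ht1
    have h4 : tsupport ψ ⊆ Metric.closedBall ξ ε := by
      refine closure_minimal ?_ Metric.isClosed_closedBall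
      intro s hs
      by_contra h5
      apply hs
      have : bb ε hε (s - ξ) = 0 := by
        apply bb_eq_zero
        rw [Metric.mem_closedBall, dist_eq_norm] at h5
        linarith
      simp [hψ, this]
    have h6 := h4 ht
    rw [Metric.mem_closedBall, dist_eq_norm] at h6
    rw [Metric.mem_closedBall, dist_zero_right] at ht1
    have h7 : ‖ξ‖ ≤ ‖t‖ + ‖t - ξ‖ := by
      have := norm_sub_le t (t - ξ)
      rwa [sub_sub_cancel] at this
    linarith
  have h4 := hg.2.2 ψ h1 h2 h3
  have h5 : ∀ x, 𝓕 ψ x = (𝐞 (-(inner ℝ ξ (x - y))) : ℂ) * eta ε hε (x - y) := by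
    intro x
    rw [eta, Real.fourier_eq, Real.fourier_eq, ← integral_const_mul,
      ← integral_add_right_eq_self _ ξ]
    congr 1
    funext t
    simp only [hψ, add_sub_cancel_right, Circle.smul_def, smul_eq_mul]
    have e1 : (𝐞 (-(inner ℝ (t + ξ) x)) : ℂ) * (𝐞 (inner ℝ (t + ξ) y) : ℂ) =
        (𝐞 (-(inner ℝ ξ (x - y))) : ℂ) * (𝐞 (-(inner ℝ t (x - y))) : ℂ) := by
      rw [← Circle.coe_mul, ← Circle.coe_mul, ← AddChar.map_add_eq_mul, ← AddChar.map_add_eq_mul]
      congr 2
      rw [inner_add_left, inner_add_left, inner_sub_right, inner_sub_right]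
      ring
    calc (𝐞 (-(inner ℝ (t + ξ) x)) : ℂ) * (bb ε hε t * (𝐞 (inner ℝ (t + ξ) y) : ℂ))
        = ((𝐞 (-(inner ℝ (t + ξ) x)) : ℂ) * (𝐞 (inner ℝ (t + ξ) y) : ℂ)) * bb ε hε t := by ring
      _ = _ := by rw [e1]; ring
  rw [Real.fourier_eq]
  rw [← h4, ← integral_add_right_eq_self (fun x => g x * 𝓕 ψ x) y]
  congr 1
  funext x
  rw [h5, add_sub_cancel_right, loc, Circle.smul_def, smul_eq_mul, real_inner_comm]
  ring

/-- The localised function is the Fourier transform of a continuous function with support in the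
disc of radius `1 + ε`. -/
lemma exists_loc {g : P2 → ℂ} (hg : InG g) (y : P2) :
    ∃ k : P2 → ℂ, CC k ∧ (∀ v, 1 + ε < ‖v‖ → k v = 0) ∧ loc hε g y = 𝓕 k := by
  have hcont : Continuous (𝓕 (loc hε g y)) := by
    exact VectorFourier.fourierIntegral_continuous Real.continuous_fourierChar
      (by exact continuous_inner) (loc_integrable hε hg y)
  have hz : ∀ v, 1 + ε < ‖v‖ → 𝓕 (loc hε g y) v = 0 := fun v hv => fourier_loc hε hg y hv
  have hcs : HasCompactSupport (𝓕 (loc hε g y)) := by
    refine HasCompactSupport.intro (isCompact_closedBall (0 : P2) (1 + ε)) (fun v hv => ?_)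
    apply hz
    simpa using hv
  have hinv := (loc_continuous hε hg y).fourierInv_fourier_eq (loc_integrable hε hg y)
    (hcont.integrable_of_hasCompactSupport hcs)
  refine ⟨fun v => 𝓕 (loc hε g y) (-v), ⟨hcont.comp continuous_neg, ?_⟩, ?_, ?_⟩
  · exact hcs.comp_homeomorph (Homeomorph.neg P2)
  · intro v hv
    apply hz
    rwa [norm_neg]
  · rw [← Real.fourierInv_eq_fourier_comp_neg]
    exact hinv.symm

end Q76.Nd
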