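import Mathlib

/-!
# Connectivity in finite edge configurations
-/

namespace Q76.Pc

open Set

variable {V : Type*}

open Classical in
/-- Connection by edges of `ω`. -/
def R (ω : Finset (Sym2 V)) (u w : V) : Prop :=
  (SimpleGraph.fromEdgeSet (ω : Set (Sym2 V))).Reachable u w

lemma R_refl (ω : Finset (Sym2 V)) (u : V) : R ω u u := SimpleGraph.Reachable.refl u

lemma R_symm {ω : Finset (Sym2 V)} {u w : V} (h : R ω u w) : R ω w u :=
  SimpleGraph.Reachable.symm h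

lemma R_trans {ω : Finset (Sym2 V)} {u v w : V} (h : R ω u v) (h' : R ω v w) : R ω u w :=
  SimpleGraph.Reachable.trans h h'

lemma R_mono {ω ω' : Finset (Sym2 V)} (h : ω ⊆ ω') {u w : V} (hr : R ω u w) : R ω' u w := by
  refine SimpleGraph.Reachable.mono ?_ hr
  apply SimpleGraph.fromEdgeSet_mono
  exact_mod_cast h

lemma R_edge {ω : Finset (Sym2 V)} {x y : V} (h : s(x, y) ∈ ω) : R ω x y := by
  rcases eq_or_ne x y with rfl | hxy
  · exact R_refl _ _
  · apply SimpleGraph.Adj.reachable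
    rw [SimpleGraph.fromEdgeSet_adj]
    exact ⟨by exact_mod_cast h, hxy⟩

lemma R_induct {ω : Finset (Sym2 V)} {u : V} {Q : V → Prop} (h0 : Q u)
    (hs : ∀ w w', Q w → s(w, w') ∈ ω → Q w') {w : V} (h : R ω u w) : Q w := by
  unfold R at h
  rw [SimpleGraph.reachable_iff_reflTransGen] at h
  induction h with
  | refl => exact h0
  | tail _ hadj ih =>
    rw [SimpleGraph.fromEdgeSet_adj] at hadj
    exact hs _ _ ih (by exact_mod_cast hadj.1)

open Classical in
lemma R_insert {ω : Finset (Sym2 V)} {x y u w : V} :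
    R (insert s(x, y) ω) u w ↔ R ω u w ∨ (R ω u x ∧ R ω y w) ∨ (R ω u y ∧ R ω x w) := by
  constructor
  · intro h
    refine R_induct (Q := fun w => R ω u w ∨ (R ω u x ∧ R ω y w) ∨ (R ω u y ∧ R ω x w))
      (Or.inl (R_refl _ _)) ?_ h
    intro w w' hw hmem
    rw [Finset.mem_insert] at hmem
    rcases hmem with heq | hmem
    · rw [Sym2.eq_iff] at heq
      rcases heq with ⟨rfl, rfl⟩ | ⟨rfl, rfl⟩
      · rcases hw with hw | ⟨h1, h2⟩ | ⟨h1, h2⟩
        · exact Or.inr (Or.inl ⟨hw, R_refl _ _⟩)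
        · exact Or.inr (Or.inl ⟨h1, R_refl _ _⟩)
        · exact Or.inl h1
      · rcases hw with hw | ⟨h1, h2⟩ | ⟨h1, h2⟩
        · exact Or.inr (Or.inr ⟨hw, R_refl _ _⟩)
        · exact Or.inl h1
        · exact Or.inr (Or.inr ⟨h1, R_refl _ _⟩)
    · have h3 : R ω w w' := R_edge hmem
      rcases hw with hw | ⟨h1, h2⟩ | ⟨h1, h2⟩
      · exact Or.inl (R_trans hw h3)
      · exact Or.inr (Or.inl ⟨h1, R_trans h2 h3⟩)
      · exact Or.inr (Or.inr ⟨h1, R_trans h2 h3⟩)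
  · have hsub : ω ⊆ insert s(x, y) ω := Finset.subset_insert _ _
    have hxy : R (insert s(x, y) ω) x y := R_edge (Finset.mem_insert_self _ _)
    rintro (h | ⟨h1, h2⟩ | ⟨h1, h2⟩)
    · exact R_mono hsub h
    · exact R_trans (R_mono hsub h1) (R_trans hxy (R_mono hsub h2))
    · exact R_trans (R_mono hsub h1) (R_trans (R_symm hxy) (R_mono hsub h2))

/-- `z` belongs to the cluster of the set `A`. -/
def Conn (ω : Finset (Sym2 V)) (A : Set V) (z : V) : Prop := ∃ x ∈ A, R ω x z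

/-- The cluster of the set `A`. -/
def Cl (ω : Finset (Sym2 V)) (A : Set V) : Set V := {z | Conn ω A z}

lemma Conn_mono_set {ω : Finset (Sym2 V)} {A B : Set V} (h : A ⊆ B) {z : V} (hz : Conn ω A z) :
    Conn ω B z := by
  obtain ⟨x, hx, hr⟩ := hz
  exact ⟨x, h hx, hr⟩

lemma Conn_mono {ω ω' : Finset (Sym2 V)} (h : ω ⊆ ω') {A : Set V} {z : V} (hz : Conn ω A z) :
    Conn ω' A z := by
  obtain ⟨x, hx, hr⟩ := hz
  exact ⟨x, hx, R_mono h hr⟩

lemma Conn_of_mem {ω : Finset (Sym2 V)} {A : Set V} {z : V} (hz : z ∈ A) : Conn ω A z :=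
  ⟨z, hz, R_refl _ _⟩

lemma Conn_trans {ω : Finset (Sym2 V)} {A : Set V} {z w : V} (hz : Conn ω A z) (h : R ω z w) :
    Conn ω A w := by
  obtain ⟨x, hx, hr⟩ := hz
  exact ⟨x, hx, R_trans hr h⟩

lemma Conn_insert_set {ω : Finset (Sym2 V)} {A : Set V} {y z : V} :
    Conn ω (insert y A) z ↔ Conn ω A z ∨ R ω y z := by
  constructor
  · rintro ⟨x, hx | hx, hr⟩
    · subst hx
      exact Or.inr hr
    · exact Or.inl ⟨x, hx, hr⟩
  · rintro (⟨x, hx, hr⟩ | hr)
    · exact ⟨x, Or.inr hx, hr⟩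
    · exact ⟨y, Or.inl rfl, hr⟩

open Classical in
lemma Conn_insert {ω : Finset (Sym2 V)} {A : Set V} {x y z : V} (hx : x ∈ A) :
    Conn (insert s(x, y) ω) A z ↔ Conn ω (insert y A) z := by
  rw [Conn_insert_set]
  constructor
  · rintro ⟨a, ha, hr⟩
    rw [R_insert] at hr
    rcases hr with h | ⟨h1, h2⟩ | ⟨h1, h2⟩
    · exact Or.inl ⟨a, ha, h⟩
    · exact Or.inr h2
    · exact Or.inl ⟨x, hx, h2⟩
  · rintro (⟨a, ha, hr⟩ | hr)
    · exact ⟨a, ha, R_insert.mpr (Or.inl hr)⟩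
    · exact ⟨x, hx, R_insert.mpr (Or.inr (Or.inl ⟨R_refl _ _, hr⟩))⟩

open Classical in
lemma Cl_insert {ω : Finset (Sym2 V)} {A : Set V} {x y : V} (hx : x ∈ A) :
    Cl (insert s(x, y) ω) A = Cl ω (insert y A) := by
  ext z
  exact Conn_insert hx

/-- No edge of `F` joins `A` to its complement. -/
def NoOut (F : Finset (Sym2 V)) (A : Set V) : Prop := ∀ x ∈ A, ∀ y, y ∉ A → s(x, y) ∉ F

lemma Conn_noOut {F ω : Finset (Sym2 V)} (hω : ω ⊆ F) {A : Set V} (h : NoOut F A) {z : V} :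
    Conn ω A z ↔ z ∈ A := by
  constructor
  · rintro ⟨x, hx, hr⟩
    refine R_induct (Q := fun w => w ∈ A) hx ?_ hr
    intro w w' hw hmem
    by_contra hw'
    exact h w hw w' hw' (hω hmem)
  · exact Conn_of_mem

lemma Cl_noOut {F ω : Finset (Sym2 V)} (hω : ω ⊆ F) {A : Set V} (h : NoOut F A) : Cl ω A = A := by
  ext z
  exact Conn_noOut hω h

lemma subset_Cl (ω : Finset (Sym2 V)) (A : Set V) : A ⊆ Cl ω A := fun _ h => Conn_of_mem h

open Classical in
/-- The edges not touching `C`. -/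
noncomputable def away (ω : Finset (Sym2 V)) (C : Set V) : Finset (Sym2 V) :=
  ω.filter (fun e => ∀ x ∈ e, x ∉ C)

open Classical in
lemma mem_away {ω : Finset (Sym2 V)} {C : Set V} {e : Sym2 V} :
    e ∈ away ω C ↔ e ∈ ω ∧ ∀ x ∈ e, x ∉ C := by
  unfold away
  rw [Finset.mem_filter]

lemma away_subset (ω : Finset (Sym2 V)) (C : Set V) : away ω C ⊆ ω :=
  fun _ h => (mem_away.mp h).1

lemma away_anti (ω : Finset (Sym2 V)) {C C' : Set V} (h : C ⊆ C') : away ω C' ⊆ away ω C := by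
  intro e he
  rw [mem_away] at he ⊢
  exact ⟨he.1, fun x hx hxC => he.2 x hx (h hxC)⟩

open Classical in
lemma away_insert {ω : Finset (Sym2 V)} {C : Set V} {x y : V} (hx : x ∈ C) :
    away (insert s(x, y) ω) C = away ω C := by
  unfold away
  rw [Finset.filter_insert, if_neg]
  intro h
  exact h x (Sym2.mem_mk_left x y) hx

lemma R_away {F ω : Finset (Sym2 V)} (hω : ω ⊆ F) {A : Set V} (h : NoOut F A) {u w : V}
    (hu : u ∉ A) : R ω u w ↔ R (away ω A) u w := by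
  constructor
  · intro hr
    refine (R_induct (Q := fun w => w ∉ A ∧ R (away ω A) u w) ⟨hu, R_refl _ _⟩ ?_ hr).2
    rintro w w' ⟨hw, hr'⟩ hmem
    have hw' : w' ∉ A := by
      intro h1
      apply h w' h1 w hw
      rw [Sym2.eq_swap]
      exact hω hmem
    refine ⟨hw', R_trans hr' (R_edge ?_)⟩
    rw [mem_away]
    refine ⟨hmem, ?_⟩
    intro x hx
    rw [Sym2.mem_iff] at hx
    rcases hx with rfl | rfl
    · exact hw
    · exact hw'
  · exact R_mono (away_subset _ _)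

end Q76.Pc
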