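import Mathlib
import Pool.Agent.Q76.PcConn

/-!
# Expectations over finite edge sets
-/

namespace Q76.Pc

open Set

variable {V : Type*}

open Classical in
/-- The weight of the configuration `ω` on the edge set `F`. -/
noncomputable def wt (p : Sym2 V → ℝ) (F ω : Finset (Sym2 V)) : ℝ :=
  ∏ e ∈ F, if e ∈ ω then p e else 1 - p e

/-- Expectation over the configurations on `F`. -/
noncomputable def EF (p : Sym2 V → ℝ) (F : Finset (Sym2 V)) (f : Finset (Sym2 V) → ℝ) : ℝ :=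
  ∑ ω ∈ F.powerset, wt p F ω * f ω

lemma wt_nonneg {p : Sym2 V → ℝ} (hp : ∀ e, 0 ≤ p e ∧ p e ≤ 1) (F ω : Finset (Sym2 V)) :
    0 ≤ wt p F ω := by
  unfold wt
  apply Finset.prod_nonneg
  intro e _
  split_ifs
  · exact (hp e).1
  · linarith [(hp e).2]

open Classical in
lemma EF_insert (p : Sym2 V → ℝ) {F : Finset (Sym2 V)} {e : Sym2 V} (he : e ∉ F)
    (f : Finset (Sym2 V) → ℝ) :
    EF p (insert e F) f = p e * EF p F (fun ω => f (insert e ω)) + (1 - p e) * EF p F f := by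
  unfold EF
  rw [Finset.sum_powerset_insert he, add_comm, Finset.mul_sum, Finset.mul_sum]
  congr 1
  · apply Finset.sum_congr rfl
    intro ω hω
    rw [Finset.mem_powerset] at hω
    have : wt p (insert e F) (insert e ω) = p e * wt p F ω := by
      unfold wt
      rw [Finset.prod_insert he, if_pos (Finset.mem_insert_self _ _)]
      congr 1
      apply Finset.prod_congr rfl
      intro a ha
      have hae : a ≠ e := by rintro rfl; exact he ha
      simp [Finset.mem_insert, hae]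
    rw [this]
    ring
  · apply Finset.sum_congr rfl
    intro ω hω
    rw [Finset.mem_powerset] at hω
    have : wt p (insert e F) ω = (1 - p e) * wt p F ω := by
      unfold wt
      rw [Finset.prod_insert he, if_neg (fun h => he (hω h))]
    rw [this]
    ring

lemma EF_congr (p : Sym2 V → ℝ) {F : Finset (Sym2 V)} {f g : Finset (Sym2 V) → ℝ}
    (h : ∀ ω ⊆ F, f ω = g ω) : EF p F f = EF p F g := by
  unfold EF
  apply Finset.sum_congr rfl
  intro ω hω
  rw [Finset.mem_powerset] at hω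
  rw [h ω hω]

lemma EF_mono {p : Sym2 V → ℝ} (hp : ∀ e, 0 ≤ p e ∧ p e ≤ 1) {F : Finset (Sym2 V)}
    {f g : Finset (Sym2 V) → ℝ} (h : ∀ ω ⊆ F, f ω ≤ g ω) : EF p F f ≤ EF p F g := by
  unfold EF
  apply Finset.sum_le_sum
  intro ω hω
  rw [Finset.mem_powerset] at hω
  exact mul_le_mul_of_nonneg_left (h ω hω) (wt_nonneg hp F ω)

lemma EF_nonneg {p : Sym2 V → ℝ} (hp : ∀ e, 0 ≤ p e ∧ p e ≤ 1) {F : Finset (Sym2 V)}
    {f : Finset (Sym2 V) → ℝ} (h : ∀ ω ⊆ F, 0 ≤ f ω) : 0 ≤ EF p F f := by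
  unfold EF
  apply Finset.sum_nonneg
  intro ω hω
  rw [Finset.mem_powerset] at hω
  exact mul_nonneg (wt_nonneg hp F ω) (h ω hω)

lemma EF_add (p : Sym2 V → ℝ) (F : Finset (Sym2 V)) (f g : Finset (Sym2 V) → ℝ) :
    EF p F (fun ω => f ω + g ω) = EF p F f + EF p F g := by
  unfold EF
  rw [← Finset.sum_add_distrib]
  apply Finset.sum_congr rfl
  intro ω _
  ring

lemma EF_sub (p : Sym2 V → ℝ) (F : Finset (Sym2 V)) (f g : Finset (Sym2 V) → ℝ) :
    EF p F (fun ω => f ω - g ω) = EF p F f - EF p F g := by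
  unfold EF
  rw [← Finset.sum_sub_distrib]
  apply Finset.sum_congr rfl
  intro ω _
  ring

lemma EF_mul_left (p : Sym2 V → ℝ) (F : Finset (Sym2 V)) (c : ℝ) (f : Finset (Sym2 V) → ℝ) :
    EF p F (fun ω => c * f ω) = c * EF p F f := by
  unfold EF
  rw [Finset.mul_sum]
  apply Finset.sum_congr rfl
  intro ω _
  ring

lemma EF_empty (p : Sym2 V → ℝ) (f : Finset (Sym2 V) → ℝ) : EF p ∅ f = f ∅ := by
  simp [EF, wt]

open Classical in
lemma EF_const (p : Sym2 V → ℝ) (F : Finset (Sym2 V)) (c : ℝ) : EF p F (fun _ => c) = c := by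
  induction F using Finset.induction_on with
  | empty => rw [EF_empty]
  | insert e F he ih =>
    rw [EF_insert p he, ih]
    ring

open Classical in
/-- Antitone functions have smaller expectation on larger edge sets. -/
lemma EF_insert_anti {p : Sym2 V → ℝ} (hp : ∀ e, 0 ≤ p e ∧ p e ≤ 1) {F : Finset (Sym2 V)}
    {e : Sym2 V} (he : e ∉ F) {f : Finset (Sym2 V) → ℝ} (hf : ∀ ω ω', ω ⊆ ω' → f ω' ≤ f ω) :
    EF p (insert e F) f ≤ EF p F f := by
  rw [EF_insert p he]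
  have h1 : EF p F (fun ω => f (insert e ω)) ≤ EF p F f :=
    EF_mono hp (fun ω _ => hf _ _ (Finset.subset_insert _ _))
  have h2 := (hp e).1
  nlinarith

open Classical in
/-- The indicator of a proposition. -/
noncomputable def ind (Q : Prop) : ℝ := if Q then 1 else 0

lemma ind_true {Q : Prop} (h : Q) : ind Q = 1 := if_pos h

lemma ind_false {Q : Prop} (h : ¬ Q) : ind Q = 0 := if_neg h

lemma ind_nonneg (Q : Prop) : 0 ≤ ind Q := by
  unfold ind
  split_ifs <;> norm_num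

lemma ind_le_one (Q : Prop) : ind Q ≤ 1 := by
  unfold ind
  split_ifs <;> norm_num

lemma ind_mono {Q Q' : Prop} (h : Q → Q') : ind Q ≤ ind Q' := by
  unfold ind
  split_ifs with h1 h2 h2
  · exact le_rfl
  · exact absurd (h h1) h2
  · norm_num
  · exact le_rfl

lemma ind_congr {Q Q' : Prop} (h : Q ↔ Q') : ind Q = ind Q' := by
  rw [propext h]

lemma ind_and (Q Q' : Prop) : ind (Q ∧ Q') = ind Q * ind Q' := by
  unfold ind
  split_ifs with h1 h2 h3 h3 <;> simp_all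

lemma ind_not (Q : Prop) : ind (¬ Q) = 1 - ind Q := by
  unfold ind
  split_ifs <;> simp_all

/-- Probability of an event for the configurations on `F`. -/
noncomputable def Pr (p : Sym2 V → ℝ) (F : Finset (Sym2 V)) (Q : Finset (Sym2 V) → Prop) : ℝ :=
  EF p F (fun ω => ind (Q ω))

lemma Pr_nonneg {p : Sym2 V → ℝ} (hp : ∀ e, 0 ≤ p e ∧ p e ≤ 1) (F : Finset (Sym2 V))
    (Q : Finset (Sym2 V) → Prop) : 0 ≤ Pr p F Q :=
  EF_nonneg hp (fun _ _ => ind_nonneg _)

lemma Pr_le_one {p : Sym2 V → ℝ} (hp : ∀ e, 0 ≤ p e ∧ p e ≤ 1) (F : Finset (Sym2 V))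
    (Q : Finset (Sym2 V) → Prop) : Pr p F Q ≤ 1 := by
  calc Pr p F Q ≤ EF p F (fun _ => 1) := EF_mono hp (fun _ _ => ind_le_one _)
    _ = 1 := EF_const p F 1

lemma Pr_mono {p : Sym2 V → ℝ} (hp : ∀ e, 0 ≤ p e ∧ p e ≤ 1) {F : Finset (Sym2 V)}
    {Q Q' : Finset (Sym2 V) → Prop} (h : ∀ ω ⊆ F, Q ω → Q' ω) : Pr p F Q ≤ Pr p F Q' :=
  EF_mono hp (fun ω hω => ind_mono (h ω hω))

lemma Pr_congr (p : Sym2 V → ℝ) {F : Finset (Sym2 V)}
    {Q Q' : Finset (Sym2 V) → Prop} (h : ∀ ω ⊆ F, (Q ω ↔ Q' ω)) : Pr p F Q = Pr p F Q' :=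
  EF_congr p (fun ω hω => ind_congr (h ω hω))

lemma Pr_not (p : Sym2 V → ℝ) (F : Finset (Sym2 V)) (Q : Finset (Sym2 V) → Prop) :
    Pr p F (fun ω => ¬ Q ω) = 1 - Pr p F Q := by
  unfold Pr
  simp_rw [ind_not]
  rw [EF_sub, EF_const]

/-- Splitting an event. -/
lemma Pr_split (p : Sym2 V → ℝ) (F : Finset (Sym2 V)) (Q Q' : Finset (Sym2 V) → Prop) :
    Pr p F Q = Pr p F (fun ω => Q ω ∧ Q' ω) + Pr p F (fun ω => Q ω ∧ ¬ Q' ω) := by
  unfold Pr
  rw [← EF_add]
  apply EF_congr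
  intro ω _
  rw [ind_and, ind_and, ind_not]
  ring

open Classical in
lemma Pr_insert (p : Sym2 V → ℝ) {F : Finset (Sym2 V)} {e : Sym2 V} (he : e ∉ F)
    (Q : Finset (Sym2 V) → Prop) :
    Pr p (insert e F) Q = p e * Pr p F (fun ω => Q (insert e ω)) + (1 - p e) * Pr p F Q :=
  EF_insert p he _

end Q76.Pc
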