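import Mathlib
import Pool.Agent.Q76.PcExp

/-!
# Positive association of clusters
-/

namespace Q76.Pc

open Set

variable {V : Type*}

open Classical in
/-- Induction by exploration. -/
theorem explore_induction {P : Finset (Sym2 V) → Set V → Prop}
    (base : ∀ F X, NoOut F X → P F X)
    (step : ∀ (F : Finset (Sym2 V)) (X : Set V) (x y : V), x ∈ X → y ∉ X → s(x, y) ∉ F →
      P F X → P F (insert y X) → P (insert s(x, y) F) X) : ∀ F X, P F X := by
  intro F
  induction hn : F.card using Nat.strong_induction_on generalizing F with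
  | _ n ih =>
    intro X
    by_cases h : NoOut F X
    · exact base F X h
    · unfold NoOut at h
      push Not at h
      obtain ⟨x, hx, y, hy, hmem⟩ := h
      have hlt : (F.erase s(x, y)).card < n := by
        rw [← hn]
        exact Finset.card_erase_lt_of_mem hmem
      have h1 := ih _ hlt (F.erase s(x, y)) rfl
      have h2 := step (F.erase s(x, y)) X x y hx hy (Finset.notMem_erase _ _) (h1 X)
        (h1 (insert y X))
      rwa [Finset.insert_erase hmem] at h2

lemma four_alg {P Q k1 k2 o1 o2 k12 o12 k0 o0 : ℝ} (hP : 0 ≤ P) (hQ : 0 ≤ Q) (n1 : 0 ≤ k1)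
    (n2 : 0 ≤ k2) (n3 : 0 ≤ o1) (n4 : 0 ≤ o2) (n5 : 0 ≤ k12) (n6 : 0 ≤ o12) (n7 : 0 ≤ k0)
    (n8 : 0 ≤ o0) (h1 : k1 * k2 ≤ k12 * k0) (h2 : o1 * o2 ≤ o12 * o0)
    (h3 : k1 * o0 ≤ o1 * k0) (h4 : k2 * o0 ≤ o2 * k0) (hk : k0 = 0 → k1 = 0 ∧ k2 = 0)
    (ho : o0 = 0 → o1 = 0 ∧ o2 = 0) :
    (P * o1 + Q * k1) * (P * o2 + Q * k2) ≤ (P * o12 + Q * k12) * (P * o0 + Q * k0) := by
  have hcross : o1 * k2 + k1 * o2 ≤ o12 * k0 + k12 * o0 := by
    rcases n7.eq_or_lt with hk0 | hk0
    · obtain ⟨e1, e2⟩ := hk hk0.symm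
      rw [e1, e2]
      have : 0 ≤ o12 * k0 + k12 * o0 := by positivity
      linarith
    rcases n8.eq_or_lt with ho0 | ho0
    · obtain ⟨e1, e2⟩ := ho ho0.symm
      rw [e1, e2]
      have : 0 ≤ o12 * k0 + k12 * o0 := by positivity
      linarith
    have hpos : 0 < o0 * k0 := by positivity
    refine le_of_mul_le_mul_right ?_ hpos
    have a1 : o1 * o2 * (k0 * k0) ≤ o12 * o0 * (k0 * k0) := by gcongr
    have a2 : k1 * k2 * (o0 * o0) ≤ k12 * k0 * (o0 * o0) := by gcongr
    have a3 : 0 ≤ (o1 * k0 - k1 * o0) * (o2 * k0 - k2 * o0) :=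
      mul_nonneg (by linarith) (by linarith)
    nlinarith
  have b1 : P * P * (o1 * o2) ≤ P * P * (o12 * o0) := by gcongr
  have b2 : Q * Q * (k1 * k2) ≤ Q * Q * (k12 * k0) := by gcongr
  have b3 : P * Q * (o1 * k2 + k1 * o2) ≤ P * Q * (o12 * k0 + k12 * o0) := by gcongr
  nlinarith

variable (p : Sym2 V → ℝ)

/-- Truncated expectation of a function of the cluster of `X`. -/
noncomputable def TT (F : Finset (Sym2 V)) (c : V) (X : Set V) (φ : Set V → ℝ) : ℝ :=
  EF p F (fun ω => φ (Cl ω X) * ind (c ∉ Cl ω X))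

open Classical in
/-- The conditional probability that `v` is not connected to `c`. -/
noncomputable def hh (F : Finset (Sym2 V)) (v c : V) (C : Set V) : ℝ :=
  if v ∈ C then 1 else Pr p F (fun ω => ¬ R (away ω C) v c)

variable {p}

lemma hh_nonneg (hp : ∀ e, 0 ≤ p e ∧ p e ≤ 1) (F : Finset (Sym2 V)) (v c : V) (C : Set V) :
    0 ≤ hh p F v c C := by
  unfold hh
  split_ifs
  · norm_num
  · exact Pr_nonneg hp _ _

lemma hh_mono (hp : ∀ e, 0 ≤ p e ∧ p e ≤ 1) (F : Finset (Sym2 V)) (v c : V) :
    Monotone (hh p F v c) := by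
  intro C C' hCC'
  unfold hh
  split_ifs with h1 h2 h2
  · exact le_rfl
  · exact absurd (hCC' h1) h2
  · exact Pr_le_one hp _ _
  · apply Pr_mono hp
    intro ω _ hr hr'
    exact hr (R_mono (away_anti ω hCC') hr')

open Classical in
lemma hh_insert (F : Finset (Sym2 V)) (v c : V) {C : Set V} {x y : V} (hx : x ∈ C)
    (he : s(x, y) ∉ F) : hh p (insert s(x, y) F) v c C = hh p F v c C := by
  unfold hh
  split_ifs with h1
  · rfl
  · rw [Pr_insert p he]
    have : Pr p F (fun ω => ¬ R (away (insert s(x, y) ω) C) v c) =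
        Pr p F (fun ω => ¬ R (away ω C) v c) := by
      apply Pr_congr
      intro ω _
      rw [away_insert hx]
    rw [this]
    ring

open Classical in
/-- Conditioning on the cluster of `X`. -/
theorem cluster_cond (v c : V) (φ : Set V → ℝ) (F : Finset (Sym2 V)) (X : Set V) :
    EF p F (fun ω => φ (Cl ω X) * ind (c ∉ Cl ω X) * ind (¬ R ω v c)) =
      EF p F (fun ω => φ (Cl ω X) * hh p F v c (Cl ω X) * ind (c ∉ Cl ω X)) := by
  revert F X
  apply explore_induction
  · intro F X h
    have h1 : EF p F (fun ω => φ (Cl ω X) * ind (c ∉ Cl ω X) * ind (¬ R ω v c)) =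
        (φ X * ind (c ∉ X)) * Pr p F (fun ω => ¬ R ω v c) := by
      unfold Pr
      rw [← EF_mul_left]
      apply EF_congr
      intro ω hω
      rw [Cl_noOut hω h]
    have h2 : EF p F (fun ω => φ (Cl ω X) * hh p F v c (Cl ω X) * ind (c ∉ Cl ω X)) =
        φ X * hh p F v c X * ind (c ∉ X) := by
      rw [← EF_const p F (φ X * hh p F v c X * ind (c ∉ X))]
      apply EF_congr
      intro ω hω
      rw [Cl_noOut hω h]
    rw [h1, h2]
    by_cases hc : c ∈ X
    · rw [ind_false (not_not.mpr hc)]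
      ring
    · rw [ind_true hc]
      have h3 : Pr p F (fun ω => ¬ R ω v c) = hh p F v c X := by
        unfold hh
        split_ifs with hv
        · have : Pr p F (fun ω => ¬ R ω v c) = Pr p F (fun _ => True) := by
            apply Pr_congr
            intro ω hω
            simp only [iff_true]
            intro hr
            exact hc ((Conn_noOut hω h).mp (Conn_trans (Conn_of_mem hv) hr))
          rw [this]
          unfold Pr
          simp_rw [ind_true trivial]
          exact EF_const p F 1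
        · apply Pr_congr
          intro ω hω
          rw [R_away hω h hv]
      rw [h3]
      ring
  · intro F X x y hx hy he ih1 ih2
    rw [EF_insert p he, EF_insert p he]
    congr 1
    · congr 1
      have h1 : EF p F (fun ω => φ (Cl (insert s(x, y) ω) X) * ind (c ∉ Cl (insert s(x, y) ω) X) *
          ind (¬ R (insert s(x, y) ω) v c)) =
          EF p F (fun ω => φ (Cl ω (insert y X)) * ind (c ∉ Cl ω (insert y X)) *
            ind (¬ R ω v c)) := by
        apply EF_congr
        intro ω hω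
        rw [Cl_insert hx]
        by_cases hc : c ∈ Cl ω (insert y X)
        · rw [ind_false (not_not.mpr hc)]
          ring
        · congr 1
          apply ind_congr
          rw [not_iff_not, R_insert]
          constructor
          · rintro (h | ⟨h2, h3⟩ | ⟨h2, h3⟩)
            · exact h
            · exact absurd ⟨y, Or.inl rfl, h3⟩ hc
            · exact absurd ⟨x, Or.inr hx, h3⟩ hc
          · exact Or.inl
      rw [h1, ih2]
      apply EF_congr
      intro ω hω
      rw [Cl_insert hx, hh_insert F v c (subset_Cl ω _ (Or.inr hx)) he]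
    · congr 1
      rw [ih1]
      apply EF_congr
      intro ω hω
      rw [hh_insert F v c (subset_Cl ω _ hx) he]

open Classical in
/-- Positive association of the cluster of `X` given that it does not contain `c`. -/
theorem pos_assoc (hp : ∀ e, 0 ≤ p e ∧ p e ≤ 1) (c : V) (F : Finset (Sym2 V)) (X : Set V) :
    ∀ φ ψ : Set V → ℝ, Monotone φ → Monotone ψ → (∀ C, 0 ≤ φ C) → (∀ C, 0 ≤ ψ C) →
      TT p F c X φ * TT p F c X ψ ≤ TT p F c X (fun C => φ C * ψ C) * TT p F c X (fun _ => 1) := by
  revert F X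
  apply explore_induction
  · intro F X h φ ψ _ _ _ _
    have h1 : ∀ χ : Set V → ℝ, TT p F c X χ = χ X * ind (c ∉ X) := by
      intro χ
      unfold TT
      rw [← EF_const p F (χ X * ind (c ∉ X))]
      apply EF_congr
      intro ω hω
      rw [Cl_noOut hω h]
    rw [h1, h1, h1, h1]
    apply le_of_eq
    ring
  · intro F X x y hx hy he ih1 ih2 φ ψ hφ hψ hφ0 hψ0
    have hrec : ∀ χ : Set V → ℝ, TT p (insert s(x, y) F) c X χ =
        p s(x, y) * TT p F c (insert y X) χ + (1 - p s(x, y)) * TT p F c X χ := by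
      intro χ
      unfold TT
      rw [EF_insert p he]
      congr 2
      apply EF_congr
      intro ω _
      rw [Cl_insert hx]
    have hTnn : ∀ (Z : Set V) (χ : Set V → ℝ), (∀ C, 0 ≤ χ C) → 0 ≤ TT p F c Z χ :=
      fun Z χ hχ => EF_nonneg hp (fun ω _ => mul_nonneg (hχ _) (ind_nonneg _))
    -- domination
    have hdom : ∀ χ : Set V → ℝ, Monotone χ → (∀ C, 0 ≤ χ C) →
        TT p F c X χ * TT p F c (insert y X) (fun _ => 1) ≤
          TT p F c (insert y X) χ * TT p F c X (fun _ => 1) := by
      intro χ hχ hχ0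
      have hset : ∀ ω, (c ∉ Cl ω (insert y X)) ↔ (c ∉ Cl ω X ∧ ¬ R ω y c) := by
        intro ω
        show (¬ Conn ω (insert y X) c) ↔ (¬ Conn ω X c ∧ ¬ R ω y c)
        rw [Conn_insert_set, not_or]
      have h1 : TT p F c (insert y X) (fun _ => 1) = TT p F c X (hh p F y c) := by
        have h2 := cluster_cond (p := p) y c (fun _ => 1) F X
        unfold TT
        simp only [one_mul] at h2 ⊢
        rw [← h2]
        apply EF_congr
        intro ω _
        rw [ind_congr (hset ω), ind_and]
      have h3 : TT p F c X (fun C => χ C * hh p F y c C) ≤ TT p F c (insert y X) χ := by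
        have h2 := cluster_cond (p := p) y c χ F X
        unfold TT
        rw [← h2]
        apply EF_mono hp
        intro ω _
        rw [ind_congr (hset ω), ind_and, mul_assoc]
        apply mul_le_mul_of_nonneg_right
        · apply hχ
          exact fun z hz => Conn_mono_set (Set.subset_insert _ _) hz
        · exact mul_nonneg (ind_nonneg _) (ind_nonneg _)
      rw [h1]
      calc TT p F c X χ * TT p F c X (hh p F y c)
          ≤ TT p F c X (fun C => χ C * hh p F y c C) * TT p F c X (fun _ => 1) :=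
            ih1 χ (hh p F y c) hχ (hh_mono hp F y c) hχ0 (hh_nonneg hp F y c)
        _ ≤ TT p F c (insert y X) χ * TT p F c X (fun _ => 1) :=
            mul_le_mul_of_nonneg_right h3 (hTnn _ _ (fun _ => by norm_num))
    have hdφ := hdom φ hφ hφ0
    have hdψ := hdom ψ hψ hψ0
    have h1 := ih1 φ ψ hφ hψ hφ0 hψ0
    have h2 := ih2 φ ψ hφ hψ hφ0 hψ0
    rw [hrec, hrec, hrec, hrec]
    have n1 := hTnn X φ hφ0
    have n2 := hTnn X ψ hψ0
    have n3 := hTnn (insert y X) φ hφ0
    have n4 := hTnn (insert y X) ψ hψ0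
    have n5 := hTnn X (fun C => φ C * ψ C) (fun C => mul_nonneg (hφ0 C) (hψ0 C))
    have n6 := hTnn (insert y X) (fun C => φ C * ψ C) (fun C => mul_nonneg (hφ0 C) (hψ0 C))
    have n7 : 0 ≤ TT p F c X (fun _ => 1) := hTnn X _ (fun _ => by norm_num)
    have n8 : 0 ≤ TT p F c (insert y X) (fun _ => 1) := hTnn _ _ (fun _ => by norm_num)
    have hle : ∀ (Z : Set V) (χ : Set V → ℝ),
        TT p F c Z (fun _ => 1) = 0 → TT p F c Z χ = 0 := by
      intro Z χ h0
      unfold TT EF at h0 ⊢
      rw [Finset.sum_eq_zero_iff_of_nonneg (fun ω _ => mul_nonneg (wt_nonneg hp F ω)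
        (mul_nonneg zero_le_one (ind_nonneg _)))] at h0
      apply Finset.sum_eq_zero
      intro ω hω
      have h3 := h0 ω hω
      rw [one_mul] at h3
      calc wt p F ω * (χ (Cl ω Z) * ind (c ∉ Cl ω Z)) =
          (wt p F ω * ind (c ∉ Cl ω Z)) * χ (Cl ω Z) := by ring
        _ = 0 := by rw [h3, zero_mul]
    have hz1 := hle X
    have hz2 := hle (insert y X)
    exact four_alg (hp _).1 (by linarith [(hp s(x, y)).2]) n1 n2 n3 n4 n5 n6 n7 n8 h1 h2 hdφ hdψ
      (fun h => ⟨hz1 _ h, hz1 _ h⟩) (fun h => ⟨hz2 _ h, hz2 _ h⟩)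

end Q76.Pc
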