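import Mathlib
import Pool.Agent.Q76.PcPA

/-!
# Two inequalities for clusters and the numerical step
-/

namespace Q76.Pc

open Set

variable {V : Type*} {p : Sym2 V → ℝ}

/-- A van den Berg–Häggström–Kahn inequality. -/
theorem bhk (hp : ∀ e, 0 ≤ p e ∧ p e ≤ 1) (F : Finset (Sym2 V)) (A : Set V) (b c v : V) :
    Pr p F (fun ω => Conn ω A b ∧ R ω v c ∧ ¬ Conn ω A c) * Pr p F (fun ω => ¬ Conn ω A c) ≤
      Pr p F (fun ω => Conn ω A b ∧ ¬ Conn ω A c) * Pr p F (fun ω => R ω v c ∧ ¬ Conn ω A c) := by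
  have h := pos_assoc hp c F A (fun C => ind (b ∈ C)) (hh p F v c)
    (fun C C' hC => ind_mono (fun hb => hC hb)) (hh_mono hp F v c) (fun C => ind_nonneg _)
    (hh_nonneg hp F v c)
  have h1 : TT p F c A (fun C => ind (b ∈ C)) = Pr p F (fun ω => Conn ω A b ∧ ¬ Conn ω A c) := by
    unfold TT Pr
    apply EF_congr
    intro ω _
    rw [ind_and]
    rfl
  have h2 : TT p F c A (fun _ => 1) = Pr p F (fun ω => ¬ Conn ω A c) := by
    unfold TT Pr
    apply EF_congr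
    intro ω _
    rw [one_mul]
    rfl
  have h3 : TT p F c A (hh p F v c) =
      Pr p F (fun ω => ¬ Conn ω A c) - Pr p F (fun ω => R ω v c ∧ ¬ Conn ω A c) := by
    have h4 := cluster_cond (p := p) v c (fun _ => 1) F A
    unfold TT Pr
    simp only [one_mul] at h4
    rw [← h4, ← EF_sub]
    apply EF_congr
    intro ω _
    rw [ind_and, ind_not (R ω v c)]
    show ind (¬ Conn ω A c) * (1 - ind (R ω v c)) = _
    ring
  have h5 : TT p F c A (fun C => ind (b ∈ C) * hh p F v c C) =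
      Pr p F (fun ω => Conn ω A b ∧ ¬ Conn ω A c) -
        Pr p F (fun ω => Conn ω A b ∧ R ω v c ∧ ¬ Conn ω A c) := by
    have h4 := cluster_cond (p := p) v c (fun C => ind (b ∈ C)) F A
    unfold TT Pr
    rw [← h4, ← EF_sub]
    apply EF_congr
    intro ω _
    rw [ind_and, ind_and, ind_and, ind_not (R ω v c)]
    show ind (Conn ω A b) * ind (¬ Conn ω A c) * (1 - ind (R ω v c)) = _
    ring
  rw [h1, h2, h3, h5] at h
  nlinarith

open Classical in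
/-- The cluster of `X` may only help `A` to avoid `c`. -/
theorem avoid (hp : ∀ e, 0 ≤ p e ∧ p e ≤ 1) (A : Set V) (b c : V) (F : Finset (Sym2 V))
    (X : Set V) :
    Pr p F (fun ω => Conn ω X b ∧ ¬ Conn ω X c ∧ ∀ a ∈ A, ¬ Conn ω X a) *
        Pr p F (fun ω => ¬ Conn ω A c) ≤
      Pr p F (fun ω => (Conn ω X b ∧ ¬ Conn ω X c ∧ ∀ a ∈ A, ¬ Conn ω X a) ∧ ¬ Conn ω A c) := by
  revert F X
  apply explore_induction
  · intro F X h
    have h1 : ∀ ω ⊆ F, ((Conn ω X b ∧ ¬ Conn ω X c ∧ ∀ a ∈ A, ¬ Conn ω X a) ↔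
        (b ∈ X ∧ c ∉ X ∧ ∀ a ∈ A, a ∉ X)) := by
      intro ω hω
      simp only [Conn_noOut hω h]
    have h2 : Pr p F (fun ω => Conn ω X b ∧ ¬ Conn ω X c ∧ ∀ a ∈ A, ¬ Conn ω X a) =
        ind (b ∈ X ∧ c ∉ X ∧ ∀ a ∈ A, a ∉ X) := by
      unfold Pr
      rw [← EF_const p F (ind (b ∈ X ∧ c ∉ X ∧ ∀ a ∈ A, a ∉ X))]
      exact EF_congr p (fun ω hω => ind_congr (h1 ω hω))
    rw [h2]
    apply le_of_eq
    unfold Pr
    rw [← EF_mul_left]
    apply EF_congr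
    intro ω hω
    show ind _ * ind (¬ Conn ω A c) =
      ind ((Conn ω X b ∧ ¬ Conn ω X c ∧ ∀ a ∈ A, ¬ Conn ω X a) ∧ ¬ Conn ω A c)
    rw [ind_and (Conn ω X b ∧ ¬ Conn ω X c ∧ ∀ a ∈ A, ¬ Conn ω X a), ind_congr (h1 ω hω)]
  · intro F X x y hx hy he ih1 ih2
    have hanti : Pr p (insert s(x, y) F) (fun ω => ¬ Conn ω A c) ≤
        Pr p F (fun ω => ¬ Conn ω A c) := by
      apply EF_insert_anti hp he
      intro ω ω' hωω'
      exact ind_mono (fun h1 h2 => h1 (Conn_mono hωω' h2))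
    have h1 : ∀ ω, (Conn (insert s(x, y) ω) X b ∧ ¬ Conn (insert s(x, y) ω) X c ∧
        ∀ a ∈ A, ¬ Conn (insert s(x, y) ω) X a) ↔ (Conn ω (insert y X) b ∧
          ¬ Conn ω (insert y X) c ∧ ∀ a ∈ A, ¬ Conn ω (insert y X) a) := by
      intro ω
      simp only [Conn_insert hx]
    have h2 : Pr p (insert s(x, y) F) (fun ω => Conn ω X b ∧ ¬ Conn ω X c ∧
        ∀ a ∈ A, ¬ Conn ω X a) =
        p s(x, y) * Pr p F (fun ω => Conn ω (insert y X) b ∧ ¬ Conn ω (insert y X) c ∧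
          ∀ a ∈ A, ¬ Conn ω (insert y X) a) + (1 - p s(x, y)) *
        Pr p F (fun ω => Conn ω X b ∧ ¬ Conn ω X c ∧ ∀ a ∈ A, ¬ Conn ω X a) := by
      rw [Pr_insert p he]
      congr 2
      exact Pr_congr p (fun ω _ => h1 ω)
    have h3 : Pr p (insert s(x, y) F) (fun ω => (Conn ω X b ∧ ¬ Conn ω X c ∧
        ∀ a ∈ A, ¬ Conn ω X a) ∧ ¬ Conn ω A c) =
        p s(x, y) * Pr p F (fun ω => (Conn ω (insert y X) b ∧ ¬ Conn ω (insert y X) c ∧
          ∀ a ∈ A, ¬ Conn ω (insert y X) a) ∧ ¬ Conn ω A c) + (1 - p s(x, y)) *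
        Pr p F (fun ω => (Conn ω X b ∧ ¬ Conn ω X c ∧ ∀ a ∈ A, ¬ Conn ω X a) ∧
          ¬ Conn ω A c) := by
      rw [Pr_insert p he]
      congr 2
      apply Pr_congr p
      intro ω _
      rw [h1 ω]
      apply and_congr_right
      rintro ⟨g1, g2, g3⟩
      rw [not_iff_not]
      constructor
      · rintro ⟨a, ha, hr⟩
        rw [R_insert] at hr
        rcases hr with hr | ⟨r1, r2⟩ | ⟨r1, r2⟩
        · exact ⟨a, ha, hr⟩
        · exact absurd ⟨x, Or.inr hx, R_symm r1⟩ (g3 a ha)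
        · exact absurd ⟨y, Or.inl rfl, R_symm r1⟩ (g3 a ha)
      · exact fun h => Conn_mono (Finset.subset_insert _ _) h
    rw [h2, h3]
    have hp0 := (hp s(x, y)).1
    have hp1 := (hp s(x, y)).2
    have n1 := Pr_nonneg hp F (fun ω => Conn ω (insert y X) b ∧ ¬ Conn ω (insert y X) c ∧
          ∀ a ∈ A, ¬ Conn ω (insert y X) a)
    have n2 := Pr_nonneg hp F (fun ω => Conn ω X b ∧ ¬ Conn ω X c ∧ ∀ a ∈ A, ¬ Conn ω X a)
    have n3 := Pr_nonneg hp F (fun ω => ¬ Conn ω A c)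
    set P1 := Pr p F (fun ω => Conn ω (insert y X) b ∧ ¬ Conn ω (insert y X) c ∧
          ∀ a ∈ A, ¬ Conn ω (insert y X) a)
    set P2 := Pr p F (fun ω => Conn ω X b ∧ ¬ Conn ω X c ∧ ∀ a ∈ A, ¬ Conn ω X a)
    set N := Pr p F (fun ω => ¬ Conn ω A c)
    calc _ ≤ (p s(x, y) * P1 + (1 - p s(x, y)) * P2) * N := by
          apply mul_le_mul_of_nonneg_left hanti
          have : 0 ≤ 1 - p s(x, y) := by linarith
          positivity
      _ = p s(x, y) * (P1 * N) + (1 - p s(x, y)) * (P2 * N) := by ring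
      _ ≤ _ := by
          apply add_le_add
          · exact mul_le_mul_of_nonneg_left ih2 hp0
          · exact mul_le_mul_of_nonneg_left ih1 (by linarith)

lemma step_alg {κ t Xp Xm Sp Sm q y z : ℝ} (hκ : 0 < κ) (hκ1 : κ ≤ 1)
    (ht0 : 0 ≤ t) (ht1 : t ≤ 1) (hN : κ < 1 - (t * Xp + (1 - t) * Xm))
    (hS : t * Sp + (1 - t) * Sm ≤ κ ^ 4 / 16) (hX : Xm ≤ Xp) (hXp : Xp ≤ 1) (hXm0 : 0 ≤ Xm)
    (hSp : 0 ≤ Sp) (hSm : 0 ≤ Sm) (hq : 0 ≤ q) (hy : 0 ≤ y) (hz : 0 ≤ z)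
    (hDS : Sp - Sm = z - q) (h1 : q * (1 - Xm) ≤ Sm * (Xp - Xm))
    (h2 : (y + z) * (1 - Xm) ≤ z) :
    t * (1 - t) * ((Xp - Xm) * (q + y)) ≤
      t * (1 - t) * (κ * (Xp - Xm) ^ 2 + (Sp - Sm) ^ 2 / (2 * κ ^ 3)) := by
  rcases ht0.eq_or_lt with rfl | ht0'
  · simp
  rcases ht1.eq_or_lt with rfl | ht1'
  · simp
  apply mul_le_mul_of_nonneg_left _ (by nlinarith)
  set D := Xp - Xm with hD
  have hD0 : 0 ≤ D := by linarith
  have hNm : κ < 1 - Xm := by nlinarith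
  have hqb : q ≤ κ ^ 2 / 4 * D := by
    rcases le_or_gt (κ / 2) (1 - t) with hc | hc
    · have h3 : Sm ≤ κ ^ 3 / 8 := by
        have h4 : κ / 2 * Sm ≤ κ ^ 4 / 16 := by nlinarith
        have h5 : κ / 2 * Sm ≤ κ / 2 * (κ ^ 3 / 8) := by
          calc _ ≤ κ ^ 4 / 16 := h4
            _ = _ := by ring
        exact le_of_mul_le_mul_left h5 (by positivity)
      have h6 : κ * q ≤ κ * (κ ^ 2 / 4 * D) := by
        calc κ * q ≤ q * (1 - Xm) := by nlinarith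
          _ ≤ Sm * D := h1
          _ ≤ κ ^ 3 / 8 * D := by gcongr
          _ ≤ κ * (κ ^ 2 / 4 * D) := by
              have : 0 ≤ κ ^ 3 * D := by positivity
              nlinarith
      exact le_of_mul_le_mul_left h6 hκ
    · have ht2 : 1 / 2 ≤ t := by linarith
      have h3 : Sp ≤ κ ^ 4 / 8 := by nlinarith
      have h4 : κ / 2 ≤ 1 - Xp := by nlinarith
      have h5 : Sm ≤ κ ^ 4 / 8 + q := by linarith
      have h6 : q * (1 - Xp) ≤ κ ^ 4 / 8 * D := by nlinarith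
      have h7 : κ / 2 * q ≤ κ / 2 * (κ ^ 2 / 4 * D) := by
        calc κ / 2 * q ≤ q * (1 - Xp) := by nlinarith
          _ ≤ κ ^ 4 / 8 * D := h6
          _ = κ / 2 * (κ ^ 3 / 4 * D) := by ring
          _ ≤ κ / 2 * (κ ^ 2 / 4 * D) := by
              have : κ ^ 3 ≤ κ ^ 2 := pow_le_pow_of_le_one hκ.le hκ1 (by norm_num)
              gcongr
      exact le_of_mul_le_mul_left h7 (by positivity)
  have hyb : κ * y ≤ z := by nlinarith
  set E := Sp - Sm with hE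
  have hz2 : z ≤ |E| + q := by
    have := le_abs_self E
    linarith
  have h3 : κ * (q + y) ≤ |E| + κ ^ 2 / 2 * D := by
    have : κ * q ≤ q := by nlinarith
    linarith
  have h4 : κ * (D * (q + y)) ≤ D * |E| + κ ^ 2 / 2 * D ^ 2 := by nlinarith
  have h5 : D * |E| ≤ κ ^ 2 / 2 * D ^ 2 + E ^ 2 / (2 * κ ^ 2) := by
    rw [← sub_nonneg]
    have h6 : κ ^ 2 / 2 * D ^ 2 + E ^ 2 / (2 * κ ^ 2) - D * |E| =
        (κ * D - |E| / κ) ^ 2 / 2 := by
      rw [← sq_abs E]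
      field_simp
      ring
    rw [h6]
    positivity
  have h7 : κ * (D * (q + y)) ≤ κ * (κ * D ^ 2 + E ^ 2 / (2 * κ ^ 3)) := by
    calc _ ≤ κ ^ 2 / 2 * D ^ 2 + E ^ 2 / (2 * κ ^ 2) + κ ^ 2 / 2 * D ^ 2 := by linarith
      _ = _ := by
        field_simp
        ring
  exact le_of_mul_le_mul_left h7 hκ

end Q76.Pc
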