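import Mathlib

/-!
# Bernoulli bond percolation on a graph: definitions
-/

namespace Q76.Pc

open MeasureTheory Set

variable {V : Type*}

/-- The Bernoulli law on `{false, true}` giving mass `t` to `true`. -/
noncomputable def bern (t : unitInterval) : Measure Bool :=
  ENNReal.ofReal t • Measure.dirac true + ENNReal.ofReal (1 - t) • Measure.dirac false

instance (t : unitInterval) : IsProbabilityMeasure (bern t) := by
  constructor
  rw [bern, Measure.add_apply, Measure.smul_apply, Measure.smul_apply, measure_univ, measure_univ,
    smul_eq_mul, smul_eq_mul, mul_one, mul_one, ← ENNReal.ofReal_add t.2.1 (by linarith [t.2.2])]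
  simp

/-- Bernoulli bond percolation: every edge `e` of `G` is open (`true`) independently with
probability `p e`. -/
noncomputable def perc (G : SimpleGraph V) (p : G.edgeSet → unitInterval) :
    Measure (G.edgeSet → Bool) :=
  Measure.infinitePi (fun e => bern (p e))

instance (G : SimpleGraph V) (p : G.edgeSet → unitInterval) :
    IsProbabilityMeasure (perc G p) := by
  unfold perc
  infer_instance

/-- The subgraph of open edges. -/
def openGraph (G : SimpleGraph V) (ω : G.edgeSet → Bool) : SimpleGraph V where
  Adj u v := ∃ h : G.Adj u v, ω ⟨s(u, v), h⟩ = true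
  symm := ⟨fun u v => by
    rintro ⟨h, hω⟩
    refine ⟨h.symm, ?_⟩
    rw [← hω]
    congr 1
    exact Subtype.ext Sym2.eq_swap⟩
  loopless := ⟨fun u => by
    rintro ⟨h, _⟩
    exact h.ne rfl⟩

/-- `u` and `v` are in the same cluster. -/
def Same (G : SimpleGraph V) (u v : V) (ω : G.edgeSet → Bool) : Prop :=
  (openGraph G ω).Reachable u v

/-- probability of `abc` -/
noncomputable def Pabc (G : SimpleGraph V) (p : G.edgeSet → unitInterval) (a b c : V) : ℝ :=
  (perc G p).real {ω | Same G a b ω ∧ Same G a c ω}

/-- probability of `ab|c`: `a` and `b` share a cluster not containing `c` -/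
noncomputable def Pab_c (G : SimpleGraph V) (p : G.edgeSet → unitInterval) (a b c : V) : ℝ :=
  (perc G p).real {ω | Same G a b ω ∧ ¬ Same G a c ω}

/-- probability of `a|b|c` -/
noncomputable def Pa_b_c (G : SimpleGraph V) (p : G.edgeSet → unitInterval) (a b c : V) : ℝ :=
  (perc G p).real {ω | ¬ Same G a b ω ∧ ¬ Same G a c ω ∧ ¬ Same G b c ω}

end Q76.Pc
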