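import Mathlib
import Pool.Agent.Q76.PcExp

/-!
# Percolation with parameter one half on fans
-/

namespace Q76.Pc

open Set

variable {V : Type*}

lemma R_isolated {ω : Finset (Sym2 V)} {x u : V} (h : ∀ w, s(x, w) ∉ ω) :
    R ω x u ↔ u = x := by
  constructor
  · intro hr
    refine R_induct (Q := fun w => w = x) rfl ?_ hr
    rintro w w' rfl hmem
    exact absurd hmem (h w')
  · rintro rfl
    exact R_refl _ _

lemma R_isolated' {ω : Finset (Sym2 V)} {x u : V} (h : ∀ w, s(x, w) ∉ ω) :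
    R ω u x ↔ u = x := by
  rw [← R_isolated h]
  exact ⟨R_symm, R_symm⟩

lemma R_comm {ω : Finset (Sym2 V)} {u w : V} : R ω u w ↔ R ω w u := ⟨R_symm, R_symm⟩

/-- the constant one half -/
noncomputable def hf (_ : Sym2 V) : ℝ := 1 / 2

open Classical in
/-- The edges of the fan with path `v 0, ..., v n` and apex `c`. -/
noncomputable def FF (v : ℕ → V) (c : V) : ℕ → Finset (Sym2 V)
  | 0 => {s(v 0, c)}
  | n + 1 => insert s(v (n + 1), v n) (insert s(v (n + 1), c) (FF v c n))

lemma mem_FF {v : ℕ → V} {c : V} {n : ℕ} {e : Sym2 V} :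
    e ∈ FF v c n ↔ (∃ i ≤ n, e = s(v i, c)) ∨ (∃ i < n, e = s(v (i + 1), v i)) := by
  classical
  induction n with
  | zero =>
    simp [FF]
  | succ n ih =>
    rw [FF, Finset.mem_insert, Finset.mem_insert, ih]
    constructor
    · rintro (h | h | ⟨i, hi, h⟩ | ⟨i, hi, h⟩)
      · exact Or.inr ⟨n, by omega, h⟩
      · exact Or.inl ⟨n + 1, by omega, h⟩
      · exact Or.inl ⟨i, by omega, h⟩
      · exact Or.inr ⟨i, by omega, h⟩
    · rintro (⟨i, hi, h⟩ | ⟨i, hi, h⟩)
      · rcases Nat.lt_or_ge n i with hn | hn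
        · have : i = n + 1 := by omega
          subst this
          exact Or.inr (Or.inl h)
        · exact Or.inr (Or.inr (Or.inl ⟨i, hn, h⟩))
      · rcases Nat.lt_or_ge i n with hn | hn
        · exact Or.inr (Or.inr (Or.inr ⟨i, hn, h⟩))
        · have : i = n := by omega
          subst this
          exact Or.inl h

set_option linter.unusedSimpArgs false in
open Classical in
/-- Connections after adding the two edges of a new vertex `x`. -/
lemma R_step {ω : Finset (Sym2 V)} {x y b c : V} (hiso : ∀ w, s(x, w) ∉ ω) (hyx : y ≠ x)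
    (hbx : b ≠ x) (hcx : c ≠ x) :
    (R (insert s(x, y) (insert s(x, c) ω)) x c) ∧
    (R (insert s(x, y) (insert s(x, c) ω)) x b ↔ R ω b y ∨ R ω b c) ∧
    (R (insert s(x, y) (insert s(x, c) ω)) b c ↔ R ω b y ∨ R ω b c) ∧
    (R (insert s(x, y) ω) x c ↔ R ω y c) ∧
    (R (insert s(x, y) ω) x b ↔ R ω y b) ∧
    (R (insert s(x, y) ω) b c ↔ R ω b c) ∧
    (R (insert s(x, c) ω) x c) ∧
    (R (insert s(x, c) ω) x b ↔ R ω b c) ∧
    (R (insert s(x, c) ω) b c ↔ R ω b c) ∧
    (¬ R ω x c) ∧ (¬ R ω x b) := by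
  have i1 : ∀ u, R ω x u ↔ u = x := fun u => R_isolated hiso
  have i2 : ∀ u, R ω u x ↔ u = x := fun u => R_isolated' hiso
  have rx : R ω x x := R_refl _ _
  refine ⟨?_, ?_, ?_, ?_, ?_, ?_, ?_, ?_, ?_, ?_, ?_⟩
  · exact R_edge (by simp)
  · simp only [R_insert, i1, i2, hyx, hbx, hcx, false_and, and_false, or_false, false_or, true_and,
      and_true]
    rw [R_comm (u := c) (w := b), R_comm (u := y) (w := b)]
    constructor
    · rintro (h | h | ⟨h, h'⟩)
      · exact Or.inr h
      · exact Or.inl h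
      · exact Or.inr h'
    · rintro (h | h)
      · exact Or.inr (Or.inl h)
      · exact Or.inl h
  · simp only [R_insert, i1, i2, hyx, hbx, hcx, false_and, and_false, or_false, false_or, true_and,
      and_true]
    constructor
    · rintro (h | ⟨h, h'⟩ | h)
      · exact Or.inr h
      · exact Or.inr h
      · rcases h with ⟨h, _⟩
        exact Or.inl h
    · rintro (h | h)
      · exact Or.inr (Or.inr ⟨h, R_refl _ _⟩)
      · exact Or.inl h
  · simp only [R_insert, i1, i2, hyx, hbx, hcx, false_and, and_false, or_false, false_or, true_and]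
  · simp only [R_insert, i1, i2, hyx, hbx, hcx, false_and, and_false, or_false, false_or, true_and]
  · simp only [R_insert, i1, i2, hyx, hbx, hcx, false_and, and_false, or_false, false_or, true_and]
  · exact R_edge (by simp)
  · simp only [R_insert, i1, i2, hyx, hbx, hcx, false_and, and_false, or_false, false_or, true_and]
    exact R_comm
  · simp only [R_insert, i1, i2, hyx, hbx, hcx, false_and, and_false, or_false, false_or, true_and]
  · rw [i1]
    exact hcx
  · rw [i1]
    exact hbx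

section fan

variable {v : ℕ → V} {c : V} {k : ℕ} (hc : ∀ i ≤ k, v i ≠ c)
  (hv : ∀ i ≤ k, ∀ j ≤ k, v i = v j → i = j)

include hc hv

lemma not_mem_FF {n : ℕ} (hn : n + 1 ≤ k) (w : V) : s(v (n + 1), w) ∉ FF v c n := by
  intro h
  rw [mem_FF] at h
  rcases h with ⟨i, hi, h⟩ | ⟨i, hi, h⟩
  · rw [Sym2.eq_iff] at h
    rcases h with ⟨h, _⟩ | ⟨h, _⟩
    · have := hv _ hn _ (by omega) h
      omega
    · exact hc _ hn h
  · rw [Sym2.eq_iff] at h
    rcases h with ⟨h, _⟩ | ⟨h, _⟩
    · have := hv _ hn _ (by omega) h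
      omega
    · have := hv _ hn _ (by omega) h
      omega

open Classical in
lemma Pr_FF_succ {n : ℕ} (hn : n + 1 ≤ k) (Q : Finset (Sym2 V) → Prop) :
    Pr hf (FF v c (n + 1)) Q = 1 / 4 *
      (Pr hf (FF v c n) (fun ω => Q (insert s(v (n + 1), v n) (insert s(v (n + 1), c) ω))) +
       Pr hf (FF v c n) (fun ω => Q (insert s(v (n + 1), v n) ω)) +
       Pr hf (FF v c n) (fun ω => Q (insert s(v (n + 1), c) ω)) +
       Pr hf (FF v c n) Q) := by
  have h2 : s(v (n + 1), c) ∉ FF v c n := not_mem_FF hc hv hn c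
  have h1 : s(v (n + 1), v n) ∉ insert s(v (n + 1), c) (FF v c n) := by
    rw [Finset.mem_insert]
    rintro (h | h)
    · rw [Sym2.eq_iff] at h
      rcases h with ⟨_, h⟩ | ⟨h, _⟩
      · exact hc n (by omega) h
      · exact hc _ hn h
    · exact not_mem_FF hc hv hn (v n) h
  rw [FF, Pr_insert hf h1, Pr_insert hf h2, Pr_insert hf h2]
  simp only [hf]
  ring

/-- The values of the probabilities on the fan. -/
theorem fan_values : ∀ n ≤ k,
    Pr hf (FF v c n) (fun ω => R ω (v n) c) = 2 / 3 - 1 / 6 * (1 / 4) ^ n ∧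
    Pr hf (FF v c n) (fun ω => R ω (v n) (v 0) ∧ ¬ R ω (v n) c) = 1 / 2 * (1 / 4) ^ n ∧
    Pr hf (FF v c n) (fun ω => R ω (v n) (v 0) ∧ R ω (v n) c) =
      4 / 9 + (1 / 18 + n / 6) * (1 / 4) ^ n ∧
    Pr hf (FF v c n) (fun ω => R ω (v 0) c) = 2 / 3 - 1 / 6 * (1 / 4) ^ n ∧
    Pr hf (FF v c n) (fun ω => R ω (v 0) (v n) ∨ R ω (v 0) c) = 2 / 3 + 1 / 3 * (1 / 4) ^ n := by
  classical
  intro n
  induction n with
  | zero =>
    intro hn
    have h0 : s(v 0, c) ∉ (∅ : Finset (Sym2 V)) := Finset.notMem_empty _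
    have hF : FF v c 0 = insert s(v 0, c) (∅ : Finset (Sym2 V)) := by
      rw [FF]
      rfl
    have hcv : c ≠ v 0 := (hc 0 hn).symm
    have e0 : ∀ Q : Finset (Sym2 V) → Prop, Pr hf (FF v c 0) Q =
        1 / 2 * ind (Q (insert s(v 0, c) ∅)) + 1 / 2 * ind (Q ∅) := by
      intro Q
      rw [hF, Pr_insert hf h0]
      unfold Pr
      rw [EF_empty, EF_empty]
      simp only [hf]
      ring
    have r1 : R (insert s(v 0, c) (∅ : Finset (Sym2 V))) (v 0) c := R_edge (by simp)
    have r0 : ¬ R (∅ : Finset (Sym2 V)) (v 0) c := by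
      rw [R_isolated (by simp)]
      exact hcv
    refine ⟨?_, ?_, ?_, ?_, ?_⟩
    · rw [e0, ind_true r1, ind_false r0]; norm_num
    · rw [e0, ind_false (fun h => h.2 r1), ind_true ⟨R_refl _ _, r0⟩]; norm_num
    · rw [e0, ind_true ⟨R_refl _ _, r1⟩, ind_false (fun h => r0 h.2)]; norm_num
    · rw [e0, ind_true r1, ind_false r0]; norm_num
    · rw [e0, ind_true (Or.inl (R_refl _ _)), ind_true (Or.inl (R_refl _ _))]; norm_num
  | succ n ih =>
    intro hn
    obtain ⟨iX, iS, iJ, iY, iW⟩ := ih (by omega)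
    have hyx : v n ≠ v (n + 1) := fun h => by
      have := hv _ (by omega) _ hn h
      omega
    have hbx : v 0 ≠ v (n + 1) := fun h => by
      have := hv _ (by omega) _ hn h
      omega
    have hcx : c ≠ v (n + 1) := (hc _ hn).symm
    have hR : ∀ ω ⊆ FF v c n, _ := fun ω (hω : ω ⊆ FF v c n) =>
      R_step (ω := ω) (x := v (n + 1)) (y := v n) (b := v 0) (c := c)
        (fun w hw => not_mem_FF hc hv hn w (hω hw)) hyx hbx hcx
    have cst1 : Pr hf (FF v c n) (fun _ => True) = 1 := by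
      unfold Pr
      simp_rw [ind_true trivial]
      exact EF_const hf _ 1
    have cst0 : Pr hf (FF v c n) (fun _ => False) = 0 := by
      unfold Pr
      simp_rw [ind_false (not_false)]
      exact EF_const hf _ 0
    refine ⟨?_, ?_, ?_, ?_, ?_⟩
    · rw [Pr_FF_succ hc hv hn]
      have g1 : Pr hf (FF v c n) (fun ω => R (insert s(v (n + 1), v n)
          (insert s(v (n + 1), c) ω)) (v (n + 1)) c) = 1 := by
        rw [← cst1]
        exact Pr_congr hf (fun ω hω => iff_of_true (hR ω hω).1 trivial)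
      have g2 : Pr hf (FF v c n) (fun ω => R (insert s(v (n + 1), v n) ω) (v (n + 1)) c) =
          2 / 3 - 1 / 6 * (1 / 4) ^ n := by
        rw [← iX]
        exact Pr_congr hf (fun ω hω => (hR ω hω).2.2.2.1)
      have g3 : Pr hf (FF v c n) (fun ω => R (insert s(v (n + 1), c) ω) (v (n + 1)) c) = 1 := by
        rw [← cst1]
        exact Pr_congr hf (fun ω hω => iff_of_true (hR ω hω).2.2.2.2.2.2.1 trivial)
      have g4 : Pr hf (FF v c n) (fun ω => R ω (v (n + 1)) c) = 0 := by
        rw [← cst0]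
        exact Pr_congr hf (fun ω hω => iff_of_false (hR ω hω).2.2.2.2.2.2.2.2.2.1 not_false)
      rw [g1, g2, g3, g4]
      ring
    · rw [Pr_FF_succ hc hv hn]
      have g1 : Pr hf (FF v c n) (fun ω => R (insert s(v (n + 1), v n)
          (insert s(v (n + 1), c) ω)) (v (n + 1)) (v 0) ∧ ¬ R (insert s(v (n + 1), v n)
          (insert s(v (n + 1), c) ω)) (v (n + 1)) c) = 0 := by
        rw [← cst0]
        exact Pr_congr hf (fun ω hω => iff_of_false (fun h => h.2 (hR ω hω).1) not_false)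
      have g2 : Pr hf (FF v c n) (fun ω => R (insert s(v (n + 1), v n) ω) (v (n + 1)) (v 0) ∧
          ¬ R (insert s(v (n + 1), v n) ω) (v (n + 1)) c) = 1 / 2 * (1 / 4) ^ n := by
        rw [← iS]
        exact Pr_congr hf (fun ω hω => and_congr (hR ω hω).2.2.2.2.1
          (not_congr (hR ω hω).2.2.2.1))
      have g3 : Pr hf (FF v c n) (fun ω => R (insert s(v (n + 1), c) ω) (v (n + 1)) (v 0) ∧
          ¬ R (insert s(v (n + 1), c) ω) (v (n + 1)) c) = 0 := by
        rw [← cst0]
        exact Pr_congr hf (fun ω hω => iff_of_false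
          (fun h => h.2 (hR ω hω).2.2.2.2.2.2.1) not_false)
      have g4 : Pr hf (FF v c n) (fun ω => R ω (v (n + 1)) (v 0) ∧ ¬ R ω (v (n + 1)) c) = 0 := by
        rw [← cst0]
        exact Pr_congr hf (fun ω hω => iff_of_false
          (fun h => (hR ω hω).2.2.2.2.2.2.2.2.2.2 h.1) not_false)
      rw [g1, g2, g3, g4]
      ring
    · rw [Pr_FF_succ hc hv hn]
      have g1 : Pr hf (FF v c n) (fun ω => R (insert s(v (n + 1), v n)
          (insert s(v (n + 1), c) ω)) (v (n + 1)) (v 0) ∧ R (insert s(v (n + 1), v n)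
          (insert s(v (n + 1), c) ω)) (v (n + 1)) c) = 2 / 3 + 1 / 3 * (1 / 4) ^ n := by
        rw [← iW]
        exact Pr_congr hf (fun ω hω => by
          rw [(hR ω hω).2.1]
          exact ⟨fun h => h.1, fun h => ⟨h, (hR ω hω).1⟩⟩)
      have g2 : Pr hf (FF v c n) (fun ω => R (insert s(v (n + 1), v n) ω) (v (n + 1)) (v 0) ∧
          R (insert s(v (n + 1), v n) ω) (v (n + 1)) c) =
          4 / 9 + (1 / 18 + n / 6) * (1 / 4) ^ n := by
        rw [← iJ]
        exact Pr_congr hf (fun ω hω => and_congr (hR ω hω).2.2.2.2.1 (hR ω hω).2.2.2.1)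
      have g3 : Pr hf (FF v c n) (fun ω => R (insert s(v (n + 1), c) ω) (v (n + 1)) (v 0) ∧
          R (insert s(v (n + 1), c) ω) (v (n + 1)) c) = 2 / 3 - 1 / 6 * (1 / 4) ^ n := by
        rw [← iY]
        exact Pr_congr hf (fun ω hω => by
          rw [(hR ω hω).2.2.2.2.2.2.2.1]
          exact ⟨fun h => h.1, fun h => ⟨h, (hR ω hω).2.2.2.2.2.2.1⟩⟩)
      have g4 : Pr hf (FF v c n) (fun ω => R ω (v (n + 1)) (v 0) ∧ R ω (v (n + 1)) c) = 0 := by
        rw [← cst0]
        exact Pr_congr hf (fun ω hω => iff_of_false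
          (fun h => (hR ω hω).2.2.2.2.2.2.2.2.2.2 h.1) not_false)
      rw [g1, g2, g3, g4]
      push_cast
      ring
    · rw [Pr_FF_succ hc hv hn]
      have g1 : Pr hf (FF v c n) (fun ω => R (insert s(v (n + 1), v n)
          (insert s(v (n + 1), c) ω)) (v 0) c) = 2 / 3 + 1 / 3 * (1 / 4) ^ n := by
        rw [← iW]
        exact Pr_congr hf (fun ω hω => (hR ω hω).2.2.1)
      have g2 : Pr hf (FF v c n) (fun ω => R (insert s(v (n + 1), v n) ω) (v 0) c) =
          2 / 3 - 1 / 6 * (1 / 4) ^ n := by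
        rw [← iY]
        exact Pr_congr hf (fun ω hω => (hR ω hω).2.2.2.2.2.1)
      have g3 : Pr hf (FF v c n) (fun ω => R (insert s(v (n + 1), c) ω) (v 0) c) =
          2 / 3 - 1 / 6 * (1 / 4) ^ n := by
        rw [← iY]
        exact Pr_congr hf (fun ω hω => (hR ω hω).2.2.2.2.2.2.2.2.1)
      rw [g1, g2, g3, iY]
      ring
    · rw [Pr_FF_succ hc hv hn]
      have g1 : Pr hf (FF v c n) (fun ω => R (insert s(v (n + 1), v n)
          (insert s(v (n + 1), c) ω)) (v 0) (v (n + 1)) ∨ R (insert s(v (n + 1), v n)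
          (insert s(v (n + 1), c) ω)) (v 0) c) = 2 / 3 + 1 / 3 * (1 / 4) ^ n := by
        rw [← iW]
        exact Pr_congr hf (fun ω hω => by
          rw [R_comm, (hR ω hω).2.1, (hR ω hω).2.2.1, or_self])
      have g2 : Pr hf (FF v c n) (fun ω => R (insert s(v (n + 1), v n) ω) (v 0) (v (n + 1)) ∨
          R (insert s(v (n + 1), v n) ω) (v 0) c) = 2 / 3 + 1 / 3 * (1 / 4) ^ n := by
        rw [← iW]
        exact Pr_congr hf (fun ω hω => by
          rw [R_comm, (hR ω hω).2.2.2.2.1, (hR ω hω).2.2.2.2.2.1, R_comm (u := v n)])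
      have g3 : Pr hf (FF v c n) (fun ω => R (insert s(v (n + 1), c) ω) (v 0) (v (n + 1)) ∨
          R (insert s(v (n + 1), c) ω) (v 0) c) = 2 / 3 - 1 / 6 * (1 / 4) ^ n := by
        rw [← iY]
        exact Pr_congr hf (fun ω hω => by
          rw [R_comm, (hR ω hω).2.2.2.2.2.2.2.1, (hR ω hω).2.2.2.2.2.2.2.2.1, or_self])
      have g4 : Pr hf (FF v c n) (fun ω => R ω (v 0) (v (n + 1)) ∨ R ω (v 0) c) =
          2 / 3 - 1 / 6 * (1 / 4) ^ n := by
        rw [← iY]
        exact Pr_congr hf (fun ω hω => by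
          rw [R_comm]
          exact or_iff_right (hR ω hω).2.2.2.2.2.2.2.2.2.2)
      rw [g1, g2, g3, g4]
      ring

end fan

end Q76.Pc
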