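import Mathlib
import Pool.Agent.Q76.PcAlg

/-!
# The covariance bound on finite edge sets
-/

namespace Q76.Pc

open Set

variable {V : Type*} {p : Sym2 V → ℝ}

section state

variable (p) (F : Finset (Sym2 V)) (A : Set V) (b c : V)

/-- probability that `A` is connected to `c` -/
noncomputable def XX : ℝ := Pr p F (fun ω => Conn ω A c)

/-- probability that `b` is connected to `c` after contraction of `A` -/
noncomputable def YY : ℝ := Pr p F (fun ω => R ω b c ∨ (Conn ω A b ∧ Conn ω A c))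

/-- probability of `Ab|c` -/
noncomputable def SS : ℝ := Pr p F (fun ω => Conn ω A b ∧ ¬ Conn ω A c)

/-- probability of `Abc` -/
noncomputable def JJ : ℝ := Pr p F (fun ω => Conn ω A b ∧ Conn ω A c)

end state

lemma Pr_add_of_iff (F : Finset (Sym2 V)) {Q Q1 Q2 : Finset (Sym2 V) → Prop}
    (h : ∀ ω ⊆ F, (Q ω ↔ Q1 ω ∨ Q2 ω)) (hd : ∀ ω ⊆ F, ¬ (Q1 ω ∧ Q2 ω)) :
    Pr p F Q = Pr p F Q1 + Pr p F Q2 := by
  unfold Pr
  rw [← EF_add]
  apply EF_congr
  intro ω hω
  rw [ind_congr (h ω hω)]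
  have h2 := hd ω hω
  unfold ind
  split_ifs <;> simp_all

lemma Conn_singleton {ω : Finset (Sym2 V)} {v w : V} : Conn ω {v} w ↔ R ω v w := by
  constructor
  · rintro ⟨a, rfl, h⟩
    exact h
  · intro h
    exact ⟨v, rfl, h⟩

open Classical in
/-- The differences of the four probabilities. -/
theorem differences (hp : ∀ e, 0 ≤ p e ∧ p e ≤ 1) (b c v : V) (F : Finset (Sym2 V)) (A : Set V) :
    ∃ q y z : ℝ, 0 ≤ q ∧ 0 ≤ y ∧ 0 ≤ z ∧ XX p F A c ≤ XX p F (insert v A) c ∧
      YY p F (insert v A) b c - YY p F A b c = q + y ∧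
      SS p F (insert v A) b c - SS p F A b c = z - q ∧
      q * (1 - XX p F A c) ≤ SS p F A b c * (XX p F (insert v A) c - XX p F A c) ∧
      (y + z) * (1 - XX p F A c) ≤ z := by
  refine ⟨Pr p F (fun ω => Conn ω A b ∧ R ω v c ∧ ¬ Conn ω A c),
    Pr p F (fun ω => R ω v b ∧ ¬ Conn ω A v ∧ Conn ω A c),
    Pr p F (fun ω => R ω v b ∧ ¬ Conn ω A v ∧ ¬ R ω v c ∧ ¬ Conn ω A c),
    Pr_nonneg hp _ _, Pr_nonneg hp _ _, Pr_nonneg hp _ _, ?_⟩
  set q := Pr p F (fun ω => Conn ω A b ∧ R ω v c ∧ ¬ Conn ω A c) with hq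
  set y := Pr p F (fun ω => R ω v b ∧ ¬ Conn ω A v ∧ Conn ω A c) with hy
  set z := Pr p F (fun ω => R ω v b ∧ ¬ Conn ω A v ∧ ¬ R ω v c ∧ ¬ Conn ω A c) with hz
  have dX : XX p F (insert v A) c - XX p F A c = Pr p F (fun ω => R ω v c ∧ ¬ Conn ω A c) := by
    have : XX p F (insert v A) c = XX p F A c + Pr p F (fun ω => R ω v c ∧ ¬ Conn ω A c) := by
      apply Pr_add_of_iff
      · intro ω _
        rw [Conn_insert_set]
        tauto
      · intro ω _
        tauto
    linarith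
  have dY : YY p F (insert v A) b c - YY p F A b c = q + y := by
    have e1 : YY p F (insert v A) b c = YY p F A b c +
        Pr p F (fun ω => (Conn ω A b ∧ R ω v c ∧ ¬ Conn ω A c) ∨
          (R ω v b ∧ ¬ Conn ω A v ∧ Conn ω A c)) := by
      apply Pr_add_of_iff
      · intro ω _
        rw [Conn_insert_set, Conn_insert_set]
        constructor
        · rintro (h | ⟨h1, h2⟩)
          · exact Or.inl (Or.inl h)
          · by_cases hAb : Conn ω A b
            · by_cases hAc : Conn ω A c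
              · exact Or.inl (Or.inr ⟨hAb, hAc⟩)
              · exact Or.inr (Or.inl ⟨hAb, h2.resolve_left hAc, hAc⟩)
            · have hvb := h1.resolve_left hAb
              have hAv : ¬ Conn ω A v := fun h => hAb (Conn_trans h hvb)
              rcases h2 with h2 | h2
              · exact Or.inr (Or.inr ⟨hvb, hAv, h2⟩)
              · exact Or.inl (Or.inl (R_trans (R_symm hvb) h2))
        · rintro ((h | h) | ⟨h1, h2, h3⟩ | ⟨h1, h2, h3⟩)
          · exact Or.inl h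
          · exact Or.inr ⟨Or.inl h.1, Or.inl h.2⟩
          · exact Or.inr ⟨Or.inl h1, Or.inr h2⟩
          · exact Or.inr ⟨Or.inr h1, Or.inl h3⟩
      · rintro ω _ ⟨h1, h2⟩
        rcases h2 with ⟨a1, a2, a3⟩ | ⟨a1, a2, a3⟩
        · rcases h1 with h1 | h1
          · exact a3 (Conn_trans a1 h1)
          · exact a3 h1.2
        · rcases h1 with h1 | h1
          · exact a2 (Conn_trans a3 (R_trans (R_symm h1) (R_symm a1)))
          · exact a2 (Conn_trans h1.1 (R_symm a1))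
    have e2 : Pr p F (fun ω => (Conn ω A b ∧ R ω v c ∧ ¬ Conn ω A c) ∨
          (R ω v b ∧ ¬ Conn ω A v ∧ Conn ω A c)) = q + y := by
      apply Pr_add_of_iff
      · intro ω _
        rfl
      · rintro ω _ ⟨⟨_, _, h3⟩, ⟨_, _, h6⟩⟩
        exact h3 h6
    linarith
  have dS : SS p F (insert v A) b c - SS p F A b c = z - q := by
    have e1 : SS p F (insert v A) b c =
        Pr p F (fun ω => Conn ω A b ∧ ¬ Conn ω A c ∧ ¬ R ω v c) + z := by
      apply Pr_add_of_iff
      · intro ω _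
        rw [Conn_insert_set, Conn_insert_set]
        constructor
        · rintro ⟨h1, h2⟩
          rw [not_or] at h2
          by_cases hAb : Conn ω A b
          · exact Or.inl ⟨hAb, h2.1, h2.2⟩
          · have hvb := h1.resolve_left hAb
            exact Or.inr ⟨hvb, fun h => hAb (Conn_trans h hvb), h2.2, h2.1⟩
        · rintro (⟨h1, h2, h3⟩ | ⟨h1, h2, h3, h4⟩)
          · exact ⟨Or.inl h1, not_or.mpr ⟨h2, h3⟩⟩
          · exact ⟨Or.inr h1, not_or.mpr ⟨h4, h3⟩⟩
      · rintro ω _ ⟨⟨h1, h2, h3⟩, ⟨h4, h5, h6, h7⟩⟩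
        exact h5 (Conn_trans h1 (R_symm h4))
    have e2 : SS p F A b c =
        Pr p F (fun ω => Conn ω A b ∧ ¬ Conn ω A c ∧ ¬ R ω v c) + q := by
      apply Pr_add_of_iff
      · intro ω _
        tauto
      · intro ω _
        tauto
    linarith
  have hbhk := bhk hp F A b c v
  have havoid := avoid hp A b c F {v}
  have hN : Pr p F (fun ω => ¬ Conn ω A c) = 1 - XX p F A c := Pr_not p F _
  have e3 : Pr p F (fun ω => Conn ω {v} b ∧ ¬ Conn ω {v} c ∧ ∀ a ∈ A, ¬ Conn ω {v} a) =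
      y + z := by
    apply Pr_add_of_iff
    · intro ω _
      simp only [Conn_singleton]
      constructor
      · rintro ⟨h1, h2, h3⟩
        have h4 : ¬ Conn ω A v := by
          rintro ⟨a, ha, hr⟩
          exact h3 a ha (R_symm hr)
        by_cases hAc : Conn ω A c
        · exact Or.inl ⟨h1, h4, hAc⟩
        · exact Or.inr ⟨h1, h4, h2, hAc⟩
      · rintro (⟨h1, h2, h3⟩ | ⟨h1, h2, h3, h4⟩)
        · refine ⟨h1, fun h => h2 (Conn_trans h3 (R_symm h)), fun a ha h => h2 ⟨a, ha, R_symm h⟩⟩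
        · exact ⟨h1, h3, fun a ha h => h2 ⟨a, ha, R_symm h⟩⟩
    · rintro ω _ ⟨⟨_, _, h3⟩, ⟨_, _, _, h7⟩⟩
      exact h7 h3
  have e4 : Pr p F (fun ω => (Conn ω {v} b ∧ ¬ Conn ω {v} c ∧ ∀ a ∈ A, ¬ Conn ω {v} a) ∧
      ¬ Conn ω A c) = z := by
    apply Pr_congr p
    intro ω _
    simp only [Conn_singleton]
    constructor
    · rintro ⟨⟨h1, h2, h3⟩, h4⟩
      refine ⟨h1, ?_, h2, h4⟩
      rintro ⟨a, ha, hr⟩
      exact h3 a ha (R_symm hr)
    · rintro ⟨h1, h2, h3, h4⟩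
      exact ⟨⟨h1, h3, fun a ha h => h2 ⟨a, ha, R_symm h⟩⟩, h4⟩
  rw [e3, e4, hN] at havoid
  rw [hN, ← dX] at hbhk
  refine ⟨?_, dY, dS, hbhk, havoid⟩
  have := Pr_nonneg hp F (fun ω => R ω v c ∧ ¬ Conn ω A c)
  linarith

open Classical in
/-- Recursions of the four probabilities. -/
theorem recursions (b c : V) (F : Finset (Sym2 V)) (A : Set V) {x v : V} (hx : x ∈ A)
    (he : s(x, v) ∉ F) :
    XX p (insert s(x, v) F) A c =
        p s(x, v) * XX p F (insert v A) c + (1 - p s(x, v)) * XX p F A c ∧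
    SS p (insert s(x, v) F) A b c =
        p s(x, v) * SS p F (insert v A) b c + (1 - p s(x, v)) * SS p F A b c ∧
    JJ p (insert s(x, v) F) A b c =
        p s(x, v) * JJ p F (insert v A) b c + (1 - p s(x, v)) * JJ p F A b c ∧
    YY p (insert s(x, v) F) A b c =
        p s(x, v) * YY p F (insert v A) b c + (1 - p s(x, v)) * YY p F A b c := by
  refine ⟨?_, ?_, ?_, ?_⟩
  · unfold XX
    rw [Pr_insert p he]
    congr 2
    exact Pr_congr p (fun ω _ => Conn_insert hx)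
  · unfold SS
    rw [Pr_insert p he]
    congr 2
    exact Pr_congr p (fun ω _ => by rw [Conn_insert hx, Conn_insert hx])
  · unfold JJ
    rw [Pr_insert p he]
    congr 2
    exact Pr_congr p (fun ω _ => by rw [Conn_insert hx, Conn_insert hx])
  · unfold YY
    rw [Pr_insert p he]
    congr 2
    apply Pr_congr p
    intro ω _
    rw [Conn_insert hx, Conn_insert hx, R_insert, Conn_insert_set, Conn_insert_set]
    constructor
    · rintro ((h | ⟨h1, h2⟩ | ⟨h1, h2⟩) | h)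
      · exact Or.inl h
      · exact Or.inr ⟨Or.inl ⟨x, hx, R_symm h1⟩, Or.inr h2⟩
      · exact Or.inr ⟨Or.inr (R_symm h1), Or.inl ⟨x, hx, h2⟩⟩
      · exact Or.inr h
    · rintro (h | h)
      · exact Or.inl (Or.inl h)
      · exact Or.inr h

lemma basic_bounds (hp : ∀ e, 0 ≤ p e ∧ p e ≤ 1) (b c : V) (F : Finset (Sym2 V)) (A : Set V) :
    0 ≤ XX p F A c ∧ XX p F A c ≤ 1 ∧ 0 ≤ YY p F A b c ∧ YY p F A b c ≤ 1 ∧
      0 ≤ SS p F A b c ∧ SS p F A b c ≤ 1 ∧ JJ p F A b c ≤ YY p F A b c ∧ JJ p F A b c ≤ 1 :=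
  ⟨Pr_nonneg hp _ _, Pr_le_one hp _ _, Pr_nonneg hp _ _, Pr_le_one hp _ _, Pr_nonneg hp _ _,
    Pr_le_one hp _ _, Pr_mono hp (fun ω _ h => Or.inr h), Pr_le_one hp _ _⟩

/-- The bounding function. -/
noncomputable def BB (κ x s : ℝ) : ℝ :=
  κ * (x * (1 - x)) + s * (1 - s) / (2 * κ ^ 3) + κ + s / (κ ^ 4 / 16)

lemma BB_nonneg {κ x s : ℝ} (hκ : 0 < κ) (hx0 : 0 ≤ x) (hx1 : x ≤ 1) (hs0 : 0 ≤ s) (hs1 : s ≤ 1) :
    κ ≤ BB κ x s ∧ s / (κ ^ 4 / 16) ≤ BB κ x s := by
  have t1 : 0 ≤ κ * (x * (1 - x)) := by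
    have : 0 ≤ 1 - x := by linarith
    positivity
  have t2 : 0 ≤ s * (1 - s) / (2 * κ ^ 3) := by
    have : 0 ≤ 1 - s := by linarith
    positivity
  have t3 : 0 ≤ s / (κ ^ 4 / 16) := by positivity
  unfold BB
  constructor <;> linarith

lemma BB_step {κ t X0 X1 S0 S1 : ℝ} (hκ : 0 < κ) :
    BB κ (t * X1 + (1 - t) * X0) (t * S1 + (1 - t) * S0) =
      t * BB κ X1 S1 + (1 - t) * BB κ X0 S0 +
        t * (1 - t) * (κ * (X1 - X0) ^ 2 + (S1 - S0) ^ 2 / (2 * κ ^ 3)) := by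
  unfold BB
  field_simp
  ring

open Classical in
/-- The covariance bound. -/
theorem cov_bound (hp : ∀ e, 0 ≤ p e ∧ p e ≤ 1) (b c : V) {κ : ℝ} (hκ : 0 < κ) (hκ1 : κ ≤ 1)
    (F : Finset (Sym2 V)) (A : Set V) :
    JJ p F A b c - XX p F A c * YY p F A b c ≤ BB κ (XX p F A c) (SS p F A b c) := by
  have hbad : ∀ (F : Finset (Sym2 V)) (A : Set V), (1 - XX p F A c ≤ κ ∨
      κ ^ 4 / 16 ≤ SS p F A b c) → JJ p F A b c - XX p F A c * YY p F A b c ≤
      BB κ (XX p F A c) (SS p F A b c) := by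
    intro F A h
    obtain ⟨x0, x1, y0, y1, s0, s1, j1, j2⟩ := basic_bounds hp b c F A
    obtain ⟨b1, b2⟩ := BB_nonneg hκ x0 x1 s0 s1
    rcases h with h | h
    · have : JJ p F A b c - XX p F A c * YY p F A b c ≤ 1 - XX p F A c := by nlinarith
      linarith
    · have h1 : 1 ≤ SS p F A b c / (κ ^ 4 / 16) := by
        rwa [le_div_iff₀ (by positivity), one_mul]
      have : 0 ≤ XX p F A c * YY p F A b c := by positivity
      linarith
  revert F A
  apply explore_induction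
  · intro F A h
    by_cases hg : 1 - XX p F A c ≤ κ ∨ κ ^ 4 / 16 ≤ SS p F A b c
    · exact hbad F A hg
    push Not at hg
    obtain ⟨x0, x1, y0, y1, s0, s1, j1, j2⟩ := basic_bounds hp b c F A
    obtain ⟨b1, b2⟩ := BB_nonneg hκ x0 x1 s0 s1
    by_cases hc : c ∈ A
    · exfalso
      have : XX p F A c = 1 := by
        unfold XX Pr
        rw [← EF_const p F 1]
        apply EF_congr
        intro ω hω
        exact ind_true (Conn_of_mem hc)
      rw [this] at hg
      linarith [hg.1]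
    · have h1 : JJ p F A b c = 0 := by
        unfold JJ Pr
        rw [← EF_const p F 0]
        apply EF_congr
        intro ω hω
        apply ind_false
        rintro ⟨_, h2⟩
        exact hc ((Conn_noOut hω h).mp h2)
      have : 0 ≤ XX p F A c * YY p F A b c := by positivity
      linarith
  · intro F A x v hx hv he ih1 ih2
    by_cases hg : 1 - XX p (insert s(x, v) F) A c ≤ κ ∨
      κ ^ 4 / 16 ≤ SS p (insert s(x, v) F) A b c
    · exact hbad _ A hg
    push Not at hg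
    obtain ⟨rX, rS, rJ, rY⟩ := recursions (p := p) b c F A hx he
    obtain ⟨q, y, z, hq, hy, hz, hX, dY, dS, hbhk, havoid⟩ := differences hp b c v F A
    obtain ⟨x0, x1, y0, y1, s0, s1, j1, j2⟩ := basic_bounds hp b c F A
    obtain ⟨x0', x1', y0', y1', s0', s1', j1', j2'⟩ := basic_bounds hp b c F (insert v A)
    have hstep := step_alg hκ hκ1 (hp s(x, v)).1 (hp s(x, v)).2 (by rw [← rX]; linarith [hg.1])
      (by rw [← rS]; exact hg.2.le) hX x1' x0 s0' s0 hq hy hz dS hbhk havoid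
    rw [rX, rS, rJ, rY, BB_step hκ]
    have hp0 := (hp s(x, v)).1
    have hp1 : 0 ≤ 1 - p s(x, v) := by linarith [(hp s(x, v)).2]
    have i1 := mul_le_mul_of_nonneg_left ih1 hp1
    have i2 := mul_le_mul_of_nonneg_left ih2 hp0
    rw [← dY] at hstep
    have key : ∀ t J1 J0 X1 X0 Y1 Y0 : ℝ,
        t * J1 + (1 - t) * J0 - (t * X1 + (1 - t) * X0) * (t * Y1 + (1 - t) * Y0) =
        t * (J1 - X1 * Y1) + (1 - t) * (J0 - X0 * Y0) +
          t * (1 - t) * ((X1 - X0) * (Y1 - Y0)) := by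
      intro t J1 J0 X1 X0 Y1 Y0
      ring
    rw [key]
    linarith

end Q76.Pc
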