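import Mathlib
import Pool.Agent.Q76.PcMain
import Pool.Agent.Q76.PcDefs

/-!
# From finite edge sets to the whole graph
-/

namespace Q76.Pc

open MeasureTheory Set Filter Topology

variable {V : Type*}

/-- A connected locally finite graph is countable. -/
lemma countable_of_connected (G : SimpleGraph V) (hG : G.Connected)
    (hf : ∀ v, (G.neighborSet v).Finite) : Countable V := by
  obtain ⟨a⟩ := hG.nonempty
  let S : ℕ → Set V := fun n => Nat.rec {a} (fun _ T => T ∪ ⋃ v ∈ T, G.neighborSet v) n
  have hS : ∀ n, (S n).Countable := by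
    intro n
    induction n with
    | zero => exact Set.countable_singleton a
    | succ n ih =>
      exact ih.union (ih.biUnion (fun v _ => (hf v).countable))
  have hU : ∀ v, ∃ n, v ∈ S n := by
    intro v
    have h := hG.preconnected a v
    rw [SimpleGraph.reachable_iff_reflTransGen] at h
    induction h with
    | refl => exact ⟨0, rfl⟩
    | tail _ hadj ih =>
      obtain ⟨n, hn⟩ := ih
      refine ⟨n + 1, Or.inr ?_⟩
      exact Set.mem_biUnion hn hadj
  have : (⋃ n, S n) = Set.univ := by
    ext v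
    simpa using hU v
  rw [← Set.countable_univ_iff, ← this]
  exact Set.countable_iUnion hS

variable (G : SimpleGraph V)

open Classical in
/-- The open edges in the finite set `F`. -/
noncomputable def cfg (F : Finset G.edgeSet) (ω : G.edgeSet → Bool) : Finset (Sym2 V) :=
  (F.filter (fun e => ω e = true)).image Subtype.val

open Classical in
/-- The edge set as a finite set of pairs. -/
noncomputable def img (F : Finset G.edgeSet) : Finset (Sym2 V) := F.image Subtype.val

open Classical in
/-- The extension of the edge probabilities by `0`. -/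
noncomputable def pext (p : G.edgeSet → unitInterval) (e : Sym2 V) : ℝ :=
  if h : e ∈ G.edgeSet then (p ⟨e, h⟩ : ℝ) else 0

lemma pext_mem (p : G.edgeSet → unitInterval) (e : Sym2 V) :
    0 ≤ pext G p e ∧ pext G p e ≤ 1 := by
  unfold pext
  split_ifs with h
  · exact ⟨(p ⟨e, h⟩).2.1, (p ⟨e, h⟩).2.2⟩
  · norm_num

lemma pext_coe (p : G.edgeSet → unitInterval) (e : G.edgeSet) : pext G p e = p e := by
  unfold pext
  rw [dif_pos e.2]

open Classical in
lemma mem_cfg {F : Finset G.edgeSet} {ω : G.edgeSet → Bool} {e : Sym2 V} :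
    e ∈ cfg G F ω ↔ ∃ h : e ∈ G.edgeSet, ⟨e, h⟩ ∈ F ∧ ω ⟨e, h⟩ = true := by
  unfold cfg
  rw [Finset.mem_image]
  constructor
  · rintro ⟨e', he', rfl⟩
    rw [Finset.mem_filter] at he'
    exact ⟨e'.2, he'⟩
  · rintro ⟨h, h1, h2⟩
    exact ⟨⟨e, h⟩, by rw [Finset.mem_filter]; exact ⟨h1, h2⟩, rfl⟩

lemma cfg_mono {F F' : Finset G.edgeSet} (h : F ⊆ F') (ω : G.edgeSet → Bool) :
    cfg G F ω ⊆ cfg G F' ω := by
  intro e he
  rw [mem_cfg] at he ⊢
  obtain ⟨h1, h2, h3⟩ := he
  exact ⟨h1, h h2, h3⟩

/-- Connection in the open subgraph uses finitely many edges. -/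
lemma same_iff (u v : V) (ω : G.edgeSet → Bool) :
    Same G u v ω ↔ ∃ F : Finset G.edgeSet, R (cfg G F ω) u v := by
  classical
  constructor
  · intro h
    unfold Same at h
    rw [SimpleGraph.reachable_iff_reflTransGen] at h
    induction h with
    | refl => exact ⟨∅, R_refl _ _⟩
    | tail _ hadj ih =>
      obtain ⟨F, hF⟩ := ih
      obtain ⟨h1, h2⟩ := hadj
      have h1' : s(_, _) ∈ G.edgeSet := h1
      refine ⟨insert ⟨_, h1'⟩ F, R_trans (R_mono (cfg_mono G (Finset.subset_insert _ _) ω) hF) ?_⟩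
      apply R_edge
      rw [mem_cfg]
      exact ⟨h1', Finset.mem_insert_self _ _, h2⟩
  · rintro ⟨F, hF⟩
    refine R_induct (Q := fun w => Same G u w ω) (SimpleGraph.Reachable.refl u) ?_ hF
    intro w w' hw hmem
    rw [mem_cfg] at hmem
    obtain ⟨h1, h2, h3⟩ := hmem
    refine SimpleGraph.Reachable.trans hw (SimpleGraph.Adj.reachable ?_)
    exact ⟨h1, h3⟩

lemma bern_true (t : unitInterval) : (bern t) {true} = ENNReal.ofReal t := by
  simp [bern]

lemma bern_false (t : unitInterval) : (bern t) {false} = ENNReal.ofReal (1 - t) := by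
  simp [bern]

open Classical in
/-- The measure of a cylinder. -/
lemma perc_box (p : G.edgeSet → unitInterval) (F ω₀ : Finset G.edgeSet) :
    (perc G p).real {ω | ∀ e ∈ F, (ω e = true ↔ e ∈ ω₀)} =
      ∏ e ∈ F, if e ∈ ω₀ then (p e : ℝ) else 1 - p e := by
  have h1 : {ω : G.edgeSet → Bool | ∀ e ∈ F, (ω e = true ↔ e ∈ ω₀)} =
      Set.pi (F : Set G.edgeSet) (fun e => if e ∈ ω₀ then {true} else {false}) := by
    ext ω
    simp only [Set.mem_ofPred_eq, Set.mem_pi, Finset.mem_coe]
    refine forall₂_congr (fun e _ => ?_)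
    split_ifs with h
    · simp [h]
    · simp [h]
  rw [h1, perc, Measure.real, Measure.infinitePi_pi (μ := fun e => bern (p e))
    (fun e _ => by split_ifs <;> exact MeasurableSet.singleton _), ENNReal.toReal_prod]
  apply Finset.prod_congr rfl
  intro e _
  split_ifs with h
  · rw [bern_true, ENNReal.toReal_ofReal (p e).2.1]
  · rw [bern_false, ENNReal.toReal_ofReal (by linarith [(p e).2.2])]

open Classical in
lemma img_subset {F ω₀ : Finset G.edgeSet} (e : G.edgeSet) :
    (e : Sym2 V) ∈ img G ω₀ ↔ e ∈ ω₀ := by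
  unfold img
  rw [Finset.mem_image]
  constructor
  · rintro ⟨e', he', h⟩
    rwa [← Subtype.ext h]
  · intro h
    exact ⟨e, h, rfl⟩

open Classical in
lemma setOf_cfg (F : Finset G.edgeSet) (Q : Finset (Sym2 V) → Prop) :
    {ω | Q (cfg G F ω)} = ⋃ ω₀ ∈ F.powerset.filter (fun ω₀ => Q (img G ω₀)),
      {ω : G.edgeSet → Bool | ∀ e ∈ F, (ω e = true ↔ e ∈ ω₀)} := by
  ext ω
  simp only [Set.mem_ofPred_eq, Set.mem_iUnion, Finset.mem_filter, Finset.mem_powerset,
    exists_prop]
  constructor
  · intro h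
    refine ⟨F.filter (fun e => ω e = true), ⟨Finset.filter_subset _ _, h⟩, ?_⟩
    intro e he
    rw [Finset.mem_filter]
    exact ⟨fun h => ⟨he, h⟩, fun h => h.2⟩
  · rintro ⟨ω₀, ⟨h1, h2⟩, h3⟩
    have h4 : ω₀ = F.filter (fun e => ω e = true) := by
      ext e
      rw [Finset.mem_filter]
      constructor
      · intro he
        exact ⟨h1 he, (h3 e (h1 he)).mpr he⟩
      · rintro ⟨he, hω⟩
        exact (h3 e he).mp hω
    rw [h4] at h2
    exact h2

lemma measurableSet_box (F ω₀ : Finset G.edgeSet) :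
    MeasurableSet {ω : G.edgeSet → Bool | ∀ e ∈ F, (ω e = true ↔ e ∈ ω₀)} := by
  have h1 : {ω : G.edgeSet → Bool | ∀ e ∈ F, (ω e = true ↔ e ∈ ω₀)} =
      ⋂ e ∈ F, (fun ω : G.edgeSet → Bool => ω e) ⁻¹' {t | t = true ↔ e ∈ ω₀} := by
    ext ω
    simp
  rw [h1]
  apply Finset.measurableSet_biInter
  intro e _
  exact measurable_pi_apply e (MeasurableSet.of_discrete)

lemma measurableSet_cfg (F : Finset G.edgeSet) (Q : Finset (Sym2 V) → Prop) :
    MeasurableSet {ω | Q (cfg G F ω)} := by
  classical
  rw [setOf_cfg]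
  apply Finset.measurableSet_biUnion
  intro ω₀ _
  exact measurableSet_box G F ω₀

open Classical in
/-- The law of the configuration in a finite edge set. -/
theorem perc_cfg (p : G.edgeSet → unitInterval) (F : Finset G.edgeSet)
    (Q : Finset (Sym2 V) → Prop) :
    (perc G p).real {ω | Q (cfg G F ω)} = Pr (pext G p) (img G F) Q := by
  rw [setOf_cfg, measureReal_biUnion_finset]
  · rw [Finset.sum_filter]
    unfold Pr EF img
    rw [Finset.powerset_image, Finset.sum_image]
    · apply Finset.sum_congr rfl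
      intro ω₀ hω₀
      rw [perc_box]
      have hwt : wt (pext G p) (F.image Subtype.val) (ω₀.image Subtype.val) =
          ∏ e ∈ F, if e ∈ ω₀ then (p e : ℝ) else 1 - p e := by
        unfold wt
        rw [Finset.prod_image (fun x _ y _ h => Subtype.ext h)]
        apply Finset.prod_congr rfl
        intro e _
        rw [pext_coe]
        have : ((e : Sym2 V) ∈ ω₀.image Subtype.val) ↔ e ∈ ω₀ := img_subset G (F := F) e
        simp only [this]
      rw [hwt]
      by_cases hQ : Q (Finset.image Subtype.val ω₀)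
      · rw [if_pos (by exact hQ)]
        beta_reduce
        rw [ind_true hQ, mul_one]
      · rw [if_neg (by exact hQ)]
        beta_reduce
        rw [ind_false hQ, mul_zero]
    · intro x hx y hy hxy
      ext e
      have h1 := img_subset G (F := F) (ω₀ := x) e
      have h2 := img_subset G (F := F) (ω₀ := y) e
      unfold img at h1 h2
      rw [← h1, ← h2]
      exact Finset.ext_iff.mp hxy e
  · intro x hx y hy hxy
    rw [Function.onFun, Set.disjoint_left]
    intro ω h1 h2
    apply hxy
    simp only [Finset.coe_filter, Finset.mem_powerset, Set.mem_ofPred_eq] at hx hy h1 h2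
    ext e
    constructor
    · intro he
      exact (h2 e (hx.1 he)).mp ((h1 e (hx.1 he)).mpr he)
    · intro he
      exact (h1 e (hy.1 he)).mp ((h2 e (hy.1 he)).mpr he)
  · intro ω₀ _
    exact measurableSet_box G F ω₀

/-- Limit along finite edge sets. -/
lemma tendsto_perc [Countable G.edgeSet] (p : G.edgeSet → unitInterval)
    (Q : Finset (Sym2 V) → Prop) (hQ : ∀ ω ω', ω ⊆ ω' → Q ω → Q ω') :
    Tendsto (fun F : Finset G.edgeSet => Pr (pext G p) (img G F) Q) atTop
      (𝓝 ((perc G p).real {ω | ∃ F : Finset G.edgeSet, Q (cfg G F ω)})) := by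
  have h1 : {ω | ∃ F : Finset G.edgeSet, Q (cfg G F ω)} =
      ⋃ F : Finset G.edgeSet, {ω | Q (cfg G F ω)} := by
    ext ω
    simp
  have hmono : Monotone (fun F : Finset G.edgeSet => {ω | Q (cfg G F ω)}) := by
    intro F F' hF ω hω
    exact hQ _ _ (cfg_mono G hF ω) hω
  have h2 := tendsto_measure_iUnion_atTop (μ := perc G p) hmono
  rw [h1]
  have h3 := (ENNReal.tendsto_toReal (measure_ne_top (perc G p) _)).comp h2
  refine h3.congr (fun F => ?_)
  exact perc_cfg G p F Q

lemma measurableSet_same [Countable G.edgeSet] (u v : V) :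
    MeasurableSet {ω | Same G u v ω} := by
  have h1 : {ω | Same G u v ω} = ⋃ F : Finset G.edgeSet, {ω | R (cfg G F ω) u v} := by
    ext ω
    simp only [Set.mem_ofPred_eq, Set.mem_iUnion]
    exact same_iff G u v ω
  rw [h1]
  exact MeasurableSet.iUnion (fun F => measurableSet_cfg G F (fun ω' => R ω' u v))

lemma Same_symm {u v : V} {ω : G.edgeSet → Bool} (h : Same G u v ω) : Same G v u ω :=
  SimpleGraph.Reachable.symm h

lemma Same_trans {u v w : V} {ω : G.edgeSet → Bool} (h : Same G u v ω) (h' : Same G v w ω) :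
    Same G u w ω := SimpleGraph.Reachable.trans h h'

/-- The covariance bound on `G`. -/
theorem cov_infinite [Countable G.edgeSet] (p : G.edgeSet → unitInterval) (a b c : V) {κ : ℝ}
    (hκ : 0 < κ) (hκ1 : κ ≤ 1) :
    (perc G p).real {ω | Same G a b ω ∧ Same G a c ω} -
      (perc G p).real {ω | Same G a c ω} * (perc G p).real {ω | Same G b c ω} ≤
      BB κ ((perc G p).real {ω | Same G a c ω})
        ((perc G p).real {ω | Same G a b ω} -
          (perc G p).real {ω | Same G a b ω ∧ Same G a c ω}) := by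
  have hp := pext_mem G p
  -- the four limits
  have lX := tendsto_perc G p (fun ω => R ω a c) (fun ω ω' h hr => R_mono h hr)
  have lY := tendsto_perc G p (fun ω => R ω b c) (fun ω ω' h hr => R_mono h hr)
  have lZ := tendsto_perc G p (fun ω => R ω a b) (fun ω ω' h hr => R_mono h hr)
  have lJ := tendsto_perc G p (fun ω => R ω a b ∧ R ω a c)
    (fun ω ω' h hr => ⟨R_mono h hr.1, R_mono h hr.2⟩)
  have eX : {ω | ∃ F : Finset G.edgeSet, R (cfg G F ω) a c} = {ω | Same G a c ω} := by
    ext ω; exact (same_iff G a c ω).symm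
  have eY : {ω | ∃ F : Finset G.edgeSet, R (cfg G F ω) b c} = {ω | Same G b c ω} := by
    ext ω; exact (same_iff G b c ω).symm
  have eZ : {ω | ∃ F : Finset G.edgeSet, R (cfg G F ω) a b} = {ω | Same G a b ω} := by
    ext ω; exact (same_iff G a b ω).symm
  have eJ : {ω | ∃ F : Finset G.edgeSet, R (cfg G F ω) a b ∧ R (cfg G F ω) a c} =
      {ω | Same G a b ω ∧ Same G a c ω} := by
    classical
    ext ω
    simp only [Set.mem_ofPred_eq]
    rw [same_iff, same_iff]
    constructor
    · rintro ⟨F, h1, h2⟩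
      exact ⟨⟨F, h1⟩, ⟨F, h2⟩⟩
    · rintro ⟨⟨F, h1⟩, ⟨F', h2⟩⟩
      exact ⟨F ∪ F', R_mono (cfg_mono G Finset.subset_union_left ω) h1,
        R_mono (cfg_mono G Finset.subset_union_right ω) h2⟩
  rw [eX] at lX
  rw [eY] at lY
  rw [eZ] at lZ
  rw [eJ] at lJ
  have hfin : ∀ F : Finset G.edgeSet,
      Pr (pext G p) (img G F) (fun ω => R ω a b ∧ R ω a c) -
        Pr (pext G p) (img G F) (fun ω => R ω a c) * Pr (pext G p) (img G F) (fun ω => R ω b c) ≤
      BB κ (Pr (pext G p) (img G F) (fun ω => R ω a c))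
        (Pr (pext G p) (img G F) (fun ω => R ω a b) -
          Pr (pext G p) (img G F) (fun ω => R ω a b ∧ R ω a c)) := by
    intro F
    have h := cov_bound hp b c hκ hκ1 (img G F) {a}
    have g1 : XX (pext G p) (img G F) {a} c = Pr (pext G p) (img G F) (fun ω => R ω a c) :=
      Pr_congr _ (fun ω _ => Conn_singleton)
    have g2 : JJ (pext G p) (img G F) {a} b c =
        Pr (pext G p) (img G F) (fun ω => R ω a b ∧ R ω a c) :=
      Pr_congr _ (fun ω _ => and_congr Conn_singleton Conn_singleton)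
    have g3 : YY (pext G p) (img G F) {a} b c = Pr (pext G p) (img G F) (fun ω => R ω b c) := by
      apply Pr_congr
      intro ω _
      rw [Conn_singleton, Conn_singleton]
      constructor
      · rintro (h | ⟨h1, h2⟩)
        · exact h
        · exact R_trans (R_symm h1) h2
      · exact Or.inl
    have g4 : SS (pext G p) (img G F) {a} b c =
        Pr (pext G p) (img G F) (fun ω => R ω a b) -
          Pr (pext G p) (img G F) (fun ω => R ω a b ∧ R ω a c) := by
      have := Pr_split (pext G p) (img G F) (fun ω => R ω a b) (fun ω => R ω a c)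
      have g5 : SS (pext G p) (img G F) {a} b c =
          Pr (pext G p) (img G F) (fun ω => R ω a b ∧ ¬ R ω a c) := by
        apply Pr_congr
        intro ω _
        rw [Conn_singleton, Conn_singleton]
      rw [g5]
      linarith
    rw [g1, g2, g3, g4] at h
    exact h
  have hcont : Continuous (fun q : ℝ × ℝ => BB κ q.1 q.2) := by
    unfold BB
    fun_prop
  have l1 := lJ.sub (lX.mul lY)
  have l2 := (hcont.tendsto (_, _)).comp (lX.prodMk_nhds (lZ.sub lJ))
  exact le_of_tendsto_of_tendsto' l1 l2 hfin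

/-- The main inequality. -/
theorem main_ineq [Countable G.edgeSet] (p : G.edgeSet → unitInterval) (a b c : V) {ε : ℝ}
    (hε : 0 < ε) (h : Pab_c G p a b c < (min ε 1) ^ 5 / 3200) :
    Pabc G p a b c * Pa_b_c G p a b c - Pab_c G p a c b * Pab_c G p b c a < ε := by
  set μ := perc G p with hμ
  have mab := measurableSet_same G a b
  have mac := measurableSet_same G a c
  have mbc := measurableSet_same G b c
  set X := μ.real {ω | Same G a c ω} with hX
  set Y := μ.real {ω | Same G b c ω} with hY
  set Z := μ.real {ω | Same G a b ω} with hZ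
  set J := μ.real {ω | Same G a b ω ∧ Same G a c ω} with hJ
  have hdiff : ∀ (A B : Set (G.edgeSet → Bool)), MeasurableSet B →
      μ.real (A ∩ Bᶜ) = μ.real A - μ.real (A ∩ B) := by
    intro A B hB
    have := measureReal_inter_add_sdiff (μ := μ) (s := A) hB
    rw [← Set.sdiff_eq]
    linarith
  have e1 : Pab_c G p a b c = Z - J := by
    have := hdiff {ω | Same G a b ω} {ω | Same G a c ω} mac
    exact this
  have e2 : Pab_c G p a c b = X - J := by
    have h1 := hdiff {ω | Same G a c ω} {ω | Same G a b ω} mab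
    have h2 : ({ω | Same G a c ω} ∩ {ω | Same G a b ω} : Set (G.edgeSet → Bool)) =
        {ω | Same G a b ω ∧ Same G a c ω} := by
      ext ω
      exact and_comm
    rw [h2] at h1
    exact h1
  have e3 : Pab_c G p b c a = Y - J := by
    have h1 := hdiff {ω | Same G b c ω} {ω | Same G b a ω} (measurableSet_same G b a)
    have h2 : ({ω | Same G b c ω} ∩ {ω | Same G b a ω} : Set (G.edgeSet → Bool)) =
        {ω | Same G a b ω ∧ Same G a c ω} := by
      ext ω
      constructor
      · rintro ⟨h1, h2⟩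
        exact ⟨Same_symm G h2, Same_trans G (Same_symm G h2) h1⟩
      · rintro ⟨h1, h2⟩
        exact ⟨Same_trans G (Same_symm G h1) h2, Same_symm G h1⟩
    rw [h2] at h1
    exact h1
  have e4 : Pa_b_c G p a b c = 1 - Z - X - Y + 2 * J := by
    -- complement of the union
    have h1 : ({ω | ¬ Same G a b ω ∧ ¬ Same G a c ω ∧ ¬ Same G b c ω} :
        Set (G.edgeSet → Bool)) =
        (({ω | ¬ Same G a b ω} : Set (G.edgeSet → Bool)) ∩ {ω | ¬ Same G a c ω}) ∩
          {ω | Same G b c ω}ᶜ := by
      ext ω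
      constructor
      · rintro ⟨h1, h2, h3⟩
        exact ⟨⟨h1, h2⟩, h3⟩
      · rintro ⟨⟨h1, h2⟩, h3⟩
        exact ⟨h1, h2, h3⟩
    have h2 := hdiff (({ω | ¬ Same G a b ω} : Set (G.edgeSet → Bool)) ∩ {ω | ¬ Same G a c ω})
      {ω | Same G b c ω} mbc
    have h3 : μ.real (({ω | ¬ Same G a b ω} : Set (G.edgeSet → Bool)) ∩ {ω | ¬ Same G a c ω}) =
        1 - Z - (X - J) := by
      have h4 := hdiff ({ω | ¬ Same G a b ω}) {ω | Same G a c ω} mac
      have h5 : μ.real {ω | ¬ Same G a b ω} = 1 - Z := by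
        have := probReal_compl_eq_one_sub (μ := μ) mab
        exact this
      have h6 : μ.real (({ω | ¬ Same G a b ω} : Set (G.edgeSet → Bool)) ∩
          {ω | Same G a c ω}) = X - J := by
        rw [Set.inter_comm]
        exact e2
      rw [h5, h6] at h4
      exact h4
    have h4 : μ.real ((({ω | ¬ Same G a b ω} : Set (G.edgeSet → Bool)) ∩
        {ω | ¬ Same G a c ω}) ∩ {ω | Same G b c ω}) = Y - J := by
      rw [← e3]
      unfold Pab_c
      congr 1
      ext ω
      constructor
      · rintro ⟨⟨h1, h2⟩, h3⟩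
        exact ⟨h3, fun h => h1 (Same_symm G h)⟩
      · rintro ⟨h1, h2⟩
        exact ⟨⟨fun h => h2 (Same_symm G h),
          fun h => h2 (Same_trans G h1 (Same_symm G h))⟩, h1⟩
    rw [h3, h4] at h2
    unfold Pa_b_c
    rw [h1, h2]
    ring
  have e5 : Pabc G p a b c = J := rfl
  set κ := min ε 1 / 2 with hκ
  have hm : 0 < min ε 1 := lt_min hε one_pos
  have hκ0 : 0 < κ := by positivity
  have hκ1 : κ ≤ 1 / 2 := by
    have := min_le_right ε 1
    linarith
  have hcov := cov_infinite G p a b c hκ0 (hκ1.trans (by norm_num))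
  have hJ0 : 0 ≤ J := measureReal_nonneg
  have hS0 : 0 ≤ Z - J := by
    rw [← e1]
    exact measureReal_nonneg
  have hX0 : 0 ≤ X := measureReal_nonneg
  have hX1 : X ≤ 1 := measureReal_le_one
  rw [e1] at h
  have hmk : min ε 1 = 2 * κ := by rw [hκ]; ring
  rw [hmk] at h
  set S := Z - J with hS
  have hS1 : S < κ ^ 5 / 100 := by
    calc S < (2 * κ) ^ 5 / 3200 := h
      _ = κ ^ 5 / 100 := by ring
  have hB : BB κ X S < 2 * κ := by
    unfold BB
    have b1 : κ * (X * (1 - X)) ≤ κ * (1 / 4) := by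
      gcongr
      nlinarith [sq_nonneg (X - 1 / 2)]
    have b2 : S * (1 - S) / (2 * κ ^ 3) ≤ κ / 200 := by
      rw [div_le_iff₀ (by positivity)]
      have c1 : S * (1 - S) ≤ S := by nlinarith
      have c2 : κ ^ 5 / 100 ≤ κ / 200 * (2 * κ ^ 3) := by
        have : κ ^ 5 ≤ κ ^ 4 := pow_le_pow_of_le_one hκ0.le (hκ1.trans (by norm_num)) (by norm_num)
        linarith
      linarith
    have b3 : S / (κ ^ 4 / 16) ≤ κ * (16 / 100) := by
      rw [div_le_iff₀ (by positivity)]
      calc S ≤ κ ^ 5 / 100 := hS1.le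
        _ = κ * (16 / 100) * (κ ^ 4 / 16) := by ring
    linarith
  have h2κ : 2 * κ ≤ ε := by
    rw [← hmk]
    exact min_le_left _ _
  rw [e2, e3, e4, e5]
  have key : J * (1 - Z - X - Y + 2 * J) - (X - J) * (Y - J) = J - X * Y - J * S := by
    rw [hS]
    ring
  rw [key]
  have : 0 ≤ J * S := by positivity
  linarith

end Q76.Pc
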