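import Mathlib
import Pool.Agent.Q76.PcMain

/-!
# The sharp covariance bound on finite edge sets
-/

namespace Q76.Pc

open Set

/-- The potential `8 s log (1/s) + 4 s log (1 - x)`. -/
noncomputable def PP (x s : ℝ) : ℝ := -(8 * (s * Real.log s)) + 4 * (s * Real.log (1 - x))

lemma strong_concave {f f' f'' : ℝ → ℝ} {K t : ℝ} (hf : ContinuousOn f (Icc 0 1))
    (h1 : ∀ r ∈ Ioo (0 : ℝ) 1, HasDerivAt f (f' r) r)
    (h2 : ∀ r ∈ Ioo (0 : ℝ) 1, HasDerivAt f' (f'' r) r)
    (h3 : ∀ r ∈ Ioo (0 : ℝ) 1, f'' r ≤ -(2 * K)) (ht0 : 0 ≤ t) (ht1 : t ≤ 1) :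
    t * f 1 + (1 - t) * f 0 + t * (1 - t) * K ≤ f t := by
  have hc : ConcaveOn ℝ (Icc (0 : ℝ) 1) (fun r => f r + K * r ^ 2) := by
    refine concaveOn_of_hasDerivWithinAt2_nonpos (convex_Icc 0 1)
      (f' := fun r => f' r + K * (2 * r)) (f'' := fun r => f'' r + K * 2) ?_ ?_ ?_ ?_
    · exact hf.add (by fun_prop)
    · intro r hr
      rw [interior_Icc] at hr
      have := (h1 r hr).add ((hasDerivAt_pow 2 r).const_mul K)
      refine (this.congr_deriv ?_).hasDerivWithinAt
      simp
    · intro r hr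
      rw [interior_Icc] at hr
      have := (h2 r hr).add (((hasDerivAt_id r).const_mul 2).const_mul K)
      refine (this.congr_deriv ?_).hasDerivWithinAt
      simp
    · intro r hr
      rw [interior_Icc] at hr
      have := h3 r hr
      linarith
  have h := hc.2 (left_mem_Icc.mpr zero_le_one) (right_mem_Icc.mpr zero_le_one)
    (sub_nonneg.mpr ht1) ht0 (by ring)
  simp only [smul_eq_mul, mul_zero, mul_one, zero_add] at h
  have e1 : (1 - t) * (f 0 + K * 0 ^ 2) + t * (f 1 + K * 1 ^ 2) = t * f 1 + (1 - t) * f 0 + K * t := by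
    ring
  rw [e1] at h
  linarith [show K * t - K * t ^ 2 = t * (1 - t) * K by ring]

lemma gap {t X0 X1 S0 S1 q y z : ℝ} (ht0 : 0 ≤ t) (ht1 : t ≤ 1) (hX0 : 0 ≤ X0) (hX : X0 ≤ X1)
    (hX1 : X1 ≤ 1) (hS0 : 0 ≤ S0) (hS1 : 0 ≤ S1) (hN0 : S0 ≤ 1 - X0) (hN1 : S1 ≤ 1 - X1)
    (hq : 0 ≤ q) (hy : 0 ≤ y) (hz : 0 ≤ z) (hDS : S1 - S0 = z - q)
    (h1 : q * (1 - X0) ≤ S0 * (X1 - X0)) (h2 : (y + z) * (1 - X0) ≤ z) :
    t * PP X1 S1 + (1 - t) * PP X0 S0 + t * (1 - t) * ((X1 - X0) * (q + y)) ≤
      PP (t * X1 + (1 - t) * X0) (t * S1 + (1 - t) * S0) := by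
  -- degenerate cases
  rcases hN0.trans' hS0 |>.eq_or_lt with hN | hN
  · have e0 : X0 = 1 := by linarith
    have e1 : X1 = 1 := by linarith
    have e2 : S0 = 0 := by linarith
    have e3 : S1 = 0 := by linarith
    simp [PP, e0, e1, e2, e3]
  by_cases hS : S0 = 0 ∧ S1 = 0
  · obtain ⟨e0, e1⟩ := hS
    have e2 : q = 0 := by
      rw [e0, zero_mul] at h1
      by_contra hne
      have : 0 < q := lt_of_le_of_ne hq (Ne.symm hne)
      have : 0 < q * (1 - X0) := by positivity
      linarith
    have e3 : z = 0 := by linarith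
    have e4 : y = 0 := by
      by_contra hne
      have : 0 < y := lt_of_le_of_ne hy (Ne.symm hne)
      rw [e3, add_zero] at h2
      have : 0 < y * (1 - X0) := by positivity
      linarith
    simp [PP, e0, e1, e2, e4]
  -- main case
  set N0 := 1 - X0 with hN0d
  set D := X1 - X0 with hD
  set E := S1 - S0 with hE
  have hD0 : 0 ≤ D := by linarith
  have hDN : D ≤ N0 := by linarith
  have hNpos : ∀ r ∈ Ioo (0 : ℝ) 1, 0 < N0 - r * D := by
    intro r hr
    have : r * D ≤ r * N0 := mul_le_mul_of_nonneg_left hDN hr.1.le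
    nlinarith [hr.2]
  have hSpos : ∀ r ∈ Ioo (0 : ℝ) 1, 0 < S0 + r * E := by
    intro r hr
    have e : S0 + r * E = (1 - r) * S0 + r * S1 := by rw [hE]; ring
    rw [e]
    rcases hS0.eq_or_lt with h0 | h0
    · have : 0 < S1 := by
        rcases hS1.eq_or_lt with h1 | h1
        · exact absurd ⟨h0.symm, h1.symm⟩ hS
        · exact h1
      have := mul_pos hr.1 this
      have h3 : 0 ≤ (1 - r) * S0 := mul_nonneg (by linarith [hr.2]) hS0
      linarith
    · have := mul_pos (show 0 < 1 - r by linarith [hr.2]) h0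
      have h3 : 0 ≤ r * S1 := mul_nonneg hr.1.le hS1
      linarith
  -- the second derivative bound
  have hkey : ∀ r ∈ Ioo (0 : ℝ) 1, D * (q + y) ≤ 4 * E ^ 2 / (S0 + r * E) +
      4 * E * D / (N0 - r * D) + 2 * (S0 + r * E) * D ^ 2 / (N0 - r * D) ^ 2 := by
    intro r hr
    have hNr := hNpos r hr
    have hSr := hSpos r hr
    set Nr := N0 - r * D with hNr'
    set Sr := S0 + r * E with hSr'
    have hNle : Nr ≤ N0 := by
      have : 0 ≤ r * D := mul_nonneg hr.1.le hD0
      linarith
    -- bound of q + y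
    have hqb : q ≤ S0 * D / N0 := by rwa [le_div_iff₀ hN]
    have hyb : y ≤ (1 - N0) / N0 * z := by
      have : y * N0 ≤ (1 - N0) * z := by nlinarith
      rw [div_mul_eq_mul_div, le_div_iff₀ hN]
      exact this
    have hX0' : 0 ≤ 1 - N0 := by rw [hN0d]; linarith
    have hqy : q + y ≤ S0 * D / N0 ^ 2 + (1 - N0) / N0 * E := by
      have e1 : (1 - N0) / N0 * z = (1 - N0) / N0 * E + (1 - N0) / N0 * q := by
        rw [hDS]; ring
      have e2 : q + (1 - N0) / N0 * q = q / N0 := by
        field_simp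
        ring
      have e3 : q / N0 ≤ S0 * D / N0 ^ 2 := by
        calc q / N0 ≤ (S0 * D / N0) / N0 := by gcongr
          _ = _ := by rw [div_div, sq]
      linarith
    have hsum : 4 * E ^ 2 / Sr + 4 * E * D / Nr + 2 * Sr * D ^ 2 / Nr ^ 2 =
        Sr * ((2 * (E / Sr) + D / Nr) ^ 2 + (D / Nr) ^ 2) := by
      field_simp
      ring
    rcases le_or_gt 0 E with hE0 | hE0
    · -- E nonnegative
      have hSle : S0 ≤ Sr := by
        have : 0 ≤ r * E := mul_nonneg hr.1.le hE0
        linarith
      have b1 : S0 * D / N0 ^ 2 * D ≤ Sr * (D / Nr) ^ 2 := by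
        calc S0 * D / N0 ^ 2 * D = S0 * (D / N0) ^ 2 := by
              field_simp
          _ ≤ Sr * (D / Nr) ^ 2 := by gcongr
      have b2 : (1 - N0) / N0 * E * D ≤ E * (D / Nr) := by
        have c1 : (1 - N0) / N0 ≤ 1 / Nr := by
          calc (1 - N0) / N0 ≤ 1 / N0 := by gcongr; linarith
            _ ≤ 1 / Nr := by gcongr
        calc (1 - N0) / N0 * E * D ≤ 1 / Nr * E * D := by gcongr
          _ = E * (D / Nr) := by ring
      have b3 : 0 ≤ E * (D / Nr) := by positivity
      have b4 : 0 ≤ 4 * E ^ 2 / Sr := by positivity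
      have e5 : 4 * E * D / Nr = 4 * (E * (D / Nr)) := by ring
      have e6 : 2 * Sr * D ^ 2 / Nr ^ 2 = 2 * (Sr * (D / Nr) ^ 2) := by
        rw [div_pow]; ring
      have b5 : 0 ≤ Sr * (D / Nr) ^ 2 := by positivity
      rw [e5, e6]
      calc D * (q + y) ≤ D * (S0 * D / N0 ^ 2 + (1 - N0) / N0 * E) := by gcongr
        _ = S0 * D / N0 ^ 2 * D + (1 - N0) / N0 * E * D := by ring
        _ ≤ _ := by linarith
    · -- E negative
      rw [hsum]
      have hEb : -E ≤ S0 * D / N0 := by
        rw [hDS]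
        linarith
      have hSr2 : S0 * Nr / N0 ≤ Sr := by
        have : r * (-E) ≤ r * (S0 * D / N0) := mul_le_mul_of_nonneg_left hEb hr.1.le
        have e7 : S0 * Nr / N0 = S0 - r * (S0 * D / N0) := by
          rw [hNr']
          field_simp
        rw [e7]
        linarith
      have b1 : S0 * D / N0 ^ 2 * D ≤ Sr * (D / Nr) ^ 2 := by
        calc S0 * D / N0 ^ 2 * D = (S0 * Nr / N0) * (D ^ 2 / (Nr * N0)) := by
              field_simp
          _ ≤ Sr * (D ^ 2 / (Nr * N0)) := by gcongr
          _ ≤ Sr * (D ^ 2 / (Nr * Nr)) := by gcongr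
          _ = Sr * (D / Nr) ^ 2 := by rw [div_pow, sq Nr]
      have b2 : (1 - N0) / N0 * E * D ≤ 0 := by
        have : 0 ≤ (1 - N0) / N0 * D := by positivity
        nlinarith
      have b3 : 0 ≤ Sr * (2 * (E / Sr) + D / Nr) ^ 2 := by positivity
      calc D * (q + y) ≤ D * (S0 * D / N0 ^ 2 + (1 - N0) / N0 * E) := by gcongr
        _ = S0 * D / N0 ^ 2 * D + (1 - N0) / N0 * E * D := by ring
        _ ≤ Sr * (D / Nr) ^ 2 := by linarith
        _ ≤ _ := by linarith
  -- continuity
  have hcont : ContinuousOn (fun r : ℝ => -(8 * ((S0 + r * E) * Real.log (S0 + r * E))) +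
      4 * ((S0 + r * E) * Real.log (N0 - r * D))) (Icc 0 1) := by
    apply ContinuousOn.add
    · apply Continuous.continuousOn
      have := Real.continuous_mul_log.comp (show Continuous (fun r : ℝ => S0 + r * E) by fun_prop)
      exact ((continuous_const.mul this)).neg
    · rcases (show 0 ≤ N0 - D by linarith).eq_or_lt with hz1 | hz1
      · have e1 : S1 = 0 := by linarith
        apply Continuous.continuousOn
        have e2 : (fun r : ℝ => 4 * ((S0 + r * E) * Real.log (N0 - r * D))) =
            fun r : ℝ => 4 * ((S0 / N0) * ((N0 - r * D) * Real.log (N0 - r * D))) := by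
          funext r
          have e3 : E = -S0 := by rw [hE, e1]; ring
          have e4 : D = N0 := by linarith
          rw [e3, e4]
          field_simp
          ring
        rw [e2]
        have := Real.continuous_mul_log.comp (show Continuous (fun r : ℝ => N0 - r * D) by fun_prop)
        exact continuous_const.mul (continuous_const.mul this)
      · apply ContinuousOn.mul continuousOn_const
        apply ContinuousOn.mul (by fun_prop)
        apply ContinuousOn.log (by fun_prop)
        intro r hr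
        have : r * D ≤ 1 * D := mul_le_mul_of_nonneg_right hr.2 hD0
        have : 0 < N0 - r * D := by linarith
        exact this.ne'
  have hmain := strong_concave (K := D * (q + y)) (t := t) hcont
    (f' := fun r => -(8 * (E * Real.log (S0 + r * E) + E)) +
      4 * (E * Real.log (N0 - r * D) - (S0 + r * E) * D / (N0 - r * D)))
    (f'' := fun r => -(8 * (E * (E / (S0 + r * E)))) +
      4 * (E * (-D / (N0 - r * D)) - (E * D * (N0 - r * D) - (S0 + r * E) * D * (-D)) /
        (N0 - r * D) ^ 2)) ?_ ?_ ?_ ht0 ht1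
  · have e1 : PP X1 S1 = (fun r : ℝ => -(8 * ((S0 + r * E) * Real.log (S0 + r * E))) +
      4 * ((S0 + r * E) * Real.log (N0 - r * D))) 1 := by
      show _ = -(8 * ((S0 + 1 * E) * Real.log (S0 + 1 * E))) +
        4 * ((S0 + 1 * E) * Real.log (N0 - 1 * D))
      have a1 : S0 + 1 * E = S1 := by rw [hE]; ring
      have a2 : N0 - 1 * D = 1 - X1 := by rw [hD, hN0d]; ring
      rw [a1, a2, PP]
    have e0 : PP X0 S0 = (fun r : ℝ => -(8 * ((S0 + r * E) * Real.log (S0 + r * E))) +
      4 * ((S0 + r * E) * Real.log (N0 - r * D))) 0 := by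
      show _ = -(8 * ((S0 + 0 * E) * Real.log (S0 + 0 * E))) +
        4 * ((S0 + 0 * E) * Real.log (N0 - 0 * D))
      have a1 : S0 + 0 * E = S0 := by ring
      have a2 : N0 - 0 * D = 1 - X0 := by rw [hN0d]; ring
      rw [a1, a2, PP]
    have et : PP (t * X1 + (1 - t) * X0) (t * S1 + (1 - t) * S0) =
        (fun r : ℝ => -(8 * ((S0 + r * E) * Real.log (S0 + r * E))) +
      4 * ((S0 + r * E) * Real.log (N0 - r * D))) t := by
      show _ = -(8 * ((S0 + t * E) * Real.log (S0 + t * E))) +
        4 * ((S0 + t * E) * Real.log (N0 - t * D))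
      have a1 : S0 + t * E = t * S1 + (1 - t) * S0 := by rw [hE]; ring
      have a2 : N0 - t * D = 1 - (t * X1 + (1 - t) * X0) := by rw [hD, hN0d]; ring
      rw [a1, a2, PP]
    rw [e1, e0, et]
    exact hmain
  · intro r hr
    have hSr := hSpos r hr
    have hNr := hNpos r hr
    have dS : HasDerivAt (fun r : ℝ => S0 + r * E) E r := by
      simpa using ((hasDerivAt_id r).mul_const E).const_add S0
    have dN : HasDerivAt (fun r : ℝ => N0 - r * D) (-D) r := by
      simpa using ((hasDerivAt_id r).mul_const D).const_sub N0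
    have d1 := dS.mul (dS.log hSr.ne')
    have d2 := dS.mul (dN.log hNr.ne')
    have d3 := (d1.const_mul 8).neg.add (d2.const_mul 4)
    refine d3.congr_deriv ?_
    rw [mul_div_cancel₀ E hSr.ne']
    ring
  · intro r hr
    have hSr := hSpos r hr
    have hNr := hNpos r hr
    have dS : HasDerivAt (fun r : ℝ => S0 + r * E) E r := by
      simpa using ((hasDerivAt_id r).mul_const E).const_add S0
    have dN : HasDerivAt (fun r : ℝ => N0 - r * D) (-D) r := by
      simpa using ((hasDerivAt_id r).mul_const D).const_sub N0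
    have d1 := (((dS.log hSr.ne').const_mul E).add_const E).const_mul 8
    have d2 := (((dN.log hNr.ne').const_mul E).sub ((dS.mul_const D).div dN hNr.ne')).const_mul 4
    exact d1.neg.add d2
  · intro r hr
    have hSr := hSpos r hr
    have hNr := hNpos r hr
    have hk := hkey r hr
    have e1 : -(8 * (E * (E / (S0 + r * E)))) +
      4 * (E * (-D / (N0 - r * D)) - (E * D * (N0 - r * D) - (S0 + r * E) * D * (-D)) /
        (N0 - r * D) ^ 2) = -(2 * (4 * E ^ 2 / (S0 + r * E) +
      4 * E * D / (N0 - r * D) + 2 * (S0 + r * E) * D ^ 2 / (N0 - r * D) ^ 2)) := by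
      have := hSr.ne'
      have := hNr.ne'
      field_simp
      ring
    rw [e1]
    linarith

variable {V : Type*} {p : Sym2 V → ℝ}

lemma SS_le (hp : ∀ e, 0 ≤ p e ∧ p e ≤ 1) (b c : V) (F : Finset (Sym2 V)) (A : Set V) :
    SS p F A b c ≤ 1 - XX p F A c := by
  have hN : Pr p F (fun ω => ¬ Conn ω A c) = 1 - XX p F A c := Pr_not p F _
  rw [← hN]
  exact Pr_mono hp (fun ω _ h => h.2)

open Classical in
/-- The sharp covariance bound. -/
theorem cov_sharp (hp : ∀ e, 0 ≤ p e ∧ p e ≤ 1) (b c : V)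
    (F : Finset (Sym2 V)) (A : Set V) :
    JJ p F A b c - XX p F A c * YY p F A b c ≤ PP (XX p F A c) (SS p F A b c) := by
  revert F A
  apply explore_induction
  · intro F A h
    obtain ⟨x0, x1, y0, y1, s0, s1, j1, j2⟩ := basic_bounds hp b c F A
    by_cases hc : c ∈ A
    · have hX : XX p F A c = 1 := by
        unfold XX Pr
        rw [← EF_const p F 1]
        apply EF_congr
        intro ω hω
        exact ind_true (Conn_of_mem hc)
      have hS : SS p F A b c = 0 := by
        have := SS_le hp b c F A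
        rw [hX] at this
        linarith
      rw [hX, hS]
      unfold PP
      simp only [Real.log_zero, sub_self, mul_zero, neg_zero, add_zero, one_mul]
      linarith
    · have h1 : JJ p F A b c = 0 := by
        unfold JJ Pr
        rw [← EF_const p F 0]
        apply EF_congr
        intro ω hω
        apply ind_false
        rintro ⟨_, h2⟩
        exact hc ((Conn_noOut hω h).mp h2)
      have h2 : XX p F A c = 0 := by
        unfold XX Pr
        rw [← EF_const p F 0]
        apply EF_congr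
        intro ω hω
        apply ind_false
        intro h2
        exact hc ((Conn_noOut hω h).mp h2)
      rw [h1, h2]
      unfold PP
      have h3 := Real.mul_log_nonpos s0 s1
      simp only [sub_zero, Real.log_one, mul_zero, zero_mul, add_zero]
      linarith
  · intro F A x v hx hv he ih1 ih2
    obtain ⟨rX, rS, rJ, rY⟩ := recursions (p := p) b c F A hx he
    obtain ⟨q, y, z, hq, hy, hz, hX, dY, dS, hbhk, havoid⟩ := differences hp b c v F A
    obtain ⟨x0, x1, y0, y1, s0, s1, j1, j2⟩ := basic_bounds hp b c F A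
    obtain ⟨x0', x1', y0', y1', s0', s1', j1', j2'⟩ := basic_bounds hp b c F (insert v A)
    have hstep := gap (hp s(x, v)).1 (hp s(x, v)).2 x0 hX x1' s0 s0' (SS_le hp b c F A)
      (SS_le hp b c F (insert v A)) hq hy hz dS hbhk havoid
    rw [rX, rS, rJ, rY]
    have hp0 := (hp s(x, v)).1
    have hp1 : 0 ≤ 1 - p s(x, v) := by linarith [(hp s(x, v)).2]
    have i1 := mul_le_mul_of_nonneg_left ih1 hp1
    have i2 := mul_le_mul_of_nonneg_left ih2 hp0
    rw [← dY] at hstep
    have key : ∀ t J1 J0 X1 X0 Y1 Y0 : ℝ,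
        t * J1 + (1 - t) * J0 - (t * X1 + (1 - t) * X0) * (t * Y1 + (1 - t) * Y0) =
        t * (J1 - X1 * Y1) + (1 - t) * (J0 - X0 * Y0) +
          t * (1 - t) * ((X1 - X0) * (Y1 - Y0)) := by
      intro t J1 J0 X1 X0 Y1 Y0
      ring
    rw [key]
    linarith

/-- The potential is at most `8 s log (1 / s)`. -/
lemma PP_le {x s : ℝ} (hx0 : 0 ≤ x) (hx1 : x ≤ 1) (hs : 0 ≤ s) :
    PP x s ≤ 8 * (s * Real.log (1 / s)) := by
  unfold PP
  rw [one_div, Real.log_inv]
  have h1 : s * Real.log (1 - x) ≤ 0 := by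
    apply mul_nonpos_of_nonneg_of_nonpos hs
    exact Real.log_nonpos (by linarith) (by linarith)
  linarith

end Q76.Pc
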