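import Mathlib
import Pool.Agent.Q76.PcFinal
import Pool.Agent.Q76.PcSharp
import Pool.Agent.Q76.PcFan

/-!
# The sharp bound for graphs, and fans
-/

namespace Q76.Pc

open MeasureTheory Set Filter Topology

variable {V : Type*}

/-- probability that `u` and `w` are in one cluster -/
noncomputable def Pconn (G : SimpleGraph V) (p : G.edgeSet → unitInterval) (u w : V) : ℝ :=
  (perc G p).real {ω | Same G u w ω}

lemma continuous_ent : Continuous (fun s : ℝ => 8 * (s * Real.log (1 / s))) := by
  have e : (fun s : ℝ => 8 * (s * Real.log (1 / s))) = fun s : ℝ => -8 * (s * Real.log s) := by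
    funext s
    rw [one_div, Real.log_inv]
    ring
  rw [e]
  exact continuous_const.mul Real.continuous_mul_log

variable (G : SimpleGraph V)

/-- The sharp covariance bound on `G`. -/
theorem cov_infinite_sharp [Countable G.edgeSet] (p : G.edgeSet → unitInterval) (a b c : V) :
    (perc G p).real {ω | Same G a b ω ∧ Same G a c ω} -
      (perc G p).real {ω | Same G a c ω} * (perc G p).real {ω | Same G b c ω} ≤
      8 * (((perc G p).real {ω | Same G a b ω} -
          (perc G p).real {ω | Same G a b ω ∧ Same G a c ω}) *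
        Real.log (1 / ((perc G p).real {ω | Same G a b ω} -
          (perc G p).real {ω | Same G a b ω ∧ Same G a c ω}))) := by
  have hp := pext_mem G p
  have lX := tendsto_perc G p (fun ω => R ω a c) (fun ω ω' h hr => R_mono h hr)
  have lY := tendsto_perc G p (fun ω => R ω b c) (fun ω ω' h hr => R_mono h hr)
  have lZ := tendsto_perc G p (fun ω => R ω a b) (fun ω ω' h hr => R_mono h hr)
  have lJ := tendsto_perc G p (fun ω => R ω a b ∧ R ω a c)
    (fun ω ω' h hr => ⟨R_mono h hr.1, R_mono h hr.2⟩)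
  have eX : {ω | ∃ F : Finset G.edgeSet, R (cfg G F ω) a c} = {ω | Same G a c ω} := by
    ext ω; exact (same_iff G a c ω).symm
  have eY : {ω | ∃ F : Finset G.edgeSet, R (cfg G F ω) b c} = {ω | Same G b c ω} := by
    ext ω; exact (same_iff G b c ω).symm
  have eZ : {ω | ∃ F : Finset G.edgeSet, R (cfg G F ω) a b} = {ω | Same G a b ω} := by
    ext ω; exact (same_iff G a b ω).symm
  have eJ : {ω | ∃ F : Finset G.edgeSet, R (cfg G F ω) a b ∧ R (cfg G F ω) a c} =
      {ω | Same G a b ω ∧ Same G a c ω} := by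
    classical
    ext ω
    simp only [Set.mem_ofPred_eq]
    rw [same_iff, same_iff]
    constructor
    · rintro ⟨F, h1, h2⟩
      exact ⟨⟨F, h1⟩, ⟨F, h2⟩⟩
    · rintro ⟨⟨F, h1⟩, ⟨F', h2⟩⟩
      exact ⟨F ∪ F', R_mono (cfg_mono G Finset.subset_union_left ω) h1,
        R_mono (cfg_mono G Finset.subset_union_right ω) h2⟩
  rw [eX] at lX
  rw [eY] at lY
  rw [eZ] at lZ
  rw [eJ] at lJ
  have hfin : ∀ F : Finset G.edgeSet,
      Pr (pext G p) (img G F) (fun ω => R ω a b ∧ R ω a c) -
        Pr (pext G p) (img G F) (fun ω => R ω a c) * Pr (pext G p) (img G F) (fun ω => R ω b c) ≤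
      (fun s : ℝ => 8 * (s * Real.log (1 / s))) (Pr (pext G p) (img G F) (fun ω => R ω a b) -
          Pr (pext G p) (img G F) (fun ω => R ω a b ∧ R ω a c)) := by
    intro F
    obtain ⟨x0, x1, -, -, s0, -⟩ := basic_bounds hp b c (img G F) {a}
    have h := (cov_sharp hp b c (img G F) {a}).trans (PP_le x0 x1 s0)
    have g1 : XX (pext G p) (img G F) {a} c = Pr (pext G p) (img G F) (fun ω => R ω a c) :=
      Pr_congr _ (fun ω _ => Conn_singleton)
    have g2 : JJ (pext G p) (img G F) {a} b c =
        Pr (pext G p) (img G F) (fun ω => R ω a b ∧ R ω a c) :=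
      Pr_congr _ (fun ω _ => and_congr Conn_singleton Conn_singleton)
    have g3 : YY (pext G p) (img G F) {a} b c = Pr (pext G p) (img G F) (fun ω => R ω b c) := by
      apply Pr_congr
      intro ω _
      rw [Conn_singleton, Conn_singleton]
      constructor
      · rintro (h | ⟨h1, h2⟩)
        · exact h
        · exact R_trans (R_symm h1) h2
      · exact Or.inl
    have g4 : SS (pext G p) (img G F) {a} b c =
        Pr (pext G p) (img G F) (fun ω => R ω a b) -
          Pr (pext G p) (img G F) (fun ω => R ω a b ∧ R ω a c) := by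
      have := Pr_split (pext G p) (img G F) (fun ω => R ω a b) (fun ω => R ω a c)
      have g5 : SS (pext G p) (img G F) {a} b c =
          Pr (pext G p) (img G F) (fun ω => R ω a b ∧ ¬ R ω a c) := by
        apply Pr_congr
        intro ω _
        rw [Conn_singleton, Conn_singleton]
      rw [g5]
      linarith
    rw [g1, g2, g3, g4] at h
    exact h
  have l1 := lJ.sub (lX.mul lY)
  have l2 := (continuous_ent.tendsto _).comp (lZ.sub lJ)
  exact le_of_tendsto_of_tendsto' l1 l2 hfin

/-- The sharp bound in terms of `Pab_c`. -/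
theorem sharp_bound [Countable G.edgeSet] (p : G.edgeSet → unitInterval) (a b c : V) :
    Pabc G p a b c - Pconn G p a c * Pconn G p b c ≤
      8 * (Pab_c G p a b c * Real.log (1 / Pab_c G p a b c)) := by
  have e1 : Pab_c G p a b c = (perc G p).real {ω | Same G a b ω} -
      (perc G p).real {ω | Same G a b ω ∧ Same G a c ω} := by
    have := measureReal_inter_add_sdiff (μ := perc G p) (s := {ω | Same G a b ω})
      (measurableSet_same G a c)
    have h2 : Pab_c G p a b c = (perc G p).real ({ω | Same G a b ω} \ {ω | Same G a c ω}) := rfl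
    have h3 : (perc G p).real {ω | Same G a b ω ∧ Same G a c ω} =
      (perc G p).real ({ω | Same G a b ω} ∩ {ω | Same G a c ω}) := rfl
    rw [h2, h3]
    linarith
  rw [e1]
  exact cov_infinite_sharp G p a b c

lemma ent_le {s : ℝ} (hs : 0 ≤ s) : 8 * (s * Real.log (1 / s)) ≤ 16 * Real.sqrt s := by
  rcases hs.eq_or_lt with rfl | hs0
  · simp
  have h1 : Real.log (1 / s) = 2 * Real.log (1 / Real.sqrt s) := by
    rw [one_div, one_div, Real.log_inv, Real.log_inv, Real.log_sqrt hs]
    ring
  have h2 : Real.log (1 / Real.sqrt s) ≤ 1 / Real.sqrt s - 1 :=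
    Real.log_le_sub_one_of_pos (by positivity)
  have h3 : 0 < Real.sqrt s := Real.sqrt_pos.mpr hs0
  have h4 : s = Real.sqrt s * Real.sqrt s := (Real.mul_self_sqrt hs).symm
  have h5 : s * (1 / Real.sqrt s) = Real.sqrt s := by
    nth_rewrite 1 [h4]
    field_simp
  rw [h1]
  have h6 : s * (2 * Real.log (1 / Real.sqrt s)) ≤ s * (2 * (1 / Real.sqrt s)) := by
    gcongr
    linarith
  calc 8 * (s * (2 * Real.log (1 / Real.sqrt s))) ≤ 8 * (s * (2 * (1 / Real.sqrt s))) := by linarith
    _ = 16 * (s * (1 / Real.sqrt s)) := by ring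
    _ = 16 * Real.sqrt s := by rw [h5]

/-- The modulus form. -/
theorem modulus_bound [Countable G.edgeSet] (p : G.edgeSet → unitInterval) (a b c : V) {ε : ℝ}
    (hε : 0 < ε) (h : Pab_c G p a b c < (ε / 16) ^ 2) :
    Pabc G p a b c - Pconn G p a c * Pconn G p b c < ε := by
  have h0 : 0 ≤ Pab_c G p a b c := measureReal_nonneg
  have h1 := (sharp_bound G p a b c).trans (ent_le h0)
  have h2 : Real.sqrt (Pab_c G p a b c) < ε / 16 := by
    rw [Real.sqrt_lt' (by positivity)]
    exact h
  linarith

/-! ### Finite graphs -/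

lemma same_univ [Fintype G.edgeSet] (u w : V) (ω : G.edgeSet → Bool) :
    Same G u w ω ↔ R (cfg G Finset.univ ω) u w := by
  rw [same_iff]
  constructor
  · rintro ⟨F, h⟩
    exact R_mono (cfg_mono G (Finset.subset_univ F) ω) h
  · intro h
    exact ⟨_, h⟩

open Classical in
lemma mem_img {F : Finset G.edgeSet} {e : Sym2 V} :
    e ∈ img G F ↔ ∃ e' ∈ F, (e' : Sym2 V) = e := by
  unfold img
  rw [Finset.mem_image]

lemma perc_real_eq [Fintype G.edgeSet] (p : G.edgeSet → unitInterval)
    (Q : Finset (Sym2 V) → Prop) :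
    (perc G p).real {ω | Q (cfg G Finset.univ ω)} = Pr (pext G p) (img G Finset.univ) Q :=
  perc_cfg G p Finset.univ Q

lemma Pr_congr_p {p p' : Sym2 V → ℝ} {F : Finset (Sym2 V)} (h : ∀ e ∈ F, p e = p' e)
    (Q : Finset (Sym2 V) → Prop) : Pr p F Q = Pr p' F Q := by
  unfold Pr EF
  apply Finset.sum_congr rfl
  intro ω _
  congr 1
  unfold wt
  apply Finset.prod_congr rfl
  intro e he
  rw [h e he]

/-- the parameter one half -/
noncomputable def half : unitInterval := ⟨1 / 2, by norm_num, by norm_num⟩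

open Classical in
/-- Fans: the lower bound. -/
theorem fan_lower (k : ℕ) (hk : 1 ≤ k) :
    ∃ (G : SimpleGraph (Fin (k + 2))) (a b c : Fin (k + 2)), G.Connected ∧ a ≠ b ∧ a ≠ c ∧ b ≠ c ∧
      Pab_c G (fun _ => half) a b c = (1 / 2) ^ (2 * k + 1) ∧
      6 / 25 * (Pab_c G (fun _ => half) a b c * Real.log (1 / Pab_c G (fun _ => half) a b c)) ≤
        Pabc G (fun _ => half) a b c -
          Pconn G (fun _ => half) a c * Pconn G (fun _ => half) b c := by
  set v : ℕ → Fin (k + 2) := fun i => Fin.ofNat (k + 2) i with hvd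
  set c : Fin (k + 2) := Fin.last (k + 1) with hcd
  have hval : ∀ i ≤ k, (v i).val = i := by
    intro i hi
    rw [hvd]
    simp only [Fin.ofNat]
    exact Nat.mod_eq_of_lt (by omega)
  have hc : ∀ i ≤ k, v i ≠ c := by
    intro i hi h
    have h1 := congrArg Fin.val h
    rw [hval i hi, hcd, Fin.val_last] at h1
    omega
  have hv : ∀ i ≤ k, ∀ j ≤ k, v i = v j → i = j := by
    intro i hi j hj h
    have h1 := congrArg Fin.val h
    rwa [hval i hi, hval j hj] at h1
  set G : SimpleGraph (Fin (k + 2)) := SimpleGraph.fromEdgeSet (FF v c k : Set (Sym2 _)) with hG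
  have hnd : ∀ e ∈ FF v c k, ¬ e.IsDiag := by
    intro e he
    rw [mem_FF] at he
    rcases he with ⟨i, hi, rfl⟩ | ⟨i, hi, rfl⟩
    · rw [Sym2.mk_isDiag_iff]
      exact hc i hi
    · rw [Sym2.mk_isDiag_iff]
      intro h
      have := hv _ (by omega) _ (by omega) h
      omega
  have hedge : ∀ e, e ∈ G.edgeSet ↔ e ∈ FF v c k := by
    intro e
    rw [hG, SimpleGraph.edgeSet_fromEdgeSet]
    constructor
    · exact fun h => h.1
    · intro h
      exact ⟨h, fun h2 => hnd e h h2⟩
  have himg : img G Finset.univ = FF v c k := by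
    ext e
    rw [mem_img]
    constructor
    · rintro ⟨e', _, rfl⟩
      exact (hedge _).mp e'.2
    · intro h
      exact ⟨⟨e, (hedge e).mpr h⟩, Finset.mem_univ _, rfl⟩
  have hp : ∀ e ∈ FF v c k, pext G (fun _ => half) e = hf e := by
    intro e he
    unfold pext
    rw [dif_pos ((hedge e).mpr he)]
    rfl
  have hPr : ∀ Q : Finset (Sym2 (Fin (k + 2))) → Prop,
      (perc G (fun _ => half)).real {ω | Q (cfg G Finset.univ ω)} = Pr hf (FF v c k) Q := by
    intro Q
    rw [perc_real_eq, himg]
    exact Pr_congr_p hp Q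
  have hsame := fun (u w : Fin (k + 2)) (ω : G.edgeSet → Bool) => same_univ G u w ω
  obtain ⟨vX, vS, vJ, vY, -⟩ := fan_values hc hv k le_rfl
  have hS : Pab_c G (fun _ => half) (v k) (v 0) c = 1 / 2 * (1 / 4) ^ k := by
    rw [← vS, ← hPr]
    unfold Pab_c
    simp only [hsame]
  have hJ : Pabc G (fun _ => half) (v k) (v 0) c =
      4 / 9 + (1 / 18 + k / 6) * (1 / 4) ^ k := by
    rw [← vJ, ← hPr]
    unfold Pabc
    simp only [hsame]
  have hX : Pconn G (fun _ => half) (v k) c = 2 / 3 - 1 / 6 * (1 / 4) ^ k := by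
    rw [← vX, ← hPr]
    unfold Pconn
    simp only [hsame]
  have hY : Pconn G (fun _ => half) (v 0) c = 2 / 3 - 1 / 6 * (1 / 4) ^ k := by
    rw [← vY, ← hPr]
    unfold Pconn
    simp only [hsame]
  have hpow : (1 / 2 : ℝ) * (1 / 4) ^ k = (1 / 2) ^ (2 * k + 1) := by
    rw [pow_succ, pow_mul]
    norm_num
    ring
  refine ⟨G, v k, v 0, c, ?_, ?_, hc k le_rfl, hc 0 (by omega), ?_, ?_⟩
  · -- connectedness
    have hreach : ∀ i ≤ k, G.Reachable (v i) c := by
      intro i hi
      apply SimpleGraph.Adj.reachable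
      rw [hG, SimpleGraph.fromEdgeSet_adj]
      refine ⟨?_, hc i hi⟩
      have : s(v i, c) ∈ FF v c k := mem_FF.mpr (Or.inl ⟨i, hi, rfl⟩)
      exact_mod_cast this
    have hall : ∀ u : Fin (k + 2), G.Reachable u c := by
      intro u
      by_cases hu : u.val ≤ k
      · have : u = v u.val := Fin.ext (hval _ hu).symm
        rw [this]
        exact hreach _ hu
      · have : u = c := by
          apply Fin.ext
          rw [hcd, Fin.val_last]
          have := u.isLt
          omega
        rw [this]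
    have : Nonempty (Fin (k + 2)) := ⟨c⟩
    exact SimpleGraph.Connected.mk (fun u w => (hall u).trans (hall w).symm)
  · intro h
    have := hv k le_rfl 0 (by omega) h
    omega
  · rw [hS, hpow]
  · rw [hS, hJ, hX, hY]
    set u : ℝ := (1 / 4) ^ k with hu
    have hu0 : 0 < u := by positivity
    have hu1 : u ≤ 1 := pow_le_one₀ (by norm_num) (by norm_num)
    have hlog : Real.log (1 / (1 / 2 * u)) = (2 * k + 1) * Real.log 2 := by
      rw [hpow, one_div, Real.log_inv, Real.log_pow, one_div, Real.log_inv]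
      push_cast
      ring
    rw [hlog]
    have hl2 : Real.log 2 < 0.6931471808 := Real.log_two_lt_d9
    have hk0 : (0 : ℝ) ≤ k := Nat.cast_nonneg k
    have h1 : (2 * (k : ℝ) + 1) * Real.log 2 ≤ (2 * k + 1) * (25 / 36) := by
      apply mul_le_mul_of_nonneg_left _ (by positivity)
      norm_num at hl2 ⊢
      linarith
    have h2 : 6 / 25 * (1 / 2 * u * ((2 * (k : ℝ) + 1) * Real.log 2)) ≤
        6 / 25 * (1 / 2 * u * ((2 * k + 1) * (25 / 36))) := by
      gcongr
    refine h2.trans ?_
    have e : 4 / 9 + (1 / 18 + (k : ℝ) / 6) * u - (2 / 3 - 1 / 6 * u) * (2 / 3 - 1 / 6 * u) =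
        u * (5 / 18 + k / 6 - u / 36) := by ring
    rw [e]
    have e2 : 6 / 25 * (1 / 2 * u * ((2 * (k : ℝ) + 1) * (25 / 36))) = u * (k / 6 + 1 / 12) := by ring
    rw [e2]
    apply mul_le_mul_of_nonneg_left _ hu0.le
    linarith

end Q76.Pc
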