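import Mathlib

/-!
# Second derivatives as bilinear forms; convexity from a nonnegative second derivative
-/

namespace Q76.SecondDeriv

open Filter Topology Set Metric
open scoped ContDiff

variable {X Y : Type*} [NormedAddCommGroup X] [NormedSpace ℝ X] [NormedAddCommGroup Y]
  [NormedSpace ℝ Y]

/-- The second derivative as a bilinear form. -/
noncomputable def B (f : X → ℝ) (p : X) : X →L[ℝ] X →L[ℝ] ℝ := fderiv ℝ (fderiv ℝ f) p

variable {f g : X → ℝ}

lemma contDiff_fderiv (hf : ContDiff ℝ ∞ f) : ContDiff ℝ ∞ (fderiv ℝ f) :=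
  hf.fderiv_right (m := ∞) (by simp)

lemma differentiable_fderiv (hf : ContDiff ℝ ∞ f) : Differentiable ℝ (fderiv ℝ f) :=
  (contDiff_fderiv hf).differentiable (by simp)

lemma differentiable' (hf : ContDiff ℝ ∞ f) : Differentiable ℝ f :=
  hf.differentiable (by simp)

lemma continuous_B (hf : ContDiff ℝ ∞ f) : Continuous (B f) :=
  ((contDiff_fderiv hf).fderiv_right (m := 0) (by simp)).continuous

lemma hasDerivAt_line (hf : ContDiff ℝ ∞ f) (p d : X) (t : ℝ) :
    HasDerivAt (fun t : ℝ => f (p + t • d)) (fderiv ℝ f (p + t • d) d) t := by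
  have h1 : HasDerivAt (fun t : ℝ => p + t • d) d t := by
    simpa using ((hasDerivAt_id t).smul_const d).const_add p
  exact ((differentiable' hf) (p + t • d)).hasFDerivAt.comp_hasDerivAt t h1

lemma hasDerivAt_line2 (hf : ContDiff ℝ ∞ f) (p d e : X) (t : ℝ) :
    HasDerivAt (fun t : ℝ => fderiv ℝ f (p + t • d) e) (B f (p + t • d) d e) t := by
  have h1 : HasDerivAt (fun t : ℝ => p + t • d) d t := by
    simpa using ((hasDerivAt_id t).smul_const d).const_add p
  have h2 := ((differentiable_fderiv hf) (p + t • d)).hasFDerivAt.comp_hasDerivAt t h1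
  exact ((ContinuousLinearMap.apply ℝ ℝ e).hasFDerivAt.comp_hasDerivAt t h2)

lemma B_add (hf : ContDiff ℝ ∞ f) (hg : ContDiff ℝ ∞ g) (p : X) :
    B (fun x => f x + g x) p = B f p + B g p := by
  unfold B
  have h1 : fderiv ℝ (fun x => f x + g x) = fun x => fderiv ℝ f x + fderiv ℝ g x := by
    ext1 x
    exact fderiv_fun_add (differentiable' hf x) (differentiable' hg x)
  rw [h1]
  exact fderiv_fun_add (differentiable_fderiv hf p) (differentiable_fderiv hg p)

lemma B_const_mul (hf : ContDiff ℝ ∞ f) (c : ℝ) (p : X) :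
    B (fun x => c * f x) p = c • B f p := by
  unfold B
  have h1 : fderiv ℝ (fun x => c * f x) = fun x => c • fderiv ℝ f x := by
    ext1 x
    exact fderiv_const_mul (differentiable' hf x) c
  rw [h1]
  exact fderiv_fun_const_smul (differentiable_fderiv hf p) c

lemma B_congr {p : X} (h : f =ᶠ[𝓝 p] g) : B f p = B g p := h.fderiv.fderiv_eq

lemma B_comp {G : Y → ℝ} (hG : ContDiff ℝ ∞ G) (L : X →L[ℝ] Y) (p d e : X) :
    B (fun x => G (L x)) p d e = B G (L p) (L d) (L e) := by
  have hc : ContDiff ℝ ∞ (fun x => G (L x)) := hG.comp L.contDiff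
  have h1 := hasDerivAt_line2 hc p d e 0
  have h2 : (fun t : ℝ => fderiv ℝ (fun x => G (L x)) (p + t • d) e) =
      fun t : ℝ => fderiv ℝ G (L p + t • L d) (L e) := by
    ext1 t
    have h3 : HasFDerivAt (fun x => G (L x)) ((fderiv ℝ G (L (p + t • d))).comp L) (p + t • d) :=
      ((differentiable' hG) (L (p + t • d))).hasFDerivAt.comp _ L.hasFDerivAt
    rw [h3.fderiv]
    simp
  rw [h2] at h1
  have h4 := hasDerivAt_line2 hG (L p) (L d) (L e) 0
  have := h1.unique h4
  simpa using this

/-- Convexity from the second derivative. -/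
theorem convexOn_of_B {V : Set X} (hV : Convex ℝ V) (hf : ContDiff ℝ ∞ f)
    (h : ∀ p ∈ V, ∀ d, 0 ≤ B f p d d) : ConvexOn ℝ V f := by
  refine ⟨hV, fun x hx y hy a b ha hb hab => ?_⟩
  have hφ : ConvexOn ℝ (Icc (0 : ℝ) 1) (fun t : ℝ => f (x + t • (y - x))) := by
    refine convexOn_of_hasDerivWithinAt2_nonneg (convex_Icc 0 1)
      (f' := fun t => fderiv ℝ f (x + t • (y - x)) (y - x))
      (f'' := fun t => B f (x + t • (y - x)) (y - x) (y - x)) ?_ ?_ ?_ ?_
    · exact fun t _ => (hasDerivAt_line hf x (y - x) t).continuousAt.continuousWithinAt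
    · exact fun t _ => (hasDerivAt_line hf x (y - x) t).hasDerivWithinAt
    · exact fun t _ => (hasDerivAt_line2 hf x (y - x) (y - x) t).hasDerivWithinAt
    · intro t ht
      apply h
      have ht' : t ∈ Icc (0 : ℝ) 1 := interior_subset ht
      exact hV.add_smul_sub_mem hx hy ht'
  have h1 := hφ.2 (left_mem_Icc.mpr zero_le_one) (right_mem_Icc.mpr zero_le_one) ha hb hab
  have ha' : a = 1 - b := by linarith
  have e : x + (a • (0 : ℝ) + b • (1 : ℝ)) • (y - x) = a • x + b • y := by
    rw [ha']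
    simp only [smul_eq_mul, mul_zero, mul_one, zero_add]
    module
  simp only [e] at h1
  simpa using h1

end Q76.SecondDeriv
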