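import Mathlib
import Pool.Agent.Q76.SecondDeriv

/-!
# Building blocks for the perturbation
-/

namespace Q76.RemovableBlocks

open Filter Topology Set Metric Real
open scoped ContDiff

/-- The oscillating profile. -/
noncomputable def ψ (A w : ℝ) : ℝ := exp (A * cos (2 * π * w))

/-- Its derivative. -/
noncomputable def dψ (A w : ℝ) : ℝ := exp (A * cos (2 * π * w)) * (A * (-sin (2 * π * w) * (2 * π)))

/-- Its second derivative. -/
noncomputable def ddψ (A w : ℝ) : ℝ :=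
  (2 * π) ^ 2 * A * exp (A * cos (2 * π * w)) * (A * sin (2 * π * w) ^ 2 - cos (2 * π * w))

lemma contDiff_ψ (A : ℝ) : ContDiff ℝ ∞ (ψ A) := by
  unfold ψ
  exact (contDiff_const.mul (contDiff_cos.comp (contDiff_const.mul contDiff_id))).exp

lemma hasDerivAt_ψ (A w : ℝ) : HasDerivAt (ψ A) (dψ A w) w := by
  unfold ψ dψ
  have h1 : HasDerivAt (fun w : ℝ => 2 * π * w) (2 * π) w := by
    simpa using (hasDerivAt_id w).const_mul (2 * π)
  exact ((h1.cos).const_mul A).exp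

lemma hasDerivAt_dψ (A w : ℝ) : HasDerivAt (dψ A) (ddψ A w) w := by
  unfold dψ ddψ
  have h1 : HasDerivAt (fun w : ℝ => 2 * π * w) (2 * π) w := by
    simpa using (hasDerivAt_id w).const_mul (2 * π)
  have h2 := ((h1.cos).const_mul A).exp
  have h3 := ((h1.sin.neg).mul_const (2 * π)).const_mul A
  refine (h2.mul h3).congr_deriv ?_
  simp only [Pi.neg_apply]
  ring

lemma ψ_nonneg (A w : ℝ) : 0 ≤ ψ A w := (exp_pos _).le

lemma ψ_le {A : ℝ} (hA : 0 ≤ A) (w : ℝ) : ψ A w ≤ exp A := by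
  unfold ψ
  apply exp_le_exp.mpr
  nlinarith [cos_le_one (2 * π * w)]

lemma ψ_periodic (A w : ℝ) (n : ℤ) : ψ A (w + n) = ψ A w := by
  unfold ψ
  congr 2
  rw [mul_add, mul_comm (2 * π) (n : ℝ), cos_add_int_mul_two_pi]

/-- The lower bound for the second derivative away from the integers. -/
lemma ddψ_ge {A η w : ℝ} (hη : 0 < η) (hA : 2 / η ≤ A)
    (hw : cos (2 * π * w) ≤ 1 - η) : (2 * π) ^ 2 * A * exp (-A) ≤ ddψ A w := by
  have hA0 : 0 < A := lt_of_lt_of_le (by positivity) hA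
  have hAη : 2 ≤ A * η := by
    rw [div_le_iff₀ hη] at hA
    exact hA
  unfold ddψ
  obtain ⟨x, hx⟩ : ∃ x, cos (2 * π * w) = x := ⟨_, rfl⟩
  have hx1 : -1 ≤ x := by rw [← hx]; exact neg_one_le_cos _
  have hs : sin (2 * π * w) ^ 2 = 1 - x ^ 2 := by rw [← hx, sin_sq]
  rw [hs, hx]
  rw [hx] at hw
  have hq : 1 ≤ A * (1 - x ^ 2) - x := by
    have h1 : 0 ≤ (1 + x) * (1 - η - x) := mul_nonneg (by linarith) (by linarith)
    -- 1 - x^2 ≥ η (1 + x) on [-1, 1 - η]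
    have h2 : η * (1 + x) ≤ 1 - x ^ 2 := by nlinarith
    have h3 : A * (η * (1 + x)) ≤ A * (1 - x ^ 2) := by gcongr
    have h4 : 2 * (1 + x) ≤ A * (η * (1 + x)) := by
      have : 2 * (1 + x) ≤ (A * η) * (1 + x) := by
        apply mul_le_mul_of_nonneg_right hAη (by linarith)
      nlinarith
    nlinarith
  have he : exp (-A) ≤ exp (A * x) := by
    apply exp_le_exp.mpr
    nlinarith
  have hπ : 0 < (2 * π) ^ 2 * A := by positivity
  calc (2 * π) ^ 2 * A * exp (-A) = (2 * π) ^ 2 * A * exp (-A) * 1 := by ring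
    _ ≤ (2 * π) ^ 2 * A * exp (A * x) * (A * (1 - x ^ 2) - x) := by
        gcongr

/-- The switch. -/
noncomputable def sw (x : ℝ) : ℝ := smoothTransition (1 / 2 - cos (2 * π * x))

lemma contDiff_sw : ContDiff ℝ ∞ sw := by
  unfold sw
  exact smoothTransition.contDiff.comp
    (contDiff_const.sub (contDiff_cos.comp (contDiff_const.mul contDiff_id)))

lemma sw_nonneg (x : ℝ) : 0 ≤ sw x := smoothTransition.nonneg _

lemma sw_le_one (x : ℝ) : sw x ≤ 1 := smoothTransition.le_one _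

lemma sw_eq_one {x : ℝ} (h : cos (2 * π * x) < -1 / 2) : sw x = 1 :=
  smoothTransition.one_of_one_le (by linarith)

lemma sw_eq_zero {x : ℝ} (h : 1 / 2 < cos (2 * π * x)) : sw x = 0 :=
  smoothTransition.zero_of_nonpos (by linarith)

open Q76.SecondDeriv

/-- The plane. -/
abbrev X := ℝ × ℝ

/-- The three-variable profile. -/
noncomputable def G (χ : X → ℝ) (A ℓ : ℝ) (q : X × ℝ) : ℝ :=
  χ q.1 * ((1 - sw (q.1.1 / ℓ)) * ψ A q.2 + sw (q.1.1 / ℓ) * ψ A (q.2 + 1 / 2))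

variable {χ : X → ℝ} {A ℓ : ℝ}

lemma contDiff_G (hχ : ContDiff ℝ ∞ χ) : ContDiff ℝ ∞ (G χ A ℓ) := by
  unfold G
  have h1 : ContDiff ℝ ∞ fun q : X × ℝ => χ q.1 := hχ.comp contDiff_fst
  have h2 : ContDiff ℝ ∞ fun q : X × ℝ => sw (q.1.1 / ℓ) :=
    contDiff_sw.comp ((contDiff_fst.comp contDiff_fst).div_const ℓ)
  have h3 : ContDiff ℝ ∞ fun q : X × ℝ => ψ A q.2 := (contDiff_ψ A).comp contDiff_snd
  have h4 : ContDiff ℝ ∞ fun q : X × ℝ => ψ A (q.2 + 1 / 2) :=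
    (contDiff_ψ A).comp (contDiff_snd.add contDiff_const)
  exact h1.mul (((contDiff_const.sub h2).mul h3).add (h2.mul h4))

lemma G_periodic (n : ℤ) (q : X × ℝ) : G χ A ℓ (q + (0, (n : ℝ))) = G χ A ℓ q := by
  unfold G
  have e1 : (q + ((0 : X), (n : ℝ))).1 = q.1 := by simp
  have e2 : (q + ((0 : X), (n : ℝ))).2 = q.2 + n := by simp
  rw [e1, e2, ψ_periodic, show q.2 + (n : ℝ) + 1 / 2 = (q.2 + 1 / 2) + n by ring, ψ_periodic]

lemma G_eq_zero {q : X × ℝ} (h : χ q.1 = 0) : G χ A ℓ q = 0 := by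
  unfold G
  rw [h, zero_mul]

lemma abs_G_le (hA : 0 ≤ A) (hχ0 : ∀ p, 0 ≤ χ p) (hχ1 : ∀ p, χ p ≤ 1) (q : X × ℝ) :
    |G χ A ℓ q| ≤ exp A := by
  unfold G
  have h1 := sw_nonneg (q.1.1 / ℓ)
  have h2 := sw_le_one (q.1.1 / ℓ)
  have h3 := ψ_nonneg A q.2
  have h4 := ψ_nonneg A (q.2 + 1 / 2)
  have h5 := ψ_le hA q.2
  have h6 := ψ_le hA (q.2 + 1 / 2)
  have h7 : 0 ≤ (1 - sw (q.1.1 / ℓ)) * ψ A q.2 + sw (q.1.1 / ℓ) * ψ A (q.2 + 1 / 2) := by
    have : 0 ≤ 1 - sw (q.1.1 / ℓ) := by linarith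
    positivity
  have h8 : (1 - sw (q.1.1 / ℓ)) * ψ A q.2 + sw (q.1.1 / ℓ) * ψ A (q.2 + 1 / 2) ≤ exp A := by
    have : 0 ≤ 1 - sw (q.1.1 / ℓ) := by linarith
    calc (1 - sw (q.1.1 / ℓ)) * ψ A q.2 + sw (q.1.1 / ℓ) * ψ A (q.2 + 1 / 2)
        ≤ (1 - sw (q.1.1 / ℓ)) * exp A + sw (q.1.1 / ℓ) * exp A := by gcongr
      _ = exp A := by ring
  rw [abs_mul, abs_of_nonneg (hχ0 _), abs_of_nonneg h7]
  calc χ q.1 * ((1 - sw (q.1.1 / ℓ)) * ψ A q.2 + sw (q.1.1 / ℓ) * ψ A (q.2 + 1 / 2))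
      ≤ 1 * exp A := by
        apply mul_le_mul (hχ1 _) h8 h7 zero_le_one
    _ = exp A := one_mul _

lemma B_translate (f : X × ℝ → ℝ) (a q : X × ℝ) : B (fun x => f (x + a)) q = B f (q + a) := by
  unfold B
  have h1 : fderiv ℝ (fun x => f (x + a)) = fun x => fderiv ℝ f (x + a) := by
    ext1 x
    exact fderiv_comp_add_right a
  rw [h1]
  exact fderiv_comp_add_right a

/-- The second derivative of a smooth function is bounded on compact sets. -/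
lemma exists_bound_B {Z : Type*} [NormedAddCommGroup Z] [NormedSpace ℝ Z] {f : Z → ℝ}
    (hf : ContDiff ℝ ∞ f) {K : Set Z} (hK : IsCompact K) :
    ∃ C : ℝ, 0 ≤ C ∧ ∀ q ∈ K, ∀ d e, |B f q d e| ≤ C * ‖d‖ * ‖e‖ := by
  have hcont : Continuous (B f) := continuous_B hf
  obtain ⟨C, hC⟩ := hK.exists_bound_of_continuousOn (f := B f) hcont.continuousOn
  refine ⟨max C 0, le_max_right _ _, fun q hq d e => ?_⟩
  calc |B f q d e| = ‖B f q d e‖ := (Real.norm_eq_abs _).symm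
    _ ≤ ‖B f q‖ * ‖d‖ * ‖e‖ := ContinuousLinearMap.le_opNorm₂ _ _ _
    _ ≤ max C 0 * ‖d‖ * ‖e‖ := by
        have := (hC q hq).trans (le_max_left C 0)
        gcongr

/-- The second derivative of the profile is bounded. -/
lemma exists_bound_G (hχ : ContDiff ℝ ∞ χ) (hχc : HasCompactSupport χ) :
    ∃ C : ℝ, 0 ≤ C ∧ ∀ q d e, |B (G χ A ℓ) q d e| ≤ C * ‖d‖ * ‖e‖ := by
  have hG : ContDiff ℝ ∞ (G χ A ℓ) := contDiff_G hχ
  have hK : IsCompact (tsupport χ ×ˢ Icc (0 : ℝ) 1) := hχc.isCompact.prod isCompact_Icc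
  obtain ⟨C, hC0, hC⟩ := exists_bound_B hG hK
  refine ⟨C, hC0, fun q d e => ?_⟩
  by_cases hq : q.1 ∈ tsupport χ
  · have e : B (G χ A ℓ) q = B (G χ A ℓ) (q.1, Int.fract q.2) := by
      have h1 := B_translate (G χ A ℓ) (0, ((⌊q.2⌋ : ℤ) : ℝ)) (q.1, Int.fract q.2)
      have h2 : (fun x => G χ A ℓ (x + (0, ((⌊q.2⌋ : ℤ) : ℝ)))) = G χ A ℓ := by
        ext1 x
        exact G_periodic _ x
      have h3 : (q.1, Int.fract q.2) + ((0 : X), ((⌊q.2⌋ : ℤ) : ℝ)) = q := by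
        ext <;> simp
      rw [h2, h3] at h1
      exact h1.symm
    rw [e]
    exact hC (q.1, Int.fract q.2) ⟨hq, Int.fract_nonneg _, (Int.fract_lt_one _).le⟩ _ _
  · have hnhds : ∀ᶠ q' in 𝓝 q, q'.1 ∉ tsupport χ :=
      continuous_fst.continuousAt.eventually ((isClosed_tsupport χ).isOpen_compl.mem_nhds hq)
    have h1 : G χ A ℓ =ᶠ[𝓝 q] fun _ => (0 : ℝ) :=
      hnhds.mono fun q' hq' => G_eq_zero (image_eq_zero_of_notMem_tsupport hq')
    rw [B_congr h1]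
    have : B (fun _ : X × ℝ => (0 : ℝ)) q = 0 := by
      unfold B
      have h2 : fderiv ℝ (fun _ : X × ℝ => (0 : ℝ)) = fun _ => 0 := by
        ext1 x
        simp
      rw [h2]
      simp
    rw [this]
    simp only [zero_apply, abs_zero]
    positivity

/-- The second derivative of the profile in the fast variable. -/
lemma B_G_fast (hχ : ContDiff ℝ ∞ χ) (q : X × ℝ) :
    B (G χ A ℓ) q (0, 1) (0, 1) =
      χ q.1 * ((1 - sw (q.1.1 / ℓ)) * ddψ A q.2 + sw (q.1.1 / ℓ) * ddψ A (q.2 + 1 / 2)) := by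
  have hG : ContDiff ℝ ∞ (G χ A ℓ) := contDiff_G hχ
  have e1 : ∀ t : ℝ, q + t • ((0 : X), (1 : ℝ)) = (q.1, q.2 + t) := by
    intro t
    ext <;> simp
  have hline : ∀ t : ℝ, HasDerivAt (fun t : ℝ => G χ A ℓ (q + t • ((0 : X), (1 : ℝ))))
      (χ q.1 * ((1 - sw (q.1.1 / ℓ)) * dψ A (q.2 + t) +
        sw (q.1.1 / ℓ) * dψ A (q.2 + t + 1 / 2))) t := by
    intro t
    have h1 : HasDerivAt (fun t : ℝ => ψ A (q.2 + t)) (dψ A (q.2 + t)) t := by
      have := (hasDerivAt_ψ A (q.2 + t)).comp t ((hasDerivAt_id t).const_add q.2)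
      simpa [Function.comp_def] using this
    have h2 : HasDerivAt (fun t : ℝ => ψ A (q.2 + t + 1 / 2)) (dψ A (q.2 + t + 1 / 2)) t := by
      have := (hasDerivAt_ψ A (q.2 + t + 1 / 2)).comp t
        (((hasDerivAt_id t).const_add q.2).add_const (1 / 2))
      simpa [Function.comp_def] using this
    have h3 : HasDerivAt (fun t : ℝ => χ q.1 * ((1 - sw (q.1.1 / ℓ)) * ψ A (q.2 + t) +
        sw (q.1.1 / ℓ) * ψ A (q.2 + t + 1 / 2)))
        (χ q.1 * ((1 - sw (q.1.1 / ℓ)) * dψ A (q.2 + t) +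
        sw (q.1.1 / ℓ) * dψ A (q.2 + t + 1 / 2))) t :=
      ((h1.const_mul _).fun_add (h2.const_mul _)).const_mul _
    have e3 : (fun t : ℝ => G χ A ℓ (q + t • ((0 : X), (1 : ℝ)))) =
        fun t : ℝ => χ q.1 * ((1 - sw (q.1.1 / ℓ)) * ψ A (q.2 + t) +
        sw (q.1.1 / ℓ) * ψ A (q.2 + t + 1 / 2)) := by
      ext1 t
      rw [e1]
      rfl
    rw [e3]
    exact h3
  have hline2 : HasDerivAt (fun t : ℝ => χ q.1 * ((1 - sw (q.1.1 / ℓ)) * dψ A (q.2 + t) +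
        sw (q.1.1 / ℓ) * dψ A (q.2 + t + 1 / 2)))
      (χ q.1 * ((1 - sw (q.1.1 / ℓ)) * ddψ A (q.2 + 0) +
        sw (q.1.1 / ℓ) * ddψ A (q.2 + 0 + 1 / 2))) 0 := by
    have h1 : HasDerivAt (fun t : ℝ => dψ A (q.2 + t)) (ddψ A (q.2 + 0)) 0 := by
      have := (hasDerivAt_dψ A (q.2 + 0)).comp 0 ((hasDerivAt_id (0 : ℝ)).const_add q.2)
      simpa [Function.comp_def] using this
    have h2 : HasDerivAt (fun t : ℝ => dψ A (q.2 + t + 1 / 2)) (ddψ A (q.2 + 0 + 1 / 2)) 0 := by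
      have := (hasDerivAt_dψ A (q.2 + 0 + 1 / 2)).comp 0
        (((hasDerivAt_id (0 : ℝ)).const_add q.2).add_const (1 / 2))
      simpa [Function.comp_def] using this
    exact ((h1.const_mul _).fun_add (h2.const_mul _)).const_mul _
  have e2 : (fun t : ℝ => fderiv ℝ (G χ A ℓ) (q + t • ((0 : X), (1 : ℝ))) ((0 : X), (1 : ℝ))) =
      fun t : ℝ => χ q.1 * ((1 - sw (q.1.1 / ℓ)) * dψ A (q.2 + t) +
        sw (q.1.1 / ℓ) * dψ A (q.2 + t + 1 / 2)) := by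
    ext1 t
    exact (hasDerivAt_line hG q (0, 1) t).unique (hline t)
  have h3 := hasDerivAt_line2 hG q (0, 1) (0, 1) 0
  rw [e2] at h3
  have h4 := h3.unique hline2
  simpa using h4

end Q76.RemovableBlocks
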