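import Mathlib
import Pool.Agent.Q76.RemovableBlocks
import Pool.Agent.Q76.WadaSets

/-!
# The perturbation step
-/

namespace Q76.RemovableBlocks

open Filter Topology Set Metric Real MeasureTheory Q76.SecondDeriv
open scoped ContDiff Manifold

/-- `K` is covered by disjoint open sets of small diameter. -/
def Fine (ε : ℝ) (K : Set X) : Prop :=
  ∃ U : ℤ × ℤ × Bool → Set X, (∀ i, IsOpen (U i)) ∧ (∀ i j, i ≠ j → Disjoint (U i) (U j)) ∧
    (∀ i, ∀ x ∈ U i, ∀ y ∈ U i, dist x y ≤ ε) ∧ K ⊆ ⋃ i, U i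

/-- The bad set. -/
def bad (η ℓ h : ℝ) : Set X :=
  {p | (1 - η ≤ cos (2 * π * (p.2 / h)) ∧ -1 / 2 ≤ cos (2 * π * (p.1 / ℓ))) ∨
    (cos (2 * π * (p.2 / h)) ≤ -(1 - η) ∧ cos (2 * π * (p.1 / ℓ)) ≤ 1 / 2)}

lemma isClosed_bad (η ℓ h : ℝ) : IsClosed (bad η ℓ h) := by
  have h1 : Continuous fun p : X => cos (2 * π * (p.2 / h)) := by fun_prop
  have h2 : Continuous fun p : X => cos (2 * π * (p.1 / ℓ)) := by fun_prop
  exact ((isClosed_le continuous_const h1).inter (isClosed_le continuous_const h2)).union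
    ((isClosed_le h1 continuous_const).inter (isClosed_le h2 continuous_const))

lemma cos_sub_round (x : ℝ) : cos (2 * π * x) = cos (2 * π * |x - round x|) := by
  have h1 : cos (2 * π * |x - round x|) = cos (2 * π * (x - round x)) := by
    rw [← cos_abs (2 * π * (x - round x)), abs_mul, abs_of_pos (by positivity : 0 < 2 * π)]
  rw [h1, show 2 * π * (x - (round x : ℤ)) = 2 * π * x - (round x : ℤ) * (2 * π) by ring,
    cos_sub_int_mul_two_pi]

lemma exists_int_half {x : ℝ} (h : -1 < cos (2 * π * x)) : ∃ i : ℤ, |x - i| < 1 / 2 := by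
  refine ⟨round x, lt_of_le_of_ne (abs_sub_round x) fun heq => ?_⟩
  rw [cos_sub_round, heq, show 2 * π * (1 / 2) = π by ring, cos_pi] at h
  exact lt_irrefl _ h

lemma exists_int_quarter {x : ℝ} (h : 0 < cos (2 * π * x)) : ∃ i : ℤ, |x - i| < 1 / 4 := by
  refine ⟨round x, ?_⟩
  by_contra hcon
  push Not at hcon
  have h1 := abs_sub_round x
  rw [cos_sub_round] at h
  have h2 : cos (2 * π * |x - round x|) ≤ 0 := by
    apply cos_nonpos_of_pi_div_two_le_of_le
    · nlinarith [pi_pos]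
    · nlinarith [pi_pos]
  linarith

lemma fine_bad {ε η ℓ h : ℝ} (hℓ : 0 < ℓ) (hh : 0 < h) (hη : η < 1) (hℓε : ℓ ≤ ε) (hhε : h ≤ ε) :
    Fine ε (bad η ℓ h) := by
  refine ⟨fun i => {p | |p.1 / ℓ - (i.1 + if i.2.2 then 1 / 2 else 0)| < 1 / 2 ∧
    |p.2 / h - (i.2.1 + if i.2.2 then 1 / 2 else 0)| < 1 / 4}, fun i => ?_, fun i j hij => ?_,
    fun i x hx y hy => ?_, fun p hp => ?_⟩
  · have h1 : Continuous fun p : X => |p.1 / ℓ - (i.1 + if i.2.2 then 1 / 2 else 0)| := by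
      fun_prop
    have h2 : Continuous fun p : X => |p.2 / h - (i.2.1 + if i.2.2 then 1 / 2 else 0)| := by
      fun_prop
    exact (isOpen_lt h1 continuous_const).inter (isOpen_lt h2 continuous_const)
  · rw [Set.disjoint_left]
    rintro p ⟨h1, h2⟩ ⟨h3, h4⟩
    apply hij
    obtain ⟨i1, i2, i3⟩ := i
    obtain ⟨j1, j2, j3⟩ := j
    simp only at h1 h2 h3 h4
    rw [abs_lt] at h1 h2 h3 h4
    have h5 : i3 = j3 := by
      cases i3 <;> cases j3
      · rfl
      · exfalso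
        simp only [if_true, Bool.false_eq_true, if_false] at h2 h4
        have a1 : (i2 : ℝ) < j2 + 1 := by linarith [h2.1, h2.2, h4.1, h4.2]
        have a2 : (j2 : ℝ) < i2 := by linarith [h2.1, h2.2, h4.1, h4.2]
        have b1 : i2 < j2 + 1 := by exact_mod_cast a1
        have b2 : j2 < i2 := by exact_mod_cast a2
        omega
      · exfalso
        simp only [if_true, Bool.false_eq_true, if_false] at h2 h4
        have a1 : (j2 : ℝ) < i2 + 1 := by linarith [h2.1, h2.2, h4.1, h4.2]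
        have a2 : (i2 : ℝ) < j2 := by linarith [h2.1, h2.2, h4.1, h4.2]
        have b1 : j2 < i2 + 1 := by exact_mod_cast a1
        have b2 : i2 < j2 := by exact_mod_cast a2
        omega
      · rfl
    subst h5
    have a1 : (i1 : ℝ) < j1 + 1 := by linarith [h1.1, h1.2, h3.1, h3.2]
    have a2 : (j1 : ℝ) < i1 + 1 := by linarith [h1.1, h1.2, h3.1, h3.2]
    have a3 : (i2 : ℝ) < j2 + 1 := by linarith [h2.1, h2.2, h4.1, h4.2]
    have a4 : (j2 : ℝ) < i2 + 1 := by linarith [h2.1, h2.2, h4.1, h4.2]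
    have b1 : i1 < j1 + 1 := by exact_mod_cast a1
    have b2 : j1 < i1 + 1 := by exact_mod_cast a2
    have b3 : i2 < j2 + 1 := by exact_mod_cast a3
    have b4 : j2 < i2 + 1 := by exact_mod_cast a4
    have e1 : i1 = j1 := by omega
    have e2 : i2 = j2 := by omega
    rw [e1, e2]
  · obtain ⟨hx1, hx2⟩ := hx
    obtain ⟨hy1, hy2⟩ := hy
    rw [abs_lt] at hx1 hx2 hy1 hy2
    rw [Prod.dist_eq, max_le_iff, Real.dist_eq, Real.dist_eq]
    constructor
    · have h1 : |x.1 / ℓ - y.1 / ℓ| ≤ 1 := by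
        rw [abs_le]
        constructor <;> linarith [hx1.1, hx1.2, hy1.1, hy1.2]
      rw [← sub_div, abs_div, abs_of_pos hℓ, div_le_iff₀ hℓ] at h1
      linarith
    · have h1 : |x.2 / h - y.2 / h| ≤ 1 := by
        rw [abs_le]
        constructor <;> linarith [hx2.1, hx2.2, hy2.1, hy2.2]
      rw [← sub_div, abs_div, abs_of_pos hh, div_le_iff₀ hh] at h1
      linarith
  · rcases hp with ⟨h1, h2⟩ | ⟨h1, h2⟩
    · obtain ⟨i, hi⟩ := exists_int_half (x := p.1 / ℓ) (by linarith)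
      obtain ⟨j, hj⟩ := exists_int_quarter (x := p.2 / h) (by linarith)
      exact mem_iUnion.mpr ⟨(i, j, false), by simpa using hi, by simpa using hj⟩
    · have e : ∀ x : ℝ, cos (2 * π * (x - 1 / 2)) = -cos (2 * π * x) := by
        intro x
        rw [show 2 * π * (x - 1 / 2) = 2 * π * x - π by ring, cos_sub_pi]
      obtain ⟨i, hi⟩ := exists_int_half (x := p.1 / ℓ - 1 / 2) (by rw [e]; linarith)
      obtain ⟨j, hj⟩ := exists_int_quarter (x := p.2 / h - 1 / 2) (by rw [e]; linarith)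
      refine mem_iUnion.mpr ⟨(i, j, true), ?_, ?_⟩
      · show |p.1 / ℓ - (i + if true then 1 / 2 else 0)| < 1 / 2
        rw [if_pos rfl, show p.1 / ℓ - (i + 1 / 2) = p.1 / ℓ - 1 / 2 - i by ring]
        exact hi
      · show |p.2 / h - (j + if true then 1 / 2 else 0)| < 1 / 4
        rw [if_pos rfl, show p.2 / h - (j + 1 / 2) = p.2 / h - 1 / 2 - j by ring]
        exact hj

/-- The bad set has small area in the unit square. -/
lemma volume_bad_le {b ℓ : ℝ} (hb : 0 < b) (hb1 : b ≤ 1 / 2) {n : ℕ} (hn : 0 < n) :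
    volume (bad (b ^ 2) ℓ (2 / n) ∩ (Icc (0 : ℝ) 1 ×ˢ Icc (0 : ℝ) 1)) ≤ ENNReal.ofReal (4 * b) := by
  have hn0 : (0 : ℝ) < n := by exact_mod_cast hn
  have hsub : bad (b ^ 2) ℓ (2 / n) ∩ (Icc (0 : ℝ) 1 ×ˢ Icc (0 : ℝ) 1) ⊆
      Icc (0 : ℝ) 1 ×ˢ {s | s ∈ Icc (0 : ℝ) 1 ∧ ‖(((n : ℝ) * s : ℝ) : UnitAddCircle)‖ < b} := by
    rintro p ⟨hp, hp1, hp2⟩
    refine ⟨hp1, hp2, ?_⟩
    have e : 2 * π * (p.2 / (2 / n)) = π * (n * p.2) := by
      field_simp
    have hcos : (1 - b ^ 2) ^ 2 ≤ cos (π * (n * p.2)) ^ 2 := by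
      have hb2 : 0 ≤ 1 - b ^ 2 := by nlinarith
      rcases hp with ⟨h1, -⟩ | ⟨h1, -⟩
      · rw [e] at h1
        gcongr
      · rw [e] at h1
        nlinarith
    have hsin : sin (π * (n * p.2)) ^ 2 ≤ 2 * b ^ 2 := by
      rw [sin_sq]
      nlinarith [sq_nonneg (b ^ 2)]
    rw [UnitAddCircle.norm_eq]
    set y : ℝ := n * p.2 with hy
    have h3 : |sin (π * y)| = |sin (π * (y - round y))| := by
      rw [show π * (y - (round y : ℤ)) = π * y - (round y : ℤ) * π by ring, sin_sub_int_mul_pi,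
        abs_mul]
      simp
    have h4 : 2 * |y - round y| ≤ |sin (π * (y - round y))| := by
      have h5 : |π * (y - round y)| ≤ π / 2 := by
        rw [abs_mul, abs_of_pos pi_pos]
        have := abs_sub_round y
        nlinarith [pi_pos]
      have h6 := mul_abs_le_abs_sin h5
      rw [abs_mul, abs_of_pos pi_pos] at h6
      have h7 : 2 / π * (π * |y - round y|) = 2 * |y - round y| := by
        field_simp
      rwa [h7] at h6
    have h8 : (2 * |y - round y|) ^ 2 ≤ sin (π * y) ^ 2 := by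
      rw [← sq_abs (sin (π * y)), h3]
      gcongr
    have h9 : |y - round y| ^ 2 < b ^ 2 := by nlinarith [pow_pos hb 2]
    exact lt_of_pow_lt_pow_left₀ 2 hb.le h9
  calc volume (bad (b ^ 2) ℓ (2 / n) ∩ (Icc (0 : ℝ) 1 ×ˢ Icc (0 : ℝ) 1))
      ≤ volume (Icc (0 : ℝ) 1 ×ˢ
          {s | s ∈ Icc (0 : ℝ) 1 ∧ ‖(((n : ℝ) * s : ℝ) : UnitAddCircle)‖ < b}) :=
        measure_mono hsub
    _ = volume {s | s ∈ Icc (0 : ℝ) 1 ∧ ‖(((n : ℝ) * s : ℝ) : UnitAddCircle)‖ < b} := by
        rw [Measure.volume_eq_prod, Measure.prod_prod, Real.volume_Icc]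
        simp
    _ ≤ ENNReal.ofReal (4 * b) := Q76.WadaSets.volume_level n hn hb.le hb1

end Q76.RemovableBlocks
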