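import Mathlib
import Pool.Agent.Q76.RemovableStep

/-!
# The perturbation and the main step
-/

namespace Q76.RemovableBlocks

open Filter Topology Set Metric Real MeasureTheory Q76.SecondDeriv
open scoped ContDiff Manifold

/-- The linear map `p ↦ (p, p.2 / h)`. -/
noncomputable def Lh (h : ℝ) : X →L[ℝ] X × ℝ :=
  (ContinuousLinearMap.id ℝ X).prod ((1 / h) • ContinuousLinearMap.snd ℝ ℝ ℝ)

lemma Lh_apply (h : ℝ) (p : X) : Lh h p = (p, 1 / h * p.2) := by simp [Lh]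

/-- The perturbation. -/
noncomputable def pert (χ : X → ℝ) (A ℓ N h : ℝ) (p : X) : ℝ := N * h ^ 2 * G χ A ℓ (Lh h p)

variable {χ : X → ℝ} {A ℓ N h : ℝ}

lemma contDiff_pert (hχ : ContDiff ℝ ∞ χ) : ContDiff ℝ ∞ (pert χ A ℓ N h) := by
  unfold pert
  exact contDiff_const.mul ((contDiff_G hχ).comp (Lh h).contDiff)

/-- The main term. -/
noncomputable def Φ (χ : X → ℝ) (A ℓ h : ℝ) (p : X) : ℝ :=
  χ p * ((1 - sw (p.1 / ℓ)) * ddψ A (1 / h * p.2) + sw (p.1 / ℓ) * ddψ A (1 / h * p.2 + 1 / 2))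

lemma B_pert_ge (hχ : ContDiff ℝ ∞ χ) (hN : 0 ≤ N) (hh : 0 < h) (hh1 : h ≤ 1) {C : ℝ}
    (hC0 : 0 ≤ C) (hC : ∀ q d e, |B (G χ A ℓ) q d e| ≤ C * ‖d‖ * ‖e‖) (p d : X) :
    N * d.2 ^ 2 * Φ χ A ℓ h p - 3 * N * C * h * ‖d‖ ^ 2 ≤ B (pert χ A ℓ N h) p d d := by
  have hG : ContDiff ℝ ∞ (G χ A ℓ) := contDiff_G hχ
  have hGL : ContDiff ℝ ∞ (fun x => G χ A ℓ (Lh h x)) := hG.comp (Lh h).contDiff
  have e1 : B (pert χ A ℓ N h) p d d = N * h ^ 2 * B (G χ A ℓ) (Lh h p) (Lh h d) (Lh h d) := by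
    have h1 : B (pert χ A ℓ N h) p = (N * h ^ 2) • B (fun x => G χ A ℓ (Lh h x)) p :=
      B_const_mul hGL (N * h ^ 2) p
    rw [h1]
    simp only [smul_apply, smul_eq_mul]
    rw [B_comp hG]
  set P : X × ℝ := (d, 0) with hP
  set Q : X × ℝ := ((0 : X), (1 : ℝ)) with hQ
  set β : X × ℝ →L[ℝ] X × ℝ →L[ℝ] ℝ := B (G χ A ℓ) (Lh h p) with hβ
  have e2 : Lh h d = P + (d.2 / h) • Q := by
    rw [Lh_apply, hP, hQ]
    ext <;> simp [div_eq_inv_mul]
  have e3 : β (Lh h d) (Lh h d) = β P P + (d.2 / h) * (β P Q + β Q P) + (d.2 / h) ^ 2 * β Q Q := by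
    rw [e2]
    simp only [map_add, map_smul, add_apply, smul_apply,
      smul_eq_mul]
    ring
  have hPn : ‖P‖ = ‖d‖ := by rw [hP, Prod.norm_def]; simp
  have hQn : ‖Q‖ = 1 := by rw [hQ, Prod.norm_def]; simp
  have hPP : |β P P| ≤ C * ‖d‖ ^ 2 := by
    have := hC (Lh h p) P P
    rw [hPn] at this
    linarith [this, (by ring : C * ‖d‖ * ‖d‖ = C * ‖d‖ ^ 2)]
  have hPQ : |β P Q| ≤ C * ‖d‖ := by
    have := hC (Lh h p) P Q
    rwa [hPn, hQn, mul_one] at this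
  have hQP : |β Q P| ≤ C * ‖d‖ := by
    have := hC (Lh h p) Q P
    rwa [hPn, hQn, mul_one] at this
  have hQQ : β Q Q = Φ χ A ℓ h p := by
    rw [hβ, hQ, B_G_fast hχ]
    simp only [Lh_apply, Φ]
  have hd2 : |d.2| ≤ ‖d‖ := by
    rw [Prod.norm_def, ← Real.norm_eq_abs]
    exact le_max_right _ _
  have hdn : 0 ≤ ‖d‖ := norm_nonneg d
  have e4 : N * h ^ 2 * β (Lh h d) (Lh h d) =
      N * h ^ 2 * β P P + N * h * (d.2 * (β P Q + β Q P)) + N * d.2 ^ 2 * β Q Q := by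
    rw [e3]
    field_simp
  rw [e1, e4, hQQ]
  have h1 : -(N * h * (C * ‖d‖ ^ 2)) ≤ N * h ^ 2 * β P P := by
    have a1 : -(C * ‖d‖ ^ 2) ≤ β P P := (abs_le.mp hPP).1
    have a2 : N * h ^ 2 * (-(C * ‖d‖ ^ 2)) ≤ N * h ^ 2 * β P P := by
      apply mul_le_mul_of_nonneg_left a1 (by positivity)
    have a3 : N * h ^ 2 * (C * ‖d‖ ^ 2) ≤ N * h * (C * ‖d‖ ^ 2) := by
      apply mul_le_mul_of_nonneg_right _ (by positivity)
      nlinarith [mul_nonneg hN hh.le]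
    linarith
  have h2 : -(N * h * (2 * C * ‖d‖ ^ 2)) ≤ N * h * (d.2 * (β P Q + β Q P)) := by
    have a1 : |d.2 * (β P Q + β Q P)| ≤ ‖d‖ * (C * ‖d‖ + C * ‖d‖) := by
      rw [abs_mul]
      gcongr
      exact (abs_add_le _ _).trans (add_le_add hPQ hQP)
    have a2 : -(2 * C * ‖d‖ ^ 2) ≤ d.2 * (β P Q + β Q P) := by
      have := (abs_le.mp a1).1
      linarith [(by ring : ‖d‖ * (C * ‖d‖ + C * ‖d‖) = 2 * C * ‖d‖ ^ 2)]
    have a3 : N * h * (-(2 * C * ‖d‖ ^ 2)) ≤ N * h * (d.2 * (β P Q + β Q P)) :=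
      mul_le_mul_of_nonneg_left a2 (by positivity)
    linarith
  linarith

/-- Off the bad set the main term is large. -/
lemma Φ_ge {η : ℝ} (hη : 0 < η) (hη1 : η < 1) (hA : 2 / η ≤ A) {p : X} (hχ0 : 0 ≤ χ p)
    (hp : p ∉ bad η ℓ h) : χ p * ((2 * π) ^ 2 * A * exp (-A)) ≤ Φ χ A ℓ h p := by
  unfold Φ
  apply mul_le_mul_of_nonneg_left _ hχ0
  have e : p.2 / h = 1 / h * p.2 := by ring
  have hhalf : cos (2 * π * (1 / h * p.2 + 1 / 2)) = -cos (2 * π * (1 / h * p.2)) := by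
    rw [show 2 * π * (1 / h * p.2 + 1 / 2) = 2 * π * (1 / h * p.2) + π by ring, cos_add_pi]
  have hnot : ¬ ((1 - η ≤ cos (2 * π * (p.2 / h)) ∧ -1 / 2 ≤ cos (2 * π * (p.1 / ℓ))) ∨
    (cos (2 * π * (p.2 / h)) ≤ -(1 - η) ∧ cos (2 * π * (p.1 / ℓ)) ≤ 1 / 2)) := hp
  rw [e] at hnot
  push Not at hnot
  obtain ⟨h1, h2⟩ := hnot
  set κ : ℝ := (2 * π) ^ 2 * A * exp (-A) with hκ
  have hs0 := sw_nonneg (p.1 / ℓ)
  have hs1 := sw_le_one (p.1 / ℓ)
  by_cases ha : 1 - η ≤ cos (2 * π * (1 / h * p.2))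
  · have hsw : sw (p.1 / ℓ) = 1 := sw_eq_one (h1 ha)
    rw [hsw]
    have h3 := ddψ_ge hη hA (w := 1 / h * p.2 + 1 / 2) (by rw [hhalf]; linarith)
    linarith
  · by_cases hb : cos (2 * π * (1 / h * p.2)) ≤ -(1 - η)
    · have hsw : sw (p.1 / ℓ) = 0 := sw_eq_zero (h2 hb)
      rw [hsw]
      have h3 := ddψ_ge hη hA (w := 1 / h * p.2) (by linarith)
      linarith
    · push Not at ha hb
      have h3 := ddψ_ge hη hA (w := 1 / h * p.2) (by linarith)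
      have h4 := ddψ_ge hη hA (w := 1 / h * p.2 + 1 / 2) (by rw [hhalf]; linarith)
      calc κ = (1 - sw (p.1 / ℓ)) * κ + sw (p.1 / ℓ) * κ := by ring
        _ ≤ (1 - sw (p.1 / ℓ)) * ddψ A (1 / h * p.2) +
            sw (p.1 / ℓ) * ddψ A (1 / h * p.2 + 1 / 2) := by
            have : 0 ≤ 1 - sw (p.1 / ℓ) := by linarith
            gcongr

/-- Uniform positivity on compact sets. -/
lemma exists_lower_bound {f : X → ℝ} (hf : ContDiff ℝ ∞ f) {R : Set X} (hR : IsCompact R)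
    (hpos : ∀ p ∈ R, ∀ d ≠ 0, 0 < B f p d d) :
    ∃ lam > 0, ∀ p ∈ R, ∀ d, lam * ‖d‖ ^ 2 ≤ B f p d d := by
  rcases R.eq_empty_or_nonempty with rfl | hne
  · exact ⟨1, one_pos, fun p hp => absurd hp (notMem_empty p)⟩
  have hS : IsCompact (R ×ˢ sphere (0 : X) 1) := hR.prod (isCompact_sphere _ _)
  have hSne : (R ×ˢ sphere (0 : X) 1).Nonempty :=
    hne.prod ⟨((1 : ℝ), (0 : ℝ)), by simp [Prod.norm_def]⟩
  have hcont : Continuous fun q : X × X => B f q.1 q.2 q.2 :=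
    (((continuous_B hf).comp continuous_fst).clm_apply continuous_snd).clm_apply continuous_snd
  obtain ⟨q, hq, hmin⟩ := hS.exists_isMinOn hSne hcont.continuousOn
  have hq2 : q.2 ≠ 0 := by
    intro h0
    have := hq.2
    rw [h0] at this
    simp at this
  refine ⟨B f q.1 q.2 q.2, hpos q.1 hq.1 q.2 hq2, fun p hp d => ?_⟩
  by_cases hd : d = 0
  · simp [hd]
  have hdn : 0 < ‖d‖ := norm_pos_iff.mpr hd
  have h1 : B f q.1 q.2 q.2 ≤ B f p (‖d‖⁻¹ • d) (‖d‖⁻¹ • d) :=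
    hmin (show ((p, ‖d‖⁻¹ • d) : X × X) ∈ R ×ˢ sphere (0 : X) 1 from
      ⟨hp, by simp [norm_smul, hdn.ne']⟩)
  have h2 : B f p (‖d‖⁻¹ • d) (‖d‖⁻¹ • d) = B f p d d / ‖d‖ ^ 2 := by
    simp only [map_smul, smul_apply, smul_eq_mul]
    field_simp
  rw [h2, le_div_iff₀ (by positivity)] at h1
  exact h1

/-- The lower bound for the quadratic form in terms of the first coordinate. -/
lemma B_ge_of_bound {f : X → ℝ} {p : X} {c M : ℝ} (hc : c ≤ B f p (1, 0) (1, 0))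
    (hM : ∀ d e, |B f p d e| ≤ M * ‖d‖ * ‖e‖) (d : X) :
    c * d.1 ^ 2 - 2 * M * (|d.1| * |d.2|) - M * d.2 ^ 2 ≤ B f p d d := by
  set β : X →L[ℝ] X →L[ℝ] ℝ := B f p with hβ
  have e1 : d = d.1 • ((1 : ℝ), (0 : ℝ)) + d.2 • ((0 : ℝ), (1 : ℝ)) := by
    ext <;> simp
  have n1 : ‖((1 : ℝ), (0 : ℝ))‖ = 1 := by rw [Prod.norm_def]; simp
  have n2 : ‖((0 : ℝ), (1 : ℝ))‖ = 1 := by rw [Prod.norm_def]; simp
  have e2 : β d d = d.1 ^ 2 * β (1, 0) (1, 0) + d.1 * d.2 * (β (1, 0) (0, 1) + β (0, 1) (1, 0)) +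
      d.2 ^ 2 * β (0, 1) (0, 1) := by
    conv_lhs => rw [e1]
    simp only [map_add, map_smul, add_apply, smul_apply, smul_eq_mul]
    ring
  have h12 : |β (1, 0) (0, 1)| ≤ M := by
    have := hM (1, 0) (0, 1)
    rwa [n1, n2, mul_one, mul_one] at this
  have h21 : |β (0, 1) (1, 0)| ≤ M := by
    have := hM (0, 1) (1, 0)
    rwa [n1, n2, mul_one, mul_one] at this
  have h22 : |β (0, 1) (0, 1)| ≤ M := by
    have := hM (0, 1) (0, 1)
    rwa [n2, mul_one, mul_one] at this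
  rw [e2]
  have a1 : c * d.1 ^ 2 ≤ d.1 ^ 2 * β (1, 0) (1, 0) := by
    rw [mul_comm]
    exact mul_le_mul_of_nonneg_left hc (sq_nonneg _)
  have a2 : -(2 * M * (|d.1| * |d.2|)) ≤ d.1 * d.2 * (β (1, 0) (0, 1) + β (0, 1) (1, 0)) := by
    have h3 : |d.1 * d.2 * (β (1, 0) (0, 1) + β (0, 1) (1, 0))| ≤ |d.1| * |d.2| * (M + M) := by
      rw [abs_mul, abs_mul]
      gcongr
      exact (abs_add_le _ _).trans (add_le_add h12 h21)
    have := (abs_le.mp h3).1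
    linarith
  have a3 : -(M * d.2 ^ 2) ≤ d.2 ^ 2 * β (0, 1) (0, 1) := by
    have h3 := mul_le_mul_of_nonneg_left (abs_le.mp h22).1 (sq_nonneg d.2)
    linarith
  linarith

lemma norm_sq_le (d : X) : ‖d‖ ^ 2 ≤ d.1 ^ 2 + d.2 ^ 2 := by
  rw [Prod.norm_def, Real.norm_eq_abs, Real.norm_eq_abs]
  rcases max_cases |d.1| |d.2| with ⟨h, -⟩ | ⟨h, -⟩ <;> rw [h, sq_abs] <;>
    nlinarith [sq_nonneg d.1, sq_nonneg d.2]

lemma quad_pos {c M μ x y n2 q1 q2 : ℝ} (hc : 0 < c) (hμ0 : 0 ≤ μ) (hμc : μ ≤ c / 4)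
    (hμ1 : μ ≤ 1) (hxy : ¬ (x = 0 ∧ y = 0)) (hn : n2 ≤ x ^ 2 + y ^ 2)
    (h1 : c * x ^ 2 - 2 * M * (|x| * |y|) - M * y ^ 2 ≤ q1)
    (h2 : (M + 2 + 2 * M ^ 2 / c) * y ^ 2 - μ * n2 ≤ q2) : 0 < q1 + q2 := by
  have h4 : μ * n2 ≤ c / 4 * x ^ 2 + 1 * y ^ 2 := by
    calc μ * n2 ≤ μ * (x ^ 2 + y ^ 2) := by gcongr
      _ = μ * x ^ 2 + μ * y ^ 2 := by ring
      _ ≤ c / 4 * x ^ 2 + 1 * y ^ 2 := by gcongr
  have h5 : 2 * M * (|x| * |y|) ≤ c / 2 * x ^ 2 + 2 * M ^ 2 / c * y ^ 2 := by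
    have h6 : 0 ≤ (c * |x| - 2 * M * |y|) ^ 2 := sq_nonneg _
    have h7 : c * (2 * M * (|x| * |y|)) ≤ c * (c / 2 * x ^ 2 + 2 * M ^ 2 / c * y ^ 2) := by
      have e1 : c * (c / 2 * x ^ 2 + 2 * M ^ 2 / c * y ^ 2) =
          c ^ 2 / 2 * |x| ^ 2 + 2 * M ^ 2 * |y| ^ 2 := by
        rw [sq_abs, sq_abs]
        field_simp
      rw [e1]
      nlinarith
    exact le_of_mul_le_mul_left h7 hc
  have h8 : 0 < c / 4 * x ^ 2 + y ^ 2 := by
    by_contra hcon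
    push Not at hcon
    have a1 : x ^ 2 = 0 := by nlinarith [sq_nonneg x, sq_nonneg y]
    have a2 : y ^ 2 = 0 := by nlinarith [sq_nonneg x, sq_nonneg y]
    exact hxy ⟨by simpa using a1, by simpa using a2⟩
  nlinarith

lemma B_zero (p : X) : B (fun _ : X => (0 : ℝ)) p = 0 := by
  unfold B
  have h2 : fderiv ℝ (fun _ : X => (0 : ℝ)) = fun _ => 0 := by
    ext1 x
    simp
  rw [h2]
  simp

/-- The open unit square. -/
def S : Set X := Ioo (0 : ℝ) 1 ×ˢ Ioo (0 : ℝ) 1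

/-- **The perturbation step.** -/
theorem step {f : X → ℝ} (hf : ContDiff ℝ ∞ f) {K : Set X} (hK : IsCompact K) (hKS : K ⊆ S)
    {c : ℝ} (hc : 0 < c) (huu : ∀ p, c ≤ B f p (1, 0) (1, 0))
    (hpos : ∀ p ∉ K, ∀ d ≠ 0, 0 < B f p d d) {ε : ℝ} (hε : 0 < ε) :
    ∃ (f' : X → ℝ) (K' : Set X), ContDiff ℝ ∞ f' ∧ IsCompact K' ∧ K' ⊆ S ∧
      K' ⊆ thickening ε K ∧ (∀ p, |f' p - f p| ≤ ε) ∧ (∀ p ∉ thickening ε K, f' p = f p) ∧
      (∀ p, c - ε ≤ B f' p (1, 0) (1, 0)) ∧ (∀ p ∉ K', ∀ d ≠ 0, 0 < B f' p d d) ∧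
      volume K' ≤ ENNReal.ofReal ε ∧ Fine ε K' := by
  -- the cut-off function
  have hSo : IsOpen S := isOpen_Ioo.prod isOpen_Ioo
  obtain ⟨δ, hδ, hδT⟩ := hK.exists_cthickening_subset_open (isOpen_thickening.inter hSo)
    (subset_inter (self_subset_thickening hε K) hKS)
  obtain ⟨χ, hχ1, hχ0, hχI⟩ := exists_contMDiffMap_one_nhds_of_subset_interior (n := ⊤)
    (𝓘(ℝ, X)) hK.isClosed ((self_subset_thickening hδ K).trans
      (interior_maximal (thickening_subset_cthickening δ K) isOpen_thickening))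
  have hχs : ContDiff ℝ ∞ χ := χ.contMDiff.contDiff
  have htK : IsCompact (cthickening δ K) := hK.cthickening
  have htsub : tsupport χ ⊆ cthickening δ K := by
    apply closure_minimal _ isClosed_cthickening
    intro x hx
    by_contra hcon
    exact hx (hχ0 x hcon)
  have hχc : HasCompactSupport χ := htK.of_isClosed_subset (isClosed_tsupport _) htsub
  obtain ⟨V, hVo, hKV, hV1⟩ := eventually_nhdsSet_iff_exists.mp hχ1
  have hχn : ∀ p, 0 ≤ χ p := fun p => (hχI p).1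
  have hχle : ∀ p, χ p ≤ 1 := fun p => (hχI p).2
  -- constants
  obtain ⟨lam, hlam, hR⟩ := exists_lower_bound hf (R := tsupport χ \ V)
    (hχc.isCompact.diff hVo) (fun p hp => hpos p fun hpK => hp.2 (hKV hpK))
  obtain ⟨M, hM0, hM⟩ := exists_bound_B hf hχc.isCompact
  set b : ℝ := min (ε / 4) (1 / 2) with hb
  have hb0 : 0 < b := by positivity
  have hb1 : b ≤ 1 / 2 := min_le_right _ _
  have hbε : 4 * b ≤ ε := by
    have := min_le_left (ε / 4) (1 / 2)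
    linarith
  have hη0 : 0 < b ^ 2 := by positivity
  have hη1 : b ^ 2 < 1 := by nlinarith
  set A : ℝ := 2 / b ^ 2 with hA
  have hA0 : 0 < A := by positivity
  set κ : ℝ := (2 * π) ^ 2 * A * exp (-A) with hκ
  have hκ0 : 0 < κ := by positivity
  obtain ⟨C, hC0, hC⟩ := exists_bound_G (A := A) (ℓ := ε) hχs hχc
  set N : ℝ := (M + 2 + 2 * M ^ 2 / c) / κ with hN
  have hN0 : 0 ≤ N := by positivity
  have hNκ : N * κ = M + 2 + 2 * M ^ 2 / c := by
    rw [hN]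
    field_simp
  set μ : ℝ := min (min (lam / 2) (c / 4)) (min 1 ε) with hμ
  have hμ0 : 0 < μ := by positivity
  set T : ℝ := 1 + 3 * N * C + N * exp A with hT
  have hT1 : 1 ≤ T := by
    have : 0 ≤ 3 * N * C + N * exp A := by positivity
    rw [hT]; linarith
  obtain ⟨n, hn⟩ := exists_nat_gt (2 * T / μ)
  have hn0 : (0 : ℝ) < n := lt_of_le_of_lt (by positivity) hn
  have hn0' : 0 < n := by exact_mod_cast hn0
  set h : ℝ := 2 / n with hh
  have hh0 : 0 < h := by positivity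
  have hTh : T * h ≤ μ := by
    rw [div_lt_iff₀ hμ0] at hn
    rw [hh, ← mul_div_assoc, div_le_iff₀ hn0]
    linarith
  have hμ1 : μ ≤ 1 := (min_le_right _ _).trans (min_le_left _ _)
  have hμε : μ ≤ ε := (min_le_right _ _).trans (min_le_right _ _)
  have hμl : μ ≤ lam / 2 := (min_le_left _ _).trans (min_le_left _ _)
  have hμc : μ ≤ c / 4 := (min_le_left _ _).trans (min_le_right _ _)
  have hhμ : h ≤ μ := by nlinarith
  have hτ : 3 * N * C * h ≤ μ := by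
    refine le_trans ?_ hTh
    apply mul_le_mul_of_nonneg_right _ hh0.le
    have : 0 ≤ N * exp A := by positivity
    rw [hT]; linarith
  have hNe : N * exp A * h ≤ μ := by
    refine le_trans ?_ hTh
    apply mul_le_mul_of_nonneg_right _ hh0.le
    have : 0 ≤ 3 * N * C := by positivity
    rw [hT]; linarith
  have hh1 : h ≤ 1 := hhμ.trans hμ1
  -- the new function and the new bad set
  have hps : ContDiff ℝ ∞ (pert χ A ε N h) := contDiff_pert hχs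
  have hB : ∀ p, B (fun x => f x + pert χ A ε N h x) p = B f p + B (pert χ A ε N h) p :=
    B_add hf hps
  have hBp : ∀ p d, N * d.2 ^ 2 * Φ χ A ε h p - μ * ‖d‖ ^ 2 ≤ B (pert χ A ε N h) p d d := by
    intro p d
    have h1 := B_pert_ge (A := A) (ℓ := ε) hχs hN0 hh0 hh1 hC0 hC p d
    have h2 : 3 * N * C * h * ‖d‖ ^ 2 ≤ μ * ‖d‖ ^ 2 := by gcongr
    linarith
  have hoff : ∀ p ∉ tsupport χ, pert χ A ε N h p = 0 := by
    intro p hp
    have h1 : χ p = 0 := image_eq_zero_of_notMem_tsupport hp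
    unfold pert
    rw [Lh_apply, G_eq_zero (by simpa using h1), mul_zero]
  refine ⟨fun x => f x + pert χ A ε N h x, tsupport χ ∩ bad (b ^ 2) ε h, hf.add hps,
    hχc.isCompact.inter_right (isClosed_bad _ _ _), ?_, ?_, ?_, ?_, ?_, ?_, ?_, ?_⟩
  · exact fun p hp => (hδT (htsub hp.1)).2
  · exact fun p hp => (hδT (htsub hp.1)).1
  · intro p
    have h1 : |G χ A ε (Lh h p)| ≤ exp A := abs_G_le hA0.le hχn hχle _
    calc |f p + pert χ A ε N h p - f p| = |N * h ^ 2 * G χ A ε (Lh h p)| := by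
          rw [add_sub_cancel_left]; rfl
      _ = N * h ^ 2 * |G χ A ε (Lh h p)| := by
          rw [abs_mul, abs_of_nonneg (by positivity : 0 ≤ N * h ^ 2)]
      _ ≤ N * h ^ 2 * exp A := by gcongr
      _ = (N * exp A * h) * h := by ring
      _ ≤ μ * 1 := by gcongr
      _ ≤ ε := by linarith
  · intro p hp
    have h1 : p ∉ tsupport χ := fun hcon => hp (hδT (htsub hcon)).1
    show f p + pert χ A ε N h p = f p
    rw [hoff p h1, add_zero]
  · intro p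
    rw [hB]
    simp only [add_apply]
    have h1 := hBp p (1, 0)
    have n1 : ‖((1 : ℝ), (0 : ℝ))‖ = 1 := by rw [Prod.norm_def]; simp
    rw [n1] at h1
    simp only [one_pow, mul_one, ne_eq, OfNat.ofNat_ne_zero, not_false_eq_true, zero_pow,
      mul_zero, zero_mul, zero_sub] at h1
    have := huu p
    linarith
  · intro p hp d hd
    rw [hB]
    simp only [add_apply]
    have hdn : 0 < ‖d‖ := norm_pos_iff.mpr hd
    by_cases hpt : p ∈ tsupport χ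
    · have hpbad : p ∉ bad (b ^ 2) ε h := fun hcon => hp ⟨hpt, hcon⟩
      have hΦ := Φ_ge (χ := χ) (η := b ^ 2) (ℓ := ε) (h := h) hη0 hη1 (le_of_eq hA.symm) (hχn p)
        hpbad
      have hb1 := hBp p d
      by_cases hpV : p ∈ V
      · have hχ1' : χ p = 1 := hV1 p hpV
        rw [hχ1', one_mul] at hΦ
        have h1 := B_ge_of_bound (huu p) (fun d e => hM p hpt d e) d
        have h2 : (M + 2 + 2 * M ^ 2 / c) * d.2 ^ 2 ≤ N * d.2 ^ 2 * Φ χ A ε h p := by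
          rw [← hNκ]
          have h3 : N * d.2 ^ 2 * κ ≤ N * d.2 ^ 2 * Φ χ A ε h p := by gcongr
          linarith
        refine quad_pos hc hμ0.le hμc hμ1 ?_ (norm_sq_le d) h1 (q2 := B (pert χ A ε N h) p d d) ?_
        · intro hcon
          apply hd
          ext
          · exact hcon.1
          · exact hcon.2
        · linarith
      · have h1 := hR p ⟨hpt, hpV⟩ d
        have h2 : 0 ≤ N * d.2 ^ 2 * Φ χ A ε h p := by
          have : 0 ≤ Φ χ A ε h p := le_trans (by have := hχn p; positivity) hΦ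
          positivity
        have h3 : μ * ‖d‖ ^ 2 ≤ lam / 2 * ‖d‖ ^ 2 := by gcongr
        have h4 : 0 < lam / 2 * ‖d‖ ^ 2 := by positivity
        linarith
    · have h0 : ∀ᶠ q in 𝓝 p, q ∈ (tsupport χ)ᶜ := (isClosed_tsupport χ).isOpen_compl.mem_nhds hpt
      have h1 : pert χ A ε N h =ᶠ[𝓝 p] fun _ => (0 : ℝ) := h0.mono fun q hq => hoff q hq
      have h2 : B (pert χ A ε N h) p = 0 := by
        rw [B_congr h1, B_zero]
      rw [h2]
      simp only [zero_apply, add_zero]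
      exact hpos p (fun hpK => hpt (subset_tsupport _ (by
        rw [Function.mem_support, hV1 p (hKV hpK)]
        exact one_ne_zero))) d hd
  · have hsub : tsupport χ ∩ bad (b ^ 2) ε h ⊆
        bad (b ^ 2) ε (2 / n) ∩ (Icc (0 : ℝ) 1 ×ˢ Icc (0 : ℝ) 1) := by
      intro p hp
      have hpS : p ∈ S := (hδT (htsub hp.1)).2
      exact ⟨hp.2, ⟨hpS.1.1.le, hpS.1.2.le⟩, ⟨hpS.2.1.le, hpS.2.2.le⟩⟩
    exact (measure_mono hsub).trans ((volume_bad_le hb0 hb1 hn0').trans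
      (ENNReal.ofReal_le_ofReal hbε))
  · obtain ⟨U, hU1, hU2, hU3, hU4⟩ := fine_bad (ε := ε) (η := b ^ 2) (ℓ := ε) (h := h) hε hh0
      hη1 le_rfl (hhμ.trans hμε)
    exact ⟨U, hU1, hU2, hU3, inter_subset_right.trans hU4⟩

end Q76.RemovableBlocks
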