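import Mathlib
import Pool.Agent.Q76.RemovablePert

/-!
# Iteration of the perturbation step and the limit function
-/

namespace Q76.RemovableBlocks

open Filter Topology Set Metric Real MeasureTheory Q76.SecondDeriv
open scoped ContDiff ENNReal

/-- The objects of the iteration. -/
structure State where
  n : ℕ
  f : X → ℝ
  K : Set X
  r : ℝ
  hr : 0 < r
  smooth : ContDiff ℝ ∞ f
  cpt : IsCompact K
  sub : K ⊆ S
  uu : ∀ p, 1 + (1 / 2 : ℝ) ^ n ≤ B f p (1, 0) (1, 0)
  pos : ∀ p ∉ K, ∀ d ≠ 0, 0 < B f p d d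
  vol : volume (cthickening r K) ≤ ENNReal.ofReal ((1 / 2) ^ n)
  fine : Fine ((1 / 2) ^ n) (cthickening r K)

theorem exists_next (n : ℕ) {f : X → ℝ} {K : Set X} {r : ℝ} (hr : 0 < r) (hf : ContDiff ℝ ∞ f)
    (hK : IsCompact K) (hKS : K ⊆ S) (huu : ∀ p, 1 + (1 / 2 : ℝ) ^ n ≤ B f p (1, 0) (1, 0))
    (hpos : ∀ p ∉ K, ∀ d ≠ 0, 0 < B f p d d) :
    ∃ s : State, s.n = n + 1 ∧ (∀ p, |s.f p - f p| ≤ (1 / 2) ^ (n + 3)) ∧
      (∀ p ∉ cthickening r K, s.f p = f p) ∧ cthickening s.r s.K ⊆ cthickening r K := by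
  set ε : ℝ := min ((1 / 2) ^ (n + 3)) r with hε
  have hε0 : 0 < ε := by positivity
  have hε1 : ε ≤ (1 / 2) ^ (n + 3) := min_le_left _ _
  have hpow : (1 / 2 : ℝ) ^ (n + 3) = (1 / 2) ^ n / 8 := by
    rw [pow_add]; norm_num; ring
  have hpow1 : (1 / 2 : ℝ) ^ (n + 1) = (1 / 2) ^ n / 2 := by
    rw [pow_succ]; ring
  have hpn : 0 < (1 / 2 : ℝ) ^ n := by positivity
  obtain ⟨f', K', hf', hK', hK'S, hK'K, hff', hoff, huu', hpos', hvol', U, hU1, hU2, hU3, hU4⟩ :=
    step hf hK hKS (c := 1 + (1 / 2) ^ n) (by positivity) huu hpos hε0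
  have hlim := tendsto_measure_cthickening_of_isCompact (μ := (volume : Measure X)) hK'
  have hlt : volume K' < ENNReal.ofReal ((1 / 2) ^ (n + 1)) := by
    refine hvol'.trans_lt ((ENNReal.ofReal_lt_ofReal_iff (by positivity)).mpr ?_)
    rw [hpow] at hε1
    rw [hpow1]
    linarith
  obtain ⟨δ₁, hδ₁, hvol₁⟩ : ∃ δ > 0, ∀ r, 0 < r → r < δ →
      volume (cthickening r K') < ENNReal.ofReal ((1 / 2) ^ (n + 1)) := by
    have h1 := hlim.eventually (gt_mem_nhds hlt)
    obtain ⟨δ, hδ, h2⟩ := Metric.eventually_nhds_iff.mp h1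
    exact ⟨δ, hδ, fun r hr1 hr2 => h2 (by rw [Real.dist_eq, sub_zero, abs_of_pos hr1]; exact hr2)⟩
  have hopen : IsOpen (⋃ i, U i) := isOpen_iUnion hU1
  obtain ⟨δ₂, hδ₂, hsub₂⟩ := hK'.exists_cthickening_subset_open hopen hU4
  obtain ⟨δ₃, hδ₃, hsub₃⟩ := hK'.exists_cthickening_subset_open
    (isOpen_thickening (δ := r) (E := K)) (hK'K.trans (thickening_mono (min_le_right _ _) K))
  set r' : ℝ := min (δ₁ / 2) (min δ₂ δ₃) with hr'
  have hr'0 : 0 < r' := by positivity
  have hr'1 : r' < δ₁ := lt_of_le_of_lt (min_le_left _ _) (by linarith)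
  have hr'2 : r' ≤ δ₂ := (min_le_right _ _).trans (min_le_left _ _)
  have hr'3 : r' ≤ δ₃ := (min_le_right _ _).trans (min_le_right _ _)
  refine ⟨⟨n + 1, f', K', r', hr'0, hf', hK', hK'S, fun p => ?_, hpos', (hvol₁ r' hr'0 hr'1).le,
    U, hU1, hU2, fun i x hx y hy => (hU3 i x hx y hy).trans ?_,
    (cthickening_mono hr'2 K').trans hsub₂⟩, rfl, fun p => (hff' p).trans hε1, fun p hp => ?_,
    (cthickening_mono hr'3 K').trans (hsub₃.trans (thickening_subset_cthickening r K))⟩
  · have := huu' p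
    rw [hpow] at hε1
    rw [hpow1]
    linarith
  · rw [hpow] at hε1
    rw [hpow1]
    linarith
  · apply hoff
    intro hcon
    exact hp (thickening_subset_cthickening_of_le (min_le_right _ _) K hcon)

theorem State.exists_next (s : State) : ∃ t : State, t.n = s.n + 1 ∧
    (∀ p, |t.f p - s.f p| ≤ (1 / 2) ^ (s.n + 3)) ∧
    (∀ p ∉ cthickening s.r s.K, t.f p = s.f p) ∧
    cthickening t.r t.K ⊆ cthickening s.r s.K :=
  Q76.RemovableBlocks.exists_next s.n s.hr s.smooth s.cpt s.sub s.uu s.pos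

/-- The next state. -/
noncomputable def State.next (s : State) : State := s.exists_next.choose

lemma State.next_n (s : State) : s.next.n = s.n + 1 := s.exists_next.choose_spec.1

lemma State.next_close (s : State) (p : X) : |s.next.f p - s.f p| ≤ (1 / 2) ^ (s.n + 3) :=
  s.exists_next.choose_spec.2.1 p

lemma State.next_off (s : State) {p : X} (hp : p ∉ cthickening s.r s.K) : s.next.f p = s.f p :=
  s.exists_next.choose_spec.2.2.1 p hp

lemma State.next_sub (s : State) : cthickening s.next.r s.next.K ⊆ cthickening s.r s.K :=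
  s.exists_next.choose_spec.2.2.2

/-- The sequence of states. -/
noncomputable def State.seq (s : State) : ℕ → State
  | 0 => s
  | k + 1 => (s.seq k).next

variable (s : State)

lemma State.seq_n (k : ℕ) : (s.seq k).n = s.n + k := by
  induction k with
  | zero => rfl
  | succ k ih =>
    show (s.seq k).next.n = _
    rw [State.next_n, ih]
    ring

/-- The closed neighbourhoods. -/
def State.L (k : ℕ) : Set X := cthickening (s.seq k).r (s.seq k).K

lemma State.L_anti : Antitone s.L := antitone_nat_of_succ_le fun k => (s.seq k).next_sub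

/-- The exceptional set. -/
def State.E : Set X := ⋂ k, s.L k

lemma State.isCompact_L (k : ℕ) : IsCompact (s.L k) := (s.seq k).cpt.cthickening

lemma State.isCompact_E : IsCompact s.E :=
  (s.isCompact_L 0).of_isClosed_subset (isClosed_iInter fun k => isClosed_cthickening)
    (iInter_subset _ 0)

lemma State.volume_E : volume s.E = 0 := by
  have h1 : ∀ k, volume s.E ≤ ENNReal.ofReal ((1 / 2) ^ k) := by
    intro k
    refine (measure_mono (iInter_subset _ k)).trans ((s.seq k).vol.trans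
      (ENNReal.ofReal_le_ofReal ?_))
    rw [s.seq_n]
    exact pow_le_pow_of_le_one (by norm_num) (by norm_num) (Nat.le_add_left _ _)
  have h2 : Tendsto (fun k : ℕ => ENNReal.ofReal ((1 / 2) ^ k)) atTop (𝓝 0) := by
    rw [← ENNReal.ofReal_zero]
    exact ENNReal.tendsto_ofReal
      (tendsto_pow_atTop_nhds_zero_of_lt_one (by norm_num) (by norm_num))
  exact le_antisymm (ge_of_tendsto' h2 h1) zero_le

lemma dist_le_of_fine {ε : ℝ} {K T : Set X} (hK : Fine ε K) (hT : IsPreconnected T) (hTK : T ⊆ K)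
    {x y : X} (hx : x ∈ T) (hy : y ∈ T) : dist x y ≤ ε := by
  obtain ⟨U, hU1, hU2, hU3, hU4⟩ := hK
  obtain ⟨i, hi⟩ := mem_iUnion.mp (hU4 (hTK hx))
  have hsub : T ⊆ U i := by
    refine hT.subset_left_of_subset_union (hU1 i)
      (isOpen_iUnion fun j : {j // j ≠ i} => hU1 j) ?_ ?_ ⟨x, hx, hi⟩
    · rw [Set.disjoint_iUnion_right]
      exact fun j => hU2 i j j.2.symm
    · intro z hz
      obtain ⟨j, hj⟩ := mem_iUnion.mp (hU4 (hTK hz))
      by_cases hji : j = i
      · exact Or.inl (hji ▸ hj)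
      · exact Or.inr (mem_iUnion.mpr ⟨⟨j, hji⟩, hj⟩)
  exact hU3 i x (hsub hx) y (hsub hy)

lemma State.isTotallyDisconnected_E : IsTotallyDisconnected s.E := by
  intro T hTE hT x hx y hy
  have h1 : ∀ k : ℕ, dist x y ≤ (1 / 2) ^ k := by
    intro k
    have h2 := dist_le_of_fine (s.seq k).fine hT (hTE.trans (iInter_subset _ k)) hx hy
    refine h2.trans ?_
    rw [s.seq_n]
    exact pow_le_pow_of_le_one (by norm_num) (by norm_num) (Nat.le_add_left _ _)
  have h2 := ge_of_tendsto' (tendsto_pow_atTop_nhds_zero_of_lt_one (r := (1 / 2 : ℝ))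
    (by norm_num) (by norm_num)) h1
  exact dist_le_zero.mp h2

/-- The limit function. -/
noncomputable def State.F (p : X) : ℝ := s.f p + ∑' k, ((s.seq (k + 1)).f p - (s.seq k).f p)

lemma State.abs_diff_le (k : ℕ) (p : X) :
    |(s.seq (k + 1)).f p - (s.seq k).f p| ≤ (1 / 2) ^ k * (1 / 8 * (1 / 2) ^ s.n) := by
  refine ((s.seq k).next_close p).trans (le_of_eq ?_)
  rw [s.seq_n, pow_add, pow_add]
  norm_num
  ring

lemma State.continuous_F : Continuous s.F := by
  unfold State.F
  refine s.smooth.continuous.add (continuous_tsum (fun k =>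
    (s.seq (k + 1)).smooth.continuous.sub (s.seq k).smooth.continuous)
    (summable_geometric_two.mul_right (1 / 8 * (1 / 2) ^ s.n)) fun k p => ?_)
  rw [Real.norm_eq_abs]
  exact s.abs_diff_le k p

lemma State.abs_F_sub_le (p : X) : |s.F p - s.f p| ≤ 1 / 4 * (1 / 2) ^ s.n := by
  unfold State.F
  rw [add_sub_cancel_left, ← Real.norm_eq_abs]
  have h1 := tsum_of_norm_bounded (f := fun k => (s.seq (k + 1)).f p - (s.seq k).f p)
    (summable_geometric_two.mul_right (1 / 8 * (1 / 2) ^ s.n)).hasSum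
    (fun k => by rw [Real.norm_eq_abs]; exact s.abs_diff_le k p)
  rw [tsum_mul_right, tsum_geometric_two] at h1
  linarith

lemma State.F_eq {k : ℕ} {p : X} (hp : p ∉ s.L k) : s.F p = (s.seq k).f p := by
  have h1 : ∀ j, k ≤ j → (s.seq (j + 1)).f p = (s.seq j).f p := fun j hj =>
    (s.seq j).next_off fun hcon => hp (s.L_anti hj hcon)
  unfold State.F
  rw [tsum_eq_sum (s := Finset.range k) fun j hj => by
    rw [h1 j (by simpa using hj), sub_self]]
  rw [Finset.sum_range_sub (fun j => (s.seq j).f p)]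
  show s.f p + ((s.seq k).f p - s.f p) = _
  ring

/-- The limit function is locally convex off the exceptional set. -/
lemma State.locally_convex {p : X} (hp : p ∉ s.E) :
    ∃ V ⊆ s.Eᶜ, IsOpen V ∧ Convex ℝ V ∧ p ∈ V ∧ ConvexOn ℝ V s.F := by
  obtain ⟨k, hk⟩ : ∃ k, p ∉ s.L k := by
    by_contra hcon
    push Not at hcon
    exact hp (mem_iInter.mpr hcon)
  obtain ⟨ε, hε, hball⟩ := Metric.isOpen_iff.mp (s.isCompact_L k).isClosed.isOpen_compl p hk
  refine ⟨ball p ε, fun q hq hqE => hball hq (mem_iInter.mp hqE k), isOpen_ball,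
    convex_ball p ε, mem_ball_self hε, ?_⟩
  have h1 : ConvexOn ℝ (ball p ε) (s.seq k).f := by
    refine convexOn_of_B (convex_ball p ε) (s.seq k).smooth fun q hq d => ?_
    by_cases hd : d = 0
    · simp [hd]
    · exact ((s.seq k).pos q (fun hqK => hball hq
        (self_subset_cthickening _ hqK)) d hd).le
  exact h1.congr fun q hq => (s.F_eq (hball hq)).symm

end Q76.RemovableBlocks
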