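import Mathlib
import Pool.Agent.Q76.RemovableLimit

/-!
# The initial function and the main theorem in `ℝ × ℝ`
-/

namespace Q76.RemovableBlocks

open Filter Topology Set Metric Real MeasureTheory Q76.SecondDeriv
open scoped ContDiff ENNReal

/-- The quadratic part. -/
def quad (C : ℝ) (p : X) : ℝ := C * p.1 ^ 2 + p.2 ^ 2

lemma contDiff_quad (C : ℝ) : ContDiff ℝ ∞ (quad C) := by
  unfold quad
  exact (contDiff_const.mul (contDiff_fst.pow 2)).add (contDiff_snd.pow 2)

lemma B_quad (C : ℝ) (p d : X) : B (quad C) p d d = 2 * C * d.1 ^ 2 + 2 * d.2 ^ 2 := by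
  have hs := contDiff_quad C
  have h0 : ∀ (a b t : ℝ), HasDerivAt (fun t : ℝ => a + t * b) b t := by
    intro a b t
    simpa using ((hasDerivAt_id t).mul_const b).const_add a
  have hline : ∀ t : ℝ, HasDerivAt (fun t : ℝ => quad C (p + t • d))
      (C * (2 * (p.1 + t * d.1) * d.1) + 2 * (p.2 + t * d.2) * d.2) t := by
    intro t
    have e : (fun t : ℝ => quad C (p + t • d)) =
        fun t : ℝ => C * (p.1 + t * d.1) ^ 2 + (p.2 + t * d.2) ^ 2 := by
      ext1 t
      simp [quad]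
    rw [e]
    have h1 := ((h0 p.1 d.1 t).fun_pow 2).const_mul C
    have h2 := (h0 p.2 d.2 t).fun_pow 2
    refine (h1.fun_add h2).congr_deriv ?_
    push_cast
    ring
  have e2 : (fun t : ℝ => fderiv ℝ (quad C) (p + t • d) d) =
      fun t : ℝ => C * (2 * (p.1 + t * d.1) * d.1) + 2 * (p.2 + t * d.2) * d.2 := by
    ext1 t
    exact (hasDerivAt_line hs p d t).unique (hline t)
  have h3 := hasDerivAt_line2 hs p d d 0
  rw [e2] at h3
  have h4 : HasDerivAt (fun t : ℝ => C * (2 * (p.1 + t * d.1) * d.1) + 2 * (p.2 + t * d.2) * d.2)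
      (C * (2 * d.1 * d.1) + 2 * d.2 * d.2) 0 := by
    have h1 := (((h0 p.1 d.1 0).const_mul 2).mul_const d.1).const_mul C
    have h2 := ((h0 p.2 d.2 0).const_mul 2).mul_const d.2
    exact h1.fun_add h2
  have h5 := h3.unique h4
  rw [zero_smul, add_zero] at h5
  rw [h5]
  ring

/-- The main theorem in `ℝ × ℝ`. -/
theorem exists_not_removable : ∃ (E : Set X) (F : X → ℝ), IsCompact E ∧ IsTotallyDisconnected E ∧
    volume E = 0 ∧ Continuous F ∧
    (∀ p ∉ E, ∃ V ⊆ Eᶜ, IsOpen V ∧ Convex ℝ V ∧ p ∈ V ∧ ConvexOn ℝ V F) ∧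
    ¬ ConvexOn ℝ univ F := by
  let b : ContDiffBump ((1 / 2, 1 / 2) : X) := ⟨1 / 8, 1 / 4, by norm_num, by norm_num⟩
  have hbs : ContDiff ℝ ∞ b := b.contDiff
  have hbc : HasCompactSupport b := b.hasCompactSupport
  obtain ⟨M, hM0, hM⟩ := exists_bound_B hbs hbc.isCompact
  set C : ℝ := (M + 2) / 2 with hC
  have hC0 : 0 < C := by positivity
  set K : Set X := closedBall ((1 / 2, 1 / 2) : X) (1 / 4) with hK
  have hKt : tsupport b = K := b.tsupport_eq
  have hfs : ContDiff ℝ ∞ (fun p => quad C p + b p) := (contDiff_quad C).add hbs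
  have hB : ∀ p, B (fun p => quad C p + b p) p = B (quad C) p + B b p :=
    B_add (contDiff_quad C) hbs
  have hBoff : ∀ p ∉ K, B b p = 0 := by
    intro p hp
    rw [← hKt] at hp
    have h0 : ∀ᶠ q in 𝓝 p, q ∈ (tsupport b)ᶜ := (isClosed_tsupport b).isOpen_compl.mem_nhds hp
    have h1 : (b : X → ℝ) =ᶠ[𝓝 p] fun _ => (0 : ℝ) :=
      h0.mono fun q hq => image_eq_zero_of_notMem_tsupport hq
    rw [B_congr h1, B_zero]
  have hKS : K ⊆ S := by
    intro p hp
    rw [hK, mem_closedBall, Prod.dist_eq, max_le_iff, Real.dist_eq, Real.dist_eq, abs_le,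
      abs_le] at hp
    obtain ⟨⟨h1, h2⟩, h3, h4⟩ := hp
    exact ⟨⟨by linarith, by linarith⟩, ⟨by linarith, by linarith⟩⟩
  have huu : ∀ p, 1 + (1 / 2 : ℝ) ^ 0 ≤ B (fun p => quad C p + b p) p (1, 0) (1, 0) := by
    intro p
    rw [hB]
    simp only [add_apply]
    rw [B_quad]
    by_cases hp : p ∈ K
    · have h1 := hM p (by rw [hKt]; exact hp) (1, 0) (1, 0)
      have n1 : ‖((1 : ℝ), (0 : ℝ))‖ = 1 := by rw [Prod.norm_def]; simp
      rw [n1, mul_one, mul_one] at h1
      have h2 := (abs_le.mp h1).1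
      rw [hC]
      norm_num
      linarith
    · rw [hBoff p hp]
      simp only [zero_apply]
      rw [hC]
      norm_num
      linarith
  have hpos : ∀ p ∉ K, ∀ d ≠ 0, 0 < B (fun p => quad C p + b p) p d d := by
    intro p hp d hd
    rw [hB, hBoff p hp]
    simp only [add_apply, zero_apply, add_zero]
    rw [B_quad]
    by_contra hcon
    push Not at hcon
    have a0 : 0 < C * 2 := by positivity
    have a1 : d.1 ^ 2 = 0 := by
      by_contra hne
      have h1 : 0 < d.1 ^ 2 := lt_of_le_of_ne (sq_nonneg _) (Ne.symm hne)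
      have h2 : 0 < C * 2 * d.1 ^ 2 := mul_pos a0 h1
      have h3 := sq_nonneg d.2
      linarith
    have a2 : d.2 ^ 2 = 0 := by
      rw [a1] at hcon
      have h3 := sq_nonneg d.2
      linarith
    apply hd
    ext
    · simpa using a1
    · simpa using a2
  obtain ⟨s, hs1, hs2, -, -⟩ := exists_next 0 one_pos hfs (isCompact_closedBall _ _) hKS huu hpos
  refine ⟨s.E, s.F, s.isCompact_E, s.isTotallyDisconnected_E, s.volume_E, s.continuous_F,
    fun p hp => s.locally_convex hp, fun hconv => ?_⟩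
  have hclose : ∀ p, |s.F p - (quad C p + b p)| ≤ 1 / 4 := by
    intro p
    have h1 := s.abs_F_sub_le p
    have h2 := hs2 p
    rw [hs1] at h1
    have h3 := abs_sub_le (s.F p) (s.f p) (quad C p + b p)
    norm_num at h1 h2 h3 ⊢
    linarith
  have hmid : b ((1 / 2, 1 / 2) : X) = 1 := b.one_of_mem_closedBall (mem_closedBall_self
    b.rIn_pos.le)
  have hout : ∀ y : ℝ, 1 / 4 ≤ |y - 1 / 2| → b ((1 / 2, y) : X) = 0 := by
    intro y hy
    apply b.zero_of_le_dist
    rw [Prod.dist_eq]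
    exact le_max_of_le_right (by rw [Real.dist_eq]; exact hy)
  have h1 := (abs_le.mp (hclose (1 / 2, 1 / 2))).1
  have h2 := (abs_le.mp (hclose (1 / 2, 0))).2
  have h3 := (abs_le.mp (hclose (1 / 2, 1))).2
  rw [hmid] at h1
  rw [hout 0 (by norm_num)] at h2
  rw [hout 1 (by norm_num)] at h3
  have h4 := hconv.2 (mem_univ ((1 / 2, 0) : X)) (mem_univ ((1 / 2, 1) : X))
    (by norm_num : (0 : ℝ) ≤ 1 / 2) (by norm_num : (0 : ℝ) ≤ 1 / 2) (by norm_num)
  have e : (1 / 2 : ℝ) • ((1 / 2, 0) : X) + (1 / 2 : ℝ) • ((1 / 2, 1) : X) = (1 / 2, 1 / 2) := by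
    ext <;> norm_num
  rw [e] at h4
  simp only [smul_eq_mul, quad] at h1 h2 h3 h4
  norm_num at h1 h2 h3 h4
  linarith

end Q76.RemovableBlocks
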