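import Mathlib

/-!
# Rauzy fractals of Pisot substitutions: definitions
-/

namespace Q76.Rauzy

open Set Topology

variable {k : ℕ}

/-- The image of a finite word under the `p`-th power of a substitution. -/
def powApply (σ : Fin k → List (Fin k)) (p : ℕ) (w : List (Fin k)) : List (Fin k) :=
  (fun v : List (Fin k) => v.flatMap σ)^[p] w

/-- The incidence matrix: the entry `(i, j)` is the number of occurrences of `i` in `σ j`. -/
def incidence (σ : Fin k → List (Fin k)) : Matrix (Fin k) (Fin k) ℤ :=
  fun i j => ((σ j).count i : ℤ)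

/-- `σ` is unimodular irreducible Pisot with dominant eigenvalue `lam`: the determinant of the
incidence matrix is `±1`, its characteristic polynomial is irreducible over `ℚ`, `lam > 1` is a
root, and all other complex roots have modulus less than one. -/
structure IsUnimodularIrreduciblePisot (σ : Fin k → List (Fin k)) (lam : ℝ) : Prop where
  unimodular : |(incidence σ).det| = 1
  irreducible : Irreducible ((incidence σ).map (Int.cast : ℤ → ℚ)).charpoly
  one_lt : 1 < lam
  root : ((incidence σ).map (Int.cast : ℤ → ℝ)).charpoly.IsRoot lam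
  pisot : ∀ z : ℂ, ((incidence σ).map (Int.cast : ℤ → ℂ)).charpoly.IsRoot z → z ≠ (lam : ℂ) →
    ‖z‖ < 1

/-- The incidence matrix as a linear map. -/
noncomputable def linM (σ : Fin k → List (Fin k)) :
    EuclideanSpace ℝ (Fin k) →ₗ[ℝ] EuclideanSpace ℝ (Fin k) :=
  Matrix.toEuclideanLin ((incidence σ).map (Int.cast : ℤ → ℝ))

/-- The expanding eigenline `E^u`, the kernel of `M - lam`. -/
noncomputable def Eu (σ : Fin k → List (Fin k)) (lam : ℝ) : Submodule ℝ (EuclideanSpace ℝ (Fin k)) :=
  LinearMap.ker (linM σ - lam • LinearMap.id)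

/-- The contracting space `E^s`, the range of `M - lam`: when `lam` is a simple root of the
characteristic polynomial, this is the sum of the eigenspaces of the other eigenvalues. -/
noncomputable def Es (σ : Fin k → List (Fin k)) (lam : ℝ) : Submodule ℝ (EuclideanSpace ℝ (Fin k)) :=
  LinearMap.range (linM σ - lam • LinearMap.id)

/-- The finite word `u_0 … u_{n-1}`. -/
def rightWord (u : ℤ → Fin k) (n : ℕ) : List (Fin k) := (List.range n).map fun i : ℕ => u i

/-- The finite word `u_{-n} … u_{-1}`. -/
def leftWord (u : ℤ → Fin k) (n : ℕ) : List (Fin k) := (List.range n).map fun i : ℕ => u (i - n)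

/-- `u` is a two-sided fixed point of `σ^p`: the image of each word `u_0 … u_{n-1}` is a word
`u_0 … u_{m-1}`, and the image of each word `u_{-n} … u_{-1}` is a word `u_{-m} … u_{-1}`. -/
def IsFixedPoint (σ : Fin k → List (Fin k)) (p : ℕ) (u : ℤ → Fin k) : Prop :=
  ∀ n, powApply σ p (rightWord u n) = rightWord u (powApply σ p (rightWord u n)).length ∧
    powApply σ p (leftWord u n) = leftWord u (powApply σ p (leftWord u n)).length

/-- The vertices `L_n` of the broken line of `u`. -/
noncomputable def broken (u : ℤ → Fin k) (n : ℤ) : EuclideanSpace ℝ (Fin k) :=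
  if 0 ≤ n then ∑ i ∈ Finset.Icc 0 n, EuclideanSpace.single (u i) (1 : ℝ)
  else -∑ i ∈ Finset.Icc (n - 1) (-1), EuclideanSpace.single (u i) (1 : ℝ)

/-- The Rauzy fractal of the fixed point `u`: the closure in `E^s` of the projections of the
points `L_n` along `E^u`. -/
noncomputable def fractal {σ : Fin k → List (Fin k)} {lam : ℝ} (h : IsCompl (Es σ lam) (Eu σ lam))
    (u : ℤ → Fin k) : Set (Es σ lam) :=
  closure (range fun n : ℤ => Submodule.projectionOnto (Es σ lam) (Eu σ lam) h (broken u n))

/-- The reversed substitution. -/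
def rev (σ : Fin k → List (Fin k)) (a : Fin k) : List (Fin k) := (σ a).reverse

/-- The Hausdorff dimension of the boundary of the Rauzy fractal of `u`, the boundary being taken
in `E^s`. -/
noncomputable def boundaryDim {σ : Fin k → List (Fin k)} {lam : ℝ}
    (h : IsCompl (Es σ lam) (Eu σ lam)) (u : ℤ → Fin k) : ENNReal :=
  dimH (frontier (fractal h u))

/-- The Hausdorff dimension of the boundary of the intersection of the Rauzy fractals of `u` and
`v`, the boundary being taken in `E^s`. -/
noncomputable def boundaryDimInter {σ : Fin k → List (Fin k)} {lam : ℝ}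
    (h : IsCompl (Es σ lam) (Eu σ lam)) (u v : ℤ → Fin k) : ENNReal :=
  dimH (frontier (fractal h u ∩ fractal h v))

end Q76.Rauzy
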