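import Mathlib

/-!
# Words, prefixes and fixed points of a substitution on three letters
-/

namespace Q76.Rz

open List

/-- A substitution applied to a word. -/
def S (σ : Fin 3 → List (Fin 3)) (w : List (Fin 3)) : List (Fin 3) := w.flatMap σ

/-- Additive functional of a word. -/
def wsum (f : Fin 3 → ℝ) (w : List (Fin 3)) : ℝ := (w.map f).sum

lemma wsum_nil (f : Fin 3 → ℝ) : wsum f [] = 0 := rfl

lemma wsum_append (f : Fin 3 → ℝ) (v w : List (Fin 3)) : wsum f (v ++ w) = wsum f v + wsum f w := by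
  simp [wsum]

lemma S_nil (σ : Fin 3 → List (Fin 3)) : S σ [] = [] := rfl

lemma S_cons (σ : Fin 3 → List (Fin 3)) (a : Fin 3) (w : List (Fin 3)) :
    S σ (a :: w) = σ a ++ S σ w := rfl

lemma S_append (σ : Fin 3 → List (Fin 3)) (v w : List (Fin 3)) : S σ (v ++ w) = S σ v ++ S σ w := by
  simp [S]

lemma S_prefix (σ : Fin 3 → List (Fin 3)) {v w : List (Fin 3)} (h : v <+: w) : S σ v <+: S σ w := by
  obtain ⟨t, rfl⟩ := h
  rw [S_append]
  exact List.prefix_append _ _

lemma iter_prefix (σ : Fin 3 → List (Fin 3)) (n : ℕ) {v w : List (Fin 3)} (h : v <+: w) :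
    (S σ)^[n] v <+: (S σ)^[n] w := by
  induction n with
  | zero => exact h
  | succ n ih =>
    rw [Function.iterate_succ_apply', Function.iterate_succ_apply']
    exact S_prefix σ ih

lemma wsum_S {σ : Fin 3 → List (Fin 3)} {f : Fin 3 → ℝ} {μ : ℝ}
    (h : ∀ a, wsum f (σ a) = μ * f a) (w : List (Fin 3)) : wsum f (S σ w) = μ * wsum f w := by
  induction w with
  | nil => simp [S_nil, wsum_nil]
  | cons a w ih =>
    rw [S_cons, wsum_append, ih, h a]
    simp only [wsum, List.map_cons, List.sum_cons]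
    ring

lemma wsum_iter {σ : Fin 3 → List (Fin 3)} {f : Fin 3 → ℝ} {μ : ℝ}
    (h : ∀ a, wsum f (σ a) = μ * f a) (n : ℕ) (w : List (Fin 3)) :
    wsum f ((S σ)^[n] w) = μ ^ n * wsum f w := by
  induction n with
  | zero => simp
  | succ n ih =>
    rw [Function.iterate_succ_apply', wsum_S h, ih]
    ring

/-- The words obtained from the empty word by `P ↦ σ(P) p`, `p` a proper prefix of some `σ b`. -/
inductive Pre (σ : Fin 3 → List (Fin 3)) : List (Fin 3) → Prop
  | nil : Pre σ []
  | step {P' : List (Fin 3)} {b : Fin 3} {p : List (Fin 3)} :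
      Pre σ P' → p <+: σ b → p ≠ σ b → Pre σ (S σ P' ++ p)

lemma split_prefix (σ : Fin 3 → List (Fin 3)) : ∀ w P : List (Fin 3), P <+: S σ w → P ≠ S σ w →
    ∃ w' b p, w' ++ [b] <+: w ∧ P = S σ w' ++ p ∧ p <+: σ b ∧ p ≠ σ b := by
  intro w
  induction w with
  | nil =>
    intro P h1 h2
    exfalso
    rw [S_nil] at h1 h2
    exact h2 (List.prefix_nil.mp h1)
  | cons c w ih =>
    intro P h1 h2
    rw [S_cons] at h1 h2
    rcases List.prefix_or_prefix_of_prefix h1 (List.prefix_append (σ c) (S σ w)) with h | h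
    · by_cases heq : P = σ c
      · -- then `P = σ c`, handle as a continuation with the empty word
        have h3 : ([] : List (Fin 3)) <+: S σ w := List.nil_prefix
        have h4 : ([] : List (Fin 3)) ≠ S σ w := by
          intro h5
          apply h2
          rw [heq, ← h5, List.append_nil]
        obtain ⟨w', b, p, q1, q2, q3, q4⟩ := ih [] h3 h4
        refine ⟨c :: w', b, p, ?_, ?_, q3, q4⟩
        · rw [List.cons_append]
          exact List.cons_prefix_cons.mpr ⟨rfl, q1⟩
        · rw [S_cons, List.append_assoc, ← q2, List.append_nil, heq]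
      · exact ⟨[], c, P, by simp, by simp [S_nil], h, heq⟩
    · obtain ⟨P₁, rfl⟩ := h
      have h3 : P₁ <+: S σ w := (List.prefix_append_right_inj (σ c)).mp h1
      have h4 : P₁ ≠ S σ w := fun h5 => h2 (by rw [h5])
      obtain ⟨w', b, p, q1, q2, q3, q4⟩ := ih P₁ h3 h4
      refine ⟨c :: w', b, p, ?_, ?_, q3, q4⟩
      · rw [List.cons_append]
        exact List.cons_prefix_cons.mpr ⟨rfl, q1⟩
      · rw [S_cons, List.append_assoc, ← q2]

lemma pre_of_prefix (σ : Fin 3 → List (Fin 3)) (a : Fin 3) : ∀ (N : ℕ) (P : List (Fin 3)),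
    P <+: (S σ)^[N] [a] → P ≠ (S σ)^[N] [a] → Pre σ P := by
  intro N
  induction N with
  | zero =>
    intro P h1 h2
    simp only [Function.iterate_zero, id_eq] at h1 h2
    have h3 : P = [] := by
      rcases List.prefix_cons_iff.mp h1 with h | ⟨t, rfl, ht⟩
      · exact h
      · exfalso
        apply h2
        rw [List.prefix_nil.mp ht]
    rw [h3]
    exact Pre.nil
  | succ N ih =>
    intro P h1 h2
    rw [Function.iterate_succ_apply'] at h1 h2
    obtain ⟨w', b, p, q1, q2, q3, q4⟩ := split_prefix σ _ P h1 h2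
    rw [q2]
    apply Pre.step _ q3 q4
    apply ih w'
    · exact (List.prefix_append w' [b]).trans q1
    · intro h5
      have h6 := q1.length_le
      rw [← h5, List.length_append] at h6
      simp at h6

section functional

variable {σ : Fin 3 → List (Fin 3)} {f g : Fin 3 → ℝ} {μ μ' : ℝ}

lemma Pre.nonneg (hf : ∀ a, wsum f (σ a) = μ * f a) (hμ : 0 ≤ μ)
    (h0 : ∀ b p, p <+: σ b → p ≠ σ b → 0 ≤ wsum f p) {P : List (Fin 3)} (hP : Pre σ P) :
    0 ≤ wsum f P := by
  induction hP with
  | nil => exact le_rfl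
  | step _ h1 h2 ih =>
    rw [wsum_append, wsum_S hf]
    have := h0 _ _ h1 h2
    positivity

lemma Pre.bound (hg : ∀ a, wsum g (σ a) = μ' * g a) {B G : ℝ} (hB : |μ'| * B + G ≤ B)
    (hB0 : 0 ≤ B) (h0 : ∀ b p, p <+: σ b → p ≠ σ b → |wsum g p| ≤ G) {P : List (Fin 3)}
    (hP : Pre σ P) : |wsum g P| ≤ B := by
  induction hP with
  | nil => rw [wsum_nil, abs_zero]; exact hB0
  | step _ h1 h2 ih =>
    rw [wsum_append, wsum_S hg]
    calc _ ≤ |μ' * wsum g _| + |wsum g _| := abs_add_le _ _
      _ ≤ |μ'| * B + G := by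
        rw [abs_mul]
        exact add_le_add (mul_le_mul_of_nonneg_left ih (abs_nonneg _)) (h0 _ _ h1 h2)
      _ ≤ B := hB

lemma Pre.quant (hf : ∀ a, wsum f (σ a) = μ * f a) (hg : ∀ a, wsum g (σ a) = μ' * g a)
    (hμ : 0 < μ) (hμ1 : μ < 1) {B G c : ℝ} (hc : 0 < c) (hB : |μ'| * B + G ≤ B) (hB0 : 0 ≤ B)
    (h0 : ∀ b p, p <+: σ b → p ≠ σ b → |wsum g p| ≤ G)
    (h1 : ∀ b p, p <+: σ b → p ≠ σ b → p = [] ∨ c ≤ wsum f p) :
    ∀ (m : ℕ) (P : List (Fin 3)), Pre σ P → wsum f P < c * μ ^ m → |wsum g P| ≤ |μ'| ^ m * B := by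
  have hnn : ∀ b p, p <+: σ b → p ≠ σ b → 0 ≤ wsum f p := by
    intro b p a1 a2
    rcases h1 b p a1 a2 with h | h
    · rw [h, wsum_nil]
    · linarith
  intro m
  induction m with
  | zero =>
    intro P hP _
    rw [pow_zero, one_mul]
    exact hP.bound hg hB hB0 h0
  | succ m ih =>
    intro P hP hlt
    cases hP with
    | nil =>
      rw [wsum_nil, abs_zero]
      positivity
    | @step P' b p hP' q1 q2 =>
      rw [wsum_append, wsum_S hf] at hlt
      rcases h1 b p q1 q2 with h | h
      · rw [h, wsum_nil, add_zero] at hlt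
        have h2 : wsum f P' < c * μ ^ m := by
          have : μ * wsum f P' < μ * (c * μ ^ m) := by rw [pow_succ] at hlt; linarith
          exact lt_of_mul_lt_mul_left this hμ.le
        rw [h, List.append_nil, wsum_S hg, abs_mul, pow_succ]
        have := mul_le_mul_of_nonneg_left (ih P' hP' h2) (abs_nonneg μ')
        calc |μ'| * |wsum g P'| ≤ |μ'| * (|μ'| ^ m * B) := this
          _ = _ := by ring
      · exfalso
        have h3 := hP'.nonneg hf hμ.le hnn
        have h4 : μ ^ (m + 1) ≤ 1 := pow_le_one₀ hμ.le hμ1.le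
        have h5 : c * μ ^ (m + 1) ≤ c := by
          calc c * μ ^ (m + 1) ≤ c * 1 := mul_le_mul_of_nonneg_left h4 hc.le
            _ = c := mul_one c
        have h6 : 0 ≤ μ * wsum f P' := by positivity
        linarith

end functional

/-! ### Fixed points -/

/-- The prefix of length `n` of a sequence. -/
def pre (r : ℕ → Fin 3) (n : ℕ) : List (Fin 3) := (List.range n).map r

lemma pre_length (r : ℕ → Fin 3) (n : ℕ) : (pre r n).length = n := by simp [pre]

lemma pre_succ (r : ℕ → Fin 3) (n : ℕ) : pre r (n + 1) = pre r n ++ [r n] := by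
  simp [pre, List.range_succ]

lemma pre_prefix (r : ℕ → Fin 3) {n m : ℕ} (h : n ≤ m) : pre r n <+: pre r m := by
  induction m, h using Nat.le_induction with
  | base => exact List.prefix_rfl
  | succ m _ ih =>
    rw [pre_succ]
    exact ih.trans (List.prefix_append _ _)

lemma eq_pre_of_prefix {r : ℕ → Fin 3} {m : ℕ} {w : List (Fin 3)} (h : w <+: pre r m) :
    w = pre r w.length := by
  have h1 : w.length ≤ m := by
    have := h.length_le
    rwa [pre_length] at this
  have h2 := pre_prefix r h1
  exact List.IsPrefix.eq_of_length (List.prefix_of_prefix_length_le h h2 (by rw [pre_length]))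
    (by rw [pre_length])

/-- One-sided fixed points of a power. -/
def Fix (σ : Fin 3 → List (Fin 3)) (p : ℕ) (r : ℕ → Fin 3) : Prop :=
  ∀ n, (S σ)^[p] (pre r n) = pre r ((S σ)^[p] (pre r n)).length

/-- Growth of a substitution. -/
structure Grow (σ : Fin 3 → List (Fin 3)) : Prop where
  mem : ∀ a, (0 : Fin 3) ∈ σ a
  two : 2 ≤ (σ 0).length

lemma Grow.length_ge {σ : Fin 3 → List (Fin 3)} (h : Grow σ) (w : List (Fin 3)) :
    w.length ≤ (S σ w).length := by
  induction w with
  | nil => simp
  | cons a w ih =>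
    rw [S_cons, List.length_append, List.length_cons]
    have : 1 ≤ (σ a).length := List.length_pos_of_mem (h.mem a)
    omega

lemma Grow.mem_S {σ : Fin 3 → List (Fin 3)} (h : Grow σ) {w : List (Fin 3)} (hw : w ≠ []) :
    (0 : Fin 3) ∈ S σ w := by
  cases w with
  | nil => exact absurd rfl hw
  | cons a w =>
    rw [S_cons]
    exact List.mem_append_left _ (h.mem a)

lemma Grow.length_succ {σ : Fin 3 → List (Fin 3)} (h : Grow σ) {w : List (Fin 3)}
    (hw : (0 : Fin 3) ∈ w) : w.length + 1 ≤ (S σ w).length := by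
  obtain ⟨s, t, rfl⟩ := List.append_of_mem hw
  rw [S_append, S_cons]
  simp only [List.length_append, List.length_cons]
  have h1 := h.length_ge s
  have h2 := h.length_ge t
  have h3 := h.two
  omega

lemma Grow.iter_ne {σ : Fin 3 → List (Fin 3)} (h : Grow σ) {w : List (Fin 3)} (hw : w ≠ []) :
    ∀ n, (S σ)^[n] w ≠ [] := by
  intro n
  induction n with
  | zero => exact hw
  | succ n ih =>
    rw [Function.iterate_succ_apply']
    intro h1
    have := h.mem_S ih
    rw [h1] at this
    simp at this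

lemma Grow.iter_length {σ : Fin 3 → List (Fin 3)} (h : Grow σ) {w : List (Fin 3)} (hw : w ≠ []) :
    ∀ n, n ≤ ((S σ)^[n] w).length := by
  intro n
  induction n with
  | zero => omega
  | succ n ih =>
    rw [Function.iterate_succ_apply']
    rcases Nat.eq_zero_or_pos n with h0 | h0
    · subst h0
      have := h.mem_S (h.iter_ne hw 0)
      exact List.length_pos_of_mem this
    · obtain ⟨m, rfl⟩ : ∃ m, n = m + 1 := ⟨n - 1, by omega⟩
      have h1 : (0 : Fin 3) ∈ (S σ)^[m + 1] w := by
        rw [Function.iterate_succ_apply']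
        exact h.mem_S (h.iter_ne hw m)
      have := h.length_succ h1
      omega

lemma Fix.iter {σ : Fin 3 → List (Fin 3)} {p : ℕ} {r : ℕ → Fin 3} (h : Fix σ p r) (m n : ℕ) :
    (S σ)^[p * m] (pre r n) = pre r ((S σ)^[p * m] (pre r n)).length := by
  induction m with
  | zero =>
    simp only [mul_zero, Function.iterate_zero, id_eq]
    rw [pre_length]
  | succ m ih =>
    rw [mul_add, mul_one, add_comm, Function.iterate_add_apply]
    set w := (S σ)^[p * m] (pre r n)
    rw [ih]
    exact h _

lemma Fix.pre {σ : Fin 3 → List (Fin 3)} (hσ : Grow σ) {p : ℕ} (hp : 1 ≤ p) {r : ℕ → Fin 3}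
    (h : Fix σ p r) (n : ℕ) : Pre σ (pre r n) := by
  have h1 := h.iter (n + 1) 1
  have e1 : Rz.pre r 1 = [r 0] := by simp [Rz.pre]
  rw [e1] at h1
  have h2 := hσ.iter_length (w := [r 0]) (by simp) (p * (n + 1))
  have h3 : n + 1 ≤ p * (n + 1) := Nat.le_mul_of_pos_left _ hp
  have h4 : Rz.pre r n <+: (S σ)^[p * (n + 1)] [r 0] := by
    rw [h1]
    exact pre_prefix r (by omega)
  apply pre_of_prefix σ (r 0) (p * (n + 1)) _ h4
  intro h5
  have h6 := congrArg List.length h5
  rw [pre_length] at h6
  omega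

/-- Existence of fixed points. -/
lemma exists_fix {σ : Fin 3 → List (Fin 3)} (hσ : Grow σ) {a : Fin 3} (ha : [a] <+: σ a) :
    ∃ r : ℕ → Fin 3, Fix σ 1 r := by
  have hmono1 : ∀ n, (S σ)^[n] [a] <+: (S σ)^[n + 1] [a] := by
    intro n
    rw [Function.iterate_succ_apply]
    apply iter_prefix
    rw [S_cons, S_nil, List.append_nil]
    exact ha
  have hmono : ∀ n m, n ≤ m → (S σ)^[n] [a] <+: (S σ)^[m] [a] := by
    intro n m hnm
    induction m, hnm using Nat.le_induction with
    | base => exact List.prefix_rfl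
    | succ m _ ih => exact ih.trans (hmono1 m)
  have hlen : ∀ n, n ≤ ((S σ)^[n] [a]).length := hσ.iter_length (by simp)
  set r : ℕ → Fin 3 := fun n => ((S σ)^[n + 1] [a]).getD n 0 with hr
  have hpre : ∀ n, pre r n <+: (S σ)^[n] [a] := by
    intro n
    induction n with
    | zero => simp [pre]
    | succ n ih =>
      have h1 : pre r n <+: (S σ)^[n + 1] [a] := ih.trans (hmono1 n)
      obtain ⟨t, ht⟩ := h1
      have h2 : (S σ)^[n + 1] [a] ≠ pre r n := by
        intro h3
        have := hlen (n + 1)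
        rw [h3, pre_length] at this
        omega
      have ht0 : t ≠ [] := by
        intro h3
        rw [h3, List.append_nil] at ht
        exact h2 ht.symm
      obtain ⟨b, t', rfl⟩ := List.exists_cons_of_ne_nil ht0
      have h3 : r n = b := by
        simp only [hr]
        rw [← ht, List.getD_append_right _ _ _ _ (by rw [pre_length]), pre_length]
        simp
      rw [pre_succ, h3, ← ht]
      refine ⟨t', ?_⟩
      simp
  refine ⟨r, fun n => ?_⟩
  simp only [Function.iterate_one]
  have h1 : S σ (pre r n) <+: (S σ)^[n + 1] [a] := by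
    rw [Function.iterate_succ_apply']
    exact S_prefix σ (hpre n)
  set L := (S σ (pre r n)).length with hL
  have h2 : S σ (pre r n) <+: (S σ)^[max L (n + 1)] [a] := h1.trans (hmono _ _ (le_max_right _ _))
  have h3 : pre r L <+: (S σ)^[max L (n + 1)] [a] := (hpre L).trans (hmono _ _ (le_max_left _ _))
  exact List.IsPrefix.eq_of_length (List.prefix_of_prefix_length_le h2 h3 (by rw [pre_length]))
    (by rw [pre_length])

/-- The reversed substitution. -/
def hat (σ : Fin 3 → List (Fin 3)) (a : Fin 3) : List (Fin 3) := (σ a).reverse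

lemma hat_hat (σ : Fin 3 → List (Fin 3)) : hat (hat σ) = σ := by
  ext a
  simp [hat]

lemma S_reverse (σ : Fin 3 → List (Fin 3)) (w : List (Fin 3)) :
    (S σ w).reverse = S (hat σ) w.reverse := by
  induction w with
  | nil => rfl
  | cons a w ih =>
    rw [S_cons, List.reverse_append, ih, List.reverse_cons, S_append, S_cons, S_nil,
      List.append_nil]
    rfl

lemma iter_reverse (σ : Fin 3 → List (Fin 3)) (n : ℕ) (w : List (Fin 3)) :
    ((S σ)^[n] w).reverse = (S (hat σ))^[n] w.reverse := by
  induction n with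
  | zero => rfl
  | succ n ih =>
    rw [Function.iterate_succ_apply', S_reverse, ih, Function.iterate_succ_apply']

end Q76.Rz
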