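import Mathlib
import Pool.Agent.Q76.RzWords
import Pool.Agent.Q76.RzDefs

/-!
# The example `1 ↦ 132`, `2 ↦ 12`, `3 ↦ 1`: algebra
-/

namespace Q76.Rz

open Set Topology Polynomial

/-- The substitution `1 ↦ 132`, `2 ↦ 12`, `3 ↦ 1` (with letters `0, 1, 2`). -/
def sig : Fin 3 → List (Fin 3) := ![[0, 2, 1], [0, 1], [0]]

/-- The characteristic polynomial as a function. -/
def qf (x : ℝ) : ℝ := x ^ 3 - 2 * x ^ 2 - x + 1

lemma exists_roots : ∃ lam μ ν : ℝ, qf lam = 0 ∧ qf μ = 0 ∧ qf ν = 0 ∧ 2 < lam ∧ lam < 3 ∧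
    1 / 2 < μ ∧ μ < 3 / 5 ∧ -1 < ν ∧ ν < -4 / 5 := by
  have hc : Continuous qf := by unfold qf; fun_prop
  have h1 : (0 : ℝ) ∈ Ioo (qf 2) (qf 3) := by constructor <;> norm_num [qf]
  obtain ⟨lam, hl, hl2⟩ := intermediate_value_Ioo (show (2 : ℝ) ≤ 3 by norm_num) hc.continuousOn h1
  have h2 : (0 : ℝ) ∈ Ioo (qf (3 / 5)) (qf (1 / 2)) := by constructor <;> norm_num [qf]
  obtain ⟨μ, hm, hm2⟩ := intermediate_value_Ioo' (show (1 / 2 : ℝ) ≤ 3 / 5 by norm_num)
    hc.continuousOn h2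
  have h3 : (0 : ℝ) ∈ Ioo (qf (-1)) (qf (-4 / 5)) := by constructor <;> norm_num [qf]
  obtain ⟨ν, hn, hn2⟩ := intermediate_value_Ioo (show (-1 : ℝ) ≤ -4 / 5 by norm_num)
    hc.continuousOn h3
  exact ⟨lam, μ, ν, hl2, hm2, hn2, hl.1, hl.2, hm.1, hm.2, hn.1, hn.2⟩

/-- The three roots and their symmetric functions. -/
structure Roots (lam μ ν : ℝ) : Prop where
  ql : qf lam = 0
  qm : qf μ = 0
  qn : qf ν = 0
  l1 : 2 < lam
  l2 : lam < 3
  m1 : 1 / 2 < μ
  m2 : μ < 3 / 5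
  n1 : -1 < ν
  n2 : ν < -4 / 5

section

variable {lam μ ν : ℝ} (h : Roots lam μ ν)
include h

lemma Roots.e1 : lam + μ + ν = 2 := by
  have a1 : lam ^ 2 + lam * μ + μ ^ 2 - 2 * (lam + μ) - 1 = 0 := by
    have : (lam - μ) * (lam ^ 2 + lam * μ + μ ^ 2 - 2 * (lam + μ) - 1) = 0 := by
      have := h.ql; have := h.qm; unfold qf at *; nlinarith
    rcases mul_eq_zero.mp this with h1 | h1
    · linarith [h.l1, h.m2]
    · exact h1
  have a2 : lam ^ 2 + lam * ν + ν ^ 2 - 2 * (lam + ν) - 1 = 0 := by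
    have : (lam - ν) * (lam ^ 2 + lam * ν + ν ^ 2 - 2 * (lam + ν) - 1) = 0 := by
      have := h.ql; have := h.qn; unfold qf at *; nlinarith
    rcases mul_eq_zero.mp this with h1 | h1
    · linarith [h.l1, h.n2]
    · exact h1
  have a3 : (μ - ν) * (lam + μ + ν - 2) = 0 := by nlinarith
  rcases mul_eq_zero.mp a3 with h1 | h1
  · linarith [h.m1, h.n2]
  · linarith

lemma Roots.e2 : lam * μ + lam * ν + μ * ν = -1 := by
  have a1 : lam ^ 2 + lam * μ + μ ^ 2 - 2 * (lam + μ) - 1 = 0 := by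
    have : (lam - μ) * (lam ^ 2 + lam * μ + μ ^ 2 - 2 * (lam + μ) - 1) = 0 := by
      have := h.ql; have := h.qm; unfold qf at *; nlinarith
    rcases mul_eq_zero.mp this with h1 | h1
    · linarith [h.l1, h.m2]
    · exact h1
  have e := h.e1
  have : ν = 2 - lam - μ := by linarith
  rw [this]
  nlinarith

lemma Roots.e3 : lam * μ * ν = -1 := by
  have e1 := h.e1
  have e2 := h.e2
  have := h.ql
  unfold qf at this
  have : μ + ν = 2 - lam := by linarith
  have h3 : μ * ν = -1 - lam * (2 - lam) := by rw [← this]; linarith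
  have h4 : lam * μ * ν = lam * (μ * ν) := by ring
  rw [h4, h3]
  nlinarith

lemma Roots.factor (x : ℂ) : x ^ 3 - 2 * x ^ 2 - x + 1 = (x - lam) * (x - μ) * (x - ν) := by
  have e1 : (lam : ℂ) + μ + ν = 2 := by exact_mod_cast congrArg (fun t : ℝ => (t : ℂ)) h.e1
  have e2 : (lam : ℂ) * μ + lam * ν + μ * ν = -1 := by
    exact_mod_cast congrArg (fun t : ℝ => (t : ℂ)) h.e2
  have e3 : (lam : ℂ) * μ * ν = -1 := by exact_mod_cast congrArg (fun t : ℝ => (t : ℂ)) h.e3
  linear_combination x ^ 2 * e1 - x * e2 + e3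

end

/-! ### The characteristic polynomial -/

lemma incidence_sig : Rauzy.incidence sig = !![1, 1, 1; 1, 1, 0; 1, 0, 0] := by
  ext i j
  fin_cases i <;> fin_cases j <;> simp [Rauzy.incidence, sig]

lemma charpoly_eq (R : Type*) [CommRing R] :
    ((!![1, 1, 1; 1, 1, 0; 1, 0, 0] : Matrix (Fin 3) (Fin 3) R)).charpoly =
      X ^ 3 - 2 * X ^ 2 - X + 1 := by
  rw [Matrix.charpoly, Matrix.det_fin_three]
  simp
  ring

lemma map_eq (R : Type*) [CommRing R] :
    (Rauzy.incidence sig).map (Int.cast : ℤ → R) = !![1, 1, 1; 1, 1, 0; 1, 0, 0] := by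
  rw [incidence_sig]
  ext i j
  fin_cases i <;> fin_cases j <;> simp

lemma irr : Irreducible (X ^ 3 - 2 * X ^ 2 - X + 1 : ℚ[X]) := by
  have hdeg : (X ^ 3 - 2 * X ^ 2 - X + 1 : ℚ[X]).natDegree = 3 := by compute_degree!
  have hmonic : (X ^ 3 - 2 * X ^ 2 - X + 1 : ℚ[X]).Monic := by monicity!
  rw [hmonic.irreducible_iff_roots_eq_zero_of_degree_le_three (by omega) (by omega)]
  rw [Multiset.eq_zero_iff_forall_notMem]
  intro r hr
  rw [mem_roots hmonic.ne_zero, IsRoot.def] at hr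
  simp only [eval_add, eval_sub, eval_pow, eval_X, eval_mul, eval_ofNat, eval_one] at hr
  -- integrality
  have hint : IsIntegral ℤ r := by
    refine ⟨X ^ 3 - 2 * X ^ 2 - X + 1, by monicity!, ?_⟩
    simp only [eval₂_add, eval₂_sub, eval₂_pow, eval₂_X, eval₂_mul, eval₂_ofNat, eval₂_one]
    exact hr
  obtain ⟨n, hn⟩ := IsIntegrallyClosed.isIntegral_iff.mp hint
  have hn' : (n : ℚ) = r := by simpa using hn
  rw [← hn'] at hr
  have h2' : ((n ^ 3 - 2 * n ^ 2 - n + 1 : ℤ) : ℚ) = 0 := by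
    push_cast
    linear_combination hr
  have h2 : n ^ 3 - 2 * n ^ 2 - n + 1 = 0 := by exact_mod_cast h2'
  have h3 : n * (n ^ 2 - 2 * n - 1) = -1 := by linarith
  have h4 : n ∣ 1 := ⟨-(n ^ 2 - 2 * n - 1), by linarith⟩
  rcases Int.isUnit_iff.mp (isUnit_of_dvd_one h4) with h5 | h5 <;> rw [h5] at h2 <;> norm_num at h2

theorem isUIP {lam μ ν : ℝ} (h : Roots lam μ ν) :
    Rauzy.IsUnimodularIrreduciblePisot sig lam where
  unimodular := by
    rw [incidence_sig, Matrix.det_fin_three]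
    simp
  irreducible := by
    rw [map_eq, charpoly_eq]
    exact irr
  one_lt := by linarith [h.l1]
  root := by
    rw [map_eq, charpoly_eq, IsRoot.def]
    simp only [eval_add, eval_sub, eval_pow, eval_X, eval_mul, eval_ofNat, eval_one]
    exact h.ql
  pisot := fun z hz hne => by
    rw [map_eq, charpoly_eq, IsRoot.def] at hz
    simp only [eval_add, eval_sub, eval_pow, eval_X, eval_mul, eval_ofNat, eval_one] at hz
    rw [h.factor z] at hz
    rcases mul_eq_zero.mp hz with h1 | h1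
    · rcases mul_eq_zero.mp h1 with h2 | h2
      · exact absurd (sub_eq_zero.mp h2) hne
      · rw [sub_eq_zero.mp h2, Complex.norm_real, Real.norm_eq_abs, abs_lt]
        constructor <;> linarith [h.m1, h.m2]
    · rw [sub_eq_zero.mp h1, Complex.norm_real, Real.norm_eq_abs, abs_lt]
      constructor <;> linarith [h.n1, h.n2]

end Q76.Rz
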