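import Mathlib
import Pool.Agent.Q76.RzAlg

/-!
# The example `1 ↦ 132`, `2 ↦ 12`, `3 ↦ 1`: geometry
-/

namespace Q76.Rz

open Set Topology Filter

/-- Weights of the eigenfunctional. -/
noncomputable def fv (t : ℝ) : Fin 3 → ℝ := ![1, 1 / (t - 1), 1 / t]

/-- The eigenfunctional. -/
noncomputable def FL (t : ℝ) : EuclideanSpace ℝ (Fin 3) →ₗ[ℝ] ℝ where
  toFun x := x 0 + 1 / (t - 1) * x 1 + 1 / t * x 2
  map_add' x y := by simp; ring
  map_smul' c x := by simp; ring

lemma FL_apply (t : ℝ) (x : EuclideanSpace ℝ (Fin 3)) :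
    FL t x = x 0 + 1 / (t - 1) * x 1 + 1 / t * x 2 := rfl

lemma FL_single (t : ℝ) (a : Fin 3) : FL t (EuclideanSpace.single a (1 : ℝ)) = fv t a := by
  rw [FL_apply]
  fin_cases a <;> simp [fv]

lemma M0 (x : EuclideanSpace ℝ (Fin 3)) : (Rauzy.linM sig x) 0 = x 0 + x 1 + x 2 := by
  unfold Rauzy.linM
  rw [map_eq]
  simp [Matrix.toEuclideanLin, Matrix.mulVec, dotProduct, Fin.sum_univ_three]

lemma M1 (x : EuclideanSpace ℝ (Fin 3)) : (Rauzy.linM sig x) 1 = x 0 + x 1 := by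
  unfold Rauzy.linM
  rw [map_eq]
  simp [Matrix.toEuclideanLin, Matrix.mulVec, dotProduct, Fin.sum_univ_three]

lemma M2 (x : EuclideanSpace ℝ (Fin 3)) : (Rauzy.linM sig x) 2 = x 0 := by
  unfold Rauzy.linM
  rw [map_eq]
  simp [Matrix.toEuclideanLin, Matrix.mulVec, dotProduct, Fin.sum_univ_three]

lemma key_id {t : ℝ} (ht : qf t = 0) (h0 : t ≠ 0) (h1 : t ≠ 1) :
    1 + 1 / (t - 1) + 1 / t = t := by
  have h2 : t - 1 ≠ 0 := sub_ne_zero.mpr h1
  unfold qf at ht
  field_simp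
  linear_combination -ht

lemma key_id2 {t : ℝ} (h1 : t ≠ 1) : 1 + 1 / (t - 1) = t * (1 / (t - 1)) := by
  have h2 : t - 1 ≠ 0 := sub_ne_zero.mpr h1
  field_simp
  ring

lemma FL_M {t : ℝ} (ht : qf t = 0) (h0 : t ≠ 0) (h1 : t ≠ 1) (x : EuclideanSpace ℝ (Fin 3)) :
    FL t (Rauzy.linM sig x) = t * FL t x := by
  rw [FL_apply, FL_apply, M0, M1, M2]
  have e1 := key_id ht h0 h1
  have e2 := key_id2 h1
  have e3 : t * (1 / t) = 1 := by field_simp
  linear_combination x 0 * e1 + x 1 * e2 - x 2 * e3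

lemma wsum_one (f : Fin 3 → ℝ) (a : Fin 3) : wsum f [a] = f a := by simp [wsum]

lemma fv_sig {t : ℝ} (ht : qf t = 0) (h0 : t ≠ 0) (h1 : t ≠ 1) (a : Fin 3) :
    wsum (fv t) (sig a) = t * fv t a := by
  have e1 := key_id ht h0 h1
  have e2 := key_id2 h1
  have e3 : t * (1 / t) = 1 := by field_simp
  fin_cases a
  · simp [wsum, fv, sig]
    rw [one_div, one_div] at e1
    linarith
  · simp [wsum, fv, sig]
    rw [one_div] at e2
    linarith
  · simp [wsum, fv, sig]
    field_simp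

lemma wsum_reverse (f : Fin 3 → ℝ) (w : List (Fin 3)) : wsum f w.reverse = wsum f w := by
  unfold wsum
  rw [List.map_reverse, List.sum_reverse]

lemma fv_hat {t : ℝ} (ht : qf t = 0) (h0 : t ≠ 0) (h1 : t ≠ 1) (a : Fin 3) :
    wsum (fv t) (hat sig a) = t * fv t a := by
  unfold hat
  rw [wsum_reverse, fv_sig ht h0 h1]

/-- Proper prefixes of the images. -/
lemma pref_sig {b : Fin 3} {p : List (Fin 3)} (h1 : p <+: sig b) (h2 : p ≠ sig b) :
    p = [] ∨ p = [0] ∨ p = [0, 2] := by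
  rw [← List.mem_inits] at h1
  fin_cases b
  · simp [sig, List.inits] at h1 h2
    rcases h1 with h | h | h | h
    · exact Or.inl h
    · exact Or.inr (Or.inl h)
    · exact Or.inr (Or.inr h)
    · exact absurd h h2
  · simp [sig, List.inits] at h1 h2
    rcases h1 with h | h | h
    · exact Or.inl h
    · exact Or.inr (Or.inl h)
    · exact absurd h h2
  · simp [sig, List.inits] at h1 h2
    rcases h1 with h | h
    · exact Or.inl h
    · exact absurd h h2

lemma pref_hat {b : Fin 3} {p : List (Fin 3)} (h1 : p <+: hat sig b) (h2 : p ≠ hat sig b) :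
    p = [] ∨ p = [1] ∨ p = [1, 2] := by
  rw [← List.mem_inits] at h1
  fin_cases b
  · simp [hat, sig, List.inits] at h1 h2
    rcases h1 with h | h | h | h
    · exact Or.inl h
    · exact Or.inr (Or.inl h)
    · exact Or.inr (Or.inr h)
    · exact absurd h h2
  · simp [hat, sig, List.inits] at h1 h2
    rcases h1 with h | h | h
    · exact Or.inl h
    · exact Or.inr (Or.inl h)
    · exact absurd h h2
  · simp [hat, sig, List.inits] at h1 h2
    rcases h1 with h | h
    · exact Or.inl h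
    · exact absurd h h2

lemma grow_sig : Grow sig where
  mem := fun a => by fin_cases a <;> simp [sig]
  two := by simp [sig]

lemma grow_hat : Grow (hat sig) where
  mem := fun a => by fin_cases a <;> simp [hat, sig]
  two := by simp [hat, sig]

section

variable {lam μ ν : ℝ}

lemma inv_bounds (h : Roots lam μ ν) : 5 / 3 < 1 / μ ∧ 1 / μ < 2 ∧ -(5 / 2) < 1 / (μ - 1) ∧
    1 / (μ - 1) < -2 := by
  have m0 : 0 < μ := by linarith [h.m1]
  have m3 : μ - 1 < 0 := by linarith [h.m2]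
  refine ⟨?_, ?_, ?_, ?_⟩
  · rw [lt_div_iff₀ m0]; linarith [h.m2]
  · rw [div_lt_iff₀ m0]; linarith [h.m1]
  · rw [lt_div_iff_of_neg m3]; linarith [h.m2]
  · rw [div_lt_iff_of_neg m3]; linarith [h.m1]

lemma inv_bounds' (h : Roots lam μ ν) : -(5 / 4) < 1 / ν ∧ 1 / ν < -1 ∧
    -(5 / 9) < 1 / (ν - 1) ∧ 1 / (ν - 1) < -(1 / 2) := by
  have n0 : ν < 0 := by linarith [h.n2]
  have n3 : ν - 1 < 0 := by linarith [h.n2]
  refine ⟨?_, ?_, ?_, ?_⟩
  · rw [lt_div_iff_of_neg n0]; linarith [h.n2]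
  · rw [div_lt_iff_of_neg n0]; linarith [h.n1]
  · rw [lt_div_iff_of_neg n3]; linarith [h.n2]
  · rw [div_lt_iff_of_neg n3]; linarith [h.n1]

lemma w_sig_low (h : Roots lam μ ν) {b : Fin 3} {p : List (Fin 3)} (h1 : p <+: sig b)
    (h2 : p ≠ sig b) : p = [] ∨ 2 / 5 ≤ wsum (fv μ) p := by
  obtain ⟨i1, i2, i3, i4⟩ := inv_bounds h
  rcases pref_sig h1 h2 with h | h | h
  · exact Or.inl h
  · right
    rw [h]
    simp [wsum, fv]
    norm_num
  · right
    rw [h]
    simp only [wsum, fv, List.map_cons, List.map_nil, List.sum_cons, List.sum_nil,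
      Matrix.cons_val_zero, Matrix.cons_val]
    linarith

lemma w_hat_low (h : Roots lam μ ν) {b : Fin 3} {p : List (Fin 3)} (h1 : p <+: hat sig b)
    (h2 : p ≠ hat sig b) : p = [] ∨ 2 / 5 ≤ wsum (fun a => -fv μ a) p := by
  obtain ⟨i1, i2, i3, i4⟩ := inv_bounds h
  have e1 := key_id h.qm (by linarith [h.m1]) (by linarith [h.m2])
  rcases pref_hat h1 h2 with h3 | h3 | h3
  · exact Or.inl h3
  · right
    rw [h3]
    simp only [wsum, fv, List.map_cons, List.map_nil, List.sum_cons, List.sum_nil,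
      Matrix.cons_val_zero, Matrix.cons_val_one, Matrix.cons_val]
    linarith
  · right
    rw [h3]
    simp only [wsum, fv, List.map_cons, List.map_nil, List.sum_cons, List.sum_nil,
      Matrix.cons_val_zero, Matrix.cons_val_one, Matrix.cons_val]
    linarith [h.m2]

lemma w_sig_abs (h : Roots lam μ ν) {b : Fin 3} {p : List (Fin 3)} (h1 : p <+: sig b)
    (h2 : p ≠ sig b) : |wsum (fv μ) p| ≤ 4 ∧ |wsum (fv ν) p| ≤ 4 := by
  obtain ⟨i1, i2, i3, i4⟩ := inv_bounds h
  obtain ⟨j1, j2, j3, j4⟩ := inv_bounds' h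
  rcases pref_sig h1 h2 with h | h | h <;> rw [h] <;>
    simp only [wsum, fv, List.map_cons, List.map_nil, List.sum_cons, List.sum_nil,
      Matrix.cons_val_zero, Matrix.cons_val_one, Matrix.cons_val] <;>
    constructor <;> rw [abs_le] <;> constructor <;> linarith

lemma w_hat_abs (h : Roots lam μ ν) {b : Fin 3} {p : List (Fin 3)} (h1 : p <+: hat sig b)
    (h2 : p ≠ hat sig b) : |wsum (fv μ) p| ≤ 4 ∧ |wsum (fv ν) p| ≤ 4 := by
  obtain ⟨i1, i2, i3, i4⟩ := inv_bounds h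
  obtain ⟨j1, j2, j3, j4⟩ := inv_bounds' h
  rcases pref_hat h1 h2 with h | h | h <;> rw [h] <;>
    simp only [wsum, fv, List.map_cons, List.map_nil, List.sum_cons, List.sum_nil,
      Matrix.cons_val_zero, Matrix.cons_val_one, Matrix.cons_val] <;>
    constructor <;> rw [abs_le] <;> constructor <;> linarith

/-- The bound of the fractal. -/
noncomputable def BB (ν : ℝ) : ℝ := 4 / (1 - |ν|)

lemma BB_facts (h : Roots lam μ ν) : |ν| < 1 ∧ |μ| < 1 ∧ |μ| ≤ |ν| ∧ 0 ≤ BB ν ∧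
    |ν| * BB ν + 4 ≤ BB ν ∧ |μ| * BB ν + 4 ≤ BB ν := by
  have a1 : |ν| = -ν := abs_of_neg (by linarith [h.n2])
  have a2 : |μ| = μ := abs_of_pos (by linarith [h.m1])
  have b1 : |ν| < 1 := by rw [a1]; linarith [h.n1]
  have b2 : 0 < 1 - |ν| := by linarith
  have b3 : 0 ≤ BB ν := by unfold BB; positivity
  have b4 : |μ| ≤ |ν| := by rw [a1, a2]; linarith [h.m2, h.n2]
  have b5 : |ν| * BB ν + 4 = BB ν := by unfold BB; field_simp; ring
  refine ⟨b1, by linarith, b4, b3, b5.le, ?_⟩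
  have := mul_le_mul_of_nonneg_right b4 b3
  linarith

lemma neg_wsum (f : Fin 3 → ℝ) (w : List (Fin 3)) : wsum (fun a => -f a) w = -wsum f w := by
  induction w with
  | nil => simp [wsum]
  | cons a w ih =>
    simp only [wsum, List.map_cons, List.sum_cons] at ih ⊢
    rw [ih]
    ring

/-- Facts about the words in `Pre sig`. -/
lemma pre_sig (h : Roots lam μ ν) {P : List (Fin 3)} (hP : Pre sig P) :
    0 ≤ wsum (fv μ) P ∧ |wsum (fv μ) P| ≤ BB ν ∧ |wsum (fv ν) P| ≤ BB ν ∧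
      ∀ m : ℕ, wsum (fv μ) P < 2 / 5 * μ ^ m → |wsum (fv ν) P| ≤ |ν| ^ m * BB ν := by
  obtain ⟨b1, b2, b3, b4, b5, b6⟩ := BB_facts h
  have m0 : 0 < μ := by linarith [h.m1]
  have f1 := fun a => fv_sig (t := μ) h.qm m0.ne' (by linarith [h.m2]) a
  have f2 := fun a => fv_sig (t := ν) h.qn (by linarith [h.n2]) (by linarith [h.n2]) a
  refine ⟨?_, ?_, ?_, ?_⟩
  · apply hP.nonneg f1 m0.le
    intro b p h1 h2
    rcases w_sig_low h h1 h2 with h3 | h3
    · rw [h3, wsum_nil]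
    · linarith
  · exact hP.bound f1 b6 b4 fun b p h1 h2 => (w_sig_abs h h1 h2).1
  · exact hP.bound f2 b5 b4 fun b p h1 h2 => (w_sig_abs h h1 h2).2
  · intro m hm
    exact Pre.quant f1 f2 m0 (by linarith [h.m2]) (show (0 : ℝ) < 2 / 5 by norm_num) b5 b4
      (fun b p h1 h2 => (w_sig_abs h h1 h2).2) (fun b p h1 h2 => w_sig_low h h1 h2) m P hP hm

/-- Facts about the words in `Pre (hat sig)`. -/
lemma pre_hat (h : Roots lam μ ν) {P : List (Fin 3)} (hP : Pre (hat sig) P) :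
    wsum (fv μ) P ≤ 0 ∧ |wsum (fv μ) P| ≤ BB ν ∧ |wsum (fv ν) P| ≤ BB ν ∧
      ∀ m : ℕ, -wsum (fv μ) P < 2 / 5 * μ ^ m → |wsum (fv ν) P| ≤ |ν| ^ m * BB ν := by
  obtain ⟨b1, b2, b3, b4, b5, b6⟩ := BB_facts h
  have m0 : 0 < μ := by linarith [h.m1]
  have f1' := fun a => fv_hat (t := μ) h.qm m0.ne' (by linarith [h.m2]) a
  have f1 : ∀ a, wsum (fun a => -fv μ a) (hat sig a) = μ * (fun a => -fv μ a) a := by
    intro a
    rw [neg_wsum, f1']
    ring
  have f2 := fun a => fv_hat (t := ν) h.qn (by linarith [h.n2]) (by linarith [h.n2]) a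
  refine ⟨?_, ?_, ?_, ?_⟩
  · have h1 := hP.nonneg f1 m0.le (fun b p h1 h2 => by
      rcases w_hat_low h h1 h2 with h3 | h3
      · rw [h3, wsum_nil]
      · linarith)
    rw [neg_wsum] at h1
    linarith
  · exact hP.bound f1' b6 b4 fun b p h1 h2 => (w_hat_abs h h1 h2).1
  · exact hP.bound f2 b5 b4 fun b p h1 h2 => (w_hat_abs h h1 h2).2
  · intro m hm
    rw [← neg_wsum] at hm
    exact Pre.quant f1 f2 m0 (by linarith [h.m2]) (show (0 : ℝ) < 2 / 5 by norm_num) b5 b4
      (fun b p h1 h2 => (w_hat_abs h h1 h2).2) (fun b p h1 h2 => w_hat_low h h1 h2) m P hP hm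

end

/-! ### From two-sided sequences to words -/

/-- The right half. -/
def rh (u : ℤ → Fin 3) (n : ℕ) : Fin 3 := u n

/-- The left half, read leftwards. -/
def lh (u : ℤ → Fin 3) (n : ℕ) : Fin 3 := u (-1 - n)

lemma powApply_eq (σ : Fin 3 → List (Fin 3)) (p : ℕ) (w : List (Fin 3)) :
    Rauzy.powApply σ p w = (S σ)^[p] w := rfl

lemma rightWord_eq (u : ℤ → Fin 3) (n : ℕ) : Rauzy.rightWord u n = pre (rh u) n := rfl

lemma leftWord_reverse (u : ℤ → Fin 3) (n : ℕ) : (Rauzy.leftWord u n).reverse = pre (lh u) n := by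
  unfold Rauzy.leftWord pre lh
  apply List.ext_getElem
  · simp
  · intro i h1 h2
    simp only [List.length_reverse, List.length_map, List.length_range] at h1
    rw [List.getElem_reverse, List.getElem_map, List.getElem_map, List.getElem_range,
      List.getElem_range]
    congr 1
    simp only [List.length_map, List.length_range]
    omega

lemma rh_fix {σ : Fin 3 → List (Fin 3)} {p : ℕ} {u : ℤ → Fin 3} (h : Rauzy.IsFixedPoint σ p u) :
    Fix σ p (rh u) := fun n => (h n).1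

lemma lh_fix {σ : Fin 3 → List (Fin 3)} {p : ℕ} {u : ℤ → Fin 3} (h : Rauzy.IsFixedPoint σ p u) :
    Fix (hat σ) p (lh u) := by
  intro n
  have h1 := (h n).2
  rw [powApply_eq] at h1
  have h2 := congrArg List.reverse h1
  rw [iter_reverse, leftWord_reverse, leftWord_reverse] at h2
  rw [h2, pre_length]

lemma isFixedPoint_of {σ : Fin 3 → List (Fin 3)} {u : ℤ → Fin 3} (h1 : Fix σ 1 (rh u))
    (h2 : Fix (hat σ) 1 (lh u)) : Rauzy.IsFixedPoint σ 1 u := by
  intro n
  refine ⟨h1 n, ?_⟩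
  rw [powApply_eq]
  apply List.reverse_injective
  have h3 := congrArg List.length (iter_reverse σ 1 (Rauzy.leftWord u n))
  rw [leftWord_reverse, List.length_reverse] at h3
  rw [iter_reverse, leftWord_reverse, leftWord_reverse, h2 n, h3]

lemma exists_two_sided {σ : Fin 3 → List (Fin 3)} {r l : ℕ → Fin 3} (hr : Fix σ 1 r)
    (hl : Fix (hat σ) 1 l) : ∃ u : ℤ → Fin 3, Rauzy.IsFixedPoint σ 1 u := by
  refine ⟨fun n => if 0 ≤ n then r n.toNat else l (-1 - n).toNat, ?_⟩
  apply isFixedPoint_of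
  · have : rh (fun n : ℤ => if 0 ≤ n then r n.toNat else l (-1 - n).toNat) = r := by
      ext n
      simp [rh]
    rw [this]
    exact hr
  · have : lh (fun n : ℤ => if 0 ≤ n then r n.toNat else l (-1 - n).toNat) = l := by
      funext n
      show (if (0 : ℤ) ≤ -1 - (n : ℤ) then r (-1 - (n : ℤ)).toNat
        else l (-1 - (-1 - (n : ℤ))).toNat) = l n
      rw [if_neg (by omega)]
      congr 1
      omega
    rw [this]
    exact hl

lemma sum_right (u : ℤ → Fin 3) (f : Fin 3 → ℝ) (n : ℕ) :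
    ∑ i ∈ Finset.Icc (0 : ℤ) n, f (u i) = wsum f (pre (rh u) (n + 1)) := by
  induction n with
  | zero => simp [pre, wsum, rh]
  | succ n ih =>
    rw [pre_succ, wsum_append, ← ih, wsum_one]
    have : Finset.Icc (0 : ℤ) ((n + 1 : ℕ) : ℤ) = insert (((n + 1 : ℕ) : ℤ)) (Finset.Icc 0 (n : ℤ)) := by
      ext i
      simp only [Finset.mem_Icc, Finset.mem_insert]
      push_cast
      omega
    rw [this, Finset.sum_insert (by simp), add_comm]
    rfl

lemma sum_left (u : ℤ → Fin 3) (f : Fin 3 → ℝ) (n : ℕ) :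
    ∑ i ∈ Finset.Icc (-(n : ℤ)) (-1), f (u i) = wsum f (pre (lh u) n) := by
  induction n with
  | zero => simp [pre, wsum]
  | succ n ih =>
    rw [pre_succ, wsum_append, ← ih, wsum_one]
    have : Finset.Icc (-((n + 1 : ℕ) : ℤ)) (-1) = insert (-1 - (n : ℤ)) (Finset.Icc (-(n : ℤ)) (-1)) := by
      ext i
      simp only [Finset.mem_Icc, Finset.mem_insert]
      push_cast
      omega
    rw [this, Finset.sum_insert (by simp), add_comm]
    rfl

/-- The value of an eigenfunctional at the vertices of the broken line. -/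
lemma FL_broken (t : ℝ) (u : ℤ → Fin 3) (n : ℤ) :
    (∃ m : ℕ, n = m ∧ FL t (Rauzy.broken u n) = wsum (fv t) (pre (rh u) (m + 1))) ∨
      ∃ m : ℕ, n = -(m : ℤ) - 1 ∧ FL t (Rauzy.broken u n) = -wsum (fv t) (pre (lh u) (m + 2)) := by
  unfold Rauzy.broken
  rcases le_or_gt 0 n with h | h
  · left
    refine ⟨n.toNat, by omega, ?_⟩
    rw [if_pos h, map_sum]
    simp_rw [FL_single]
    have h1 := sum_right u (fv t) n.toNat
    rw [show ((n.toNat : ℕ) : ℤ) = n by omega] at h1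
    exact h1
  · right
    refine ⟨(-n - 1).toNat, by omega, ?_⟩
    rw [if_neg (by omega), map_neg, map_sum]
    simp_rw [FL_single]
    have h1 := sum_left u (fv t) ((-n - 1).toNat + 2)
    rw [show -(((-n - 1).toNat + 2 : ℕ) : ℤ) = n - 1 by push_cast; omega] at h1
    rw [h1]

end Q76.Rz
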