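import Mathlib
import Pool.Agent.Q76.RzMain

/-!
# The example `1 ↦ 132`, `2 ↦ 12`, `3 ↦ 1`: the fractal in the contracting plane
-/

namespace Q76.Rz

open Set Topology Filter

variable {lam μ ν : ℝ}

lemma Roots.l0 (h : Roots lam μ ν) : lam ≠ 0 ∧ lam ≠ 1 :=
  ⟨by linarith [h.l1], by linarith [h.l1]⟩

lemma Roots.m0 (h : Roots lam μ ν) : μ ≠ 0 ∧ μ ≠ 1 :=
  ⟨by linarith [h.m1], by linarith [h.m2]⟩

lemma Roots.n0 (h : Roots lam μ ν) : ν ≠ 0 ∧ ν ≠ 1 :=
  ⟨by linarith [h.n2], by linarith [h.n2]⟩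

/-- The contracting plane. -/
noncomputable abbrev EsS (lam : ℝ) : Submodule ℝ (EuclideanSpace ℝ (Fin 3)) := Rauzy.Es sig lam

/-- The expanding line. -/
noncomputable abbrev EuS (lam : ℝ) : Submodule ℝ (EuclideanSpace ℝ (Fin 3)) := Rauzy.Eu sig lam

lemma FL_lam_Es (h : Roots lam μ ν) {x : EuclideanSpace ℝ (Fin 3)} (hx : x ∈ EsS lam) :
    FL lam x = 0 := by
  obtain ⟨z, rfl⟩ := hx
  rw [LinearMap.sub_apply, map_sub, FL_M h.ql h.l0.1 h.l0.2]
  simp

lemma FL_Eu {t : ℝ} (ht : qf t = 0) (h0 : t ≠ 0) (h1 : t ≠ 1) (hne : t ≠ lam)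
    {x : EuclideanSpace ℝ (Fin 3)} (hx : x ∈ EuS lam) : FL t x = 0 := by
  have h2 : (Rauzy.linM sig - lam • LinearMap.id :
      EuclideanSpace ℝ (Fin 3) →ₗ[ℝ] EuclideanSpace ℝ (Fin 3)) x = 0 := hx
  have h3 := congrArg (FL t) h2
  rw [LinearMap.sub_apply, map_sub, FL_M ht h0 h1, map_zero] at h3
  have h4 : (t - lam) * FL t x = 0 := by
    have : FL t ((lam • (LinearMap.id : EuclideanSpace ℝ (Fin 3) →ₗ[ℝ] _)) x) = lam * FL t x := by
      simp
    rw [this] at h3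
    linarith
  rcases mul_eq_zero.mp h4 with h5 | h5
  · exact absurd (sub_eq_zero.mp h5) hne
  · exact h5

lemma eq_zero_of_FL (h : Roots lam μ ν) {x : EuclideanSpace ℝ (Fin 3)} (h1 : FL lam x = 0)
    (h2 : FL μ x = 0) (h3 : FL ν x = 0) : x = 0 := by
  have key : ∀ t : ℝ, t ≠ 0 → t ≠ 1 → FL t x = 0 →
      x 0 * t ^ 2 + (-x 0 + x 1 + x 2) * t - x 2 = 0 := by
    intro t t0 t1 ht
    rw [FL_apply] at ht
    have t2 : t - 1 ≠ 0 := sub_ne_zero.mpr t1
    field_simp at ht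
    linear_combination ht
  have k1 := key lam h.l0.1 h.l0.2 h1
  have k2 := key μ h.m0.1 h.m0.2 h2
  have k3 := key ν h.n0.1 h.n0.2 h3
  have d1 : (lam - μ) * (x 0 * (lam + μ) + (-x 0 + x 1 + x 2)) = 0 := by linear_combination k1 - k2
  have d2 : (lam - ν) * (x 0 * (lam + ν) + (-x 0 + x 1 + x 2)) = 0 := by linear_combination k1 - k3
  have e1 : x 0 * (lam + μ) + (-x 0 + x 1 + x 2) = 0 := by
    rcases mul_eq_zero.mp d1 with h5 | h5
    · exfalso; linarith [h.l1, h.m2]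
    · exact h5
  have e2 : x 0 * (lam + ν) + (-x 0 + x 1 + x 2) = 0 := by
    rcases mul_eq_zero.mp d2 with h5 | h5
    · exfalso; linarith [h.l1, h.n2]
    · exact h5
  have e3 : (μ - ν) * x 0 = 0 := by linear_combination e1 - e2
  have e4 : x 0 = 0 := by
    rcases mul_eq_zero.mp e3 with h5 | h5
    · exfalso; linarith [h.m1, h.n2]
    · exact h5
  rw [e4] at e1 k1
  have e5 : x 2 = 0 := by
    have : (-0 + x 1 + x 2) = 0 := by linarith
    rw [this] at k1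
    linarith
  have e6 : x 1 = 0 := by linarith
  ext i
  fin_cases i
  · exact e4
  · exact e6
  · exact e5

lemma isCompl (h : Roots lam μ ν) : IsCompl (EsS lam) (EuS lam) := by
  have hd : Disjoint (EsS lam) (EuS lam) := by
    rw [Submodule.disjoint_def]
    intro x h1 h2
    exact eq_zero_of_FL h (FL_lam_Es h h1)
      (FL_Eu h.qm h.m0.1 h.m0.2 (by linarith [h.m2, h.l1]) h2)
      (FL_Eu h.qn h.n0.1 h.n0.2 (by linarith [h.n2, h.l1]) h2)
  refine ⟨hd, ?_⟩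
  rw [codisjoint_iff]
  exact Submodule.eq_top_of_disjoint (EsS lam) (EuS lam)
    (LinearMap.finrank_range_add_finrank_ker (Rauzy.linM sig - lam • LinearMap.id)).ge hd

lemma FL_proj {t : ℝ} (ht : qf t = 0) (h0 : t ≠ 0) (h1 : t ≠ 1)
    (hne : t ≠ lam) (hc : IsCompl (EsS lam) (EuS lam)) (x : EuclideanSpace ℝ (Fin 3)) :
    FL t ((Submodule.projectionOnto (EsS lam) (EuS lam) hc x : EsS lam) :
      EuclideanSpace ℝ (Fin 3)) = FL t x := by
  have h2 : x - ((Submodule.projectionOnto (EsS lam) (EuS lam) hc x : EsS lam) :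
      EuclideanSpace ℝ (Fin 3)) ∈ EuS lam := by
    rw [← Submodule.projectionOnto_apply_eq_zero_iff hc, map_sub,
      Submodule.projectionOnto_apply_left, sub_self]
  have h3 := FL_Eu ht h0 h1 hne h2
  rw [map_sub] at h3
  linarith


/-- The functional `FL t` on the contracting plane. -/
noncomputable def Gf (lam t : ℝ) : EsS lam →ₗ[ℝ] ℝ := (FL t).comp (EsS lam).subtype

lemma Gf_apply (t : ℝ) (x : EsS lam) : Gf lam t x = FL t (x : EuclideanSpace ℝ (Fin 3)) := rfl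

lemma Gf_cont (t : ℝ) : Continuous (Gf lam t) := LinearMap.continuous_of_finiteDimensional _

/-- Passing to the closure. -/
lemma closure_facts {E : Type*} [TopologicalSpace E] {A : Set E} {f g : E → ℝ} (hf : Continuous f)
    (hg : Continuous g) {B c μ ν : ℝ} (hc : 0 < c) (hμ : 0 < μ) (hν : |ν| < 1)
    (h : ∀ x ∈ A, 0 ≤ f x ∧ |f x| ≤ B ∧ |g x| ≤ B ∧
      ∀ m : ℕ, f x < c * μ ^ m → |g x| ≤ |ν| ^ m * B) {x : E} (hx : x ∈ closure A) :
    0 ≤ f x ∧ |f x| ≤ B ∧ |g x| ≤ B ∧ (f x = 0 → g x = 0) := by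
  refine ⟨?_, ?_, ?_, ?_⟩
  · exact closure_minimal (fun y hy => (h y hy).1) (isClosed_le continuous_const hf) hx
  · exact closure_minimal (fun y hy => (h y hy).2.1) (isClosed_le hf.abs continuous_const) hx
  · exact closure_minimal (fun y hy => (h y hy).2.2.1) (isClosed_le hg.abs continuous_const) hx
  · intro h0
    have h1 : ∀ m : ℕ, |g x| ≤ |ν| ^ m * B := by
      intro m
      have h2 : x ∈ {y | c * μ ^ m ≤ f y} ∪ {y | |g y| ≤ |ν| ^ m * B} := by
        refine closure_minimal (fun y hy => ?_) ((isClosed_le continuous_const hf).union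
          (isClosed_le hg.abs continuous_const)) hx
        rcases le_or_gt (c * μ ^ m) (f y) with h3 | h3
        · exact Or.inl h3
        · exact Or.inr ((h y hy).2.2.2 m h3)
      rcases h2 with h2 | h2
      · exfalso
        have h3 : c * μ ^ m ≤ f x := h2
        rw [h0] at h3
        have : 0 < c * μ ^ m := by positivity
        linarith
      · exact h2
    have h3 : Tendsto (fun m : ℕ => |ν| ^ m * B) atTop (𝓝 (0 * B)) :=
      (tendsto_pow_atTop_nhds_zero_of_lt_one (abs_nonneg ν) hν).mul_const B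
    rw [zero_mul] at h3
    exact abs_nonpos_iff.mp (ge_of_tendsto' h3 h1)

section

variable (h : Roots lam μ ν) (hc : IsCompl (EsS lam) (EuS lam))
include h

lemma broken_sig {p : ℕ} (hp : 1 ≤ p) {u : ℤ → Fin 3} (hu : Rauzy.IsFixedPoint sig p u) (n : ℤ) :
    0 ≤ FL μ (Rauzy.broken u n) ∧ |FL μ (Rauzy.broken u n)| ≤ BB ν ∧
      |FL ν (Rauzy.broken u n)| ≤ BB ν ∧ ∀ m : ℕ, FL μ (Rauzy.broken u n) < 2 / 5 * μ ^ m →
        |FL ν (Rauzy.broken u n)| ≤ |ν| ^ m * BB ν := by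
  have hr : ∀ k, Pre sig (pre (rh u) k) := (rh_fix hu).pre grow_sig hp
  have hl : ∀ k, Pre (hat sig) (pre (lh u) k) := (lh_fix hu).pre grow_hat hp
  rcases FL_broken μ u n with ⟨m, hm, e⟩ | ⟨m, hm, e⟩
  · rcases FL_broken ν u n with ⟨m', hm', e'⟩ | ⟨m', hm', e'⟩
    · have : m' = m := by omega
      rw [this] at e'
      rw [e, e']
      exact pre_sig h (hr (m + 1))
    · omega
  · rcases FL_broken ν u n with ⟨m', hm', e'⟩ | ⟨m', hm', e'⟩
    · omega
    · have : m' = m := by omega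
      rw [this] at e'
      rw [e, e', abs_neg, abs_neg]
      obtain ⟨a1, a2, a3, a4⟩ := pre_hat h (hl (m + 2))
      exact ⟨by linarith, a2, a3, a4⟩

lemma broken_rev {p : ℕ} (hp : 1 ≤ p) {u : ℤ → Fin 3}
    (hu : Rauzy.IsFixedPoint (Rauzy.rev sig) p u) (n : ℤ) :
    FL μ (Rauzy.broken u n) ≤ 0 := by
  have hr : ∀ k, Pre (hat sig) (pre (rh u) k) := by
    have := (rh_fix hu).pre (show Grow (Rauzy.rev sig) from grow_hat) hp
    exact this
  have hl : ∀ k, Pre sig (pre (lh u) k) := by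
    have h1 := lh_fix hu
    have h2 : hat (Rauzy.rev sig) = sig := hat_hat sig
    rw [h2] at h1
    exact h1.pre grow_sig hp
  rcases FL_broken μ u n with ⟨m, hm, e⟩ | ⟨m, hm, e⟩
  · rw [e]
    exact (pre_hat h (hr (m + 1))).1
  · rw [e]
    have := (pre_sig h (hl (m + 2))).1
    linarith

lemma fractal_sig {p : ℕ} (hp : 1 ≤ p) {u : ℤ → Fin 3} (hu : Rauzy.IsFixedPoint sig p u)
    {x : EsS lam} (hx : x ∈ Rauzy.fractal hc u) : 0 ≤ Gf lam μ x ∧ |Gf lam μ x| ≤ BB ν ∧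
      |Gf lam ν x| ≤ BB ν ∧ (Gf lam μ x = 0 → Gf lam ν x = 0) := by
  refine closure_facts (Gf_cont μ) (Gf_cont ν) (show (0 : ℝ) < 2 / 5 by norm_num)
    (show 0 < μ by linarith [h.m1]) (BB_facts h).1 ?_ hx
  rintro _ ⟨n, rfl⟩
  simp only [Gf_apply]
  rw [FL_proj h.qm h.m0.1 h.m0.2 (by linarith [h.m2, h.l1]) hc,
    FL_proj h.qn h.n0.1 h.n0.2 (by linarith [h.n2, h.l1]) hc]
  exact broken_sig h hp hu n

lemma fractal_rev {p : ℕ} (hp : 1 ≤ p) {u : ℤ → Fin 3}
    (hu : Rauzy.IsFixedPoint (Rauzy.rev sig) p u)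
    {x : EsS lam} (hx : x ∈ Rauzy.fractal hc u) : Gf lam μ x ≤ 0 := by
  refine closure_minimal (t := {y | Gf lam μ y ≤ 0}) ?_ (isClosed_le (Gf_cont μ) continuous_const) hx
  rintro _ ⟨n, rfl⟩
  show Gf lam μ _ ≤ 0
  rw [Gf_apply, FL_proj h.qm h.m0.1 h.m0.2 (by linarith [h.m2, h.l1]) hc]
  exact broken_rev h hp hu n

lemma Gf_inj {x : EsS lam} (h1 : Gf lam μ x = 0) (h2 : Gf lam ν x = 0) : x = 0 := by
  apply Subtype.ext
  exact eq_zero_of_FL h (FL_lam_Es h x.2) h1 h2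

lemma inter_sub {p q : ℕ} (hp : 1 ≤ p) (hq : 1 ≤ q) {u v : ℤ → Fin 3}
    (hu : Rauzy.IsFixedPoint sig p u) (hv : Rauzy.IsFixedPoint (Rauzy.rev sig) q v) :
    Rauzy.fractal hc u ∩ Rauzy.fractal hc v ⊆ {0} := by
  rintro x ⟨h1, h2⟩
  obtain ⟨a1, a2, a3, a4⟩ := fractal_sig h hc hp hu h1
  have a5 := fractal_rev h hc hq hv h2
  have a6 : Gf lam μ x = 0 := le_antisymm a5 a1
  exact Gf_inj h a6 (a4 a6)

/-- The boundary of the intersection has dimension zero. -/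
theorem dimH_inter {p q : ℕ} (hp : 1 ≤ p) (hq : 1 ≤ q) {u v : ℤ → Fin 3}
    (hu : Rauzy.IsFixedPoint sig p u) (hv : Rauzy.IsFixedPoint (Rauzy.rev sig) q v) :
    dimH (frontier (Rauzy.fractal hc u ∩ Rauzy.fractal hc v)) = 0 := by
  have h1 : frontier (Rauzy.fractal hc u ∩ Rauzy.fractal hc v) ⊆ {0} := by
    calc frontier _ ⊆ closure _ := frontier_subset_closure
      _ ⊆ closure {0} := closure_mono (inter_sub h hc hp hq hu hv)
      _ = {0} := closure_singleton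
  exact le_antisymm ((dimH_mono h1).trans (dimH_singleton _).le) bot_le

lemma compact_fractal {p : ℕ} (hp : 1 ≤ p) {u : ℤ → Fin 3} (hu : Rauzy.IsFixedPoint sig p u) :
    IsCompact (Rauzy.fractal hc u) := by
  apply Metric.isCompact_of_isClosed_isBounded isClosed_closure
  set f : EsS lam →ₗ[ℝ] ℝ × ℝ := (Gf lam μ).prod (Gf lam ν) with hf
  have hker : LinearMap.ker f = ⊥ := by
    rw [LinearMap.ker_eq_bot']
    intro x hx
    have h1 : Gf lam μ x = 0 := congrArg Prod.fst hx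
    have h2 : Gf lam ν x = 0 := congrArg Prod.snd hx
    exact Gf_inj h h1 h2
  obtain ⟨K, hK0, hK⟩ := f.exists_antilipschitzWith hker
  have h1 : Rauzy.fractal hc u ⊆ f ⁻¹' (Metric.closedBall 0 (BB ν)) := by
    intro x hx
    obtain ⟨a1, a2, a3, a4⟩ := fractal_sig h hc hp hu hx
    rw [mem_preimage, Metric.mem_closedBall, dist_zero_right, Prod.norm_def]
    exact max_le a2 a3
  exact (hK.isBounded_preimage Metric.isBounded_closedBall).subset h1

end

end Q76.Rz
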