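import Mathlib
import Pool.Agent.Q76.RzGeo

/-!
# The example `1 ↦ 132`, `2 ↦ 12`, `3 ↦ 1`: the boundary of the fractal is not small
-/

namespace Q76.Rz

open Set Topology Filter

variable {lam μ ν : ℝ}

/-- Prefixes with prescribed digits. -/
def Vw (ε : ℕ → Bool) : ℕ → List (Fin 3)
  | 0 => []
  | m + 1 => if ε m then (S sig)^[2 * m + 1] [0] ++ Vw ε m else Vw ε m

lemma iter_append (σ : Fin 3 → List (Fin 3)) (n : ℕ) (v w : List (Fin 3)) :
    (S σ)^[n] (v ++ w) = (S σ)^[n] v ++ (S σ)^[n] w := by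
  induction n with
  | zero => rfl
  | succ n ih => rw [Function.iterate_succ_apply', ih, S_append, Function.iterate_succ_apply',
      Function.iterate_succ_apply']

lemma iter_two (m : ℕ) : (S sig)^[2 * m + 1] [0] ++ (S sig)^[2 * m] [0] <+:
    (S sig)^[2 * (m + 1)] [0] := by
  have h1 : (S sig)^[2 * (m + 1)] [0] = (S sig)^[2 * m] ((S sig)^[2] [0]) := by
    rw [← Function.iterate_add_apply]
    congr 1
  have h2 : (S sig)^[2] ([0] : List (Fin 3)) = [0, 2, 1] ++ ([0] ++ [0, 1]) := by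
    simp [S, sig]
  have h3 : (S sig)^[2 * m + 1] ([0] : List (Fin 3)) = (S sig)^[2 * m] [0, 2, 1] := by
    rw [Function.iterate_add_apply]
    congr 1
  rw [h1, h2, h3, iter_append, iter_append, ← List.append_assoc]
  exact List.prefix_append _ _

lemma iter_mono (n : ℕ) : (S sig)^[n] ([0] : List (Fin 3)) <+: (S sig)^[n + 1] [0] := by
  rw [Function.iterate_succ_apply]
  apply iter_prefix
  simp [S, sig]

lemma iter_mono' {n m : ℕ} (h : n ≤ m) : (S sig)^[n] ([0] : List (Fin 3)) <+: (S sig)^[m] [0] := by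
  induction m, h using Nat.le_induction with
  | base => exact List.prefix_rfl
  | succ m _ ih => exact ih.trans (iter_mono m)

lemma Vw_prefix (ε : ℕ → Bool) (m : ℕ) : Vw ε m <+: (S sig)^[2 * m] [0] := by
  induction m with
  | zero => simp [Vw]
  | succ m ih =>
    unfold Vw
    split_ifs with h
    · exact ((List.prefix_append_right_inj _).mpr ih).trans (iter_two m)
    · exact ih.trans (iter_mono' (by omega))

lemma Vw_wsum (h : Roots lam μ ν) (ε : ℕ → Bool) (m : ℕ) :
    wsum (fv ν) (Vw ε m) = ν * ∑ i ∈ Finset.range m, (if ε i then (ν ^ 2) ^ i else 0) := by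
  induction m with
  | zero => simp [Vw, wsum]
  | succ m ih =>
    rw [Finset.sum_range_succ]
    unfold Vw
    split_ifs with h1
    · rw [wsum_append, ih, wsum_iter (fv_sig h.qn h.n0.1 h.n0.2), wsum_one]
      simp only [fv, Matrix.cons_val_zero]
      ring
    · rw [ih]
      ring

/-- Greedy expansions. -/
lemma greedy {ρ : ℝ} (h1 : 1 / 2 ≤ ρ) (h2 : ρ < 1) : ∀ (m : ℕ) (y : ℝ), 0 ≤ y →
    y ≤ 1 / (1 - ρ) → ∃ ε : ℕ → Bool,
      |y - ∑ i ∈ Finset.range m, (if ε i then ρ ^ i else 0)| ≤ ρ ^ m / (1 - ρ) := by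
  have h3 : 0 < 1 - ρ := by linarith
  have h4 : 0 < ρ := by linarith
  intro m
  induction m with
  | zero =>
    intro y hy1 hy2
    refine ⟨fun _ => false, ?_⟩
    simp only [Finset.range_zero, Finset.sum_empty, sub_zero, pow_zero]
    rw [abs_of_nonneg hy1]
    exact hy2
  | succ m ih =>
    intro y hy1 hy2
    -- the first digit `b` and the rest
    obtain ⟨b, hb1, hb2⟩ : ∃ b : Bool, 0 ≤ (y - (if b then 1 else 0)) / ρ ∧
        (y - (if b then 1 else 0)) / ρ ≤ 1 / (1 - ρ) := by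
      rcases le_or_gt 1 y with hy | hy
      · refine ⟨true, ?_, ?_⟩
        · simp only [if_true]
          exact div_nonneg (by linarith) h4.le
        · simp only [if_true]
          rw [div_le_iff₀ h4]
          have : 1 / (1 - ρ) * ρ = 1 / (1 - ρ) - 1 := by field_simp; ring
          linarith
      · refine ⟨false, ?_, ?_⟩
        · simp only [Bool.false_eq_true, if_false, sub_zero]
          exact div_nonneg hy1 h4.le
        · simp only [Bool.false_eq_true, if_false, sub_zero]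
          rw [div_le_iff₀ h4]
          have : 1 ≤ 1 / (1 - ρ) * ρ := by
            rw [one_div, inv_mul_eq_div, le_div_iff₀ h3]
            linarith
          linarith
    obtain ⟨ε, hε⟩ := ih _ hb1 hb2
    refine ⟨fun i => if i = 0 then b else ε (i - 1), ?_⟩
    rw [Finset.sum_range_succ']
    simp only [Nat.add_eq_zero_iff, one_ne_zero, and_false, if_false, Nat.add_sub_cancel, if_true,
      pow_zero]
    have e1 : ∑ i ∈ Finset.range m, (if ε i then ρ ^ (i + 1) else 0) =
        ρ * ∑ i ∈ Finset.range m, (if ε i then ρ ^ i else 0) := by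
      rw [Finset.mul_sum]
      apply Finset.sum_congr rfl
      intro i _
      split_ifs
      · ring
      · ring
    rw [e1]
    have e2 : y - (ρ * ∑ i ∈ Finset.range m, (if ε i then ρ ^ i else 0) + (if b then 1 else 0)) =
        ρ * ((y - (if b then 1 else 0)) / ρ -
          ∑ i ∈ Finset.range m, (if ε i then ρ ^ i else 0)) := by
      field_simp
      ring
    rw [e2, abs_mul, abs_of_pos h4]
    calc ρ * _ ≤ ρ * (ρ ^ m / (1 - ρ)) := mul_le_mul_of_nonneg_left hε h4.le
      _ = ρ ^ (m + 1) / (1 - ρ) := by ring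

section

variable (h : Roots lam μ ν) (hc : IsCompl (EsS lam) (EuS lam))
include h

/-- The projections of the vertices contain the values of the words `Vw`. -/
lemma Vw_mem {p : ℕ} (hp : 1 ≤ p) {u : ℤ → Fin 3} (hu : Rauzy.IsFixedPoint sig p u)
    (ε : ℕ → Bool) (m : ℕ) (hne : Vw ε m ≠ []) : ∃ x ∈ Rauzy.fractal hc u,
      Gf lam ν x = wsum (fv ν) (Vw ε m) := by
  have hr := rh_fix hu
  -- the first letter is `0`
  have h0 : rh u 0 = 0 := by
    have h1 := hr 1
    have e1 : pre (rh u) 1 = [rh u 0] := by simp [pre]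
    obtain ⟨k, rfl⟩ : ∃ k, p = k + 1 := ⟨p - 1, by omega⟩
    have h2 : [(0 : Fin 3)] <+: (S sig)^[k + 1] [rh u 0] := by
      rw [Function.iterate_succ_apply']
      have h3 := grow_sig.iter_ne (w := [rh u 0]) (by simp) k
      obtain ⟨b, t, hbt⟩ := List.exists_cons_of_ne_nil h3
      rw [hbt, S_cons]
      fin_cases b <;> simp [sig]
    rw [e1] at h1
    rw [h1] at h2
    have h4 := eq_pre_of_prefix h2
    rw [List.length_singleton, e1] at h4
    exact (List.singleton_injective h4).symm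
  have h1 : Vw ε m <+: pre (rh u) ((S sig)^[p * (2 * m)] (pre (rh u) 1)).length := by
    rw [← hr.iter]
    have e1 : pre (rh u) 1 = [0] := by simp [pre, h0]
    rw [e1]
    exact (Vw_prefix ε m).trans (iter_mono' (Nat.le_mul_of_pos_left _ hp))
  have h2 := eq_pre_of_prefix h1
  have h3 : 1 ≤ (Vw ε m).length := List.length_pos_of_ne_nil hne
  refine ⟨Submodule.projectionOnto (EsS lam) (EuS lam) hc
    (Rauzy.broken u (((Vw ε m).length - 1 : ℕ) : ℤ)), subset_closure ⟨_, rfl⟩, ?_⟩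
  rw [Gf_apply, FL_proj h.qn h.n0.1 h.n0.2 (by linarith [h.n2, h.l1]) hc]
  rcases FL_broken ν u (((Vw ε m).length - 1 : ℕ) : ℤ) with ⟨m', hm', e'⟩ | ⟨m', hm', e'⟩
  · rw [e']
    have : m' + 1 = (Vw ε m).length := by omega
    rw [this, ← h2]
  · omega

/-- The image of the fractal under the second functional contains an interval. -/
lemma nu_interval {p : ℕ} (hp : 1 ≤ p) {u : ℤ → Fin 3} (hu : Rauzy.IsFixedPoint sig p u)
    {y : ℝ} (hy0 : 0 < y) (hy1 : y ≤ 1 / (1 - ν ^ 2)) :
    ν * y ∈ Gf lam ν '' Rauzy.fractal hc u := by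
  have hρ1 : 1 / 2 ≤ ν ^ 2 := by nlinarith [h.n2]
  have hρ2 : ν ^ 2 < 1 := by nlinarith [h.n1, h.n2]
  have hcl : IsClosed (Gf lam ν '' Rauzy.fractal hc u) :=
    ((compact_fractal h hc hp hu).image (Gf_cont ν)).isClosed
  have hlim : Tendsto (fun m : ℕ => (ν ^ 2) ^ m / (1 - ν ^ 2)) atTop (𝓝 (0 / (1 - ν ^ 2))) :=
    (tendsto_pow_atTop_nhds_zero_of_lt_one (by positivity) hρ2).div_const _
  rw [zero_div] at hlim
  choose ε hε using fun m => greedy hρ1 hρ2 m y hy0.le hy1
  have hlim2 : Tendsto (fun m : ℕ => wsum (fv ν) (Vw (ε m) m)) atTop (𝓝 (ν * y)) := by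
    rw [tendsto_iff_dist_tendsto_zero]
    refine squeeze_zero (fun m => dist_nonneg) (fun m => ?_) hlim
    rw [Vw_wsum h, Real.dist_eq, ← mul_sub, abs_mul, abs_sub_comm]
    calc |ν| * _ ≤ 1 * _ := mul_le_mul_of_nonneg_right (BB_facts h).1.le (abs_nonneg _)
      _ ≤ _ := by rw [one_mul]; exact hε m
  refine hcl.mem_of_tendsto hlim2 ?_
  have hev : ∀ᶠ m : ℕ in atTop, (ν ^ 2) ^ m / (1 - ν ^ 2) < y := (tendsto_order.mp hlim).2 y hy0
  filter_upwards [hev] with m hm
  have hne : Vw (ε m) m ≠ [] := by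
    intro h1
    have h2 := Vw_wsum h (ε m) m
    rw [h1, wsum_nil] at h2
    have h3 : ∑ i ∈ Finset.range m, (if ε m i then (ν ^ 2) ^ i else 0) = 0 := by
      rcases mul_eq_zero.mp h2.symm with h4 | h4
      · exact absurd h4 h.n0.1
      · exact h4
    have h5 := hε m
    rw [h3, sub_zero, abs_of_pos hy0] at h5
    linarith
  obtain ⟨x, hx1, hx2⟩ := Vw_mem h hc hp hu (ε m) m hne
  exact ⟨x, hx1, hx2⟩

/-- A direction in the contracting plane. -/
lemma exists_dir : ∃ d : EsS lam, 0 < Gf lam μ d ∧ Gf lam ν d = 0 := by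
  set d0 : EuclideanSpace ℝ (Fin 3) := !₂[1, 1 / (μ - 1), 1 / μ] with hd0
  have m0 := h.m0.1
  have m1 : μ - 1 ≠ 0 := sub_ne_zero.mpr h.m0.2
  have e0 : d0 0 = 1 := rfl
  have e1 : d0 1 = 1 / (μ - 1) := rfl
  have e2 : d0 2 = 1 / μ := rfl
  have hM : Rauzy.linM sig d0 = μ • d0 := by
    have k1 := key_id h.qm h.m0.1 h.m0.2
    have k2 := key_id2 h.m0.2
    ext i
    fin_cases i
    · show (Rauzy.linM sig d0) 0 = μ * d0 0
      rw [M0, e0, e1, e2]
      linarith
    · show (Rauzy.linM sig d0) 1 = μ * d0 1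
      rw [M1, e0, e1]
      exact k2
    · show (Rauzy.linM sig d0) 2 = μ * d0 2
      rw [M2, e0, e2]
      field_simp
  have hne : μ - lam ≠ 0 := by
    have := h.m2
    have := h.l1
    intro h0
    linarith
  have hmem : d0 ∈ EsS lam := by
    refine ⟨(μ - lam)⁻¹ • d0, ?_⟩
    rw [map_smul, LinearMap.sub_apply, hM]
    rw [LinearMap.smul_apply, LinearMap.id_apply, ← sub_smul, smul_smul, inv_mul_cancel₀ hne,
      one_smul]
  refine ⟨⟨d0, hmem⟩, ?_, ?_⟩
  · rw [Gf_apply]
    show 0 < FL μ d0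
    rw [FL_apply, e0, e1, e2]
    have : 0 ≤ 1 / (μ - 1) * (1 / (μ - 1)) := mul_self_nonneg _
    have : 0 ≤ 1 / μ * (1 / μ) := mul_self_nonneg _
    linarith
  · rw [Gf_apply]
    show FL ν d0 = 0
    have h1 := FL_M h.qn h.n0.1 h.n0.2 d0
    rw [hM, map_smul, smul_eq_mul] at h1
    have h2 : (μ - ν) * FL ν d0 = 0 := by linarith
    rcases mul_eq_zero.mp h2 with h3 | h3
    · exfalso; linarith [h.m1, h.n2]
    · exact h3

/-- The frontier has the same image under the second functional. -/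
lemma frontier_image {p : ℕ} (hp : 1 ≤ p) {u : ℤ → Fin 3} (hu : Rauzy.IsFixedPoint sig p u)
    {x : EsS lam} (hx : x ∈ Rauzy.fractal hc u) :
    Gf lam ν x ∈ Gf lam ν '' frontier (Rauzy.fractal hc u) := by
  obtain ⟨d, hd1, hd2⟩ := exists_dir h
  set R := Rauzy.fractal hc u with hR
  have hRc : IsClosed R := isClosed_closure
  set T : Set ℝ := {t | x + t • d ∈ R} with hT
  have hcont : Continuous (fun t : ℝ => x + t • d) := by fun_prop
  have hTc : IsClosed T := hRc.preimage hcont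
  have hT0 : (0 : ℝ) ∈ T := by
    show x + (0 : ℝ) • d ∈ R
    rw [zero_smul, add_zero]
    exact hx
  have hTb : BddAbove T := by
    refine ⟨(BB ν - Gf lam μ x) / Gf lam μ d, ?_⟩
    intro t ht
    have h1 := (fractal_sig h hc hp hu ht).2.1
    rw [map_add, map_smul, smul_eq_mul] at h1
    rw [le_div_iff₀ hd1]
    have := (abs_le.mp h1).2
    linarith
  have hs := hTc.csSup_mem ⟨0, hT0⟩ hTb
  set s := sSup T with hsdef
  refine ⟨x + s • d, ?_, ?_⟩
  · rw [frontier, Set.mem_sdiff]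
    refine ⟨subset_closure hs, ?_⟩
    intro hint
    have h1 : (fun t : ℝ => x + t • d) ⁻¹' (interior R) ∈ 𝓝 s :=
      (isOpen_interior.preimage hcont).mem_nhds hint
    obtain ⟨δ, hδ, hδ2⟩ := Metric.mem_nhds_iff.mp h1
    have h2 : s + δ / 2 ∈ Metric.ball s δ := by
      rw [Metric.mem_ball, Real.dist_eq]
      have : s + δ / 2 - s = δ / 2 := by ring
      rw [this, abs_of_pos (by positivity)]
      linarith
    have h3' : x + (s + δ / 2) • d ∈ interior R := hδ2 h2
    have h3 : s + δ / 2 ∈ T := by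
      show x + (s + δ / 2) • d ∈ R
      exact interior_subset h3'
    have h4 := le_csSup hTb h3
    linarith
  · rw [map_add, map_smul, hd2, smul_zero, add_zero]

/-- The boundary of the fractal has dimension at least one. -/
theorem dimH_frontier {p : ℕ} (hp : 1 ≤ p) {u : ℤ → Fin 3} (hu : Rauzy.IsFixedPoint sig p u) :
    1 ≤ dimH (frontier (Rauzy.fractal hc u)) := by
  have hν : ν < 0 := by linarith [h.n2]
  have hρ2 : ν ^ 2 < 1 := by nlinarith [h.n1, h.n2]
  have hpos : 0 < 1 / (1 - ν ^ 2) := by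
    have : 0 < 1 - ν ^ 2 := by linarith
    positivity
  have h1 : Ioo (ν * (1 / (1 - ν ^ 2))) 0 ⊆ Gf lam ν '' frontier (Rauzy.fractal hc u) := by
    intro z hz
    have h2 : ν * (z / ν) = z := mul_div_cancel₀ z hν.ne
    have h3 : 0 < z / ν := div_pos_of_neg_of_neg hz.2 hν
    have h4 : z / ν ≤ 1 / (1 - ν ^ 2) := by
      rw [div_le_iff_of_neg hν]
      linarith [hz.1]
    obtain ⟨x, hx1, hx2⟩ := nu_interval h hc hp hu h3 h4
    rw [h2] at hx2
    rw [← hx2]
    exact frontier_image h hc hp hu hx1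
  have h2 : dimH (Ioo (ν * (1 / (1 - ν ^ 2))) 0) = 1 := by
    have h3 : (interior (Ioo (ν * (1 / (1 - ν ^ 2))) 0)).Nonempty := by
      rw [interior_Ioo]
      exact nonempty_Ioo.mpr (mul_neg_of_neg_of_pos hν hpos)
    have := Real.dimH_of_nonempty_interior h3
    simpa using this
  have hlip : ∃ K, LipschitzWith K (Gf lam ν) := by
    exact ⟨_, (LinearMap.toContinuousLinearMap (Gf lam ν)).lipschitz⟩
  obtain ⟨K, hK⟩ := hlip
  calc (1 : ENNReal) = dimH (Ioo (ν * (1 / (1 - ν ^ 2))) 0) := h2.symm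
    _ ≤ dimH (Gf lam ν '' frontier (Rauzy.fractal hc u)) := dimH_mono h1
    _ ≤ _ := hK.dimH_image_le _

end

end Q76.Rz
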