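import Mathlib

/-!
# Saw-tooth functions with slowly oscillating slopes
-/

namespace Q76.SawFunction

open MeasureTheory Filter Topology Set Metric
open scoped ENNReal NNReal

/-- The inverse scales. -/
noncomputable def M (k : ℕ) : ℝ := 2 ^ (k ^ 2)

lemma M_pos (k : ℕ) : 0 < M k := by unfold M; positivity

lemma M_zero : M 0 = 1 := by simp [M]

lemma M_add (k j : ℕ) : 2 ^ j * M k ≤ M (j + k) := by
  unfold M
  rw [← pow_add]
  apply pow_le_pow_right₀ (by norm_num)
  nlinarith [Nat.zero_le k, Nat.zero_le j, Nat.le_self_pow (n := 2) (by norm_num) j,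
    Nat.zero_le (j * k)]

lemma one_div_M_add (k j : ℕ) : 1 / M (j + k) ≤ (1 / 2) ^ j * (1 / M k) := by
  have h1 := M_pos k
  have h2 : (1 / 2 : ℝ) ^ j * (1 / M k) = 1 / (2 ^ j * M k) := by
    rw [one_div_pow]
    field_simp
  rw [h2]
  exact one_div_le_one_div_of_le (by positivity) (M_add k j)

lemma one_div_M_le (j : ℕ) : 1 / M j ≤ (1 / 2) ^ j := by
  simpa [M_zero] using one_div_M_add 0 j

lemma M_mono {j k : ℕ} (h : j ≤ k) : M j ≤ M k := by
  unfold M
  apply pow_le_pow_right₀ (by norm_num)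
  gcongr

lemma M_ratio (k : ℕ) : M k / M (k + 1) ≤ (1 / 2) ^ k := by
  unfold M
  rw [one_div_pow, div_le_div_iff₀ (by positivity) (by positivity), ← pow_add, one_mul]
  apply pow_le_pow_right₀ (by norm_num)
  nlinarith

/-- The increments of a sequence. -/
def inc (s : ℕ → ℝ) : ℕ → ℝ
  | 0 => s 0
  | k + 1 => s (k + 1) - s k

lemma sum_inc (s : ℕ → ℝ) (k : ℕ) : ∑ j ∈ Finset.range (k + 1), inc s j = s k := by
  induction k with
  | zero => simp [inc]
  | succ k ih => rw [Finset.sum_range_succ, ih]; simp [inc]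

lemma abs_inc_le {s : ℕ → ℝ} (hs : ∀ k, s k ∈ Icc (0 : ℝ) 1) (k : ℕ) : |inc s k| ≤ 1 := by
  cases k with
  | zero =>
    simp only [inc]
    rw [abs_of_nonneg (hs 0).1]
    exact (hs 0).2
  | succ k =>
    simp only [inc]
    rw [abs_le]
    constructor <;> linarith [(hs k).1, (hs k).2, (hs (k + 1)).1, (hs (k + 1)).2]

/-- The saw-teeth. -/
noncomputable def term (s : ℕ → ℝ) (j : ℕ) (x : ℝ) : ℝ := inc s j * (Int.fract (M j * x) / M j)

/-- The function. -/
noncomputable def g (s : ℕ → ℝ) (x : ℝ) : ℝ := ∑' j, term s j x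

/-- The tails. -/
noncomputable def tail (s : ℕ → ℝ) (k : ℕ) (x : ℝ) : ℝ := ∑' j, term s (j + k) x

lemma abs_term_le {s : ℕ → ℝ} {B : ℝ} {j : ℕ} (h : |inc s j| ≤ B) (x : ℝ) :
    |term s j x| ≤ B * (1 / M j) := by
  have hM := M_pos j
  have hB : 0 ≤ B := (abs_nonneg _).trans h
  unfold term
  rw [abs_mul, abs_div, abs_of_pos hM]
  have h1 : |Int.fract (M j * x)| ≤ 1 := by
    rw [abs_of_nonneg (Int.fract_nonneg _)]
    exact (Int.fract_lt_one _).le
  gcongr

lemma abs_term_sub_le {s : ℕ → ℝ} {B : ℝ} {j : ℕ} (h : |inc s j| ≤ B) (x y : ℝ) :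
    |term s j y - term s j x| ≤ B * (1 / M j) := by
  have hM := M_pos j
  have hB : 0 ≤ B := (abs_nonneg _).trans h
  unfold term
  rw [← mul_sub, ← sub_div, abs_mul, abs_div, abs_of_pos hM]
  have h1 : |Int.fract (M j * y) - Int.fract (M j * x)| ≤ 1 := by
    rw [abs_le]
    constructor <;> linarith [Int.fract_nonneg (M j * y), Int.fract_nonneg (M j * x),
      (Int.fract_lt_one (M j * y)).le, (Int.fract_lt_one (M j * x)).le]
  gcongr

variable {s : ℕ → ℝ}

lemma summable_term (hs : ∀ k, s k ∈ Icc (0 : ℝ) 1) (k : ℕ) (x : ℝ) :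
    Summable fun j => term s (j + k) x := by
  refine Summable.of_norm_bounded (summable_geometric_two.mul_right (1 / M k)) fun j => ?_
  rw [Real.norm_eq_abs]
  refine (abs_term_le (abs_inc_le hs _) x).trans ?_
  rw [one_mul]
  exact one_div_M_add k j

lemma g_eq (hs : ∀ k, s k ∈ Icc (0 : ℝ) 1) (k : ℕ) (x : ℝ) :
    g s x = ∑ j ∈ Finset.range k, term s j x + tail s k x :=
  ((summable_term hs 0 x).sum_add_tsum_nat_add k).symm

lemma tail_sub_le (hs : ∀ k, s k ∈ Icc (0 : ℝ) 1) {B : ℝ} {k : ℕ}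
    (hB : ∀ i, k ≤ i → |inc s i| ≤ B) (x y : ℝ) : |tail s k y - tail s k x| ≤ 2 * B / M k := by
  unfold tail
  have hB0 : 0 ≤ B := (abs_nonneg _).trans (hB k le_rfl)
  rw [← (summable_term hs k y).tsum_sub (summable_term hs k x), ← Real.norm_eq_abs]
  have h1 : ∀ j, ‖term s (j + k) y - term s (j + k) x‖ ≤ (1 / 2) ^ j * (B * (1 / M k)) := by
    intro j
    rw [Real.norm_eq_abs]
    refine (abs_term_sub_le (hB _ (Nat.le_add_left _ _)) x y).trans ?_
    calc B * (1 / M (j + k)) ≤ B * ((1 / 2) ^ j * (1 / M k)) := by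
          gcongr
          exact one_div_M_add k j
      _ = (1 / 2) ^ j * (B * (1 / M k)) := by ring
  have h2 := tsum_of_norm_bounded (summable_geometric_two.mul_right (B * (1 / M k))).hasSum h1
  rw [tsum_mul_right, tsum_geometric_two] at h2
  calc _ ≤ 2 * (B * (1 / M k)) := h2
    _ = 2 * B / M k := by ring

lemma floor_nested {x y : ℝ} {j k : ℕ} (hjk : j ≤ k) (h : ⌊M k * x⌋ = ⌊M k * y⌋) :
    ⌊M j * x⌋ = ⌊M j * y⌋ := by
  have e : ∀ z : ℝ, ⌊M j * z⌋ = ⌊M k * z⌋ / ((2 ^ (k ^ 2 - j ^ 2) : ℕ) : ℤ) := by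
    intro z
    have h1 : M j * z = M k * z / ((2 ^ (k ^ 2 - j ^ 2) : ℕ) : ℝ) := by
      have h2 : M k = M j * 2 ^ (k ^ 2 - j ^ 2) := by
        unfold M
        rw [← pow_add, Nat.add_sub_cancel' (by gcongr)]
      rw [h2]
      push_cast
      field_simp
    rw [h1, Int.floor_div_natCast]
  rw [e, e, h]

lemma term_sub {x y : ℝ} {j : ℕ} (h : ⌊M j * x⌋ = ⌊M j * y⌋) :
    term s j y - term s j x = inc s j * (y - x) := by
  have hM := (M_pos j).ne'
  unfold term Int.fract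
  rw [h]
  field_simp
  ring

lemma term_sub' (x y : ℝ) (j : ℕ) :
    term s j y - term s j x =
      inc s j * (y - x) - inc s j * ((⌊M j * y⌋ - ⌊M j * x⌋ : ℤ) : ℝ) / M j := by
  have hM := (M_pos j).ne'
  unfold term Int.fract
  push_cast
  field_simp
  ring

lemma sum_term_sub {x y : ℝ} {k : ℕ} (h : ⌊M k * x⌋ = ⌊M k * y⌋) :
    ∑ j ∈ Finset.range (k + 1), term s j y - ∑ j ∈ Finset.range (k + 1), term s j x =
      s k * (y - x) := by
  rw [← Finset.sum_sub_distrib, ← sum_inc s k, Finset.sum_mul]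
  apply Finset.sum_congr rfl
  intro j hj
  exact term_sub (floor_nested (by have := Finset.mem_range.mp hj; omega) h)

/-- Inside one cell of level `k` the function is almost affine with slope `s k`. -/
lemma g_sub_same (hs : ∀ k, s k ∈ Icc (0 : ℝ) 1) {B : ℝ} {k : ℕ}
    (hB : ∀ i, k + 1 ≤ i → |inc s i| ≤ B) {x y : ℝ} (h : ⌊M k * x⌋ = ⌊M k * y⌋) :
    |g s y - g s x - s k * (y - x)| ≤ 2 * B / M (k + 1) := by
  rw [g_eq hs (k + 1) y, g_eq hs (k + 1) x]
  have h1 := sum_term_sub (s := s) h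
  have h2 := tail_sub_le hs hB x y
  have e : ∑ j ∈ Finset.range (k + 1), term s j y + tail s (k + 1) y -
      (∑ j ∈ Finset.range (k + 1), term s j x + tail s (k + 1) x) - s k * (y - x) =
      tail s (k + 1) y - tail s (k + 1) x := by
    rw [← h1]; ring
  rw [e]
  exact h2

/-- Inside one cell of level `k` the function has, at the scale `k + 1`, jumps of a fixed sign. -/
lemma g_sub_jump (hs : ∀ k, s k ∈ Icc (0 : ℝ) 1) {B : ℝ} {k : ℕ}
    (hB : ∀ i, k + 2 ≤ i → |inc s i| ≤ B) {x y : ℝ} (h : ⌊M k * x⌋ = ⌊M k * y⌋) :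
    ∃ n T : ℝ, 0 ≤ n * (y - x) ∧ |T| ≤ 2 * B / M (k + 2) ∧
      g s y - g s x = s (k + 1) * (y - x) - inc s (k + 1) * n + T := by
  have hM := M_pos (k + 1)
  refine ⟨((⌊M (k + 1) * y⌋ - ⌊M (k + 1) * x⌋ : ℤ) : ℝ) / M (k + 1),
    tail s (k + 2) y - tail s (k + 2) x, ?_, tail_sub_le hs hB x y, ?_⟩
  · rcases le_total x y with hxy | hxy
    · apply mul_nonneg _ (sub_nonneg.mpr hxy)
      apply div_nonneg _ hM.le
      have : ⌊M (k + 1) * x⌋ ≤ ⌊M (k + 1) * y⌋ := Int.floor_le_floor (by gcongr)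
      exact_mod_cast sub_nonneg.mpr this
    · apply mul_nonneg_of_nonpos_of_nonpos _ (sub_nonpos.mpr hxy)
      apply div_nonpos_of_nonpos_of_nonneg _ hM.le
      have : ⌊M (k + 1) * y⌋ ≤ ⌊M (k + 1) * x⌋ := Int.floor_le_floor (by gcongr)
      exact_mod_cast sub_nonpos.mpr this
  · have h1 := sum_term_sub (s := s) h
    have h2 := term_sub' (s := s) x y (k + 1)
    rw [g_eq hs (k + 2) y, g_eq hs (k + 2) x, Finset.sum_range_succ _ (k + 1),
      Finset.sum_range_succ _ (k + 1)]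
    have h3 : inc s (k + 1) = s (k + 1) - s k := rfl
    have e : ∀ a b c d e' f' : ℝ, a + b + c - (d + e' + f') = (a - d) + (b - e') + (c - f') := by
      intros; ring
    rw [e, h1, h2, h3]
    ring

lemma measurable_g (hs : ∀ k, s k ∈ Icc (0 : ℝ) 1) : Measurable (g s) := by
  refine measurable_of_tendsto_metrizable (f := fun n x => ∑ j ∈ Finset.range n, term s j x)
    (fun n => ?_) (tendsto_pi_nhds.mpr fun x => ?_)
  · apply Finset.measurable_fun_sum
    intro j _
    unfold term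
    exact measurable_const.mul ((measurable_fract.comp (measurable_const.mul measurable_id)).div_const _)
  · exact (summable_term hs 0 x).hasSum.tendsto_sum_nat

end Q76.SawFunction
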