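import Mathlib

/-!
# Sets with two null projections meet every Lipschitz curve in an `ℋ¹`-null set
-/

namespace Q76.TwoProjections

open MeasureTheory Filter Topology Set Metric
open scoped ENNReal NNReal

/-- If `h` is bi-Lipschitz from below on `s` and `h '' s` is null then so is `s`. -/
lemma volume_eq_zero_of_expanding {h : ℝ → ℝ} {s : Set ℝ} {b : ℝ} (hb : 0 < b)
    (hexp : ∀ x ∈ s, ∀ y ∈ s, b * |x - y| ≤ |h x - h y|) (h0 : volume (h '' s) = 0) :
    volume s = 0 := by
  have hanti : AntilipschitzWith (Real.toNNReal b⁻¹) (s.domRestrict h) := by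
    refine AntilipschitzWith.of_le_mul_dist fun x y => ?_
    rw [Real.coe_toNNReal _ (by positivity), Subtype.dist_eq, Real.dist_eq, Real.dist_eq]
    have := hexp x x.2 y y.2
    simp only [domRestrict_apply]
    rw [inv_mul_eq_div, le_div_iff₀ hb]
    linarith
  have h1 := hanti.le_hausdorffMeasure_image (zero_le_one (α := ℝ)) (univ : Set s)
  have h2 : s.domRestrict h '' univ = h '' s := by
    rw [image_univ, range_domRestrict]
  have h3 : μH[(1 : ℝ)] ((Subtype.val : s → ℝ) '' univ) = μH[(1 : ℝ)] (univ : Set s) :=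
    isometry_subtype_coe.hausdorffMeasure_image (Or.inl zero_le_one) _
  rw [image_univ, Subtype.range_coe, hausdorffMeasure_real] at h3
  rw [h2, hausdorffMeasure_real, h0, mul_zero, ← h3] at h1
  exact le_antisymm h1 zero_le

variable {F : Type*} [NormedAddCommGroup F] [NormedSpace ℝ F] [MeasurableSpace F] [BorelSpace F]
  [SecondCountableTopology F]


/-- Main lemma for bounded sets of differentiability points. -/
lemma image_null {γ : ℝ → F} {γ' : ℝ → ℝ →L[ℝ] F} {E : Set F} {P Q : F →L[ℝ] ℝ}
    (hPQ : ∀ v, P v = 0 → Q v = 0 → v = 0) (hP : volume (P '' E) = 0) (hQ : volume (Q '' E) = 0)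
    {S : Set ℝ} (hS : ∀ x ∈ S, γ x ∈ E) (hSfin : volume S < ∞)
    (hd : ∀ x ∈ S, HasFDerivWithinAt γ (γ' x) S x) : μH[(1 : ℝ)] (γ '' S) = 0 := by
  have key : ∀ ε : ℝ≥0, 0 < ε → μH[(1 : ℝ)] (γ '' S) ≤ ε * volume S := by
    intro ε hε
    have hc : ∀ A : ℝ →L[ℝ] F, ∃ c : ℝ≥0, c ≠ 0 ∧ (A = 0 → c = ε) ∧
        (A ≠ 0 → ∀ s ⊆ S, ApproximatesLinearOn γ A s c → volume s = 0) := by
      intro A
      by_cases hA : A = 0
      · exact ⟨ε, hε.ne', fun _ => rfl, fun h => absurd hA h⟩
      · have hA1 : A 1 ≠ 0 := by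
          intro hcon
          apply hA
          ext
          simpa using hcon
        have hor : ∃ T : F →L[ℝ] ℝ, volume (T '' E) = 0 ∧ T (A 1) ≠ 0 := by
          by_cases hp : P (A 1) = 0
          · exact ⟨Q, hQ, fun hq => hA1 (hPQ _ hp hq)⟩
          · exact ⟨P, hP, hp⟩
        obtain ⟨T, hT0, hTA⟩ := hor
        set b : ℝ := |T (A 1)| with hb
        have hbpos : 0 < b := abs_pos.mpr hTA
        have hTpos : 0 < ‖T‖ + 1 := by positivity
        refine ⟨Real.toNNReal (b / (2 * (‖T‖ + 1))), ?_, fun h => absurd h hA, fun _ s hs hap => ?_⟩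
        · rw [ne_eq, Real.toNNReal_eq_zero, not_le]
          positivity
        · apply volume_eq_zero_of_expanding (h := fun x => T (γ x)) (b := b / 2) (by positivity)
          · intro x hx y hy
            have h1 := hap x hx y hy
            rw [Real.coe_toNNReal _ (by positivity)] at h1
            have h2 : A (x - y) = (x - y) • A 1 := by
              rw [← map_smul, smul_eq_mul, mul_one]
            have h3 : |T (γ x) - T (γ y) - (x - y) * T (A 1)| ≤ b / 2 * |x - y| := by
              have e : T (γ x) - T (γ y) - (x - y) * T (A 1) = T (γ x - γ y - A (x - y)) := by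
                rw [h2]
                simp
              rw [e]
              calc |T (γ x - γ y - A (x - y))| ≤ ‖T‖ * ‖γ x - γ y - A (x - y)‖ := T.le_opNorm _
                _ ≤ ‖T‖ * (b / (2 * (‖T‖ + 1)) * ‖x - y‖) := by gcongr
                _ = (‖T‖ / (‖T‖ + 1)) * (b / 2 * |x - y|) := by
                    rw [Real.norm_eq_abs]
                    field_simp
                _ ≤ 1 * (b / 2 * |x - y|) := by
                    gcongr
                    rw [div_le_one hTpos]
                    linarith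
                _ = b / 2 * |x - y| := one_mul _
            have h4 : |(x - y) * T (A 1)| = |x - y| * b := by rw [abs_mul]
            have h5 : |(x - y) * T (A 1)| ≤ |T (γ x) - T (γ y)| +
                |T (γ x) - T (γ y) - (x - y) * T (A 1)| := by
              have := abs_sub (T (γ x) - T (γ y)) (T (γ x) - T (γ y) - (x - y) * T (A 1))
              simpa using this
            have h6 : 0 ≤ |x - y| := abs_nonneg _
            rw [h4] at h5
            linarith
          · refine measure_mono_null ?_ hT0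
            rintro _ ⟨x, hx, rfl⟩
            exact ⟨γ x, hS x (hs hx), rfl⟩
    choose c hc0 hcε hcA using hc
    obtain ⟨t, A, htd, htm, hSt, hap, -⟩ :=
      exists_partition_approximatesLinearOn_of_hasFDerivWithinAt γ S γ' hd c hc0
    have hpiece : ∀ n, μH[(1 : ℝ)] (γ '' (S ∩ t n)) ≤ ε * volume (S ∩ t n) := by
      intro n
      by_cases hA : A n = 0
      · have hlip : LipschitzOnWith ε γ (S ∩ t n) := by
          refine LipschitzOnWith.of_dist_le_mul fun x hx y hy => ?_
          have h1 := hap n x hx y hy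
          rw [hA, hcε 0 rfl] at h1
          simpa [dist_eq_norm] using h1
        have h2 := hlip.hausdorffMeasure_image_le (zero_le_one (α := ℝ))
        simpa [hausdorffMeasure_real] using h2
      · have h1 : volume (S ∩ t n) = 0 := hcA (A n) hA _ inter_subset_left (hap n)
        have hlip : LipschitzOnWith (‖A n‖₊ + c (A n)) γ (S ∩ t n) := by
          have := (hap n).lipschitz
          rwa [lipschitzOnWith_iff_restrict]
        have h2 := hlip.hausdorffMeasure_image_le (zero_le_one (α := ℝ))
        rw [hausdorffMeasure_real, h1, mul_zero] at h2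
        exact h2.trans zero_le
    calc μH[(1 : ℝ)] (γ '' S) ≤ μH[(1 : ℝ)] (⋃ n, γ '' (S ∩ t n)) := by
          apply measure_mono
          rw [← image_iUnion, ← inter_iUnion, inter_eq_self_of_subset_left hSt]
      _ ≤ ∑' n, μH[(1 : ℝ)] (γ '' (S ∩ t n)) := measure_iUnion_le _
      _ ≤ ∑' n, ε * volume (S ∩ t n) := ENNReal.tsum_le_tsum hpiece
      _ = ε * ∑' n, volume (S ∩ t n) := ENNReal.tsum_mul_left
      _ ≤ ε * volume S := by
          gcongr
          have h1 : ∀ n, volume (S ∩ t n) = (volume.restrict S) (t n) := fun n => by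
            rw [Measure.restrict_apply (htm n), inter_comm]
          simp_rw [h1]
          rw [← measure_iUnion htd htm]
          exact (measure_mono (subset_univ _)).trans_eq (Measure.restrict_apply_univ _)
  by_contra hne
  have hpos : 0 < μH[(1 : ℝ)] (γ '' S) := pos_iff_ne_zero.mpr hne
  obtain ⟨ε, hε, hlt⟩ := ENNReal.exists_nnreal_pos_mul_lt hSfin.ne hpos.ne'
  exact absurd (key ε hε) (not_le.mpr hlt)

variable [FiniteDimensional ℝ F]

/-- A set with null images under two independent functionals meets every Lipschitz curve in an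
`ℋ¹`-null set. -/
theorem inter_range_null {γ : ℝ → F} {K : ℝ≥0} (hγ : LipschitzWith K γ) {E : Set F}
    {P Q : F →L[ℝ] ℝ} (hPQ : ∀ v, P v = 0 → Q v = 0 → v = 0) (hP : volume (P '' E) = 0)
    (hQ : volume (Q '' E) = 0) : μH[(1 : ℝ)] (E ∩ range γ) = 0 := by
  set D : Set ℝ := {x | DifferentiableAt ℝ γ x} with hD
  have hDc : volume Dᶜ = 0 := hγ.ae_differentiableAt
  have h1 : μH[(1 : ℝ)] (γ '' Dᶜ) = 0 := by
    have h2 := hγ.hausdorffMeasure_image_le (zero_le_one (α := ℝ)) Dᶜ
    rw [hausdorffMeasure_real, hDc, mul_zero] at h2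
    exact le_antisymm h2 zero_le
  have h2 : ∀ n : ℕ, μH[(1 : ℝ)] (γ '' (D ∩ γ ⁻¹' E ∩ Icc (-(n : ℝ)) n)) = 0 := by
    intro n
    refine image_null hPQ hP hQ (γ' := fun x => fderiv ℝ γ x) (fun x hx => hx.1.2) ?_ ?_
    · exact (measure_mono inter_subset_right).trans_lt (by rw [Real.volume_Icc]; exact
        ENNReal.ofReal_lt_top)
    · intro x hx
      exact (DifferentiableAt.hasFDerivAt hx.1.1).hasFDerivWithinAt
  refine measure_mono_null ?_ (measure_union_null h1 (measure_iUnion_null h2))
  rintro _ ⟨hE, x, rfl⟩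
  by_cases hx : x ∈ D
  · right
    obtain ⟨n, hn⟩ := exists_nat_ge |x|
    exact mem_iUnion.mpr ⟨n, x, ⟨⟨hx, hE⟩, abs_le.mp hn⟩, rfl⟩
  · exact Or.inl ⟨x, hx, rfl⟩

end Q76.TwoProjections
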