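import Mathlib
import Pool.Agent.Q76.SawFunction
import Pool.Agent.Q76.TwoProjections

/-!
# Geometric measure theory of the graph of a saw-tooth function
-/

namespace Q76.SawGraph

open MeasureTheory Filter Topology Set Metric Q76.SawFunction
open scoped ENNReal NNReal

/-- The Euclidean plane. -/
abbrev F := EuclideanSpace ℝ (Fin 2)

/-- The graph. -/
def E (s : ℕ → ℝ) : Set F := {p | p 0 ∈ Ico (0 : ℝ) 1 ∧ p 1 = g s (p 0)}

lemma continuous_coord (j : Fin 2) : Continuous (fun x : F => (x j : ℝ)) := by fun_prop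

lemma dist_le_add (p q : F) : dist p q ≤ |p 0 - q 0| + |p 1 - q 1| := by
  rw [EuclideanSpace.dist_eq, Fin.sum_univ_two, Real.dist_eq, Real.dist_eq]
  apply Real.sqrt_le_iff.mpr
  constructor
  · positivity
  · nlinarith [abs_nonneg (p 0 - q 0), abs_nonneg (p 1 - q 1)]

lemma abs_coord_le (p q : F) (j : Fin 2) : |p j - q j| ≤ dist p q := by
  have := PiLp.norm_apply_le (p - q) j
  rwa [Real.norm_eq_abs, PiLp.sub_apply, ← dist_eq_norm] at this

variable {s : ℕ → ℝ}

lemma measurableSet_E (hs : ∀ k, s k ∈ Icc (0 : ℝ) 1) : MeasurableSet (E s) := by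
  apply MeasurableSet.inter
  · exact measurableSet_Ico.preimage (continuous_coord 0).measurable
  · exact measurableSet_eq_fun (continuous_coord 1).measurable
      ((measurable_g hs).comp (continuous_coord 0).measurable)

lemma dist_same_cell (hs : ∀ k, s k ∈ Icc (0 : ℝ) 1) {k : ℕ} {p q : F} (hp : p ∈ E s)
    (hq : q ∈ E s) (h : ⌊M k * p 0⌋ = ⌊M k * q 0⌋) : dist p q ≤ 3 / M k := by
  have hM := M_pos k
  have h1 : |q 0 - p 0| ≤ 1 / M k := by
    have h2 : |M k * q 0 - M k * p 0| ≤ 1 := by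
      have a1 := Int.floor_le (M k * p 0)
      have a2 := Int.lt_floor_add_one (M k * p 0)
      have a3 := Int.floor_le (M k * q 0)
      have a4 := Int.lt_floor_add_one (M k * q 0)
      rw [← h] at a3 a4
      rw [abs_le]
      constructor <;> linarith
    rw [← mul_sub, abs_mul, abs_of_pos hM] at h2
    rw [le_div_iff₀ hM]
    linarith
  have h2 := g_sub_same hs (B := 1) (fun i _ => abs_inc_le hs i) h
  rw [← hp.2, ← hq.2] at h2
  have h3 : 2 * 1 / M (k + 1) ≤ 1 / M k := by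
    have := one_div_M_add k 1
    rw [add_comm 1 k] at this
    calc 2 * 1 / M (k + 1) = 2 * (1 / M (k + 1)) := by ring
      _ ≤ 2 * ((1 / 2) ^ 1 * (1 / M k)) := by gcongr
      _ = 1 / M k := by ring
  have h4 : |s k * (q 0 - p 0)| ≤ 1 / M k := by
    rw [abs_mul, abs_of_nonneg (hs k).1]
    calc s k * |q 0 - p 0| ≤ 1 * |q 0 - p 0| := by
          gcongr
          exact (hs k).2
      _ ≤ 1 / M k := by rw [one_mul]; exact h1
  have h5 : |q 1 - p 1| ≤ 2 / M k := by
    have : |q 1 - p 1| ≤ |q 1 - p 1 - s k * (q 0 - p 0)| + |s k * (q 0 - p 0)| := by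
      have := abs_add_le (q 1 - p 1 - s k * (q 0 - p 0)) (s k * (q 0 - p 0))
      simpa using this
    calc |q 1 - p 1| ≤ 2 * 1 / M (k + 1) + 1 / M k := by linarith
      _ ≤ 1 / M k + 1 / M k := by linarith
      _ = 2 / M k := by ring
  rw [dist_comm]
  calc dist q p ≤ |q 0 - p 0| + |q 1 - p 1| := dist_le_add q p
    _ ≤ 1 / M k + 2 / M k := add_le_add h1 h5
    _ = 3 / M k := by ring

/-- Strips have small measure. -/
theorem measure_strip_le (hs : ∀ k, s k ∈ Icc (0 : ℝ) 1) {u v : ℝ} (huv : u ≤ v) :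
    μH[1] (E s ∩ {p : F | p 0 ∈ Icc u v}) ≤ ENNReal.ofReal (3 * (v - u)) := by
  have hr : Tendsto (fun k : ℕ => ENNReal.ofReal (3 / M k)) atTop (𝓝 0) := by
    rw [← ENNReal.ofReal_zero]
    apply ENNReal.tendsto_ofReal
    have h1 : Tendsto (fun k : ℕ => 3 * ((1 : ℝ) / 2) ^ k) atTop (𝓝 (3 * 0)) :=
      (tendsto_pow_atTop_nhds_zero_of_lt_one (by norm_num) (by norm_num)).const_mul 3
    rw [mul_zero] at h1
    refine squeeze_zero (fun k => by have := M_pos k; positivity) (fun k => ?_) h1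
    have := one_div_M_le k
    calc 3 / M k = 3 * (1 / M k) := by ring
      _ ≤ 3 * (1 / 2) ^ k := by gcongr
  have h1 := Measure.hausdorffMeasure_le_liminf_sum (X := F) (ι := fun k : ℕ =>
    {i : ℤ // i ∈ Finset.Icc ⌊M k * u⌋ ⌊M k * v⌋}) 1 (E s ∩ {p : F | p 0 ∈ Icc u v})
    (l := atTop) (fun k => ENNReal.ofReal (3 / M k)) hr
    (fun k i => {p | p ∈ E s ∧ ⌊M k * p 0⌋ = (i : ℤ)})
    (Eventually.of_forall fun k i => by
      apply ediam_le
      intro p hp q hq
      rw [edist_dist]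
      exact ENNReal.ofReal_le_ofReal (dist_same_cell hs hp.1 hq.1 (hp.2.trans hq.2.symm)))
    (Eventually.of_forall fun k p hp => by
      have hM := M_pos k
      refine mem_iUnion.mpr ⟨⟨⌊M k * p 0⌋, Finset.mem_Icc.mpr ⟨?_, ?_⟩⟩, hp.1, rfl⟩
      · exact Int.floor_le_floor (mul_le_mul_of_nonneg_left hp.2.1 hM.le)
      · exact Int.floor_le_floor (mul_le_mul_of_nonneg_left hp.2.2 hM.le))
  refine h1.trans ?_
  have h2 : Tendsto (fun k : ℕ => ENNReal.ofReal (3 * (v - u) + 6 * (1 / 2) ^ k)) atTop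
      (𝓝 (ENNReal.ofReal (3 * (v - u)))) := by
    apply ENNReal.tendsto_ofReal
    have h1 : Tendsto (fun k : ℕ => 3 * (v - u) + 6 * ((1 : ℝ) / 2) ^ k) atTop
        (𝓝 (3 * (v - u) + 6 * 0)) :=
      ((tendsto_pow_atTop_nhds_zero_of_lt_one (by norm_num) (by norm_num)).const_mul 6).const_add _
    simpa using h1
  rw [← h2.liminf_eq]
  refine liminf_le_liminf ?_
  · refine Eventually.of_forall fun k => ?_
    have hM := M_pos k
    have hfl : ⌊M k * u⌋ ≤ ⌊M k * v⌋ := Int.floor_le_floor (by gcongr)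
    calc ∑ i : {i : ℤ // i ∈ Finset.Icc ⌊M k * u⌋ ⌊M k * v⌋},
          ediam {p | p ∈ E s ∧ ⌊M k * p 0⌋ = (i : ℤ)} ^ (1 : ℝ)
        ≤ ∑ _i : {i : ℤ // i ∈ Finset.Icc ⌊M k * u⌋ ⌊M k * v⌋}, ENNReal.ofReal (3 / M k) := by
          apply Finset.sum_le_sum
          intro i _
          rw [ENNReal.rpow_one]
          apply ediam_le
          intro p hp q hq
          rw [edist_dist]
          exact ENNReal.ofReal_le_ofReal (dist_same_cell hs hp.1 hq.1 (hp.2.trans hq.2.symm))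
      _ = ENNReal.ofReal (((⌊M k * v⌋ + 1 - ⌊M k * u⌋ : ℤ) : ℝ) * (3 / M k)) := by
          rw [Finset.sum_const, Finset.card_univ, Fintype.card_coe, Int.card_Icc, nsmul_eq_mul,
            ENNReal.ofReal_mul (by exact_mod_cast (by omega : 0 ≤ ⌊M k * v⌋ + 1 - ⌊M k * u⌋))]
          congr 1
          rw [← ENNReal.ofReal_natCast]
          congr 1
          have : (((⌊M k * v⌋ + 1 - ⌊M k * u⌋).toNat : ℕ) : ℤ) = ⌊M k * v⌋ + 1 - ⌊M k * u⌋ :=
            Int.toNat_of_nonneg (by omega)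
          exact_mod_cast congrArg (fun z : ℤ => (z : ℝ)) this
      _ ≤ ENNReal.ofReal (3 * (v - u) + 6 * (1 / 2) ^ k) := by
          apply ENNReal.ofReal_le_ofReal
          push_cast
          have a1 := Int.floor_le (M k * v)
          have a2 := Int.lt_floor_add_one (M k * u)
          calc ((⌊M k * v⌋ : ℝ) + 1 - ⌊M k * u⌋) * (3 / M k)
              ≤ (M k * (v - u) + 2) * (3 / M k) := by
                apply mul_le_mul_of_nonneg_right _ (by positivity)
                linarith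
            _ = 3 * (v - u) + 6 * (1 / M k) := by
                field_simp
                ring
            _ ≤ 3 * (v - u) + 6 * (1 / 2) ^ k := by
                have := one_div_M_le k
                linarith

/-- The points close to the jumps of level `k`. -/
def bad (k : ℕ) : Set F := {p | ∃ i : ℤ, |p 0 - i / M k| ≤ 1 / M (k + 1)}

lemma measure_bad_le (hs : ∀ k, s k ∈ Icc (0 : ℝ) 1) (k : ℕ) :
    μH[1] (bad k ∩ E s) ≤ ENNReal.ofReal (18 * (1 / 2) ^ k) := by
  have hM := M_pos k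
  have hM1 := M_pos (k + 1)
  have hcast : (((2 : ℤ) ^ (k ^ 2) : ℤ) : ℝ) = M k := by unfold M; push_cast; rfl
  have hMge : (1 : ℝ) ≤ M k := by rw [← M_zero]; exact M_mono (Nat.zero_le k)
  have hratio : M k / M (k + 1) ≤ 1 / 2 := by
    have := one_div_M_add k 1
    rw [add_comm 1 k] at this
    calc M k / M (k + 1) = M k * (1 / M (k + 1)) := by ring
      _ ≤ M k * ((1 / 2) ^ 1 * (1 / M k)) := by gcongr
      _ = 1 / 2 := by field_simp
  have hsub : bad k ∩ E s ⊆ ⋃ i : {i : ℤ // i ∈ Finset.Icc (0 : ℤ) (2 ^ (k ^ 2))},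
      (E s ∩ {p : F | p 0 ∈ Icc ((i : ℤ) / M k - 1 / M (k + 1)) ((i : ℤ) / M k + 1 / M (k + 1))}) := by
    rintro p ⟨⟨i, hi⟩, hp⟩
    obtain ⟨x, hx⟩ : ∃ x : ℝ, p 0 = x := ⟨_, rfl⟩
    have hx0 : 0 ≤ x := by rw [← hx]; exact hp.1.1
    have hx1 : x < 1 := by rw [← hx]; exact hp.1.2
    rw [hx, abs_le] at hi
    obtain ⟨hi1, hi2⟩ := hi
    have a1 : (i : ℝ) / M k - 1 / M (k + 1) ≤ x := by linarith
    have a2 : x ≤ (i : ℝ) / M k + 1 / M (k + 1) := by linarith
    have e1 : M k * (i / M k) = i := by field_simp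
    have e2 : M k * (1 / M (k + 1)) = M k / M (k + 1) := by ring
    have h1 : (i : ℝ) - M k / M (k + 1) ≤ M k * x := by
      calc (i : ℝ) - M k / M (k + 1) = M k * (i / M k - 1 / M (k + 1)) := by
            rw [mul_sub, e1, e2]
        _ ≤ M k * x := by gcongr
    have h2 : M k * x ≤ (i : ℝ) + M k / M (k + 1) := by
      calc M k * x ≤ M k * (i / M k + 1 / M (k + 1)) := by gcongr
        _ = (i : ℝ) + M k / M (k + 1) := by rw [mul_add, e1, e2]
    have h3 : 0 ≤ M k * x := mul_nonneg hM.le hx0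
    have h4 : M k * x ≤ M k := by nlinarith
    refine mem_iUnion.mpr ⟨⟨i, Finset.mem_Icc.mpr ⟨?_, ?_⟩⟩, hp, ?_⟩
    · have h5 : (-1 : ℝ) < i := by linarith
      have h6 : (-1 : ℤ) < i := by exact_mod_cast h5
      omega
    · have h5 : (i : ℝ) < M k + 1 := by linarith
      rw [← hcast] at h5
      have h6 : i < 2 ^ (k ^ 2) + 1 := by exact_mod_cast h5
      omega
    · show p 0 ∈ Icc _ _
      rw [hx]
      exact ⟨a1, a2⟩
  calc μH[1] (bad k ∩ E s)
      ≤ ∑ i : {i : ℤ // i ∈ Finset.Icc (0 : ℤ) (2 ^ (k ^ 2))}, μH[1]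
        (E s ∩ {p : F | p 0 ∈ Icc ((i : ℤ) / M k - 1 / M (k + 1)) ((i : ℤ) / M k + 1 / M (k + 1))}) :=
        (measure_mono hsub).trans (measure_iUnion_fintype_le _ _)
    _ ≤ ∑ _i : {i : ℤ // i ∈ Finset.Icc (0 : ℤ) (2 ^ (k ^ 2))}, ENNReal.ofReal (6 / M (k + 1)) := by
        apply Finset.sum_le_sum
        intro i _
        refine (measure_strip_le hs ?_).trans (ENNReal.ofReal_le_ofReal (le_of_eq ?_))
        · have : 0 ≤ 1 / M (k + 1) := by positivity
          linarith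
        · ring
    _ = ENNReal.ofReal ((M k + 1) * (6 / M (k + 1))) := by
        rw [Finset.sum_const, Finset.card_univ, Fintype.card_coe, Int.card_Icc, nsmul_eq_mul,
          ENNReal.ofReal_mul (by positivity)]
        congr 1
        rw [← ENNReal.ofReal_natCast]
        congr 1
        have h5 : (((2 ^ (k ^ 2) + 1 - 0 : ℤ).toNat : ℕ) : ℤ) = 2 ^ (k ^ 2) + 1 := by
          have h7 : (0 : ℤ) ≤ 2 ^ (k ^ 2) := by positivity
          rw [Int.toNat_of_nonneg (by omega)]
          ring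
        have h6 := congrArg (fun z : ℤ => (z : ℝ)) h5
        simp only [Int.cast_natCast] at h6
        rw [h6]
        push_cast
        rfl
    _ ≤ ENNReal.ofReal (18 * (1 / 2) ^ k) := by
        apply ENNReal.ofReal_le_ofReal
        have := M_ratio k
        calc (M k + 1) * (6 / M (k + 1)) ≤ (M k + M k) * (6 / M (k + 1)) := by gcongr
          _ = 12 * (M k / M (k + 1)) := by ring
          _ ≤ 12 * (1 / 2) ^ k := by gcongr
          _ ≤ 18 * (1 / 2) ^ k := by
              have : (0 : ℝ) ≤ (1 / 2) ^ k := by positivity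
              linarith

lemma ae_eventually_notMem_bad (hs : ∀ k, s k ∈ Icc (0 : ℝ) 1) :
    ∀ᵐ p ∂(μH[1].restrict (E s)), ∀ᶠ k in atTop, p ∉ bad k := by
  apply ae_eventually_notMem
  have h1 : ∀ k, (μH[1].restrict (E s)) (bad k) ≤ ENNReal.ofReal (18 * (1 / 2) ^ k) := by
    intro k
    rw [Measure.restrict_apply' (measurableSet_E hs)]
    exact measure_bad_le hs k
  refine ne_top_of_le_ne_top ?_ (ENNReal.tsum_le_tsum h1)
  rw [← ENNReal.ofReal_tsum_of_nonneg (fun k => by positivity)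
    (summable_geometric_two.mul_left 18)]
  exact ENNReal.ofReal_ne_top

lemma same_cell_of_notMem_bad {k : ℕ} {p : F} (hp : p ∉ bad k) {y : ℝ}
    (hy : |y - p 0| ≤ 1 / M (k + 1)) : ⌊M k * p 0⌋ = ⌊M k * y⌋ := by
  have hM := M_pos k
  by_contra hne
  apply hp
  rcases lt_or_gt_of_ne hne with h | h
  · refine ⟨⌊M k * y⌋, ?_⟩
    have h1 : M k * p 0 < ⌊M k * y⌋ := Int.floor_lt.mp h
    have h2 : (⌊M k * y⌋ : ℝ) ≤ M k * y := Int.floor_le _
    have h3 : p 0 < ⌊M k * y⌋ / M k := by rw [lt_div_iff₀ hM]; linarith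
    have h4 : ⌊M k * y⌋ / M k ≤ y := by rw [div_le_iff₀ hM]; linarith
    rw [abs_le] at hy ⊢
    constructor <;> linarith [hy.1, hy.2]
  · refine ⟨⌊M k * p 0⌋, ?_⟩
    have h1 : M k * y < ⌊M k * p 0⌋ := Int.floor_lt.mp h
    have h2 : (⌊M k * p 0⌋ : ℝ) ≤ M k * p 0 := Int.floor_le _
    have h3 : y < ⌊M k * p 0⌋ / M k := by rw [lt_div_iff₀ hM]; linarith
    have h4 : ⌊M k * p 0⌋ / M k ≤ p 0 := by rw [div_le_iff₀ hM]; linarith
    rw [abs_le] at hy ⊢
    constructor <;> linarith [hy.1, hy.2]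

end Q76.SawGraph
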