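import Mathlib
import Pool.Agent.Q76.SawGraph

/-!
# Cones and projections of the saw-tooth graph
-/

namespace Q76.SawGraph

open MeasureTheory Filter Topology Set Metric Q76.SawFunction
open scoped ENNReal NNReal

variable {s : ℕ → ℝ}

lemma measure_E_lt_top (hs : ∀ k, s k ∈ Icc (0 : ℝ) 1) : μH[1] (E s) < ∞ := by
  have h1 := measure_strip_le hs (zero_le_one (α := ℝ))
  have h2 : E s ∩ {p : F | p 0 ∈ Icc (0 : ℝ) 1} = E s := by
    apply inter_eq_self_of_subset_left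
    intro p hp
    exact ⟨hp.1.1, hp.1.2.le⟩
  rw [h2] at h1
  exact h1.trans_lt ENNReal.ofReal_lt_top

lemma measure_E_pos : 0 < μH[1] (E s) := by
  have hlip : LipschitzWith 1 (fun p : F => (p 0 : ℝ)) := by
    refine LipschitzWith.of_dist_le_mul fun p q => ?_
    rw [NNReal.coe_one, one_mul, Real.dist_eq]
    exact abs_coord_le p q 0
  have h1 := hlip.hausdorffMeasure_image_le (zero_le_one (α := ℝ)) (E s)
  have h2 : (fun p : F => (p 0 : ℝ)) '' E s = Ico 0 1 := by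
    ext x
    constructor
    · rintro ⟨p, hp, rfl⟩
      exact hp.1
    · intro hx
      exact ⟨WithLp.toLp 2 ![x, g s x], ⟨by simpa using hx, by simp⟩, by simp⟩
  rw [h2, hausdorffMeasure_real, Real.volume_Ico] at h1
  refine lt_of_lt_of_le ?_ (h1.trans (by simp))
  simp

/-- The projection along the direction of slope `c`. -/
noncomputable def proj (c : ℝ) : F →L[ℝ] ℝ :=
  EuclideanSpace.proj 1 - c • EuclideanSpace.proj 0

lemma proj_apply (c : ℝ) (p : F) : proj c p = p 1 - c * p 0 := by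
  simp [proj]

/-- If the slope `c` is taken infinitely often then the projection in this direction is null. -/
theorem volume_proj_eq_zero (hs : ∀ k, s k ∈ Icc (0 : ℝ) 1) {c : ℝ}
    (hc : ∃ᶠ k in atTop, s k = c) : volume (proj c '' E s) = 0 := by
  have key : ∀ k, s k = c → volume (proj c '' E s) ≤ ENNReal.ofReal (4 * (1 / 2) ^ k) := by
    intro k hk
    have hM := M_pos k
    have hM1 := M_pos (k + 1)
    have hcast : (((2 : ℤ) ^ (k ^ 2) : ℤ) : ℝ) = M k := by unfold M; push_cast; rfl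
    have hsub : proj c '' E s ⊆ ⋃ i : Fin (2 ^ (k ^ 2)),
        closedBall (g s ((i : ℕ) / M k) - c * ((i : ℕ) / M k)) (2 / M (k + 1)) := by
      rintro _ ⟨p, hp, rfl⟩
      obtain ⟨x, hx⟩ : ∃ x : ℝ, p 0 = x := ⟨_, rfl⟩
      have hx0 : 0 ≤ x := by rw [← hx]; exact hp.1.1
      have hx1 : x < 1 := by rw [← hx]; exact hp.1.2
      have hfl0 : 0 ≤ ⌊M k * x⌋ := Int.floor_nonneg.mpr (mul_nonneg hM.le hx0)
      have hfl1 : ⌊M k * x⌋ < 2 ^ (k ^ 2) := by
        rw [Int.floor_lt, hcast]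
        nlinarith
      have hfl2 : ((⌊M k * x⌋.toNat : ℕ) : ℤ) = ⌊M k * x⌋ := Int.toNat_of_nonneg hfl0
      refine mem_iUnion.mpr ⟨⟨⌊M k * x⌋.toNat, ?_⟩, ?_⟩
      · zify
        rw [hfl2]
        exact hfl1
      · have hfl3 : ((⌊M k * x⌋.toNat : ℕ) : ℝ) = (⌊M k * x⌋ : ℝ) := by exact_mod_cast hfl2
        rw [mem_closedBall, proj_apply, hp.2, hx, Real.dist_eq]
        simp only [hfl3]
        have hsame : ⌊M k * (⌊M k * x⌋ / M k)⌋ = ⌊M k * x⌋ := by
          rw [mul_div_cancel₀ _ hM.ne', Int.floor_intCast]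
        have h1 := g_sub_same hs (B := 1) (fun i _ => abs_inc_le hs i) hsame
        rw [hk] at h1
        have e : g s x - c * x - (g s (⌊M k * x⌋ / M k) - c * (⌊M k * x⌋ / M k)) =
            g s x - g s (⌊M k * x⌋ / M k) - c * (x - ⌊M k * x⌋ / M k) := by ring
        rw [e]
        simpa using h1
    calc volume (proj c '' E s)
        ≤ ∑ i : Fin (2 ^ (k ^ 2)),
          volume (closedBall (g s ((i : ℕ) / M k) - c * ((i : ℕ) / M k)) (2 / M (k + 1))) :=
          (measure_mono hsub).trans (measure_iUnion_fintype_le _ _)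
      _ = ENNReal.ofReal (M k * (4 / M (k + 1))) := by
          simp only [Real.volume_closedBall]
          rw [Finset.sum_const, Finset.card_univ, Fintype.card_fin, nsmul_eq_mul,
            ENNReal.ofReal_mul hM.le]
          congr 1
          · rw [← ENNReal.ofReal_natCast]
            unfold M
            push_cast
            rfl
          · congr 1
            ring
      _ ≤ ENNReal.ofReal (4 * (1 / 2) ^ k) := by
          apply ENNReal.ofReal_le_ofReal
          have := M_ratio k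
          calc M k * (4 / M (k + 1)) = 4 * (M k / M (k + 1)) := by ring
            _ ≤ 4 * (1 / 2) ^ k := by gcongr
  by_contra hne
  have hpos : 0 < volume (proj c '' E s) := pos_iff_ne_zero.mpr hne
  have hlim : Tendsto (fun k : ℕ => ENNReal.ofReal (4 * (1 / 2) ^ k)) atTop (𝓝 0) := by
    rw [← ENNReal.ofReal_zero]
    apply ENNReal.tendsto_ofReal
    have h1 : Tendsto (fun k : ℕ => 4 * ((1 : ℝ) / 2) ^ k) atTop (𝓝 (4 * 0)) :=
      (tendsto_pow_atTop_nhds_zero_of_lt_one (by norm_num) (by norm_num)).const_mul 4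
    simpa using h1
  obtain ⟨k, hk1, hk2⟩ := (hc.and_eventually (hlim.eventually (gt_mem_nhds hpos))).exists
  exact absurd (key k hk1) (not_le.mpr hk2)

/-- The graph meets every Lipschitz curve in a null set. -/
theorem inter_curve_null (hs : ∀ k, s k ∈ Icc (0 : ℝ) 1) {c d : ℝ} (hcd : c ≠ d)
    (hc : ∃ᶠ k in atTop, s k = c) (hd : ∃ᶠ k in atTop, s k = d) {γ : ℝ → F} {K : ℝ≥0}
    (hγ : LipschitzWith K γ) : μH[1] (E s ∩ range γ) = 0 := by
  apply Q76.TwoProjections.inter_range_null hγ (P := proj c) (Q := proj d) _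
    (volume_proj_eq_zero hs hc) (volume_proj_eq_zero hs hd)
  intro v hv1 hv2
  rw [proj_apply] at hv1 hv2
  have h0 : (v 0 : ℝ) = 0 := by
    have h3 : (d - c) * v 0 = 0 := by linarith
    rcases mul_eq_zero.mp h3 with h | h
    · exact absurd (by linarith) hcd
    · exact h
  have h1 : (v 1 : ℝ) = 0 := by
    rw [h0] at hv1
    linarith
  ext i
  fin_cases i
  · exact h0
  · exact h1

/-- The one-sided cone estimate. -/
theorem cone_estimate (hs : ∀ k, s k ∈ Icc (0 : ℝ) 1) {σ : ℝ} (hσ : 0 < σ)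
    (hsσ : ∀ k, s k ≤ σ) {B : ℝ} {k : ℕ} (hB : ∀ i, k + 2 ≤ i → |inc s i| ≤ B) {r : ℝ}
    (hr1 : 1 / M (k + 2) ≤ r) (hr2 : r ≤ 1 / M (k + 1)) {p : F} (hp : p ∈ E s)
    (hbad : p ∉ bad k) :
    ∃ ε : ℝ, (ε = 1 ∨ ε = -1) ∧ ∀ q ∈ E s, |q 0 - p 0| ≤ r →
      2 * σ * (q 0 - p 0) ^ 2 < ε * ((q 0 - p 0) * (q 1 - p 1)) →
        |q 0 - p 0| ≤ 2 * B * r / σ := by
  have hB0 : 0 ≤ B := (abs_nonneg _).trans (hB (k + 2) le_rfl)
  have hM2 := M_pos (k + 2)
  have main : ∀ ε : ℝ, (ε = 1 ∨ ε = -1) → 0 ≤ ε * inc s (k + 1) → ∀ q ∈ E s, |q 0 - p 0| ≤ r →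
      2 * σ * (q 0 - p 0) ^ 2 < ε * ((q 0 - p 0) * (q 1 - p 1)) →
        |q 0 - p 0| ≤ 2 * B * r / σ := by
    intro ε hε hinc q hq hqr hcone
    have hsame : ⌊M k * p 0⌋ = ⌊M k * q 0⌋ := same_cell_of_notMem_bad hbad (hqr.trans hr2)
    obtain ⟨n, T, hn, hT, heq⟩ := g_sub_jump hs hB hsame
    rw [← hp.2, ← hq.2] at heq
    obtain ⟨z, hz⟩ : ∃ z : ℝ, q 0 - p 0 = z := ⟨_, rfl⟩
    obtain ⟨w, hw⟩ : ∃ w : ℝ, q 1 - p 1 = w := ⟨_, rfl⟩
    rw [hz] at hcone hn heq ⊢
    rw [hw] at hcone heq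
    have hs1 := hsσ (k + 1)
    have hs0 := (hs (k + 1)).1
    have hTr : |T| ≤ 2 * B * r := by
      refine hT.trans ?_
      calc 2 * B / M (k + 2) = 2 * B * (1 / M (k + 2)) := by ring
        _ ≤ 2 * B * r := by gcongr
    have h1 : ε * (z * w) ≤ σ * z ^ 2 + |T| * |z| := by
      have e1 : ε * (z * w) = ε * s (k + 1) * z ^ 2 - (ε * inc s (k + 1)) * (n * z) +
          ε * (T * z) := by rw [heq]; ring
      have e2 : 0 ≤ (ε * inc s (k + 1)) * (n * z) := mul_nonneg hinc hn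
      have e3 : ε * (T * z) ≤ |T| * |z| := by
        rw [← abs_mul]
        rcases hε with rfl | rfl
        · rw [one_mul]; exact le_abs_self _
        · rw [neg_one_mul]; exact neg_le_abs _
      have e4 : ε * s (k + 1) * z ^ 2 ≤ σ * z ^ 2 := by
        apply mul_le_mul_of_nonneg_right _ (sq_nonneg z)
        rcases hε with rfl | rfl <;> linarith
      linarith
    have h2 : σ * z ^ 2 < |T| * |z| := by linarith
    have h3 : σ * |z| * |z| < |T| * |z| := by
      have : σ * |z| * |z| = σ * z ^ 2 := by rw [mul_assoc, abs_mul_abs_self]; ring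
      rw [this]; exact h2
    have h4 : 0 < |z| := by
      rw [abs_pos]
      rintro rfl
      simp at h2
    have h5 : σ * |z| < |T| := lt_of_mul_lt_mul_right h3 h4.le
    rw [le_div_iff₀ hσ]
    linarith
  rcases le_total 0 (inc s (k + 1)) with h | h
  · exact ⟨1, Or.inl rfl, main 1 (Or.inl rfl) (by linarith)⟩
  · exact ⟨-1, Or.inr rfl, main (-1) (Or.inr rfl) (by linarith)⟩

lemma exists_scale {r : ℝ} (hr : 0 < r) {K : ℕ} (hrK : r < 1 / M (K + 1)) :
    ∃ k, K ≤ k ∧ 1 / M (k + 2) ≤ r ∧ r ≤ 1 / M (k + 1) := by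
  have hex : ∃ j, 1 / M j ≤ r := by
    obtain ⟨j, hj⟩ := exists_pow_lt_of_lt_one hr (show (1 / 2 : ℝ) < 1 by norm_num)
    exact ⟨j, (one_div_M_le j).trans hj.le⟩
  classical
  have hspec := Nat.find_spec hex
  have hmin : ∀ j < Nat.find hex, r < 1 / M j := fun j hj => not_le.mp (Nat.find_min hex hj)
  have hgt : K + 1 < Nat.find hex := by
    by_contra hcon
    push Not at hcon
    have h1 : 1 / M (K + 1) ≤ 1 / M (Nat.find hex) :=
      one_div_le_one_div_of_le (M_pos _) (M_mono hcon)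
    linarith
  obtain ⟨k, hk⟩ : ∃ k, Nat.find hex = k + 2 := ⟨Nat.find hex - 2, by omega⟩
  rw [hk] at hspec
  exact ⟨k, by omega, hspec, (hmin (k + 1) (by omega)).le⟩

/-- Slopes oscillating slowly between `0` and `σ`. -/
noncomputable def slopes (σ : ℝ) (k : ℕ) : ℝ := σ * (1 + Real.cos (Real.pi * √k)) / 2

lemma slopes_nonneg {σ : ℝ} (hσ : 0 ≤ σ) (k : ℕ) : 0 ≤ slopes σ k := by
  have := Real.neg_one_le_cos (Real.pi * √k)
  unfold slopes
  have h1 : 0 ≤ 1 + Real.cos (Real.pi * √k) := by linarith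
  positivity

lemma slopes_le {σ : ℝ} (hσ : 0 ≤ σ) (k : ℕ) : slopes σ k ≤ σ := by
  have := Real.cos_le_one (Real.pi * √k)
  unfold slopes
  nlinarith

lemma frequently_slopes_eq_top (σ : ℝ) : ∃ᶠ k in atTop, slopes σ k = σ := by
  rw [frequently_atTop]
  intro a
  refine ⟨(2 * a) ^ 2, by nlinarith, ?_⟩
  unfold slopes
  have h1 : √(((2 * a) ^ 2 : ℕ) : ℝ) = 2 * a := by
    push_cast
    exact Real.sqrt_sq (by positivity)
  rw [h1]
  have h2 : Real.pi * (2 * a) = (a : ℝ) * (2 * Real.pi) := by ring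
  rw [h2, Real.cos_nat_mul_two_pi]
  ring

lemma frequently_slopes_eq_zero (σ : ℝ) : ∃ᶠ k in atTop, slopes σ k = 0 := by
  rw [frequently_atTop]
  intro a
  refine ⟨(2 * a + 1) ^ 2, by nlinarith, ?_⟩
  unfold slopes
  have h1 : √(((2 * a + 1) ^ 2 : ℕ) : ℝ) = 2 * a + 1 := by
    push_cast
    exact Real.sqrt_sq (by positivity)
  rw [h1]
  have h2 : Real.pi * (2 * a + 1) = (a : ℝ) * (2 * Real.pi) + Real.pi := by ring
  rw [h2, Real.cos_nat_mul_two_pi_add_pi]
  ring

lemma tendsto_inc_slopes {σ : ℝ} (hσ : 0 ≤ σ) : Tendsto (fun k => inc (slopes σ) k) atTop (𝓝 0) := by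
  rw [← tendsto_add_atTop_iff_nat 1]
  have hsq : Tendsto (fun k : ℕ => √((k : ℝ) + 1)) atTop atTop :=
    Real.tendsto_sqrt_atTop.comp (tendsto_natCast_atTop_atTop.atTop_add tendsto_const_nhds)
  have h0 : Tendsto (fun k : ℕ => σ / 2 * Real.pi * (√((k : ℝ) + 1))⁻¹) atTop
      (𝓝 (σ / 2 * Real.pi * 0)) := hsq.inv_tendsto_atTop.const_mul _
  rw [mul_zero] at h0
  refine squeeze_zero_norm (fun k => ?_) h0
  have hdiff : √((k : ℝ) + 1) - √k ≤ (√((k : ℝ) + 1))⁻¹ := by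
    have h1 : 0 < √((k : ℝ) + 1) := Real.sqrt_pos.mpr (by positivity)
    rw [le_inv_comm₀ (by
      have : √(k : ℝ) < √((k : ℝ) + 1) := Real.sqrt_lt_sqrt (by positivity) (by linarith)
      linarith) h1]
    have h2 : 0 < √((k : ℝ) + 1) - √k := by
      have : √(k : ℝ) < √((k : ℝ) + 1) := Real.sqrt_lt_sqrt (by positivity) (by linarith)
      linarith
    rw [← one_div, le_div_iff₀ h2]
    have h3 : √((k : ℝ) + 1) * √((k : ℝ) + 1) = k + 1 := Real.mul_self_sqrt (by positivity)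
    have h4 : √(k : ℝ) * √k = k := Real.mul_self_sqrt (by positivity)
    have h5 : √(k : ℝ) ≤ √((k : ℝ) + 1) := Real.sqrt_le_sqrt (by linarith)
    nlinarith [Real.sqrt_nonneg (k : ℝ)]
  have hdiff0 : 0 ≤ √((k : ℝ) + 1) - √k := by
    have : √(k : ℝ) ≤ √((k : ℝ) + 1) := Real.sqrt_le_sqrt (by linarith)
    linarith
  have e : inc (slopes σ) (k + 1) = σ / 2 * (Real.cos (Real.pi * √((k : ℝ) + 1)) -
      Real.cos (Real.pi * √k)) := by
    simp only [inc, slopes]
    push_cast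
    ring
  rw [e, Real.norm_eq_abs, abs_mul, abs_of_nonneg (by positivity : 0 ≤ σ / 2), mul_assoc]
  apply mul_le_mul_of_nonneg_left _ (by positivity)
  calc |Real.cos (Real.pi * √((k : ℝ) + 1)) - Real.cos (Real.pi * √k)|
      ≤ |Real.pi * √((k : ℝ) + 1) - Real.pi * √k| := Real.abs_cos_sub_cos_le _ _
    _ = Real.pi * (√((k : ℝ) + 1) - √k) := by
        rw [← mul_sub, abs_mul, abs_of_pos Real.pi_pos, abs_of_nonneg hdiff0]
    _ ≤ Real.pi * (√((k : ℝ) + 1))⁻¹ := by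
        have := Real.pi_pos
        gcongr

end Q76.SawGraph
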