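import Mathlib

/-!
Alternating finite differences up to a given order on `(0, ∞)`, and functions whose increments
are alternating (Bernstein functions up to a given order).
-/

open Set Filter Topology MeasureTheory

namespace Pool.Agent.Q76.Sd

/-- `f` is nonnegative on `(0, ∞)` and its finite differences alternate up to order `n`. -/
def Alt : ℕ → (ℝ → ℝ) → Prop
  | 0, f => ∀ x, 0 < x → 0 ≤ f x
  | n + 1, f => (∀ x, 0 < x → 0 ≤ f x) ∧ ∀ h, 0 < h → Alt n (fun x => f x - f (x + h))

/-- `B` is nonnegative and its increments are alternating up to order `n - 1`. -/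
def Brn : ℕ → (ℝ → ℝ) → Prop
  | 0, B => ∀ x, 0 < x → 0 ≤ B x
  | n + 1, B => (∀ x, 0 < x → 0 ≤ B x) ∧ ∀ h, 0 < h → Alt n (fun x => B (x + h) - B x)

lemma Alt.nonneg {n : ℕ} {f : ℝ → ℝ} (hf : Alt n f) : ∀ x, 0 < x → 0 ≤ f x := by
  cases n with
  | zero => exact hf
  | succ n => exact hf.1

lemma Brn.nonneg {n : ℕ} {f : ℝ → ℝ} (hf : Brn n f) : ∀ x, 0 < x → 0 ≤ f x := by
  cases n with
  | zero => exact hf
  | succ n => exact hf.1

lemma Alt.congr {n : ℕ} {f g : ℝ → ℝ} (hf : Alt n f) (h : ∀ x, 0 < x → f x = g x) : Alt n g := by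
  induction n generalizing f g with
  | zero => intro x hx; rw [← h x hx]; exact hf x hx
  | succ n ih =>
    refine ⟨fun x hx => by rw [← h x hx]; exact hf.1 x hx, fun t ht => ?_⟩
    refine ih (hf.2 t ht) fun x hx => ?_
    rw [h x hx, h (x + t) (by linarith)]

lemma Brn.congr {n : ℕ} {f g : ℝ → ℝ} (hf : Brn n f) (h : ∀ x, 0 < x → f x = g x) : Brn n g := by
  cases n with
  | zero => intro x hx; rw [← h x hx]; exact hf x hx
  | succ n =>
    refine ⟨fun x hx => by rw [← h x hx]; exact hf.1 x hx, fun t ht => ?_⟩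
    refine (hf.2 t ht).congr fun x hx => ?_
    rw [h x hx, h (x + t) (by linarith)]

lemma Alt.pred {n : ℕ} {f : ℝ → ℝ} (hf : Alt (n + 1) f) : Alt n f := by
  induction n generalizing f with
  | zero => exact hf.1
  | succ n ih => exact ⟨hf.1, fun h hh => ih (hf.2 h hh)⟩

lemma Brn.pred {n : ℕ} {f : ℝ → ℝ} (hf : Brn (n + 1) f) : Brn n f := by
  cases n with
  | zero => exact hf.1
  | succ n => exact ⟨hf.1, fun h hh => (hf.2 h hh).pred⟩

lemma Alt.add {n : ℕ} {f g : ℝ → ℝ} (hf : Alt n f) (hg : Alt n g) :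
    Alt n (fun x => f x + g x) := by
  induction n generalizing f g with
  | zero => intro x hx; exact add_nonneg (hf x hx) (hg x hx)
  | succ n ih =>
    refine ⟨fun x hx => add_nonneg (hf.1 x hx) (hg.1 x hx), fun h hh => ?_⟩
    exact (ih (hf.2 h hh) (hg.2 h hh)).congr fun x _ => by ring

lemma Alt.const_mul {n : ℕ} {f : ℝ → ℝ} (hf : Alt n f) {c : ℝ} (hc : 0 ≤ c) :
    Alt n (fun x => c * f x) := by
  induction n generalizing f with
  | zero => intro x hx; exact mul_nonneg hc (hf x hx)
  | succ n ih =>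
    refine ⟨fun x hx => mul_nonneg hc (hf.1 x hx), fun h hh => ?_⟩
    exact (ih (hf.2 h hh)).congr fun x _ => by ring

lemma alt_const (n : ℕ) {c : ℝ} (hc : 0 ≤ c) : Alt n (fun _ => c) := by
  induction n generalizing c with
  | zero => intro x _; exact hc
  | succ n ih =>
    refine ⟨fun x _ => hc, fun h _ => ?_⟩
    exact (ih (le_refl 0)).congr fun x _ => by ring

lemma Alt.shift {n : ℕ} {f : ℝ → ℝ} (hf : Alt n f) {s : ℝ} (hs : 0 ≤ s) :
    Alt n (fun x => f (x + s)) := by
  induction n generalizing f with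
  | zero => intro x hx; exact hf _ (by linarith)
  | succ n ih =>
    refine ⟨fun x hx => hf.1 _ (by linarith), fun h hh => ?_⟩
    refine (ih (hf.2 h hh)).congr fun x _ => ?_
    rw [add_right_comm]

lemma Alt.scale {n : ℕ} {f : ℝ → ℝ} (hf : Alt n f) {c : ℝ} (hc : 0 < c) :
    Alt n (fun x => f (c * x)) := by
  induction n generalizing f with
  | zero => intro x hx; exact hf _ (by positivity)
  | succ n ih =>
    refine ⟨fun x hx => hf.1 _ (by positivity), fun h hh => ?_⟩
    refine (ih (hf.2 (c * h) (by positivity))).congr fun x _ => ?_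
    simp only [mul_add]

lemma Alt.mul {n : ℕ} {f g : ℝ → ℝ} (hf : Alt n f) (hg : Alt n g) :
    Alt n (fun x => f x * g x) := by
  induction n generalizing f g with
  | zero => intro x hx; exact mul_nonneg (hf x hx) (hg x hx)
  | succ n ih =>
    refine ⟨fun x hx => mul_nonneg (hf.1 x hx) (hg.1 x hx), fun h hh => ?_⟩
    have h1 := ih (hf.2 h hh) hg.pred
    have h2 := ih (hf.pred.shift hh.le) (hg.2 h hh)
    exact (h1.add h2).congr fun x _ => by ring

lemma Alt.pow {n : ℕ} {f : ℝ → ℝ} (hf : Alt n f) (k : ℕ) : Alt n (fun x => f x ^ k) := by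
  induction k with
  | zero => simpa using alt_const n (zero_le_one)
  | succ k ih => exact (ih.mul hf).congr fun x _ => by rw [pow_succ]

/-- pointwise limits -/
lemma alt_of_tendsto {ι : Type*} {l : Filter ι} [l.NeBot] {n : ℕ} {F : ι → ℝ → ℝ} {f : ℝ → ℝ}
    (hF : ∀ᶠ i in l, Alt n (F i)) (h : ∀ x, 0 < x → Tendsto (fun i => F i x) l (𝓝 (f x))) :
    Alt n f := by
  induction n generalizing F f with
  | zero =>
    intro x hx
    exact ge_of_tendsto (h x hx) (hF.mono fun i hi => hi x hx)
  | succ n ih =>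
    refine ⟨fun x hx => ge_of_tendsto (h x hx) (hF.mono fun i hi => hi.1 x hx), fun t ht => ?_⟩
    refine ih (hF.mono fun i hi => hi.2 t ht) fun x hx => ?_
    exact (h x hx).sub (h (x + t) (by linarith))

/-- integrals with respect to a parameter -/
lemma alt_integral {α : Type*} [MeasurableSpace α] {m : Measure α} {n : ℕ} {F : α → ℝ → ℝ}
    (hF : ∀ᵐ a ∂m, Alt n (F a)) (hi : ∀ x, 0 < x → Integrable (fun a => F a x) m) :
    Alt n (fun x => ∫ a, F a x ∂m) := by
  induction n generalizing F with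
  | zero =>
    intro x hx
    exact integral_nonneg_of_ae (hF.mono fun a ha => ha x hx)
  | succ n ih =>
    refine ⟨fun x hx => integral_nonneg_of_ae (hF.mono fun a ha => ha.1 x hx), fun t ht => ?_⟩
    refine (ih (F := fun a x => F a x - F a (x + t)) (hF.mono fun a ha => ha.2 t ht)
      fun x hx => (hi x hx).sub (hi _ (by linarith))).congr fun x hx => ?_
    rw [integral_sub (hi x hx) (hi _ (by linarith))]

lemma Brn.add {n : ℕ} {f g : ℝ → ℝ} (hf : Brn n f) (hg : Brn n g) :
    Brn n (fun x => f x + g x) := by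
  cases n with
  | zero => intro x hx; exact add_nonneg (hf x hx) (hg x hx)
  | succ n =>
    refine ⟨fun x hx => add_nonneg (hf.1 x hx) (hg.1 x hx), fun h hh => ?_⟩
    exact ((hf.2 h hh).add (hg.2 h hh)).congr fun x _ => by ring

lemma Brn.const_mul {n : ℕ} {f : ℝ → ℝ} (hf : Brn n f) {c : ℝ} (hc : 0 ≤ c) :
    Brn n (fun x => c * f x) := by
  cases n with
  | zero => intro x hx; exact mul_nonneg hc (hf x hx)
  | succ n =>
    refine ⟨fun x hx => mul_nonneg hc (hf.1 x hx), fun h hh => ?_⟩
    exact ((hf.2 h hh).const_mul hc).congr fun x _ => by ring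

lemma Brn.shift {n : ℕ} {f : ℝ → ℝ} (hf : Brn n f) {s : ℝ} (hs : 0 ≤ s) :
    Brn n (fun x => f (x + s)) := by
  cases n with
  | zero => intro x hx; exact hf _ (by linarith)
  | succ n =>
    refine ⟨fun x hx => hf.1 _ (by linarith), fun h hh => ?_⟩
    refine ((hf.2 h hh).shift hs).congr fun x _ => ?_
    rw [add_right_comm]

lemma Brn.scale {n : ℕ} {f : ℝ → ℝ} (hf : Brn n f) {c : ℝ} (hc : 0 < c) :
    Brn n (fun x => f (c * x)) := by
  cases n with
  | zero => intro x hx; exact hf _ (by positivity)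
  | succ n =>
    refine ⟨fun x hx => hf.1 _ (by positivity), fun h hh => ?_⟩
    refine ((hf.2 (c * h) (by positivity)).scale hc).congr fun x _ => ?_
    simp only [mul_add]

lemma brn_integral {α : Type*} [MeasurableSpace α] {m : Measure α} {n : ℕ} {F : α → ℝ → ℝ}
    (hF : ∀ᵐ a ∂m, Brn n (F a)) (hi : ∀ x, 0 < x → Integrable (fun a => F a x) m) :
    Brn n (fun x => ∫ a, F a x ∂m) := by
  cases n with
  | zero =>
    intro x hx
    exact integral_nonneg_of_ae (hF.mono fun a ha => ha x hx)
  | succ n =>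
    refine ⟨fun x hx => integral_nonneg_of_ae (hF.mono fun a ha => ha.1 x hx), fun t ht => ?_⟩
    refine (alt_integral (F := fun a x => F a (x + t) - F a x) (hF.mono fun a ha => ha.2 t ht)
      fun x hx => (hi _ (by linarith)).sub (hi x hx)).congr fun x hx => ?_
    rw [integral_sub (hi _ (by linarith)) (hi x hx)]

lemma exp_sub_exp_eq (a b : ℝ) :
    Real.exp (-a) - Real.exp (-b) =
      ∫ s in (0:ℝ)..1, (b - a) * Real.exp (-((1 - s) * a + s * b)) := by
  have hder : ∀ s ∈ uIcc (0:ℝ) 1, HasDerivAt (fun s : ℝ => -Real.exp (-((1 - s) * a + s * b)))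
      ((b - a) * Real.exp (-((1 - s) * a + s * b))) s := by
    intro s _
    have h1 : HasDerivAt (fun s : ℝ => -((1 - s) * a + s * b)) (-(b - a)) s := by
      have := (((hasDerivAt_id s).const_sub 1).mul_const a).add ((hasDerivAt_id s).mul_const b)
      exact this.neg.congr_deriv (by simp; ring)
    exact h1.exp.neg.congr_deriv (by ring)
  rw [intervalIntegral.integral_eq_sub_of_hasDerivAt hder
    (Continuous.intervalIntegrable (by fun_prop) _ _)]
  simp
  ring

/-- `exp (-B)` is alternating to the order to which `B` is Bernstein. -/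
lemma Brn.exp_neg {n : ℕ} {B : ℝ → ℝ} (hB : Brn n B) : Alt n (fun x => Real.exp (-B x)) := by
  induction n generalizing B with
  | zero => intro x _; exact (Real.exp_pos _).le
  | succ n ih =>
    refine ⟨fun x _ => (Real.exp_pos _).le, fun h hh => ?_⟩
    have key : Alt n (fun x => ∫ s in Ioc (0:ℝ) 1, (B (x + h) - B x) *
        Real.exp (-((1 - s) * B x + s * B (x + h)))) := by
      refine alt_integral ?_ fun x hx => ?_
      · filter_upwards [ae_restrict_mem measurableSet_Ioc] with s hs
        refine (hB.2 h hh).mul (ih ?_)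
        exact (hB.pred.const_mul (by linarith [hs.2])).add ((hB.pred.shift hh.le).const_mul hs.1.le)
      · have : Continuous fun s : ℝ => (B (x + h) - B x) *
            Real.exp (-((1 - s) * B x + s * B (x + h))) := by fun_prop
        exact (this.integrableOn_Icc (a := 0) (b := 1)).mono_set Ioc_subset_Icc_self
    refine key.congr fun x _ => ?_
    rw [exp_sub_exp_eq, intervalIntegral.integral_of_le zero_le_one]

/-- A nonnegative function with alternating derivative is Bernstein to the next order. -/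
lemma brn_of_deriv {n : ℕ} {B D : ℝ → ℝ} (hB : ∀ x, 0 < x → 0 ≤ B x)
    (hd : ∀ x, 0 < x → HasDerivAt B (D x) x) (hDc : ContinuousOn D (Ioi 0)) (hD : Alt n D) :
    Brn (n + 1) B := by
  refine ⟨hB, fun h hh => ?_⟩
  have hcont : ∀ x, 0 < x → ContinuousOn (fun s => D (x + s)) (Icc 0 h) := by
    intro x hx
    refine hDc.comp (by fun_prop) fun s hs => ?_
    have := hs.1
    simp only [mem_Ioi]; linarith
  have key : Alt n (fun x => ∫ s in Ioc (0:ℝ) h, D (x + s)) := by
    refine alt_integral ?_ fun x hx => ?_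
    · filter_upwards [ae_restrict_mem measurableSet_Ioc] with s hs
      exact hD.shift hs.1.le
    · exact ((hcont x hx).integrableOn_Icc).mono_set Ioc_subset_Icc_self
  refine key.congr fun x hx => ?_
  rw [← intervalIntegral.integral_of_le hh.le]
  have := intervalIntegral.integral_eq_sub_of_hasDerivAt (a := 0) (b := h)
    (f := fun s => B (x + s)) (f' := fun s => D (x + s)) ?_ ?_
  · rw [this, add_zero]
  · intro s hs
    rw [uIcc_of_le hh.le] at hs
    have h1 := hd (x + s) (by linarith [hs.1])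
    have h2 : HasDerivAt (fun s => x + s) 1 s := by simpa using (hasDerivAt_id s).const_add x
    exact (h1.comp s h2).congr_deriv (by ring)
  · apply ContinuousOn.intervalIntegrable
    rw [uIcc_of_le hh.le]
    exact hcont x hx

/-- The exponentials `exp (-t x)`. -/
lemma alt_exp (n : ℕ) {t : ℝ} (ht : 0 ≤ t) : Alt n (fun x => Real.exp (-(t * x))) := by
  induction n with
  | zero => intro x _; exact (Real.exp_pos _).le
  | succ n ih =>
    refine ⟨fun x _ => (Real.exp_pos _).le, fun h hh => ?_⟩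
    have h1 : 0 ≤ 1 - Real.exp (-(t * h)) := by
      have : Real.exp (-(t * h)) ≤ 1 := Real.exp_le_one_iff.2 (by
        have := mul_nonneg ht hh.le; linarith)
      linarith
    refine (ih.const_mul h1).congr fun x _ => ?_
    simp only [mul_add, neg_add, Real.exp_add]
    ring

/-- `c - f` is Bernstein if `f` is alternating and `f ≤ c`. -/
lemma Alt.const_sub {n : ℕ} {f : ℝ → ℝ} {c : ℝ} (hf : Alt (n + 1) f)
    (hc : ∀ x, 0 < x → f x ≤ c) : Brn (n + 1) (fun x => c - f x) := by
  refine ⟨fun x hx => by linarith [hc x hx], fun h hh => ?_⟩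
  exact (hf.2 h hh).congr fun x _ => by ring

lemma Alt.antitone {n : ℕ} {f : ℝ → ℝ} (hf : Alt (n + 1) f) {x y : ℝ} (hx : 0 < x) (hxy : x ≤ y) :
    f y ≤ f x := by
  rcases hxy.eq_or_lt with h | h
  · rw [h]
  · have := (hf.2 (y - x) (by linarith)).nonneg x hx
    simp only [add_sub_cancel] at this
    linarith

lemma Alt.le_of_tendsto {n : ℕ} {f : ℝ → ℝ} (hf : Alt (n + 1) f) {c : ℝ}
    (hc : Tendsto f (𝓝[>] 0) (𝓝 c)) : ∀ x, 0 < x → f x ≤ c := by
  intro x hx
  refine ge_of_tendsto hc ?_
  filter_upwards [Ioo_mem_nhdsGT hx] with y hy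
  exact hf.antitone hy.1 hy.2.le

/-- The derivative of an alternating function. -/
lemma Alt.neg_deriv {n : ℕ} {f g : ℝ → ℝ} (hf : Alt (n + 1) f)
    (hg : ∀ x, 0 < x → HasDerivAt f (-(g x)) x) : Alt n g := by
  have hlim : ∀ x, 0 < x → Tendsto (fun h : ℝ => h⁻¹ * (f x - f (x + h))) (𝓝[>] 0) (𝓝 (g x)) := by
    intro x hx
    have h1 := (hg x hx).tendsto_slope_zero
    have h2 := h1.mono_left (nhdsWithin_mono (0:ℝ) (fun y (hy : 0 < y) => hy.ne' : Ioi (0:ℝ) ⊆ {0}ᶜ))
    have h3 := h2.neg
    rw [neg_neg] at h3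
    refine h3.congr fun h => ?_
    simp only [smul_eq_mul]; ring
  refine alt_of_tendsto (l := 𝓝[>] (0:ℝ)) (F := fun h x => h⁻¹ * (f x - f (x + h))) ?_ hlim
  filter_upwards [self_mem_nhdsWithin] with h hh
  have hh' : (0:ℝ) < h := hh
  exact (hf.2 h hh').const_mul (inv_nonneg.2 hh'.le)

end Pool.Agent.Q76.Sd
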