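import Pool.Agent.Q76.SdLT

/-!
Ratios `Φ(cx)/Φ(x)` when `2 x Φ'/Φ` is a Bernstein function.
-/

open Set Filter Topology MeasureTheory

namespace Pool.Agent.Q76.Sd

/-- A nonnegative function whose negative derivative is alternating. -/
lemma alt_of_neg_deriv {n : ℕ} {f g : ℝ → ℝ} (hf : ∀ x, 0 < x → 0 ≤ f x)
    (hd : ∀ x, 0 < x → HasDerivAt f (-(g x)) x) (hgc : ContinuousOn g (Ioi 0)) (hg : Alt n g) :
    Alt (n + 1) f := by
  refine ⟨hf, fun h hh => ?_⟩
  have hcont : ∀ x, 0 < x → ContinuousOn (fun s => g (x + s)) (Icc 0 h) := by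
    intro x hx
    refine hgc.comp (by fun_prop) fun s hs => ?_
    have := hs.1
    simp only [mem_Ioi]; linarith
  have key : Alt n (fun x => ∫ s in Ioc (0:ℝ) h, g (x + s)) := by
    refine alt_integral ?_ fun x hx => ?_
    · filter_upwards [ae_restrict_mem measurableSet_Ioc] with s hs
      exact hg.shift hs.1.le
    · exact ((hcont x hx).integrableOn_Icc).mono_set Ioc_subset_Icc_self
  refine key.congr fun x hx => ?_
  rw [← intervalIntegral.integral_of_le hh.le]
  have := intervalIntegral.integral_eq_sub_of_hasDerivAt (a := 0) (b := h)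
    (f := fun s => -f (x + s)) (f' := fun s => g (x + s)) ?_ ?_
  · rw [this, add_zero]; ring
  · intro s hs
    rw [uIcc_of_le hh.le] at hs
    have h1 := hd (x + s) (by linarith [hs.1])
    have h2 : HasDerivAt (fun s => x + s) 1 s := by simpa using (hasDerivAt_id s).const_add x
    exact (h1.comp s h2).neg.congr_deriv (by ring)
  · apply ContinuousOn.intervalIntegrable
    rw [uIcc_of_le hh.le]
    exact hcont x hx

lemma alt_inv (n : ℕ) : Alt n (fun x => x⁻¹) := by
  induction n with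
  | zero => intro x hx; exact (inv_pos.2 hx).le
  | succ n ih =>
    refine alt_of_neg_deriv (g := fun x => x⁻¹ * x⁻¹) (fun x hx => (inv_pos.2 hx).le)
      (fun x hx => ?_) ?_ (ih.mul ih)
    · refine (hasDerivAt_inv hx.ne').congr_deriv ?_
      field_simp
    · have h1 : ContinuousOn (fun x : ℝ => x⁻¹) (Ioi 0) :=
        continuousOn_id.inv₀ fun x (hx : 0 < x) => hx.ne'
      exact h1.mul h1

lemma alt_inv_sqrt (n : ℕ) : Alt n (fun x => (√x)⁻¹) := by
  induction n with
  | zero => intro x hx; positivity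
  | succ n ih =>
    refine alt_of_neg_deriv (g := fun x => 1/2 * ((√x)⁻¹ * x⁻¹)) (fun x hx => by positivity)
      (fun x hx => ?_) ?_ ((ih.mul (alt_inv n)).const_mul (by norm_num))
    · have hs : 0 < √x := Real.sqrt_pos.2 hx
      refine ((Real.hasDerivAt_sqrt hx.ne').inv hs.ne').congr_deriv ?_
      have h2 : √x ^ 2 = x := Real.sq_sqrt hx.le
      have h3 : x⁻¹ = (√x ^ 2)⁻¹ := by rw [h2]
      rw [h3]
      field_simp
    · refine continuousOn_const.mul (ContinuousOn.mul ?_ ?_)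
      · exact Real.continuous_sqrt.continuousOn.inv₀ fun x hx => (Real.sqrt_pos.2 hx).ne'
      · exact continuousOn_id.inv₀ fun x (hx : 0 < x) => hx.ne'

lemma brn_sqrt (n : ℕ) : Brn n (fun x => √x) := by
  cases n with
  | zero => intro x _; positivity
  | succ n =>
    refine brn_of_deriv (D := fun x => 1/2 * (√x)⁻¹) (fun x _ => Real.sqrt_nonneg x)
      (fun x hx => ?_) ?_ ((alt_inv_sqrt n).const_mul (by norm_num))
    · refine (Real.hasDerivAt_sqrt hx.ne').congr_deriv ?_
      field_simp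
    · exact continuousOn_const.mul
        (Real.continuous_sqrt.continuousOn.inv₀ fun x hx => (Real.sqrt_pos.2 hx).ne')

lemma alt_exp_sqrt (n : ℕ) {c : ℝ} (hc : 0 ≤ c) : Alt n (fun x => Real.exp (-(c * √x))) :=
  ((brn_sqrt n).const_mul hc).exp_neg

/-- `Φ` is positive with `2 x Φ'(x) / Φ(x) = B(x)`. -/
structure LogD (Φ B : ℝ → ℝ) : Prop where
  pos : ∀ x, 0 < x → 0 < Φ x
  deriv : ∀ x, 0 < x → HasDerivAt Φ (B x * Φ x / (2 * x)) x
  cont : ContinuousOn B (Ioi 0)

lemma LogD.cont_scaled {Φ B : ℝ → ℝ} (h : LogD Φ B) {c x : ℝ} (hc : 0 < c) (hx : 0 < x) :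
    ContinuousOn (fun ρ => 1 / (2 * ρ) * B (ρ * x)) (Icc c 1) := by
  refine ContinuousOn.mul ?_ ?_
  · refine continuousOn_const.div (by fun_prop) fun ρ hρ => ?_
    have := hρ.1
    have h2 : 0 < ρ := by linarith
    positivity
  · refine h.cont.comp (by fun_prop) fun ρ hρ => ?_
    have := hρ.1
    have h2 : 0 < ρ := by linarith
    exact mul_pos h2 hx

lemma LogD.ratio {Φ B : ℝ → ℝ} (h : LogD Φ B) {c x : ℝ} (hc : 0 < c) (hc1 : c ≤ 1) (hx : 0 < x) :
    Φ (c * x) / Φ x = Real.exp (-(∫ ρ in Ioc c 1, 1 / (2 * ρ) * B (ρ * x))) := by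
  rw [← intervalIntegral.integral_of_le hc1]
  have := intervalIntegral.integral_eq_sub_of_hasDerivAt (a := c) (b := 1)
    (f := fun ρ => Real.log (Φ (ρ * x))) (f' := fun ρ => 1 / (2 * ρ) * B (ρ * x)) ?_ ?_
  · rw [this, one_mul, neg_sub, Real.exp_sub, Real.exp_log (h.pos _ (by positivity)),
      Real.exp_log (h.pos _ hx)]
  · intro ρ hρ
    rw [uIcc_of_le hc1] at hρ
    have hρ0 : 0 < ρ := lt_of_lt_of_le hc hρ.1
    have h1 := h.deriv (ρ * x) (by positivity)
    have h2 : HasDerivAt (fun ρ => ρ * x) x ρ := by simpa using (hasDerivAt_id ρ).mul_const x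
    have h3 := (h1.comp ρ h2).log (h.pos _ (by positivity)).ne'
    refine h3.congr_deriv ?_
    have := (h.pos (ρ * x) (by positivity)).ne'
    simp only [Function.comp_apply]
    field_simp
  · apply ContinuousOn.intervalIntegrable
    rw [uIcc_of_le hc1]
    exact h.cont_scaled hc hx

/-- If `B` is Bernstein to order `n`, the ratio `Φ(cx)/Φ(x)`, `c ≤ 1`, is alternating to order
`n`. -/
lemma LogD.alt_ratio {Φ B : ℝ → ℝ} (h : LogD Φ B) {n : ℕ} (hB : Brn n B) {c : ℝ} (hc : 0 < c)
    (hc1 : c ≤ 1) : Alt n (fun x => Φ (c * x) / Φ x) := by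
  have key : Brn n (fun x => ∫ ρ in Ioc c 1, 1 / (2 * ρ) * B (ρ * x)) := by
    refine brn_integral ?_ fun x hx => ?_
    · filter_upwards [ae_restrict_mem measurableSet_Ioc] with ρ hρ
      have hρ0 : 0 < ρ := lt_trans hc hρ.1
      exact (hB.scale hρ0).const_mul (by positivity)
    · exact ((h.cont_scaled hc hx).integrableOn_Icc).mono_set Ioc_subset_Icc_self
  exact key.exp_neg.congr fun x hx => (h.ratio hc hc1 hx).symm

end Pool.Agent.Q76.Sd
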