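import Pool.Agent.Q76.SdGen

/-!
The entire function `II μ x = ∑ (x/4)^k / (k! Γ(k+μ+1))`, so that `I_μ(y) = (y/2)^μ II μ (y²)`.
-/

open Set Filter Topology MeasureTheory
open scoped Nat ContDiff

namespace Pool.Agent.Q76.Sd

/-- coefficients -/
noncomputable def ac (μ : ℝ) (k : ℕ) : ℝ := 1 / (k ! * Real.Gamma (k + μ + 1))

noncomputable def II (μ x : ℝ) : ℝ := ∑' k : ℕ, ac μ k * (x / 4) ^ k

variable {μ : ℝ}

lemma gamma_arg_pos (hμ : -1 < μ) (k : ℕ) : 0 < (k : ℝ) + μ + 1 := by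
  have : (0:ℝ) ≤ k := k.cast_nonneg
  linarith

lemma ac_pos (hμ : -1 < μ) (k : ℕ) : 0 < ac μ k := by
  unfold ac
  have := Real.Gamma_pos_of_pos (gamma_arg_pos hμ k)
  positivity

lemma gamma_succ (hμ : -1 < μ) (k : ℕ) :
    Real.Gamma ((k + 1 : ℕ) + μ + 1) = (k + μ + 1) * Real.Gamma (k + μ + 1) := by
  have h := Real.Gamma_add_one (gamma_arg_pos hμ k).ne'
  rw [← h]; congr 1; push_cast; ring

lemma inv_gamma_le (hμ : -1 < μ) (k : ℕ) :
    (Real.Gamma (k + μ + 1))⁻¹ ≤ (Real.Gamma (μ + 1))⁻¹ + (Real.Gamma (μ + 2))⁻¹ := by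
  have h1 : 0 < Real.Gamma (μ + 1) := Real.Gamma_pos_of_pos (by linarith)
  have h2 : 0 < Real.Gamma (μ + 2) := Real.Gamma_pos_of_pos (by linarith)
  rcases Nat.eq_zero_or_pos k with h | h
  · subst h
    simp only [CharP.cast_eq_zero, zero_add]
    have : 0 < (Real.Gamma (μ + 2))⁻¹ := by positivity
    linarith
  · have key : Real.Gamma (μ + 2) ≤ Real.Gamma (k + μ + 1) := by
      induction k, h using Nat.le_induction with
      | base => norm_num; rw [show 1 + μ + 1 = μ + 2 by ring]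
      | succ k hk ih =>
        rw [gamma_succ hμ k]
        have h3 := Real.Gamma_pos_of_pos (gamma_arg_pos hμ k)
        have h4 : (1:ℝ) ≤ k := by exact_mod_cast hk
        nlinarith
    have h5 := inv_anti₀ h2 key
    have : 0 < (Real.Gamma (μ + 1))⁻¹ := by positivity
    linarith

/-- the bounding constant -/
noncomputable def cc (μ : ℝ) : ℝ := (Real.Gamma (μ + 1))⁻¹ + (Real.Gamma (μ + 2))⁻¹

lemma cc_pos (hμ : -1 < μ) : 0 < cc μ := by
  have h1 : 0 < Real.Gamma (μ + 1) := Real.Gamma_pos_of_pos (by linarith)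
  have h2 : 0 < Real.Gamma (μ + 2) := Real.Gamma_pos_of_pos (by linarith)
  unfold cc; positivity

lemma ac_le (hμ : -1 < μ) (k : ℕ) : ac μ k ≤ cc μ / k ! := by
  unfold ac
  rw [one_div, mul_inv, div_eq_mul_inv, mul_comm]
  exact mul_le_mul_of_nonneg_right (inv_gamma_le hμ k) (by positivity)

lemma norm_term_le (hμ : -1 < μ) (k : ℕ) {x R : ℝ} (hx : |x| ≤ R) :
    ‖ac μ k * (x / 4) ^ k‖ ≤ cc μ * ((R / 4) ^ k / k !) := by
  rw [norm_mul, norm_pow, Real.norm_eq_abs, Real.norm_eq_abs, abs_of_pos (ac_pos hμ k), abs_div,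
    abs_of_pos (by norm_num : (0:ℝ) < 4)]
  have h1 : (|x| / 4) ^ k ≤ (R / 4) ^ k := by gcongr
  have h2 := ac_le hμ k
  have h3 : 0 ≤ (|x| / 4) ^ k := by positivity
  calc ac μ k * (|x| / 4) ^ k ≤ (cc μ / k !) * (R / 4) ^ k := by
        apply mul_le_mul h2 h1 h3
        have := (cc_pos hμ).le
        positivity
    _ = _ := by ring

lemma summable_II (hμ : -1 < μ) (x : ℝ) : Summable (fun k : ℕ => ac μ k * (x / 4) ^ k) :=
  Summable.of_norm_bounded ((Real.summable_pow_div_factorial (|x| / 4)).mul_left (cc μ))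
    fun k => norm_term_le hμ k le_rfl

lemma ac_succ (_hμ : -1 < μ) (k : ℕ) : ac μ (k + 1) * (k + 1) = ac (μ + 1) k := by
  unfold ac
  rw [Nat.factorial_succ]
  have h1 : ((k + 1 : ℕ) : ℝ) + μ + 1 = k + (μ + 1) + 1 := by push_cast; ring
  rw [h1]
  push_cast
  have h2 : ((k:ℝ) + 1) ≠ 0 := by positivity
  field_simp

lemma hasDerivAt_II (hμ : -1 < μ) (x : ℝ) : HasDerivAt (II μ) (1/4 * II (μ + 1) x) x := by
  set R := |x| + 1
  have hx : x ∈ Metric.ball (0:ℝ) R := by
    simp only [Metric.mem_ball, dist_zero_right, Real.norm_eq_abs, R]; linarith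
  have hR : 0 < R := by positivity
  have hsum : Summable fun k : ℕ => cc μ * ((k : ℝ) * (R / 4) ^ (k - 1) / k !) := by
    apply Summable.mul_left
    rw [← summable_nat_add_iff 1]
    refine (Real.summable_pow_div_factorial (R / 4)).congr fun k => ?_
    rw [Nat.factorial_succ]
    push_cast
    have h2 : ((k:ℝ) + 1) ≠ 0 := by positivity
    have h3 : (k ! : ℝ) ≠ 0 := by positivity
    field_simp
  have key := hasDerivAt_tsum_of_isPreconnected (g := fun (k : ℕ) (x : ℝ) => ac μ k * (x / 4) ^ k)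
    (g' := fun (k : ℕ) (x : ℝ) => ac μ k * (k * (x / 4) ^ (k - 1) * (1 / 4))) hsum
    Metric.isOpen_ball (convex_ball (0:ℝ) R).isPreconnected
    (fun k y _ => by
      have h1 : HasDerivAt (fun y : ℝ => y / 4) (1 / 4) y := (hasDerivAt_id y).div_const 4
      exact (h1.pow k).const_mul _)
    (fun k y hy => by
      have hy' : |y| ≤ R := by
        simp only [Metric.mem_ball, dist_zero_right, Real.norm_eq_abs] at hy; exact hy.le
      rw [norm_mul, norm_mul, norm_mul, norm_pow, Real.norm_eq_abs, Real.norm_eq_abs,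
        Real.norm_eq_abs, Real.norm_eq_abs, abs_of_pos (ac_pos hμ k), abs_div,
        abs_of_pos (by norm_num : (0:ℝ) < 4), abs_of_nonneg (by positivity : (0:ℝ) ≤ (k:ℝ)),
        abs_of_pos (by norm_num : (0:ℝ) < 1 / 4)]
      have h1 : (|y| / 4) ^ (k - 1) ≤ (R / 4) ^ (k - 1) := by gcongr
      have h2 := ac_le hμ k
      have h4 : (k:ℝ) * (|y| / 4) ^ (k - 1) * (1/4) ≤ (k:ℝ) * (R / 4) ^ (k - 1) := by
        have h5 : 0 ≤ (k:ℝ) * (R / 4) ^ (k - 1) := by positivity
        have h6 : (k:ℝ) * (|y| / 4) ^ (k - 1) ≤ (k:ℝ) * (R / 4) ^ (k - 1) := by gcongr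
        have h7 : 0 ≤ (k:ℝ) * (|y| / 4) ^ (k - 1) := by positivity
        linarith
      calc ac μ k * ((k:ℝ) * (|y| / 4) ^ (k - 1) * (1/4)) ≤ (cc μ / k !) * ((k:ℝ) * (R / 4) ^ (k - 1)) := by
            apply mul_le_mul h2 h4 (by positivity)
            have := (cc_pos hμ).le
            positivity
        _ = _ := by ring)
    hx (summable_II hμ x) hx
  have e : (∑' k : ℕ, ac μ k * (k * (x / 4) ^ (k - 1) * (1 / 4))) = 1/4 * II (μ + 1) x := by
    have hs : Summable (fun k : ℕ => ac μ k * (k * (x / 4) ^ (k - 1) * (1 / 4))) := by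
      rw [← summable_nat_add_iff 1]
      refine ((summable_II (μ := μ + 1) (by linarith) x).mul_left (1/4)).congr fun k => ?_
      rw [← ac_succ hμ k, Nat.add_sub_cancel]; push_cast; ring
    rw [hs.tsum_eq_zero_add]
    simp only [CharP.cast_eq_zero, zero_mul, mul_zero, zero_add]
    unfold II
    rw [← tsum_mul_left]
    congr 1; ext k
    rw [← ac_succ hμ k, Nat.add_sub_cancel]; push_cast; ring
  rw [← e]
  exact key

lemma II_rec (hμ : -1 < μ) (x : ℝ) :
    II μ x = (μ + 1) * II (μ + 1) x + x / 4 * II (μ + 2) x := by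
  have h1 := summable_II (μ := μ + 1) (by linarith) x
  have h2 := summable_II (μ := μ + 2) (by linarith) x
  have e0 : ac μ 0 = (μ + 1) * ac (μ + 1) 0 := by
    unfold ac
    have h := Real.Gamma_add_one (s := μ + 1) (by linarith)
    have h3 := Real.Gamma_pos_of_pos (s := μ + 1) (by linarith)
    simp only [CharP.cast_eq_zero, zero_add, Nat.factorial_zero, Nat.cast_one, one_mul]
    rw [h]
    have h4 : μ + 1 ≠ 0 := by linarith
    field_simp
  have ek : ∀ k : ℕ, ac μ (k + 1) = (μ + 1) * ac (μ + 1) (k + 1) + ac (μ + 2) k := by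
    intro k
    have a1 := ac_succ (μ := μ + 1) (by linarith) k
    rw [show μ + 1 + 1 = μ + 2 by ring] at a1
    rw [← a1]
    unfold ac
    have h := Real.Gamma_add_one (s := ((k + 1 : ℕ):ℝ) + μ + 1) (gamma_arg_pos hμ _).ne'
    have h3 := Real.Gamma_pos_of_pos (gamma_arg_pos hμ (k + 1))
    rw [show ((k + 1 : ℕ):ℝ) + (μ + 1) + 1 = ((k + 1 : ℕ):ℝ) + μ + 1 + 1 by ring, h]
    have h4 := gamma_arg_pos hμ (k + 1)
    push_cast at h4 ⊢
    field_simp
    ring
  unfold II
  rw [(summable_II hμ x).tsum_eq_zero_add, h1.tsum_eq_zero_add]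
  have h3 : Summable fun k : ℕ => ac (μ + 1) (k + 1) * (x / 4) ^ (k + 1) :=
    (summable_nat_add_iff 1).2 h1
  have e : ∀ k : ℕ, ac μ (k + 1) * (x / 4) ^ (k + 1) =
      (μ + 1) * (ac (μ + 1) (k + 1) * (x / 4) ^ (k + 1)) + x / 4 * (ac (μ + 2) k * (x / 4) ^ k) := by
    intro k
    rw [ek k]; ring
  simp_rw [e]
  rw [(h3.mul_left (μ + 1)).tsum_add (h2.mul_left (x / 4)), tsum_mul_left, tsum_mul_left, e0]
  ring

lemma II_pos (hμ : -1 < μ) {x : ℝ} (hx : 0 ≤ x) : 0 < II μ x := by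
  unfold II
  refine (summable_II hμ x).tsum_pos (fun k => ?_) 0 ?_
  · have := ac_pos hμ k
    positivity
  · simpa using ac_pos hμ 0

lemma II_zero : II μ 0 = (Real.Gamma (μ + 1))⁻¹ := by
  unfold II
  rw [tsum_eq_single 0]
  · simp [ac]
  · intro k hk
    simp [hk]

lemma contDiff_II : ∀ (n : ℕ) {μ : ℝ}, -1 < μ → ContDiff ℝ n (II μ) := by
  intro n
  induction n with
  | zero =>
    intro μ hμ
    rw [Nat.cast_zero, contDiff_zero]
    exact continuous_iff_continuousAt.2 fun x => (hasDerivAt_II hμ x).continuousAt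
  | succ n ih =>
    intro μ hμ
    push_cast
    rw [contDiff_succ_iff_deriv]
    refine ⟨fun x => (hasDerivAt_II hμ x).differentiableAt, by simp, ?_⟩
    have : deriv (II μ) = fun x => 1/4 * II (μ + 1) x := funext fun x => (hasDerivAt_II hμ x).deriv
    rw [this]
    exact contDiff_const.mul (ih (by linarith))

lemma contDiff_II_infty (hμ : -1 < μ) : ContDiff ℝ ∞ (II μ) :=
  contDiff_infty.2 fun n => contDiff_II n hμ

lemma cont_II (hμ : -1 < μ) : Continuous (II μ) := (contDiff_II 0 hμ).continuous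

end Pool.Agent.Q76.Sd
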