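import Pool.Agent.Q76.SdI

/-!
`BI μ x = y I_{μ+1}(y)/I_μ(y)`, `x = y²`, is a Bernstein function of `x`, for every `μ > -1`.
-/

open Set Filter Topology MeasureTheory
open scoped Nat ContDiff

namespace Pool.Agent.Q76.Sd

/-- `x ↦ y I_{μ+1}(y)/I_μ(y)`, `x = y²`. -/
noncomputable def BI (μ x : ℝ) : ℝ := x / 2 * II (μ + 1) x / II μ x

/-- its derivative -/
noncomputable def DI (μ x : ℝ) : ℝ := (x - BI μ x ^ 2 - 2 * μ * BI μ x) / (2 * x)

variable {μ : ℝ}

lemma cont_BI (hμ : -1 < μ) : ContinuousOn (BI μ) (Ici 0) := by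
  unfold BI
  refine ContinuousOn.div ?_ (cont_II hμ).continuousOn fun x hx => (II_pos hμ hx).ne'
  exact ((continuous_id.div_const 2).mul (cont_II (by linarith))).continuousOn

lemma BI_nonneg (hμ : -1 < μ) {x : ℝ} (hx : 0 ≤ x) : 0 ≤ BI μ x := by
  unfold BI
  have h1 := II_pos hμ hx
  have h2 := II_pos (μ := μ + 1) (by linarith) hx
  positivity

lemma hasDerivAt_BI (hμ : -1 < μ) {x : ℝ} (hx : 0 < x) : HasDerivAt (BI μ) (DI μ x) x := by
  have h1 := II_pos hμ hx.le
  have h2 := II_pos (μ := μ + 1) (by linarith) hx.le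
  have d0 := hasDerivAt_II hμ x
  have d1 := hasDerivAt_II (μ := μ + 1) (by linarith) x
  rw [show μ + 1 + 1 = μ + 2 by ring] at d1
  have d2 : HasDerivAt (fun x : ℝ => x / 2) (1/2) x := (hasDerivAt_id x).div_const 2
  have h := (d2.mul d1).div d0 h1.ne'
  refine h.congr_deriv ?_
  unfold DI BI
  have hr := II_rec hμ x
  -- express II (μ+2)
  have e : II (μ + 2) x = 4 * (II μ x - (μ + 1) * II (μ + 1) x) / x := by
    field_simp
    linarith
  simp only [Pi.mul_apply]
  rw [e]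
  field_simp
  ring

lemma cont_DI (hμ : -1 < μ) : ContinuousOn (DI μ) (Ioi 0) := by
  unfold DI
  have h := (cont_BI hμ).mono Ioi_subset_Ici_self
  refine ContinuousOn.div ?_ (by fun_prop) fun x (hx : 0 < x) => by positivity
  exact (continuousOn_id.sub (h.pow 2)).sub (continuousOn_const.mul h)

lemma logD_I (hμ : -1 < μ) : LogD (II μ) (BI μ) where
  pos := fun x hx => II_pos hμ hx.le
  deriv := fun x hx => by
    refine (hasDerivAt_II hμ x).congr_deriv ?_
    have := (II_pos hμ hx.le).ne'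
    unfold BI
    field_simp
    ring
  cont := (cont_BI hμ).mono Ioi_subset_Ici_self

/-- the primitive of `z^μ II μ z ^ 2` -/
noncomputable def JI (μ z : ℝ) : ℝ :=
  z ^ (μ + 1) * (II μ z ^ 2 - z / 4 * II (μ + 1) z ^ 2 - μ * (II (μ + 1) z * II μ z))

lemma hasDerivAt_JI (hμ : -1 < μ) {z : ℝ} (hz : 0 < z) :
    HasDerivAt (JI μ) (z ^ μ * II μ z ^ 2) z := by
  have d0 := hasDerivAt_II hμ z
  have d1 := hasDerivAt_II (μ := μ + 1) (by linarith) z
  rw [show μ + 1 + 1 = μ + 2 by ring] at d1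
  have d2 : HasDerivAt (fun x : ℝ => x / 4) (1/4) z := (hasDerivAt_id z).div_const 4
  have dz : HasDerivAt (fun z : ℝ => z ^ (μ + 1)) ((μ + 1) * z ^ μ) z := by
    have := Real.hasDerivAt_rpow_const (x := z) (p := μ + 1) (Or.inl hz.ne')
    rwa [add_sub_cancel_right] at this
  have h := dz.mul (((d0.pow 2).sub (d2.mul (d1.pow 2))).sub ((d1.mul d0).const_mul μ))
  refine h.congr_deriv ?_
  have hr := II_rec hμ z
  have e : II (μ + 2) z = 4 * (II μ z - (μ + 1) * II (μ + 1) z) / z := by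
    field_simp
    linarith
  have ez : z ^ (μ + 1) = z ^ μ * z := Real.rpow_add_one hz.ne' μ
  simp only [Pi.mul_apply, Pi.sub_apply, Pi.pow_apply]
  rw [e, ez]
  field_simp
  ring

lemma cont_JI (hμ : -1 < μ) : Continuous (JI μ) := by
  unfold JI
  have h0 := cont_II hμ
  have h1 := cont_II (μ := μ + 1) (by linarith)
  exact (Real.continuous_rpow_const (by linarith)).mul
    (((h0.pow 2).sub ((continuous_id.div_const 4).mul (h1.pow 2))).sub
      (continuous_const.mul (h1.mul h0)))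

lemma JI_zero (hμ : -1 < μ) : JI μ 0 = 0 := by
  unfold JI
  rw [Real.zero_rpow (by linarith), zero_mul]

lemma JI_eq (hμ : -1 < μ) {x : ℝ} (hx : 0 < x) :
    JI μ x = 2 * x ^ (μ + 1) * DI μ x * II μ x ^ 2 := by
  unfold JI DI BI
  have := (II_pos hμ hx.le).ne'
  field_simp
  ring

lemma intOn_rpow (hμ : -1 < μ) {x : ℝ} (hx : 0 < x) :
    IntegrableOn (fun r : ℝ => r ^ μ * (II μ (r * x) / II μ x) ^ 2) (Ioc 0 1) := by
  have h1 : IntervalIntegrable (fun r : ℝ => r ^ μ) volume 0 1 :=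
    intervalIntegral.intervalIntegrable_rpow' hμ
  have h2 : ContinuousOn (fun r : ℝ => (II μ (r * x) / II μ x) ^ 2) (uIcc 0 1) := by
    refine ((ContinuousOn.div_const ?_ _).pow 2)
    exact ((cont_II hμ).comp (continuous_id.mul_const x)).continuousOn
  have := h1.mul_continuousOn h2
  rwa [intervalIntegrable_iff_integrableOn_Ioc_of_le zero_le_one] at this

lemma DI_eq (hμ : -1 < μ) {x : ℝ} (hx : 0 < x) :
    DI μ x = 1/2 * ∫ r in Ioc (0:ℝ) 1, r ^ μ * (II μ (r * x) / II μ x) ^ 2 := by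
  have hI := (II_pos hμ hx.le).ne'
  have key := intervalIntegral.integral_eq_sub_of_hasDerivAt_of_le (a := 0) (b := 1)
    (f := fun r => JI μ (r * x))
    (f' := fun r => x ^ (μ + 1) * II μ x ^ 2 * (r ^ μ * (II μ (r * x) / II μ x) ^ 2))
    zero_le_one ((cont_JI hμ).comp (continuous_id.mul_const x)).continuousOn
    (fun r hr => by
      have h1 := hasDerivAt_JI hμ (z := r * x) (mul_pos hr.1 hx)
      have h2 : HasDerivAt (fun r => r * x) x r := by simpa using (hasDerivAt_id r).mul_const x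
      refine (h1.comp r h2).congr_deriv ?_
      rw [Real.mul_rpow hr.1.le hx.le, Real.rpow_add_one hx.ne' μ]
      field_simp)
    (by
      rw [intervalIntegrable_iff_integrableOn_Ioc_of_le zero_le_one]
      exact (intOn_rpow hμ hx).const_mul _)
  rw [one_mul, zero_mul, JI_zero hμ, sub_zero, JI_eq hμ hx, intervalIntegral.integral_const_mul,
    intervalIntegral.integral_of_le zero_le_one] at key
  have hx' : 0 < x ^ (μ + 1) := Real.rpow_pos_of_pos hx _
  have h3 : x ^ (μ + 1) * II μ x ^ 2 ≠ 0 := by positivity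
  have h4 : x ^ (μ + 1) * II μ x ^ 2 * (2 * DI μ x) = x ^ (μ + 1) * II μ x ^ 2 *
      ∫ r in Ioc (0:ℝ) 1, r ^ μ * (II μ (r * x) / II μ x) ^ 2 := by
    rw [key]; ring
  have h5 := mul_left_cancel₀ h3 h4
  linarith

/-- `y I_{μ+1}(y)/I_μ(y)` is a Bernstein function of `y²`. -/
theorem brn_BI (hμ : -1 < μ) (n : ℕ) : Brn n (BI μ) := by
  induction n with
  | zero => intro x hx; exact BI_nonneg hμ hx.le
  | succ n ih =>
    refine brn_of_deriv (fun x hx => BI_nonneg hμ hx.le) (fun x hx => hasDerivAt_BI hμ hx)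
      (cont_DI hμ) ?_
    have key : Alt n (fun x => ∫ r in Ioc (0:ℝ) 1, r ^ μ * (II μ (r * x) / II μ x) ^ 2) := by
      refine alt_integral ?_ fun x hx => intOn_rpow hμ hx
      filter_upwards [ae_restrict_mem measurableSet_Ioc] with r hr
      exact (((logD_I hμ).alt_ratio ih hr.1 hr.2).pow 2).const_mul (Real.rpow_nonneg hr.1.le _)
    exact (key.const_mul (by norm_num : (0:ℝ) ≤ 1/2)).congr fun x hx => (DI_eq hμ hx).symm

/-- Laplace transform of an upward hitting time of a Bessel process. -/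
theorem alt_ratio_I (hμ : -1 < μ) (n : ℕ) {c : ℝ} (hc : 0 < c) (hc1 : c ≤ 1) :
    Alt n (fun x => II μ (c * x) / II μ x) := (logD_I hμ).alt_ratio (brn_BI hμ n) hc hc1

end Pool.Agent.Q76.Sd
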