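import Pool.Agent.Q76.SdIB

/-!
For `μ > 1/2` the function `√x - y I_{μ+1}(y)/I_μ(y)`, `x = y²`, is a Bernstein function of `x`.
-/

open Set Filter Topology MeasureTheory
open scoped Nat ContDiff

namespace Pool.Agent.Q76.Sd

/-- `h = B + μ + 1/2 - √x` -/
noncomputable def hI (μ x : ℝ) : ℝ := BI μ x + μ + 1/2 - √x

variable {μ : ℝ}

lemma hasDerivAt_hI (hμ : -1 < μ) {x : ℝ} (hx : 0 < x) :
    HasDerivAt (hI μ) (DI μ x - 1 / (2 * √x)) x := by
  unfold hI
  exact (((hasDerivAt_BI hμ hx).add_const μ).add_const (1/2)).sub (Real.hasDerivAt_sqrt hx.ne')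

lemma cont_hI (hμ : -1 < μ) : ContinuousOn (hI μ) (Ici 0) := by
  unfold hI
  exact (((cont_BI hμ).add continuousOn_const).add continuousOn_const).sub
    Real.continuous_sqrt.continuousOn

noncomputable def JH (μ z : ℝ) : ℝ := z ^ ((μ - 1/2) / 2) * (II μ z * Real.exp (√z) * hI μ z)

lemma hasDerivAt_JH (hμ : -1 < μ) {z : ℝ} (hz : 0 < z) :
    HasDerivAt (JH μ) ((μ ^ 2 - 1/4) / 2 * (z ^ ((μ - 1/2) / 2 - 1) * (II μ z * Real.exp (√z)))) z := by
  have hw : 0 < √z := Real.sqrt_pos.2 hz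
  have hI0 := II_pos hμ hz.le
  have dz : HasDerivAt (fun z : ℝ => z ^ ((μ - 1/2) / 2))
      ((μ - 1/2) / 2 * z ^ ((μ - 1/2) / 2 - 1)) z :=
    Real.hasDerivAt_rpow_const (Or.inl hz.ne')
  have d0 := hasDerivAt_II hμ z
  have de := (Real.hasDerivAt_sqrt hz.ne').exp
  have h := dz.mul ((d0.mul de).mul (hasDerivAt_hI hμ hz))
  refine h.congr_deriv ?_
  have ez : z ^ ((μ - 1/2) / 2) = z ^ ((μ - 1/2) / 2 - 1) * z := by
    rw [← Real.rpow_add_one hz.ne']; ring_nf
  have e1 : II (μ + 1) z = 2 * BI μ z * II μ z / z := by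
    unfold BI; field_simp
  simp only [Pi.mul_apply]
  rw [ez, e1]
  unfold DI hI
  have hzw : z = √z ^ 2 := (Real.sq_sqrt hz.le).symm
  generalize BI μ z = B
  generalize z ^ ((μ - 1/2) / 2 - 1) = q
  generalize Real.exp √z = E
  generalize II μ z = F at hI0 ⊢
  generalize √z = w at hw hzw ⊢
  subst hzw
  field_simp
  ring

lemma cont_JH (hμ : 1/2 < μ) : ContinuousOn (JH μ) (Ici 0) := by
  unfold JH
  have h0 := cont_II (μ := μ) (by linarith)
  refine ContinuousOn.mul (Real.continuous_rpow_const (by linarith)).continuousOn ?_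
  exact (h0.mul (Real.continuous_exp.comp Real.continuous_sqrt)).continuousOn.mul
    (cont_hI (by linarith))

lemma JH_zero (hμ : 1/2 < μ) : JH μ 0 = 0 := by
  unfold JH
  rw [Real.zero_rpow (by linarith), zero_mul]

lemma intOn_hI (hμ : 1/2 < μ) {x : ℝ} :
    IntegrableOn (fun r : ℝ => r ^ ((μ - 1/2) / 2 - 1) *
      (II μ (r * x) / II μ x * Real.exp (-((1 - √r) * √x)))) (Ioc 0 1) := by
  have h1 : IntervalIntegrable (fun r : ℝ => r ^ ((μ - 1/2) / 2 - 1)) volume 0 1 :=
    intervalIntegral.intervalIntegrable_rpow' (by linarith)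
  have h2 : ContinuousOn (fun r : ℝ => II μ (r * x) / II μ x * Real.exp (-((1 - √r) * √x)))
      (uIcc 0 1) := by
    refine ContinuousOn.mul ?_ (by fun_prop)
    exact (((cont_II (by linarith)).comp (continuous_id.mul_const x)).div_const _).continuousOn
  have := h1.mul_continuousOn h2
  rwa [intervalIntegrable_iff_integrableOn_Ioc_of_le zero_le_one] at this

lemma hI_eq (hμ : 1/2 < μ) {x : ℝ} (hx : 0 < x) :
    hI μ x = (μ ^ 2 - 1/4) / 2 * ∫ r in Ioc (0:ℝ) 1, r ^ ((μ - 1/2) / 2 - 1) *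
      (II μ (r * x) / II μ x * Real.exp (-((1 - √r) * √x))) := by
  have hμ' : -1 < μ := by linarith
  have hI := II_pos hμ' hx.le
  have hc : ContinuousOn (fun r => JH μ (r * x)) (Icc 0 1) := by
    refine (cont_JH hμ).comp (by fun_prop) fun r hr => ?_
    exact mul_nonneg hr.1 hx.le
  have key := intervalIntegral.integral_eq_sub_of_hasDerivAt_of_le (a := 0) (b := 1)
    (f := fun r => JH μ (r * x))
    (f' := fun r => ((μ ^ 2 - 1/4) / 2 * (x ^ ((μ - 1/2) / 2) * II μ x * Real.exp (√x))) *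
      (r ^ ((μ - 1/2) / 2 - 1) * (II μ (r * x) / II μ x * Real.exp (-((1 - √r) * √x)))))
    zero_le_one hc
    (fun r hr => by
      have h1 := hasDerivAt_JH hμ' (z := r * x) (mul_pos hr.1 hx)
      have h2 : HasDerivAt (fun r => r * x) x r := by simpa using (hasDerivAt_id r).mul_const x
      refine (h1.comp r h2).congr_deriv ?_
      have ez : x ^ ((μ - 1/2) / 2) = x ^ ((μ - 1/2) / 2 - 1) * x := by
        rw [← Real.rpow_add_one hx.ne']; ring_nf
      have es : Real.exp √(r * x) = Real.exp √x * Real.exp (-((1 - √r) * √x)) := by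
        rw [← Real.exp_add, Real.sqrt_mul hr.1.le]; ring_nf
      rw [Real.mul_rpow hr.1.le hx.le, ez, es]
      field_simp)
    (by
      rw [intervalIntegrable_iff_integrableOn_Ioc_of_le zero_le_one]
      exact (intOn_hI hμ).const_mul _)
  rw [one_mul, zero_mul, JH_zero hμ, sub_zero, intervalIntegral.integral_const_mul,
    intervalIntegral.integral_of_le zero_le_one] at key
  unfold JH at key
  have hx' : 0 < x ^ ((μ - 1/2) / 2) := Real.rpow_pos_of_pos hx _
  have hE := Real.exp_pos √x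
  have h3 : x ^ ((μ - 1/2) / 2) * II μ x * Real.exp √x ≠ 0 := by positivity
  apply mul_left_cancel₀ h3
  linear_combination -key

lemma alt_hI (hμ : 1/2 < μ) (n : ℕ) : Alt n (hI μ) := by
  have key : Alt n (fun x => ∫ r in Ioc (0:ℝ) 1, r ^ ((μ - 1/2) / 2 - 1) *
      (II μ (r * x) / II μ x * Real.exp (-((1 - √r) * √x)))) := by
    refine alt_integral ?_ fun x hx => intOn_hI hμ
    filter_upwards [ae_restrict_mem measurableSet_Ioc] with r hr
    have hr1 : 0 ≤ 1 - √r := by
      have := Real.sqrt_le_sqrt hr.2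
      rw [Real.sqrt_one] at this
      linarith
    exact ((alt_ratio_I (by linarith) n hr.1 hr.2).mul (alt_exp_sqrt n hr1)).const_mul
      (Real.rpow_nonneg hr.1.le _)
  refine (key.const_mul (c := (μ ^ 2 - 1/4) / 2) ?_).congr fun x hx => (hI_eq hμ hx).symm
  nlinarith

lemma hI_le (hμ : 1/2 < μ) {x : ℝ} (hx : 0 < x) : hI μ x ≤ μ + 1/2 := by
  refine (alt_hI hμ 1).le_of_tendsto ?_ x hx
  have h1 : ContinuousWithinAt (hI μ) (Ici 0) 0 := cont_hI (by linarith) 0 self_mem_Ici
  have h2 : hI μ 0 = μ + 1/2 := by unfold hI BI; simp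
  have h3 := h1.tendsto
  rw [h2] at h3
  exact h3.mono_left (nhdsWithin_mono _ Ioi_subset_Ici_self)

/-- `√x - y I_{μ+1}(y)/I_μ(y)` is a Bernstein function of `x = y²`, `μ > 1/2`. -/
theorem brn_sqrt_sub_BI (hμ : 1/2 < μ) (n : ℕ) : Brn n (fun x => √x - BI μ x) := by
  cases n with
  | zero =>
    intro x hx
    have := hI_le hμ hx
    unfold hI at this
    linarith
  | succ n =>
    refine ((alt_hI hμ (n + 1)).const_sub (c := μ + 1/2) fun x hx => hI_le hμ hx).congr
      fun x hx => ?_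
    unfold hI; ring

lemma logD_EI (hμ : -1 < μ) :
    LogD (fun x => Real.exp (√x) / II μ x) (fun x => √x - BI μ x) where
  pos := fun x hx => by
    have := II_pos hμ hx.le
    positivity
  deriv := fun x hx => by
    have h0 := II_pos hμ hx.le
    have hw := Real.sqrt_pos.2 hx
    refine (((Real.hasDerivAt_sqrt hx.ne').exp).div (hasDerivAt_II hμ x) h0.ne').congr_deriv ?_
    unfold BI
    have hzw : x = √x ^ 2 := (Real.sq_sqrt hx.le).symm
    generalize II μ x = F at h0 ⊢
    generalize II (μ + 1) x = F1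
    generalize Real.exp √x = E
    generalize √x = w at hw hzw ⊢
    subst hzw
    field_simp
    ring
  cont := Real.continuous_sqrt.continuousOn.sub ((cont_BI hμ).mono Ioi_subset_Ici_self)

/-- `exp(-(1-√c)√x) II(x)/II(cx)` is alternating, `μ > 1/2`. -/
theorem alt_ratio_EI (hμ : 1/2 < μ) (n : ℕ) {c : ℝ} (hc : 0 < c) (hc1 : c ≤ 1) :
    Alt n (fun x => (Real.exp (√(c * x)) / II μ (c * x)) / (Real.exp (√x) / II μ x)) :=
  (logD_EI (by linarith)).alt_ratio (brn_sqrt_sub_BI hμ n) hc hc1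

end Pool.Agent.Q76.Sd
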