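import Pool.Agent.Q76.SdGen

/-!
The function `KK ν x = ∫_ℝ exp(ν s - e^s - (x/4) e^{-s}) ds`, so that
`K_ν(y) = (1/2) (y/2)^{-ν} KK ν (y²)`.
-/

open Set Filter Topology MeasureTheory
open scoped Nat ContDiff

namespace Pool.Agent.Q76.Sd

noncomputable def kk (ν x s : ℝ) : ℝ := Real.exp (ν * s - Real.exp s - x / 4 * Real.exp (-s))

noncomputable def KK (ν x : ℝ) : ℝ := ∫ s, kk ν x s

lemma kk_pos (ν x s : ℝ) : 0 < kk ν x s := Real.exp_pos _

lemma cont_kk (ν x : ℝ) : Continuous (kk ν x) := by unfold kk; fun_prop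

lemma kk_zero (ν s : ℝ) : kk ν 0 s = Real.exp (ν * s - Real.exp s) := by unfold kk; simp

lemma gamma_repr {a : ℝ} (ha : 0 < a) :
    Integrable (kk a 0) ∧ ∫ s, kk a 0 s = Real.Gamma a := by
  have hd : ∀ x ∈ (univ : Set ℝ), HasDerivWithinAt Real.exp (Real.exp x) univ x :=
    fun x _ => (Real.hasDerivAt_exp x).hasDerivWithinAt
  have himg : Real.exp '' univ = Ioi 0 := by rw [image_univ, Real.range_exp]
  have e : ∀ s : ℝ, |Real.exp s| • (Real.exp (-Real.exp s) * Real.exp s ^ (a - 1)) = kk a 0 s := by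
    intro s
    rw [abs_of_pos (Real.exp_pos s), smul_eq_mul, kk_zero, ← Real.exp_mul, ← Real.exp_add,
      ← Real.exp_add]
    ring_nf
  constructor
  · have h := Real.GammaIntegral_convergent ha
    rw [← himg, integrableOn_image_iff_integrableOn_abs_deriv_smul MeasurableSet.univ hd
      Real.exp_injective.injOn, integrableOn_univ] at h
    exact h.congr (Eventually.of_forall fun s => e s)
  · have h := integral_image_eq_integral_abs_deriv_smul MeasurableSet.univ hd
      Real.exp_injective.injOn (fun x => Real.exp (-x) * x ^ (a - 1))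
    rw [himg, ← Real.Gamma_eq_integral ha, Measure.restrict_univ] at h
    rw [h]
    exact integral_congr_ae (Eventually.of_forall fun s => (e s).symm)

lemma kk_le {x : ℝ} (hx : 0 < x) (ν : ℝ) (k : ℕ) (s : ℝ) :
    kk ν x s ≤ k ! * (4 / x) ^ k * kk (ν + k) 0 s := by
  rw [kk_zero]
  unfold kk
  set w := x / 4 * Real.exp (-s) with hw
  have hw0 : 0 < w := by positivity
  have h1 : w ^ k / k ! ≤ Real.exp w := Real.pow_div_factorial_le_exp w hw0.le k
  have h2 : w ^ k = (x / 4) ^ k * Real.exp (-(k * s)) := by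
    rw [hw, mul_pow, ← Real.exp_nat_mul]; ring_nf
  have h3 : Real.exp (-w) ≤ k ! / w ^ k := by
    rw [Real.exp_neg]
    have h4 : 0 < w ^ k / k ! := by positivity
    calc (Real.exp w)⁻¹ ≤ (w ^ k / k !)⁻¹ := inv_anti₀ h4 h1
      _ = _ := by rw [inv_div]
  have h5 : k ! / w ^ k = k ! * (4 / x) ^ k * Real.exp (k * s) := by
    rw [h2, Real.exp_neg]
    field_simp
    rw [← mul_pow]
    field_simp
    simp
  calc Real.exp (ν * s - Real.exp s - w) = Real.exp (ν * s - Real.exp s) * Real.exp (-w) := by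
        rw [← Real.exp_add]; ring_nf
    _ ≤ Real.exp (ν * s - Real.exp s) * (k ! * (4 / x) ^ k * Real.exp (k * s)) := by
        rw [← h5]
        exact mul_le_mul_of_nonneg_left h3 (Real.exp_pos _).le
    _ = k ! * (4 / x) ^ k * (Real.exp (ν * s - Real.exp s) * Real.exp (k * s)) := by ring
    _ = _ := by rw [← Real.exp_add]; ring_nf

lemma int_kk {x : ℝ} (hx : 0 < x) (ν : ℝ) : Integrable (kk ν x) := by
  obtain ⟨k, hk⟩ := exists_nat_gt (-ν)
  have h := (gamma_repr (a := ν + k) (by linarith)).1.const_mul (k ! * (4 / x) ^ k)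
  refine h.mono' (cont_kk ν x).aestronglyMeasurable (Eventually.of_forall fun s => ?_)
  rw [Real.norm_eq_abs, abs_of_pos (kk_pos _ _ _)]
  exact kk_le hx ν k s

lemma KK_pos {x : ℝ} (hx : 0 < x) (ν : ℝ) : 0 < KK ν x := by
  unfold KK
  rw [integral_pos_iff_support_of_nonneg (fun s => (kk_pos ν x s).le) (int_kk hx ν)]
  have : Function.support (kk ν x) = univ := by
    ext s; simp [(kk_pos ν x s).ne']
  rw [this]
  simp

lemma kk_antitone (ν s : ℝ) {x y : ℝ} (hxy : x ≤ y) : kk ν y s ≤ kk ν x s := by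
  unfold kk
  apply Real.exp_le_exp.2
  have := mul_le_mul_of_nonneg_right (show x / 4 ≤ y / 4 by linarith) (Real.exp_pos (-s)).le
  linarith

lemma kk_shift (ν x s : ℝ) : Real.exp (-s) * kk ν x s = kk (ν - 1) x s := by
  unfold kk
  rw [← Real.exp_add]; ring_nf

lemma hasDerivAt_KK {x : ℝ} (hx : 0 < x) (ν : ℝ) :
    HasDerivAt (KK ν) (-(1/4 * KK (ν - 1) x)) x := by
  have h := hasDerivAt_integral_of_dominated_loc_of_deriv_le (μ := volume) (F := fun x s => kk ν x s)
    (F' := fun x s => -(1/4 * kk (ν - 1) x s)) (x₀ := x) (s := Ioi (x / 2))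
    (bound := fun s => 1/4 * kk (ν - 1) (x / 2) s) (Ioi_mem_nhds (by linarith))
    (Eventually.of_forall fun y => (cont_kk ν y).aestronglyMeasurable)
    (int_kk hx ν) ((cont_kk (ν - 1) x).aestronglyMeasurable.const_mul (1/4)).neg
    (Eventually.of_forall fun s y hy => by
      rw [norm_neg, Real.norm_eq_abs, abs_of_pos (by have := kk_pos (ν - 1) y s; positivity)]
      have := kk_antitone (ν - 1) s (le_of_lt hy : x / 2 ≤ y)
      linarith)
    ((int_kk (by linarith) (ν - 1)).const_mul (1/4))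
    (Eventually.of_forall fun s y _ => by
      have h1 : HasDerivAt (fun y : ℝ => ν * s - Real.exp s - y / 4 * Real.exp (-s))
          (-(1 / 4 * Real.exp (-s))) y :=
        (((hasDerivAt_id y).div_const 4).mul_const (Real.exp (-s))).const_sub _
      refine h1.exp.congr_deriv ?_
      rw [← kk_shift]
      unfold kk
      ring)
  refine h.2.congr_deriv ?_
  rw [integral_neg, integral_const_mul]
  rfl

lemma KK_rec {x : ℝ} (hx : 0 < x) (ν : ℝ) :
    KK (ν + 1) x = ν * KK ν x + x / 4 * KK (ν - 1) x := by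
  have h := integral_eq_zero_of_hasDerivAt_of_integrable (f := kk ν x)
    (f' := fun s => ν * kk ν x s - kk (ν + 1) x s + x / 4 * kk (ν - 1) x s)
    (fun s => by
      have h1 : HasDerivAt (fun s : ℝ => Real.exp (-s)) (-Real.exp (-s)) s := by
        have := (hasDerivAt_neg s).exp
        exact this.congr_deriv (by ring)
      have h2 : HasDerivAt (fun s : ℝ => ν * s - Real.exp s - x / 4 * Real.exp (-s))
          (ν - Real.exp s - x / 4 * (-Real.exp (-s))) s := by
        have h3 : HasDerivAt (fun s : ℝ => ν * s) ν s := by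
          simpa using (hasDerivAt_id s).const_mul ν
        exact (h3.sub (Real.hasDerivAt_exp s)).sub (h1.const_mul _)
      refine h2.exp.congr_deriv ?_
      rw [← kk_shift ν x s]
      have e : kk (ν + 1) x s = Real.exp s * kk ν x s := by
        unfold kk; rw [← Real.exp_add]; ring_nf
      rw [e]
      unfold kk
      ring)
    ((((int_kk hx ν).const_mul ν).sub (int_kk hx (ν + 1))).add ((int_kk hx (ν - 1)).const_mul _))
    (int_kk hx ν)
  have i1 : Integrable (fun s => ν * kk ν x s - kk (ν + 1) x s) :=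
    ((int_kk hx ν).const_mul ν).sub (int_kk hx (ν + 1))
  have i2 : Integrable (fun s => x / 4 * kk (ν - 1) x s) := (int_kk hx (ν - 1)).const_mul _
  have i3 : Integrable (fun s => ν * kk ν x s) := (int_kk hx ν).const_mul ν
  rw [integral_add i1 i2, integral_sub i3 (int_kk hx (ν + 1)),
    integral_const_mul, integral_const_mul] at h
  unfold KK
  linarith

lemma KK_le {x : ℝ} (hx : 0 < x) (ν : ℝ) {k : ℕ} (hk : 0 < ν + k) :
    KK ν x ≤ k ! * (4 / x) ^ k * Real.Gamma (ν + k) := by
  rw [← (gamma_repr hk).2, ← integral_const_mul]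
  unfold KK
  exact integral_mono (int_kk hx ν) ((gamma_repr hk).1.const_mul _) fun s => kk_le hx ν k s

lemma KK_tendsto_zero {ν : ℝ} (hν : 0 < ν) : Tendsto (KK ν) (𝓝[>] 0) (𝓝 (Real.Gamma ν)) := by
  rw [← (gamma_repr hν).2]
  refine tendsto_integral_filter_of_dominated_convergence (kk ν 0) ?_ ?_ (gamma_repr hν).1 ?_
  · exact Eventually.of_forall fun x => (cont_kk ν x).aestronglyMeasurable
  · filter_upwards [self_mem_nhdsWithin] with x hx
    filter_upwards with s
    rw [Real.norm_eq_abs, abs_of_pos (kk_pos _ _ _)]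
    exact kk_antitone ν s (le_of_lt hx)
  · filter_upwards with s
    have : Continuous fun x => kk ν x s := by unfold kk; fun_prop
    exact (this.tendsto 0).mono_left nhdsWithin_le_nhds

lemma KK_decay (ν p : ℝ) : Tendsto (fun z => z ^ p * KK ν z) atTop (𝓝 0) := by
  obtain ⟨k, hk⟩ := exists_nat_gt (max (-ν) p)
  have hk1 : 0 < ν + k := by have := le_max_left (-ν) p; linarith
  have hk2 : p < k := lt_of_le_of_lt (le_max_right _ _) hk
  have hlim : Tendsto (fun z : ℝ => (k ! * 4 ^ k * Real.Gamma (ν + k)) * z ^ (-((k:ℝ) - p))) atTop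
      (𝓝 ((k ! * 4 ^ k * Real.Gamma (ν + k)) * 0)) :=
    (tendsto_rpow_neg_atTop (by linarith)).const_mul _
  rw [mul_zero] at hlim
  refine squeeze_zero' ?_ ?_ hlim
  · filter_upwards [eventually_gt_atTop 0] with z hz
    have := KK_pos hz ν
    positivity
  · filter_upwards [eventually_gt_atTop 0] with z hz
    have h1 := KK_le hz ν hk1
    have h2 : z ^ (-((k:ℝ) - p)) = z ^ p * (z ^ k)⁻¹ := by
      rw [neg_sub, Real.rpow_sub hz, Real.rpow_natCast]; rfl
    calc z ^ p * KK ν z ≤ z ^ p * (k ! * (4 / z) ^ k * Real.Gamma (ν + k)) := by gcongr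
      _ = _ := by rw [h2, div_pow]; field_simp

lemma contDiffOn_KK : ∀ (n : ℕ) (ν : ℝ), ContDiffOn ℝ n (KK ν) (Ioi 0) := by
  intro n
  induction n with
  | zero =>
    intro ν
    rw [Nat.cast_zero, contDiffOn_zero]
    exact fun x hx => (hasDerivAt_KK hx ν).continuousAt.continuousWithinAt
  | succ n ih =>
    intro ν
    push_cast
    rw [contDiffOn_succ_iff_deriv_of_isOpen isOpen_Ioi]
    refine ⟨fun x hx => (hasDerivAt_KK hx ν).differentiableAt.differentiableWithinAt, by simp, ?_⟩
    refine ((contDiffOn_const (c := (1/4 : ℝ))).mul (ih (ν - 1))).neg.congr fun x hx => ?_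
    exact (hasDerivAt_KK hx ν).deriv

lemma contDiffOn_KK_infty (ν : ℝ) : ContDiffOn ℝ ∞ (KK ν) (Ioi 0) :=
  contDiffOn_infty.2 fun n => contDiffOn_KK n ν

lemma cont_KK (ν : ℝ) : ContinuousOn (KK ν) (Ioi 0) := (contDiffOn_KK 0 ν).continuousOn

end Pool.Agent.Q76.Sd
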