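import Pool.Agent.Q76.SdK

/-!
`CK ν x = y K_{ν-1}(y)/K_ν(y)`, `x = y²`, is a Bernstein function of `x` for every real `ν`, and
so is `√x - CK ν x` for `ν > 1/2`.
-/

open Set Filter Topology MeasureTheory
open scoped Nat ContDiff

namespace Pool.Agent.Q76.Sd

noncomputable def CK (ν x : ℝ) : ℝ := x / 2 * KK (ν - 1) x / KK ν x

noncomputable def DK (ν x : ℝ) : ℝ := (CK ν x ^ 2 + 2 * ν * CK ν x - x) / (2 * x)

lemma CK_pos (ν : ℝ) {x : ℝ} (hx : 0 < x) : 0 < CK ν x := by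
  unfold CK
  have := KK_pos hx ν
  have := KK_pos hx (ν - 1)
  positivity

lemma cont_CK (ν : ℝ) : ContinuousOn (CK ν) (Ioi 0) := by
  unfold CK
  refine ContinuousOn.div ?_ (cont_KK ν) fun x hx => (KK_pos hx ν).ne'
  exact ((continuousOn_id.div_const 2).mul (cont_KK (ν - 1)))

lemma KK_two (ν : ℝ) {x : ℝ} (hx : 0 < x) :
    KK (ν - 2) x = 4 * (KK ν x - (ν - 1) * KK (ν - 1) x) / x := by
  have h := KK_rec hx (ν - 1)
  rw [sub_add_cancel, show ν - 1 - 1 = ν - 2 by ring] at h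
  field_simp
  linarith

lemma hasDerivAt_CK (ν : ℝ) {x : ℝ} (hx : 0 < x) : HasDerivAt (CK ν) (DK ν x) x := by
  have h1 := KK_pos hx ν
  have d0 := hasDerivAt_KK hx ν
  have d1 := hasDerivAt_KK hx (ν - 1)
  rw [show ν - 1 - 1 = ν - 2 by ring] at d1
  have d2 : HasDerivAt (fun x : ℝ => x / 2) (1/2) x := (hasDerivAt_id x).div_const 2
  have h := (d2.mul d1).div d0 h1.ne'
  refine h.congr_deriv ?_
  unfold DK CK
  simp only [Pi.mul_apply]
  rw [KK_two ν hx]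
  field_simp
  ring

lemma cont_DK (ν : ℝ) : ContinuousOn (DK ν) (Ioi 0) := by
  unfold DK
  have h := cont_CK ν
  refine ContinuousOn.div ?_ (by fun_prop) fun x (hx : 0 < x) => by positivity
  exact ((h.pow 2).add (continuousOn_const.mul h)).sub continuousOn_id

lemma logD_K (ν : ℝ) : LogD (fun x => (KK ν x)⁻¹) (CK ν) where
  pos := fun x hx => inv_pos.2 (KK_pos hx ν)
  deriv := fun x hx => by
    have h := (KK_pos hx ν).ne'
    refine ((hasDerivAt_KK hx ν).inv h).congr_deriv ?_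
    unfold CK
    field_simp
    ring
  cont := cont_CK ν

noncomputable def JK (ν z : ℝ) : ℝ :=
  z ^ (-ν) * (z ^ 2 / 4 * KK (ν - 1) z ^ 2 + ν * (z * (KK (ν - 1) z * KK ν z)) - z * KK ν z ^ 2)

lemma hasDerivAt_JK (ν : ℝ) {z : ℝ} (hz : 0 < z) :
    HasDerivAt (JK ν) (-(z ^ (-ν) * KK ν z ^ 2)) z := by
  have d0 := hasDerivAt_KK hz ν
  have d1 := hasDerivAt_KK hz (ν - 1)
  rw [show ν - 1 - 1 = ν - 2 by ring] at d1
  have d2 : HasDerivAt (fun x : ℝ => x ^ 2 / 4) (z / 2) z :=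
    ((hasDerivAt_pow 2 z).div_const 4).congr_deriv (by norm_num; ring)
  have d3 : HasDerivAt (fun x : ℝ => x) 1 z := hasDerivAt_id z
  have dz : HasDerivAt (fun z : ℝ => z ^ (-ν)) (-ν * z ^ (-ν - 1)) z :=
    Real.hasDerivAt_rpow_const (Or.inl hz.ne')
  have h := dz.mul (((d2.mul (d1.pow 2)).add ((d3.mul (d1.mul d0)).const_mul ν)).sub
    (d3.mul (d0.pow 2)))
  refine h.congr_deriv ?_
  have ez : z ^ (-ν) = z ^ (-ν - 1) * z := by
    rw [← Real.rpow_add_one hz.ne']; ring_nf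
  simp only [Pi.mul_apply, Pi.sub_apply, Pi.pow_apply, Pi.add_apply]
  rw [KK_two ν hz, ez]
  field_simp
  ring

lemma JK_eq (ν : ℝ) {x : ℝ} (hx : 0 < x) :
    JK ν x = 2 * (x * x ^ (-ν)) * DK ν x * KK ν x ^ 2 := by
  unfold JK DK CK
  have := (KK_pos hx ν).ne'
  field_simp
  ring

lemma JK_tendsto (ν : ℝ) : Tendsto (JK ν) atTop (𝓝 0) := by
  have h1 := KK_decay (ν - 1) (2 - ν)
  have h2 := KK_decay (ν - 1) 0
  have h3 := KK_decay ν 0
  have h4 := KK_decay ν (1 - ν)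
  have h5 : Tendsto (fun z => (1/4 * (z ^ (2 - ν) * KK (ν - 1) z) * (z ^ (0:ℝ) * KK (ν - 1) z)
      + ν * ((z ^ (0:ℝ) * KK (ν - 1) z) * (z ^ (1 - ν) * KK ν z)))
      - (z ^ (0:ℝ) * KK ν z) * (z ^ (1 - ν) * KK ν z)) atTop
      (𝓝 ((1/4 * 0 * 0 + ν * (0 * 0)) - 0 * 0)) :=
    (((h1.const_mul _).mul h2).add ((h2.mul h4).const_mul ν)).sub (h3.mul h4)
  simp only [mul_zero, add_zero, sub_zero] at h5
  refine h5.congr' ?_
  filter_upwards [eventually_gt_atTop 0] with z hz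
  have e1 : z ^ (2 - ν) = z ^ (-ν) * z ^ 2 := by
    rw [show 2 - ν = -ν + (2:ℕ) by push_cast; ring, Real.rpow_add_natCast hz.ne']
  have e2 : z ^ (1 - ν) = z ^ (-ν) * z := by
    rw [show 1 - ν = -ν + 1 by ring, Real.rpow_add_one hz.ne']
  unfold JK
  rw [e1, e2, Real.rpow_zero]
  ring

lemma DK_int (ν : ℝ) {x : ℝ} (hx : 0 < x) :
    IntegrableOn (fun r : ℝ => r ^ (-ν) * (KK ν (r * x) / KK ν x) ^ 2) (Ioi 1) ∧
    DK ν x = 1/2 * ∫ r in Ioi (1:ℝ), r ^ (-ν) * (KK ν (r * x) / KK ν x) ^ 2 := by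
  have hK := KK_pos hx ν
  have hxx : 0 < x * x ^ (-ν) := mul_pos hx (Real.rpow_pos_of_pos hx _)
  have hc0 : 0 < x * x ^ (-ν) * KK ν x ^ 2 := by positivity
  have hderiv : ∀ r ∈ Ici (1:ℝ), HasDerivAt (fun r => JK ν (r * x))
      (-(x * x ^ (-ν) * KK ν x ^ 2) * (r ^ (-ν) * (KK ν (r * x) / KK ν x) ^ 2)) r := by
    intro r hr
    have hr0 : (0:ℝ) < r := lt_of_lt_of_le one_pos hr
    have h1 := hasDerivAt_JK ν (z := r * x) (mul_pos hr0 hx)
    have h2 : HasDerivAt (fun r => r * x) x r := by simpa using (hasDerivAt_id r).mul_const x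
    refine (h1.comp r h2).congr_deriv ?_
    rw [Real.mul_rpow hr0.le hx.le]
    field_simp
  have hneg : ∀ r ∈ Ioi (1:ℝ),
      -(x * x ^ (-ν) * KK ν x ^ 2) * (r ^ (-ν) * (KK ν (r * x) / KK ν x) ^ 2) ≤ 0 := by
    intro r hr
    have hr0 : (0:ℝ) < r := lt_trans one_pos hr
    have := Real.rpow_pos_of_pos hr0 (-ν)
    have h2 : 0 ≤ r ^ (-ν) * (KK ν (r * x) / KK ν x) ^ 2 := by positivity
    nlinarith
  have hlim : Tendsto (fun r => JK ν (r * x)) atTop (𝓝 0) :=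
    (JK_tendsto ν).comp (tendsto_id.atTop_mul_const hx)
  have hint := integrableOn_Ioi_deriv_of_nonpos' hderiv hneg hlim
  have hval := integral_Ioi_of_hasDerivAt_of_nonpos' hderiv hneg hlim
  constructor
  · have := hint.const_mul (-(x * x ^ (-ν) * KK ν x ^ 2)⁻¹)
    refine this.congr (Eventually.of_forall fun r => ?_)
    simp only
    field_simp
  · rw [integral_const_mul, one_mul, JK_eq ν hx] at hval
    apply mul_left_cancel₀ hc0.ne'
    linear_combination (1/2) * hval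

lemma alt_ratio_K_of {ν : ℝ} {n : ℕ} (hB : Brn n (CK ν)) {c : ℝ} (hc : 0 < c) (hc1 : c ≤ 1) :
    Alt n (fun x => KK ν x / KK ν (c * x)) :=
  ((logD_K ν).alt_ratio hB hc hc1).congr fun x hx => by
    have h1 := (KK_pos hx ν).ne'
    have h2 := (KK_pos (mul_pos hc hx) ν).ne'
    field_simp

lemma alt_ratio_K_of' {ν : ℝ} {n : ℕ} (hB : Brn n (CK ν)) {r : ℝ} (hr : 1 < r) :
    Alt n (fun x => KK ν (r * x) / KK ν x) := by
  have hr0 : 0 < r := by linarith
  refine ((alt_ratio_K_of hB (inv_pos.2 hr0) (inv_le_one_of_one_le₀ hr.le)).scale hr0).congr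
    fun x hx => ?_
  rw [inv_mul_cancel_left₀ hr0.ne']

/-- `y K_{ν-1}(y)/K_ν(y)` is a Bernstein function of `y²`. -/
theorem brn_CK (ν : ℝ) (n : ℕ) : Brn n (CK ν) := by
  induction n with
  | zero => intro x hx; exact (CK_pos ν hx).le
  | succ n ih =>
    refine brn_of_deriv (fun x hx => (CK_pos ν hx).le) (fun x hx => hasDerivAt_CK ν hx)
      (cont_DK ν) ?_
    have key : Alt n (fun x => ∫ r in Ioi (1:ℝ), r ^ (-ν) * (KK ν (r * x) / KK ν x) ^ 2) := by
      refine alt_integral ?_ fun x hx => (DK_int ν hx).1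
      filter_upwards [ae_restrict_mem measurableSet_Ioi] with r hr
      exact ((alt_ratio_K_of' ih hr).pow 2).const_mul
        (Real.rpow_nonneg (lt_trans one_pos hr).le _)
    exact (key.const_mul (by norm_num : (0:ℝ) ≤ 1/2)).congr fun x hx => ((DK_int ν hx).2).symm

/-- Laplace transform of a downward hitting time of a Bessel process. -/
theorem alt_ratio_K (ν : ℝ) (n : ℕ) {c : ℝ} (hc : 0 < c) (hc1 : c ≤ 1) :
    Alt n (fun x => KK ν x / KK ν (c * x)) := alt_ratio_K_of (brn_CK ν n) hc hc1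

/-- `h = C + ν - 1/2 - √x` -/
noncomputable def hK (ν x : ℝ) : ℝ := CK ν x + ν - 1/2 - √x

lemma hasDerivAt_hK (ν : ℝ) {x : ℝ} (hx : 0 < x) :
    HasDerivAt (hK ν) (DK ν x - 1 / (2 * √x)) x := by
  unfold hK
  exact (((hasDerivAt_CK ν hx).add_const ν).sub_const (1/2)).sub (Real.hasDerivAt_sqrt hx.ne')

noncomputable def JL (ν z : ℝ) : ℝ :=
  z ^ (-((ν + 1/2) / 2)) * (KK ν z * Real.exp (-√z) * hK ν z)

lemma hasDerivAt_JL (ν : ℝ) {z : ℝ} (hz : 0 < z) :
    HasDerivAt (JL ν) (-((ν ^ 2 - 1/4) / 2 *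
      (z ^ (-((ν + 1/2) / 2) - 1) * (KK ν z * Real.exp (-√z))))) z := by
  have hw : 0 < √z := Real.sqrt_pos.2 hz
  have hK0 := KK_pos hz ν
  have dz : HasDerivAt (fun z : ℝ => z ^ (-((ν + 1/2) / 2)))
      (-((ν + 1/2) / 2) * z ^ (-((ν + 1/2) / 2) - 1)) z :=
    Real.hasDerivAt_rpow_const (Or.inl hz.ne')
  have d0 := hasDerivAt_KK hz ν
  have de := (Real.hasDerivAt_sqrt hz.ne').neg.exp
  have h := dz.mul ((d0.mul de).mul (hasDerivAt_hK ν hz))
  refine h.congr_deriv ?_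
  have ez : z ^ (-((ν + 1/2) / 2)) = z ^ (-((ν + 1/2) / 2) - 1) * z := by
    rw [← Real.rpow_add_one hz.ne']; ring_nf
  have e1 : KK (ν - 1) z = 2 * CK ν z * KK ν z / z := by
    unfold CK; field_simp
  simp only [Pi.mul_apply, Pi.neg_apply]
  rw [ez, e1]
  unfold DK hK
  have hzw : z = √z ^ 2 := (Real.sq_sqrt hz.le).symm
  generalize CK ν z = B
  generalize z ^ (-((ν + 1/2) / 2) - 1) = q
  generalize Real.exp (-√z) = E
  generalize KK ν z = F at hK0 ⊢
  generalize √z = w at hw hzw ⊢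
  subst hzw
  field_simp
  ring

lemma JL_tendsto (ν : ℝ) : Tendsto (JL ν) atTop (𝓝 0) := by
  set p := -((ν + 1/2) / 2) with hp
  have h1 := KK_decay (ν - 1) (p + 1)
  have h2 := KK_decay ν p
  have h3 := KK_decay ν (p + 1/2)
  have h4 : Tendsto (fun z : ℝ => Real.exp (-√z)) atTop (𝓝 0) :=
    Real.tendsto_exp_neg_atTop_nhds_zero.comp Real.tendsto_sqrt_atTop
  have h5 : Tendsto (fun z => (1/2 * (z ^ (p + 1) * KK (ν - 1) z) + (ν - 1/2) * (z ^ p * KK ν z)
      - z ^ (p + 1/2) * KK ν z) * Real.exp (-√z)) atTop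
      (𝓝 ((1/2 * 0 + (ν - 1/2) * 0 - 0) * 0)) :=
    (((h1.const_mul _).add (h2.const_mul _)).sub h3).mul h4
  simp only [mul_zero] at h5
  refine h5.congr' ?_
  filter_upwards [eventually_gt_atTop 0] with z hz
  have e1 : z ^ (p + 1) = z ^ p * z := Real.rpow_add_one hz.ne' p
  have e2 : z ^ (p + 1/2) = z ^ p * √z := by rw [Real.rpow_add hz, Real.sqrt_eq_rpow]
  have hK0 := (KK_pos hz ν).ne'
  unfold JL hK CK
  rw [← hp, e1, e2]
  field_simp
  ring

lemma hK_int {ν : ℝ} (hν : 1/2 < ν) {x : ℝ} (hx : 0 < x) :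
    IntegrableOn (fun r : ℝ => r ^ (-((ν + 1/2) / 2) - 1) *
      (KK ν (r * x) / KK ν x * Real.exp (-((√r - 1) * √x)))) (Ioi 1) ∧
    hK ν x = (ν ^ 2 - 1/4) / 2 * ∫ r in Ioi (1:ℝ), r ^ (-((ν + 1/2) / 2) - 1) *
      (KK ν (r * x) / KK ν x * Real.exp (-((√r - 1) * √x))) := by
  have hK0 := KK_pos hx ν
  have hlam : 0 < (ν ^ 2 - 1/4) / 2 := by nlinarith
  have hxx : 0 < x ^ (-((ν + 1/2) / 2)) := Real.rpow_pos_of_pos hx _
  have hE := Real.exp_pos (-√x)
  have hc0 : 0 < x ^ (-((ν + 1/2) / 2)) * KK ν x * Real.exp (-√x) := by positivity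
  have hderiv : ∀ r ∈ Ici (1:ℝ), HasDerivAt (fun r => JL ν (r * x))
      (-((ν ^ 2 - 1/4) / 2 * (x ^ (-((ν + 1/2) / 2)) * KK ν x * Real.exp (-√x))) *
        (r ^ (-((ν + 1/2) / 2) - 1) *
          (KK ν (r * x) / KK ν x * Real.exp (-((√r - 1) * √x))))) r := by
    intro r hr
    have hr0 : (0:ℝ) < r := lt_of_lt_of_le one_pos hr
    have h1 := hasDerivAt_JL ν (z := r * x) (mul_pos hr0 hx)
    have h2 : HasDerivAt (fun r => r * x) x r := by simpa using (hasDerivAt_id r).mul_const x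
    refine (h1.comp r h2).congr_deriv ?_
    have ez : x ^ (-((ν + 1/2) / 2)) = x ^ (-((ν + 1/2) / 2) - 1) * x := by
      rw [← Real.rpow_add_one hx.ne']; ring_nf
    have es : Real.exp (-√(r * x)) = Real.exp (-√x) * Real.exp (-((√r - 1) * √x)) := by
      rw [← Real.exp_add, Real.sqrt_mul hr0.le]; ring_nf
    rw [Real.mul_rpow hr0.le hx.le, ez, es]
    field_simp
  have hneg : ∀ r ∈ Ioi (1:ℝ),
      -((ν ^ 2 - 1/4) / 2 * (x ^ (-((ν + 1/2) / 2)) * KK ν x * Real.exp (-√x))) *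
        (r ^ (-((ν + 1/2) / 2) - 1) *
          (KK ν (r * x) / KK ν x * Real.exp (-((√r - 1) * √x)))) ≤ 0 := by
    intro r hr
    have hr0 : (0:ℝ) < r := lt_trans one_pos hr
    have h1 := Real.rpow_pos_of_pos hr0 (-((ν + 1/2) / 2) - 1)
    have h2 := KK_pos (mul_pos hr0 hx) ν
    have h3 : 0 ≤ r ^ (-((ν + 1/2) / 2) - 1) *
        (KK ν (r * x) / KK ν x * Real.exp (-((√r - 1) * √x))) := by positivity
    have h4 := mul_nonneg (mul_nonneg hlam.le hc0.le) h3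
    linarith
  have hlim : Tendsto (fun r => JL ν (r * x)) atTop (𝓝 0) :=
    (JL_tendsto ν).comp (tendsto_id.atTop_mul_const hx)
  have hint := integrableOn_Ioi_deriv_of_nonpos' hderiv hneg hlim
  have hval := integral_Ioi_of_hasDerivAt_of_nonpos' hderiv hneg hlim
  constructor
  · have := hint.const_mul (-((ν ^ 2 - 1/4) / 2 *
      (x ^ (-((ν + 1/2) / 2)) * KK ν x * Real.exp (-√x)))⁻¹)
    refine this.congr (Eventually.of_forall fun r => ?_)
    have h5 : (ν ^ 2 - 1/4) / 2 * (x ^ (-((ν + 1/2) / 2)) * KK ν x * Real.exp (-√x)) ≠ 0 :=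
      (mul_pos hlam hc0).ne'
    simp only
    rw [← mul_assoc, neg_mul_neg, inv_mul_cancel₀ h5, one_mul]
  · rw [integral_const_mul, one_mul] at hval
    unfold JL at hval
    apply mul_left_cancel₀ hc0.ne'
    linear_combination hval

lemma alt_hK {ν : ℝ} (hν : 1/2 < ν) (n : ℕ) : Alt n (hK ν) := by
  have key : Alt n (fun x => ∫ r in Ioi (1:ℝ), r ^ (-((ν + 1/2) / 2) - 1) *
      (KK ν (r * x) / KK ν x * Real.exp (-((√r - 1) * √x)))) := by
    refine alt_integral ?_ fun x hx => (hK_int hν hx).1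
    filter_upwards [ae_restrict_mem measurableSet_Ioi] with r hr
    have hr1 : 0 ≤ √r - 1 := by
      have := Real.sqrt_le_sqrt (le_of_lt hr)
      rw [Real.sqrt_one] at this
      linarith
    exact ((alt_ratio_K_of' (brn_CK ν n) hr).mul (alt_exp_sqrt n hr1)).const_mul
      (Real.rpow_nonneg (lt_trans one_pos hr).le _)
  refine (key.const_mul (c := (ν ^ 2 - 1/4) / 2) ?_).congr fun x hx => ((hK_int hν hx).2).symm
  nlinarith

lemma CK_tendsto_zero {ν : ℝ} (hν : 0 < ν) : Tendsto (CK ν) (𝓝[>] 0) (𝓝 0) := by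
  have h1 := KK_tendsto_zero (ν := ν) hν
  have h2 := KK_tendsto_zero (ν := ν + 1) (by linarith)
  have hG := Real.Gamma_pos_of_pos hν
  rw [Real.Gamma_add_one hν.ne'] at h2
  have h3 : Tendsto (fun x => 2 * (KK (ν + 1) x - ν * KK ν x) / KK ν x) (𝓝[>] 0)
      (𝓝 (2 * (ν * Real.Gamma ν - ν * Real.Gamma ν) / Real.Gamma ν)) :=
    ((h2.sub (h1.const_mul ν)).const_mul 2).div h1 hG.ne'
  rw [sub_self, mul_zero, zero_div] at h3
  refine h3.congr' ?_
  filter_upwards [self_mem_nhdsWithin] with x hx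
  have hr := KK_rec hx ν
  unfold CK
  rw [hr]
  ring

lemma hK_le {ν : ℝ} (hν : 1/2 < ν) {x : ℝ} (hx : 0 < x) : hK ν x ≤ ν - 1/2 := by
  refine (alt_hK hν 1).le_of_tendsto ?_ x hx
  have h1 := CK_tendsto_zero (ν := ν) (by linarith)
  have h2 : Tendsto (fun x : ℝ => √x) (𝓝[>] 0) (𝓝 (√0)) :=
    (Real.continuous_sqrt.tendsto 0).mono_left nhdsWithin_le_nhds
  rw [Real.sqrt_zero] at h2
  have h3 := ((h1.add_const ν).sub_const (1/2)).sub h2
  simp only [zero_add, sub_zero] at h3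
  exact h3

/-- `√x - y K_{ν-1}(y)/K_ν(y)` is a Bernstein function of `x = y²`, `ν > 1/2`. -/
theorem brn_sqrt_sub_CK {ν : ℝ} (hν : 1/2 < ν) (n : ℕ) : Brn n (fun x => √x - CK ν x) := by
  cases n with
  | zero =>
    intro x hx
    have := hK_le hν hx
    unfold hK at this
    linarith
  | succ n =>
    refine ((alt_hK hν (n + 1)).const_sub (c := ν - 1/2) fun x hx => hK_le hν hx).congr
      fun x hx => ?_
    unfold hK; ring

lemma logD_EK (ν : ℝ) :
    LogD (fun x => Real.exp (√x) * KK ν x) (fun x => √x - CK ν x) where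
  pos := fun x hx => by
    have := KK_pos hx ν
    positivity
  deriv := fun x hx => by
    have h0 := KK_pos hx ν
    have hw := Real.sqrt_pos.2 hx
    refine (((Real.hasDerivAt_sqrt hx.ne').exp).mul (hasDerivAt_KK hx ν)).congr_deriv ?_
    unfold CK
    have hzw : x = √x ^ 2 := (Real.sq_sqrt hx.le).symm
    generalize KK ν x = F at h0 ⊢
    generalize KK (ν - 1) x = F1
    generalize Real.exp √x = E
    generalize √x = w at hw hzw ⊢
    subst hzw
    field_simp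
    ring
  cont := Real.continuous_sqrt.continuousOn.sub (cont_CK ν)

theorem alt_ratio_EK {ν : ℝ} (hν : 1/2 < ν) (n : ℕ) {c : ℝ} (hc : 0 < c) (hc1 : c ≤ 1) :
    Alt n (fun x => (Real.exp (√(c * x)) * KK ν (c * x)) / (Real.exp (√x) * KK ν x)) :=
  (logD_EK ν).alt_ratio (brn_sqrt_sub_CK hν n) hc hc1

end Pool.Agent.Q76.Sd
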