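import Pool.Agent.Q76.SdFd
import Pool.Agent.Helper31.Bernstein
import Pool.Agent.Q240.GC.Laplace

/-!
Smooth functions with alternating differences and limit `1` at the origin are Laplace transforms
of probability measures; self-decomposable laws.
-/

open Set Filter Topology MeasureTheory
open scoped unitInterval ContDiff

namespace Pool.Agent.Q76.Sd

lemma hasDerivAt_iter {f : ℝ → ℝ} (hs : ContDiffOn ℝ ∞ f (Ioi 0)) (k : ℕ) {x : ℝ} (hx : 0 < x) :
    HasDerivAt (iteratedDerivWithin k f (Ioi 0)) (iteratedDerivWithin (k + 1) f (Ioi 0) x) x := by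
  have h1 : DifferentiableWithinAt ℝ (iteratedDerivWithin k f (Ioi 0)) (Ioi 0) x :=
    hs.differentiableOn_iteratedDerivWithin (m := k) (by exact_mod_cast ENat.coe_lt_top k)
      (uniqueDiffOn_Ioi 0) x hx
  have h2 : DifferentiableAt ℝ (iteratedDerivWithin k f (Ioi 0)) x :=
    h1.differentiableAt (Ioi_mem_nhds hx)
  rw [iteratedDerivWithin_succ, derivWithin_of_mem_nhds (Ioi_mem_nhds hx)]
  exact h2.hasDerivAt

lemma alt_iter {f : ℝ → ℝ} (hf : ∀ n, Alt n f) (hs : ContDiffOn ℝ ∞ f (Ioi 0)) (k : ℕ) :
    ∀ n, Alt n (fun x => (-1) ^ k * iteratedDerivWithin k f (Ioi 0) x) := by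
  induction k with
  | zero => intro n; simpa using hf n
  | succ k ih =>
    intro n
    refine (ih (n + 1)).neg_deriv fun x hx => ?_
    refine ((hasDerivAt_iter hs k hx).const_mul _).congr_deriv ?_
    rw [pow_succ]; ring

lemma cmChain {f : ℝ → ℝ} (hf : ∀ n, Alt n f) (hs : ContDiffOn ℝ ∞ f (Ioi 0)) :
    Helper31.CMChain (fun k x => (-1) ^ k * iteratedDerivWithin k f (Ioi 0) x) where
  nonneg := fun k x hx => (alt_iter hf hs k 0) x hx
  hasDeriv := fun k x hx => by
    refine ((hasDerivAt_iter hs k hx).const_mul _).congr_deriv ?_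
    rw [pow_succ]; ring

/-- `P` is a probability measure on `[0, ∞)` with Laplace transform `f`. -/
structure HasLT (P : Measure ℝ) (f : ℝ → ℝ) : Prop where
  prob : IsProbabilityMeasure P
  supp : P (Iio 0) = 0
  lt : ∀ x, 0 < x → ∫ t, Real.exp (-(x * t)) ∂P = f x

theorem exists_law {f : ℝ → ℝ} (hf : ∀ n, Alt n f) (hs : ContDiffOn ℝ ∞ f (Ioi 0))
    (h0 : Tendsto f (𝓝[>] 0) (𝓝 1)) : ∃ P : Measure ℝ, HasLT P f := by
  obtain ⟨ν, hν, hint⟩ := Helper31.bernstein (cmChain hf hs) (C := 1) (fun x hx => by
    simpa using (hf 1).le_of_tendsto h0 x hx)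
  simp only [pow_zero, iteratedDerivWithin_zero, one_mul] at hint
  let S : Set I := {a | (0:ℝ) < a}
  have hS : MeasurableSet S := measurableSet_lt measurable_const measurable_subtype_coe
  let g : I → ℝ := fun a => -Real.log a
  have hg : Measurable g := (Real.measurable_log.comp measurable_subtype_coe).neg
  -- restriction to the positive points
  have hres : ∀ v, 0 < v → ∫ a in S, (a : ℝ) ^ v ∂ν = f v := by
    intro v hv
    rw [← hint v hv]
    apply setIntegral_eq_integral_of_forall_compl_eq_zero
    intro a ha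
    have : (a : ℝ) = 0 := le_antisymm (not_lt.1 ha) a.2.1
    rw [this, Real.zero_rpow hv.ne']
  have hmass : ν.real S = 1 := by
    have h1 : Tendsto (fun v : ℝ => ∫ a in S, (a : ℝ) ^ v ∂ν) (𝓝[>] 0) (𝓝 (∫ a in S, (1:ℝ) ∂ν)) := by
      refine tendsto_integral_filter_of_dominated_convergence (fun _ => 1) ?_ ?_
        (integrable_const _) ?_
      · filter_upwards [self_mem_nhdsWithin] with v hv
        exact (((Real.continuous_rpow_const (le_of_lt hv)).comp
          continuous_subtype_val).aestronglyMeasurable)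
      · filter_upwards [self_mem_nhdsWithin] with v hv
        filter_upwards with a
        rw [Real.norm_eq_abs, abs_of_nonneg (Real.rpow_nonneg a.2.1 v)]
        exact Real.rpow_le_one a.2.1 a.2.2 (le_of_lt hv)
      · filter_upwards [ae_restrict_mem hS] with a ha
        have h2 : ContinuousAt (fun v : ℝ => (a : ℝ) ^ v) 0 :=
          Real.continuousAt_const_rpow (ne_of_gt ha)
        have h3 := h2.tendsto
        rw [Real.rpow_zero] at h3
        exact h3.mono_left nhdsWithin_le_nhds
    have h2 : Tendsto (fun v : ℝ => ∫ a in S, (a : ℝ) ^ v ∂ν) (𝓝[>] 0) (𝓝 1) := by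
      refine h0.congr' ?_
      filter_upwards [self_mem_nhdsWithin] with v hv
      exact (hres v hv).symm
    have h3 := tendsto_nhds_unique h1 h2
    simpa using h3
  refine ⟨(ν.restrict S).map g, ⟨?_, ?_, ?_⟩⟩
  · constructor
    rw [Measure.map_apply hg MeasurableSet.univ, preimage_univ, Measure.restrict_apply_univ]
    have := hmass
    rw [Measure.real, ENNReal.toReal_eq_one_iff] at this
    exact this
  · rw [Measure.map_apply hg measurableSet_Iio]
    have : g ⁻¹' Iio 0 = ∅ := by
      ext a
      simp only [mem_preimage, mem_Iio, mem_empty_iff_false, iff_false, not_lt, g]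
      have := Real.log_nonpos a.2.1 a.2.2
      linarith
    rw [this, measure_empty]
  · intro x hx
    rw [integral_map hg.aemeasurable (by fun_prop), ← hres x hx]
    apply setIntegral_congr_fun hS
    intro a ha
    simp only [g]
    rw [Real.rpow_def_of_pos ha]
    ring_nf

lemma HasLT.ae_nonneg {P : Measure ℝ} {f : ℝ → ℝ} (h : HasLT P f) : ∀ᵐ x ∂P, 0 ≤ x := by
  rw [ae_iff]
  convert h.supp using 2
  ext x; simp

lemma HasLT.unique {P Q : Measure ℝ} {f : ℝ → ℝ} (hP : HasLT P f) (hQ : HasLT Q f) : P = Q := by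
  have := hP.prob
  have := hQ.prob
  refine Q240.GC.laplace_unique hP.ae_nonneg hQ.ae_nonneg fun s hs => ?_
  have h1 := hP.lt s hs
  have h2 := hQ.lt s hs
  simp only [neg_mul]
  rw [h1, h2]

lemma HasLT.scale {P : Measure ℝ} {f : ℝ → ℝ} (h : HasLT P f) {c : ℝ} (hc : 0 < c) :
    HasLT (P.map (fun t => c * t)) (fun x => f (c * x)) := by
  have := h.prob
  have hm : Measurable fun t : ℝ => c * t := by fun_prop
  refine ⟨Measure.isProbabilityMeasure_map hm.aemeasurable, ?_, fun x hx => ?_⟩
  · rw [Measure.map_apply hm measurableSet_Iio]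
    convert h.supp using 2
    ext t
    simp only [mem_preimage, mem_Iio]
    constructor
    · intro h1; by_contra h2; push Not at h2; have := mul_nonneg hc.le h2; linarith
    · intro h1; exact mul_neg_of_pos_of_neg hc h1
  · rw [integral_map hm.aemeasurable (by fun_prop), ← h.lt _ (by positivity)]
    congr 1; ext t; ring_nf

lemma HasLT.conv {P Q : Measure ℝ} {f g : ℝ → ℝ} (hP : HasLT P f) (hQ : HasLT Q g) :
    HasLT (P.conv Q) (fun x => f x * g x) := by
  have := hP.prob
  have := hQ.prob
  refine ⟨inferInstance, ?_, fun x hx => ?_⟩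
  · have h1 : ∀ᵐ z ∂(P.prod Q), 0 ≤ z.1 + z.2 := by
      have h2 : ∀ᵐ z ∂(P.prod Q), 0 ≤ z.1 := by
        have := Measure.quasiMeasurePreserving_fst (μ := P) (ν := Q)
        exact this.ae hP.ae_nonneg
      have h3 : ∀ᵐ z ∂(P.prod Q), 0 ≤ z.2 := by
        have := Measure.quasiMeasurePreserving_snd (μ := P) (ν := Q)
        exact this.ae hQ.ae_nonneg
      filter_upwards [h2, h3] with z h4 h5 using add_nonneg h4 h5
    rw [Measure.conv, Measure.map_apply (by fun_prop) measurableSet_Iio]
    rw [ae_iff] at h1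
    convert h1 using 2
    ext z; simp
  · have h1 : Integrable (fun t : ℝ => Real.exp (-(x * t))) (P.conv Q) := by
      have hsupp : ∀ᵐ z ∂(P.conv Q), 0 ≤ z := by
        rw [ae_iff]
        have h1 : ∀ᵐ z ∂(P.prod Q), 0 ≤ z.1 + z.2 := by
          have h2 : ∀ᵐ z ∂(P.prod Q), 0 ≤ z.1 := by
            have := Measure.quasiMeasurePreserving_fst (μ := P) (ν := Q)
            exact this.ae hP.ae_nonneg
          have h3 : ∀ᵐ z ∂(P.prod Q), 0 ≤ z.2 := by
            have := Measure.quasiMeasurePreserving_snd (μ := P) (ν := Q)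
            exact this.ae hQ.ae_nonneg
          filter_upwards [h2, h3] with z h4 h5 using add_nonneg h4 h5
        have hset : {a : ℝ | ¬ 0 ≤ a} = Iio 0 := by ext a; simp
        rw [hset, Measure.conv, Measure.map_apply (by fun_prop) measurableSet_Iio]
        rw [ae_iff] at h1
        convert h1 using 2
        ext z; simp
      refine (integrable_const (1:ℝ)).mono' (by fun_prop) ?_
      filter_upwards [hsupp] with t ht
      rw [Real.norm_eq_abs, abs_of_pos (Real.exp_pos _), Real.exp_le_one_iff]
      have := mul_nonneg hx.le ht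
      linarith
    rw [integral_conv h1, ← hP.lt x hx, ← hQ.lt x hx]
    simp_rw [mul_add, neg_add, Real.exp_add, integral_const_mul, integral_mul_const]

end Pool.Agent.Q76.Sd
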