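import Pool.Agent.Q76.SdIH
import Pool.Agent.Q76.SdKC

/-!
Self-decomposable laws from alternating ratios, the four building blocks.
-/

open Set Filter Topology MeasureTheory
open scoped Nat ContDiff

namespace Pool.Agent.Q76.Sd

/-- Positive smooth functions with limit `1` at the origin and alternating ratios. -/
structure Good (f : ℝ → ℝ) : Prop where
  pos : ∀ x, 0 < x → 0 < f x
  smooth : ContDiffOn ℝ ∞ f (Ioi 0)
  lim : Tendsto f (𝓝[>] 0) (𝓝 1)
  ratio : ∀ c, 0 < c → c < 1 → ∀ n, Alt n (fun x => f x / f (c * x))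

lemma tendsto_scale {c : ℝ} (hc : 0 < c) : Tendsto (fun x : ℝ => c * x) (𝓝[>] 0) (𝓝[>] 0) := by
  refine tendsto_nhdsWithin_iff.2 ⟨?_, ?_⟩
  · have : Tendsto (fun x : ℝ => c * x) (𝓝 0) (𝓝 (c * 0)) := (continuous_const_mul c).tendsto 0
    rw [mul_zero] at this
    exact this.mono_left nhdsWithin_le_nhds
  · filter_upwards [self_mem_nhdsWithin] with x hx
    exact mul_pos hc hx

lemma smooth_scale {f : ℝ → ℝ} (hf : ContDiffOn ℝ ∞ f (Ioi 0)) {c : ℝ} (hc : 0 < c) :
    ContDiffOn ℝ ∞ (fun x => f (c * x)) (Ioi 0) :=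
  hf.comp (contDiffOn_const.mul contDiffOn_id) fun _ hx => mul_pos hc hx

lemma Good.mul {f g : ℝ → ℝ} (hf : Good f) (hg : Good g) : Good (fun x => f x * g x) where
  pos := fun x hx => mul_pos (hf.pos x hx) (hg.pos x hx)
  smooth := hf.smooth.mul hg.smooth
  lim := by simpa using hf.lim.mul hg.lim
  ratio := fun c hc hc1 n => ((hf.ratio c hc hc1 n).mul (hg.ratio c hc hc1 n)).congr
    fun x _ => by rw [mul_div_mul_comm]

lemma Good.scale {f : ℝ → ℝ} (hf : Good f) {a : ℝ} (ha : 0 < a) : Good (fun x => f (a * x)) where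
  pos := fun x hx => hf.pos _ (mul_pos ha hx)
  smooth := smooth_scale hf.smooth ha
  lim := hf.lim.comp (tendsto_scale ha)
  ratio := fun c hc hc1 n => ((hf.ratio c hc hc1 n).scale ha).congr fun x _ => by
    rw [mul_left_comm]

lemma Good.alt {f : ℝ → ℝ} (hf : Good f) (n : ℕ) : Alt n f := by
  have h : ∀ x, 0 < x → Tendsto (fun c : ℝ => f x / f (c * x)) (𝓝[>] 0) (𝓝 (f x)) := by
    intro x hx
    have h1 : Tendsto (fun c : ℝ => c * x) (𝓝[>] 0) (𝓝[>] 0) := by
      simpa [mul_comm] using tendsto_scale hx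
    have h2 : Tendsto (fun c : ℝ => f x / f (c * x)) (𝓝[>] 0) (𝓝 (f x / 1)) :=
      (tendsto_const_nhds (x := f x)).div (hf.lim.comp h1) one_ne_zero
    rwa [div_one] at h2
  refine alt_of_tendsto (l := 𝓝[>] (0:ℝ)) ?_ h
  filter_upwards [Ioo_mem_nhdsGT one_pos] with c hc
  exact hf.ratio c hc.1 hc.2 n

/-- `P` is self-decomposable. -/
def SelfDec (P : Measure ℝ) : Prop :=
  ∀ c : ℝ, 0 < c → c < 1 → ∃ Q : Measure ℝ, IsProbabilityMeasure Q ∧ Q (Iio 0) = 0 ∧
    P = (P.map (fun t => c * t)).conv Q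

theorem Good.law {f : ℝ → ℝ} (hf : Good f) : ∃ P : Measure ℝ, HasLT P f :=
  exists_law hf.alt hf.smooth hf.lim

theorem Good.selfDec {f : ℝ → ℝ} (hf : Good f) {P : Measure ℝ} (hP : HasLT P f) : SelfDec P := by
  intro c hc hc1
  have hs : ContDiffOn ℝ ∞ (fun x => f x / f (c * x)) (Ioi 0) :=
    hf.smooth.div (smooth_scale hf.smooth hc) fun x hx => (hf.pos _ (mul_pos hc hx)).ne'
  have hl : Tendsto (fun x => f x / f (c * x)) (𝓝[>] 0) (𝓝 1) := by
    have h2 : Tendsto (fun x => f x / f (c * x)) (𝓝[>] 0) (𝓝 (1 / 1)) :=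
      hf.lim.div (hf.lim.comp (tendsto_scale hc)) one_ne_zero
    rwa [div_one] at h2
  obtain ⟨Q, hQ⟩ := exists_law (fun n => hf.ratio c hc hc1 n) hs hl
  refine ⟨Q, hQ.prob, hQ.supp, ?_⟩
  have h := (hP.scale hc).conv hQ
  refine hP.unique ⟨h.prob, h.supp, fun x hx => ?_⟩
  rw [h.lt x hx]
  have := (hf.pos (c * x) (mul_pos hc hx)).ne'
  field_simp

lemma smooth_sqrt : ContDiffOn ℝ ∞ (fun x : ℝ => √x) (Ioi 0) := fun _ hx =>
  (Real.contDiffAt_sqrt (ne_of_gt hx)).contDiffWithinAt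

lemma lim_sqrt : Tendsto (fun x : ℝ => √x) (𝓝[>] 0) (𝓝 0) := by
  have := (Real.continuous_sqrt.tendsto 0)
  rw [Real.sqrt_zero] at this
  exact this.mono_left nhdsWithin_le_nhds

lemma lim_II {μ : ℝ} (hμ : -1 < μ) :
    Tendsto (fun x => Real.Gamma (μ + 1) * II μ x) (𝓝[>] 0) (𝓝 1) := by
  have h := ((cont_II hμ).tendsto 0).mono_left (nhdsWithin_le_nhds (s := Ioi 0))
  rw [II_zero] at h
  have hG := Real.Gamma_pos_of_pos (s := μ + 1) (by linarith)
  have h2 := h.const_mul (Real.Gamma (μ + 1))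
  rwa [mul_inv_cancel₀ hG.ne'] at h2

lemma lim_KK {ν : ℝ} (hν : 0 < ν) :
    Tendsto (fun x => KK ν x / Real.Gamma ν) (𝓝[>] 0) (𝓝 1) := by
  have hG := Real.Gamma_pos_of_pos hν
  have h := (KK_tendsto_zero hν).div_const (Real.Gamma ν)
  rwa [div_self hG.ne'] at h

/-- `e^{-√x} I`-block -/
noncomputable def UI (μ x : ℝ) : ℝ := Real.exp (-√x) * (Real.Gamma (μ + 1) * II μ x)
/-- `1/I`-block -/
noncomputable def YI (μ x : ℝ) : ℝ := (Real.Gamma (μ + 1) * II μ x)⁻¹
/-- `K`-block -/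
noncomputable def VK (ν x : ℝ) : ℝ := KK ν x / Real.Gamma ν
/-- `e^{-√x}/K`-block -/
noncomputable def WK (ν x : ℝ) : ℝ := Real.exp (-√x) * (KK ν x / Real.Gamma ν)⁻¹

lemma lim_exp_sqrt : Tendsto (fun x : ℝ => Real.exp (-√x)) (𝓝[>] 0) (𝓝 1) := by
  have : Tendsto (fun x : ℝ => Real.exp (-√x)) (𝓝[>] 0) (𝓝 (Real.exp (-0))) :=
    (Real.continuous_exp.tendsto (-0)).comp lim_sqrt.neg
  rwa [neg_zero, Real.exp_zero] at this

lemma smooth_exp_sqrt : ContDiffOn ℝ ∞ (fun x : ℝ => Real.exp (-√x)) (Ioi 0) :=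
  smooth_sqrt.neg.exp

lemma good_UI {μ : ℝ} (hμ : 1/2 < μ) : Good (UI μ) where
  pos := fun x hx => by
    have h1 := II_pos (μ := μ) (by linarith) hx.le
    have h2 := Real.Gamma_pos_of_pos (s := μ + 1) (by linarith)
    unfold UI; positivity
  smooth := smooth_exp_sqrt.mul (contDiffOn_const.mul (contDiff_II_infty (by linarith)).contDiffOn)
  lim := by
    have h : Tendsto (UI μ) (𝓝[>] 0) (𝓝 (1 * 1)) :=
      lim_exp_sqrt.mul (lim_II (μ := μ) (by linarith))
    rwa [one_mul] at h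
  ratio := fun c hc hc1 n => (alt_ratio_EI hμ n hc hc1.le).congr fun x hx => by
    have h1 := II_pos (μ := μ) (by linarith) hx.le
    have h2 := Real.Gamma_pos_of_pos (s := μ + 1) (by linarith)
    have h3 := II_pos (μ := μ) (by linarith) (mul_pos hc hx).le
    unfold UI
    rw [Real.exp_neg, Real.exp_neg]
    have h4 := Real.exp_pos √x
    have h5 := Real.exp_pos √(c * x)
    field_simp

lemma good_YI {μ : ℝ} (hμ : -1 < μ) : Good (YI μ) where
  pos := fun x hx => by
    have h1 := II_pos (μ := μ) (by linarith) hx.le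
    have h2 := Real.Gamma_pos_of_pos (s := μ + 1) (by linarith)
    unfold YI; positivity
  smooth := by
    refine (contDiffOn_const.mul (contDiff_II_infty hμ).contDiffOn).inv fun x hx => ?_
    have h1 := II_pos hμ (le_of_lt hx)
    have h2 := Real.Gamma_pos_of_pos (s := μ + 1) (by linarith)
    positivity
  lim := by
    have h : Tendsto (YI μ) (𝓝[>] 0) (𝓝 1⁻¹) := (lim_II hμ).inv₀ one_ne_zero
    rwa [inv_one] at h
  ratio := fun c hc hc1 n => (alt_ratio_I hμ n hc hc1.le).congr fun x hx => by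
    have h1 := II_pos hμ hx.le
    have h2 := Real.Gamma_pos_of_pos (s := μ + 1) (by linarith)
    have h3 := II_pos hμ (mul_pos hc hx).le
    unfold YI
    field_simp

lemma good_VK {ν : ℝ} (hν : 0 < ν) : Good (VK ν) where
  pos := fun x hx => by
    have h1 := KK_pos hx ν
    have h2 := Real.Gamma_pos_of_pos hν
    unfold VK; positivity
  smooth := (contDiffOn_KK_infty ν).div_const _
  lim := lim_KK hν
  ratio := fun c hc hc1 n => (alt_ratio_K ν n hc hc1.le).congr fun x hx => by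
    have h1 := KK_pos hx ν
    have h2 := Real.Gamma_pos_of_pos hν
    have h3 := KK_pos (mul_pos hc hx) ν
    unfold VK
    field_simp

lemma good_WK {ν : ℝ} (hν : 1/2 < ν) : Good (WK ν) where
  pos := fun x hx => by
    have h1 := KK_pos hx ν
    have h2 := Real.Gamma_pos_of_pos (s := ν) (by linarith)
    unfold WK; positivity
  smooth := by
    refine smooth_exp_sqrt.mul (((contDiffOn_KK_infty ν).div_const _).inv fun x hx => ?_)
    have h1 := KK_pos hx ν
    have h2 := Real.Gamma_pos_of_pos (s := ν) (by linarith)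
    positivity
  lim := by
    have h : Tendsto (WK ν) (𝓝[>] 0) (𝓝 (1 * 1⁻¹)) :=
      lim_exp_sqrt.mul ((lim_KK (ν := ν) (by linarith)).inv₀ one_ne_zero)
    rwa [one_mul, inv_one] at h
  ratio := fun c hc hc1 n => (alt_ratio_EK hν n hc hc1.le).congr fun x hx => by
    have h1 := KK_pos hx ν
    have h2 := Real.Gamma_pos_of_pos (s := ν) (by linarith)
    have h3 := KK_pos (mul_pos hc hx) ν
    unfold WK
    rw [Real.exp_neg, Real.exp_neg]
    have h4 := Real.exp_pos √x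
    have h5 := Real.exp_pos √(c * x)
    field_simp

end Pool.Agent.Q76.Sd
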