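import Mathlib

/-!
# Semi-Fredholm operators: definitions and general facts
-/

namespace Q76.SF

open Set Topology Filter

/-- The algebra `B(X)` of bounded linear operators on `X`. -/
abbrev Op (X : Type*) [NormedAddCommGroup X] [NormedSpace ℂ X] := X →L[ℂ] X

/-- Linear maps `B(X) → B(X)`. -/
abbrev OpMap (X : Type*) [NormedAddCommGroup X] [NormedSpace ℂ X] := Op X →ₗ[ℂ] Op X

/-- `A` is semi-Fredholm: its range is closed and either its kernel is finite-dimensional or its
range has finite codimension. -/
def IsSemiFredholm {X : Type*} [NormedAddCommGroup X] [NormedSpace ℂ X] (A : Op X) : Prop :=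
  IsClosed (range A) ∧ (FiniteDimensional ℂ (LinearMap.ker (A : X →ₗ[ℂ] X)) ∨
    FiniteDimensional ℂ (X ⧸ LinearMap.range (A : X →ₗ[ℂ] X)))

/-- `φ` preserves the semi-Fredholm operators in both directions. -/
def PreservesSemiFredholm {X : Type*} [NormedAddCommGroup X] [NormedSpace ℂ X]
    (φ : OpMap X) : Prop :=
  ∀ A, IsSemiFredholm (φ A) ↔ IsSemiFredholm A

/-- `φ` is surjective up to compact operators. -/
def SurjectiveUpToCompact {X : Type*} [NormedAddCommGroup X] [NormedSpace ℂ X]
    (φ : OpMap X) : Prop :=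
  ∀ A : Op X, ∃ B : Op X, IsCompactOperator (A - φ B : Op X)

/-- `φ` maps compact operators to compact operators (the first requirement of form (SF)). -/
def MapsCompactToCompact {X : Type*} [NormedAddCommGroup X] [NormedSpace ℂ X]
    (φ : OpMap X) : Prop :=
  ∀ K : Op X, IsCompactOperator K → IsCompactOperator (φ K)

/-- `φ` is a continuous bijection with `φ I = I`. -/
def IsUnitalHomeo {X : Type*} [NormedAddCommGroup X] [NormedSpace ℂ X]
    (φ : OpMap X) : Prop :=
  Function.Bijective φ ∧ Continuous φ ∧ φ (ContinuousLinearMap.id ℂ X) = ContinuousLinearMap.id ℂ X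

/-- `φ` is a counterexample to Q2 on `X`. -/
def IsCounterexample {X : Type*} [NormedAddCommGroup X] [NormedSpace ℂ X]
    (φ : OpMap X) : Prop :=
  PreservesSemiFredholm φ ∧ SurjectiveUpToCompact φ ∧ ¬ MapsCompactToCompact φ ∧ IsUnitalHomeo φ

end Q76.SF
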