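import Mathlib
import Pool.Agent.Q76.SfDefs

/-!
# General facts: surjectivity from the adjoint, operators bounded below on a subspace
-/

namespace Q76.SF

open Set Topology Filter

section surj

variable {Y Z : Type*} [NormedAddCommGroup Y] [NormedSpace ℂ Y] [CompleteSpace Y]
  [NormedAddCommGroup Z] [NormedSpace ℂ Z] [CompleteSpace Z]

omit [CompleteSpace Y] [CompleteSpace Z] in
/-- Approximate preimages from the adjoint estimate. -/
lemma approx_preimage (A : Y →L[ℂ] Z) {c : ℝ} (hc : 0 < c)
    (h : ∀ f : Z →L[ℂ] ℂ, c * ‖f‖ ≤ ‖f.comp A‖) (y : Z) :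
    ∃ x : Y, ‖x‖ ≤ ‖y‖ / c ∧ ‖y - A x‖ ≤ ‖y‖ / 2 := by
  rcases eq_or_ne y 0 with rfl | hy
  · exact ⟨0, by simp, by simp⟩
  have hy0 : 0 < ‖y‖ := norm_pos_iff.mpr hy
  set R := ‖y‖ / c with hR
  have hR0 : 0 < R := by positivity
  set K : Set Z := closure (A '' Metric.ball 0 R) with hK
  have hconv : Convex ℝ K := by
    apply Convex.closure
    have := (convex_ball (0 : Y) R).linear_image ((A : Y →ₗ[ℂ] Z).restrictScalars ℝ)
    exact this
  by_cases hyK : y ∈ K
  · obtain ⟨z, ⟨x, hx, rfl⟩, hz⟩ := Metric.mem_closure_iff.mp hyK (‖y‖ / 2) (by positivity)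
    refine ⟨x, ?_, ?_⟩
    · rw [Metric.mem_ball, dist_zero_right] at hx
      exact hx.le
    · rw [← dist_eq_norm]
      exact hz.le
  · exfalso
    obtain ⟨f, u, hf1, hf2⟩ := RCLike.geometric_hahn_banach_closed_point (𝕜 := ℂ) hconv
      isClosed_closure hyK
    have h1 : ∀ x ∈ Metric.ball (0 : Y) R, ‖f (A x)‖ ≤ u := by
      intro x hx
      -- rotate
      obtain ⟨θ, hθ1, hθ2⟩ : ∃ θ : ℂ, ‖θ‖ = 1 ∧ θ * f (A x) = (‖f (A x)‖ : ℂ) := by
        rcases eq_or_ne (f (A x)) 0 with h0 | h0
        · exact ⟨1, by simp, by simp [h0]⟩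
        · refine ⟨(‖f (A x)‖ : ℂ) / f (A x), ?_, ?_⟩
          · rw [norm_div, Complex.norm_real, norm_norm, div_self (norm_ne_zero_iff.mpr h0)]
          · field_simp
      have h2 : A (θ • x) ∈ K := by
        apply subset_closure
        refine ⟨θ • x, ?_, rfl⟩
        rw [Metric.mem_ball, dist_zero_right, norm_smul, hθ1, one_mul]
        rwa [Metric.mem_ball, dist_zero_right] at hx
      have h3 := hf1 _ h2
      rw [map_smul, map_smul, smul_eq_mul, hθ2] at h3
      simpa using h3.le
    have hu0 : 0 ≤ u := by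
      have := h1 0 (Metric.mem_ball_self hR0)
      exact (norm_nonneg _).trans this
    have h2 : ‖f.comp A‖ ≤ u / R := by
      apply ContinuousLinearMap.opNorm_le_bound _ (by positivity)
      intro x
      rcases eq_or_ne x 0 with rfl | hx
      · simp
      have hx0 : 0 < ‖x‖ := norm_pos_iff.mpr hx
      -- scale
      have h3 : ∀ t : ℝ, 0 < t → t * ‖x‖ < R → t * ‖f (A x)‖ ≤ u := by
        intro t ht htx
        have h4 := h1 ((t : ℂ) • x) (by
          rw [Metric.mem_ball, dist_zero_right, norm_smul, Complex.norm_real, Real.norm_eq_abs,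
            abs_of_pos ht]
          exact htx)
        rw [map_smul, map_smul, norm_smul, Complex.norm_real, Real.norm_eq_abs,
          abs_of_pos ht] at h4
        exact h4
      have h5 : R / ‖x‖ * ‖f (A x)‖ ≤ u := by
        by_contra hcon
        push Not at hcon
        have h6 : 0 < ‖f (A x)‖ := by
          by_contra h7
          have h8 : ‖f (A x)‖ = 0 := le_antisymm (not_lt.mp h7) (norm_nonneg _)
          rw [h8, mul_zero] at hcon
          linarith
        set t := (u / ‖f (A x)‖ + R / ‖x‖) / 2 with ht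
        have h9 : u / ‖f (A x)‖ < R / ‖x‖ := by
          rw [div_lt_iff₀ h6]
          exact hcon
        have ht0 : 0 < t := by
          have : 0 < R / ‖x‖ := by positivity
          have : 0 ≤ u / ‖f (A x)‖ := by positivity
          rw [ht]
          positivity
        have h10 : t * ‖x‖ < R := by
          have : t < R / ‖x‖ := by rw [ht]; linarith
          rwa [lt_div_iff₀ hx0] at this
        have h11 := h3 t ht0 h10
        have h12 : u / ‖f (A x)‖ < t := by rw [ht]; linarith
        rw [div_lt_iff₀ h6] at h12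
        linarith
      rw [ContinuousLinearMap.comp_apply]
      calc ‖f (A x)‖ = (R / ‖x‖ * ‖f (A x)‖) * (‖x‖ / R) := by field_simp
        _ ≤ u * (‖x‖ / R) := by gcongr
        _ = u / R * ‖x‖ := by ring
    have h3 : u < ‖f‖ * ‖y‖ := by
      calc u < RCLike.re (f y) := hf2
        _ ≤ ‖f y‖ := RCLike.re_le_norm _
        _ ≤ ‖f‖ * ‖y‖ := f.le_opNorm y
    have h4 : c * ‖f‖ ≤ u / R := (h f).trans h2
    rw [le_div_iff₀ hR0, hR] at h4
    have h5 : c * ‖f‖ * (‖y‖ / c) = ‖f‖ * ‖y‖ := by field_simp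
    rw [h5] at h4
    linarith

/-- If the adjoint is bounded below then the operator is surjective. -/
theorem surjective_of_adjoint (A : Y →L[ℂ] Z) {c : ℝ} (hc : 0 < c)
    (h : ∀ f : Z →L[ℂ] ℂ, c * ‖f‖ ≤ ‖f.comp A‖) : Function.Surjective A := by
  choose g hg1 hg2 using approx_preimage A hc h
  intro y
  set ys : ℕ → Z := fun n => (fun z => z - A (g z))^[n] y with hys
  have hrec : ∀ n, ys (n + 1) = ys n - A (g (ys n)) := by
    intro n
    simp only [hys]
    rw [Function.iterate_succ_apply']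
  have hn : ∀ n, ‖ys n‖ ≤ ‖y‖ * (1 / 2) ^ n := by
    intro n
    induction n with
    | zero => simp [hys]
    | succ n ih =>
      rw [hrec]
      calc _ ≤ ‖ys n‖ / 2 := hg2 _
        _ ≤ ‖y‖ * (1 / 2) ^ n / 2 := by gcongr
        _ = _ := by ring
  have hsum : Summable fun n => g (ys n) := by
    apply Summable.of_norm_bounded (g := fun n => ‖y‖ / c * (1 / 2) ^ n)
    · exact (summable_geometric_of_lt_one (by norm_num) (by norm_num)).mul_left _
    · intro n
      calc _ ≤ ‖ys n‖ / c := hg1 _
        _ ≤ ‖y‖ * (1 / 2) ^ n / c := by gcongr; exact hn n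
        _ = _ := by ring
  refine ⟨∑' n, g (ys n), ?_⟩
  have h1 : Tendsto (fun N => A (∑ n ∈ Finset.range N, g (ys n))) atTop
      (𝓝 (A (∑' n, g (ys n)))) :=
    (A.continuous.tendsto _).comp hsum.hasSum.tendsto_sum_nat
  have h2 : ∀ N, A (∑ n ∈ Finset.range N, g (ys n)) = y - ys N := by
    intro N
    induction N with
    | zero => simp [hys]
    | succ N ih =>
      rw [Finset.sum_range_succ, map_add, ih, hrec]
      abel
  have h3 : Tendsto ys atTop (𝓝 0) := by
    apply squeeze_zero_norm hn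
    have := (tendsto_pow_atTop_nhds_zero_of_lt_one (show (0 : ℝ) ≤ 1 / 2 by norm_num)
      (by norm_num)).const_mul ‖y‖
    rwa [mul_zero] at this
  have h4 : Tendsto (fun N => A (∑ n ∈ Finset.range N, g (ys n))) atTop (𝓝 (y - 0)) := by
    simp_rw [h2]
    exact tendsto_const_nhds.sub h3
  rw [sub_zero] at h4
  exact tendsto_nhds_unique h1 h4

end surj

end Q76.SF
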