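import Mathlib
import Pool.Agent.Q76.SfGen

/-!
# Characterisation of semi-Fredholm operators on a space with a finite-dimensional decomposition
-/

namespace Q76.SF

open Set Topology Filter

variable {X : Type*} [NormedAddCommGroup X] [NormedSpace ℂ X]

/-- A sequence of commuting contractive finite rank projections tending strongly to the
identity. -/
structure IsProjSeq (P : ℕ → X →L[ℂ] X) : Prop where
  norm_le : ∀ m x, ‖P m x‖ ≤ ‖x‖
  tends : ∀ x, Tendsto (fun m => P m x) atTop (𝓝 x)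
  proj : ∀ m n, m ≤ n → ∀ x, P m (P n x) = P m x
  proj' : ∀ m n, m ≤ n → ∀ x, P n (P m x) = P m x
  fin : ∀ m, FiniteDimensional ℂ (LinearMap.range (P m : X →ₗ[ℂ] X))

/-- `T` is bounded below on the kernel of some `P m`. -/
def PP (P : ℕ → X →L[ℂ] X) (T : X →L[ℂ] X) : Prop :=
  ∃ m : ℕ, ∃ c > 0, ∀ x, P m x = 0 → c * ‖x‖ ≤ ‖T x‖

/-- The adjoint of `T` is bounded below on the annihilator of the range of some `P m`. -/
def MM (P : ℕ → X →L[ℂ] X) (T : X →L[ℂ] X) : Prop :=
  ∃ m : ℕ, ∃ c > 0, ∀ f : X →L[ℂ] ℂ, f.comp (P m) = 0 → c * ‖f‖ ≤ ‖f.comp T‖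

/-- Pointwise convergence on a finite-dimensional space is uniform. -/
lemma unif_of_pointwise {N Y : Type*} [NormedAddCommGroup N] [NormedSpace ℂ N]
    [FiniteDimensional ℂ N] [NormedAddCommGroup Y] [NormedSpace ℂ Y]
    (A : ℕ → N →L[ℂ] Y) (hA : ∀ v, Tendsto (fun m => A m v) atTop (𝓝 0)) {ε : ℝ} (hε : 0 < ε) :
    ∃ m, ∀ v, ‖A m v‖ ≤ ε * ‖v‖ := by
  set b := Module.finBasis ℂ N with hb
  set e : N →L[ℂ] (Fin (Module.finrank ℂ N) → ℂ) :=
    LinearMap.toContinuousLinearMap (b.equivFun : N →ₗ[ℂ] (Fin (Module.finrank ℂ N) → ℂ)) with he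
  have hrep : ∀ v, v = ∑ i, e v i • b i := by
    intro v
    have := b.sum_equivFun v
    rw [← this]
    simp [he]
  have h1 : Tendsto (fun m => ∑ i, ‖e‖ * ‖A m (b i)‖) atTop (𝓝 0) := by
    have : (0 : ℝ) = ∑ i : Fin (Module.finrank ℂ N), ‖e‖ * ‖(0 : Y)‖ := by simp
    rw [this]
    apply tendsto_finsetSum
    intro i _
    exact ((hA (b i)).norm).const_mul _
  obtain ⟨m, hm⟩ := (h1.eventually (gt_mem_nhds hε)).exists
  refine ⟨m, fun v => ?_⟩
  calc ‖A m v‖ = ‖∑ i, e v i • A m (b i)‖ := by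
        conv_lhs => rw [hrep v]
        rw [map_sum]
        simp_rw [map_smul]
    _ ≤ ∑ i, ‖e v i • A m (b i)‖ := norm_sum_le _ _
    _ ≤ ∑ i, ‖e‖ * ‖A m (b i)‖ * ‖v‖ := by
        apply Finset.sum_le_sum
        intro i _
        rw [norm_smul]
        have h2 : ‖e v i‖ ≤ ‖e‖ * ‖v‖ := (norm_le_pi_norm (e v) i).trans (e.le_opNorm v)
        calc _ ≤ (‖e‖ * ‖v‖) * ‖A m (b i)‖ := by gcongr
          _ = _ := by ring
    _ = (∑ i, ‖e‖ * ‖A m (b i)‖) * ‖v‖ := by rw [Finset.sum_mul]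
    _ ≤ ε * ‖v‖ := by gcongr

variable {P : ℕ → X →L[ℂ] X}

/-- Closed range and finite-dimensional kernel imply `PP`. -/
theorem PP.of_fredholm [CompleteSpace X] (hP : IsProjSeq P) (T : X →L[ℂ] X)
    (hcl : IsClosed (range T))
    [FiniteDimensional ℂ (LinearMap.ker (T : X →ₗ[ℂ] X))] : PP P T := by
  have hcl' : IsClosed ((LinearMap.range (T : X →ₗ[ℂ] X) : Submodule ℂ X) : Set X) := hcl
  have : CompleteSpace (LinearMap.range (T : X →ₗ[ℂ] X)) := hcl'.completeSpace_coe
  set T' : X →L[ℂ] (LinearMap.range (T : X →ₗ[ℂ] X)) :=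
    T.codRestrict _ (fun x => ⟨x, rfl⟩) with hT'
  have hsurj : Function.Surjective T' := by
    rintro ⟨y, x, rfl⟩
    exact ⟨x, rfl⟩
  obtain ⟨C, hC, hC2⟩ := T'.exists_preimage_norm_le hsurj
  -- uniform projections on the kernel
  set N := LinearMap.ker (T : X →ₗ[ℂ] X) with hN
  obtain ⟨m, hm⟩ := unif_of_pointwise
    (fun m => (ContinuousLinearMap.id ℂ X - P m).comp N.subtypeL) (by
      intro v
      have := (hP.tends v).const_sub (v : X)
      simpa using this) (show (0 : ℝ) < 1 / 2 by norm_num)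
  refine ⟨m, 1 / (3 * C), by positivity, fun x hx => ?_⟩
  obtain ⟨x', hx1, hx2⟩ := hC2 (T' x)
  have hTx : T x' = T x := congrArg Subtype.val hx1
  set n : N := ⟨x - x', by
    rw [hN, LinearMap.mem_ker]
    simp [hTx]⟩ with hn
  have h1 : ‖(n : X) - P m n‖ ≤ 1 / 2 * ‖(n : X)‖ := by simpa using hm n
  have h2 : ‖(n : X)‖ ≤ ‖P m n‖ + ‖(n : X) - P m n‖ := by
    calc ‖(n : X)‖ = ‖P m n + ((n : X) - P m n)‖ := by congr 1; abel
      _ ≤ _ := norm_add_le _ _
  have h3 : P m (n : X) = - P m x' := by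
    simp [hn, hx]
  have h4 : ‖P m (n : X)‖ ≤ ‖x'‖ := by
    rw [h3, norm_neg]
    exact hP.norm_le m x'
  have h5 : ‖(T' x : X)‖ = ‖T x‖ := rfl
  have h6 : ‖x'‖ ≤ C * ‖T x‖ := hx2
  have h7 : ‖x‖ ≤ ‖(n : X)‖ + ‖x'‖ := by
    calc ‖x‖ = ‖(n : X) + x'‖ := by congr 1; simp [hn]
      _ ≤ _ := norm_add_le _ _
  have h8 : ‖x‖ ≤ 3 * (C * ‖T x‖) := by linarith
  rw [div_mul_eq_mul_div, one_mul, div_le_iff₀ (by positivity)]
  linarith

/-- `PP` implies closed range and finite-dimensional kernel. -/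
theorem PP.isSemiFredholm [CompleteSpace X] (hP : IsProjSeq P) {T : X →L[ℂ] X} (h : PP P T) :
    IsSemiFredholm T := by
  obtain ⟨m, c, hc, hT⟩ := h
  have hfin := hP.fin m
  constructor
  · -- closed range
    set L : Submodule ℂ X := LinearMap.ker (P m : X →ₗ[ℂ] X) with hL
    have hLc : IsClosed (L : Set X) := (P m).isClosed_ker
    have : CompleteSpace L := hLc.completeSpace_coe
    have h1 : IsClosed (range (T.comp L.subtypeL)) := by
      have hanti : AntilipschitzWith (Real.toNNReal (1 / c)) (T.comp L.subtypeL) := by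
        apply ContinuousLinearMap.antilipschitz_of_bound
        intro x
        have hx : P m (x : X) = 0 := x.2
        have := hT x hx
        rw [Real.coe_toNNReal _ (by positivity)]
        rw [div_mul_eq_mul_div, one_mul, le_div_iff₀ hc]
        simpa [mul_comm] using this
      exact hanti.isClosed_range (T.comp L.subtypeL).uniformContinuous
    have h2 : IsClosed ((L.map (T : X →ₗ[ℂ] X) : Submodule ℂ X) : Set X) := by
      convert h1
      ext y
      simp
    set F : Submodule ℂ X := (LinearMap.range (P m : X →ₗ[ℂ] X)).map (T : X →ₗ[ℂ] X) with hF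
    have h3 := Submodule.isClosed_sup_finiteDimensional _ F h2
    convert h3
    apply Set.Subset.antisymm
    · rintro _ ⟨x, rfl⟩
      rw [SetLike.mem_coe, Submodule.mem_sup]
      refine ⟨T (x - P m x), ⟨x - P m x, ?_, rfl⟩, T (P m x), ⟨P m x, ⟨x, rfl⟩, rfl⟩, ?_⟩
      · show P m (x - P m x) = 0
        rw [map_sub, hP.proj m m le_rfl, sub_self]
      · rw [← map_add]
        congr 1
        abel
    · intro y hy
      rw [SetLike.mem_coe, Submodule.mem_sup] at hy
      obtain ⟨_, ⟨x1, _, rfl⟩, _, ⟨x2, _, rfl⟩, rfl⟩ := hy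
      exact ⟨x1 + x2, by simp⟩
  · left
    -- the kernel is finite-dimensional
    set N := LinearMap.ker (T : X →ₗ[ℂ] X) with hN
    set g : N →ₗ[ℂ] (LinearMap.range (P m : X →ₗ[ℂ] X)) :=
      ((P m : X →ₗ[ℂ] X).rangeRestrict).comp N.subtype with hg
    have hinj : Function.Injective g := by
      rw [← LinearMap.ker_eq_bot, LinearMap.ker_eq_bot']
      intro x hx
      have hx1 : P m (x : X) = 0 := congrArg Subtype.val hx
      have hx2 : T (x : X) = 0 := x.2
      have h1 := hT x hx1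
      rw [hx2, norm_zero] at h1
      have h2 : ‖(x : X)‖ = 0 := by
        have := norm_nonneg (x : X)
        nlinarith
      exact Subtype.ext (norm_eq_zero.mp h2)
    exact FiniteDimensional.of_injective g hinj

/-- An operator whose range has finite codimension has closed range. -/
lemma isClosed_range_of_finite [CompleteSpace X] (T : X →L[ℂ] X)
    [FiniteDimensional ℂ (X ⧸ LinearMap.range (T : X →ₗ[ℂ] X))] : IsClosed (range T) := by
  obtain ⟨F, hF⟩ := Submodule.exists_isCompl (LinearMap.range (T : X →ₗ[ℂ] X))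
  have hfin : FiniteDimensional ℂ F :=
    LinearEquiv.finiteDimensional (Submodule.quotientEquivOfIsCompl _ _ hF)
  set A : X × F →L[ℂ] X := T.coprod F.subtypeL with hA
  have hAapp : ∀ p : X × F, A p = T p.1 + (p.2 : X) := by
    intro p
    simp [hA]
  have hsurj : Function.Surjective A := by
    intro y
    have hy : y ∈ LinearMap.range (T : X →ₗ[ℂ] X) ⊔ F := by
      rw [hF.sup_eq_top]; trivial
    rw [Submodule.mem_sup] at hy
    obtain ⟨_, ⟨x, rfl⟩, z, hz, rfl⟩ := hy
    exact ⟨(x, ⟨z, hz⟩), by rw [hAapp]; rfl⟩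
  have hopen := A.isOpenMap hsurj
  have h1 : (range T)ᶜ = A '' {p | p.2 ≠ 0} := by
    ext y
    constructor
    · intro hy
      obtain ⟨p, rfl⟩ := hsurj y
      refine ⟨p, ?_, rfl⟩
      intro hp
      apply hy
      rw [hAapp, hp]
      exact ⟨p.1, by simp⟩
    · rintro ⟨p, hp, rfl⟩ ⟨x, hx⟩
      apply hp
      rw [hAapp] at hx
      have h2 : (p.2 : X) = T (x - p.1) := by
        rw [map_sub, hx]
        abel
      have h3 : (p.2 : X) ∈ (LinearMap.range (T : X →ₗ[ℂ] X)) ⊓ F :=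
        ⟨⟨x - p.1, h2.symm⟩, p.2.2⟩
      rw [hF.inf_eq_bot, Submodule.mem_bot] at h3
      exact Subtype.ext h3
  rw [← isOpen_compl_iff, h1]
  apply hopen
  exact isOpen_ne_fun continuous_snd continuous_const

/-- Closed range of finite codimension implies `MM`. -/
theorem MM.of_fredholm [CompleteSpace X] (hP : IsProjSeq P) (T : X →L[ℂ] X)
    [FiniteDimensional ℂ (X ⧸ LinearMap.range (T : X →ₗ[ℂ] X))] : MM P T := by
  set R := LinearMap.range (T : X →ₗ[ℂ] X) with hR
  obtain ⟨F, hF⟩ := Submodule.exists_isCompl R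
  have hfin : FiniteDimensional ℂ F :=
    LinearEquiv.finiteDimensional (Submodule.quotientEquivOfIsCompl _ _ hF)
  set A : X × F →L[ℂ] X := T.coprod F.subtypeL with hA
  have hAapp : ∀ p : X × F, A p = T p.1 + (p.2 : X) := by
    intro p
    simp [hA]
  have hsurj : Function.Surjective A := by
    intro y
    have hy : y ∈ R ⊔ F := by
      rw [hF.sup_eq_top]; trivial
    rw [Submodule.mem_sup] at hy
    obtain ⟨_, ⟨x, rfl⟩, z, hz, rfl⟩ := hy
    exact ⟨(x, ⟨z, hz⟩), by rw [hAapp]; rfl⟩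
  obtain ⟨C, hC, hC2⟩ := A.exists_preimage_norm_le hsurj
  obtain ⟨m, hm⟩ := unif_of_pointwise
    (fun m => (ContinuousLinearMap.id ℂ X - P m).comp F.subtypeL) (by
      intro v
      have := (hP.tends v).const_sub (v : X)
      simpa using this) (show (0 : ℝ) < 1 / (2 * C) by positivity)
  refine ⟨m, 1 / (2 * C), by positivity, fun f hf => ?_⟩
  have h1 : ‖f‖ ≤ C * ‖f.comp T‖ + 1 / 2 * ‖f‖ := by
    apply ContinuousLinearMap.opNorm_le_bound _ (by positivity)
    intro z
    obtain ⟨p, hp1, hp2⟩ := hC2 z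
    have h2 : f z = f (T p.1) + f ((p.2 : X) - P m p.2) := by
      have h3 : f (P m (p.2 : X)) = 0 := by
        have := DFunLike.congr_fun hf (p.2 : X)
        simpa using this
      rw [← hp1, hAapp, map_add, map_sub, h3, sub_zero]
    have h4 : ‖(p.2 : X) - P m p.2‖ ≤ 1 / (2 * C) * ‖p.2‖ := by simpa using hm p.2
    have h5 : ‖p.1‖ ≤ C * ‖z‖ := (norm_fst_le p).trans hp2
    have h6 : ‖p.2‖ ≤ C * ‖z‖ := (norm_snd_le p).trans hp2
    calc ‖f z‖ ≤ ‖f (T p.1)‖ + ‖f ((p.2 : X) - P m p.2)‖ := by rw [h2]; exact norm_add_le _ _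
      _ ≤ ‖f.comp T‖ * ‖p.1‖ + ‖f‖ * ‖(p.2 : X) - P m p.2‖ := by
          gcongr
          · exact (f.comp T).le_opNorm p.1
          · exact f.le_opNorm _
      _ ≤ ‖f.comp T‖ * (C * ‖z‖) + ‖f‖ * (1 / (2 * C) * (C * ‖z‖)) := by
          gcongr
          exact h4.trans (by gcongr)
      _ = (C * ‖f.comp T‖ + 1 / 2 * ‖f‖) * ‖z‖ := by
          field_simp
  rw [div_mul_eq_mul_div, one_mul, div_le_iff₀ (by positivity)]
  linarith

/-- `MM` implies closed range of finite codimension. -/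
theorem MM.isSemiFredholm [CompleteSpace X] (hP : IsProjSeq P) {T : X →L[ℂ] X} (h : MM P T) :
    IsSemiFredholm T := by
  obtain ⟨m, c, hc, hT⟩ := h
  set F : Submodule ℂ X := LinearMap.range (P m : X →ₗ[ℂ] X) with hF
  have hfin : FiniteDimensional ℂ F := hP.fin m
  have : CompleteSpace F := FiniteDimensional.complete ℂ F
  set A : X × F →L[ℂ] X := T.coprod F.subtypeL with hA
  have hAapp : ∀ p : X × F, A p = T p.1 + (p.2 : X) := by
    intro p
    simp [hA]
  set K : ℝ := 1 + (1 + ‖T‖) / c with hK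
  have hK0 : 0 < K := by positivity
  have hsurj : Function.Surjective A := by
    apply surjective_of_adjoint A (c := 1 / K) (by positivity)
    intro f
    rw [div_mul_eq_mul_div, one_mul, div_le_iff₀ hK0]
    have h1 : ‖f.comp (P m)‖ ≤ ‖f.comp A‖ := by
      refine ContinuousLinearMap.opNorm_le_bound _ (norm_nonneg (f.comp A)) (fun x => ?_)
      have h2 : (f.comp (P m)) x = (f.comp A) (0, ⟨P m x, ⟨x, rfl⟩⟩) := by
        simp [hAapp]
      rw [h2]
      calc _ ≤ ‖f.comp A‖ * ‖((0, ⟨P m x, ⟨x, rfl⟩⟩) : X × F)‖ := (f.comp A).le_opNorm _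
        _ ≤ ‖f.comp A‖ * ‖x‖ := by
            gcongr
            rw [Prod.norm_def]
            simp only [norm_zero]
            apply max_le (norm_nonneg _)
            exact hP.norm_le m x
    have h2 : ‖f.comp T‖ ≤ ‖f.comp A‖ := by
      refine ContinuousLinearMap.opNorm_le_bound _ (norm_nonneg (f.comp A)) (fun x => ?_)
      have h2 : (f.comp T) x = (f.comp A) (x, 0) := by
        simp [hAapp]
      rw [h2]
      calc _ ≤ ‖f.comp A‖ * ‖((x, 0) : X × F)‖ := (f.comp A).le_opNorm _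
        _ ≤ ‖f.comp A‖ * ‖x‖ := by
            gcongr
            rw [Prod.norm_def]
            simp
    set g : X →L[ℂ] ℂ := f - f.comp (P m) with hg
    have hg0 : g.comp (P m) = 0 := by
      ext x
      simp [hg, hP.proj m m le_rfl]
    have h3 := hT g hg0
    have h4 : g.comp T = f.comp T - (f.comp (P m)).comp T := by
      ext x
      simp [hg]
    have h5 : ‖g.comp T‖ ≤ ‖f.comp A‖ * (1 + ‖T‖) := by
      rw [h4]
      calc _ ≤ ‖f.comp T‖ + ‖(f.comp (P m)).comp T‖ := norm_sub_le _ _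
        _ ≤ ‖f.comp A‖ + ‖f.comp A‖ * ‖T‖ := by
            gcongr
            calc _ ≤ ‖f.comp (P m)‖ * ‖T‖ := ContinuousLinearMap.opNorm_comp_le _ _
              _ ≤ _ := by gcongr
        _ = _ := by ring
    have h6 : ‖g‖ ≤ ‖f.comp A‖ * ((1 + ‖T‖) / c) := by
      rw [← mul_div_assoc, le_div_iff₀ hc]
      linarith
    calc ‖f‖ = ‖f.comp (P m) + g‖ := by congr 1; simp [hg]
      _ ≤ ‖f.comp (P m)‖ + ‖g‖ := norm_add_le _ _
      _ ≤ ‖f.comp A‖ + ‖f.comp A‖ * ((1 + ‖T‖) / c) := by gcongr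
      _ = ‖f.comp A‖ * K := by rw [hK]; ring
  have hq : FiniteDimensional ℂ (X ⧸ LinearMap.range (T : X →ₗ[ℂ] X)) := by
    apply Module.Finite.of_surjective
      ((LinearMap.range (T : X →ₗ[ℂ] X)).mkQ.comp F.subtype)
    intro y
    obtain ⟨y, rfl⟩ := Submodule.mkQ_surjective _ y
    obtain ⟨p, rfl⟩ := hsurj y
    refine ⟨p.2, ?_⟩
    rw [hAapp]
    simp only [LinearMap.comp_apply, Submodule.subtype_apply, map_add]
    have : (LinearMap.range (T : X →ₗ[ℂ] X)).mkQ (T p.1) = 0 := by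
      rw [Submodule.mkQ_apply, Submodule.Quotient.mk_eq_zero]
      exact ⟨p.1, rfl⟩
    rw [this, zero_add]
  exact ⟨isClosed_range_of_finite T, Or.inr hq⟩

/-- Characterisation of the semi-Fredholm operators. -/
theorem isSemiFredholm_iff [CompleteSpace X] (hP : IsProjSeq P) (T : X →L[ℂ] X) :
    IsSemiFredholm T ↔ PP P T ∨ MM P T := by
  constructor
  · rintro ⟨h1, h2 | h2⟩
    · left
      exact PP.of_fredholm hP T h1
    · right
      exact MM.of_fredholm hP T
  · rintro (h | h)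
    · exact h.isSemiFredholm hP
    · exact h.isSemiFredholm hP

end Q76.SF
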