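import Mathlib
import Pool.Agent.Q76.SfChar

/-!
# The space `ℓ¹ × ℓ²`, truncations, and the inclusion of `ℓ¹` into `ℓ²`
-/

namespace Q76.SF

open Set Topology Filter

noncomputable section

/-- Complex `ℓ^p` sequences. -/
abbrev Lp (p : ENNReal) := lp (fun _ : ℕ => ℂ) p

/-- The space `ℓ¹ × ℓ²`. -/
abbrev XX := Lp 1 × Lp 2

/-- Truncation to the first `m` coordinates. -/
def trunc (p : ENNReal) [Fact (1 ≤ p)] (m : ℕ) : Lp p →L[ℂ] Lp p :=
  ∑ i ∈ Finset.range m,
    (lp.singleContinuousLinearMap ℂ (fun _ : ℕ => ℂ) p i).comp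
      (lp.evalCLM (𝕜 := ℂ) (fun _ : ℕ => ℂ) p i)

lemma trunc_eq (p : ENNReal) [Fact (1 ≤ p)] (m : ℕ) (f : Lp p) :
    trunc p m f = ∑ i ∈ Finset.range m, lp.single p i (f i) := by
  simp only [trunc, ContinuousLinearMap.sum_apply, ContinuousLinearMap.comp_apply]
  rfl

lemma trunc_apply (p : ENNReal) [Fact (1 ≤ p)] (m : ℕ) (f : Lp p) (i : ℕ) :
    (trunc p m f) i = if i < m then f i else 0 := by
  rw [trunc_eq, lp.coeFn_sum, Finset.sum_apply]
  simp only [lp.coeFn_single]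
  rw [Finset.sum_pi_single]
  simp

lemma norm_trunc_le (p : ENNReal) [Fact (1 ≤ p)] (m : ℕ) (f : Lp p) :
    ‖trunc p m f‖ ≤ ‖f‖ := by
  apply lp.norm_mono (zero_lt_one.trans_le (Fact.out : 1 ≤ p)).ne'
  intro i
  rw [trunc_apply]
  split_ifs <;> simp

lemma tendsto_trunc (p : ENNReal) [Fact (1 ≤ p)] (hp : p ≠ ⊤) (f : Lp p) :
    Tendsto (fun m => trunc p m f) atTop (𝓝 f) := by
  simp_rw [trunc_eq]
  exact (lp.hasSum_single hp f).tendsto_sum_nat

/-- Truncation on `ℓ¹ × ℓ²`. -/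
def PX (m : ℕ) : XX →L[ℂ] XX := (trunc 1 m).prodMap (trunc 2 m)

lemma PX_apply (m : ℕ) (x : XX) : PX m x = (trunc 1 m x.1, trunc 2 m x.2) := rfl

lemma isProjSeq_PX : IsProjSeq PX where
  norm_le m x := by
    rw [PX_apply, Prod.norm_def, Prod.norm_def]
    exact max_le_max (norm_trunc_le 1 m x.1) (norm_trunc_le 2 m x.2)
  tends x := by
    have h1 := tendsto_trunc 1 (by norm_num) x.1
    have h2 := tendsto_trunc 2 (by norm_num) x.2
    exact h1.prodMk_nhds h2
  proj m n hmn x := by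
    simp only [PX_apply]
    congr 1 <;>
    · ext i
      simp only [trunc_apply]
      split_ifs <;> first | rfl | omega
  proj' m n hmn x := by
    simp only [PX_apply]
    congr 1 <;>
    · ext i
      simp only [trunc_apply]
      split_ifs <;> first | rfl | omega
  fin m := by
    set g : LinearMap.range (PX m : XX →ₗ[ℂ] XX) →ₗ[ℂ] ((Fin m → ℂ) × (Fin m → ℂ)) :=
      { toFun := fun y => (fun i => (y : XX).1 i, fun i => (y : XX).2 i)
        map_add' := fun y z => by ext <;> rfl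
        map_smul' := fun c y => by ext <;> rfl } with hg
    apply FiniteDimensional.of_injective g
    rw [← LinearMap.ker_eq_bot, LinearMap.ker_eq_bot']
    rintro ⟨_, x, rfl⟩ hx
    apply Subtype.ext
    show PX m x = 0
    have h1 : ∀ i : Fin m, (trunc 1 m x.1) i = 0 := fun i => congrFun (congrArg Prod.fst hx) i
    have h2 : ∀ i : Fin m, (trunc 2 m x.2) i = 0 := fun i => congrFun (congrArg Prod.snd hx) i
    rw [PX_apply]
    have h3 : trunc 1 m x.1 = 0 := by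
      ext i
      by_cases hi : i < m
      · exact h1 ⟨i, hi⟩
      · rw [trunc_apply, if_neg hi]; rfl
    have h4 : trunc 2 m x.2 = 0 := by
      ext i
      by_cases hi : i < m
      · exact h2 ⟨i, hi⟩
      · rw [trunc_apply, if_neg hi]; rfl
    rw [h3, h4]
    rfl

lemma hasSum_norm_one (a : Lp 1) : HasSum (fun i => ‖a i‖) ‖a‖ := by
  have := lp.hasSum_norm (p := 1) (by norm_num) a
  simpa using this

lemma hasSum_norm_two (a : Lp 2) : HasSum (fun i => ‖a i‖ ^ 2) (‖a‖ ^ 2) := by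
  have := lp.hasSum_norm (p := 2) (by norm_num) a
  simpa using this

lemma norm_add_one (a b : Lp 1) (h : ∀ i, a i = 0 ∨ b i = 0) : ‖a + b‖ = ‖a‖ + ‖b‖ := by
  have h1 := hasSum_norm_one (a + b)
  have h2 := (hasSum_norm_one a).add (hasSum_norm_one b)
  have h3 : (fun i => ‖(a + b) i‖) = fun i => ‖a i‖ + ‖b i‖ := by
    funext i
    rw [lp.coeFn_add, Pi.add_apply]
    rcases h i with h | h <;> simp [h]
  rw [h3] at h1
  exact h1.unique h2

lemma norm_add_two (a b : Lp 2) (h : ∀ i, a i = 0 ∨ b i = 0) :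
    ‖a + b‖ ^ 2 = ‖a‖ ^ 2 + ‖b‖ ^ 2 := by
  have h1 := hasSum_norm_two (a + b)
  have h2 := (hasSum_norm_two a).add (hasSum_norm_two b)
  have h3 : (fun i => ‖(a + b) i‖ ^ 2) = fun i => ‖a i‖ ^ 2 + ‖b i‖ ^ 2 := by
    funext i
    rw [lp.coeFn_add, Pi.add_apply]
    rcases h i with h | h <;> simp [h]
  rw [h3] at h1
  exact h1.unique h2

/-- The inclusion of `ℓ¹` into `ℓ²`. -/
def J : Lp 1 →L[ℂ] Lp 2 :=
  (lp.linearMapOfLE ℂ (fun _ : ℕ => ℂ) (show (1 : ENNReal) ≤ 2 by norm_num)).mkContinuous 1 (by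
    intro a
    rw [one_mul]
    have h1 := hasSum_norm_two (lp.linearMapOfLE ℂ (fun _ : ℕ => ℂ)
      (show (1 : ENNReal) ≤ 2 by norm_num) a)
    have h2 := (hasSum_norm_one a).mul_left ‖a‖
    have h3 := hasSum_le (fun i => (by
      rw [lp.coe_linearMapOfLE_apply, sq]
      gcongr
      exact lp.norm_apply_le_norm (by norm_num) a i :
        ‖(lp.linearMapOfLE ℂ (fun _ : ℕ => ℂ)
          (show (1 : ENNReal) ≤ 2 by norm_num) a) i‖ ^ 2 ≤ ‖a‖ * ‖a i‖)) h1 h2
    rw [← sq] at h3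
    exact (pow_le_pow_iff_left₀ (norm_nonneg _) (norm_nonneg _) (by norm_num)).mp h3)

@[simp] lemma J_apply (a : Lp 1) (i : ℕ) : (J a) i = a i := by
  simp [J]

lemma norm_J_le (a : Lp 1) : ‖J a‖ ≤ ‖a‖ := by
  have := J.le_of_opNorm_le (LinearMap.mkContinuous_norm_le _ (by norm_num) _) a
  simpa using this

/-- The operator `S (a, b) = (0, J a)`. -/
def SX : XX →L[ℂ] XX :=
  (ContinuousLinearMap.inr ℂ (Lp 1) (Lp 2)).comp (J.comp (ContinuousLinearMap.fst ℂ (Lp 1) (Lp 2)))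

lemma SX_apply (x : XX) : SX x = (0, J x.1) := rfl

lemma norm_SX (x : XX) : ‖SX x‖ = ‖J x.1‖ := by
  rw [SX_apply, Prod.norm_def]
  simp

end

end Q76.SF
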