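import Mathlib
import Pool.Agent.Q76.SfSpace

/-!
# Stability of `PP` under multiples of `S`
-/

namespace Q76.SF

open Set Topology Filter

lemma PX_zero_of_le {m M : ℕ} (h : m ≤ M) {x : XX} (hx : PX M x = 0) : PX m x = 0 := by
  rw [← isProjSeq_PX.proj m M h, hx, map_zero]

/-- Coordinates vanish below. -/
lemma coord_zero_low {M : ℕ} {x : XX} (hx : PX M x = 0) {i : ℕ} (hi : i < M) :
    x.1 i = 0 ∧ x.2 i = 0 := by
  rw [PX_apply] at hx
  have h1 : trunc 1 M x.1 = 0 := congrArg Prod.fst hx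
  have h2 : trunc 2 M x.2 = 0 := congrArg Prod.snd hx
  constructor
  · have := congrArg (fun f : Lp 1 => f i) h1
    simp only [trunc_apply, if_pos hi] at this
    exact this
  · have := congrArg (fun f : Lp 2 => f i) h2
    simp only [trunc_apply, if_pos hi] at this
    exact this

/-- Coordinates vanish above. -/
lemma coord_zero_high {M : ℕ} {x : XX} (hx : PX M x = x) {i : ℕ} (hi : M ≤ i) :
    x.1 i = 0 ∧ x.2 i = 0 := by
  rw [PX_apply] at hx
  have h1 : trunc 1 M x.1 = x.1 := congrArg Prod.fst hx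
  have h2 : trunc 2 M x.2 = x.2 := congrArg Prod.snd hx
  constructor
  · rw [← h1, trunc_apply, if_neg (not_lt.mpr hi)]
  · rw [← h2, trunc_apply, if_neg (not_lt.mpr hi)]

lemma step_plus {T' : XX →L[ℂ] XX} (h : ¬ PP PX T') (M : ℕ) {ε : ℝ} (hε : 0 < ε) :
    ∃ (x : XX) (M' : ℕ), M ≤ M' ∧ ‖x‖ = 1 ∧ PX M x = 0 ∧ PX M' x = x ∧ ‖T' x‖ ≤ ε := by
  have h1 : ∃ x, PX M x = 0 ∧ ‖T' x‖ < ε * ‖x‖ := by
    by_contra hcon
    push Not at hcon
    exact h ⟨M, ε, hε, hcon⟩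
  obtain ⟨x, hx1, hx2⟩ := h1
  have h2 : Tendsto (fun n => PX n x) atTop (𝓝 x) := isProjSeq_PX.tends x
  have h3 : ∀ᶠ n in atTop, ‖T' (PX n x)‖ < ε * ‖PX n x‖ := by
    have h4 : Tendsto (fun n => ‖T' (PX n x)‖) atTop (𝓝 ‖T' x‖) :=
      ((T'.continuous.norm).tendsto x).comp h2
    have h5 : Tendsto (fun n => ε * ‖PX n x‖) atTop (𝓝 (ε * ‖x‖)) := h2.norm.const_mul _
    exact h4.eventually_lt h5 hx2
  obtain ⟨n, hn1, hn2⟩ := (h3.and (eventually_ge_atTop M)).exists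
  have hy0 : 0 < ‖PX n x‖ := by
    have := norm_nonneg (T' (PX n x))
    by_contra h6
    have h7 : ‖PX n x‖ = 0 := le_antisymm (not_lt.mp h6) (norm_nonneg _)
    rw [h7, mul_zero] at hn1
    linarith
  refine ⟨((‖PX n x‖⁻¹ : ℝ) : ℂ) • PX n x, n, hn2, ?_, ?_, ?_, ?_⟩
  · rw [norm_smul, Complex.norm_real, norm_inv, norm_norm, inv_mul_cancel₀ hy0.ne']
  · rw [map_smul, isProjSeq_PX.proj M n hn2, hx1, smul_zero]
  · rw [map_smul, isProjSeq_PX.proj n n le_rfl]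
  · rw [map_smul, norm_smul, Complex.norm_real, norm_inv, norm_norm, inv_mul_le_iff₀ hy0]
    linarith

lemma growth_contra {c δ μ : ℝ} (hc : 0 < c) (hδ : 0 < δ) (hμ : 0 ≤ μ)
    (h : ∀ n : ℕ, 1 ≤ n → c * ((n : ℝ) ^ 2 * δ) ≤ 1 + μ * n) : False := by
  obtain ⟨n, hn⟩ := exists_nat_gt ((1 + μ) / (c * δ))
  have hn0 : 0 < (n : ℝ) := lt_of_le_of_lt (by positivity) hn
  have hn1 : 1 ≤ n := by exact_mod_cast hn0
  have hn1' : (1 : ℝ) ≤ n := by exact_mod_cast hn1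
  have h1 := h n hn1
  rw [div_lt_iff₀ (by positivity)] at hn
  have h2 : (1 + μ) * n < n * (c * δ) * n := by gcongr
  nlinarith

/-- `PP` is stable under adding multiples of `S`. -/
theorem PP.add_smul {T : XX →L[ℂ] XX} (hT : PP PX T) (μ : ℂ) : PP PX (T + μ • SX) := by
  by_contra hcon
  obtain ⟨m0, c, hc, hlow⟩ := hT
  set T' := T + μ • SX with hT'
  have hTT' : ∀ x : XX, ‖T x‖ ≤ ‖T' x‖ + ‖μ‖ * ‖J x.1‖ := by
    intro x
    have h1 : T x = T' x - μ • SX x := by simp [hT']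
    rw [h1]
    calc _ ≤ ‖T' x‖ + ‖μ • SX x‖ := norm_sub_le _ _
      _ = _ := by rw [norm_smul, norm_SX]
  set δ : ℝ := c / (2 * (‖μ‖ + 1)) with hδ
  have hμ1 : 0 < ‖μ‖ + 1 := by positivity
  have hδ0 : 0 < δ := by positivity
  have key : ∀ k : ℕ, ∃ (z : XX) (M : ℕ), m0 ≤ M ∧ PX m0 z = 0 ∧ PX M z = z ∧
      (k : ℝ) * δ ≤ ‖z.1‖ ∧ ‖J z.1‖ ^ 2 ≤ k ∧ ‖T' z‖ ≤ 1 - (1 / 2) ^ k := by
    intro k
    induction k with
    | zero => exact ⟨0, m0, le_rfl, by simp, by simp, by simp, by simp, by simp⟩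
    | succ k ih =>
      obtain ⟨z, M, hM, hz1, hz2, hz3, hz4, hz5⟩ := ih
      obtain ⟨x, M', hM', hx1, hx2, hx3, hx4⟩ := step_plus hcon M
        (show 0 < min (c / 2) ((1 / 2) ^ (k + 1)) by positivity)
      have hdisj1 : ∀ i, z.1 i = 0 ∨ x.1 i = 0 := by
        intro i
        rcases lt_or_ge i M with hi | hi
        · exact Or.inr (coord_zero_low hx2 hi).1
        · exact Or.inl (coord_zero_high hz2 hi).1
      have hx5 : δ ≤ ‖x.1‖ := by
        have h1 := hlow x (PX_zero_of_le hM hx2)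
        rw [hx1, mul_one] at h1
        have h2 := hTT' x
        have h3 : ‖T' x‖ ≤ c / 2 := hx4.trans (min_le_left _ _)
        have h4 := norm_J_le x.1
        have h5 : c / 2 ≤ (‖μ‖ + 1) * ‖x.1‖ := by nlinarith [norm_nonneg μ, norm_nonneg x.1]
        rw [hδ, div_le_iff₀ (by positivity)]
        linarith
      refine ⟨z + x, M', hM.trans hM', ?_, ?_, ?_, ?_, ?_⟩
      · rw [map_add, hz1, PX_zero_of_le hM hx2, add_zero]
      · rw [map_add, hx3]
        congr 1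
        rw [← hz2, isProjSeq_PX.proj' M M' hM']
      · rw [Prod.fst_add, norm_add_one _ _ hdisj1]
        push_cast
        linarith
      · rw [Prod.fst_add, map_add, norm_add_two _ _ (by simpa using hdisj1)]
        push_cast
        have h1 : ‖J x.1‖ ≤ 1 := by
          calc _ ≤ ‖x.1‖ := norm_J_le _
            _ ≤ ‖x‖ := norm_fst_le x
            _ = 1 := hx1
        have h2 : ‖J x.1‖ ^ 2 ≤ 1 := pow_le_one₀ (norm_nonneg _) h1
        linarith
      · rw [map_add]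
        have h1 : ‖T' x‖ ≤ (1 / 2) ^ (k + 1) := hx4.trans (min_le_right _ _)
        calc _ ≤ ‖T' z‖ + ‖T' x‖ := norm_add_le _ _
          _ ≤ (1 - (1 / 2) ^ k) + (1 / 2) ^ (k + 1) := add_le_add hz5 h1
          _ = _ := by ring
  apply growth_contra hc hδ0 (norm_nonneg μ)
  intro n hn
  obtain ⟨z, M, -, hz1, -, hz3, hz4, hz5⟩ := key (n ^ 2)
  have h1 := hlow z hz1
  have h2 := hTT' z
  have h3 : ‖J z.1‖ ≤ n := by
    have h4 : ‖J z.1‖ ^ 2 ≤ (n : ℝ) ^ 2 := by exact_mod_cast hz4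
    exact (pow_le_pow_iff_left₀ (norm_nonneg _) (by positivity) (by norm_num)).mp h4
  have h4 : ‖z.1‖ ≤ ‖z‖ := norm_fst_le z
  push_cast at hz3
  have h5 : (0 : ℝ) ≤ (1 / 2) ^ (n ^ 2) := by positivity
  calc c * ((n : ℝ) ^ 2 * δ) ≤ c * ‖z‖ := by gcongr; exact hz3.trans h4
    _ ≤ ‖T' z‖ + ‖μ‖ * ‖J z.1‖ := h1.trans h2
    _ ≤ 1 + ‖μ‖ * n := by
        gcongr
        linarith

end Q76.SF
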