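import Mathlib
import Pool.Agent.Q76.SfPlus

/-!
# Stability of `MM` under multiples of `S`
-/

namespace Q76.SF

open Set Topology Filter

noncomputable section

/-- The unit vectors of the second summand. -/
def e2 (i : ℕ) : XX := (0, lp.single 2 i 1)

lemma norm_e2 (i : ℕ) : ‖e2 i‖ = 1 := by
  rw [e2, Prod.norm_def]
  simp [lp.norm_single (E := fun _ : ℕ => ℂ) (p := 2) (by norm_num) i (1 : ℂ)]

lemma PX_e2 {M i : ℕ} (hi : i < M) : PX M (e2 i) = e2 i := by
  rw [PX_apply, e2]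
  congr 1
  · simp
  · ext j
    rw [trunc_apply]
    split_ifs with h
    · rfl
    · rw [lp.single_apply_ne]
      omega

lemma apply_e2_zero {M i : ℕ} (hi : i < M) {f : XX →L[ℂ] ℂ} (hf : f.comp (PX M) = 0) :
    f (e2 i) = 0 := by
  rw [← PX_e2 hi]
  exact DFunLike.congr_fun hf (e2 i)

lemma comp_PX_of_le {m M : ℕ} (h : m ≤ M) {f : XX →L[ℂ] ℂ} (hf : f.comp (PX M) = 0) :
    f.comp (PX m) = 0 := by
  refine ContinuousLinearMap.ext (fun x => ?_)
  have := DFunLike.congr_fun hf (PX m x)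
  rw [ContinuousLinearMap.comp_apply, isProjSeq_PX.proj' m M h] at this
  exact this

lemma J_single (i : ℕ) (a : ℂ) : J (lp.single 1 i a) = lp.single 2 i a := by
  ext j
  rw [J_apply]
  simp [lp.coeFn_single]

lemma norm_comp_SX_le {f : XX →L[ℂ] ℂ} {K : ℝ} (hK : 0 ≤ K) (h : ∀ i, ‖f (e2 i)‖ ≤ K) :
    ‖f.comp SX‖ ≤ K := by
  apply ContinuousLinearMap.opNorm_le_bound _ hK
  intro x
  set g : Lp 1 →L[ℂ] ℂ := f.comp ((ContinuousLinearMap.inr ℂ (Lp 1) (Lp 2)).comp J) with hg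
  have h1 : (f.comp SX) x = g x.1 := rfl
  have h2 : HasSum (fun i => g (lp.single 1 i (x.1 i))) (g x.1) :=
    (lp.hasSum_single (by norm_num) x.1).mapL g
  have h3 : ∀ i, g (lp.single 1 i (x.1 i)) = x.1 i * f (e2 i) := by
    intro i
    have h4 : (lp.single 1 i (x.1 i) : Lp 1) = x.1 i • lp.single 1 i (1 : ℂ) := by
      rw [← lp.single_smul, smul_eq_mul, mul_one]
    have h5 : g (lp.single 1 i (1 : ℂ)) = f (e2 i) := by
      simp only [hg, ContinuousLinearMap.comp_apply]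
      rw [J_single]
      rfl
    rw [h4, map_smul, smul_eq_mul, h5]
  simp_rw [h3] at h2
  have h4 : ∀ i, ‖x.1 i * f (e2 i)‖ ≤ K * ‖x.1 i‖ := by
    intro i
    rw [norm_mul, mul_comm]
    gcongr
    exact h i
  have h5 := (hasSum_norm_one x.1).mul_left K
  rw [h1]
  calc ‖g x.1‖ = ‖∑' i, x.1 i * f (e2 i)‖ := by rw [h2.tsum_eq]
    _ ≤ K * ‖x.1‖ := tsum_of_norm_bounded h5 h4
    _ ≤ K * ‖x‖ := by gcongr; exact norm_fst_le x

lemma tendsto_e2 (f : XX →L[ℂ] ℂ) : Tendsto (fun i => ‖f (e2 i)‖) atTop (𝓝 0) := by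
  set h : Lp 2 →L[ℂ] ℂ := f.comp (ContinuousLinearMap.inr ℂ (Lp 1) (Lp 2)) with hh
  set y : Lp 2 := (InnerProductSpace.toDual ℂ (Lp 2)).symm h with hy
  have h1 : ∀ i, ‖f (e2 i)‖ = ‖y i‖ := by
    intro i
    have h2 : f (e2 i) = h (lp.single 2 i 1) := rfl
    have h3 : inner ℂ y (lp.single 2 i (1 : ℂ)) = h (lp.single 2 i 1) := by
      rw [hy, InnerProductSpace.toDual_symm_apply]
    rw [h2, ← h3, lp.inner_single_right]
    simp
  simp_rw [h1]
  have h2 := (hasSum_norm_two y).summable.tendsto_atTop_zero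
  have h3 := h2.sqrt
  simpa [Real.sqrt_sq] using h3

lemma step_minus {T' : XX →L[ℂ] XX} (h : ¬ MM PX T') (M : ℕ) {ε : ℝ} (hε : 0 < ε) :
    ∃ f : XX →L[ℂ] ℂ, ‖f‖ = 1 ∧ f.comp (PX M) = 0 ∧ ‖f.comp T'‖ ≤ ε := by
  have h1 : ∃ f : XX →L[ℂ] ℂ, f.comp (PX M) = 0 ∧ ‖f.comp T'‖ < ε * ‖f‖ := by
    by_contra hcon
    push Not at hcon
    exact h ⟨M, ε, hε, hcon⟩
  obtain ⟨f, hf1, hf2⟩ := h1
  have hy0 : 0 < ‖f‖ := by
    have := norm_nonneg (f.comp T')
    by_contra h6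
    have h7 : ‖f‖ = 0 := le_antisymm (not_lt.mp h6) (norm_nonneg _)
    rw [h7, mul_zero] at hf2
    linarith
  refine ⟨((‖f‖⁻¹ : ℝ) : ℂ) • f, ?_, ?_, ?_⟩
  · rw [norm_smul, Complex.norm_real, norm_inv, norm_norm, inv_mul_cancel₀ hy0.ne']
  · rw [ContinuousLinearMap.smul_comp, hf1]
    ext x <;> simp
  · rw [ContinuousLinearMap.smul_comp, norm_smul, Complex.norm_real, norm_inv, norm_norm,
      inv_mul_le_iff₀ hy0]
    linarith

/-- `MM` is stable under adding multiples of `S`. -/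
theorem MM.add_smul {T : XX →L[ℂ] XX} (hT : MM PX T) (μ : ℂ) : MM PX (T + μ • SX) := by
  by_contra hcon
  obtain ⟨m0, c, hc, hlow⟩ := hT
  set T' := T + μ • SX with hT'
  have hTT' : ∀ f : XX →L[ℂ] ℂ, ‖f.comp T‖ ≤ ‖f.comp T'‖ + ‖μ‖ * ‖f.comp SX‖ := by
    intro f
    have h1 : f.comp T = f.comp T' - μ • f.comp SX := by
      ext x <;> simp [hT']
    rw [h1]
    calc _ ≤ ‖f.comp T'‖ + ‖μ • f.comp SX‖ := norm_sub_le _ _
      _ = _ := by rw [norm_smul]
  set δ : ℝ := c / (2 * (‖μ‖ + 1)) with hδ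
  have hμ1 : 0 < ‖μ‖ + 1 := by positivity
  have hδ0 : 0 < δ := by positivity
  have key : ∀ k : ℕ, ∃ (z : XX →L[ℂ] ℂ) (v : XX) (M : ℕ), m0 ≤ M ∧ z.comp (PX m0) = 0 ∧
      (∀ i, ‖z (e2 i)‖ ≤ 2 - (1 / 2) ^ k) ∧ ‖z.comp T'‖ ≤ 1 - (1 / 2) ^ k ∧
      PX M v = v ∧ v.1 = 0 ∧ ‖v.2‖ ^ 2 ≤ k ∧ (k : ℝ) * δ - (1 - (1 / 2) ^ k) ≤ (z v).re := by
    intro k
    induction k with
    | zero =>
      refine ⟨0, 0, m0, le_rfl, ?_, ?_, ?_, by simp, rfl, by simp, by simp⟩
      · ext x <;> simp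
      · intro i
        norm_num
      · simp
    | succ k ih =>
      obtain ⟨z, v, M, hM, hz1, hz2, hz3, hv1, hv2, hv3, hv4⟩ := ih
      have hpk : (0 : ℝ) < (1 / 2) ^ (k + 1) := by positivity
      obtain ⟨M1, hM1, hM1'⟩ : ∃ M1, M ≤ M1 ∧ ∀ i ≥ M1, ‖z (e2 i)‖ ≤ (1 / 2) ^ (k + 1) := by
        have h1 := (tendsto_e2 z).eventually (ge_mem_nhds hpk)
        obtain ⟨M0, hM0⟩ := eventually_atTop.mp h1
        exact ⟨max M M0, le_max_left _ _, fun i hi => hM0 i ((le_max_right _ _).trans hi)⟩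
      obtain ⟨f, hf1, hf2, hf3⟩ := step_minus hcon M1
        (show 0 < min (c / 2) ((1 / 2) ^ (k + 1)) by positivity)
      obtain ⟨i, hi⟩ : ∃ i, δ < ‖f (e2 i)‖ := by
        by_contra hno
        push Not at hno
        have h1 := norm_comp_SX_le hδ0.le hno
        have h2 := hlow f (comp_PX_of_le (hM.trans hM1) hf2)
        rw [hf1, mul_one] at h2
        have h3 := hTT' f
        have h4 : ‖f.comp T'‖ ≤ c / 2 := hf3.trans (min_le_left _ _)
        have h5 : ‖μ‖ * ‖f.comp SX‖ ≤ ‖μ‖ * δ := by gcongr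
        have h6 : (‖μ‖ + 1) * δ = c / 2 := by
          rw [hδ]
          field_simp
        nlinarith
      have hiM : M1 ≤ i := by
        by_contra h1
        rw [apply_e2_zero (not_le.mp h1) hf2, norm_zero] at hi
        linarith
      have hfi1 : ∀ j, ‖f (e2 j)‖ ≤ 1 := by
        intro j
        have := f.le_opNorm (e2 j)
        rwa [hf1, norm_e2, mul_one] at this
      have hfi0 : f (e2 i) ≠ 0 := by
        intro h0
        rw [h0, norm_zero] at hi
        linarith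
      obtain ⟨θ, hθ1, hθ2⟩ : ∃ θ : ℂ, ‖θ‖ = 1 ∧ θ * f (e2 i) = (‖f (e2 i)‖ : ℂ) := by
        refine ⟨(‖f (e2 i)‖ : ℂ) / f (e2 i), ?_, ?_⟩
        · rw [norm_div, Complex.norm_real, norm_norm, div_self (norm_ne_zero_iff.mpr hfi0)]
        · field_simp
      refine ⟨z + f, v + θ • e2 i, i + 1, by omega, ?_, ?_, ?_, ?_, ?_, ?_, ?_⟩
      · rw [ContinuousLinearMap.add_comp, hz1, comp_PX_of_le (hM.trans hM1) hf2, add_zero]
      · intro j
        rw [ContinuousLinearMap.add_apply]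
        rcases lt_or_ge j M1 with hj | hj
        · rw [apply_e2_zero hj hf2, add_zero]
          have h1 := hz2 j
          have h2 : (1 / 2 : ℝ) ^ (k + 1) ≤ (1 / 2) ^ k :=
            pow_le_pow_of_le_one (by norm_num) (by norm_num) (Nat.le_succ k)
          linarith
        · have h1 := hM1' j hj
          have h2 := hfi1 j
          have h3 : (1 / 2 : ℝ) ^ (k + 1) ≤ 1 / 2 := by
            rw [pow_succ]
            have : (1 / 2 : ℝ) ^ k ≤ 1 := pow_le_one₀ (by norm_num) (by norm_num)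
            linarith
          calc ‖z (e2 j) + f (e2 j)‖ ≤ ‖z (e2 j)‖ + ‖f (e2 j)‖ := norm_add_le _ _
            _ ≤ _ := by linarith
      · rw [ContinuousLinearMap.add_comp]
        have h1 : ‖f.comp T'‖ ≤ (1 / 2) ^ (k + 1) := hf3.trans (min_le_right _ _)
        calc _ ≤ ‖z.comp T'‖ + ‖f.comp T'‖ := norm_add_le _ _
          _ ≤ (1 - (1 / 2) ^ k) + (1 / 2) ^ (k + 1) := add_le_add hz3 h1
          _ = _ := by ring
      · rw [map_add, map_smul, PX_e2 (Nat.lt_succ_self i)]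
        congr 1
        rw [← hv1, isProjSeq_PX.proj' M (i + 1) (by omega)]
      · rw [Prod.fst_add, hv2, Prod.smul_fst, e2, smul_zero, add_zero]
      · rw [Prod.snd_add, norm_add_two]
        · rw [Prod.smul_snd, norm_smul, hθ1, e2]
          simp only [one_mul]
          rw [lp.norm_single (E := fun _ : ℕ => ℂ) (p := 2) (by norm_num) i (1 : ℂ)]
          have hcast : ((k + 1 : ℕ) : ℝ) = (k : ℝ) + 1 := by push_cast; ring
          rw [hcast, norm_one, one_pow]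
          exact add_le_add hv3 le_rfl
        · intro j
          rcases lt_or_ge j M with hj | hj
          · right
            rw [Prod.smul_snd, lp.coeFn_smul, Pi.smul_apply, e2]
            have : j ≠ i := by omega
            rw [lp.single_apply_ne (E := fun _ : ℕ => ℂ) 2 i (1 : ℂ) this, smul_zero]
          · left
            exact (coord_zero_high hv1 hj).2
      · rw [ContinuousLinearMap.add_apply, map_add, map_add, map_smul, map_smul, smul_eq_mul,
          smul_eq_mul, hθ2]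
        have h1 : f v = 0 := by
          rw [← hv1]
          exact DFunLike.congr_fun (comp_PX_of_le hM1 hf2) v
        rw [h1]
        have h2 : -((1 / 2 : ℝ) ^ (k + 1)) ≤ (θ * z (e2 i)).re := by
          have h3 : ‖θ * z (e2 i)‖ ≤ (1 / 2) ^ (k + 1) := by
            rw [norm_mul, hθ1, one_mul]
            exact hM1' i hiM
          have h4 := Complex.abs_re_le_norm (θ * z (e2 i))
          have h5 := neg_abs_le (θ * z (e2 i)).re
          exact (neg_le_neg (h4.trans h3)).trans h5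
        have hcast : ((k + 1 : ℕ) : ℝ) = (k : ℝ) + 1 := by push_cast; ring
        have h6 : (1 / 2 : ℝ) ^ k = 2 * (1 / 2) ^ (k + 1) := by ring
        have h7 : (z v + θ * z (e2 i) + (0 + (‖f (e2 i)‖ : ℂ))).re
            = (z v).re + (θ * z (e2 i)).re + ‖f (e2 i)‖ := by
          simp only [Complex.add_re, Complex.ofReal_re, Complex.zero_re, zero_add]
        rw [h7, hcast, add_mul, one_mul]
        rw [h6] at hv4
        set A := (z v).re
        set B := (θ * z (e2 i)).re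
        set C := ‖f (e2 i)‖
        set D := (1 / 2 : ℝ) ^ (k + 1)
        linarith
  apply growth_contra (μ := c + 1 + 2 * ‖μ‖) hc hδ0 (by positivity)
  intro n hn
  obtain ⟨z, v, M, -, hz1, hz2, hz3, -, hv2, hv3, hv4⟩ := key (n ^ 2)
  have hp : (0 : ℝ) ≤ (1 / 2) ^ (n ^ 2) := by positivity
  have h1 := hlow z hz1
  have h2 := hTT' z
  have h3 : ‖z.comp SX‖ ≤ 2 := norm_comp_SX_le (by norm_num) (fun i => (hz2 i).trans (by linarith))
  have h4 : ‖v.2‖ ≤ n := by
    have h5 : ‖v.2‖ ^ 2 ≤ (n : ℝ) ^ 2 := by exact_mod_cast hv3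
    exact (pow_le_pow_iff_left₀ (norm_nonneg _) (by positivity) (by norm_num)).mp h5
  have h5 : ‖v‖ ≤ n := by
    rw [Prod.norm_def, hv2, norm_zero]
    exact max_le (by positivity) h4
  have h6 : c * ‖z‖ ≤ 1 + 2 * ‖μ‖ := by
    have : ‖μ‖ * ‖z.comp SX‖ ≤ ‖μ‖ * 2 := by gcongr
    linarith
  have h7 : (z v).re ≤ ‖z‖ * n := by
    calc (z v).re ≤ ‖z v‖ := Complex.re_le_norm _
      _ ≤ ‖z‖ * ‖v‖ := z.le_opNorm v
      _ ≤ _ := by gcongr
  push_cast at hv4
  have hn1 : (1 : ℝ) ≤ n := by exact_mod_cast hn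
  have h8 : (n : ℝ) ^ 2 * δ - 1 ≤ ‖z‖ * n := by linarith
  calc c * ((n : ℝ) ^ 2 * δ) ≤ c * (‖z‖ * n + 1) := by gcongr; linarith
    _ = c * ‖z‖ * n + c := by ring
    _ ≤ (1 + 2 * ‖μ‖) * n + c := by gcongr
    _ ≤ 1 + (c + 1 + 2 * ‖μ‖) * n := by nlinarith

end

end Q76.SF
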