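import Mathlib
import Pool.Agent.Q76.SfMinus

/-!
# The counterexample on `ℓ¹ × ℓ²`
-/

namespace Q76.SF

open Set Topology Filter

noncomputable section

/-- Semi-Fredholmness is invariant under adding multiples of `S`. -/
theorem isSemiFredholm_add_smul (T : XX →L[ℂ] XX) (μ : ℂ) :
    IsSemiFredholm (T + μ • SX) ↔ IsSemiFredholm T := by
  have key : ∀ (T : XX →L[ℂ] XX) (μ : ℂ), IsSemiFredholm T → IsSemiFredholm (T + μ • SX) := by
    intro T μ h
    rw [isSemiFredholm_iff isProjSeq_PX] at h ⊢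
    rcases h with h | h
    · exact Or.inl (h.add_smul μ)
    · exact Or.inr (h.add_smul μ)
  constructor
  · intro h
    have h1 := key _ (-μ) h
    have h2 : T + μ • SX + (-μ) • SX = T := by
      rw [add_assoc, ← add_smul, add_neg_cancel, zero_smul, add_zero]
    rwa [h2] at h1
  · exact key T μ

/-- The functional `A ↦ (A (e₀, 0))₁ (1)`. -/
def ell : (XX →L[ℂ] XX) →L[ℂ] ℂ :=
  ((lp.evalCLM (𝕜 := ℂ) (fun _ : ℕ => ℂ) 1 1).comp (ContinuousLinearMap.fst ℂ (Lp 1) (Lp 2))).comp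
    (ContinuousLinearMap.apply ℂ XX ((lp.single 1 0 1, 0) : XX))

lemma ell_apply (A : XX →L[ℂ] XX) : ell A = (A (lp.single 1 0 1, 0)).1 1 := rfl

lemma ell_SX : ell SX = 0 := by
  rw [ell_apply, SX_apply]
  rfl

lemma ell_one : ell 1 = 0 := by
  rw [ell_apply]
  show (lp.single 1 0 (1 : ℂ) : Lp 1) 1 = 0
  rw [lp.single_apply_ne]
  norm_num

/-- The map `φ (A) = A + ℓ (A) S`. -/
def phi : (XX →L[ℂ] XX) →L[ℂ] (XX →L[ℂ] XX) :=
  ContinuousLinearMap.id ℂ (XX →L[ℂ] XX) + ell.smulRight SX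

lemma phi_apply (A : XX →L[ℂ] XX) : phi A = A + ell A • SX := rfl

lemma phi_bijective : Function.Bijective phi := by
  constructor
  · rw [injective_iff_map_eq_zero]
    intro A hA
    rw [phi_apply] at hA
    have h1 : ell (A + ell A • SX) = 0 := by rw [hA, map_zero]
    rw [map_add, map_smul, ell_SX, smul_zero, add_zero] at h1
    rw [h1, zero_smul, add_zero] at hA
    exact hA
  · intro A
    refine ⟨A - ell A • SX, ?_⟩
    rw [phi_apply, map_sub, map_smul, ell_SX, smul_zero, sub_zero, sub_add_cancel]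

/-- The rank one operator `x ↦ x.1 0 • (e₁, 0)`. -/
def K0 : XX →L[ℂ] XX :=
  (ContinuousLinearMap.toSpanSingleton ℂ ((lp.single 1 1 1, 0) : XX)).comp
    ((lp.evalCLM (𝕜 := ℂ) (fun _ : ℕ => ℂ) 1 0).comp (ContinuousLinearMap.fst ℂ (Lp 1) (Lp 2)))

lemma isCompact_K0 : IsCompactOperator K0 := by
  have h : IsCompactOperator (ContinuousLinearMap.toSpanSingleton ℂ ((lp.single 1 1 1, 0) : XX)) :=
    isCompactOperator_of_locallyCompactSpace_rng _
  exact IsCompactOperator.comp_clm h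
    ((lp.evalCLM (𝕜 := ℂ) (fun _ : ℕ => ℂ) 1 0).comp (ContinuousLinearMap.fst ℂ (Lp 1) (Lp 2)))

lemma ell_K0 : ell K0 = 1 := by
  rw [ell_apply]
  have h1 : K0 (lp.single 1 0 1, 0) = (lp.single 1 0 (1 : ℂ) : Lp 1) 0 •
      ((lp.single 1 1 1, 0) : XX) := rfl
  rw [h1, lp.single_apply_self, one_smul]
  show (lp.single 1 1 (1 : ℂ) : Lp 1) 1 = 1
  rw [lp.single_apply_self]

lemma norm_e2_sub {i j : ℕ} (h : i ≠ j) : 1 ≤ ‖e2 i - e2 j‖ := by
  have h1 : ‖(e2 i - e2 j).2‖ ≤ ‖e2 i - e2 j‖ := norm_snd_le _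
  have h2 := lp.norm_apply_le_norm (p := 2) (by norm_num) (e2 i - e2 j).2 i
  refine le_trans ?_ (h2.trans h1)
  rw [Prod.snd_sub, lp.coeFn_sub, Pi.sub_apply, e2, e2]
  simp only
  rw [lp.single_apply_self, lp.single_apply_ne (E := fun _ : ℕ => ℂ) 2 j (1 : ℂ) h]
  simp

lemma not_isCompact_SX : ¬ IsCompactOperator SX := by
  intro h
  obtain ⟨K, hK, hK2⟩ := h.image_closedBall_subset_compact (𝕜₁ := ℂ) (f := (SX : XX →ₗ[ℂ] XX)) 1
  have h1 : ∀ i, e2 i ∈ K := by
    intro i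
    apply hK2
    refine ⟨(lp.single 1 i 1, 0), ?_, ?_⟩
    · rw [mem_closedBall_zero_iff, Prod.norm_def]
      simp [lp.norm_single (E := fun _ : ℕ => ℂ) (p := 1) (by norm_num) i (1 : ℂ)]
    · show SX (lp.single 1 i 1, 0) = e2 i
      rw [SX_apply, J_single]
      rfl
  obtain ⟨y, -, ψ, hψ, hy⟩ := hK.tendsto_subseq h1
  have h2 := hy.cauchySeq
  rw [Metric.cauchySeq_iff] at h2
  obtain ⟨N, hN⟩ := h2 1 one_pos
  have h3 := hN N le_rfl (N + 1) (Nat.le_succ N)
  rw [dist_eq_norm] at h3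
  have h4 : ψ N ≠ ψ (N + 1) := (hψ (Nat.lt_succ_self N)).ne
  have h5 := norm_e2_sub h4
  simp only [Function.comp_apply] at h3
  linarith

lemma not_finiteDimensional : ¬ FiniteDimensional ℂ XX := by
  intro h
  apply not_isCompact_SX
  have : ProperSpace XX := FiniteDimensional.proper ℂ XX
  exact isCompactOperator_of_locallyCompactSpace_dom _

/-- The counterexample. -/
theorem counterexample :
    PreservesSemiFredholm (phi : (XX →L[ℂ] XX) →ₗ[ℂ] (XX →L[ℂ] XX)) ∧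
      SurjectiveUpToCompact (phi : (XX →L[ℂ] XX) →ₗ[ℂ] (XX →L[ℂ] XX)) ∧
      ¬ MapsCompactToCompact (phi : (XX →L[ℂ] XX) →ₗ[ℂ] (XX →L[ℂ] XX)) := by
  refine ⟨fun A => ?_, fun A => ?_, fun h => ?_⟩
  · show IsSemiFredholm (phi A) ↔ _
    rw [phi_apply]
    exact isSemiFredholm_add_smul A _
  · obtain ⟨B, rfl⟩ := phi_bijective.2 A
    refine ⟨B, ?_⟩
    show IsCompactOperator (phi B - phi B : XX →L[ℂ] XX)
    rw [sub_self]
    exact isCompactOperator_zero
  · have h1 : IsCompactOperator (phi K0) := h K0 isCompact_K0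
    apply not_isCompact_SX
    have h2 : SX = phi K0 - K0 := by
      rw [phi_apply, ell_K0, one_smul, add_sub_cancel_left]
    rw [h2]
    exact h1.sub isCompact_K0

end

end Q76.SF
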