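import Mathlib

/-!
# Polar decomposition of finite-dimensional vector measures

For a vector measure `ν` with values in a finite-dimensional real inner product space and of finite
total variation `|ν|` there is a density `σ` with `‖σ‖ = 1` almost everywhere and
`ν = σ |ν|`, and integrals of scalar functions against `ν` are integrals against `σ |ν|`.
-/

namespace Q76.VectorPolar

open MeasureTheory VectorMeasure Filter Topology
open scoped ENNReal NNReal

variable {X : Type*} [MeasurableSpace X] {W : Type*} [NormedAddCommGroup W]
  [InnerProductSpace ℝ W] [FiniteDimensional ℝ W]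

/-- Existence of a density with respect to the total variation. -/
lemma exists_density (ν : VectorMeasure X W) [IsFiniteMeasure ν.variation] :
    ∃ σ : X → W, Integrable σ ν.variation ∧ ν.variation.withDensityᵥ σ = ν := by
  classical
  set e := stdOrthonormalBasis ℝ W with he
  let νi : Fin (Module.finrank ℝ W) → SignedMeasure X := fun i =>
    ν.mapRange (innerSL ℝ (e i)).toLinearMap.toAddMonoidHom (innerSL ℝ (e i)).continuous
  have hac : ∀ i, νi i ≪ᵥ ν.variation.toENNRealVectorMeasure := by
    intro i s hs
    by_cases hsm : MeasurableSet s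
    · rw [Measure.toENNRealVectorMeasure_apply_measurable hsm] at hs
      have h0 : ν s = 0 := by
        have := enorm_measure_le_variation ν s
        rw [hs] at this
        simpa using this
      simp [νi, h0]
    · exact (νi i).not_measurable hsm
  have hd : ∀ i, ν.variation.withDensityᵥ ((νi i).rnDeriv ν.variation) = νi i :=
    fun i => SignedMeasure.withDensityᵥ_rnDeriv_eq _ _ (hac i)
  have hint : ∀ i, Integrable ((νi i).rnDeriv ν.variation) ν.variation := fun i =>
    SignedMeasure.integrable_rnDeriv _ _
  have hint2 : ∀ i, Integrable (fun x => (νi i).rnDeriv ν.variation x • e i) ν.variation :=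
    fun i => (hint i).smul_const (e i)
  have hσ : Integrable (fun x => ∑ i, (νi i).rnDeriv ν.variation x • e i) ν.variation :=
    integrable_finsetSum _ fun i _ => hint2 i
  refine ⟨_, hσ, ?_⟩
  ext1 s hs
  rw [withDensityᵥ_apply hσ hs, integral_finsetSum _ fun i _ => (hint2 i).integrableOn]
  have h1 : ∀ i, ∫ x in s, (νi i).rnDeriv ν.variation x • e i ∂ν.variation = νi i s • e i := by
    intro i
    rw [integral_smul_const]
    congr 1
    conv_rhs => rw [← hd i]
    rw [withDensityᵥ_apply (hint i) hs]
  simp_rw [h1]
  have h2 : ∀ i, νi i s = inner ℝ (e i) (ν s) := by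
    intro i
    simp [νi]
  simp_rw [h2]
  exact e.sum_repr' (ν s)

/-- Polar decomposition. -/
theorem exists_polar (ν : VectorMeasure X W) [IsFiniteMeasure ν.variation] :
    ∃ σ : X → W, Integrable σ ν.variation ∧ (∀ᵐ x ∂ν.variation, ‖σ x‖ = 1) ∧
      ν.variation.withDensityᵥ σ = ν := by
  obtain ⟨σ, hσ, hν⟩ := exists_density ν
  refine ⟨σ, hσ, ?_, hν⟩
  have h1 := Measure.variation_withDensityᵥ hσ
  rw [hν] at h1
  have h2 : (fun x => ‖σ x‖ₑ) =ᵐ[ν.variation] fun _ => 1 := by
    have h3 : ν.variation.withDensity (fun x => ‖σ x‖ₑ) = ν.variation.withDensity (fun _ => 1) := by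
      rw [← h1]
      exact withDensity_one.symm
    refine (withDensity_eq_iff hσ.aestronglyMeasurable.enorm aemeasurable_const ?_).mp h3
    exact hσ.2.ne
  filter_upwards [h2] with x hx
  have : ‖σ x‖ₑ = 1 := hx
  rw [← ofReal_norm] at this
  have h4 := congrArg ENNReal.toReal this
  rwa [ENNReal.toReal_ofReal (norm_nonneg _), ENNReal.toReal_one] at h4

/-- Integrals of scalar functions against a vector measure with a bounded density. -/
theorem integral_eq_of_polar (ν : VectorMeasure X W) [IsFiniteMeasure ν.variation] {σ : X → W}
    (hσ : Integrable σ ν.variation) (h1 : ∀ᵐ x ∂ν.variation, ‖σ x‖ = 1)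
    (hν : ν.variation.withDensityᵥ σ = ν) {f : X → ℝ} (hf : Integrable f ν.variation) :
    ∫ᵛ x, f x ∂•ν = ∫ x, f x • σ x ∂ν.variation := by
  have hsm : ∀ g : X → ℝ, Integrable g ν.variation →
      Integrable (fun x => g x • σ x) ν.variation := by
    intro g hg
    refine hg.norm.mono' (hg.aestronglyMeasurable.smul hσ.aestronglyMeasurable) ?_
    filter_upwards [h1] with x hx
    rw [norm_smul, hx, mul_one]
  apply hf.induction (P := fun f => ∫ᵛ x, f x ∂•ν = ∫ x, f x • σ x ∂ν.variation)
  · intro c s hs hc
    have : IsFiniteMeasure (ν.variation.restrict s) := ⟨by simp [hc]⟩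
    rw [VectorMeasure.integral_indicator_const _ hs]
    have h2 : (fun x => s.indicator (fun _ => c) x • σ x) = s.indicator (fun x => c • σ x) := by
      funext x
      by_cases hx : x ∈ s <;> simp [hx]
    rw [h2, MeasureTheory.integral_indicator hs, MeasureTheory.integral_smul,
      ← withDensityᵥ_apply hσ hs, hν]
    rfl
  · intro f g _ f_int g_int hf hg
    simp only [Pi.add_apply]
    rw [integral_fun_add f_int g_int, hf, hg]
    simp_rw [add_smul]
    rw [MeasureTheory.integral_add (hsm f f_int) (hsm g g_int)]
  · apply isClosed_eq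
    · exact continuous_integral
    · have hL : LipschitzWith 1 (fun f : X →₁[ν.variation] ℝ => ∫ x, f x • σ x ∂ν.variation) := by
        apply LipschitzWith.of_dist_le_mul
        intro f g
        rw [dist_eq_norm, dist_eq_norm, NNReal.coe_one, one_mul,
          ← MeasureTheory.integral_sub (hsm _ (L1.integrable_coeFn f))
            (hsm _ (L1.integrable_coeFn g)), L1.norm_eq_integral_norm]
        refine (norm_integral_le_integral_norm _).trans ?_
        apply MeasureTheory.integral_mono_ae
        · exact ((hsm _ (L1.integrable_coeFn f)).sub (hsm _ (L1.integrable_coeFn g))).norm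
        · exact (L1.integrable_coeFn (f - g)).norm
        · filter_upwards [h1, Lp.coeFn_sub f g] with x hx hfg
          rw [hfg, ← sub_smul, norm_smul, hx, mul_one]
          rfl
      exact hL.continuous
  · intro f g hfg _ hf
    rw [← VectorMeasure.integral_congr_ae hfg, hf]
    apply MeasureTheory.integral_congr_ae
    filter_upwards [hfg] with x hx
    rw [hx]

end Q76.VectorPolar
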